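import Pool.Agent.P.MP_347bd1_pr.M.Iface

/-! Steps BULK, EXPL. -/

set_option autoImplicit false

namespace Pool.Agent.P.MP_347bd1_pr.M

open Classical Finset Filter Topology
open scoped ENNReal NNReal

/-- The run from `v` meets a thin place at a distance between `r` and `s`. -/
def bulkw_A (N : Net) (s r t : ℤ) (v : Pt) (W : List Dir) : Prop :=
  ∃ z, Vis N v W z ∧ nrm (z - v) ≤ s ∧ r ≤ nrm (z - v) ∧ NearK N t z

theorem bulkw_fin (N : Net) (v : Pt) (A : List Dir → Prop) : hm N v A ≠ ∞ :=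
  ne_top_of_le_ne_top (hN_ne_top N v) (hm_le_hN N v A)

theorem bulkw_markov (N : Net) (t L0 l : ℕ) (s : ℤ) (c y : Pt) (hl : 1 ≤ l) (h1 : nrm (y - c) ≤ t)
    (h2 : 8 * ((L0 + 4) * (t * 5 ^ (4 * l)) : ℕ) ≤ s) :
    (hm N y (Many2 N t (L0 + 4) l c y)).toReal ≤
      (∑ j ∈ range (4 * l), (hm N y (bulkw_A N s (L0 * (t * 5 ^ j)) (t * 5 ^ j) y)).toReal) / l := by
  have e : l * hm N y (Many2 N t (L0 + 4) l c y) ≤ ∑ j ∈ range (4 * l),
      hm N y (Thin2 N (t * 5 ^ j) ((L0 + 4 : ℕ) * (t * 5 ^ j)) c y) := by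
    simp only [hm, ms]
    rw [← Summable.tsum_finsetSum fun _ _ => ENNReal.summable, ← ENNReal.tsum_mul_left]
    refine ENNReal.tsum_le_tsum fun W => ?_
    split_ifs with h
    · simp only [h.1, true_and, ← sum_filter, sum_const, nsmul_eq_mul]
      exact mul_le_mul_left (by exact_mod_cast h.2) _
    · simp
  have e2 : l * hm N y (Many2 N t (L0 + 4) l c y) ≤ ∑ j ∈ range (4 * l),
      hm N y (bulkw_A N s (L0 * (t * 5 ^ j)) (t * 5 ^ j) y) := by
    refine e.trans (sum_le_sum fun j hj => ms_mono fun W h => ?_)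
    obtain ⟨r, z, a1, a2, a3, a4⟩ := h
    have b1 := nrm_tri z y c
    have b2 := nrm_tri z c y
    rw [nrm_sub_comm c y] at b2
    have p0 : (1 : ℤ) ≤ 5 ^ j := one_le_pow₀ (by norm_num)
    have p1 : (5 : ℤ) ^ j ≤ 5 ^ (4 * l) := pow_le_pow_right₀ (by norm_num) (mem_range.1 hj).le
    have p2 : (t : ℤ) ≤ t * 5 ^ j := le_mul_of_one_le_right (by positivity) p0
    have p3 : ((L0 : ℤ) + 4) * (t * 5 ^ j) ≤ (L0 + 4) * (t * 5 ^ (4 * l)) := by gcongr
    have p4 : (0 : ℤ) ≤ L0 * (t * 5 ^ j) := by positivity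
    have p5 : (0 : ℤ) ≤ t := by positivity
    push_cast at a2 a3 h2
    exact ⟨r, z, a1, by linarith, by linarith, a4⟩
  rw [le_div_iff₀ (by positivity), ← ENNReal.toReal_sum fun _ _ => bulkw_fin N y _, mul_comm]
  exact le_of_eq_of_le (by simp)
    (ENNReal.toReal_mono (ENNReal.sum_ne_top.2 fun _ _ => bulkw_fin N y _) e2)

theorem bulkw_two (A V : Finset Pt) (r r' : ℕ) (f : Pt → ℝ) (hf : ∀ y, 0 ≤ f y) :
    ∑ z ∈ A, ∑ t ∈ ball z r, ∑ y ∈ V.filter (fun y => nrm (y - t) ≤ r'), f y ≤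
      (2 * r + 1) ^ 2 * ((2 * r' + 1) ^ 2 * ∑ y ∈ V, f y) := by
  refine le_trans (le_of_eq (sum_congr rfl fun z hz => sum_congr ?_ fun _ _ => rfl))
    ((sum_ball_le A (A.biUnion fun z => ball z r) r _ fun t => sum_nonneg fun y _ => hf y).trans
      (mul_le_mul_of_nonneg_left (sum_ball_le _ V r' f hf) (by positivity)))
  ext t
  simp only [mem_filter, mem_biUnion, mem_ball]
  exact ⟨fun h => ⟨⟨z, hz, h⟩, h⟩, fun h => h.2⟩

theorem bulkw_geo (M k : ℕ) : ∑ j ∈ (range k).filter (fun j => 2 ^ j ≤ M), (2 : ℝ) ^ j ≤ 2 * M := by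
  have h : ∀ k : ℕ, ∑ j ∈ range k, (2 : ℝ) ^ j ≤ 2 ^ k := fun k => by
    induction k with
    | zero => simp
    | succ k ih => rw [sum_range_succ, pow_succ]; linarith
  rcases Nat.eq_zero_or_pos M with rfl | hM
  · simp
  refine (sum_le_sum_of_subset_of_nonneg (t := range (Nat.log 2 M + 1)) (fun j hj => ?_)
    fun _ _ _ => by positivity).trans ((h _).trans ?_)
  · exact mem_range.2 (Nat.lt_succ_of_le (Nat.le_log_of_pow_le one_lt_two (mem_filter.1 hj).2))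
  · rw [pow_succ, mul_comm]
    have : 2 ^ Nat.log 2 M ≤ M := Nat.pow_log_le_self 2 hM.ne'
    gcongr
    exact_mod_cast this

theorem bulkw_s (n q a l : ℕ) (hq : 1 ≤ q) (hl : 1 ≤ l) (hn : (a + 5) * (20 * q) * l ≤ n) :
    ∃ s : ℕ, (a + 5) * l ≤ s ∧ (20 * s * q : ℤ) ≤ n ∧ (n : ℤ) + s ≤ (40 * q + 1 : ℕ) * s ∧
      (20 * s : ℤ) ≤ n := by
  obtain ⟨s, hs⟩ : ∃ s, s = n / (20 * q) := ⟨_, rfl⟩
  have s1 : (a + 5) * l ≤ s :=
    hs ▸ (Nat.le_div_iff_mul_le (by omega)).2 (le_of_eq_of_le (by ring) hn)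
  have s0 : 5 * l ≤ s := le_trans (Nat.mul_le_mul_right _ (by omega)) s1
  have s2 : (20 * s * q : ℤ) ≤ n := by
    have := Nat.div_mul_le_self n (20 * q)
    rw [← hs] at this
    zify at this; linarith
  refine ⟨s, s1, s2, ?_, by zify at hq; nlinarith⟩
  have := Nat.lt_mul_div_succ n (show 0 < 20 * q by omega)
  rw [← hs] at this
  have h : (1 : ℤ) ≤ s := by omega
  zify at this hq ⊢
  nlinarith

theorem bulkw_end {ε δ A K l : ℝ} (hδ : 0 < δ) (hl : 0 < l)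
    (h : δ * (6 * 49 * 9 * 96 * K ^ 2 * A + 1) = ε) :
    6 / l * (49 * l ^ 2 * (9 * K ^ 2 * (A * δ)) * (2 * (48 * l))) ≤ ε * l ^ 2 := by
  rw [← h, div_mul_eq_mul_div, div_le_iff₀ hl]
  nlinarith [mul_pos hδ (show (0 : ℝ) < l ^ 3 by positivity)]

theorem p_BULK (hCB : S_CB) (hCLS : S_CLS) (hNI : S_NI) (hGRN : S_GRN) (hTHN : S_THN) :
    S_BULK := by
  intro ε q hε hq
  obtain ⟨K, hK, C, C0, hCB⟩ := hCB
  obtain ⟨Cc, hC⟩ := f_cell
  obtain ⟨Cg, hG⟩ := hGRN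
  obtain ⟨c1, hc1, h2⟩ := hNI
  obtain ⟨B, hB⟩ : ∃ B : ℝ≥0, B = Cc * (40 * q + 2) ^ 2 * 2 := ⟨_, rfl⟩
  have B0 : (0 : ℝ) ≤ B := B.2
  have G0 : (0 : ℝ) ≤ Cg := Cg.2
  obtain ⟨A1, hA1⟩ : ∃ A1 : ℝ, A1 = 4 * C ^ 2 * K ^ 2 * B * (2 * Cg + 8) := ⟨_, rfl⟩
  have A0 : 0 ≤ A1 := by rw [hA1]; positivity
  obtain ⟨δ, hδ⟩ : ∃ δ : ℝ, δ = ε / (6 * 49 * 9 * 96 * K ^ 2 * A1 + 1) := ⟨_, rfl⟩
  have δ0 : 0 < δ := by rw [hδ]; positivity
  obtain ⟨η, hη⟩ : ∃ η : ℝ≥0, (η : ℝ) = δ * δ ^ 3 := ⟨⟨_, by positivity⟩, rfl⟩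
  obtain ⟨L0, h5⟩ := hTHN η (by rw [← NNReal.coe_pos, hη]; positivity)
  obtain ⟨θ, hθ, h2⟩ := h2 (L0 + 4) (by omega)
  obtain ⟨l0, hl0⟩ := exists_pow_lt_of_lt_one (x := δ * δ ^ 3) (y := (θ : ℝ)) (by positivity) hθ
  obtain ⟨l', hl'⟩ : ∃ l', l' = l0 + 1 := ⟨_, rfl⟩
  have θ1 : (θ : ℝ) ^ (2 * l') ≤ δ * δ ^ 3 :=
    (pow_le_pow_of_le_one θ.2 hθ.le (by omega)).trans hl0.le
  have θ0 : 0 ≤ (θ : ℝ) ^ (2 * l') := by positivity
  obtain ⟨R, hR⟩ : ∃ R : ℕ, R = 8 * ((L0 + 4) * (c1 * (96 * K) * 5 ^ (4 * l'))) := ⟨_, rfl⟩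
  refine ⟨(R + 48 * K + 5) * (20 * q), fun n l hl hn S hS => ?_⟩
  obtain ⟨s, s1, s2, s3, s4⟩ := bulkw_s n q _ l hq hl hn
  have s0 : 5 * l ≤ s := le_trans (Nat.mul_le_mul_right _ (Nat.le_add_left _ _)) s1
  have u0 : ∀ w, 1 ≤ w → 1 ≤ 2 * (K * w) ∧ 2 * (K * w) ≤ c1 * (2 * (K * w)) := fun w hw =>
    ⟨Nat.mul_pos two_pos (Nat.mul_pos hK hw), Nat.le_mul_of_pos_left _ hc1⟩
  set N := net n (eS n S) with hN'
  let V : ℕ → Finset Pt := fun w => (ball 0 (n + s)).filter fun y =>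
    (19 * s ≤ y.1 ∧ 2 * y.1 ≤ n + 1 + 2 * s ∧ n + 1 ≤ 2 * y.2 + 2 * s) ∧
      NearK N (2 * (K * w) : ℕ) y
  let mm : ℕ → Pt → ℝ := fun w y => (∑ j ∈ range (4 * l'), (hm N y (bulkw_A N s
    (L0 * ((c1 * (2 * (K * w)) : ℕ) * 5 ^ j)) ((c1 * (2 * (K * w)) : ℕ) * 5 ^ j) y)).toReal) / l'
  have m0 : ∀ w y, 0 ≤ mm w y := fun w y =>
    div_nonneg (sum_nonneg fun _ _ => ENNReal.toReal_nonneg) (by positivity)
  let φ : ℕ → Pt → ℝ := fun w y => C * (δ * (C / w ^ 2 * (hN N y).toReal) +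
    (θ ^ (2 * l') * (C / w ^ 2 * (hN N y).toReal) + 2 * (C / w ^ 2 * mm w y)) / δ ^ 3)
  have φ0 : ∀ w y, 0 ≤ φ w y := fun w y => by
    have := m0 w y
    simp only [φ]
    positivity
  have cell : ∀ (w : ℕ) (γ : ℝ≥0∞) (Φ : Pt → Pt → Prop),
      (∀ y, ∑ v ∈ V w, ms (fun W => Al N Set.univ v W y ∧ ∃ z, Vis N v W z ∧ Φ v z) ≤ γ) →
      ∑ v ∈ V w, hm N v (fun W => ∃ z, Vis N v W z ∧ nrm (z - v) ≤ s ∧ Φ v z) ≤ B * γ := by
    intro w γ Φ h
    refine (hC N 0 s (40 * q + 1) (V w) 2 γ Φ (by omega) (fun v hv => ?_) (fun v hv z d a m => ?_)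
      (fun _ _ z _ => hN_le N z) h).trans_eq (by rw [hB]; push_cast; ring)
    · exact (mem_ball.1 (mem_filter.1 hv).1).trans s3
    · have a1 := (corn_st hS.sc_eS m).imp_left And.left
      have a2 := (mem_filter.1 hv).2.1
      rw [nrm_le_iff, Prod.fst_sub, Prod.snd_sub] at a
      omega
  have tot : ∀ w : ℕ, 1 ≤ w → ∑ y ∈ V w, φ w y ≤ A1 * δ := by
    intro w hw
    have u1 := (u0 w hw).1
    have nk : ∀ v ∈ V w, NearK N (2 * (K * w) : ℕ) v := fun v hv => (mem_filter.1 hv).2.2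
    have d1 : ∑ v ∈ V w, (hN N v).toReal ≤ B * (Cg * (2 * (K * w)) ^ 2) := by
      rw [← ENNReal.toReal_sum fun v _ => hN_ne_top N v]
      refine (ENNReal.toReal_mono (by finiteness) ((sum_le_sum fun v _ => ms_mono fun W h =>
        ⟨h, v, vis_start _ _ _, by simp, trivial⟩).trans (cell w _ (fun _ _ => True) fun y =>
          (sum_le_sum fun v _ => ms_mono fun _ h => h.1).trans
            (hG N (V w) y _ (far_net hS.sc_eS) u1 nk).2))).trans_eq (by simp)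
    have d2 : ∑ v ∈ V w, mm w v ≤ 4 * (B * (η * (2 * (K * w)) ^ 2)) := by
      simp only [mm]
      rw [← sum_div, sum_comm, div_le_iff₀ (by rw [hl']; positivity)]
      refine (sum_le_card_nsmul _ _ (B * (η * (2 * (K * w)) ^ 2) : ℝ) fun j _ => ?_).trans_eq
        (by rw [card_range, nsmul_eq_mul]; push_cast; ring)
      have p : (1 : ℤ) ≤ (c1 * (2 * (K * w)) : ℕ) * 5 ^ j :=
        one_le_mul_of_one_le_of_one_le (by exact_mod_cast u1.trans (u0 w hw).2)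
          (one_le_pow₀ (by norm_num))
      rw [← ENNReal.toReal_sum fun v _ => bulkw_fin N v _]
      exact (ENNReal.toReal_mono (by finiteness) (cell w _ _ fun y =>
        h5 N (V w) y _ _ _ (far_net hS.sc_eS) u1 nk p le_rfl)).trans_eq (by simp)
    simp only [φ, ← mul_sum, sum_add_distrib, ← sum_div]
    have w0 : (0 : ℝ) < w := by exact_mod_cast hw
    have e1 : C / w ^ 2 * ∑ v ∈ V w, (hN N v).toReal ≤ 4 * C * K ^ 2 * B * Cg :=
      (mul_le_mul_of_nonneg_left d1 (by positivity)).trans_eq (by field_simp; ring)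
    have e2 : C / w ^ 2 * ∑ v ∈ V w, mm w v ≤ 16 * C * K ^ 2 * B * (δ * δ ^ 3) :=
      (mul_le_mul_of_nonneg_left d2 (by positivity)).trans_eq (by rw [hη]; field_simp; ring)
    have e0 : 0 ≤ C / w ^ 2 * ∑ v ∈ V w, (hN N v).toReal :=
      mul_nonneg (by positivity) (sum_nonneg fun _ _ => ENNReal.toReal_nonneg)
    have e3 : (θ ^ (2 * l') * (C / w ^ 2 * ∑ v ∈ V w, (hN N v).toReal) +
        2 * (C / w ^ 2 * ∑ v ∈ V w, mm w v)) / δ ^ 3 ≤
        δ * (4 * C * K ^ 2 * B * Cg) + 32 * C * K ^ 2 * B * δ := by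
      rw [div_le_iff₀ (by positivity)]
      have := mul_le_mul θ1 e1 e0 (by positivity)
      linarith
    refine (mul_le_mul_of_nonneg_left (add_le_add (mul_le_mul_of_nonneg_left e1 δ0.le) e3)
      C0.le).trans_eq (by rw [hA1]; ring)
  have one : ∀ z ∈ (base n).filter (fun z => (n : ℤ) ≤ q * z.1), PS n S (ArmB S z l) ≤
      6 / l * ∑ j ∈ (range (48 * l)).filter (fun j => 2 ^ j ≤ 48 * l), (∑ t ∈ ball z (2 * l + 1),
        ∑ y ∈ (V (2 ^ j)).filter (fun y => nrm (y - t) ≤ (K * 2 ^ j : ℕ)), φ (2 ^ j) y) / 2 ^ j := by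
    intro z hz
    obtain ⟨a1, a2⟩ := mem_filter.1 hz
    obtain ⟨a3, a4⟩ := mem_filter.1 a1
    have a5 : (20 * s : ℤ) ≤ z.1 := by
      zify at hq
      exact le_of_mul_le_mul_right (by linarith) (show (0 : ℤ) < q by omega)
    simp only [box, mem_product, mem_Icc] at a3
    refine hCLS n S z l _ hS hl (by unfold Away; omega) (fun j t => sum_nonneg fun y _ => φ0 _ y) ?_
    intro j T v1 v2 hj hT b1 b2 t ht
    obtain ⟨w, hw⟩ : ∃ w, w = 2 ^ j := ⟨_, rfl⟩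
    rw [← hw] at hj b2 ⊢
    have w1 : 1 ≤ w := hw ▸ Nat.one_le_two_pow
    have b3 := mem_ball.1 (b1 ht)
    rw [nrm_le_iff, Prod.fst_sub, Prod.snd_sub] at b3
    have k1 : K * w + 5 * l ≤ s := by
      refine le_trans ?_ ((Nat.mul_le_mul_right l (show 48 * K + 5 ≤ _ by omega)).trans s1)
      exact (Nat.add_le_add_right (Nat.mul_le_mul_left K hj) _).trans_eq (by ring)
    have k2 : 8 * ((L0 + 4) * (c1 * (2 * (K * w)) * 5 ^ (4 * l'))) ≤ s := by
      refine le_trans ?_ ((Nat.mul_le_mul_right l (show R ≤ _ by omega)).trans s1)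
      calc _ ≤ 8 * ((L0 + 4) * (c1 * (2 * (K * (48 * l))) * 5 ^ (4 * l'))) := by gcongr
        _ = _ := by rw [hR]; ring
    have k3 : ((K * w : ℕ) : ℤ) = K * w := Nat.cast_mul _ _
    have k4 : ((2 * (K * w) : ℕ) : ℤ) = 2 * (K * w) := by push_cast; ring
    have k5 : (0 : ℤ) ≤ K * w := by positivity
    obtain ⟨Y, y1, y2, -, E2, Kb, Gd, y3, y4⟩ := hCB n S T v1 v2 t w hS hT w1
      (sub_ball_of_conn hT.conn ht b2) (by unfold Away; omega)
    have sub : Y ⊆ (V w).filter fun y => nrm (y - t) ≤ (K * w : ℕ) := fun y hy => by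
      have c1 := (y1 y hy).1
      refine mem_filter.2 ⟨mem_filter.2 ⟨?_, ?_, k4 ▸ (y1 y hy).2⟩, k3 ▸ c1⟩
      · rw [nrm_le_iff, Prod.fst_sub, Prod.snd_sub] at c1
        rw [mem_ball, sub_zero, nrm_le_iff]
        omega
      · rw [nrm_le_iff, Prod.fst_sub, Prod.snd_sub] at c1
        omega
    generalize (V w).filter (fun y => nrm (y - t) ≤ (K * w : ℕ)) = F at sub ⊢
    have a0 : 0 ≤ C / w ^ 2 := by positivity
    have f0 : 0 ≤ ∑ y ∈ Y, (hN N y).toReal := sum_nonneg fun _ _ => ENNReal.toReal_nonneg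
    have f1 : ∑ y ∈ Y, (hN N y).toReal ≤ ∑ y ∈ F, (hN N y).toReal :=
      sum_le_sum_of_subset_of_nonneg sub fun _ _ _ => ENNReal.toReal_nonneg
    have f2 : ∑ y ∈ Y, (hm N y (Many2 N (c1 * (2 * (K * w))) (L0 + 4) l' t y)).toReal ≤
        ∑ y ∈ F, mm w y := by
      refine (sum_le_sum fun y hy => bulkw_markov N _ L0 l' s t y (by omega)
        ((y1 y hy).1.trans ?_) (by exact_mod_cast k2)).trans
        (sum_le_sum_of_subset_of_nonneg sub fun y _ _ => m0 w y)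
      rw [← k3]
      exact_mod_cast (Nat.le_mul_of_pos_left _ two_pos).trans (u0 w w1).2
    have f3 : 0 ≤ ∑ y ∈ F, mm w y := sum_nonneg fun y _ => m0 w y
    have ni := h2 n S Y t (2 * (K * w)) l' s E2 Kb Gd hS (u0 w w1).1 (by exact_mod_cast k2)
      ⟨fun x hx e1 e2 => hS.top x hx (by
        rw [nrm_le_iff, Prod.fst_sub, Prod.snd_sub] at e1
        unfold OnRing at e2
        omega), by simp, fun x hx x' hx' _ _ => by
          exact conn_of_topConn hS.eS_top (hS.conn x hx) (hS.conn x' hx')⟩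
      (fun y hy => by have := (y1 y hy).1; omega) (k4 ▸ y2) y3
    have g1 : ∑ y ∈ Y, hN N y ≠ ∞ := ENNReal.sum_ne_top.2 fun y _ => hN_ne_top N y
    have g2 : ∑ y ∈ Y, hm N y (Many2 N (c1 * (2 * (K * w))) (L0 + 4) l' t y) ≠ ∞ :=
      ENNReal.sum_ne_top.2 fun y _ => bulkw_fin N y _
    rw [← hN'] at ni
    have ni2 := ENNReal.toReal_mono (by finiteness) ni
    rw [ENNReal.toReal_mul, ENNReal.toReal_add (by finiteness) (by finiteness), ENNReal.toReal_mul,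
      ENNReal.toReal_mul, ENNReal.toReal_pow, ENNReal.coe_toReal, ENNReal.toReal_ofNat,
      ENNReal.toReal_sum fun y _ => hN_ne_top N y,
      ENNReal.toReal_sum fun y _ => bulkw_fin N y _] at ni2
    refine (y4 δ (C / w ^ 2 * ∑ y ∈ F, (hN N y).toReal)
      (θ ^ (2 * l') * (C / w ^ 2 * ∑ y ∈ F, (hN N y).toReal) + 2 * (C / w ^ 2 * ∑ y ∈ F, mm w y))
      δ0 (by have := f0.trans f1; positivity) (mul_le_mul_of_nonneg_left f1 a0) ?_).trans_eq ?_
    · have := ni2.trans (mul_le_mul f1 (add_le_add (mul_le_mul_of_nonneg_left f1 θ0)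
        (mul_le_mul_of_nonneg_left f2 zero_le_two)) (add_nonneg (mul_nonneg θ0 f0)
          (mul_nonneg zero_le_two (sum_nonneg fun _ _ => ENNReal.toReal_nonneg))) (f0.trans f1))
      exact (mul_le_mul_of_nonneg_left this (sq_nonneg _)).trans_eq (by ring)
    · simp only [φ, ← mul_sum, sum_add_distrib, ← sum_div]
  refine (sum_le_sum one).trans ?_
  rw [← mul_sum, sum_comm]
  have l0' : (1 : ℝ) ≤ l := by exact_mod_cast hl
  have K1 : (1 : ℝ) ≤ K := by exact_mod_cast hK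
  have last : ∀ j ∈ (range (48 * l)).filter (fun j => 2 ^ j ≤ 48 * l),
      ∑ z ∈ (base n).filter (fun z => (n : ℤ) ≤ q * z.1), (∑ t ∈ ball z (2 * l + 1),
        ∑ y ∈ (V (2 ^ j)).filter (fun y => nrm (y - t) ≤ (K * 2 ^ j : ℕ)), φ (2 ^ j) y) / 2 ^ j ≤
      49 * l ^ 2 * (9 * K ^ 2 * (A1 * δ)) * 2 ^ j := by
    intro j _
    have p : (1 : ℝ) ≤ 2 ^ j := one_le_pow₀ one_le_two
    rw [← sum_div, div_le_iff₀ (by positivity)]
    have e := bulkw_two ((base n).filter fun z => (n : ℤ) ≤ q * z.1) (V (2 ^ j)) (2 * l + 1)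
      (K * 2 ^ j) _ (φ0 (2 ^ j))
    rw [show ((2 * l + 1 : ℕ) : ℤ) = 2 * l + 1 by push_cast; ring] at e
    refine e.trans ?_
    push_cast
    calc _ ≤ (7 * (l : ℝ)) ^ 2 * ((3 * (K * 2 ^ j)) ^ 2 * (A1 * δ)) := by
          have := sum_nonneg fun y (_ : y ∈ V (2 ^ j)) => φ0 (2 ^ j) y
          have := tot (2 ^ j) Nat.one_le_two_pow
          gcongr
          · linarith
          · linarith [one_le_mul_of_one_le_of_one_le K1 p]
      _ = _ := by ring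
  have fin := (sum_le_sum last).trans_eq (mul_sum ..).symm
  have geo := bulkw_geo (48 * l) (48 * l)
  push_cast at geo
  exact (mul_le_mul_of_nonneg_left (fin.trans (mul_le_mul_of_nonneg_left geo (by positivity)))
    (by positivity)).trans (bulkw_end δ0 (by positivity) (by rw [hδ]; field_simp))

end Pool.Agent.P.MP_347bd1_pr.M

namespace Pool.Agent.P.MP_347bd1_pr.M

open Classical Finset Filter Topology
open scoped ENNReal NNReal

theorem explw_arm {n l : ℕ} {ξ : Pt → Bool} (hn : 2 * l + 4 ≤ n) {M : Finset Pt} {z : Pt}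
    (hz : z ∈ base n) (h : Ev n ξ z l true M) :
    ArmB (explS n ξ (explCl n ξ M)) z l (M \ explS n ξ (explCl n ξ M)) := by
  obtain ⟨h1, a, b, k1, k2, k3, k4⟩ : ¬ TB n ξ M ∧ TB n ξ (M ∪ (ball z l ∩ box n)) := by
    simpa [Ev] using h
  obtain ⟨hzb, hz1, hz2⟩ := mem_filter.1 hz
  have hS : ∃ w ∈ explS n ξ (explCl n ξ M), nrm (w - z) ≤ l + 1 := by
    have : b ∈ explCl n ξ M ∨ ∃ w ∈ explS n ξ (explCl n ξ M), nrm (w - z) ≤ l + 1 := by
      clear k3
      induction k4 with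
      | refl =>
        rcases mem_union.1 k1 with k | k
        · exact Or.inl (expl_cl_top k k2)
        · have := mem_ball.1 (mem_inter.1 k).1
          exact Or.inr ⟨a, expl_mem_S.2 ⟨(mem_inter.1 k).2, Or.inr (Or.inl k2)⟩, by omega⟩
      | tail _ k ih =>
        rcases ih with ih | ih
        · rcases mem_union.1 k.2 with m | m
          · exact Or.inl (expl_cl_step ih k.1 m)
          · have := mem_ball.1 (mem_inter.1 m).1
            exact Or.inr ⟨_, expl_mem_S.2 ⟨(mem_inter.1 m).2, Or.inr (Or.inr ⟨_, ih, k.1⟩)⟩,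
              by omega⟩
        · exact Or.inr ih
    refine this.resolve_left fun m => ?_
    obtain ⟨-, a', m1, m2, m3⟩ := expl_mem_cl.1 m
    exact h1 ⟨a', b, m1, m2, k3, m3⟩
  have last : (a ∈ M ∧ Relation.ReflTransGen (fun u w => Lk ξ false u w ∧ w ∈ M) a b) ∨
      nrm (b - z) ≤ l ∨ ∃ s, nrm (s - z) ≤ l + 1 ∧ s ∈ M ∧
        Relation.ReflTransGen (fun u w => Lk ξ false u w ∧ w ∈ M) s b := by
    clear k2
    induction k4 using Relation.ReflTransGen.head_induction_on with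
    | refl =>
      rcases mem_union.1 k1 with k | k
      exacts [Or.inl ⟨k, .refl⟩, Or.inr (Or.inl (mem_ball.1 (mem_inter.1 k).1))]
    | head k _ ih =>
      rcases ih k.2 with ih' | ih'
      · rcases mem_union.1 k1 with m | m
        · exact Or.inl ⟨m, .head ⟨k.1, ih'.1⟩ ih'.2⟩
        · refine Or.inr (Or.inr ⟨_, ?_, ih'⟩)
          have e1 := nrm_le_iff.1 (mem_ball.1 (mem_inter.1 m).1)
          have e2 := nrm_le_iff.1 k.1.star.le
          rw [nrm_le_iff]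
          simp only [Prod.fst_sub, Prod.snd_sub] at e1 e2 ⊢
          omega
      · exact Or.inr ih'
  rcases last with m | m | ⟨s, m1, m2, m3⟩
  · exact absurd ⟨a, b, m.1, k2, k3, m.2⟩ h1
  · have := nrm_le_iff.1 m
    simp only [Prod.fst_sub, Prod.snd_sub] at this
    omega
  have nS : ∀ u ∈ M, Relation.ReflTransGen (fun u w => Lk ξ false u w ∧ w ∈ M) u b →
      u ∈ M \ explS n ξ (explCl n ξ M) := by
    intro u hu k
    refine mem_sdiff.2 ⟨hu, fun m => ?_⟩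
    obtain ⟨-, a', m1, m2, m3⟩ := expl_mem_cl.1 (expl_cl_of_S hu m)
    exact h1 ⟨a', b, m1, m2, k3, m3.trans k⟩
  refine ⟨hS, s, b, m1, k3, nS s m2 m3, ?_⟩
  clear m1 m2
  induction m3 using Relation.ReflTransGen.head_induction_on with
  | refl => exact .refl
  | head k k' ih => exact .head ⟨k.1.star, nS _ k.2 k'⟩ ih

theorem p_EXPL :
    S_EXPL := by
  intro n l ξ ε hn h
  have hs : ∀ M ⊆ box n, explCl n ξ M ∈ (box n).powerset.image (explCl n ξ) := fun M k =>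
    mem_image_of_mem _ (mem_powerset.2 k)
  simp only [Pf, Pr, ← sum_div]
  rw [div_le_iff₀ Zf_pos, Zf_eq_sum_fibre (F := ebox n) (T := ∅) _ _ hs fun _ => True,
    sum_congr rfl fun z _ => Zf_eq_sum_fibre (F := ebox n) (T := ∅) _ _ hs _, sum_comm, mul_sum]
  refine sum_le_sum fun C hC => ?_
  obtain ⟨M1, k, rfl⟩ := mem_image.1 hC
  have hM := mem_powerset.1 k
  simp only [expl_fibre hM]
  set C := explCl n ξ M1 with hC
  set S := explS n ξ C with hS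
  have hb : ∀ c ∈ C, c ∈ box n := fun c k => hM (expl_mem_cl.1 k).1
  have hCS : ∀ c ∈ C, c ∈ S := fun c k => expl_mem_S.2 ⟨hb c k, Or.inl k⟩
  rw [← mul_sum, mul_left_comm]
  refine mul_le_mul_of_nonneg_left ?_ (pow_pos xc_pos _).le
  have h1 := h S (expl_good hM)
  simp only [PS, Pr, ← sum_div] at h1
  rw [div_le_iff₀ Zf_pos] at h1
  refine le_trans (sum_le_sum fun z hz => Zf_mono fun M hM' m => ?_) h1
  have e1 : M ∪ C ⊆ box n := union_subset (hM'.trans sdiff_subset) hb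
  have e2 : explCl n ξ (M ∪ C) = C := by
    refine (expl_fibre_iff e1).2 (Subset.antisymm (fun w k => ?_) fun w k => ?_)
    · exact (mem_union.1 (mem_sdiff.1 k).1).resolve_left fun m => (mem_sdiff.1 k).2 (hM' m)
    · exact mem_sdiff.2 ⟨mem_union_right _ k, fun m => (mem_sdiff.1 m).2 (hCS w k)⟩
  have e3 : (M ∪ C) \ S = M := by
    refine Subset.antisymm (fun w k => ?_) fun w k => ?_
    · exact (mem_union.1 (mem_sdiff.1 k).1).resolve_right fun m => (mem_sdiff.1 k).2 (hCS w m)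
    · exact mem_sdiff.2 ⟨mem_union_left _ k, (mem_sdiff.1 (hM' k)).2⟩
  have := explw_arm hn hz m
  rwa [e2, ← hS, e3] at this

end Pool.Agent.P.MP_347bd1_pr.M
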