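import Pool.Agent.P.MP_347bd1_pr.M.Iface

/-! Steps RING, MAIN, WF, SYM, GKSZ, VAR. -/

set_option autoImplicit false

namespace Pool.Agent.P.MP_347bd1_pr.M

open Classical Finset Filter Topology
open scoped ENNReal NNReal

theorem ringw_mod {N r i : ℕ} (hr : r < N) (hi : i < N) :
    (r + i) % N < N ∧ ((r + i) % N = r + i ∨ (r + i) % N + N = r + i) := by
  refine ⟨Nat.mod_lt _ (by omega), ?_⟩
  by_cases h : r + i < N
  · exact .inl (Nat.mod_eq_of_lt h)
  · right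
    rw [Nat.mod_eq_sub_mod (by omega), Nat.mod_eq_of_lt (by omega)]
    omega

theorem ringw_nrm (z : Pt) (ρ : ℕ) {r : ℕ} (h : r < 4 * (2 * ρ)) :
    nrm (arcC (z.1 - ρ, z.2 - ρ) (2 * ρ) r - z) = ρ := by
  rw [nrm_eq_iff]
  unfold arcC
  split_ifs <;> simp only [Prod.fst_sub, Prod.snd_sub] <;> omega

theorem ringw_inj (o : Pt) (a : ℕ) {r r' : ℕ} (h : r < 4 * a) (h' : r' < 4 * a)
    (e : arcC o a r = arcC o a r') : r = r' := by
  unfold arcC at e
  split_ifs at e <;> simp only [Prod.ext_iff] at e <;> omega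

theorem ringw_nn (o : Pt) {a : ℕ} (ha : 2 ≤ a) {r r' : ℕ} (h : r < 4 * a) (h' : r' < 4 * a)
    (e : NN (arcC o a r) (arcC o a r')) :
    r' = r + 1 ∨ r = r' + 1 ∨ (r = 0 ∧ r' + 1 = 4 * a) ∨ (r' = 0 ∧ r + 1 = 4 * a) := by
  obtain ⟨d, e⟩ := e
  unfold arcC at e
  cases d <;> split_ifs at e <;>
    simp only [Dir.vec, Prod.ext_iff, Prod.fst_add, Prod.snd_add] at e <;> omega

theorem ringw_surj (z : Pt) {ρ : ℕ} (hρ : 1 ≤ ρ) {w : Pt} (h : nrm (w - z) = ρ) :
    ∃ r < 4 * (2 * ρ), arcC (z.1 - ρ, z.2 - ρ) (2 * ρ) r = w := by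
  rw [nrm_eq_iff] at h
  simp only [Prod.fst_sub, Prod.snd_sub] at h
  obtain ⟨x, hx⟩ : ∃ x : ℕ, w.1 = z.1 - ρ + x := ⟨(w.1 - (z.1 - ρ)).toNat, by omega⟩
  obtain ⟨y, hy⟩ : ∃ y : ℕ, w.2 = z.2 - ρ + y := ⟨(w.2 - (z.2 - ρ)).toNat, by omega⟩
  have key : ∃ r < 4 * (2 * ρ), (r < 2 * ρ ∧ x = r ∧ y = 0) ∨
      (2 * ρ ≤ r ∧ r < 2 * (2 * ρ) ∧ x = 2 * ρ ∧ y + 2 * ρ = r) ∨
      (2 * (2 * ρ) ≤ r ∧ r < 3 * (2 * ρ) ∧ x + r = 3 * (2 * ρ) ∧ y = 2 * ρ) ∨
      (3 * (2 * ρ) ≤ r ∧ x = 0 ∧ y + r = 4 * (2 * ρ)) := by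
    by_cases h1 : y = 0 ∧ x < 2 * ρ
    · exact ⟨x, by omega, by omega⟩
    by_cases h2 : x = 2 * ρ ∧ y < 2 * ρ
    · exact ⟨y + 2 * ρ, by omega, by omega⟩
    by_cases h3 : y = 2 * ρ ∧ 0 < x
    · exact ⟨3 * (2 * ρ) - x, by omega, by omega⟩
    · exact ⟨4 * (2 * ρ) - y, by omega, by omega⟩
  obtain ⟨r, hr, k⟩ := key
  refine ⟨r, hr, ?_⟩
  unfold arcC
  split_ifs <;> simp only [Prod.ext_iff] <;> omega

/-- The ring, parametrised from a given site. -/
theorem ringw_par (z w : Pt) {ρ : ℕ} (hρ : 1 ≤ ρ) (hw : nrm (w - z) = ρ) :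
    ∃ (p : ℕ → Pt) (d : ℕ → Dir), p 0 = w ∧ p (8 * ρ) = w ∧ (∀ i, p (i + 1) = p i + (d i).vec) ∧
      (∀ i, nrm (p i - z) = ρ) ∧ (∀ i < 8 * ρ, ∀ j < 8 * ρ, p i = p j → i = j) ∧
      (∀ i < 8 * ρ, ∀ j < 8 * ρ, NN (p i) (p j) → j = i + 1 ∨ i = j + 1 ∨ i = 0 ∨ j = 0) ∧
      ∀ u, nrm (u - z) = ρ → ∃ i < 8 * ρ, p i = u := by
  obtain ⟨r0, h0, e0⟩ := ringw_surj z hρ hw
  refine ⟨fun i => arcC (z.1 - ρ, z.2 - ρ) (2 * ρ) ((r0 + i) % (4 * (2 * ρ))),
    fun i => arcD (2 * ρ) ((r0 + i) % (4 * (2 * ρ))), ?_, ?_, fun i => ?_, fun i => ?_,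
    fun i hi j hj e => ?_, fun i hi j hj e => ?_, fun u hu => ?_⟩
  · simp only [add_zero, Nat.mod_eq_of_lt h0, e0]
  · simp only [show 8 * ρ = 4 * (2 * ρ) by ring, Nat.add_mod_right, Nat.mod_eq_of_lt h0, e0]
  · exact arc_step _ (by omega) (r0 + i)
  · exact ringw_nrm z ρ (Nat.mod_lt _ (by omega))
  · have a := ringw_mod h0 (show i < 4 * (2 * ρ) by omega)
    have b := ringw_mod h0 (show j < 4 * (2 * ρ) by omega)
    have := ringw_inj _ _ a.1 b.1 e
    omega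
  · have a := ringw_mod h0 (show i < 4 * (2 * ρ) by omega)
    have b := ringw_mod h0 (show j < 4 * (2 * ρ) by omega)
    have := ringw_nn _ (by omega) a.1 b.1 e
    omega
  · obtain ⟨r, hr, e⟩ := ringw_surj z hρ hu
    obtain ⟨i, hi, k⟩ : ∃ i < 4 * (2 * ρ), r0 + i = r ∨ r0 + i = r + 4 * (2 * ρ) := by
      by_cases k : r0 ≤ r
      · exact ⟨r - r0, by omega, by omega⟩
      · exact ⟨r + 4 * (2 * ρ) - r0, by omega, by omega⟩
    have a := ringw_mod h0 hi
    have c : (r0 + i) % (4 * (2 * ρ)) = r := by omega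
    exact ⟨i, by omega, by simp only [c, e]⟩

theorem p_RING :
    S_RING := by
  intro n S z s ρ hG hρ hA ⟨w, hwS, hw⟩ hs
  obtain ⟨p, d, p0, pN, st, nr, inj, nn, sur⟩ := ringw_par z w (by omega) hw
  have mM : ∀ t, t ∈ Mid n S z ρ ↔
      t ∈ box n ∧ nrm (t - z) = ρ ∧ t ∉ S ∧ ∀ e : Dir, t + e.vec ∉ S := fun t => mem_filter
  obtain ⟨k, hk, ek⟩ := sur s ((mM s).1 hs).2.1
  have wM : w ∉ Mid n S z ρ := fun h => ((mM w).1 h).2.2.1 hwS
  have k0 : k ≠ 0 := by
    rintro rfl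
    exact wM (p0 ▸ ek ▸ hs)
  have ex1 : ∃ a, p (k + a) ∉ Mid n S z ρ := ⟨8 * ρ - k, by
    rw [show k + (8 * ρ - k) = 8 * ρ by omega, pN]; exact wM⟩
  have ex2 : ∃ b, p (k - b) ∉ Mid n S z ρ := ⟨k, by rw [Nat.sub_self, p0]; exact wM⟩
  obtain ⟨a, ha1, ha2, ha3⟩ : ∃ a, p (k + a) ∉ Mid n S z ρ ∧
      (∀ i < a, p (k + i) ∈ Mid n S z ρ) ∧ a ≤ 8 * ρ - k :=
    ⟨Nat.find ex1, Nat.find_spec ex1, fun i hi => not_not.1 (Nat.find_min ex1 hi),
      Nat.find_min' ex1 (by rw [show k + (8 * ρ - k) = 8 * ρ by omega, pN]; exact wM)⟩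
  obtain ⟨b, hb1, hb2, hb3⟩ : ∃ b, p (k - b) ∉ Mid n S z ρ ∧
      (∀ i < b, p (k - i) ∈ Mid n S z ρ) ∧ b ≤ k :=
    ⟨Nat.find ex2, Nat.find_spec ex2, fun i hi => not_not.1 (Nat.find_min ex2 hi),
      Nat.find_min' ex2 (by rw [Nat.sub_self, p0]; exact wM)⟩
  have a0 : a ≠ 0 := by
    rintro rfl
    exact ha1 (by rw [add_zero, ek]; exact hs)
  have b0 : b ≠ 0 := by
    rintro rfl
    exact hb1 (by rw [Nat.sub_zero, ek]; exact hs)
  obtain ⟨lo, rfl⟩ : ∃ lo, k = lo + b := ⟨k - b, by omega⟩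
  rw [Nat.add_sub_cancel] at hb1
  have btw : ∀ j, lo < j → j < lo + b + a → p j ∈ Mid n S z ρ := by
    intro j h1 h2
    by_cases h : lo + b ≤ j
    · have := ha2 (j - (lo + b)) (by omega)
      rwa [show lo + b + (j - (lo + b)) = j by omega] at this
    · have := hb2 (lo + b - j) (by omega)
      rwa [show lo + b - (lo + b - j) = j by omega] at this
  have nb : ∀ u v : Pt, u ∈ Mid n S z ρ → NN u v → nrm (v - z) = ρ → v ∉ S ∧ Ins n v := by
    rintro u v hu ⟨e, rfl⟩ hv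
    obtain ⟨u1, u2, u3, u4⟩ := (mM u).1 hu
    refine ⟨u4 e, ?_⟩
    have t1 : u.2 ≠ n := fun h => u3 (hG.top u u1 h)
    rw [mem_box] at u1
    have t2 : u.2 + 1 ≠ n := fun h => u4 .N (hG.top _ (by
      rw [mem_box]; simp only [Dir.vec, Prod.fst_add, Prod.snd_add]; omega) (by
      simp only [Dir.vec, Prod.snd_add]; omega))
    have t3 : (u + e.vec).2 ≤ u.2 + 1 := by
      cases e <;> simp only [Dir.vec, Prod.snd_add] <;> omega
    rw [nrm_eq_iff] at hv
    simp only [Prod.fst_sub, Prod.snd_sub] at hv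
    obtain ⟨A1, A2, A3⟩ := hA
    unfold Ins
    omega
  have fw : ∀ i, NN (p i) (p (i + 1)) := fun i => ⟨d i, st i⟩
  have al : ∀ j, lo ≤ j → j ≤ lo + b + a → p j ∉ S ∧ Ins n (p j) := by
    intro j h1 h2
    by_cases h : j + 1 < lo + b + a
    · exact nb _ _ (btw (j + 1) (by omega) h) (fw j).symm (nr j)
    · obtain ⟨j, rfl⟩ : ∃ i, j = i + 1 := ⟨j - 1, by omega⟩
      by_cases h' : lo < j
      · exact nb _ _ (btw j h' (by omega)) (fw j) (nr _)
      · have hj := btw (j + 1) (by omega) (by omega)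
        obtain ⟨u1, u2, u3, u4⟩ := (mM _).1 hj
        refine ⟨u3, ?_⟩
        have t1 : (p (j + 1)).2 ≠ n := fun h => u3 (hG.top _ u1 h)
        rw [mem_box] at u1
        rw [nrm_eq_iff] at u2
        simp only [Prod.fst_sub, Prod.snd_sub] at u2
        obtain ⟨A1, A2, A3⟩ := hA
        unfold Ins
        omega
  have l0 : lo ≠ 0 := by
    rintro rfl
    exact (al 0 le_rfl (by omega)).1 (p0 ▸ hwS)
  have h8 : lo + b + a ≠ 8 * ρ := fun h =>
    (al (8 * ρ) (by omega) (by omega)).1 (pN ▸ hwS)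
  have tch : ∀ j, lo ≤ j → j ≤ lo + b + a → p j ∉ Mid n S z ρ → ∃ e : Dir, p j + e.vec ∈ S := by
    intro j h1 h2 h3
    by_contra h
    push Not at h
    obtain ⟨c1, c2⟩ := al j h1 h2
    refine h3 ((mM _).2 ⟨?_, nr j, c1, h⟩)
    unfold Ins at c2
    rw [mem_box]
    omega
  refine ⟨b + a + 1, fun i => p (lo + i), fun i => d (lo + i),
    ⟨by omega, fun i _ => st (lo + i), fun i hi j hj e => ?_, fun i hi j hj e => ?_,
      fun i hi => al _ (by omega) (by omega), fun i h1 h2 => ?_, tch lo le_rfl (by omega) hb1, ?_⟩,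
    by omega, fun i _ => nr _, ?_⟩
  · have := inj _ (by omega) _ (by omega) e
    omega
  · have := nn _ (by omega) _ (by omega) e
    omega
  · exact ((mM _).1 (btw (lo + i) (by omega) (by omega))).2.2.2
  · have := tch (lo + b + a) (by omega) le_rfl ha1
    rwa [show lo + b + a = lo + (b + a + 1 - 1) by omega] at this
  · have up : ∀ i, i < a → NPath (Mid n S z ρ) s (p (lo + b + i)) := by
      intro i
      induction i with
      | zero => exact fun _ => ek ▸ Relation.ReflTransGen.refl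
      | succ i ih =>
        exact fun h => (ih (by omega)).tail ⟨fw _, btw _ (by omega) (by omega)⟩
    have dn : ∀ i, i < b → NPath (Mid n S z ρ) s (p (lo + b - i)) := by
      intro i
      induction i with
      | zero => exact fun _ => ek ▸ Relation.ReflTransGen.refl
      | succ i ih =>
        intro h
        refine (ih (by omega)).tail ⟨?_, btw _ (by omega) (by omega)⟩
        rw [show lo + b - i = lo + b - (i + 1) + 1 by omega]
        exact (fw _).symm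
    ext u
    rw [mem_image, Cmp, mem_filter]
    constructor
    · rintro ⟨i, hi, rfl⟩
      rw [mem_Ioo] at hi
      refine ⟨btw _ (by omega) (by omega), ?_⟩
      by_cases h : b ≤ i
      · have := up (i - b) (by omega)
        rwa [show lo + b + (i - b) = lo + i by omega] at this
      · have := dn (b - i) (by omega)
        rwa [show lo + b - (b - i) = lo + i by omega] at this
    · rintro ⟨-, h⟩
      induction h with
      | refl => exact ⟨b, mem_Ioo.2 (by omega), ek⟩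
      | @tail v u _ k ih =>
        obtain ⟨i, hi, rfl⟩ := ih
        rw [mem_Ioo] at hi
        obtain ⟨k1, k2⟩ := k
        obtain ⟨j, hj, rfl⟩ := sur u ((mM u).1 k2).2.1
        have c := nn _ (by omega) _ hj k1
        have j0 : j ≠ 0 := by
          rintro rfl
          exact wM (p0 ▸ k2)
        have j1 : j ≠ lo := by
          rintro rfl
          exact hb1 k2
        have j2 : j ≠ lo + b + a := by
          rintro rfl
          exact ha1 k2
        exact ⟨j - lo, mem_Ioo.2 (by omega), by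
          show p (lo + (j - lo)) = p j
          rw [show lo + (j - lo) = j by omega]⟩

end Pool.Agent.P.MP_347bd1_pr.M

namespace Pool.Agent.P.MP_347bd1_pr.M

open Classical Finset Filter Topology
open scoped ENNReal NNReal

theorem p_MAIN (hPC : S_PC) (hBLK : S_BLK) (hVAR : S_VAR) (hDYN : S_DYN) :
    S_MAIN := by
  intro t ht0 ht
  obtain ⟨C, hC, hD⟩ := hDYN
  rw [Metric.tendsto_nhds]
  intro δ hδ
  obtain ⟨m0, hB⟩ := hBLK (δ / (32 * C)) (by positivity)
  obtain ⟨q, hq⟩ : ∃ q : ℕ, q = 2 * (m0 + 1) := ⟨_, rfl⟩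
  have hq0 : 0 < q := by omega
  have hq1 : (0 : ℝ) < q := by exact_mod_cast hq0
  filter_upwards [hVAR, eventually_ge_atTop q,
    ht.eventually (gt_mem_nhds (show (0 : ℝ) < 1 / (2 * q) ^ 2 by positivity))] with n hv hn h1
  obtain ⟨l, hl⟩ : ∃ l : ℕ, l = n / q := ⟨_, rfl⟩
  have l1 : 1 ≤ l := hl ▸ (Nat.le_div_iff_mul_le hq0).2 (by omega)
  have l2 : q * l ≤ n := hl ▸ Nat.mul_div_le n q
  have l3 : n < q * (l + 1) := hl ▸ Nat.lt_mul_div_succ n hq0
  have l4 : (n : ℝ) ≤ 2 * q * l := by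
    have : n ≤ 2 * q * l := by nlinarith
    exact_mod_cast this
  have l5 : (1 : ℝ) ≤ l := by exact_mod_cast l1
  have n0 : (0 : ℝ) < n := by exact_mod_cast lt_of_lt_of_le hq0 hn
  have t1 : t n / l ^ 2 ≤ 1 := by
    rw [div_lt_div_iff₀ (by positivity) (by positivity), one_mul] at h1
    rw [div_le_one (by positivity)]
    have : (n : ℝ) ^ 2 ≤ (2 * q * l) ^ 2 := by gcongr
    refine le_of_mul_le_mul_right ?_ (show (0 : ℝ) < (2 * q) ^ 2 by positivity)
    nlinarith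
  have b1 := (hPC .free n fcr fcr (t n) (ht0 n)).1
  have b2 := hD n l (t n) l1 (by nlinarith) (ht0 n)
  have b3 := hB n (2 * l) (by omega) (by nlinarith) fun _ => false
  have t0 : 0 ≤ t n / l ^ 2 := div_nonneg (ht0 n) (by positivity)
  have b4 : var .free (fcr (n := n)) - cov .free (fcr (n := n)) (t n) ≤ δ / 4 := by
    refine b2.trans ((mul_le_mul_of_nonneg_left b3 (by positivity)).trans ?_)
    have e : C / l ^ 2 * (1 + t n / l ^ 2) * (δ / (32 * C) * ((2 * l : ℕ) : ℝ) ^ 2) =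
        δ / 8 * (1 + t n / l ^ 2) := by
      push_cast
      field_simp
      ring
    rw [e]
    nlinarith
  rw [Real.dist_eq, corr, div_sub_one (by linarith), abs_div, abs_of_nonpos (by linarith),
    abs_of_pos (by linarith), div_lt_iff₀ (by linarith)]
  nlinarith

end Pool.Agent.P.MP_347bd1_pr.M

namespace Pool.Agent.P.MP_347bd1_pr.M

open Classical Finset Filter Topology
open scoped ENNReal NNReal

theorem wfw_mem {n : ℕ} {S T : Finset Pt} {u : Pt} (h : u ∈ Wf n S T) :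
    u ∈ box n ∧ u ∉ S ∧ u ∉ T := by
  have := mem_sdiff.1 (mem_filter.1 h).1
  exact ⟨this.1, not_or.1 (mt mem_union.2 this.2)⟩

theorem wfw_free {n : ℕ} {S T : Finset Pt} {u : Pt} (h : u ∈ box n) (h1 : u ∉ S) (h2 : u ∉ T) :
    u ∈ box n \ (S ∪ T) := mem_sdiff.2 ⟨h, fun k => (mem_union.1 k).elim h1 h2⟩

theorem wfw_star {n : ℕ} {S T : Finset Pt} {u w : Pt} (hu : u ∈ Wf n S T) (hw : w ∈ box n)
    (h : Star u w) : w ∈ Wf n S T ∨ w ∈ S ∨ w ∈ T := by
  by_cases h1 : w ∈ S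
  · exact .inr (.inl h1)
  by_cases h2 : w ∈ T
  · exact .inr (.inr h2)
  obtain ⟨k, b, hb, -, hp⟩ := mem_filter.1 hu
  have hw' := wfw_free hw h1 h2
  exact .inl (mem_filter.2 ⟨hw', b, hb, hw', .head ⟨h.symm, k⟩ hp⟩)

theorem wfw_step {n : ℕ} {U : Finset Pt} (hU : U ⊆ box n) {w : Pt} {d : Dir}
    (h : TopConn n (eS n U ∪ ∅) w) (h1 : w ∈ U) (h2 : w + d.vec ∈ U) :
    TopConn n (eS n U ∪ ∅) (w + d.vec) :=
  h.step (inc_mem_ebox.2 ⟨hU h1, hU h2⟩) fun k => by
    rw [union_empty, inc_mem_eS] at k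
    exact k.2.elim (· h1) (· h2)

theorem wfw_edge (e : Edge) : Star (ea e) (eb e) := by
  obtain ⟨d, -, h⟩ := exists_inc e
  exact NN.star ⟨d, h⟩

theorem wfw_inner {n : ℕ} {e : Edge} (h : Ins n (ea e) ∨ Ins n (eb e)) : Inner n e := by
  obtain ⟨⟨a, b⟩, c⟩ := e
  cases c
  · refine ⟨(a, b), .W, rfl, ?_, ?_⟩ <;>
      simp only [mem_intr, Ins, ea, eb, Dir.vec, Prod.mk_add_mk, Bool.false_eq_true, if_false]
        at h ⊢ <;> omega
  · refine ⟨(a, b), .S, rfl, ?_, ?_⟩ <;>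
      simp only [mem_intr, Ins, ea, eb, Dir.vec, Prod.mk_add_mk, if_true] at h ⊢ <;> omega

theorem wfw_logic {wa wb ba bb sa sb ta tb : Prop} (s1 : wa → bb → wb ∨ sb ∨ tb)
    (s2 : wb → ba → wa ∨ sa ∨ ta) (a1 : wa → ba ∧ ¬ sa ∧ ¬ ta) (a2 : wb → bb ∧ ¬ sb ∧ ¬ tb)
    (b1 : ta → ba) (b2 : tb → bb) (c1 : ta → ¬ sa) (c2 : tb → ¬ sb) :
    ¬ ((ba ∧ ¬ wa) ∧ ¬ sa ↔ (bb ∧ ¬ wb) ∧ ¬ sb) ∧ (ba ∧ bb) ∧ (¬ (ba ∧ ¬ wa) ∨ ¬ (bb ∧ ¬ wb)) ↔
      ¬ (ta ↔ tb) ∧ (wa ∨ wb) := by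
  by_cases x1 : wa <;> by_cases x2 : wb <;> by_cases x3 : ta <;> by_cases x4 : tb <;>
    by_cases x5 : ba <;> by_cases x6 : bb <;> simp_all

theorem p_WF :
    S_WF := by
  intro n S T v1 v2 hS hC
  have hT : ∀ t ∈ T, t ∈ box n := fun t ht => by
    have := (hC.ins t ht).2
    unfold Ins at this
    rw [mem_box]
    omega
  have hS' : ∀ s ∈ S, s ∈ box n \ Wf n S T := fun s hs =>
    mem_sdiff.2 ⟨hS.sub hs, fun k => (wfw_mem k).2.1 hs⟩
  have hT' : ∀ t ∈ T, t ∈ box n \ Wf n S T := fun t ht =>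
    mem_sdiff.2 ⟨hT t ht, fun k => (wfw_mem k).2.2 ht⟩
  have cS : ∀ s ∈ S, TopConn n (eS n (box n \ Wf n S T) ∪ ∅) s := fun s hs =>
    (hS.conn s hs).mono (union_subset_union (fun e he => mem_eS.2 ⟨(mem_eS.1 he).1,
      (mem_eS.1 he).2.imp (mt (hS' _)) (mt (hS' _))⟩) le_rfl)
  have cT : ∀ b ∈ T, TopConn n (eS n (box n \ Wf n S T) ∪ ∅) b := by
    obtain ⟨t, ht, d, hd⟩ := hC.touch
    have h0 : TopConn n (eS n (box n \ Wf n S T) ∪ ∅) t := by
      have := wfw_step sdiff_subset (d := d.opp) (cS _ hd) (hS' _ hd) (by simpa using hT' t ht)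
      simpa using this
    have key : ∀ b, NPath T t b → b ∈ T ∧ TopConn n (eS n (box n \ Wf n S T) ∪ ∅) b := by
      intro b hb
      induction hb with
      | refl => exact ⟨ht, h0⟩
      | tail _ k ih =>
        obtain ⟨⟨d, rfl⟩, k2⟩ := k
        exact ⟨k2, wfw_step sdiff_subset ih.2 (hT' _ ih.1) (hT' _ k2)⟩
    exact fun b hb => (key b (hC.conn t ht b hb)).2
  have cA : ∀ (m : ℕ) (w : Pt), w ∈ box n \ Wf n S T → n - w.2 ≤ m →
      TopConn n (eS n (box n \ Wf n S T) ∪ ∅) w := by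
    intro m
    induction m with
    | zero =>
      intro w hw hm
      have := mem_box.1 (mem_sdiff.1 hw).1
      exact cS w (hS.top w (mem_sdiff.1 hw).1 (by omega))
    | succ m ih =>
      intro w hw hm
      by_cases h1 : w ∈ S
      · exact cS w h1
      by_cases h2 : w ∈ T
      · exact cT w h2
      obtain ⟨hw1, hw2⟩ := mem_sdiff.1 hw
      have hb := mem_box.1 hw1
      have hn : w.2 ≠ n := fun k => h1 (hS.top w hw1 k)
      have e1 : (w + Dir.N.vec).1 = w.1 := by simp [Dir.vec]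
      have e2 : (w + Dir.N.vec).2 = w.2 + 1 := by simp [Dir.vec]
      have h3 : w + Dir.N.vec ∈ box n \ Wf n S T := mem_sdiff.2 ⟨mem_box.2 (by omega), fun k =>
        (wfw_star k hw1 (NN.star ⟨.N, rfl⟩).symm).elim hw2 fun k => k.elim h1 h2⟩
      have := wfw_step sdiff_subset (d := Dir.N.opp) (ih _ h3 (by push_cast at hm; omega)) h3
        (by simpa using hw)
      simpa using this
  refine ⟨⟨sdiff_subset, fun w hw k => hS' w (hS.top w hw k),
    fun w hw => cA (n - w.2).toNat w hw (Int.self_le_toNat _), by simp⟩,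
    union_subset hS' hT', fun u hu w hw h => wfw_star hu hw h, ?_, fun e he => ?_, ?_⟩
  · ext e
    have s1 := fun hu hw => wfw_star (S := S) (T := T) hu hw (wfw_edge e) (n := n)
    have s2 := fun hu hw => wfw_star (S := S) (T := T) hu hw (wfw_edge e).symm (n := n)
    have a1 := wfw_mem (n := n) (S := S) (T := T) (u := ea e)
    have a2 := wfw_mem (n := n) (S := S) (T := T) (u := eb e)
    have b1 := hT (ea e)
    have b2 := hT (eb e)
    have c1 := fun h => (hC.ins (ea e) h).1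
    have c2 := fun h => (hC.ins (eb e) h).1
    simp only [ETf, mem_inter, mem_cut, mem_eS, mem_ebox, mem_filter, Finset.mem_sdiff]
    exact wfw_logic s1 s2 a1 a2 b1 b2 c1 c2
  · have h1 := mem_cut.1 (mem_filter.1 he).1
    refine wfw_inner ?_
    by_cases k : ea e ∈ T
    · exact .inl (hC.ins _ k).2
    · exact .inr (hC.ins _ (by grind)).2
  · rintro M hM ⟨s, hs, s', b, h1, h2, h3, h4⟩
    have hF : ∀ a ∈ M \ T, a ∈ box n \ (S ∪ T) := fun a ha =>
      wfw_free (mem_sdiff.1 (hM (mem_sdiff.1 ha).1)).1 (mem_sdiff.1 (hM (mem_sdiff.1 ha).1)).2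
        (mem_sdiff.1 ha).2
    have hW : ∀ a ∈ M \ T, Relation.ReflTransGen (fun u w => Star u w ∧ w ∈ M \ T) a b →
        a ∈ (M ∩ Wf n S T) \ T := fun a ha hp =>
      mem_sdiff.2 ⟨mem_inter.2 ⟨(mem_sdiff.1 ha).1, mem_filter.2 ⟨hF a ha, b, h2, hF a ha,
        rtg_mono (fun _ _ k => ⟨k.1, hF _ k.2⟩) hp⟩⟩, (mem_sdiff.1 ha).2⟩
    refine ⟨s, hs, s', b, h1, h2, hW s' h3 h4, ?_⟩
    clear h1 h3
    induction h4 using Relation.ReflTransGen.head_induction_on with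
    | refl => exact .refl
    | head k hp ih => exact .head ⟨k.1, hW _ k.2 hp⟩ ih

end Pool.Agent.P.MP_347bd1_pr.M

namespace Pool.Agent.P.MP_347bd1_pr.M

open Classical Finset Filter Topology
open scoped ENNReal NNReal

/-- The quantity `mnv` is transported by `g`. -/
def symw_I (n l : ℕ) (g : Pt → Pt) : Prop := ∀ ξ : Pt → Bool, ∃ ξ' : Pt → Bool, ∀ z ∈ box n,
  mnv n ξ l z = mnv n ξ' l (g z)

section G

variable {n l : ℕ} {g p : Pt → Pt}

theorem symw_box (h : SymG n g p) {w : Pt} : g w ∈ box n ↔ w ∈ box n :=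
  ⟨fun k => by simpa only [h.inv] using h.bx _ k, h.bx w⟩

theorem symw_union (h : SymG n g p) (hb : ∀ z w, g w ∈ ball z l ↔ w ∈ ball (g z) l)
    (M : Finset Pt) (z : Pt) :
    (M ∪ (ball z l ∩ box n)).image g = M.image g ∪ (ball (g z) l ∩ box n) := by
  ext w
  simp only [h.mem_image, mem_union, mem_inter, hb, symw_box h]

theorem symw_sdiff (h : SymG n g p) (hb : ∀ z w, g w ∈ ball z l ↔ w ∈ ball (g z) l)
    (M : Finset Pt) (z : Pt) :
    (M \ ball z l).image g = M.image g \ ball (g z) l := by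
  ext w
  simp only [h.mem_image, Finset.mem_sdiff, hb]

theorem symw_refl (h : SymG n g p) (hb : ∀ z w, g w ∈ ball z l ↔ w ∈ ball (g z) l)
    (k : ∀ ξ M, TB n ξ M ↔ TB n (fun q => ξ (p q)) (M.image g)) : symw_I n l g := by
  intro ξ
  refine ⟨fun q => ξ (p q), fun z _ => ?_⟩
  have e : ∀ c, Pf n (Ev n ξ z l c) = Pf n (Ev n (fun q => ξ (p q)) (g z) l c) := fun c => by
    rw [← h.Pf_image (Ev n (fun q => ξ (p q)) (g z) l c)]
    congr 1
    funext M
    unfold Ev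
    rw [k ξ M, k ξ (M ∪ _), k ξ (M \ _), symw_union h hb, symw_sdiff h hb]
  rw [mnv, mnv, e, e]

theorem symw_nonneg {ξ : Pt → Bool} {z : Pt} : 0 ≤ mnv n ξ l z :=
  le_min Pr_nonneg Pr_nonneg

theorem symw_double (h : SymG n g p) (k : symw_I n l g) {R : Finset Pt} (hR : R ⊆ box n) {ε : ℝ}
    (hε : ∀ ξ, ∑ z ∈ R, mnv n ξ l z ≤ ε) (ξ : Pt → Bool) :
    ∑ z ∈ R ∪ R.image g, mnv n ξ l z ≤ 2 * ε := by
  obtain ⟨ξ', k'⟩ := k ξ
  have e1 : ∑ z ∈ R.image g, mnv n ξ l z = ∑ z ∈ R, mnv n ξ' l z := by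
    rw [sum_image fun _ _ _ _ m => h.inj m]
    exact sum_congr rfl fun z hz => by rw [k' _ (h.bx z (hR hz)), h.inv]
  have e2 : ∑ z ∈ R ∪ R.image g, mnv n ξ l z + ∑ z ∈ R ∩ R.image g, mnv n ξ l z =
      ∑ z ∈ R, mnv n ξ l z + ∑ z ∈ R.image g, mnv n ξ l z := sum_union_inter
  have e3 : 0 ≤ ∑ z ∈ R ∩ R.image g, mnv n ξ l z := sum_nonneg fun _ _ => symw_nonneg
  linarith [hε ξ, hε ξ']

end G

theorem symw_mem_ball {c z : Pt} {r : ℤ} :
    z ∈ ball c r ↔ (c.1 - r ≤ z.1 ∧ z.1 ≤ c.1 + r) ∧ (c.2 - r ≤ z.2 ∧ z.2 ≤ c.2 + r) := by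
  simp only [ball, mem_product, mem_Icc]

theorem symw_I1 (n l : ℕ) : symw_I n l fun w => (n + 1 - w.1, w.2) := by
  refine symw_refl (sym_r1 n) (fun z w => ?_) fun ξ M => ?_
  · simp only [symw_mem_ball]; omega
  rw [sym_TB, sym_TB]
  exact ⟨fun ⟨a, b, h1, h2, h3⟩ => ⟨_, _, by exact h1, by exact h2, (sym_r1 n).path h3⟩,
    fun ⟨a, b, h1, h2, h3⟩ => ⟨_, _, by exact h1, by exact h2, (sym_r1 n).path' h3⟩⟩

theorem symw_I2 (n l : ℕ) : symw_I n l fun w => (w.1, n + 1 - w.2) := by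
  refine symw_refl (sym_r2 n) (fun z w => ?_) fun ξ M => ?_
  · simp only [symw_mem_ball]; omega
  rw [sym_TB, sym_TB]
  exact ⟨fun ⟨a, b, h1, h2, h3⟩ => ⟨_, _, by simp [h2], by simp [h1], ((sym_r2 n).path h3).symm⟩,
    fun ⟨a, b, h1, h2, h3⟩ => ⟨_, _, by simp [h2], by simp [h1], ((sym_r2 n).path' h3).symm⟩⟩

theorem symw_Ia {n : ℕ} (hn : 1 ≤ n) (l : ℕ) :
    symw_I n l fun w => (n + 1 - w.2, n + 1 - w.1) := by
  intro ξ
  refine ⟨fun q => !ξ (n - q.2, n - q.1), fun z _ => ?_⟩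
  have hb : ∀ z w : Pt, ((n : ℤ) + 1 - w.2, (n : ℤ) + 1 - w.1) ∈ ball z l ↔
      w ∈ ball ((n : ℤ) + 1 - z.2, (n : ℤ) + 1 - z.1) l := fun z w => by
    simp only [symw_mem_ball]; omega
  have k : ∀ M ⊆ box n, (TB n ξ M ↔ ¬ TB n (fun q => !ξ (n - q.2, n - q.1))
      (box n \ M.image fun w => (n + 1 - w.2, n + 1 - w.1))) := fun M hM => by
    rw [sym_TB_LR n ξ hM, f_hex n _ _ hn sdiff_subset]
  have s1 : ∀ (A B : Finset Pt), box n \ (A ∪ (B ∩ box n)) = (box n \ A) \ B := fun A B => by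
    ext w
    simp only [Finset.mem_sdiff, mem_union, mem_inter]
    grind
  have s2 : ∀ (A B : Finset Pt), box n \ (A \ B) = (box n \ A) ∪ (B ∩ box n) := fun A B => by
    ext w
    simp only [Finset.mem_sdiff, mem_union, mem_inter]
    grind
  have e : ∀ c, Pf n (Ev n ξ z l c) = Pf n (Ev n (fun q => !ξ (n - q.2, n - q.1))
      (n + 1 - z.2, n + 1 - z.1) l (!c)) := fun c => by
    rw [← (sym_a n).Pf_flip (Ev n (fun q => !ξ (n - q.2, n - q.1)) _ l (!c))]
    refine Pr_congr fun M hM => ?_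
    cases c
    · simp only [Ev, Bool.false_eq_true, if_false, Bool.not_false, if_true]
      rw [k M hM, k _ (sdiff_subset.trans hM), symw_sdiff (sym_a n) hb, s2, not_not]
    · simp only [Ev, Bool.false_eq_true, if_false, Bool.not_true, if_true]
      rw [k M hM, k _ (union_subset hM inter_subset_right), symw_union (sym_a n) hb, s1, not_not]
  rw [mnv, mnv, e, e, min_comm]
  rfl

theorem p_SYM :
    S_SYM := by
  intro n l ε hn hε ξ
  have b0 : base n ⊆ box n := filter_subset _ _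
  have b1 := union_subset b0 ((sym_a n).image_sub b0)
  have b2 := union_subset b1 ((sym_r1 n).image_sub b1)
  have q1 := symw_double (sym_a n) (symw_Ia hn l) b0 hε
  have q2 := symw_double (sym_r1 n) (symw_I1 n l) b1 q1
  have q3 := symw_double (sym_r2 n) (symw_I2 n l) b2 q2 ξ
  refine le_trans (sum_le_sum_of_subset_of_nonneg (fun w hw => ?_) fun _ _ _ => symw_nonneg)
    (q3.trans_eq (by ring))
  rw [mem_box] at hw
  simp only [mem_union, (sym_a n).mem_image, (sym_r1 n).mem_image, (sym_r2 n).mem_image, base,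
    mem_filter, mem_box]
  omega

end Pool.Agent.P.MP_347bd1_pr.M

namespace Pool.Agent.P.MP_347bd1_pr.M

open Classical Finset Filter Topology
open scoped ENNReal NNReal

theorem gkszw_one (a : Pt) (M : Finset Pt) : chi {a} M = if a ∈ M then -1 else 1 := by
  unfold chi
  split_ifs with h
  · rw [singleton_inter_of_mem h]; simp
  · rw [singleton_inter_of_notMem h]; simp

theorem gkszw_pair {a b : Pt} (hab : a ≠ b) (M : Finset Pt) :
    chi {a, b} M = if (a ∈ M ↔ b ∈ M) then 1 else -1 := by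
  unfold chi
  by_cases ha : a ∈ M <;> by_cases hb : b ∈ M
  · rw [insert_inter_of_mem ha, singleton_inter_of_mem hb, card_pair hab]; simp [ha, hb]
  · rw [insert_inter_of_mem ha, singleton_inter_of_notMem hb]; simp [ha, hb]
  · rw [insert_inter_of_notMem ha, singleton_inter_of_mem hb]; simp [ha, hb]
  · rw [insert_inter_of_notMem ha, singleton_inter_of_notMem hb]; simp [ha, hb]

theorem gkszw_merge (a b : Pt) (M : Finset Pt) :
    1 + 1 * chi (symmDiff {a} {b}) M = 2 * if (a ∈ M ↔ b ∈ M) then 1 else 0 := by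
  by_cases hab : a = b
  · subst hab
    simp [chi]; norm_num
  · have : symmDiff ({a} : Finset Pt) {b} = {a, b} := by
      ext z
      simp only [mem_symmDiff, mem_singleton, mem_insert]
      constructor
      · grind
      · rintro (rfl | rfl)
        exacts [.inl ⟨rfl, hab⟩, .inr ⟨rfl, fun k => hab k.symm⟩]
    rw [this, gkszw_pair hab]
    split_ifs <;> norm_num

theorem gkszw_freeze (a : Pt) (M : Finset Pt) :
    1 + 1 * chi {a} M = 2 * if a ∉ M then 1 else 0 := by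
  rw [gkszw_one]
  by_cases h : a ∈ M
  · simp [h]
  · simp [h]; norm_num

theorem gkszw_edge (e : Edge) (M : Finset Pt) :
    1 + (1 - xc) / (1 + xc) * chi {ea e, eb e} M =
      (1 + (1 - xc) / (1 + xc)) * if e ∈ cut M then xc else 1 := by
  have h0 : 1 + xc ≠ 0 := by linarith [xc_pos]
  rw [gkszw_pair (ea_ne_eb e)]
  by_cases h : (ea e ∈ M ↔ eb e ∈ M)
  · rw [if_pos h, if_neg (fun k => mem_cut.1 k h)]; ring
  · rw [if_neg h, if_pos (mem_cut.2 h)]; field_simp; ring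

theorem gkszw_free (F : Finset Edge) (U T R : Finset Pt) (hd : Disjoint U R)
    (hR : ∀ e ∈ F, ea e ∉ R ∧ eb e ∉ R) :
    Zf F (U ∪ R) T (fun _ => True) = 2 ^ R.card * Zf F U T fun _ => True := by
  induction R using Finset.induction_on with
  | empty => simp
  | insert r R hr ih =>
    have hrU : r ∉ U := fun k => disjoint_left.1 hd k (mem_insert_self _ _)
    have h1 := ih (hd.mono_right (subset_insert _ _))
      fun e he => ⟨fun k => (hR e he).1 (mem_insert_of_mem k),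
        fun k => (hR e he).2 (mem_insert_of_mem k)⟩
    have hr' : r ∉ U ∪ R := by simp [hr, hrU]
    rw [card_insert_of_notMem hr, pow_succ, mul_comm _ (2 : ℝ), mul_assoc, ← h1, union_insert]
    unfold Zf
    rw [sum_powerset_insert hr', two_mul]
    congr 1
    refine sum_congr rfl fun M _ => ?_
    simp only [if_true]
    congr 2
    ext e
    simp only [mem_inter, mem_cut, mem_union, mem_insert]
    refine and_congr_left fun he => ?_
    have k1 : ea e ≠ r := fun k => (hR e he).1 (k ▸ mem_insert_self _ _)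
    have k2 : eb e ≠ r := fun k => (hR e he).2 (k ▸ mem_insert_self _ _)
    simp [k1, k2]

theorem gkszw_split (F : Finset Edge) (W T Fr : Finset Pt) (t0 : Pt) (a : ℝ) (ht : t0 ∈ T)
    (h1 : Disjoint W T) (h2 : Disjoint W Fr) (h3 : Disjoint T Fr) :
    ∑ M ∈ (W ∪ T ∪ Fr).powerset, (if t0 ∈ M then a else 1) * (xc ^ (cut M ∩ F).card *
      ((if ∀ s ∈ T, (t0 ∈ M ↔ s ∈ M) then 1 else 0) * if ∀ u ∈ Fr, u ∉ M then 1 else 0)) =
    Zf F W ∅ (fun _ => True) + a * Zf F W T fun _ => True := by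
  have e1 : (W ∪ T ∪ Fr).powerset.filter (fun M => t0 ∉ M ∧ (∀ s ∈ T, (t0 ∈ M ↔ s ∈ M)) ∧
      ∀ u ∈ Fr, u ∉ M) = W.powerset := by
    ext M
    simp only [mem_filter, mem_powerset]
    constructor
    · rintro ⟨k0, k1, k2, k3⟩ z hz
      rcases mem_union.1 (k0 hz) with k | k
      · rcases mem_union.1 k with k | k
        · exact k
        · exact absurd ((k2 z k).2 hz) k1
      · exact absurd hz (k3 z k)
    · intro k
      have k1 : ∀ s ∈ T, s ∉ M := fun s hs hM => disjoint_left.1 h1 (k hM) hs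
      exact ⟨k.trans (subset_union_left.trans subset_union_left), k1 _ ht,
        fun s hs => ⟨fun m => absurd m (k1 _ ht), fun m => absurd m (k1 _ hs)⟩,
        fun u hu hM => disjoint_left.1 h2 (k hM) hu⟩
  have e2 : (W ∪ T ∪ Fr).powerset.filter (fun M => t0 ∈ M ∧ (∀ s ∈ T, (t0 ∈ M ↔ s ∈ M)) ∧
      ∀ u ∈ Fr, u ∉ M) = W.powerset.image (· ∪ T) := by
    ext M
    simp only [mem_filter, mem_powerset, mem_image]
    constructor
    · rintro ⟨k0, k1, k2, k3⟩
      refine ⟨M \ T, fun z hz => ?_, sdiff_union_of_subset fun s hs => (k2 s hs).1 k1⟩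
      obtain ⟨z1, z2⟩ := mem_sdiff.1 hz
      rcases mem_union.1 (k0 z1) with k | k
      · exact (mem_union.1 k).resolve_right z2
      · exact absurd z1 (k3 z k)
    · rintro ⟨N, k, rfl⟩
      refine ⟨(union_subset_union_left k).trans subset_union_left, mem_union_right _ ht,
        fun s hs => ⟨fun _ => mem_union_right _ hs, fun _ => mem_union_right _ ht⟩,
        fun u hu hM => ?_⟩
      rcases mem_union.1 hM with m | m
      exacts [disjoint_left.1 h2 (k m) hu, disjoint_left.1 h3 m hu]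
  have e3 : Set.InjOn (· ∪ T) (W.powerset : Set (Finset Pt)) := by
    intro N hN N' hN' k
    have d1 : Disjoint N T := h1.mono_left (mem_powerset.1 (mem_coe.1 hN))
    have d2 : Disjoint N' T := h1.mono_left (mem_powerset.1 (mem_coe.1 hN'))
    have k' : N ∪ T = N' ∪ T := k
    rw [← union_sdiff_cancel_right d1, k', union_sdiff_cancel_right d2]
  have z1 : Zf F W ∅ (fun _ => True) = ∑ M ∈ W.powerset, xc ^ (cut M ∩ F).card := by
    simp [Zf]
  have z2 : Zf F W T (fun _ => True) =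
      ∑ M ∈ W.powerset.image (· ∪ T), xc ^ (cut M ∩ F).card := by
    rw [sum_image e3]; simp [Zf]
  rw [z1, z2, ← e2, mul_sum]
  conv_rhs => rw [← e1]
  rw [sum_filter, sum_filter, ← sum_add_distrib]
  refine sum_congr rfl fun M _ => ?_
  by_cases p2 : (∀ s ∈ T, (t0 ∈ M ↔ s ∈ M))
  · by_cases p3 : (∀ u ∈ Fr, u ∉ M)
    · rw [if_pos p2, if_pos p3]
      by_cases p1 : t0 ∈ M
      · rw [if_pos p1, if_neg fun k => k.1 p1, if_pos ⟨p1, p2, p3⟩]; ring
      · rw [if_neg p1, if_pos ⟨p1, p2, p3⟩, if_neg fun k => p1 k.1]; ring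
    · rw [if_neg p3, mul_zero, mul_zero, mul_zero, if_neg fun k => p3 k.2.2,
        if_neg fun k => p3 k.2.2, add_zero]
  · rw [if_neg p2, zero_mul, mul_zero, mul_zero, if_neg fun k => p2 k.2.1,
      if_neg fun k => p2 k.2.1, add_zero]

/-- The interaction sets. -/
noncomputable def gkszw_A (t0 : Pt) : Edge ⊕ Pt ⊕ Pt → Finset Pt :=
  Sum.elim (fun e => {ea e, eb e}) (Sum.elim (fun s => symmDiff {t0} {s}) fun u => {u})

/-- The couplings. -/
noncomputable def gkszw_t : Edge ⊕ Pt ⊕ Pt → ℝ :=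
  Sum.elim (fun _ => (1 - xc) / (1 + xc)) fun _ => 1

theorem gkszw_sum (F : Finset Edge) (W T Fr : Finset Pt) (t0 : Pt) (a : ℝ) (ht : t0 ∈ T)
    (h1 : Disjoint W T) (h2 : Disjoint W Fr) (h3 : Disjoint T Fr) :
    ∑ M ∈ (W ∪ T ∪ Fr).powerset, (if t0 ∈ M then a else 1) *
      ∏ k ∈ F.disjSum (T.disjSum Fr), (1 + gkszw_t k * chi (gkszw_A t0 k) M) =
    (1 + (1 - xc) / (1 + xc)) ^ F.card * 2 ^ T.card * 2 ^ Fr.card *
      (Zf F W ∅ (fun _ => True) + a * Zf F W T fun _ => True) := by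
  rw [← gkszw_split F W T Fr t0 a ht h1 h2 h3, mul_sum]
  refine sum_congr rfl fun M _ => ?_
  rw [prod_disjSum, prod_disjSum]
  simp only [gkszw_A, gkszw_t, Sum.elim_inl, Sum.elim_inr, gkszw_edge, gkszw_merge, gkszw_freeze,
    prod_mul_distrib, prod_const, prod_ite_mem, prod_boole]
  rw [inter_comm F]
  ring

theorem p_GKSZ (hGKS : S_GKS) :
    S_GKSZ := by
  intro F F' U U0 U' T T' ⟨t0, ht⟩ hF hT hU hV d1 d2 hR
  have hx := xc_pos
  have hx1 := xc_lt_one
  have hτ : 0 ≤ (1 - xc) / (1 + xc) := div_nonneg (by linarith) (by linarith)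
  have key := hGKS (Edge ⊕ Pt ⊕ Pt) (U0 ∪ T) {t0} (F.disjSum (T.disjSum ∅))
    (F'.disjSum (T'.disjSum ((U0 ∪ T) \ (U' ∪ T')))) (gkszw_A t0) gkszw_t
    (disjSum_mono hF (disjSum_mono hT (empty_subset _))) (by
      rintro (e | s) _
      · exact ⟨hτ, (div_le_one (by linarith)).2 (by linarith)⟩
      · exact ⟨zero_le_one, le_rfl⟩)
  have s1 := fun a => gkszw_sum F U0 T ∅ t0 a ht d1 (disjoint_empty_right _)
    (disjoint_empty_right _)
  have s2 := fun a => gkszw_sum F' U' T' ((U0 ∪ T) \ (U' ∪ T')) t0 a (hT ht) d2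
    (disjoint_sdiff.mono_left subset_union_left) (disjoint_sdiff.mono_left subset_union_right)
  rw [union_empty] at s1
  rw [union_sdiff_of_subset hV] at s2
  have f1 := fun T1 => gkszw_free F U T1 (U0 \ U) disjoint_sdiff hR
  rw [union_sdiff_of_subset hU] at f1
  have a1 := s1 1
  have a2 := s2 1
  simp only [ite_self, one_mul] at a1 a2
  simp only [gkszw_one] at key
  rw [s1, s2, a1, a2, f1, f1] at key
  have c1 : 0 < (1 + (1 - xc) / (1 + xc)) ^ F.card * 2 ^ T.card * 2 ^ (∅ : Finset Pt).card *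
      2 ^ (U0 \ U).card := by positivity
  have c2 : 0 < (1 + (1 - xc) / (1 + xc)) ^ F'.card * 2 ^ T'.card *
      2 ^ ((U0 ∪ T) \ (U' ∪ T')).card := by positivity
  refine le_of_mul_le_mul_left ?_ (mul_pos two_pos (mul_pos c1 c2))
  linarith

end Pool.Agent.P.MP_347bd1_pr.M

namespace Pool.Agent.P.MP_347bd1_pr.M

open Classical Finset Filter Topology
open scoped ENNReal NNReal

theorem varw_mono {n : ℕ} {ξ : Pt → Bool} {M M' : Finset Pt} (h : M ⊆ M') (k : TB n ξ M) :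
    TB n ξ M' := by
  obtain ⟨a, b, k1, k2, k3, k4⟩ := k
  exact ⟨a, b, h k1, k2, k3, rtg_mono (fun _ _ m => ⟨m.1, h m.2⟩) k4⟩

theorem varw_piv {n : ℕ} {ξ : Pt → Bool} {M : Finset Pt} {z : Pt} (h : Piv n ξ M z) :
    TB n ξ (insert z M) ∧ ¬ TB n ξ (M.erase z) := by
  have := varw_mono (n := n) (ξ := ξ) ((erase_subset z M).trans (subset_insert z M))
  unfold Piv at h
  grind

theorem varw_le {n : ℕ} (ξ : Pt → Bool) {z : Pt} (hz : z ∈ box n) :
    Pf n (fun M => Piv n ξ M z) ≤ 82 * mnv n ξ 1 z := by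
  have hb : z ∈ ball z (1 : ℕ) := mem_ball.2 (by simp)
  have sp : Pf n (fun M => Piv n ξ M z) ≤ Pf n (fun M => z ∈ M ∧ Piv n ξ M z) +
      Pf n fun M => z ∉ M ∧ Piv n ξ M z :=
    le_trans (Pr_mono fun M _ k => (Classical.em (z ∈ M)).imp (⟨·, k⟩) (⟨·, k⟩)) Pr_or_le
  have a1 : ∀ M, z ∉ M → Piv n ξ M z → Ev n ξ z 1 true M := fun M k h => by
    obtain ⟨h1, h2⟩ := varw_piv h
    rw [erase_eq_of_notMem k] at h2
    exact ⟨h2, varw_mono (insert_subset (mem_union_right _ (mem_inter.2 ⟨hb, hz⟩))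
      subset_union_left) h1⟩
  have a2 : ∀ M, z ∈ M → Piv n ξ M z → Ev n ξ z 1 false M := fun M k h => by
    obtain ⟨h1, h2⟩ := varw_piv h
    rw [insert_eq_of_mem k] at h1
    exact ⟨h1, fun m => h2 (varw_mono (fun x hx => mem_erase.2
      ⟨fun e => (Finset.mem_sdiff.1 hx).2 (e ▸ hb), (Finset.mem_sdiff.1 hx).1⟩) m)⟩
  have b1 : Pf n (fun M => z ∉ M ∧ Piv n ξ M z) ≤ Pf n (Ev n ξ z 1 true) :=
    Pr_mono fun M _ k => a1 M k.1 k.2
  have b2 : Pf n (fun M => z ∈ M ∧ Piv n ξ M z) ≤ Pf n (Ev n ξ z 1 false) :=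
    Pr_mono fun M _ k => a2 M k.1 k.2
  have b3 : Pf n (fun M => z ∈ M ∧ Piv n ξ M z) ≤ 81 * Pf n (Ev n ξ z 1 true) :=
    Pr_erase_le.trans (mul_le_mul_of_nonneg_left (Pr_mono fun M _ k => a1 M k.1 (by
      have := k.2
      unfold Piv at this ⊢
      rwa [insert_idem, erase_insert_eq_erase] at this)) (by norm_num))
  have b4 : Pf n (fun M => z ∉ M ∧ Piv n ξ M z) ≤ 81 * Pf n (Ev n ξ z 1 false) :=
    (Pr_insert_le hz).trans (mul_le_mul_of_nonneg_left (Pr_mono fun M _ k => a2 M k.1 (by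
      have := k.2
      unfold Piv at this ⊢
      rwa [insert_erase k.1, erase_idem, ← insert_eq_of_mem k.1, erase_insert_eq_erase] at this))
      (by norm_num))
  rw [mnv, mul_min_of_nonneg _ _ (by norm_num)]
  exact le_min (by linarith) (by linarith)

theorem p_VAR (hBLK : S_BLK) :
    S_VAR := by
  obtain ⟨m0, h0⟩ := hBLK (1 / (16 * 82)) (by norm_num)
  filter_upwards [eventually_ge_atTop m0, eventually_ge_atTop 1] with n h2 hn
  have h1 : ∀ ξ, npiv n ξ (box n) ≤ 1 / 16 := fun ξ => by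
    have := h0 n 1 le_rfl (by omega) ξ
    refine (sum_le_sum fun z hz => varw_le ξ hz).trans ?_
    rw [← mul_sum]
    norm_num at this ⊢
    linarith
  set P := Pf n (TB n fun _ => false)
  have hv := var_eq t_trans f_hex hn .free (P := P) ((t_trans n).1 _).1.symm
  have a1 : Pf n (LR n fun _ => true) = P := (t_sym f_hex n hn).2 true
  have a2 : Pf n (LR n fun _ => false) = 1 - P :=
    (Pr_congr fun M hM => f_hex n _ M hn hM).trans Pr_not
  have a3 := t_russo f_hex n (1 / 16) hn h1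
  have a4 : Pf n (LR n fun _ => false) ≤ Pf n (LR n fun _ => true) :=
    Pr_mono fun M _ ⟨a, b, k1, k2, k3, k4, k5⟩ => ⟨a, b, k1, k2, k3, k4,
      rtg_mono (fun u w k => ⟨Or.inl ((lk_const_not_iff (c := true)).1 k.1), k.2⟩) k5⟩
  rw [hv]
  nlinarith

end Pool.Agent.P.MP_347bd1_pr.M
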