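import Pool.Agent.P.MP_347bd1_pr.M.Iface

/-! Steps CNR, DEC1, DYN, DEC2. -/

set_option autoImplicit false

namespace Pool.Agent.P.MP_347bd1_pr.M

open Classical Finset Filter Topology
open scoped ENNReal NNReal

/-- The corner square without its top row. -/
noncomputable def cnrw_T (n L : ℕ) : Finset Pt := Icc (1 : ℤ) L ×ˢ Icc ((n : ℤ) - L) (n - 1)

/-- The top row together with the corner square. -/
noncomputable def cnrw_S (n L : ℕ) : Finset Pt :=
  (box n).filter fun w => w.2 = n ∨ (w.1 ≤ L ∧ (n : ℤ) - L ≤ w.2)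

/-- Vertical edges below the top row. -/
noncomputable def cnrw_E (n L : ℕ) (b : ℤ) : Finset Edge :=
  (Icc ((L : ℤ) + 1) b).image fun i => ((i, (n : ℤ) - 1), false)

section geo
variable {n L : ℕ}

theorem cnrw_mT {w : Pt} :
    w ∈ cnrw_T n L ↔ 1 ≤ w.1 ∧ w.1 ≤ L ∧ (n : ℤ) - L ≤ w.2 ∧ w.2 + 1 ≤ n := by
  simp only [cnrw_T, mem_product, mem_Icc]; omega

theorem cnrw_mS {w : Pt} : w ∈ cnrw_S n L ↔
    (1 ≤ w.1 ∧ w.1 ≤ n ∧ 1 ≤ w.2 ∧ w.2 ≤ n) ∧ (w.2 = n ∨ (w.1 ≤ L ∧ (n : ℤ) - L ≤ w.2)) := by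
  rw [cnrw_S, mem_filter, mem_box]

theorem cnrw_mE {b : ℤ} {w : Pt} {c : Bool} : (w, c) ∈ cnrw_E n L b ↔
    c = false ∧ w.2 + 1 = n ∧ (L : ℤ) + 1 ≤ w.1 ∧ w.1 ≤ b := by
  obtain ⟨x, y⟩ := w
  simp only [cnrw_E, mem_image, mem_Icc, Prod.mk.injEq]
  exact ⟨fun ⟨i, h, ⟨h1, h2⟩, h3⟩ => ⟨h3.symm, by omega, h1 ▸ h⟩,
    fun ⟨h1, h2, h3⟩ => ⟨x, h3, ⟨rfl, by omega⟩, h1.symm⟩⟩

theorem cnrw_good : Good n (cnrw_S n L) ∅ := by
  refine ⟨filter_subset _ _, fun w hw h => mem_filter.2 ⟨hw, .inl h⟩, ?_, by simp⟩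
  rintro ⟨x, y⟩ hw
  rw [cnrw_mS] at hw
  simp only at hw
  obtain ⟨k, rfl⟩ : ∃ k : ℕ, y = n - k := ⟨(n - y).toNat, by omega⟩
  have := (topConn_top (eS n (cnrw_S n L) ∪ ∅) (w := (x, n))
    (by rw [mem_box]; simp only; omega) rfl).line .S k fun i hi => by
      simp [mem_eS, mem_ebox, cnrw_mS, mem_box, ea, eb, inc, Dir.vec]; omega
  simpa [Dir.vec, sub_eq_add_neg] using this

theorem cnrw_TS (h : L + 1 ≤ n) : cnrw_T n L ⊆ cnrw_S n L := fun w hw => by
  rw [cnrw_mT] at hw; rw [cnrw_mS]; omega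

theorem cnrw_top (h : L + 1 ≤ n) {w : Pt} :
    w ∈ cnrw_S n L \ cnrw_T n L ↔ w.2 = n ∧ 1 ≤ w.1 ∧ w.1 ≤ n := by
  rw [Finset.mem_sdiff, cnrw_mS, cnrw_mT]; omega

theorem cnrw_str (h : L + 1 ≤ n) (hL : 1 ≤ L) :
    Str2 n (cnrw_S n L) (cnrw_T n L) (cnrw_E n L n) ∅ := by
  refine ⟨cnrw_good, cnrw_TS h, ?_, by simp, disjoint_empty_right _, ?_⟩
  · rintro ⟨⟨a, b⟩, _ | _⟩ <;>
      simp only [cnrw_mE, mem_eS, mem_ebox, mem_box, cnrw_mS, cnrw_top h, ea, eb] <;>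
      simp <;> omega
  · rintro ⟨⟨a, b⟩, _ | _⟩ <;>
      simp only [cnrw_mE, mem_eS, mem_ebox, mem_box, cnrw_mS, cnrw_top h, ea, eb] <;>
      simp <;> omega

theorem cnrw_src1 : Src n (cnrw_E n L n) {((L : ℤ), (n : ℤ) - 1)} := by
  rintro ⟨a, b⟩ hp
  rw [mem_intr] at hp
  simp only [deg_eq4, cr, cnrw_mE, Set.mem_singleton_iff, Prod.mk.injEq, Bool.true_eq_false,
    false_and, true_and, if_false, Nat.odd_iff] at hp ⊢
  split_ifs <;> simp <;> omega

theorem cnrw_cut (h : L + 2 ≤ n) {w : Pt} {c : Bool} :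
    (w, c) ∈ cut (cnrw_T n L) ∩ eS n (cnrw_S n L) ↔
      (c = true ∧ w.1 = L ∧ 1 ≤ L ∧ (n : ℤ) - L ≤ w.2 ∧ w.2 + 1 ≤ n) ∨
      (c = false ∧ w.2 + 1 = (n : ℤ) - L ∧ 1 ≤ w.1 ∧ w.1 ≤ L) := by
  obtain ⟨a, b⟩ := w
  cases c <;>
    simp only [mem_inter, mem_cut, mem_eS, mem_ebox, mem_box, cnrw_mS, cnrw_mT, ea, eb] <;>
    simp <;> omega

theorem cnrw_src2 (h : L + 2 ≤ n) (hL : 1 ≤ L) :
    Src n (cut (cnrw_T n L) ∩ eS n (cnrw_S n L)) {((L : ℤ), (n : ℤ) - 1)} := by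
  rintro ⟨a, b⟩ hp
  rw [mem_intr] at hp
  simp only [deg_eq4, cr, cnrw_cut h, Set.mem_singleton_iff, Prod.mk.injEq, Bool.true_eq_false,
    Bool.false_eq_true, false_and, true_and, false_or, or_false, Nat.odd_iff] at hp ⊢
  split_ifs <;> simp <;> omega

theorem cnrw_col (hL : 1 ≤ L) : ∀ e ∈ cnrw_E n L n, ¬ Col1 e := by
  rintro ⟨⟨a, b⟩, c⟩ h k
  have := cnrw_mE.1 h
  have := k.2
  simp only at *
  omega

/-- The arm from the corner square. -/
def cnrw_A (n L : ℕ) (M : Finset Pt) : Prop := ∃ b : Pt, b.2 = 1 ∧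
  Relation.ReflTransGen (fun u w => Star u w ∧ w ∈ M ∪ cnrw_T n L) ((L : ℤ), (n : ℤ) - 1) b

theorem cnrw_valid (h : L + 2 ≤ n) (hL : 1 ≤ L) {M : Finset Pt} (hM : M ⊆ box n \ cnrw_S n L)
    (hA : cnrw_A n L M) :
    Valid n (cnrw_S n L) (cnrw_E n L n) ∅ (Pcl n (cnrw_S n L) (cnrw_E n L n) M) ∧
      ∀ u ∈ Pcl n (cnrw_S n L) (cnrw_E n L n) M, u.1 ≠ 1 := by
  obtain ⟨b, hb, hp⟩ := hA
  have hsub : M ∪ cnrw_T n L ⊆ box n :=
    union_subset (hM.trans sdiff_subset) ((cnrw_TS (by omega)).trans cnrw_good.sub)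
  have ha : ((L : ℤ), (n : ℤ) - 1) ∈ M ∪ cnrw_T n L :=
    mem_union_right _ (cnrw_mT.2 (by dsimp only; omega))
  have bM : b ∈ M ∪ cnrw_T n L := by
    rcases hp.cases_tail with rfl | ⟨c, -, k⟩
    exacts [ha, k.2]
  have bb := mem_box.1 (hsub bM)
  obtain ⟨η, e1, e2, e3, e4⟩ := sep_dual t_dual (v := ((L : ℤ), (n : ℤ) - 1))
    (q := (min b.1 (n - 1), 0)) hsub (by rw [mem_intr]; dsimp only; omega) ha hp
    ⟨.inl rfl, .inl rfl⟩ (by unfold Corner; dsimp only; omega) (by dsimp only; omega)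
    (by dsimp only; omega) (by rw [mem_intr]; dsimp only; omega)
  have := f_sep n _ _ M _ _ η (cnrw_str (by omega) hL) (by
    rintro ⟨x, y⟩ ha ⟨x', y'⟩ hb
    rw [cnrw_top (by omega)] at ha hb
    simp only at ha hb
    obtain ⟨rfl, ha⟩ := ha
    obtain ⟨rfl, hb⟩ := hb
    exact dob_hor _ x x' fun z hz => (cnrw_top (by omega)).2 (by dsimp only; omega))
    hM e1 e2 fun p k => (e4 p k).trans (cnrw_src1 p k).symm
  exact ⟨this.1, this.2 ((cnrw_top (by omega)).2 (by dsimp only; omega)) e3 (cnrw_col hL)⟩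

theorem cnrw_mono (hMONO : S_MONO) (h : L + 2 ≤ n) {S : Finset Pt} (hS : Good n S ∅) (r : ℤ) :
    PS n S (fun M => ∃ s b : Pt, s.1 ≤ L ∧ (n : ℤ) - L ≤ s.2 ∧ b.2 = 1 ∧ SPath M s b) ≤
      Pr (eS n (cnrw_S n L) \ cnrw_E n L r) (box n \ cnrw_S n L) (cnrw_T n L) (cnrw_A n L) := by
  have nt : ∀ w ∈ box n \ S, (1 ≤ w.1 ∧ w.1 ≤ n ∧ 1 ≤ w.2 ∧ w.2 ≤ n) ∧ w.2 ≠ n := fun w hw =>
    ⟨mem_box.1 (Finset.mem_sdiff.1 hw).1, fun k => (Finset.mem_sdiff.1 hw).2 (hS.top w (Finset.mem_sdiff.1 hw).1 k)⟩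
  have sub : box n \ S ⊆ (box n \ cnrw_S n L) ∪ cnrw_T n L := fun w hw => by
    have := nt w hw
    rw [mem_union, Finset.mem_sdiff, mem_box, cnrw_mS, cnrw_mT]; omega
  refine hMONO _ _ _ _ _ _ _ sub (disjoint_left.2 fun w a b => (Finset.mem_sdiff.1 a).2 (cnrw_TS (by omega) b))
    (fun e a b => ?_) (fun e a b => .inl ?_) ?_
  · by_contra k
    rw [not_or, not_or, not_not, not_not] at k
    have h1 := nt _ k.1
    have h2 := nt _ k.2.1
    have h3 := k.2.2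
    obtain ⟨⟨x, y⟩, _ | _⟩ := e <;>
      simp only [Finset.mem_sdiff, mem_eS, mem_ebox, mem_box, cnrw_mE, cnrw_mS, cnrw_mT, ea, eb] at b h1 h2 h3 <;>
      simp at b h1 h2 h3 <;> omega
  · have h1 := (mem_eS.1 (Finset.mem_sdiff.1 a).1).1
    rw [mem_eS, not_and, not_or, not_not, not_not] at b
    exact ⟨fun k => (Finset.mem_sdiff.1 k).2 (b h1).1, fun k => (Finset.mem_sdiff.1 k).2 (b h1).2⟩
  · rintro M hM ⟨⟨x, y⟩, b, s1, s2, hb, s3, hp⟩ M' - hM'
    have h1 := nt _ (hM s3)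
    simp only at s1 s2 h1
    have p1 : Relation.ReflTransGen (fun u w => NN u w ∧ w ∈ cnrw_T n L) ((L : ℤ), (n : ℤ) - 1)
        (x, y) :=
      (dob_hor _ _ x fun z hz => cnrw_mT.2 (by dsimp only; omega)).trans
        (dob_ver x _ y fun z hz => cnrw_mT.2 (by dsimp only; omega))
    refine ⟨b, hb, (rtg_mono (fun u w k => ⟨k.1.star, mem_union_right _ k.2⟩) p1).trans
      (rtg_mono (fun u w k => ⟨k.1, ?_⟩) hp)⟩
    rcases mem_union.1 (sub (hM k.2)) with m | m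
    exacts [mem_union_left _ (hM' (mem_inter.2 ⟨k.2, m⟩)), mem_union_right _ m]

theorem cnrw_drop {F F1 : Finset Edge} {U T : Finset Pt} (h1 : F1 ⊆ F)
    (h2 : ∀ e ∈ F, e ∉ F1 → ea e ∉ U ∪ T ∧ eb e ∉ U ∪ T) (A : Finset Pt → Prop) :
    Zf F U T A = Zf F1 U T A := by
  refine sum_congr rfl fun M hM => ?_
  have : cut (M ∪ T) ∩ F = cut (M ∪ T) ∩ F1 := by
    refine Subset.antisymm (fun e he => ?_) (inter_subset_inter le_rfl h1)
    obtain ⟨a, b⟩ := mem_inter.1 he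
    refine mem_inter.2 ⟨a, by_contra fun k => mem_cut.1 a ?_⟩
    have s : M ∪ T ⊆ U ∪ T := union_subset_union (mem_powerset.1 hM) le_rfl
    exact iff_of_false (fun m => (h2 e b k).1 (s m)) fun m => (h2 e b k).2 (s m)
  rw [this]

theorem cnrw_den (hGKSZ : S_GKSZ) (hTH0 : S_TH0) : ∃ K : ℕ, 2 ≤ K ∧ ∃ c : ℝ, 0 < c ∧
    ∀ n L r : ℕ, 1 ≤ L → K * L ≤ r → L + 2 ≤ r → r + 2 ≤ n →
      c * Zf (eS n (cnrw_S n L) \ cnrw_E n L r) (box n \ cnrw_S n L) ∅ (fun _ => True) ≤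
        Zf (eS n (cnrw_S n L) \ cnrw_E n L r) (box n \ cnrw_S n L) (cnrw_T n L) fun _ => True := by
  obtain ⟨K, hK, c, hc, hT⟩ := hTH0
  refine ⟨K, hK, c, hc, fun n L r hL h1 h2 h3 => ?_⟩
  obtain ⟨F, hF⟩ : ∃ F, F = eS n (cnrw_S n L) \ cnrw_E n L r := ⟨_, rfl⟩
  obtain ⟨U1, hU⟩ : ∃ U1, U1 = (box n \ cnrw_S n L) ∩ ball (1, n) (r - 1) := ⟨_, rfl⟩
  have mU : ∀ w : Pt, w ∈ U1 ↔ 1 ≤ w.1 ∧ w.1 ≤ r ∧ (n : ℤ) - r + 1 ≤ w.2 ∧ w.2 + 1 ≤ n ∧
      ((L : ℤ) + 1 ≤ w.1 ∨ w.2 + 1 ≤ (n : ℤ) - L) := fun w => by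
    rw [hU, mem_inter, Finset.mem_sdiff, mem_box, cnrw_mS, mem_ball, nrm_le_iff, Prod.fst_sub,
      Prod.snd_sub]
    dsimp only
    omega
  have ne : (cnrw_T n L).Nonempty := ⟨(1, n - 1), cnrw_mT.2 (by dsimp only; omega)⟩
  have d2 : Disjoint (box n \ cnrw_S n L) (cnrw_T n L) :=
    disjoint_left.2 fun w a b => (Finset.mem_sdiff.1 a).2 (cnrw_TS (by omega) b)
  have u12 : U1 ⊆ box n \ cnrw_S n L := hU ▸ inter_subset_left
  have d1 : Disjoint U1 (cnrw_T n L) := d2.mono_left u12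
  have g := hGKSZ F F _ _ U1 _ _ ne le_rfl le_rfl le_rfl (union_subset_union u12 le_rfl) d2 d1
    (by simp)
  have dr : ∀ e ∈ F, e ∉ F.filter (fun e => ea e ∈ U1 ∨ eb e ∈ U1) →
      ea e ∉ U1 ∪ cnrw_T n L ∧ eb e ∉ U1 ∪ cnrw_T n L := by
    intro e a b
    have b' : ¬ (ea e ∈ U1 ∨ eb e ∈ U1) := fun k => b (mem_filter.2 ⟨a, k⟩)
    have a' := (Finset.mem_sdiff.1 (hF ▸ a)).1
    obtain ⟨⟨x, y⟩, _ | _⟩ := e <;>
      simp only [mem_union, mU, mem_eS, mem_ebox, mem_box, cnrw_mS, cnrw_mT, ea, eb] at a' b' ⊢ <;>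
      simp at a' b' ⊢ <;> omega
  have t := hT L r (1, n) (F.filter fun e => ea e ∈ U1 ∨ eb e ∈ U1) U1 (cnrw_T n L)
    ((Icc ((L : ℤ) + 2) r).image fun i => (i, (n : ℤ))) hL h1 ne
    (fun w hw => by
      rw [cnrw_mT] at hw
      rw [mem_ball, nrm_le_iff, Prod.fst_sub, Prod.snd_sub]; dsimp only; omega)
    (hU ▸ inter_subset_right) d1 ?_ ?_ ?_
  · rw [← cnrw_drop (filter_subset _ _) dr, ← cnrw_drop (filter_subset _ _) fun e a b =>
      ⟨fun m => (dr e a b).1 (union_subset_union le_rfl (empty_subset _) m),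
        fun m => (dr e a b).2 (union_subset_union le_rfl (empty_subset _) m)⟩] at t
    rw [← hF]
    have p1 : 0 < Zf F U1 ∅ fun _ => True := Zf_pos
    have p2 : 0 ≤ Zf F (box n \ cnrw_S n L) ∅ fun _ => True := Zf_nonneg
    refine le_of_mul_le_mul_right (le_trans ?_ g) p1
    rw [mul_right_comm]
    exact mul_le_mul_of_nonneg_right t p2
  · have mG : ∀ w : Pt, w ∈ (Icc ((L : ℤ) + 2) r).image (fun i => (i, (n : ℤ))) ↔
        w.2 = n ∧ (L : ℤ) + 2 ≤ w.1 ∧ w.1 ≤ r := by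
      rintro ⟨x, y⟩
      simp only [mem_image, mem_Icc, Prod.mk.injEq]
      exact ⟨fun ⟨i, h, k1, k2⟩ => ⟨k2.symm, k1 ▸ h⟩, fun ⟨k1, k2⟩ => ⟨x, k2, rfl, k1.symm⟩⟩
    refine ⟨fun w hw => ?_, ?_, ⟨((L : ℤ) + 2, n), (mG _).2 (by dsimp only; omega), ?_⟩,
      ⟨((r : ℤ), n), (mG _).2 (by dsimp only; omega), ?_⟩⟩
    · rw [mG] at hw
      rw [← not_le, nrm_le_iff, nrm_lt_iff, Prod.fst_sub, Prod.snd_sub]; dsimp only; omega
    · rintro ⟨x, y⟩ ha ⟨x', y'⟩ hb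
      rw [mG] at ha hb
      simp only at ha hb
      obtain ⟨rfl, ha⟩ := ha
      obtain ⟨rfl, hb⟩ := hb
      exact dob_hor _ x x' fun z hz => (mG _).2 (by dsimp only; omega)
    · rw [nrm_eq_iff, Prod.fst_sub, Prod.snd_sub]; dsimp only; omega
    · rw [nrm_eq_iff, Prod.fst_sub, Prod.snd_sub]; dsimp only; omega
  · refine disjoint_left.2 fun w a b => ?_
    obtain ⟨i, -, rfl⟩ := mem_image.1 a
    have := (mU _).1 b
    dsimp only at this
    omega
  · intro e he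
    obtain ⟨a, b⟩ := mem_filter.1 he
    refine ⟨b, ?_⟩
    rw [hF] at a
    obtain ⟨⟨x, y⟩, _ | _⟩ := e <;>
      simp only [Finset.mem_sdiff, mem_union, mU, mem_eS, mem_ebox, mem_box, cnrw_mS, cnrw_mT, cnrw_mE,
        nrm_eq_iff, ea, eb] at a b ⊢ <;>
      simp at a b ⊢ <;> omega

end geo

theorem cnrw_num (hLDHN : S_LDHN) (δ : ℝ) (hδ : 0 < δ) : ∃ K : ℕ, 1 ≤ K ∧
    ∀ n L r : ℕ, 1 ≤ L → L + 2 ≤ r → K * r + 3 ≤ n →
      Gw n ((L : ℤ), (n : ℤ) - 1) ((eS n (cnrw_S n L)).filter fun e => ¬ Col1 e)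
        (cnrw_E n L r) ≤ δ := by
  obtain ⟨K, hK, C, hC, hD⟩ := hLDHN
  obtain ⟨c, c0, c1, hB⟩ := f_beur
  obtain ⟨k, hk⟩ := exists_pow_lt_of_lt_one (x := δ ^ 2 / (C * (3 * K) ^ 2 * 2))
    (y := 1 - c) (by positivity) (by linarith)
  refine ⟨10 ^ k * K, Nat.mul_pos (by positivity) (by omega), fun n L r hL h1 h2 => ?_⟩
  have sc := ts0_sc (cnrw_good (n := n) (L := L))
  obtain ⟨E, hE⟩ : ∃ E, E = (eS n (cnrw_S n L)).filter fun e => ¬ Col1 e := ⟨_, rfl⟩
  rw [← hE] at sc ⊢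
  have a1 : 2 * r ≤ K * r := Nat.mul_le_mul_right r hK
  have a2 : K * r ≤ 10 ^ k * (K * r) := Nat.le_mul_of_pos_left _ (by positivity)
  rw [mul_assoc] at h2
  have a3 : ((K * r : ℕ) : ℤ) = K * r := by push_cast; rfl
  have a4 : ((10 ^ k * (K * r) : ℕ) : ℤ) = 10 ^ k * ((K * r : ℕ) : ℤ) := by push_cast; rfl
  have ns : ∀ z d, nrm (z - (1, (n : ℤ))) ≤ (10 ^ k * (K * r) : ℕ) → ¬ (net n E).st z d :=
    fun z d hz m => by
      have m' : cr z d ∈ E := m.2.2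
      rw [hE, Finset.mem_filter] at m'
      have b := (corn_st sc m).resolve_left fun a => m'.2 a.2
      rw [nrm_le_iff, Prod.fst_sub, Prod.snd_sub] at hz
      dsimp only at hz
      omega
  have nk : ∀ t : ℤ, 0 ≤ t → NearK (net n E) t (1, n) := fun t ht =>
    ⟨(1, n), .N, fun m => by have := (mem_intr.1 m.1).2.2.2; simp at this,
      by rwa [sub_self, nrm_zero]⟩
  have two : ∀ N z, (hN N z).toReal ≤ 2 := fun N z => by
    simpa using ENNReal.toReal_mono (by simp) (hN_le N z)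
  have s2 := hB (net n E) (fun z => (hN (net n E) z).toReal) (1, n) (K * r) k 2 (far_net sc)
    (by omega) zero_le_two (nk _ (by omega))
    (fun z hz => by
      rw [hN_toReal_rec, sum_eq_zero fun d _ => if_neg (ns z d (by omega)), zero_add])
    fun z _ => two _ z
  have tp : ∀ w ∈ box n, w.2 = n → TopConn n E w := fun w => topConn_top E
  have s1 := hD n E (cnrw_E n L r) (ball (1, n) (K * r : ℕ)) (1, n) ((L : ℤ), (n : ℤ) - 1) r sc
    (by omega)
    (by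
      rintro ⟨⟨x, y⟩, b⟩ he -
      obtain ⟨rfl, e1, e2, e3⟩ := cnrw_mE.1 he
      simp only at e1 e2 e3
      refine ⟨?_, ?_, .inr (tp _ ?_ ?_)⟩
      · rw [nrm_le_iff]; simp [ea]; omega
      · rw [nrm_le_iff]; simp [eb]; omega
      · rw [mem_box]; simp [eb]; omega
      · simp [eb]; omega)
    (fun z d hz => ns z d (by omega))
    (by
      rintro ⟨x, y⟩ d he -
      rw [mem_intr, mem_ball, nrm_le_iff]
      cases d <;> simp only [cr, cnrw_mE] at he <;> simp at he ⊢ <;> omega)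
    (nk _ (by omega)) (by rw [mem_intr]; dsimp only; omega)
    (by rw [nrm_le_iff]; simp; omega)
    ⟨((L : ℤ), n), ⟨.inl rfl, .inr (by simp)⟩, tp _ (by rw [mem_box]; dsimp only; omega) rfl⟩
    (by rw [mem_ball, nrm_le_iff]; simp; omega)
    fun p _ d _ hp => mem_ball.2 (by have := (nrm_step p (1, n) d).1; omega)
  have r0 : (1 : ℝ) ≤ r := by exact_mod_cast (by omega : 1 ≤ r)
  have K0 : (2 : ℝ) ≤ K := by exact_mod_cast hK
  have s3 : ∑ y ∈ (ball (1, n) (K * r : ℕ)).filter (Reach n E ((L : ℤ), (n : ℤ) - 1)),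
      (hN (net n E) y).toReal ≤ (3 * K * r) ^ 2 * ((1 - c) ^ k * 2) := by
    refine (sum_le_card_nsmul _ _ ((1 - c) ^ k * 2) fun y hy =>
      s2 y (mem_ball.1 (mem_filter.1 hy).1)).trans ?_
    rw [nsmul_eq_mul]
    refine mul_le_mul_of_nonneg_right ?_ (mul_nonneg (pow_nonneg (by linarith) _) zero_le_two)
    have b1 := (card_filter_le (ball (1, n) (K * r : ℕ))
      (Reach n E ((L : ℤ), (n : ℤ) - 1))).trans_eq (card_ball _ _)
    refine (Nat.cast_le.2 b1).trans ?_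
    push_cast
    exact pow_le_pow_left₀ (by positivity) (by nlinarith) 2
  refine (abs_le_of_sq_le_sq' (s1.trans ((mul_le_mul_of_nonneg_left s3 (by positivity)).trans ?_))
    hδ.le).2
  rw [lt_div_iff₀ (by positivity)] at hk
  refine le_of_eq_of_le ?_ hk.le
  field_simp

theorem p_CNR (hKC1 : S_KC1) (hLDHN : S_LDHN) (hMONO : S_MONO) (hZEQ : S_ZEQ) (hTS0 : S_TS0) (hGKSZ : S_GKSZ) (hTH0 : S_TH0) :
    S_CNR := by
  intro ε hε
  obtain ⟨K1, hK1, c, hc, hd⟩ := cnrw_den hGKSZ hTH0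
  obtain ⟨K2, hK2, hn⟩ := cnrw_num hLDHN (c * ε) (by positivity)
  refine ⟨K2 * (K1 + 2) + 3, fun n L S hS hL h => ?_⟩
  have a1 : 2 * L ≤ K1 * L := Nat.mul_le_mul_right L hK1
  have a2 : K2 * (K1 * L + 2) + 3 ≤ n := by
    refine le_trans ?_ h
    have : K2 * (K1 * L + 2) ≤ K2 * ((K1 + 2) * L) := Nat.mul_le_mul_left _ (by nlinarith)
    nlinarith
  have a3 : K1 * L + 2 ≤ K2 * (K1 * L + 2) := Nat.le_mul_of_pos_left _ hK2
  have d := hd n L (K1 * L + 2) hL (by omega) (by omega) (by omega)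
  have g := hn n L (K1 * L + 2) hL (by omega) a2
  have a4 : L + 2 ≤ n := by omega
  generalize K1 * L + 2 = r at *
  have t := hTS0 n _ _ _ _ (cnrw_E n L r) _ _ 1 (cnrw_A n L) (by omega) (cnrw_str (by omega) hL)
    cnrw_src1 (cnrw_src2 (by omega) hL) (cnrw_col hL) zero_le_one
    (fun E _ _ => by rw [symmDiff_self]; exact div_self_le_one _)
    fun M hM hA => cnrw_valid (by omega) hL hM hA
  rw [hZEQ n _ ∅ _ ∅ (by omega) cnrw_good (empty_subset _) (ts0_src n _)] at d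
  have z := (hKC1 n (eS n (cnrw_S n L)) (cnrw_E n L r)).2.1
  rw [mul_one, div_le_iff₀ z] at t
  refine (cnrw_mono hMONO (by omega) hS r).trans ?_
  rw [Pr, div_le_iff₀ Zf_pos]
  refine t.trans ((mul_le_mul_of_nonneg_right g z.le).trans ?_)
  rw [mul_comm c, mul_assoc]
  exact mul_le_mul_of_nonneg_left d hε.le

end Pool.Agent.P.MP_347bd1_pr.M

namespace Pool.Agent.P.MP_347bd1_pr.M

open Classical Finset Filter Topology
open scoped ENNReal NNReal

theorem dec1w_card (C E D L : Finset Edge) :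
    ((C ∩ E ∩ L) \ D).card + (((C ∩ E) \ L) \ D).card = (C ∩ (E \ D)).card := by
  rw [add_comm, ← card_sdiff_add_card_inter (C ∩ (E \ D)) L]
  congr 2 <;> ext e <;> simp only [Finset.mem_sdiff, Finset.mem_inter] <;> grind

theorem p_DEC1 :
    S_DEC1 := by
  intro n S T Lf Rg D A0 A1 B Φ hs h0 h1 hB
  rw [Zf_eq_filter, ← sum_fiberwise_of_maps_to (s := (box n \ S).powerset.filter B)
    (t := (box n \ S).powerset.filter fun P => Valid n S Lf Rg P ∧ Φ P) (g := Pcl n S Lf)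
    fun M hM => by
      obtain ⟨k1, k2⟩ := mem_filter.1 hM
      have := hB M (mem_powerset.1 k1) k2
      exact mem_filter.2 ⟨mem_powerset.2 this.1.sub, this⟩]
  refine sum_le_sum fun P _ => ?_
  have key : ∀ M ∈ ((box n \ S).powerset.filter B).filter fun M => Pcl n S Lf M = P,
      M ⊆ box n \ S ∧ cut (M ∪ T) ∩ eS n S ∩ Dl n Lf P = lam n Lf P := fun M hM => by
    obtain ⟨k, rfl⟩ := mem_filter.1 hM
    obtain ⟨k1, k2⟩ := mem_filter.1 k
    have k3 := mem_powerset.1 k1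
    exact ⟨k3, dec1_key hs k3 (hB M k3 k2).1.nrg⟩
  have hl : Src n (lam n Lf P) A1 :=
    ((src_cut n P).symmDiff h1).congr fun p _ => by simp [Set.mem_symmDiff]
  have inj : Set.InjOn (fun M => (cut (M ∪ T) ∩ eS n S) \ Dl n Lf P)
      (((box n \ S).powerset.filter B).filter fun M => Pcl n S Lf M = P) := by
    intro M hM M' hM' h
    obtain ⟨k1, k2⟩ := key M hM
    obtain ⟨l1, l2⟩ := key M' hM'
    refine cut_eS_inj hs.good hs.hT k1 l1 ?_
    rw [← sdiff_union_inter (cut (M ∪ T) ∩ eS n S) (Dl n Lf P),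
      ← sdiff_union_inter (cut (M' ∪ T) ∩ eS n S) (Dl n Lf P), k2, l2]
    exact congrArg (· ∪ lam n Lf P) h
  calc _ = ∑ M ∈ ((box n \ S).powerset.filter B).filter fun M => Pcl n S Lf M = P,
        xc ^ (lam n Lf P \ D).card *
          xc ^ (((cut (M ∪ T) ∩ eS n S) \ Dl n Lf P) \ D).card := by
        refine sum_congr rfl fun M hM => ?_
        rw [← pow_add, ← (key M hM).2, dec1w_card]
    _ ≤ _ := by
        rw [← mul_sum, Zw, ← sum_filter]
        refine mul_le_mul_of_nonneg_left ?_ (pow_pos xc_pos _).le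
        rw [← sum_image (f := fun η : Finset Edge => xc ^ (η \ D).card) inj]
        refine sum_le_sum_of_subset_of_nonneg ?_ fun _ _ _ => (pow_pos xc_pos _).le
        intro η hη
        obtain ⟨M, hM, rfl⟩ := mem_image.1 hη
        obtain ⟨k1, k2⟩ := key M hM
        refine mem_filter.2 ⟨mem_powerset.2 (sdiff_subset_sdiff inter_subset_right le_rfl), ?_⟩
        rw [dec1_split, k2]
        exact (src_cut_eS k1 h0).symmDiff hl

end Pool.Agent.P.MP_347bd1_pr.M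

namespace Pool.Agent.P.MP_347bd1_pr.M

open Classical Finset Filter Topology
open scoped ENNReal NNReal

theorem dynw_mono {n : ℕ} {ξ : Pt → Bool} {M M' : Finset Pt} (h : M ⊆ M') (k : TB n ξ M) :
    TB n ξ M' := by
  obtain ⟨a, b, k1, k2, k3, k4⟩ := k
  exact ⟨a, b, h k1, k2, k3, rtg_mono (fun _ _ m => ⟨m.1, h m.2⟩) k4⟩

/-- Moving a coordinate into the box. -/
def dynw_in (n l : ℕ) (i : ℤ) : ℤ := if i < 1 then i + l else if n < i then i - l else i

/-- The configuration with the block set to `c`. -/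
noncomputable def dynw_set {n : ℕ} (w : Pt) (r : ℕ) (c : Bool) (σ : Conf n) : Conf n :=
  fun x => if toP x ∈ ball w r then c else σ x

theorem dynw_ip {n : ℕ} (hn : 1 ≤ n) (w : Pt) (r : ℕ) (c : Bool) :
    ip (ising .free) (fcr - fun σ : Conf n => fcr (dynw_set w r (!c) σ))
      (fcr - fun σ : Conf n => fcr (dynw_set w r (!c) σ)) =
      4 * Pf n (Ev n (fun _ => false) w r c) := by
  rw [← ((t_trans n).1 _).1, mul_sum, ip]
  refine sum_congr rfl fun σ _ => ?_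
  simp only [Pi.sub_apply, fcr_eq t_trans f_hex hn]
  cases c
  · have e : toM (dynw_set w r (!false) σ) = toM σ \ ball w r :=
      toM_ext (sdiff_subset.trans (toM_subset σ)) fun x => by
        by_cases k : toP x ∈ ball w r <;> simp [dynw_set, k, toP_mem_toM]
    have m := dynw_mono (n := n) (ξ := fun _ => false) (sdiff_subset (s := toM σ) (t := ball w r))
    rw [e]
    by_cases a : TB n (fun _ => false) (toM σ) <;>
      by_cases b : TB n (fun _ => false) (toM σ \ ball w r) <;> simp [Ev, a, b] <;>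
      first | exact absurd (m b) a | ring
  · have e : toM (dynw_set w r (!true) σ) = toM σ ∪ (ball w r ∩ box n) :=
      toM_ext (union_subset (toM_subset σ) inter_subset_right) fun x => by
        by_cases k : toP x ∈ ball w r <;> simp [dynw_set, k, toP_mem_toM, toP_mem]
    have m := dynw_mono (n := n) (ξ := fun _ => false)
      (subset_union_left (s₁ := toM σ) (s₂ := ball w r ∩ box n))
    rw [e]
    by_cases a : TB n (fun _ => false) (toM σ) <;>
      by_cases b : TB n (fun _ => false) (toM σ ∪ (ball w r ∩ box n)) <;> simp [Ev, a, b] <;>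
      first | exact absurd (m a) b | ring

theorem p_DYN (hP1 : S_P1) :
    S_DYN := by
  obtain ⟨C, hC, h⟩ := hP1
  refine ⟨C * 36, by positivity, fun n l t hl hn ht => ?_⟩
  set Z : Finset Pt := Icc (1 - l : ℤ) (n + l) ×ˢ Icc (1 - l : ℤ) (n + l) with hZ
  set φ : Pt → Pt := fun z => (dynw_in n l z.1, dynw_in n l z.2) with hφ
  have hc : ∀ w : Pt, ∃ c : Bool, mnv n (fun _ => false) (2 * l) w =
      Pf n (Ev n (fun _ => false) w (2 * l) c) := fun w => by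
    rcases min_choice (Pf n (Ev n (fun _ => false) w (2 * l) true))
      (Pf n (Ev n (fun _ => false) w (2 * l) false)) with k | k
    exacts [⟨true, k⟩, ⟨false, k⟩]
  choose c hc using hc
  have a1 := h .free n l t fcr (fun z σ => fcr (dynw_set (φ z) (2 * l) (!c (φ z)) σ)) Z hl ht
    (fun x hx z hz => by
      rw [mem_ball, nrm_le_iff] at hz
      rw [mem_box] at hx
      simp only [hZ, mem_product, mem_Icc, Prod.fst_sub, Prod.snd_sub] at hz ⊢
      omega)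
    (fun z _ σ x s hx => by
      congr 1
      funext y
      unfold dynw_set
      split_ifs with k
      · rfl
      · refine Function.update_of_ne (fun m => k ?_) _ _
        rw [m, mem_ball, nrm_le_iff]
        rw [nrm_lt_iff] at hx
        simp only [hφ, dynw_in, Prod.fst_sub, Prod.snd_sub] at hx ⊢
        push_cast
        split_ifs <;> omega)
  have g0 : ∀ w, 0 ≤ mnv n (fun _ => false) (2 * l) w := fun w => le_min Pr_nonneg Pr_nonneg
  have a2 : ∑ z ∈ Z, mnv n (fun _ => false) (2 * l) (φ z) ≤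
      9 * ∑ w ∈ box n, mnv n (fun _ => false) (2 * l) w := by
    rw [← sum_fiberwise_of_maps_to (t := box n) (g := φ) fun z hz => by
      simp only [hZ, mem_product, mem_Icc] at hz
      simp only [hφ, mem_box, dynw_in]
      split_ifs <;> omega, mul_sum]
    refine sum_le_sum fun w _ => ?_
    rw [sum_congr rfl fun z hz => by rw [(mem_filter.1 hz).2], sum_const, nsmul_eq_mul]
    refine mul_le_mul_of_nonneg_right ?_ (g0 w)
    have b1 : Z.filter (fun z => φ z = w) ⊆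
        ({w.1 - l, w.1, w.1 + l} : Finset ℤ) ×ˢ ({w.2 - l, w.2, w.2 + l} : Finset ℤ) := by
      intro z hz
      have := (mem_filter.1 hz).2
      simp only [hφ, dynw_in, Prod.ext_iff] at this
      simp only [mem_product, mem_insert, mem_singleton]
      split_ifs at this <;> omega
    have b2 := card_le_card b1
    rw [card_product] at b2
    exact_mod_cast b2.trans (Nat.mul_le_mul card_le_three card_le_three)
  simp only [dynw_ip (hl.trans hn), ← hc, ← mul_sum] at a1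
  refine a1.trans ?_
  have p : 0 ≤ C / (l : ℝ) ^ 2 * (1 + t / (l : ℝ) ^ 2) := by positivity
  calc _ ≤ C / (l : ℝ) ^ 2 * (1 + t / (l : ℝ) ^ 2) *
        (4 * (9 * ∑ w ∈ box n, mnv n (fun _ => false) (2 * l) w)) :=
        mul_le_mul_of_nonneg_left (by linarith) p
    _ = _ := by ring

end Pool.Agent.P.MP_347bd1_pr.M

namespace Pool.Agent.P.MP_347bd1_pr.M

open Classical Finset Filter Topology
open scoped ENNReal NNReal

theorem dec2w_eq (n : ℕ) (A : Set Pt) (E D : Finset Edge) :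
    Zw n A E D = ∑ η ∈ E.powerset.filter (fun η => Src n η A), xc ^ (η \ D).card := by
  rw [Zw, sum_filter]

theorem dec2w_sum {n : ℕ} {S T : Finset Pt} {Lf Rg : Finset Edge} (hS : Str2 n S T Lf Rg)
    {A1 : Set Pt} (hA : Src n Lf A1) {E : Finset Edge} (D : Finset Edge)
    {F : Finset (Finset Pt)} (hF : ∀ P ∈ F, Valid n S Lf Rg P ∧ lam n Lf P ⊆ E) :
    ∑ P ∈ F, xc ^ (lam n Lf P \ D).card * Zw n ∅ (E \ Dl n Lf P) D ≤ Zw n A1 E D := by
  have hd : ∀ (P : Finset Pt) (η : Finset Edge), η ⊆ E \ Dl n Lf P → Disjoint (lam n Lf P) η :=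
    fun P η h => disjoint_left.2 fun e a b => (mem_sdiff.1 (h b)).2 (dec2_lam_sub a)
  simp only [dec2w_eq, mul_sum]
  rw [sum_sigma']
  have e1 : ∀ x ∈ F.sigma fun P => (E \ Dl n Lf P).powerset.filter fun η => Src n η ∅,
      xc ^ (lam n Lf x.1 \ D).card * xc ^ (x.2 \ D).card =
        xc ^ ((lam n Lf x.1 ∪ x.2) \ D).card := by
    intro x hx
    rw [← pow_add, union_sdiff_distrib, card_union_of_disjoint
      ((hd _ _ (mem_powerset.1 (mem_filter.1 (mem_sigma.1 hx).2).1)).mono sdiff_subset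
        sdiff_subset)]
  rw [sum_congr rfl e1, ← sum_image (g := fun x : Σ _ : Finset Pt, Finset Edge =>
    lam n Lf x.1 ∪ x.2) (f := fun η => xc ^ (η \ D).card)]
  · refine sum_le_sum_of_subset_of_nonneg ?_ fun _ _ _ => (pow_pos xc_pos _).le
    intro η hη
    obtain ⟨⟨P, η'⟩, hx, rfl⟩ := mem_image.1 hη
    obtain ⟨h1, h2⟩ := mem_sigma.1 hx
    obtain ⟨h3, h4⟩ := mem_filter.1 h2
    have h5 := mem_powerset.1 h3
    refine mem_filter.2 ⟨mem_powerset.2 (union_subset (hF P h1).2 (h5.trans sdiff_subset)), ?_⟩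
    have h6 : lam n Lf P ∪ η' = symmDiff (lam n Lf P) η' := (hd P η' h5).symmDiff_eq_sup.symm
    simp only
    rw [h6]
    exact (((src_cut n P).symmDiff hA).symmDiff h4).congr fun p _ => by
      simp
  · rintro ⟨P, η⟩ hx ⟨P', η'⟩ hx' e
    obtain ⟨h1, h2⟩ := mem_sigma.1 (mem_coe.1 hx)
    obtain ⟨h1', h2'⟩ := mem_sigma.1 (mem_coe.1 hx')
    have h3 := mem_powerset.1 (mem_filter.1 h2).1
    have h3' := mem_powerset.1 (mem_filter.1 h2').1
    simp only at e h1 h1' h3 h3'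
    have a1 : P ⊆ P' := dec2_sub hS (hF P h1).1 (hF P' h1').1 (η := lam n Lf P ∪ η)
      (fun f k m => (mem_union.1 m).resolve_right fun a => (mem_sdiff.1 (h3 a)).2 k)
      (e ▸ subset_union_left)
    have a2 : P' ⊆ P := dec2_sub hS (hF P' h1').1 (hF P h1).1 (η := lam n Lf P' ∪ η')
      (fun f k m => (mem_union.1 m).resolve_right fun a => (mem_sdiff.1 (h3' a)).2 k)
      (e ▸ subset_union_left)
    obtain rfl := Subset.antisymm a1 a2
    have a3 : η = η' := by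
      rw [← union_sdiff_cancel_left (hd P η h3), e, union_sdiff_cancel_left (hd P η' h3')]
    rw [a3]

theorem p_DEC2 (hKC1 : S_KC1) (hLSM : S_LSM) :
    S_DEC2 := by
  intro n S T Lf Rg D A1 hn hS hA E F hE hsc hF
  rw [le_div_iff₀ (hKC1 n E D).2.1, sum_mul]
  refine le_trans (sum_le_sum fun P hP => ?_) (dec2w_sum hS hA D hF)
  have h1 := hLSM n (eS n S) (eS n S \ Dl n Lf P) E D hn hS.good.sc_eS
    (dec2_sc hS (hF P hP).1) hsc sdiff_subset hE
  have h2 : eS n S \ Dl n Lf P ∩ E = E \ Dl n Lf P := by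
    ext e
    have := @hE e
    simp only [Finset.mem_inter, Finset.mem_sdiff]
    grind
  rw [h2] at h1
  rw [qw, div_mul_eq_mul_div, div_le_iff₀ (hKC1 n _ D).2.1, mul_assoc, mul_assoc]
  exact mul_le_mul_of_nonneg_left (by linarith) (pow_pos xc_pos _).le

end Pool.Agent.P.MP_347bd1_pr.M
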