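import Pool.Agent.P.MP_347bd1_pr.M.Iface

/-! Steps RUN, SIGN, TS, PB, CLS. -/

set_option autoImplicit false

namespace Pool.Agent.P.MP_347bd1_pr.M

open Classical Finset Filter Topology
open scoped ENNReal NNReal

/-- A quarter turn. -/
def runw_rot : Bool → Dir → Dir
  | true, .N => .W | true, .W => .S | true, .S => .E | true, .E => .N
  | false, .N => .E | false, .E => .S | false, .S => .W | false, .W => .N

/-- The plaquette at `w` between the direction `c` and the next direction. -/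
def runw_fc : Bool → Pt → Dir → Pt
  | true, w, .E => w | true, w, .N => (w.1 - 1, w.2) | true, w, .W => (w.1 - 1, w.2 - 1)
  | true, w, .S => (w.1, w.2 - 1)
  | false, w, .N => w | false, w, .E => (w.1, w.2 - 1) | false, w, .S => (w.1 - 1, w.2 - 1)
  | false, w, .W => (w.1 - 1, w.2)

/-- `c` comes strictly after `f` and strictly before `b`. -/
def runw_Btw (s : Bool) (b f c : Dir) : Prop :=
  runw_rot s f ≠ b ∧ (c = runw_rot s f ∨
    (c = runw_rot s (runw_rot s f) ∧ runw_rot s (runw_rot s f) ≠ b))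

instance (s : Bool) (b f c : Dir) : Decidable (runw_Btw s b f c) := by
  unfold runw_Btw; infer_instance

theorem runw_cr (s : Bool) (w : Pt) (c : Dir) :
    cr (runw_fc s w c) c.opp = inc w (runw_rot s c) ∧
      runw_fc s w c + c.opp.vec = runw_fc s w (runw_rot s c) ∧
      runw_fc s (w + c.vec) (runw_rot s c) = runw_fc s w c := by
  obtain ⟨x, y⟩ := w
  cases s <;> cases c <;>
    simp [runw_fc, runw_rot, cr, inc, Dir.opp, Dir.vec, Prod.ext_iff] <;> omega

theorem runw_cor (s : Bool) (w : Pt) (c : Dir) :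
    Corner (runw_fc s w c) w ∧ Corner (runw_fc s w c) (w + c.vec) ∧
      Corner (runw_fc s w c) (w + (runw_rot s c).vec) := by
  obtain ⟨x, y⟩ := w
  cases s <;> cases c <;> simp [runw_fc, runw_rot, Corner, Dir.vec] <;> omega

theorem runw_of_cor (s : Bool) {p w : Pt} (h : Corner p w) : ∃ c, p = runw_fc s w c := by
  obtain ⟨x, y⟩ := w
  obtain ⟨a, b⟩ := p
  simp only [Corner] at h
  cases s <;> simp only [Dir.exists_iff, runw_fc, Prod.ext_iff] <;> omega

theorem runw_flip (w : Pt) (c : Dir) : runw_fc true w c = runw_fc false w (runw_rot true c) := by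
  cases c <;> rfl

theorem runw_d1 : ∀ (b f c : Dir), b ≠ f → ¬ (c = f ∨ runw_Btw true b f c) →
    (runw_rot true c = f ∨ runw_Btw false b f (runw_rot true c)) := by decide

theorem runw_d2 : ∀ (s : Bool) (b f c : Dir), b ≠ f → runw_rot s c = b →
    (c = f ∨ runw_Btw s b f c) := by decide

theorem runw_d3 : ∀ (s : Bool) (b f c : Dir), b ≠ f → (c = f ∨ runw_Btw s b f c) →
    (runw_rot s c = b ∨ runw_Btw s b f (runw_rot s c)) := by decide

theorem runw_d4 : ∀ (s : Bool) (b f c : Dir), b ≠ f → runw_Btw s b f c → c ≠ b ∧ c ≠ f := by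
  decide

theorem runw_d5 : ∀ (s : Bool) (c : Dir), runw_rot s (runw_rot s c) = c.opp := by decide

theorem runw_d6 : ∀ (s : Bool) (c : Dir), ∃ c', runw_rot s c' = c := by decide

theorem runw_d7 : ∀ (s : Bool) (b f c : Dir), b ≠ f → runw_rot s c = f →
    ¬ (c = f ∨ runw_Btw s b f c) := by decide

theorem runw_col (s : Bool) (g : Dir → Prop) (b f : Dir) (hbf : b ≠ f)
    (h : ∀ c, ¬ (g c ↔ g (runw_rot s c)) ↔ (runw_rot s c = b ∨ runw_rot s c = f)) (c : Dir) :
    (c = f ∨ runw_Btw s b f c) ↔ (g c ↔ g f) := by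
  have h1 := h .N
  have h2 := h .E
  have h3 := h .S
  have h4 := h .W
  clear h
  cases s <;> cases b <;> cases f <;> cases c <;>
    simp [runw_rot, runw_Btw] at hbf h1 h2 h3 h4 ⊢ <;> grind

theorem runw_chain (s : Bool) (g : Dir → Prop) (b f : Dir)
    (h : ∀ c, runw_Btw s b f (runw_rot s c) → (g c ↔ g (runw_rot s c))) (c : Dir)
    (hc : c = f ∨ runw_Btw s b f c) : g c ↔ g f := by
  rcases hc with rfl | ⟨h1, rfl | ⟨rfl, h2⟩⟩
  · rfl
  · exact (h f ⟨h1, .inl rfl⟩).symm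
  · exact (h _ ⟨h1, .inr ⟨rfl, h2⟩⟩).symm.trans (h f ⟨h1, .inl rfl⟩).symm

theorem runw_all (s : Bool) (g : Dir → Prop) (k : ∀ c, g c ↔ g (runw_rot s c)) (c c' : Dir) :
    g c → g c' := by
  rw [Dir.forall_iff] at k
  cases s <;> cases c <;> cases c' <;> simp only [runw_rot] at k <;> grind

theorem runw_first (s : Bool) (P : Dir → Prop) (f : Dir) (hf : ¬ P f) (h : ∃ e, P e) :
    ∃ b, P b ∧ ∀ c, runw_Btw s b f c → ¬ P c := by
  rw [Dir.exists_iff] at h
  cases s <;> cases f <;> simp [Dir.exists_iff, Dir.forall_iff, runw_Btw, runw_rot] <;> grind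

theorem runw_last (s : Bool) (P : Dir → Prop) (b : Dir) (hb : ¬ P b) (h : ∃ e, P e) :
    ∃ f, P f ∧ ∀ c, runw_Btw s b f c → ¬ P c := by
  rw [Dir.exists_iff] at h
  cases s <;> cases b <;> simp [Dir.exists_iff, Dir.forall_iff, runw_Btw, runw_rot] <;> grind

theorem runw_star {u w : Pt} (h : Star u w) : ∃ p, Corner p u ∧ Corner p w := by
  have h1 := nrm_le_iff.1 h.le
  simp only [Prod.fst_sub, Prod.snd_sub] at h1
  refine ⟨(min u.1 w.1, min u.2 w.2), ?_, ?_⟩ <;> simp only [Corner] <;> omega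

theorem runw_cc {p u w : Pt} (h1 : Corner p u) (h2 : Corner p w) : u = w ∨ Star u w := by
  obtain ⟨x, y⟩ := u
  obtain ⟨x', y'⟩ := w
  simp only [Corner] at h1 h2
  simp only [Star, nrm_eq_iff, Prod.ext_iff, Prod.fst_sub, Prod.snd_sub]
  omega

theorem runw_fsymm {F : Finset Edge} {p q : Pt} (h : FConn F p q) : FConn F q p := by
  induction h with
  | refl => exact .refl
  | tail _ k ih =>
    obtain ⟨d, k1, rfl⟩ := k
    exact Relation.ReflTransGen.head ⟨d.opp, by rwa [cr_opp], by simp⟩ ih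

/-- The number of edges at a site is odd. -/
def runw_od (C : Finset Edge) (w : Pt) : Prop := Odd (univ.filter fun d => inc w d ∈ C).card

theorem runw_od_sd (A B : Finset Edge) (w : Pt) :
    runw_od (symmDiff A B) w ↔ ¬ (runw_od A w ↔ runw_od B w) := by
  simp only [runw_od, card_filter, sum_dir, mem_symmDiff]
  by_cases h1 : inc w .N ∈ A <;> by_cases h2 : inc w .E ∈ A <;> by_cases h3 : inc w .S ∈ A <;>
    by_cases h4 : inc w .W ∈ A <;> by_cases k1 : inc w .N ∈ B <;> by_cases k2 : inc w .E ∈ B <;>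
    by_cases k3 : inc w .S ∈ B <;> by_cases k4 : inc w .W ∈ B <;> simp [*] <;> decide

theorem runw_od_one (u w : Pt) (d : Dir) : runw_od {inc u d} w ↔ w = u ∨ w = u + d.vec := by
  have hne : u + d.vec ≠ u := fun k => d.vec_ne_zero (by simpa using k)
  simp only [runw_od, mem_singleton, inc_eq_iff]
  by_cases h1 : w = u
  · have h2 : w ≠ u + d.vec := h1 ▸ hne.symm
    simp [h1, hne.symm, filter_eq']
  · by_cases h2 : w = u + d.vec
    · simp [h2, hne, filter_eq']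
    · simp [h1, h2]

theorem runw_path {n : ℕ} {S : Finset Pt} (hS : S ⊆ box n) {a b : Pt} (ha : a ∈ S)
    (h : Relation.ReflTransGen (fun u w => NN u w ∧ w ∈ S) a b) :
    b ∈ S ∧ ∃ π ⊆ ebox n, (∀ w c, inc w c ∈ π → w ∈ S) ∧
      ∀ w, runw_od π w ↔ ¬ (w = a ↔ w = b) := by
  induction h with
  | refl => exact ⟨ha, ∅, empty_subset _, by simp, by simp [runw_od]⟩
  | @tail u v _ k ih =>
    obtain ⟨⟨d, rfl⟩, k2⟩ := k
    obtain ⟨hu, π, h1, h2, h3⟩ := ih
    have hne : u + d.vec ≠ u := fun k => d.vec_ne_zero (by simpa using k)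
    refine ⟨k2, symmDiff π {inc u d}, symmDiff_subset_union.trans (union_subset h1
      (singleton_subset_iff.2 (inc_mem_ebox.2 ⟨hS hu, hS k2⟩))), fun w c hw => ?_, fun w => ?_⟩
    · rcases mem_symmDiff.1 hw with k | k
      · exact h2 w c k.1
      · rcases inc_eq_iff.1 (mem_singleton.1 k.1) with k | k <;> rw [k.1] <;> assumption
    · rw [runw_od_sd, h3, runw_od_one]
      by_cases e1 : w = u
      · have : w ≠ u + d.vec := e1 ▸ hne.symm
        grind
      · grind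

/-- The path with a backward and a forward direction at every site. -/
structure runw_X (s : Bool) (n : ℕ) (S : Finset Pt) (m : ℕ) (t : ℕ → Pt) (b f : ℕ → Dir) :
    Prop where
  len : 3 ≤ m
  step : ∀ i, i + 1 < m → t (i + 1) = t i + (f i).vec ∧ b (i + 1) = (f i).opp
  inj : ∀ i < m, ∀ j < m, t i = t j → i = j
  ind : ∀ i < m, ∀ j < m, NN (t i) (t j) → j = i + 1 ∨ i = j + 1
  ins : ∀ i < m, t i ∉ S ∧ Ins n (t i)
  h0 : t 0 + (b 0).vec ∈ S
  h1 : t (m - 1) + (f (m - 1)).vec ∈ S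
  btw : ∀ i < m, ∀ c, runw_Btw s (b i) (f i) c → t i + c.vec ∉ S

section
variable {s : Bool} {n : ℕ} {S : Finset Pt} {m : ℕ} {t : ℕ → Pt} {b f : ℕ → Dir}

theorem runw_X.back (X : runw_X s n S m t b f) {j : ℕ} (hj : j + 1 < m) :
    t (j + 1) + (b (j + 1)).vec = t j := by
  rw [(X.step j hj).1, (X.step j hj).2]; simp

theorem runw_X.nb (X : runw_X s n S m t b f) {i j : ℕ} (hi : i < m) (hj : j < m) {c : Dir}
    (h : t j = t i + c.vec) : (c = f i ∧ j = i + 1) ∨ (c = b i ∧ i = j + 1) := by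
  rcases X.ind i hi j hj ⟨c, h⟩ with rfl | rfl
  · exact .inl ⟨Dir.vec_inj (add_left_cancel (h.symm.trans (X.step i hj).1)), rfl⟩
  · exact .inr ⟨Dir.vec_inj (add_left_cancel (h.symm.trans (X.back hi).symm)), rfl⟩

theorem runw_X.fw (X : runw_X s n S m t b f) {i : ℕ} (hi : i < m) :
    (i + 1 < m ∧ t i + (f i).vec = t (i + 1)) ∨ (i = m - 1 ∧ t i + (f i).vec ∈ S) := by
  by_cases h : i + 1 < m
  · exact .inl ⟨h, (X.step i h).1.symm⟩
  · obtain rfl : i = m - 1 := by omega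
    exact .inr ⟨rfl, X.h1⟩

theorem runw_X.bw (X : runw_X s n S m t b f) {i : ℕ} (hi : i < m) :
    (∃ j, i = j + 1 ∧ t i + (b i).vec = t j) ∨ (i = 0 ∧ t i + (b i).vec ∈ S) := by
  rcases i with _ | j
  · exact .inr ⟨rfl, X.h0⟩
  · exact .inl ⟨j, rfl, X.back hi⟩

theorem runw_X.bf (X : runw_X s n S m t b f) {i : ℕ} (hi : i < m) : b i ≠ f i := by
  intro h
  have := X.len
  rcases X.fw hi with ⟨k1, k2⟩ | ⟨k1, k2⟩ <;> rcases X.bw hi with ⟨j, l1, l2⟩ | ⟨l1, l2⟩
  · have := X.inj (i + 1) k1 j (by omega) (by rw [← k2, ← l2, h])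
    omega
  · exact (X.ins _ k1).1 (by rwa [← k2, ← h])
  · exact (X.ins j (by omega)).1 (by rwa [← l2, h])
  · omega

theorem runw_X.box (X : runw_X s n S m t b f) {i : ℕ} (hi : i < m) (c : Dir) :
    t i ∈ box n ∧ t i + c.vec ∈ box n := by
  have := (X.ins i hi).2
  simp only [Ins] at this
  cases c <;> simp [mem_box, Dir.vec] <;> omega

/-- The colouring of the plaquettes. -/
theorem runw_X.colour (X : runw_X s n S m t b f) (hD : S_DPOIN) (hS : Good n S ∅) :
    ∃ φ : Pt → Prop, (∀ p, p ∉ intr n → ¬ φ p) ∧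
      (∀ i < m, ∀ c, ¬ (φ (runw_fc s (t i) c) ↔ φ (runw_fc s (t i) (runw_rot s c))) ↔
        (runw_rot s c = b i ∨ runw_rot s c = f i)) ∧
      ∀ w, w ∉ S → w ∉ (range m).image t → ∀ c,
        φ (runw_fc s w c) ↔ φ (runw_fc s w (runw_rot s c)) := by
  have hm := X.len
  obtain ⟨-, π, p1, p2, p3⟩ := runw_path hS.sub X.h0 (hS.nn_conn X.h0 X.h1)
  set C0 := (ebox n).filter fun e => ∃ i < m, e = inc (t i) (b i) ∨ e = inc (t i) (f i) with hC0
  have L1 : ∀ i < m, ∀ c, inc (t i) c ∈ C0 ↔ c = b i ∨ c = f i := by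
    intro i hi c
    rw [hC0, mem_filter]
    refine ⟨?_, fun h => ⟨inc_mem_ebox.2 (X.box hi c), i, hi, h.imp (congrArg _) (congrArg _)⟩⟩
    rintro ⟨-, j, hj, k | k⟩ <;> rcases inc_eq_iff.1 k with ⟨k1, k2⟩ | ⟨k1, k2⟩
    · obtain rfl := X.inj i hi j hj k1
      exact .inl k2
    · rcases X.nb hi hj (c := c) (by rw [k1, k2]; simp) with k | k
      exacts [.inr k.1, .inl k.1]
    · obtain rfl := X.inj i hi j hj k1
      exact .inr k2
    · rcases X.nb hi hj (c := c) (by rw [k1, k2]; simp) with k | k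
      exacts [.inr k.1, .inl k.1]
  have L2 : ∀ w, w ∉ (range m).image t → ∀ c, inc w c ∈ C0 ↔
      inc w c ∈ symmDiff ({inc (t 0) (b 0)} : Finset Edge) {inc (t (m - 1)) (f (m - 1))} := by
    intro w hw c
    have hT : ∀ i < m, w ≠ t i := fun i hi k => hw (mem_image.2 ⟨i, mem_range.2 hi, k.symm⟩)
    have hne : inc (t 0) (b 0) ≠ inc (t (m - 1)) (f (m - 1)) := by
      intro k
      rcases inc_eq_iff.1 k with k | k
      · have := X.inj 0 (by omega) (m - 1) (by omega) k.1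
        omega
      · exact (X.ins 0 (by omega)).1 (k.1 ▸ X.h1)
    simp only [hC0, mem_filter, mem_symmDiff, mem_singleton]
    constructor
    · rintro ⟨-, j, hj, k | k⟩ <;> rcases inc_eq_iff.1 k with ⟨k1, -⟩ | ⟨k1, -⟩
      · exact absurd k1 (hT j hj)
      · rcases X.bw hj with ⟨l, l1, l2⟩ | ⟨rfl, -⟩
        · exact absurd (k1.trans l2) (hT l (by omega))
        · exact .inl ⟨k, k ▸ hne⟩
      · exact absurd k1 (hT j hj)
      · rcases X.fw hj with ⟨l1, l2⟩ | ⟨rfl, -⟩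
        · exact absurd (k1.trans l2) (hT _ l1)
        · exact .inr ⟨k, k ▸ hne.symm⟩
    · rintro (⟨k, -⟩ | ⟨k, -⟩) <;> rw [k]
      · exact ⟨inc_mem_ebox.2 (X.box (by omega) _), 0, by omega, .inl rfl⟩
      · exact ⟨inc_mem_ebox.2 (X.box (by omega) _), m - 1, by omega, .inr rfl⟩
  obtain ⟨φ, q1, q2, -⟩ := hD n (symmDiff C0 π)
    (symmDiff_subset_union.trans (union_subset (filter_subset _ _) p1)) fun w => by
      rw [← Nat.not_odd_iff_even]
      change ¬ runw_od _ w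
      rw [runw_od_sd, p3, not_not]
      by_cases hw : w ∈ (range m).image t
      · obtain ⟨i, hi, rfl⟩ := mem_image.1 hw
        rw [mem_range] at hi
        have e1 : t i ≠ t 0 + (b 0).vec := fun k => (X.ins i hi).1 (k ▸ X.h0)
        have e2 : t i ≠ t (m - 1) + (f (m - 1)).vec := fun k => (X.ins i hi).1 (k ▸ X.h1)
        have e3 : (univ.filter fun d => inc (t i) d ∈ C0) = {b i, f i} := by
          ext c; simp [L1 i hi]
        simp only [runw_od, e3, card_pair (X.bf hi), e1, e2]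
        decide
      · have hT : ∀ i < m, w ≠ t i := fun i hi k => hw (mem_image.2 ⟨i, mem_range.2 hi, k.symm⟩)
        have e1 := hT 0 (by omega)
        have e2 := hT (m - 1) (by omega)
        have e3 : runw_od C0 w ↔ runw_od
            (symmDiff {inc (t 0) (b 0)} {inc (t (m - 1)) (f (m - 1))}) w := by
          simp only [runw_od, L2 w hw]
        rw [e3, runw_od_sd, runw_od_one, runw_od_one]
        simp only [e1, e2, false_or]
  have q3 : ∀ w, w ∉ S → ∀ c, ¬ (φ (runw_fc s w c) ↔ φ (runw_fc s w (runw_rot s c))) ↔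
      inc w (runw_rot s c) ∈ C0 := fun w hw c => by
    have := q1 (runw_fc s w c) c.opp
    rw [(runw_cr s w c).1, (runw_cr s w c).2.1, mem_symmDiff] at this
    have k := mt (p2 w (runw_rot s c)) hw
    grind
  refine ⟨φ, q2, fun i hi c => (q3 _ (X.ins i hi).1 c).trans (L1 i hi _), fun w h1 h2 c => ?_⟩
  by_contra k
  have k2 := (L2 w h2 _).1 ((q3 w h1 c).1 k)
  have hT : ∀ i < m, w ≠ t i := fun i hi k => h2 (mem_image.2 ⟨i, mem_range.2 hi, k.symm⟩)
  rcases mem_symmDiff.1 k2 with k | k <;> rcases inc_eq_iff.1 (mem_singleton.1 k.1) with k | k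
  exacts [hT 0 (by omega) k.1, h1 (k.1 ▸ X.h0), hT _ (by omega) k.1, h1 (k.1 ▸ X.h1)]

end

theorem runw_mem {n : ℕ} {S T : Finset Pt} {u : Pt} (h : u ∈ Wf n S T) :
    u ∈ box n ∧ u ∉ S ∧ u ∉ T := by
  have := mem_sdiff.1 (mem_filter.1 h).1
  rw [mem_union] at this
  grind

theorem runw_ext {n : ℕ} {S T : Finset Pt} {p u z : Pt} (h : u ∈ Wf n S T) (h1 : Corner p u)
    (h2 : Corner p z) (k1 : z ∈ box n) (k2 : z ∉ S) (k3 : z ∉ T) : z ∈ Wf n S T := by
  rcases runw_cc h2 h1 with rfl | k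
  · exact h
  · obtain ⟨l1, c, l2, l3⟩ := mem_filter.1 h
    have hz : z ∈ box n \ (S ∪ T) := mem_sdiff.2 ⟨k1, by simp [k2, k3]⟩
    exact mem_filter.2 ⟨hz, c, l2, hz, Relation.ReflTransGen.head ⟨k, l1⟩ l3.2⟩

theorem runw_zero (s : Bool) {n : ℕ} {S T : Finset Pt} {φ : Pt → Prop}
    (q2 : ∀ p, p ∉ intr n → ¬ φ p)
    (q : ∀ w, w ∉ S → w ∉ T → ∀ c, φ (runw_fc s w c) ↔ φ (runw_fc s w (runw_rot s c)))
    {u p : Pt} (h : u ∈ Wf n S T) (hp : Corner p u) : ¬ φ p := by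
  have c1 : ∀ w ∈ box n \ (S ∪ T), ∀ p p', Corner p w → Corner p' w → φ p → φ p' := by
    intro w hw p p' h1 h2
    have hw' := (mem_sdiff.1 hw).2
    rw [mem_union, not_or] at hw'
    obtain ⟨c, rfl⟩ := runw_of_cor s h1
    obtain ⟨c', rfl⟩ := runw_of_cor s h2
    exact runw_all s (fun c => φ (runw_fc s w c)) (q w hw'.1 hw'.2) c c'
  obtain ⟨-, c, l2, l1, l3⟩ := mem_filter.1 h
  clear h
  induction l3 using Relation.ReflTransGen.head_induction_on generalizing p with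
  | refl =>
    exact fun k => q2 (c.1, 0) (by simp [mem_intr]) (c1 c l1 p _ hp (by simp [Corner, l2]) k)
  | @head a a' k _ ih =>
    obtain ⟨p', k1, k2⟩ := runw_star k.1
    exact fun l => ih k2 k.2 (c1 a l1 p p' hp k1 l)

theorem runw_X.main {s : Bool} {n : ℕ} {S : Finset Pt} {m : ℕ} {t : ℕ → Pt} {b f : ℕ → Dir}
    (X : runw_X s n S m t b f) (hD : S_DPOIN) (hS : Good n S ∅) {i0 : ℕ} (hi0 : i0 < m) {c0 : Dir}
    (hc0 : c0 = f i0 ∨ runw_Btw s (b i0) (f i0) c0) {u0 : Pt}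
    (hu0 : u0 ∈ Wf n S ((range m).image t)) (hp0 : Corner (runw_fc s (t i0) c0) u0) :
    ∃ v1 v2, Cls n S ((range m).image t) v1 v2 := by
  have hm := X.len
  obtain ⟨φ, q2, q3, q4⟩ := X.colour hD hS
  set T := (range m).image t with hT
  have mT : ∀ i < m, t i ∈ T := fun i hi => mem_image.2 ⟨i, mem_range.2 hi, rfl⟩
  have eT : ∀ w ∈ T, ∃ i < m, t i = w := fun w hw => by
    obtain ⟨i, hi, e⟩ := mem_image.1 hw
    exact ⟨i, mem_range.1 hi, e⟩
  -- a property of plaquettes that passes along the left side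
  have prop : ∀ g : Pt → Prop, (∀ i < m, ∀ c, runw_Btw s (b i) (f i) (runw_rot s c) →
      (g (runw_fc s (t i) c) ↔ g (runw_fc s (t i) (runw_rot s c)))) → g (runw_fc s (t i0) c0) →
      ∀ i < m, ∀ c, (c = f i ∨ runw_Btw s (b i) (f i) c) → g (runw_fc s (t i) c) := by
    intro g hg h0
    have a1 := fun i hi => runw_chain s (fun c => g (runw_fc s (t i) c)) (b i) (f i) (hg i hi)
    have a2 : ∀ i < m, g (runw_fc s (t i) (f i)) ↔ g (runw_fc s (t 0) (f 0)) := by
      intro i hi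
      induction i with
      | zero => rfl
      | succ j ih =>
        rw [← ih (by omega), ← (runw_cr s (t j) (f j)).2.2, ← (X.step j hi).1]
        exact (a1 _ hi _ (runw_d2 s _ _ _ (X.bf hi) (by rw [runw_d5, (X.step j hi).2]))).symm
    exact fun i hi c hc =>
      (a1 i hi c hc).2 ((a2 i hi).2 ((a2 i0 hi0).1 ((a1 i0 hi0 c0 hc0).1 h0)))
  have zero : ∀ {u p}, u ∈ Wf n S T → Corner p u → ¬ φ p := runw_zero s q2 q4
  have left : ∀ i < m, ∀ c, ∀ u ∈ Wf n S T, Corner (runw_fc s (t i) c) u →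
      c = f i ∨ runw_Btw s (b i) (f i) c := by
    intro i hi c u hu hp
    have k1 := prop (fun p => ¬ φ p) (fun j hj c hc => by
      have l1 := runw_d4 s _ _ _ (X.bf hj) hc
      exact not_congr (not_not.1 fun k => ((q3 j hj c).1 k).elim l1.1 l1.2)) (zero hu0 hp0) i hi (f i) (.inl rfl)
    have k2 := zero hu hp
    exact (runw_col s (fun c => φ (runw_fc s (t i) c)) _ _ (X.bf hi) (q3 i hi) c).2
      (iff_of_false k2 k1)
  have mE : ∀ i < m, ∀ c, inc (t i) c ∈ ETf n S T ↔ t i + c.vec ∈ Wf n S T := by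
    intro i hi c
    have k1 : t i ∉ Wf n S T := fun k => (runw_mem k).2.2 (mT i hi)
    have k2 := mT i hi
    have k3 : t i + c.vec ∈ Wf n S T → t i + c.vec ∉ T := fun k => (runw_mem k).2.2
    rw [ETf, mem_filter, inc_mem_cut]
    rcases ends_inc (t i) c with k | k <;> rw [k.1, k.2]
    · exact ⟨fun l => l.2.resolve_left k1, fun l => ⟨fun e => k3 l (e.1 k2), .inr l⟩⟩
    · exact ⟨fun l => l.2.resolve_right k1, fun l => ⟨fun e => k3 l (e.1 k2), .inl l⟩⟩
  have G := prop (fun p => (∃ u ∈ Wf n S T, Corner p u) ∧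
      FConn (ETf n S T) (runw_fc s (t i0) c0) p) (fun i hi c hc => by
    have k1 := runw_d4 s _ _ _ (X.bf hi) hc
    have k2 : t i + (runw_rot s c).vec ∉ T := fun k => by
      obtain ⟨j, hj, e⟩ := eT _ k
      rcases X.nb hi hj e with l | l
      exacts [k1.2 l.1, k1.1 l.1]
    have k3 := fun p u hu (h1 : Corner p u) h2 =>
      runw_ext (p := p) hu h1 h2 (X.box hi _).2 (X.btw i hi _ hc) k2
    have k4 : t i + (runw_rot s c).vec ∈ Wf n S T →
        FConn (ETf n S T) (runw_fc s (t i) c) (runw_fc s (t i) (runw_rot s c)) := fun k =>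
      .single ⟨c.opp, by rw [(runw_cr s _ c).1]; exact (mE i hi _).2 k, (runw_cr s _ c).2.1.symm⟩
    constructor <;> rintro ⟨⟨u, hu, l1⟩, l2⟩
    · have := k3 _ u hu l1 (runw_cor s _ c).2.2
      exact ⟨⟨_, this, (runw_cor s _ _).2.1⟩, l2.trans (k4 this)⟩
    · have := k3 _ u hu l1 (runw_cor s _ _).2.1
      exact ⟨⟨_, this, (runw_cor s _ c).2.2⟩, l2.trans (runw_fsymm (k4 this))⟩)
    ⟨⟨u0, hu0, hp0⟩, .refl⟩
  have h0 : 0 < m := by omega
  have h1 : m - 1 < m := by omega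
  obtain ⟨c1, hc1⟩ := runw_d6 s (b 0)
  obtain ⟨c2, hc2⟩ := runw_d6 s (f (m - 1))
  have G1 := G 0 h0 c1 (runw_d2 s _ _ _ (X.bf h0) hc1)
  have G2 := G (m - 1) h1 _ (.inl rfl)
  have np : ∀ i < m, NPath T (t 0) (t i) ∧ NPath T (t i) (t 0) := by
    intro i hi
    induction i with
    | zero => exact ⟨.refl, .refl⟩
    | succ j ih =>
      have k := ih (by omega)
      have l : NN (t j) (t (j + 1)) := ⟨_, (X.step j hi).1⟩
      exact ⟨k.1.tail ⟨l, mT _ hi⟩, .head ⟨l.symm, mT _ (by omega)⟩ k.2⟩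
  refine ⟨runw_fc s (t 0) c1, runw_fc s (t (m - 1)) (f (m - 1)), fun w hw => ?_,
    fun x hx y hy => ?_, ⟨_, mT 0 h0, _, X.h0⟩,
    ⟨⟨_, X.h0, hc1 ▸ (runw_cor s _ c1).2.2⟩, _, mT 0 h0, (runw_cor s _ _).1⟩,
    ⟨⟨_, X.h1, (runw_cor s _ _).2.1⟩, _, mT _ h1, (runw_cor s _ _).1⟩, fun p hp => ?_,
    (runw_fsymm G1.2).trans G2.2, ?_⟩
  · obtain ⟨i, hi, rfl⟩ := eT w hw
    exact X.ins i hi
  · obtain ⟨i, hi, rfl⟩ := eT x hx
    obtain ⟨j, hj, rfl⟩ := eT y hy
    exact (np i hi).2.trans (np j hj).1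
  · by_cases hQ : ∃ u ∈ Wf n S T, Corner p u
    · obtain ⟨u, hu, hpu⟩ := hQ
      have hne : inc (t 0) (b 0) ≠ inc (t (m - 1)) (f (m - 1)) := by
        intro k
        rcases inc_eq_iff.1 k with k | k
        · have := X.inj 0 h0 (m - 1) h1 k.1
          omega
        · exact (X.ins 0 h0).1 (k.1 ▸ X.h1)
      have s0 : ∀ i < m, ∀ c, t i + Dir.vec c ∈ S → inc (t i) c ∈ cut T ∧ inc (t i) c ∉ ETf n S T :=
        fun i hi c k => ⟨inc_mem_cut.2 fun l => by
          obtain ⟨j, hj, e⟩ := eT _ (l.1 (mT i hi))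
          exact (X.ins j hj).1 (e ▸ k), fun l => (runw_mem ((mE i hi c).1 l)).2.1 k⟩
      have s1 := s0 0 h0 _ X.h0
      have s2 := s0 _ h1 _ X.h1
      have key : ∀ d, cr p d ∈ ETf n S T ↔ cr p d ∈ symmDiff (cut T)
          (symmDiff {inc (t 0) (b 0)} {inc (t (m - 1)) (f (m - 1))}) := by
        intro d
        simp only [mem_symmDiff, mem_singleton]
        by_cases e1 : cr p d = inc (t 0) (b 0)
        · rw [e1]; simp [s1.1, s1.2, hne]
        by_cases e2 : cr p d = inc (t (m - 1)) (f (m - 1))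
        · rw [e2]; simp [s2.1, s2.2, hne.symm]
        simp only [e1, e2, not_false_eq_true, and_true, or_self, false_and, or_false]
        refine ⟨fun k => (mem_filter.1 k).1, fun k => ?_⟩
        obtain ⟨i, hi, c, e⟩ : ∃ i < m, ∃ c, inc (t i) c = cr p d := by
          have k' := mem_cut.1 k
          by_cases l : ea (cr p d) ∈ T
          · obtain ⟨i, hi, e⟩ := eT _ l
            obtain ⟨c, e', -⟩ := exists_inc (cr p d)
            exact ⟨i, hi, c, e ▸ e'⟩
          · obtain ⟨i, hi, e⟩ := eT (eb (cr p d)) (by_contra fun l' => k' (iff_of_false l l'))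
            obtain ⟨c, e', -⟩ := exists_inc_b (cr p d)
            exact ⟨i, hi, c, e ▸ e'⟩
        rw [← e] at k e1 e2 ⊢
        have z1 : t i + c.vec ∉ T := fun l => inc_mem_cut.1 k (iff_of_true (mT i hi) l)
        obtain ⟨c', rfl⟩ := runw_d6 s c
        have hb : runw_Btw s (b i) (f i) (runw_rot s c') := by
          have n1 : runw_rot s c' ≠ f i := fun l => by
            rcases X.fw hi with ⟨l1, l2⟩ | ⟨rfl, -⟩
            exacts [z1 (l ▸ l2 ▸ mT _ l1), e2 (by rw [l])]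
          have n2 : runw_rot s c' ≠ b i := fun l => by
            rcases X.bw hi with ⟨j, l1, l2⟩ | ⟨rfl, -⟩
            exacts [z1 (l ▸ l2 ▸ mT _ (by omega)), e1 (by rw [l])]
          rcases cr_eq_iff.1 (e.symm.trans (runw_cr s (t i) c').1.symm) with l | l
          · exact (runw_d3 s _ _ _ (X.bf hi) (left i hi c' u hu (l.1 ▸ hpu))).resolve_left n2
          · rw [(runw_cr s (t i) c').2.1] at l
            exact (left i hi _ u hu (l.1 ▸ hpu)).resolve_left n1
        refine (mE i hi _).2 (runw_ext hu hpu ?_ (X.box hi _).2 (X.btw i hi _ hb) z1)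
        have := corner_cr p d
        rw [← e] at this
        rcases ends_inc (t i) (runw_rot s c') with l | l <;> rw [l.1, l.2] at this
        exacts [this.2, this.1]
      have r1 : p ≠ runw_fc s (t 0) (b 0) := fun k => by
        rcases left 0 h0 _ u hu (k ▸ hpu) with l | l
        exacts [X.bf h0 l, (runw_d4 s _ _ _ (X.bf h0) l).1 rfl]
      have r2 : p ≠ runw_fc s (t (m - 1)) c2 := fun k =>
        runw_d7 s _ _ _ (X.bf h1) hc2 (left _ h1 _ u hu (k ▸ hpu))
      have o1 := odd_deg_singleton (runw_fc s (t 0) c1) p c1.opp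
      have o2 := odd_deg_singleton (runw_fc s (t (m - 1)) c2) p c2.opp
      rw [(runw_cr s _ _).1, (runw_cr s _ _).2.1] at o1 o2
      rw [hc1] at o1
      rw [hc2] at o2
      have o3 := not_odd_deg_cut T p
      rw [deg_congr key, odd_deg_symmDiff, odd_deg_symmDiff, o1, o2, Set.mem_symmDiff]
      simp only [Set.mem_singleton_iff, r1, r2, o3, or_false, false_or, false_iff, not_not]
      by_cases z1 : p = runw_fc s (t 0) c1 <;>
        by_cases z2 : p = runw_fc s (t (m - 1)) (f (m - 1)) <;> simp only [eq_true, *] <;>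
        simp
    · have k1 : deg (ETf n S T) p = deg ∅ p := deg_congr fun d => iff_of_false (fun k => by
        rcases (mem_filter.1 k).2 with l | l
        exacts [hQ ⟨_, l, (corner_cr p d).1⟩, hQ ⟨_, l, (corner_cr p d).2⟩]) (notMem_empty _)
      have k2 : p ≠ runw_fc s (t 0) c1 := fun k => hQ (k ▸ G1.1)
      have k3 : p ≠ runw_fc s (t (m - 1)) (f (m - 1)) := fun k => hQ (k ▸ G2.1)
      rw [k1]
      simp [deg, Set.mem_symmDiff, k2, k3]
  · rintro p ⟨w, hw, k1⟩ ⟨u, hu, k2⟩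
    obtain ⟨i, hi, rfl⟩ := eT w hw
    obtain ⟨c, rfl⟩ := runw_of_cor s k1
    exact (runw_fsymm G1.2).trans (G i hi c (left i hi c u hu k2)).2

theorem p_RUN (hDPOIN : S_DPOIN) :
    S_RUN := by
  rintro n S m t d hS R ⟨i0, k1, k2, u, hu, hs⟩
  have hm := R.len
  obtain ⟨j0, rfl⟩ : ∃ j, i0 = j + 1 := ⟨i0 - 1, by omega⟩
  have ex : ∀ s, ∃ b f, runw_X s n S m t b f ∧ b (j0 + 1) = (d j0).opp ∧
      f (j0 + 1) = d (j0 + 1) := by
    intro s
    obtain ⟨l, rfl⟩ : ∃ l, m = l + 2 := ⟨m - 2, by omega⟩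
    obtain ⟨e0, a1, a2⟩ := runw_first s (fun c => t 0 + c.vec ∈ S) (d 0)
      (by rw [← R.step 0 (by omega)]; exact (R.ins _ (by omega)).1) R.first
    obtain ⟨e1, b1, b2⟩ := runw_last s (fun c => t (l + 1) + c.vec ∈ S) (d l).opp
      (by rw [R.step l (by omega)]; simpa using (R.ins l (by omega)).1) R.last
    refine ⟨fun i => if i = 0 then e0 else (d (i - 1)).opp, fun i => if i = l + 1 then e1 else d i,
      ⟨hm, fun i hi => ?_, R.inj, R.ind, R.ins, by simpa using a1, by simpa using b1,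
        fun i hi c hc => ?_⟩, by simp, if_neg (by omega)⟩
    · have : i ≠ l + 1 := by omega
      simp [this, R.step i hi]
    · by_cases e : i = 0
      · subst e
        exact a2 c (by simpa using hc)
      · by_cases e' : i = l + 1
        · subst e'
          exact b2 c (by simpa using hc)
        · exact R.mid i (by omega) (by omega) c
  obtain ⟨p, p1, p2⟩ := runw_star hs
  obtain ⟨c, rfl⟩ := runw_of_cor true p1
  obtain ⟨b, f, X, e1, e2⟩ := ex true
  by_cases hc : c = f (j0 + 1) ∨ runw_Btw true (b (j0 + 1)) (f (j0 + 1)) c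
  · exact X.main hDPOIN hS (by omega) hc hu p2
  · obtain ⟨b', f', X', e1', e2'⟩ := ex false
    refine X'.main hDPOIN hS (i0 := j0 + 1) (by omega) (c0 := runw_rot true c) ?_ hu
      (runw_flip _ c ▸ p2)
    rw [e1', e2', ← e1, ← e2]
    exact runw_d1 _ _ _ (X.bf (by omega)) hc

end Pool.Agent.P.MP_347bd1_pr.M

namespace Pool.Agent.P.MP_347bd1_pr.M

open Classical Finset Filter Topology
open scoped ENNReal NNReal

theorem sgn_sum_symm (g : Edge → ZMod 2) (s t : Finset Edge) :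
    ∑ e ∈ symmDiff s t, g e = ∑ e ∈ s, g e + ∑ e ∈ t, g e := by
  have h : ∀ u : Finset Edge, u ⊆ s ∪ t → ∑ e ∈ u, g e = ∑ e ∈ s ∪ t, if e ∈ u then g e else 0 :=
    fun u hu => by rw [← sum_filter, filter_mem_eq_inter, inter_eq_right.2 hu]
  rw [h _ symmDiff_subset_union, h s subset_union_left, h t subset_union_right, ← sum_add_distrib]
  refine sum_congr rfl fun e _ => ?_
  by_cases a : e ∈ s <;> by_cases b : e ∈ t <;> simp [mem_symmDiff, a, b, CharTwo.add_self_eq_zero]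

/-- The sum of `f` over the ends of the edges of `Γ`. -/
noncomputable def sgn_B (f : Pt → ZMod 2) (Γ : Finset Edge) : ZMod 2 :=
  ∑ e ∈ Γ, (f (ea e) + f (eb e))

/-- `Γ` is even at every site. -/
def sgn_Ev (Γ : Finset Edge) : Prop := ∀ f, sgn_B f Γ = 0

theorem sgn_B_symm (f : Pt → ZMod 2) (s t : Finset Edge) :
    sgn_B f (symmDiff s t) = sgn_B f s + sgn_B f t := sgn_sum_symm _ s t

theorem sgn_Ev.symmDiff {s t : Finset Edge} (h : sgn_Ev s) (h' : sgn_Ev t) : sgn_Ev (symmDiff s t) :=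
  fun f => by rw [sgn_B_symm, h, h', add_zero]

theorem sgn_Ev_cr (q : Pt) : sgn_Ev (univ.image (cr q)) := fun f => by
  have hi : Function.Injective (cr q) := fun d d' k => by
    rcases cr_eq_iff.1 k with k | k
    · exact k.2
    · exact absurd (by simpa using k.1) d'.vec_ne_zero
  rw [sgn_B, sum_image fun _ _ _ _ k => hi k, sum_dir]
  obtain ⟨a, b⟩ := q
  simp only [cr, ea, eb, if_true, Bool.false_eq_true, if_false, Prod.mk_add_mk, add_zero]
  linear_combination CharTwo.add_self_eq_zero (f (a, b)) + CharTwo.add_self_eq_zero (f (a + 1, b)) +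
    CharTwo.add_self_eq_zero (f (a, b + 1)) + CharTwo.add_self_eq_zero (f (a + 1, b + 1))

/-- The parity of `η ∩ Γ`. -/
noncomputable def sgn_P (η Γ : Finset Edge) : ZMod 2 := ∑ e ∈ Γ, if e ∈ η then 1 else 0

theorem sgn_P_eq (η Γ : Finset Edge) : sgn_P η Γ = ((η ∩ Γ).card : ZMod 2) := by
  rw [sgn_P, ← sum_filter, sum_const, filter_mem_eq_inter, inter_comm]; simp

theorem sgn_P_symm_r (η s t : Finset Edge) : sgn_P η (symmDiff s t) = sgn_P η s + sgn_P η t :=
  sgn_sum_symm _ s t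

theorem sgn_P_comm (η Γ : Finset Edge) : sgn_P η Γ = sgn_P Γ η := by rw [sgn_P_eq, sgn_P_eq, inter_comm]

theorem sgn_P_symm_l (s t Γ : Finset Edge) : sgn_P (symmDiff s t) Γ = sgn_P s Γ + sgn_P t Γ := by
  rw [sgn_P_comm, sgn_P_symm_r, sgn_P_comm Γ, sgn_P_comm Γ]

theorem sgn_P_cut (D : Finset Pt) (Γ : Finset Edge) :
    sgn_P (cut D) Γ = sgn_B (fun w => if w ∈ D then 1 else 0) Γ := by
  refine sum_congr rfl fun e _ => ?_
  by_cases a : ea e ∈ D <;> by_cases b : eb e ∈ D <;> simp [mem_cut, a, b]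
  rfl

theorem sgn_P_src (h : T_POIN) {n : ℕ} {η η' Γ : Finset Edge} {A : Set Pt} (h1 : η ⊆ ebox n)
    (h2 : η' ⊆ ebox n) (h3 : Src n η A) (h4 : Src n η' A) (h5 : Γ ⊆ ebox n) (h6 : sgn_Ev Γ) :
    sgn_P η Γ = sgn_P η' Γ := by
  obtain ⟨D, -, k, -⟩ := h n (symmDiff η η') (fun e m => by
    rcases mem_symmDiff.1 m with m | m
    exacts [h1 m.1, h2 m.1]) ((h3.symmDiff h4).congr fun p _ => by simp)
  have a : sgn_P (symmDiff η η') Γ = sgn_P (cut D) Γ := sum_congr rfl fun e he => by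
    simp [← k, h5 he]
  rw [sgn_P_cut, h6, sgn_P_symm_l] at a
  linear_combination a - CharTwo.add_self_eq_zero (sgn_P η' Γ)

/-- The horizontal edges below the plaquette `v`. -/
noncomputable def sgn_R (v : Pt) : Finset Edge := (Icc 1 v.2).image fun j => ((v.1, j), true)

theorem sgn_mem_R {v : Pt} {e : Edge} :
    e ∈ sgn_R v ↔ e.2 = true ∧ e.1.1 = v.1 ∧ 1 ≤ e.1.2 ∧ e.1.2 ≤ v.2 := by
  obtain ⟨⟨a, b⟩, c⟩ := e
  simp only [sgn_R, mem_image, mem_Icc, Prod.mk.injEq]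
  constructor
  · rintro ⟨j, h, ⟨rfl, rfl⟩, rfl⟩
    exact ⟨rfl, rfl, h⟩
  · rintro ⟨rfl, rfl, h⟩
    exact ⟨b, h, ⟨rfl, rfl⟩, rfl⟩

theorem sgn_R_sub {n : ℕ} {v : Pt} (hv : v ∈ intr n) : sgn_R v ⊆ ebox n := by
  rintro ⟨⟨x, y⟩, c⟩ k
  rw [sgn_mem_R] at k
  rw [mem_intr] at hv
  obtain ⟨rfl, k⟩ := k
  simp only [mem_ebox, mem_box, ea, eb, if_true, Prod.mk_add_mk] at k ⊢
  omega

theorem sgn_R_src {n : ℕ} {v : Pt} (hv : v ∈ intr n) : Src n (sgn_R v) {v} := by
  rintro ⟨a, b⟩ hp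
  obtain ⟨x, y⟩ := v
  rw [mem_intr] at hp hv
  rw [deg_eq4, Set.mem_singleton_iff, Nat.odd_iff]
  simp only [sgn_mem_R, cr, Prod.mk.injEq, Bool.false_eq_true, false_and, if_false, true_and] at *
  by_cases k : a = x ∧ b = y
  · rw [iff_true_intro k, iff_true]
    split_ifs <;> omega
  · rw [iff_false_intro k, iff_false]
    have : (a = x ∧ 1 ≤ b + 1 ∧ b + 1 ≤ y) ↔ (a = x ∧ 1 ≤ b ∧ b ≤ y) := by omega
    simp only [this]
    split_ifs <;> decide

/-- The boundary of a set of plaquettes. -/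
theorem sgn_bd (τ : Finset Pt) : ∃ B : Finset Edge,
    (∀ p d, cr p d ∈ B ↔ ¬ (p ∈ τ ↔ p + d.vec ∈ τ)) ∧ sgn_Ev B ∧
      ∀ η, sgn_P η B = ∑ q ∈ τ, (deg η q : ZMod 2) := by
  induction τ using Finset.induction_on with
  | empty => exact ⟨∅, by simp, fun _ => rfl, fun _ => rfl⟩
  | insert q τ hq ih =>
    obtain ⟨B, h1, h2, h3⟩ := ih
    refine ⟨symmDiff (univ.image (cr q)) B, fun p d => ?_, (sgn_Ev_cr q).symmDiff h2, fun η => ?_⟩
    · have a : cr p d ∈ univ.image (cr q) ↔ p = q ∨ p + d.vec = q := by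
        simp only [mem_image, mem_univ, true_and]
        constructor
        · rintro ⟨d', k⟩
          rcases cr_eq_iff.1 k with k | k
          exacts [.inl k.1.symm, .inr k.1.symm]
        · rintro (rfl | rfl)
          exacts [⟨d, rfl⟩, ⟨d.opp, cr_opp p d⟩]
      have b : ¬ (p = q ∧ p + d.vec = q) := fun k => d.vec_ne_zero (by
        have := k.2.trans k.1.symm
        simpa using this)
      rw [mem_symmDiff, a, h1, mem_insert, mem_insert]
      by_cases c1 : p = q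
      · have : p ∉ τ := c1 ▸ hq
        grind
      · by_cases c2 : p + d.vec = q
        · have : p + d.vec ∉ τ := c2 ▸ hq
          grind
        · grind
    · rw [sgn_P_symm_r, h3, sum_insert hq, sgn_P_eq, kc1_deg]

theorem sgn_alg {a b : ℝ} (h : (Real.sqrt 2 * a - b) ^ 2 ≤ a ^ 2) : ∃ t, 0 < t ∧ b = t * a := by
  have s : 1 < Real.sqrt 2 := by have := xc_pos; unfold xc at this; linarith
  have k := sq_le_sq.1 h
  rcases lt_trichotomy a 0 with m | rfl | m
  · rw [abs_of_neg m] at k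
    have := (abs_le.1 k).1
    exact ⟨b / a, div_pos_of_neg_of_neg (by nlinarith) m, by field_simp [m.ne]⟩
  · refine ⟨1, one_pos, ?_⟩
    simpa using k
  · rw [abs_of_pos m] at k
    have := (abs_le.1 k).2
    exact ⟨b / a, div_pos (by nlinarith) m, by field_simp⟩

theorem sgn_reach {n : ℕ} {E D : Finset Edge} {A : Set Pt} {X : Pt → Finset Edge → ℝ}
    (h : Ferm n E D A X) {v p : Pt} (k : FConn (E ∩ D) v p) :
    ∃ π ⊆ E ∩ D, ∀ Γ, X p Γ = (-1) ^ (π ∩ Γ).card * X v Γ := by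
  induction k with
  | refl => exact ⟨∅, empty_subset _, fun Γ => by simp⟩
  | @tail a _ _ k ih =>
    obtain ⟨d, k1, rfl⟩ := k
    obtain ⟨π, i1, i2⟩ := ih
    refine ⟨symmDiff π {cr a d}, symmDiff_subset_union.trans
      (union_subset i1 (singleton_subset_iff.2 k1)), fun Γ => ?_⟩
    rw [h.del a Γ d (mem_inter.1 k1).1 (mem_inter.1 k1).2, i2, inter_comm _ Γ, inter_comm _ Γ,
      kc1_symm, inter_comm Γ {_}]
    split_ifs with c
    · rw [singleton_inter_of_mem c]; simp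
    · rw [singleton_inter_of_notMem c]; simp

theorem p_SIGN (hSTEP : S_STEP) (hDPOIN : S_DPOIN) :
    S_SIGN := by
  intro n E D X Hp Hs v sc h hF hD ⟨z, hz, ht⟩ h0
  have hv : v ∈ intr n := hD v .refl
  have st := hSTEP n E D ∅ X h sc.top
  by_contra hn
  push Not at hn
  have hτ : ∀ p, p ∈ (intr n).filter (FConn (E ∩ D) v) ↔ FConn (E ∩ D) v p := fun p =>
    ⟨fun k => (mem_filter.1 k).2, fun k => mem_filter.2 ⟨hD p k, k⟩⟩
  obtain ⟨B, b1, b2, b3⟩ := sgn_bd ((intr n).filter (FConn (E ∩ D) v))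
  simp only [hτ] at b1
  have fc : ∀ e ∈ B, ∃ p d, cr p d = e ∧ FConn (E ∩ D) v p ∧ ¬ FConn (E ∩ D) v (p + d.vec) := by
    intro e he
    obtain ⟨d, k⟩ := exists_cr e
    have := (b1 _ d).1 (k.symm ▸ he)
    by_cases m : FConn (E ∩ D) v (ea e)
    · exact ⟨_, d, k, m, by grind⟩
    · exact ⟨ea e + d.vec, d.opp, (cr_opp _ d).trans k, by grind, by simpa using m⟩
  have bs : B ⊆ ebox n := fun e he => by
    obtain ⟨p, d, rfl, k, -⟩ := fc e he
    exact cr_mem_ebox (hD p k) d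
  have key : ∀ e ∈ B, ∃ t, 0 < t ∧
      X v (ray n (eb e)) = (if e ∈ sgn_R v then -1 else 1) * (t * X v (ray n (ea e))) := by
    intro e he
    have b := (mem_ebox.1 (bs he)).1
    have a : X v (ray n (eb e)) =
        (if e ∈ sgn_R v then -1 else 1) * X v (symmDiff (ray n (ea e)) {e}) := by
      obtain ⟨d, d1, d2⟩ := exists_inc e
      obtain ⟨ε, e1, e2, e3⟩ := st (ea e) d v (d1.symm ▸ bs he)
      have e4 := e2 (symmDiff (ray n (ea e)) {inc (ea e) d})
      rw [symmDiff_symmDiff_cancel_left, ← d2, d1] at e4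
      have e5 := e3 rfl hv
      rw [d1] at e5
      rw [e4]
      congr 1
      have b' : 1 ≤ e.1.2 := (mem_box.1 b).2.2.1
      split_ifs with c
      · have := sgn_mem_R.1 c
        exact e5.2 ⟨this.1, this.2.1, this.2.2.2⟩
      · refine e1.resolve_right fun m => c ?_
        have := e5.1 m
        exact sgn_mem_R.2 ⟨this.1, this.2.1, b', this.2.2⟩
    rw [a]
    by_cases k : e ∈ E
    · obtain ⟨p, d, rfl, k1, k2⟩ := fc e he
      have k3 : cr p d ∉ D := fun m => k2 (k1.tail ⟨d, mem_inter.2 ⟨k, m⟩, rfl⟩)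
      obtain ⟨π, p1, p2⟩ := sgn_reach h k1
      have c2 := (corner_cr (p + d.vec) d.opp).1
      rw [cr_opp] at c2
      have c3 := hn p d k1 k k3
      rw [hF _ b _ (corner_cr p d).1, hF _ b _ c2, add_le_add_iff_left] at c3
      have c4 := h.act p (ray n (ea (cr p d))) d k k3
      obtain ⟨t, t0, t1⟩ := sgn_alg (a := X p (ray n (ea (cr p d))))
        (b := X p (symmDiff (ray n (ea (cr p d))) {cr p d})) (by
          rw [c4]
          split_ifs <;> linarith)
      rw [p2, p2, kc1_off fun m => k3 (mem_inter.1 (p1 m)).2, mul_left_comm] at t1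
      exact ⟨t, t0, by rw [mul_left_cancel₀ (pow_ne_zero _ (by norm_num)) t1]⟩
    · exact ⟨1, one_pos, by rw [h.blk v _ _ k, one_mul]⟩
  have zz : ∀ e ∈ B, (X v (ray n (eb e)) = 0 ↔ X v (ray n (ea e)) = 0) := fun e he => by
    obtain ⟨t, t0, k⟩ := key e he
    rw [k]
    split_ifs <;> simp [t0.ne']
  have s1 : sgn_P (sgn_R v) (B.filter fun e => ¬ X v (ray n (ea e)) = 0) = 0 := by
    rw [← b2 fun w => if X v (ray n w) < 0 then 1 else 0, sgn_B, sgn_P, sum_filter]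
    refine sum_congr rfl fun e he => ?_
    obtain ⟨t, t0, k⟩ := key e he
    rw [k]
    rcases lt_trichotomy (X v (ray n (ea e))) 0 with m | m | m
    · have := mul_neg_of_pos_of_neg t0 m
      rw [if_pos m.ne, if_pos m]
      split_ifs with c1 c2 c2 <;> first | rfl | (exfalso; linarith)
    · simp [m]
    · have := mul_pos t0 m
      rw [if_pos m.ne', if_neg m.not_gt]
      split_ifs with c1 c2 c2 <;> first | rfl | (exfalso; linarith)
  have s2 : sgn_Ev (B.filter fun e => X v (ray n (ea e)) = 0) := fun f => by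
    rw [← b2 fun w => if X v (ray n w) = 0 then f w else 0, sgn_B, sgn_B, sum_filter]
    refine sum_congr rfl fun e he => ?_
    by_cases m : X v (ray n (ea e)) = 0
    · rw [if_pos m, if_pos m, if_pos ((zz e he).2 m)]
    · rw [if_neg m, if_neg m, if_neg (mt (zz e he).1 m), add_zero]
  have nz : ∀ w, TopConn n E w → X v (ray n w) ≠ 0 := by
    rintro w ⟨u, -, hu, hp⟩
    induction hp with
    | refl => rwa [show ray n u = ∅ by simp [ray, hu]]
    | @tail a _ _ k ih =>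
      obtain ⟨d, k1, rfl⟩ := k
      obtain ⟨ε, e1, e2, -⟩ := st a d v (mem_sdiff.1 k1).1
      have e4 := e2 (symmDiff (ray n a) {inc a d})
      rw [symmDiff_symmDiff_cancel_left, h.blk v _ _ (mem_sdiff.1 k1).2] at e4
      rw [e4]
      rcases e1 with rfl | rfl <;> simpa using ih
  obtain ⟨u, u1, u2, u3⟩ := ht
  have hv' := mem_intr.1 hv
  have u4 := mem_box.1 u1
  obtain ⟨η, e1, e2, -, e4⟩ := t_dual n ((box n).filter (TopConn n E)) u z (min u.1 (n - 1), n) v
    (filter_subset _ _) (mem_filter.2 ⟨u1, topConn_top E u1 u2⟩) (by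
      clear hz
      induction u3 with
      | refl => exact .refl
      | @tail a _ k1 k ih =>
        obtain ⟨d, k, rfl⟩ := k
        have : TopConn n E (a + d.vec) := ⟨u, u1, u2, k1.tail ⟨d, k, rfl⟩⟩
        exact ih.tail ⟨NN.star ⟨d, rfl⟩, mem_filter.2 ⟨this.mem_box, this⟩⟩)
    (by unfold Corner; dsimp only; omega) hz (by dsimp only; omega) (by dsimp only; omega)
    hv'.1 hv'.2.1
  have s3 := sgn_P_src t_poin (sgn_R_sub hv) e1 (sgn_R_src hv) (e4.congr fun p k => by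
    have : p ≠ (min u.1 (n - 1), (n : ℤ)) := fun m => by
      have := mem_intr.1 k
      rw [m] at this
      dsimp only at this
      omega
    simp [Set.mem_symmDiff, this]) ((filter_subset _ _).trans bs) s2
  have s4 : sgn_P η (B.filter fun e => X v (ray n (ea e)) = 0) = 0 :=
    sum_eq_zero fun e he => if_neg fun m => by
      obtain ⟨k1, k2⟩ := mem_filter.1 he
      rcases e2 e m with k | k
      · exact nz _ (mem_filter.1 k).2 k2
      · exact nz _ (mem_filter.1 k).2 ((zz e k1).2 k2)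
  have s5 := b3 (sgn_R v)
  rw [sum_eq_single v (fun q k m => ZMod.natCast_eq_zero_iff_even.2 (Nat.not_odd_iff_even.1
      fun m' => m ((sgn_R_src hv q (mem_filter.1 k).1).1 m')))
    fun k => absurd ((hτ v).2 .refl) k, ZMod.natCast_eq_one_iff_odd.2 ((sgn_R_src hv v hv).2 rfl),
    sgn_P, ← sum_filter_add_sum_filter_not B fun e => X v (ray n (ea e)) = 0] at s5
  rw [s4] at s3
  rw [sgn_P] at s1 s3
  rw [s1, s3] at s5
  exact absurd s5 (by decide)

end Pool.Agent.P.MP_347bd1_pr.M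

namespace Pool.Agent.P.MP_347bd1_pr.M

open Classical Finset Filter Topology
open scoped ENNReal NNReal

theorem tsw_q_nonneg (hKC1 : S_KC1) (n : ℕ) (S : Finset Pt) (Lf D : Finset Edge) (P : Finset Pt) :
    0 ≤ qw n S Lf D P :=
  div_nonneg (mul_nonneg (pow_pos xc_pos _).le (hKC1 n _ D).2.1.le) (hKC1 n _ D).2.1.le

theorem tsw_src {n : ℕ} {S T : Finset Pt} {A : Set Pt} (h : Src n (cut T ∩ eS n S) A) :
    Src n (cut T ∩ (ebox n \ eS n S)) A := by
  have e : cut T ∩ (ebox n \ eS n S) = symmDiff (cut T ∩ ebox n) (cut T ∩ eS n S) := by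
    ext e
    rw [mem_symmDiff, mem_inter, mem_inter, mem_inter, Finset.mem_sdiff]
    constructor
    · rintro ⟨a, b, c⟩
      exact Or.inl ⟨⟨a, b⟩, fun m => c m.2⟩
    · rintro (⟨⟨a, b⟩, c⟩ | ⟨⟨a, b⟩, c⟩)
      · exact ⟨a, b, fun m => c ⟨a, m⟩⟩
      · exact absurd ⟨a, eS_subset n S b⟩ c
  rw [e]
  exact ((src_cut n T).symmDiff h).congr fun p _ => by simp [Set.mem_symmDiff]

theorem tsw_filter_le (n : ℕ) (Y : Finset Pt) (E : Finset Edge) (v : Pt) :
    ∑ y ∈ Y.filter (Reach n E v), (hN (net n E) y).toReal ≤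
      ∑ y ∈ Y, (hN (net n E) y).toReal :=
  sum_le_sum_of_subset_of_nonneg (filter_subset _ _) fun _ _ _ => ENNReal.toReal_nonneg

theorem tsw_om_ne_top {n : ℕ} {E : Finset Edge} {y : Pt} (y' : Pt)
    (E2 : List Dir → Finset Edge) {G : List Dir → Prop} (hG : ∀ W, G W → Run (net n E) y W) :
    (∑' W, if G W then wt W * hN (net n (E2 W)) y' else 0) ≠ ∞ := by
  refine ne_top_of_le_ne_top (ENNReal.mul_ne_top (hN_ne_top (net n E) y)
    (show (2 : ℝ≥0∞) ≠ ∞ by simp)) ?_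
  rw [hN, ms, ← ENNReal.tsum_mul_right]
  refine ENNReal.tsum_le_tsum fun W => ?_
  split_ifs with k1 k2
  · exact mul_le_mul_right (hN_le _ _) _
  · exact absurd (hG W k1) k2
  · exact zero_le
  · exact zero_le

theorem tsw_tsum {n : ℕ} (Y : Finset Pt) (E2 : List Dir → Finset Edge) {R G : List Dir → Prop}
    (hG : ∀ W, G W → R W) :
    (∑' W, if R W ∧ G W then wt W * ∑ y' ∈ Y, hN (net n (E2 W)) y' else 0) =
      ∑ y' ∈ Y, ∑' W, if G W then wt W * hN (net n (E2 W)) y' else 0 := by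
  rw [← Summable.tsum_finsetSum fun _ _ => ENNReal.summable]
  refine tsum_congr fun W => ?_
  by_cases k : G W
  · rw [if_pos ⟨hG W k, k⟩, mul_sum]
    exact sum_congr rfl fun _ _ => by rw [if_pos k]
  · rw [if_neg fun m => k m.2, sum_eq_zero fun _ _ => by rw [if_neg k]]

/-- The exchange of the sums for one starting point. -/
theorem tsw_one {ι : Type} {n : ℕ} (F : Finset ι) {q : ι → ℝ} (hq : ∀ P, 0 ≤ q P)
    (EP : ι → Finset Edge) (C : ι → Prop) (E : Finset Edge) (Y : Finset Pt) (y : Pt)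
    (E2 : List Dir → Finset Edge) (G : List Dir → Prop) {α β : ℝ} (hα : 0 ≤ α) (hβ : 0 ≤ β)
    (hG : ∀ W, G W → Run (net n E) y W)
    (h1 : ∀ P ∈ F, ∀ W, Run (net n (EP P)) y W → C P → G W)
    (h2 : ∀ W, G W → ∀ F' ⊆ F, (∀ P ∈ F', Run (net n (EP P)) y W ∧ C P) →
      ∑ P ∈ F', q P ≤ α + β * ∑ y' ∈ Y, (hN (net n (E2 W)) y').toReal) :
    ∑ P ∈ F, q P * (if C P then (hN (net n (EP P)) y).toReal else 0) ≤
      α * (hN (net n E) y).toReal +
        β * (∑ y' ∈ Y, ∑' W, if G W then wt W * hN (net n (E2 W)) y' else 0).toReal := by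
  have s3 := ts_swap F hq (fun P W => Run (net n (EP P)) y W ∧ C P) (Run (net n E) y) G
    (ENNReal.ofReal α) (ENNReal.ofReal β) (fun W => ∑ y' ∈ Y, hN (net n (E2 W)) y')
    (fun P hP W k => ⟨hG W (h1 P hP W k.1 k.2), h1 P hP W k.1 k.2⟩) (fun W _ g => by
      have b2 := h2 W g _ (filter_subset (fun P => Run (net n (EP P)) y W ∧ C P) F)
        fun P hP => (mem_filter.1 hP).2
      refine (ENNReal.ofReal_le_ofReal (le_of_eq_of_le (by congr) b2)).trans (le_of_eq ?_)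
      rw [ENNReal.ofReal_add hα (mul_nonneg hβ (sum_nonneg fun _ _ => ENNReal.toReal_nonneg)),
        ENNReal.ofReal_mul hβ, ENNReal.ofReal_sum_of_nonneg fun _ _ => ENNReal.toReal_nonneg]
      congr 2
      exact sum_congr rfl fun _ _ => ENNReal.ofReal_toReal (hN_ne_top _ _))
  have c0 : (∑ y' ∈ Y, ∑' W, if G W then wt W * hN (net n (E2 W)) y' else 0) ≠ ∞ :=
    ENNReal.sum_ne_top.2 fun y' _ => tsw_om_ne_top y' E2 hG
  have c1 := ENNReal.mul_ne_top (ENNReal.ofReal_ne_top (r := α)) (hN_ne_top (net n E) y)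
  have c2 := ENNReal.mul_ne_top (ENNReal.ofReal_ne_top (r := β)) c0
  have c5 : ∀ P, ms (fun W => Run (net n (EP P)) y W ∧ C P) =
      if C P then hN (net n (EP P)) y else 0 := by
    intro P
    split_ifs with k
    · exact ms_congr fun W => ⟨fun m => m.1, fun m => ⟨m, k⟩⟩
    · simp [ms, k]
  have c3 : ∑ P ∈ F, ENNReal.ofReal (q P) * (if C P then hN (net n (EP P)) y else 0) ≤
      ENNReal.ofReal α * hN (net n E) y + ENNReal.ofReal β *
        ∑ y' ∈ Y, ∑' W, if G W then wt W * hN (net n (E2 W)) y' else 0 := by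
    rw [← tsw_tsum Y E2 hG]
    refine le_of_eq_of_le (sum_congr rfl fun P _ => by rw [c5]) (le_of_le_of_eq s3 (by congr))
  have c6 : ∀ P, (if C P then hN (net n (EP P)) y else 0) ≠ ∞ := fun P => by
    split_ifs
    · exact hN_ne_top _ _
    · exact ENNReal.zero_ne_top
  have c4 := ENNReal.toReal_mono (ENNReal.add_ne_top.2 ⟨c1, c2⟩) c3
  rw [ENNReal.toReal_add c1 c2, ENNReal.toReal_mul, ENNReal.toReal_mul,
    ENNReal.toReal_ofReal hα, ENNReal.toReal_ofReal hβ,
    ENNReal.toReal_sum fun P _ => ENNReal.mul_ne_top ENNReal.ofReal_ne_top (c6 P)] at c4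
  refine le_of_eq_of_le (sum_congr rfl fun P _ => ?_) c4
  rw [ENNReal.toReal_mul, ENNReal.toReal_ofReal (hq P)]
  split_ifs <;> simp

theorem tsw_fin {Z ε H Ω : ℝ} (hε : 0 < ε) (hΩ : 0 ≤ Ω) (hH : 0 ≤ H)
    (h : ∀ t1 t2 : ℝ, 0 < t1 → 0 < t2 →
      Z ≤ t1 / 2 * Real.sqrt H + t2 / (4 * t1) * H + 1 / (4 * t1 * t2) * (H * Ω)) :
    Z ≤ ε * H + Ω / ε ^ 3 := by
  have hy : 0 ≤ Ω / ε ^ 3 := by positivity
  rcases hH.eq_or_lt with rfl | hh
  · have k := h 1 1 one_pos one_pos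
    rw [Real.sqrt_zero] at k
    linarith
  obtain ⟨r, hr, rfl⟩ : ∃ r : ℝ, 0 < r ∧ H = r ^ 2 :=
    ⟨Real.sqrt H, Real.sqrt_pos.2 hh, (Real.sq_sqrt hh.le).symm⟩
  have k := h (ε * r) (ε ^ 2 * r) (by positivity) (by positivity)
  rw [Real.sqrt_sq hr.le] at k
  have k1 : ε ^ 2 * r / (4 * (ε * r)) * r ^ 2 = ε * r ^ 2 / 4 := by field_simp
  have k2 : 1 / (4 * (ε * r) * (ε ^ 2 * r)) * (r ^ 2 * Ω) = Ω / ε ^ 3 / 4 := by field_simp
  have k3 : 0 ≤ ε * r ^ 2 := by positivity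
  rw [k1, k2] at k
  nlinarith

theorem p_TS (hKC1 : S_KC1) (hDEC1 : S_DEC1) (hDEC2 : S_DEC2) (hBAR : S_BAR) :
    S_TS := by
  intro n S T Y Lf Rg D va vb a B hn hS hL hT hI ha hG hB
  obtain ⟨E2, K, Gd, hbar, hcov⟩ := hBAR n S T Lf Rg va vb hS hL hT hI
  refine ⟨E2, K, Gd, hbar, fun ε H Ω hε hΩ hH ho => ?_⟩
  have d1 := (f_dec2 n S T Lf Rg {va} hn hS hL).1
  have d2 := hDEC2 n S T Lf Rg D {va} hn hS hL
  have eA : symmDiff (symmDiff ({va} : Set Pt) {vb}) {va} = {vb} := by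
    rw [symmDiff_comm ({va} : Set Pt) {vb}, symmDiff_symmDiff_cancel_right]
  obtain ⟨F, hV, e1⟩ : ∃ F : Finset (Finset Pt), (∀ P ∈ F, Valid n S Lf Rg P) ∧
      Zf (eS n S \ D) (box n \ S) T B ≤ ∑ P ∈ F,
        xc ^ (lam n Lf P \ D).card * Zw n {vb} (eS n S \ Dl n Lf P) D := by
    refine ⟨_, ?_, eA ▸ hDEC1 n S T Lf Rg D _ {va} B (fun _ => True) hS (tsw_src hT) hL
      fun M hM k => ⟨hB M hM k, trivial⟩⟩
    intro P hP
    simp only [mem_filter] at hP
    exact hP.2.1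
  have hh : 0 ≤ ∑ y ∈ Y, (hN (net n (eS n S)) y).toReal :=
    sum_nonneg fun _ _ => ENNReal.toReal_nonneg
  refine tsw_fin hε hΩ ((mul_nonneg ha hh).trans hH) fun t1 t2 ht1 ht2 => ?_
  have s1 : Zf (eS n S \ D) (box n \ S) T B / Zw n ∅ (eS n S) D ≤ ∑ P ∈ F, qw n S Lf D P *
      (t1 / 2 + 1 / (2 * t1) * (a * ∑ y ∈ Y.filter (Reach n (eS n S \ Dl n Lf P) vb),
        (hN (net n (eS n S \ Dl n Lf P)) y).toReal)) := by
    refine (div_le_div_of_nonneg_right e1 (hKC1 n _ D).2.1.le).trans ?_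
    rw [sum_div]
    apply sum_le_sum
    intro P hP
    have a1 := ts_amgm ht1 (hG _ sdiff_subset (d1 P (hV P hP)) vb (Or.inr rfl))
    refine le_trans (le_of_eq ?_) (mul_le_mul_of_nonneg_left a1 (tsw_q_nonneg hKC1 n S Lf D P))
    have a2 := (hKC1 n (eS n S \ Dl n Lf P) D).2.1.ne'
    have a3 := (hKC1 n (eS n S) D).2.1.ne'
    rw [qw, Gw]
    field_simp
  have s2 : ∑ P ∈ F, qw n S Lf D P ≤ Real.sqrt H :=
    (d2 _ F le_rfl hS.good.sc_eS fun P hP => ⟨hV P hP, ts_lam hS (hV P hP)⟩).trans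
      (Real.le_sqrt_of_sq_le ((hG _ le_rfl hS.good.sc_eS va (Or.inl rfl)).trans
        ((mul_le_mul_of_nonneg_left (tsw_filter_le n Y _ va) ha).trans hH)))
  have s3 : ∀ y ∈ Y, ∑ P ∈ F, qw n S Lf D P * (if Reach n (eS n S \ Dl n Lf P) vb y then
      (hN (net n (eS n S \ Dl n Lf P)) y).toReal else 0) ≤
      t2 / 2 * (hN (net n (eS n S)) y).toReal + 1 / (2 * t2) * a *
        (∑ y' ∈ Y, ∑' W, if Gd y W then wt W * hN (net n (E2 y W)) y' else 0).toReal := by
    intro y _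
    refine le_of_eq_of_le (by congr) (le_of_le_of_eq (tsw_one F (tsw_q_nonneg hKC1 n S Lf D)
      (fun P => eS n S \ Dl n Lf P) (fun P => Reach n (eS n S \ Dl n Lf P) vb y) (eS n S) Y y
      (E2 y) (Gd y) (α := t2 / 2) (β := 1 / (2 * t2) * a) (by positivity) (by positivity)
      (fun W k => (hbar y W k).run) (fun P hP W k k' => (hcov y W P (hV P hP) k k').1)
      fun W g F' hF' k => ?_) (by congr))
    have b := hbar y W g
    refine (d2 (E2 y W) F' b.sub b.sc fun P hP =>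
      ⟨hV P (hF' hP), (hcov y W P (hV P (hF' hP)) (k P hP).1 (k P hP).2).2⟩).trans ?_
    refine (ts_amgm ht2 ((hG _ b.sub b.sc va (Or.inl rfl)).trans
      (mul_le_mul_of_nonneg_left (tsw_filter_le n Y _ va) ha))).trans (le_of_eq ?_)
    ring
  have s4 : ∑ P ∈ F, qw n S Lf D P * ∑ y ∈ Y.filter (Reach n (eS n S \ Dl n Lf P) vb),
      (hN (net n (eS n S \ Dl n Lf P)) y).toReal ≤
      t2 / 2 * ∑ y ∈ Y, (hN (net n (eS n S)) y).toReal +
        1 / (2 * t2) * a * (omw n Y E2 Gd).toReal := by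
    rw [omw, ENNReal.toReal_sum fun y _ => ENNReal.sum_ne_top.2 fun y' _ =>
      tsw_om_ne_top y' (E2 y) fun W k => (hbar y W k).run, mul_sum, mul_sum, ← sum_add_distrib]
    refine le_of_eq_of_le ?_ (sum_le_sum s3)
    rw [sum_comm]
    exact sum_congr rfl fun P _ => by rw [sum_filter, mul_sum]
  have s5 : ∑ P ∈ F, qw n S Lf D P *
      (t1 / 2 + 1 / (2 * t1) * (a * ∑ y ∈ Y.filter (Reach n (eS n S \ Dl n Lf P) vb),
        (hN (net n (eS n S \ Dl n Lf P)) y).toReal)) =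
      t1 / 2 * ∑ P ∈ F, qw n S Lf D P + 1 / (2 * t1) * a *
        ∑ P ∈ F, qw n S Lf D P * ∑ y ∈ Y.filter (Reach n (eS n S \ Dl n Lf P) vb),
          (hN (net n (eS n S \ Dl n Lf P)) y).toReal := by
    rw [mul_sum, mul_sum, ← sum_add_distrib]
    exact sum_congr rfl fun P _ => by ring
  refine s1.trans (s5.le.trans ((add_le_add (mul_le_mul_of_nonneg_left s2 (by positivity))
    (mul_le_mul_of_nonneg_left s4 (by positivity))).trans ?_))
  have f1 := mul_le_mul_of_nonneg_left hH (show 0 ≤ t2 / (4 * t1) by positivity)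
  have f2 := mul_le_mul_of_nonneg_left ho (show 0 ≤ 1 / (4 * t1 * t2) by positivity)
  have f3 : 1 / (2 * t1) * a * (t2 / 2 * ∑ y ∈ Y, (hN (net n (eS n S)) y).toReal +
      1 / (2 * t2) * a * (omw n Y E2 Gd).toReal) =
      t2 / (4 * t1) * (a * ∑ y ∈ Y, (hN (net n (eS n S)) y).toReal) +
        1 / (4 * t1 * t2) * (a ^ 2 * (omw n Y E2 Gd).toReal) := by
    field_simp
    ring
  rw [f3]
  linarith

end Pool.Agent.P.MP_347bd1_pr.M

namespace Pool.Agent.P.MP_347bd1_pr.M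

open Classical Finset Filter Topology
open scoped ENNReal NNReal

open Function

theorem pbw_energy (b : BC) {n : ℕ} (σ : Conf n) {x y : Site n} (hxy : x ≠ y)
    (h : ¬ (grid n).Adj x y) (s s' c : Bool) :
    energy b (update (update σ y c) x s) + energy b (update σ x s') =
      energy b (update (update σ y c) x s') + energy b (update σ x s) := by
  have k : ∀ w, w ≠ y → ∀ s, update (update σ y c) x s w = update σ x s w := fun w hw s => by
    by_cases e : w = x <;> simp [e, hw]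
  have k' : ∀ (τ : Conf n) w, w ≠ x → update τ x s w = update τ x s' w := fun τ w hw => by
    simp [hw]
  unfold energy
  rw [add_add_add_comm, add_add_add_comm _ (∑ _, _), ← add_div, ← add_div]
  simp only [← sum_add_distrib]
  congr 1
  · congr 1
    refine sum_congr rfl fun u _ => sum_congr rfl fun v _ => ?_
    split_ifs with a
    · by_cases e : u ≠ x ∧ v ≠ x
      · rw [k' _ u e.1, k' _ v e.2, k' _ u e.1, k' _ v e.2]
      · have e1 : u ≠ y ∧ v ≠ y := by
          rcases not_and_or.1 e with e | e <;> rw [not_not] at e <;> subst e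
          · exact ⟨hxy, fun e => h (e ▸ a)⟩
          · exact ⟨fun e => h (e ▸ a.symm), hxy⟩
        simp only [k u e1.1, k v e1.2, add_comm]
    · rfl
  · refine sum_congr rfl fun u _ => ?_
    by_cases e : u = x
    · subst e
      simp only [update_self, add_comm]
    · rw [k' _ u e, k' _ u e]

theorem pbw_cond (b : BC) {n : ℕ} (σ : Conf n) {x y : Site n} (hxy : x ≠ y)
    (h : ¬ (grid n).Adj x y) (s c : Bool) : cond b (update σ y c) x s = cond b σ x s := by
  have k : ∀ s', ising b (update (update σ y c) x s) * ising b (update σ x s') =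
      ising b (update σ x s) * ising b (update (update σ y c) x s') := fun s' => by
    unfold ising
    rw [div_mul_div_comm, div_mul_div_comm, ← Real.exp_add, ← Real.exp_add, ← mul_add, ← mul_add,
      pbw_energy b σ hxy h s s' c, add_comm]
  unfold cond
  rw [div_eq_div_iff (add_pos (dyna_pos b _) (dyna_pos b _)).ne'
    (add_pos (dyna_pos b _) (dyna_pos b _)).ne', mul_add, mul_add, k, k]

theorem p_PB :
    S_PB := by
  intro b n
  have h : ∀ (σ : Conf n) x, cond b σ x false = 1 - cond b σ x true := fun σ x => by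
    linarith [dyna_cond_add b σ x]
  refine ⟨fun x f g => ?_, fun x g => funext fun σ => ?_, fun x y hxy a g => funext fun σ => ?_,
    fun g => sum_congr rfl fun x _ => ?_⟩
  · rw [ip, ip, dyna_inv b x, dyna_inv b x fun σ => f σ * dx b x g σ]
    refine sum_congr rfl fun σ _ => ?_
    simp only [dx, dyna_cond_upd, update_idem, h]
    ring
  · simp only [dx, dyna_cond_upd, update_idem, h]
    ring
  · simp only [dx, pbw_cond b _ hxy a, pbw_cond b _ hxy.symm fun e => a e.symm, update_comm hxy]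
    ring
  · rw [ip, dyna_inv b x]
    refine sum_congr rfl fun σ _ => ?_
    simp only [dx, dyna_cond_upd, update_idem, h]
    ring

end Pool.Agent.P.MP_347bd1_pr.M

namespace Pool.Agent.P.MP_347bd1_pr.M

open Classical Finset Filter Topology
open scoped ENNReal NNReal

theorem clsw_mono {M M' : Finset Pt} {a b : Pt} (h : SPath M a b) (hM : M ⊆ M') : SPath M' a b :=
  ⟨hM h.1, rtg_mono (fun _ _ k => ⟨k.1, hM k.2⟩) h.2⟩

theorem clsw_symm {G : Finset Pt} {a b : Pt} (ha : a ∈ G) (h : NPath G a b) :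
    b ∈ G ∧ NPath G b a := by
  induction h with
  | refl => exact ⟨ha, .refl⟩
  | tail _ k ih => exact ⟨k.2, Relation.ReflTransGen.head ⟨k.1.symm, ih.1⟩ ih.2⟩

/-- An arm from a neighbour of `s` that avoids the ball. -/
def clsw_E (z : Pt) (ρ : ℤ) (s : Pt) (M : Finset Pt) : Prop :=
  ∃ s' b : Pt, Star s s' ∧ b.2 = 1 ∧ SPath (M \ ball z ρ) s' b

theorem clsw_last {M : Finset Pt} {z a b : Pt} {ρ : ℤ} (h : SPath M a b) (hb : b.2 = 1)
    (ha : nrm (a - z) ≤ ρ) (hb' : ρ < nrm (b - z)) :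
    ∃ s ∈ M, nrm (s - z) = ρ ∧ clsw_E z ρ s M := by
  have key : ∀ a, Relation.ReflTransGen (fun u w => Star u w ∧ w ∈ M) a b → a ∈ M →
      SPath (M \ ball z ρ) a b ∨ ∃ s ∈ M, nrm (s - z) = ρ ∧ clsw_E z ρ s M := fun a k => by
    induction k using Relation.ReflTransGen.head_induction_on with
    | refl => exact fun m => .inl ⟨mem_sdiff.2 ⟨m, fun e => by
        rw [mem_ball] at e; omega⟩, .refl⟩
    | @head u c k _ ih =>
      intro m
      rcases ih k.2 with e | e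
      · by_cases hu : u ∈ ball z ρ
        · refine .inr ⟨u, m, ?_, c, b, k.1, hb, e⟩
          have h1 := (mem_sdiff.1 e.1).2
          have h2 := nrm_tri c u z
          have h3 : nrm (c - u) = 1 := k.1.symm
          rw [mem_ball] at h1 hu
          omega
        · exact .inl ⟨mem_sdiff.2 ⟨m, hu⟩, Relation.ReflTransGen.head ⟨k.1, e.1⟩ e.2⟩
      · exact .inr e
  exact (key a h.2 h.1).resolve_left fun e => (mem_sdiff.1 e.1).2 (mem_ball.2 ha)

theorem clsw_wf {n : ℕ} {S T M : Finset Pt} {z s : Pt} {ρ : ℤ} (hT : T ⊆ ball z ρ)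
    (hM : M ⊆ box n \ S) (h : clsw_E z ρ s M) : ∃ u ∈ Wf n S T, Star s u := by
  obtain ⟨s', b, h1, h2, h3⟩ := h
  have h4 : SPath (box n \ (S ∪ T)) s' b := clsw_mono h3 fun x hx => by
    obtain ⟨k1, k2⟩ := mem_sdiff.1 hx
    obtain ⟨k3, k4⟩ := mem_sdiff.1 (hM k1)
    exact mem_sdiff.2 ⟨k3, fun k => (mem_union.1 k).elim k4 fun k => k2 (hT k)⟩
  exact ⟨s', mem_filter.2 ⟨h4.1, b, h2, h4⟩, h1⟩

theorem clsw_arm {T M : Finset Pt} {z s : Pt} {ρ : ℤ} (hT : T ⊆ ball z ρ) (hs : s ∈ T)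
    (h : clsw_E z ρ s M) : ArmT T T M := by
  obtain ⟨s', b, h1, h2, h3⟩ := h
  exact ⟨s, hs, s', b, h1, h2, clsw_mono h3 (sdiff_subset_sdiff le_rfl hT)⟩

theorem clsw_cmp {n : ℕ} {S : Finset Pt} {z s t : Pt} {ρ : ℤ} (hs : s ∈ Mid n S z ρ)
    (ht : t ∈ Cmp n S z ρ s) : Cmp n S z ρ t = Cmp n S z ρ s := by
  have h1 := (mem_filter.1 ht).2
  exact filter_congr fun x _ => ⟨fun k => Relation.ReflTransGen.trans h1 k,
    fun k => Relation.ReflTransGen.trans (clsw_symm hs h1).2 k⟩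

/-- The weight of a site. -/
noncomputable def clsw_G (l : ℕ) (g : ℕ → Pt → ℝ) (t : Pt) : ℝ :=
  ∑ j ∈ (range (48 * l)).filter (fun j => 2 ^ j ≤ 48 * l), g j t / 2 ^ j

theorem clsw_G_nonneg {l : ℕ} {g : ℕ → Pt → ℝ} (hg : ∀ j t, 0 ≤ g j t) (t : Pt) :
    0 ≤ clsw_G l g t := sum_nonneg fun j _ => div_nonneg (hg j t) (by positivity)

theorem clsw_G_le {l j : ℕ} {g : ℕ → Pt → ℝ} (hg : ∀ j t, 0 ≤ g j t) (hj : 2 ^ j ≤ 48 * l)
    (t : Pt) : g j t ≤ 2 ^ j * clsw_G l g t := by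
  rw [← div_le_iff₀' (by positivity)]
  exact single_le_sum (f := fun j => g j t / 2 ^ j) (fun j _ => div_nonneg (hg j t) (by positivity))
    (mem_filter.2 ⟨mem_range.2 (Nat.lt_two_pow_self.trans_le hj), hj⟩)

section
variable {n : ℕ} {S : Finset Pt} {z : Pt} {l ρ : ℕ} {g : ℕ → Pt → ℝ} (hS : Good n S ∅)
  (hl : 1 ≤ l) (hA : Away n z (2 * l + 1)) (hg : ∀ j t, 0 ≤ g j t)
  (hc : ∀ j T v1 v2, 2 ^ j ≤ 48 * l → Cls n S T v1 v2 → T ⊆ ball z (2 * l + 1) → T.card ≤ 2 ^ j →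
    ∀ t ∈ T, PS n S (ArmT T T) ≤ g j t) (h1 : l + 2 ≤ ρ) (h2 : ρ ≤ 2 * l + 1)
include hS hl hA hg hc h2

theorem clsw_touch (hRUN1 : S_RUN1) {s : Pt} (hs : nrm (s - z) = ρ) (hb : s ∈ box n) (hs' : s ∉ S)
    (hd : ∃ d : Dir, s + d.vec ∈ S) : PS n S (clsw_E z ρ s) ≤ clsw_G l g s := by
  by_cases h : ∃ M ⊆ box n \ S, clsw_E z ρ s M
  swap
  · exact (Pr_eq_zero fun M k e => h ⟨M, k, e⟩).trans_le (clsw_G_nonneg hg s)
  obtain ⟨M, hM, hE⟩ := h
  have hT : ({s} : Finset Pt) ⊆ ball z ρ := singleton_subset_iff.2 (mem_ball.2 hs.le)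
  have hI : Ins n s := by
    have k1 := nrm_le_iff.1 hs.le
    have k2 := mem_box.1 hb
    have k3 : s.2 ≠ n := fun k => hs' (hS.top s hb k)
    simp only [Prod.fst_sub, Prod.snd_sub] at k1
    unfold Away at hA
    unfold Ins
    omega
  obtain ⟨v1, v2, hC⟩ := hRUN1 n S s hS hs' hI hd (clsw_wf hT hM hE)
  have k := hc 0 {s} v1 v2 (by omega) hC
    (singleton_subset_iff.2 (mem_ball.2 (by omega))) (by simp) s (mem_singleton_self s)
  have k' := clsw_G_le hg (l := l) (j := 0) (by omega) s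
  rw [pow_zero, one_mul] at k'
  exact (Pr_mono fun M _ e => clsw_arm hT (mem_singleton_self s) e).trans (k.trans k')

include h1

theorem clsw_class (hRUN : S_RUN) (hRING : S_RING) (hw : ∃ w ∈ S, nrm (w - z) = ρ) {s : Pt}
    (hs : s ∈ Mid n S z ρ) : PS n S (fun M => ∃ x ∈ Cmp n S z ρ s, clsw_E z ρ x M) ≤
      6 * ∑ t ∈ Cmp n S z ρ s, clsw_G l g t := by
  have h0 : 0 ≤ ∑ t ∈ Cmp n S z ρ s, clsw_G l g t := sum_nonneg fun t _ => clsw_G_nonneg hg t
  by_cases h : ∃ M ⊆ box n \ S, ∃ x ∈ Cmp n S z ρ s, clsw_E z ρ x M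
  swap
  · exact (Pr_eq_zero fun M k e => h ⟨M, k, e⟩).trans_le (by positivity)
  obtain ⟨M, hM, x, hx, hE⟩ := h
  obtain ⟨m, t, d, hR, hm, hρ, hC⟩ := hRING n S z s ρ hS (by omega)
    (by unfold Away at hA ⊢; omega) hw hs
  have h3 := hR.len
  have hT : (range m).image t ⊆ ball z ρ := fun y hy => by
    obtain ⟨i, hi, rfl⟩ := mem_image.1 hy
    exact mem_ball.2 (hρ i (mem_range.1 hi)).le
  have hCT : Cmp n S z ρ s ⊆ (range m).image t := hC ▸ image_subset_image fun i hi =>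
    mem_range.2 (by have := (mem_Ioo.1 hi).2; omega)
  obtain ⟨i, hi, rfl⟩ := mem_image.1 (hC ▸ hx)
  obtain ⟨v1, v2, hCl⟩ := hRUN n S m t d hS hR
    ⟨i, (mem_Ioo.1 hi).1, by have := (mem_Ioo.1 hi).2; omega, clsw_wf hT hM hE⟩
  have k1 : m ≤ 2 ^ Nat.clog 2 m := Nat.le_pow_clog one_lt_two m
  have k2 : 2 ^ Nat.clog 2 m ≤ 2 * m := by
    have a := Nat.pow_pred_clog_lt_self one_lt_two (x := m) (by omega)
    have b : 0 < Nat.clog 2 m := Nat.clog_pos one_lt_two (by omega)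
    obtain ⟨c, hc'⟩ : ∃ c, Nat.clog 2 m = c + 1 := ⟨Nat.clog 2 m - 1, by omega⟩
    rw [hc'] at a ⊢
    rw [pow_succ]
    simp only [Nat.pred_eq_sub_one, Nat.add_sub_cancel] at a
    omega
  have k3 : 2 ^ Nat.clog 2 m ≤ 48 * l := by omega
  have k4 : (Cmp n S z ρ s).card = m - 2 := by
    rw [← hC, card_image_of_injOn fun a ha b hb e => hR.inj a
      (by have := (mem_Ioo.1 ha).2; omega) b (by have := (mem_Ioo.1 hb).2; omega) e, Nat.card_Ioo]
    omega
  have k5 : ∀ y ∈ Cmp n S z ρ s, PS n S (fun M => ∃ x ∈ Cmp n S z ρ s, clsw_E z ρ x M) ≤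
      2 ^ Nat.clog 2 m * clsw_G l g y := fun y hy =>
    (Pr_mono fun M _ ⟨x, hx, e⟩ => clsw_arm hT (hCT hx) e).trans
      ((hc _ _ v1 v2 k3 hCl (fun y hy => mem_ball.2 (by have := mem_ball.1 (hT hy); omega))
        (card_image_le.trans (by rwa [card_range])) y (hCT hy)).trans (clsw_G_le hg k3 y))
  have k6 := sum_le_sum k5
  rw [sum_const, nsmul_eq_mul, ← mul_sum] at k6
  have k7 : (2 : ℝ) ^ Nat.clog 2 m ≤ (Cmp n S z ρ s).card * 6 := by
    have : 2 ^ Nat.clog 2 m ≤ (Cmp n S z ρ s).card * 6 := by omega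
    exact_mod_cast this
  have k8 : (0 : ℝ) < (Cmp n S z ρ s).card := by
    have : 0 < (Cmp n S z ρ s).card := by omega
    exact_mod_cast this
  refine le_of_mul_le_mul_left (k6.trans ?_) k8
  rw [← mul_assoc]
  exact mul_le_mul_of_nonneg_right k7 h0

theorem clsw_ring (hRUN : S_RUN) (hRUN1 : S_RUN1) (hRING : S_RING) : PS n S (ArmB S z l) ≤
    6 * ∑ t ∈ (ball z (2 * l + 1)).filter (fun t => nrm (t - z) = ρ), clsw_G l g t := by
  have hG := clsw_G_nonneg (l := l) hg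
  by_cases h : ∃ w ∈ S, nrm (w - z) ≤ l + 1
  swap
  · exact (Pr_eq_zero fun M _ e => h e.1).trans_le
      (mul_nonneg (by norm_num) (sum_nonneg fun t _ => hG t))
  obtain ⟨w, hw, hw'⟩ := h
  have hA' := hA
  unfold Away at hA'
  have hw2 : ∃ w ∈ S, nrm (w - z) = ρ := by
    have k : ((1 : ℤ), (n : ℤ)) ∈ S := hS.top _ (by rw [mem_box]; simp only; omega) rfl
    refine NPath.ivt hw (hS.nn_conn hw k) z (by omega) (not_lt.1 fun e => ?_)
    have := nrm_lt_iff.1 e
    simp only [Prod.fst_sub] at this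
    omega
  set R := (ball z (2 * l + 1)).filter (fun t => nrm (t - z) = ρ) with hR
  let p : Pt → Prop := fun s => s ∈ box n ∧ s ∉ S ∧ ∃ d : Dir, s + d.vec ∈ S
  have e1 : PS n S (ArmB S z l) ≤ PS n S fun M => (∃ s ∈ R.filter p, clsw_E z ρ s M) ∨
      ∃ C ∈ (Mid n S z ρ).image (Cmp n S z ρ), ∃ x ∈ C, clsw_E z ρ x M := by
    refine Pr_mono ?_
    rintro M hM ⟨-, a, b, ha, hb, hp⟩
    obtain ⟨s, k1, k2, k3⟩ := clsw_last (z := z) (ρ := ρ) hp hb (by omega) (not_le.1 fun e => by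
      have := nrm_le_iff.1 e
      simp only [Prod.snd_sub] at this
      omega)
    obtain ⟨k4, k5⟩ := mem_sdiff.1 (hM k1)
    by_cases hd : ∃ d : Dir, s + d.vec ∈ S
    · exact .inl ⟨s, mem_filter.2 ⟨mem_filter.2 ⟨mem_ball.2 (by omega), k2⟩, k4, k5, hd⟩, k3⟩
    · have k6 : s ∈ Mid n S z ρ := mem_filter.2 ⟨k4, k2, k5, fun d e => hd ⟨d, e⟩⟩
      exact .inr ⟨_, mem_image_of_mem _ k6, s, mem_filter.2 ⟨k6, .refl⟩, k3⟩
  have e2 : PS n S (fun M => ∃ s ∈ R.filter p, clsw_E z ρ s M) ≤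
      ∑ s ∈ R.filter p, clsw_G l g s :=
    (Pr_exists_le _ _).trans (sum_le_sum fun s hs => by
      obtain ⟨k1, k2, k3, k4⟩ := mem_filter.1 hs
      exact clsw_touch hS hl hA hg hc h2 hRUN1 (mem_filter.1 k1).2 k2 k3 k4)
  have e3 : PS n S (fun M => ∃ C ∈ (Mid n S z ρ).image (Cmp n S z ρ), ∃ x ∈ C, clsw_E z ρ x M) ≤
      6 * ∑ s ∈ Mid n S z ρ, clsw_G l g s := by
    rw [← sum_fiberwise_of_maps_to (t := (Mid n S z ρ).image (Cmp n S z ρ)) (g := Cmp n S z ρ)
      fun x hx => mem_image_of_mem _ hx, mul_sum]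
    refine (Pr_exists_le _ fun C M => ∃ x ∈ C, clsw_E z ρ x M).trans (sum_le_sum fun C hC => ?_)
    obtain ⟨s, hs, rfl⟩ := mem_image.1 hC
    refine (clsw_class hS hl hA hg hc h1 h2 hRUN hRING hw2 hs).trans
      (mul_le_mul_of_nonneg_left (sum_le_sum_of_subset_of_nonneg (fun t ht => ?_)
        fun t _ _ => hG t) (by norm_num))
    exact mem_filter.2 ⟨(mem_filter.1 ht).1, clsw_cmp hs ht⟩
  have e4 : ∑ s ∈ Mid n S z ρ, clsw_G l g s ≤ ∑ s ∈ R.filter (fun s => ¬ p s), clsw_G l g s :=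
    sum_le_sum_of_subset_of_nonneg (fun s hs => by
      obtain ⟨-, k2, -, k4⟩ := mem_filter.1 hs
      exact mem_filter.2 ⟨mem_filter.2 ⟨mem_ball.2 (by omega), k2⟩,
        fun ⟨_, _, d, e⟩ => k4 d e⟩) fun t _ _ => hG t
  have e5 := sum_filter_add_sum_filter_not R p (clsw_G l g)
  have e6 : 0 ≤ ∑ s ∈ R.filter p, clsw_G l g s := sum_nonneg fun t _ => hG t
  have e7 := e1.trans (Pr_or_le.trans (add_le_add e2 e3))
  linarith

end

theorem p_CLS (hRUN : S_RUN) (hRUN1 : S_RUN1) (hRING : S_RING) :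
    S_CLS := by
  intro n S z l g hS hl hA hg hc
  have h1 := sum_le_sum fun ρ (hρ : ρ ∈ Icc (l + 2) (2 * l + 1)) =>
    clsw_ring hS hl hA hg hc (mem_Icc.1 hρ).1 (mem_Icc.1 hρ).2 hRUN hRUN1 hRING
  rw [sum_const, Nat.card_Icc, show 2 * l + 1 + 1 - (l + 2) = l by omega, nsmul_eq_mul,
    ← mul_sum] at h1
  have h2 : ∑ ρ ∈ Icc (l + 2) (2 * l + 1), ∑ t ∈ (ball z (2 * l + 1)).filter
      (fun t => nrm (t - z) = (ρ : ℕ)), clsw_G l g t ≤ ∑ t ∈ ball z (2 * l + 1), clsw_G l g t := by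
    simp only [sum_filter]
    rw [sum_comm]
    refine sum_le_sum fun t _ => ?_
    rw [← sum_filter, sum_const, nsmul_eq_mul]
    refine mul_le_of_le_one_left (clsw_G_nonneg hg t) ?_
    have : ((Icc (l + 2) (2 * l + 1)).filter fun ρ : ℕ => nrm (t - z) = ρ).card ≤ 1 :=
      card_le_one.2 fun a ha b hb => by
        have := (mem_filter.1 ha).2
        have := (mem_filter.1 hb).2
        omega
    exact_mod_cast this
  have h3 : ∑ t ∈ ball z (2 * l + 1), clsw_G l g t =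
      ∑ j ∈ (range (48 * l)).filter (fun j => 2 ^ j ≤ 48 * l),
        (∑ t ∈ ball z (2 * l + 1), g j t) / 2 ^ j := by
    simp only [clsw_G, sum_div]
    exact sum_comm
  have h4 : (0 : ℝ) < l := by exact_mod_cast hl
  rw [← h3, div_mul_eq_mul_div, le_div_iff₀' h4]
  exact h1.trans (mul_le_mul_of_nonneg_left h2 (by norm_num))

end Pool.Agent.P.MP_347bd1_pr.M
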