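import Pool.Agent.P.MP_347bd1_pr.M.Iface

/-! Steps CORN, TS0, SLIT, GKS, DPOIN. -/

set_option autoImplicit false

namespace Pool.Agent.P.MP_347bd1_pr.M

open Classical Finset Filter Topology
open scoped ENNReal NNReal

/-- The sum of the potentials near the forbidden steps at one scale. -/
theorem cornw_cell (hG : S_GRN) : ∃ A : ℝ, 0 < A ∧ ∀ (N : Net) (o : Pt) (V : Finset Pt)
    (s t : ℕ) (β : ℝ), Far N → 1 ≤ s → 1 ≤ t → 0 ≤ β → (∀ v ∈ V, NearK N t v) →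
    (∀ v ∈ V, nrm (v - o) ≤ 1100 * s) → (∀ v ∈ V, ∀ z d, nrm (z - v) ≤ 7 * s → ¬ N.st z d) →
    (∀ z, nrm (z - o) ≤ 2000 * s → (hN N z).toReal ≤ β) →
    ∑ v ∈ V, (hN N v).toReal ≤ A * t ^ 2 * β := by
  obtain ⟨C, hC⟩ := f_cell
  obtain ⟨G, hG⟩ := hG
  refine ⟨C * 1101 ^ 2 * G + 1, by positivity, fun N o V s t β hF hs ht hβ k1 k2 k3 k4 => ?_⟩
  have p : (1 : ℤ) ≤ s := by exact_mod_cast hs
  have := hC N o s 1100 V (ENNReal.ofReal β) (G * (t : ℝ≥0∞) ^ 2) (fun _ _ => True) hs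
    (fun v hv => by have := k2 v hv; push_cast; omega) k3
    (fun v hv z h => (ENNReal.le_ofReal_iff_toReal_le (hN_ne_top _ _) hβ).2 (k4 z (by
      have := nrm_tri z v o
      have := k2 v hv
      omega)))
    fun y => (sum_le_sum fun v _ => ms_mono fun _ h => h.1).trans (hG N V y t hF ht k1).2
  rw [← ENNReal.toReal_sum fun v _ => hN_ne_top N v]
  refine (ENNReal.toReal_mono (by finiteness) ((sum_le_sum fun v _ => ms_mono fun W h =>
    ⟨h, v, vis_start _ _ _, by simp, trivial⟩).trans this)).trans ?_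
  have e : ((C : ℝ≥0∞) * ((1100 : ℕ) + 1) ^ 2 * (G * (t : ℝ≥0∞) ^ 2) * ENNReal.ofReal β).toReal =
      C * 1101 ^ 2 * G * t ^ 2 * β := by
    simp [ENNReal.toReal_ofReal hβ]
    norm_num
    left
    ring
  rw [e]
  have : 0 ≤ (t : ℝ) ^ 2 * β := by positivity
  nlinarith

theorem cornw_am {a b x : ℝ} (ha : 0 ≤ a) (hb : 0 ≤ b) (hx : 0 < x) :
    √a * √b ≤ a / (2 * x) + x * b / 2 := by
  have h1 := Real.sq_sqrt ha
  have h2 := Real.sq_sqrt hb
  have h3 : (√a - x * √b) ^ 2 = a - 2 * x * (√a * √b) + x ^ 2 * b := by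
    rw [sub_sq, mul_pow, h1, h2]
    ring
  rw [div_add_div _ _ (by positivity) (by norm_num), le_div_iff₀ (by positivity)]
  nlinarith [sq_nonneg (√a - x * √b)]

theorem cornw_pow (l : ℕ) (hl : 1 ≤ l) :
    ∑ j ∈ (range (48 * l)).filter (fun j => 2 ^ j ≤ 48 * l), (2 : ℝ) ^ j ≤ 96 * l := by
  have h1 := Nat.geomSum_lt (m := 2) (n := Nat.log 2 (48 * l) + 1)
    (s := (range (48 * l)).filter fun j => 2 ^ j ≤ 48 * l) le_rfl fun j hj =>
      Nat.lt_succ_of_le (Nat.le_log_of_pow_le (by norm_num) (mem_filter.1 hj).2)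
  have h2 := Nat.pow_log_le_self 2 (x := 48 * l) (by omega)
  rw [pow_succ] at h1
  have h3 : ∑ j ∈ (range (48 * l)).filter (fun j => 2 ^ j ≤ 48 * l), 2 ^ j ≤ 96 * l := by omega
  exact_mod_cast h3

/-- The multiplicities in the sum over the centres of one shell. -/
theorem cornw_sum (Z B : Finset Pt) (V : ℕ → Finset Pt) (u : Pt → ℝ) (l K : ℕ) (C M : ℝ)
    (hu : ∀ y, 0 ≤ u y) (hl : 1 ≤ l) (hK : 1 ≤ K) (hC : 0 ≤ C) (hM : 0 ≤ M)
    (hB : ∀ z ∈ Z, ball z (2 * l + 1) ⊆ B)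
    (hV : ∀ j, 2 ^ j ≤ 48 * l → ∑ y ∈ V j, u y ≤ M * (2 ^ j) ^ 2) :
    ∑ z ∈ Z, 6 / (l : ℝ) * ∑ j ∈ (range (48 * l)).filter (fun j => 2 ^ j ≤ 48 * l),
      (∑ t ∈ ball z (2 * l + 1), C / (2 ^ j) ^ 2 *
        ∑ y ∈ (V j).filter (fun y => nrm (y - t) ≤ (K * 2 ^ j : ℕ)), u y) / 2 ^ j ≤
      6 * 49 * 9 * 96 * C * K ^ 2 * M * l ^ 2 := by
  have l0 : (1 : ℝ) ≤ l := by exact_mod_cast hl
  have K0 : (1 : ℝ) ≤ K := by exact_mod_cast hK
  rw [← mul_sum, sum_comm]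
  have key : ∀ j ∈ (range (48 * l)).filter (fun j => 2 ^ j ≤ 48 * l),
      ∑ z ∈ Z, (∑ t ∈ ball z (2 * l + 1), C / (2 ^ j) ^ 2 *
        ∑ y ∈ (V j).filter (fun y => nrm (y - t) ≤ (K * 2 ^ j : ℕ)), u y) / 2 ^ j ≤
      49 * 9 * C * K ^ 2 * M * l ^ 2 * (2 : ℝ) ^ j := by
    intro j hj
    obtain ⟨w, hw⟩ : ∃ w : ℝ, w = 2 ^ j := ⟨_, rfl⟩
    have w1 : 1 ≤ w := hw ▸ one_le_pow₀ one_le_two
    have f0 : ∀ t, 0 ≤ C / w ^ 2 *
        ∑ y ∈ (V j).filter (fun y => nrm (y - t) ≤ (K * 2 ^ j : ℕ)), u y := fun t =>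
      mul_nonneg (by positivity) (sum_nonneg fun y _ => hu y)
    have a1 := sum_ball_le Z B (2 * l + 1) _ f0
    have a2 := sum_ball_le B (V j) (K * 2 ^ j) u hu
    have a3 := hV j (mem_filter.1 hj).2
    rw [← hw] at a3 ⊢
    rw [← sum_div, div_le_iff₀ (by positivity)]
    refine (sum_le_sum fun z hz => sum_le_sum_of_subset_of_nonneg (fun t ht => mem_filter.2
      ⟨hB z hz ht, by push_cast; exact mem_ball.1 ht⟩) fun t _ _ => f0 t).trans (a1.trans ?_)
    rw [← mul_sum]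
    have b1 : (2 * ((2 * l + 1 : ℕ) : ℝ) + 1) ^ 2 ≤ 49 * l ^ 2 := by
      push_cast
      nlinarith
    have b2 : (2 * ((K * 2 ^ j : ℕ) : ℝ) + 1) ^ 2 ≤ 9 * K ^ 2 * w ^ 2 := by
      push_cast
      rw [← hw]
      have : 1 ≤ K * w := one_le_mul_of_one_le_of_one_le K0 w1
      nlinarith
    have b3 := a2.trans (mul_le_mul b2 a3 (sum_nonneg fun y _ => hu y) (by positivity))
    refine (mul_le_mul b1 (mul_le_mul_of_nonneg_left b3 (by positivity))
      (mul_nonneg (by positivity) (sum_nonneg fun t _ => sum_nonneg fun y _ => hu y))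
      (by positivity)).trans_eq ?_
    field_simp
  have fin := sum_le_sum key
  rw [← mul_sum] at fin
  refine (mul_le_mul_of_nonneg_left (fin.trans (mul_le_mul_of_nonneg_left (cornw_pow l hl)
    (by positivity))) (by positivity)).trans_eq ?_
  field_simp

/-- The estimate for one shell. -/
theorem cornw_shell (hCB : S_CB) (hCLS : S_CLS) (hGRN : S_GRN) : ∃ K : ℕ, 1 ≤ K ∧ ∃ D : ℝ, 0 < D ∧
    ∀ (n l s : ℕ) (S Z : Finset Pt) (x : ℝ), 1 ≤ l → 1 ≤ s → 10000 * s ≤ n → Good n S ∅ → 0 < x →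
    (∀ z ∈ Z, z ∈ base n ∧ (K : ℤ) * l ≤ z.1 ∧ 100 * (s : ℤ) ≤ z.1 ∧ z.1 < 1000 * s) →
    (∀ z, nrm (z - (1, (n : ℤ))) ≤ 2000 * s →
      (hN (net n ((eS n S).filter fun e => ¬ Col1 e)) z).toReal ≤ x ^ 2 * 2) →
    ∑ z ∈ Z, PS n S (ArmB S z l) ≤ D * x * l ^ 2 := by
  obtain ⟨K, hK, C, hC, hCB⟩ := hCB
  obtain ⟨A, hA, hs⟩ := cornw_cell hGRN
  have K0 : (0 : ℝ) < K := by exact_mod_cast hK
  refine ⟨20 * (48 * K + 3), by omega, 6 * 49 * 9 * 96 * (C * C) * K ^ 2 * (A * (2 * K) ^ 2 * 2),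
    by positivity, fun n l s S Z x hl s1 hn hS hx hZ hb => ?_⟩
  obtain ⟨R, hR⟩ : ∃ R : ℤ, R = K * (48 * l) := ⟨_, rfl⟩
  have l1 : (1 : ℤ) ≤ l := by exact_mod_cast hl
  have hn' : (10000 * s : ℤ) ≤ n := by exact_mod_cast hn
  have s1' : (1 : ℤ) ≤ s := by exact_mod_cast s1
  have g : ∀ z ∈ Z, 20 * (R + 3 * l) ≤ z.1 ∧ 100 * (s : ℤ) ≤ z.1 ∧ z.1 < 1000 * s ∧
      n - z.2 ≤ z.1 - 1 ∧ z.2 ≤ n := fun z hz => by
    obtain ⟨a1, a2, a3, a4⟩ := hZ z hz
    obtain ⟨a5, a6, -⟩ := mem_filter.1 a1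
    refine ⟨le_of_eq_of_le ?_ a2, a3, a4, a6, (mem_box.1 a5).2.2.2⟩
    rw [hR]
    push_cast
    ring
  have hw : ∀ j : ℕ, 2 ^ j ≤ 48 * l → 0 ≤ (K : ℤ) * (2 ^ j : ℕ) ∧ (K : ℤ) * (2 ^ j : ℕ) ≤ R :=
    fun j hj => ⟨by positivity, hR ▸ mul_le_mul_of_nonneg_left (by exact_mod_cast hj)
      (by positivity)⟩
  obtain ⟨V, hV⟩ : ∃ V : ℕ → Finset Pt, ∀ j y, y ∈ V j ↔ nrm (y - (1, (n : ℤ))) ≤ 1100 * s ∧
      50 * (s : ℤ) ≤ y.1 ∧ NearK (net n (eS n S)) (2 * (K * (2 ^ j : ℕ))) y :=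
    ⟨fun j => (ball (1, n) (1100 * s)).filter fun y => 50 * (s : ℤ) ≤ y.1 ∧
      NearK (net n (eS n S)) (2 * (K * (2 ^ j : ℕ))) y, fun j y => by rw [mem_filter, mem_ball]⟩
  have two : ∀ N z, (hN N z).toReal ≤ 2 := fun N z => by
    simpa using ENNReal.toReal_mono (by simp) (hN_le N z)
  have c1 : ∀ E ⊆ eS n S, SC n E → ∀ (j : ℕ) (β : ℝ), 0 ≤ β →
      (∀ z, nrm (z - (1, (n : ℤ))) ≤ 2000 * s → (hN (net n E) z).toReal ≤ β) →
      ∑ v ∈ V j, (hN (net n E) v).toReal ≤ A * (2 * K * 2 ^ j) ^ 2 * β := by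
    intro E e1 e2 j β b0 b1
    refine (hs _ (1, n) (V j) s (2 * (K * 2 ^ j)) β (far_net e2) s1
      (Nat.succ_le_of_lt (by positivity)) b0 (fun v hv => ?_) (fun v hv => ((hV j v).1 hv).1)
      (fun v hv z d a m => ?_) b1).trans_eq ?_
    · obtain ⟨q, d, a1, a2⟩ := ((hV j v).1 hv).2.2
      exact ⟨q, d, fun m => a1 ⟨m.1, m.2.1, e1 m.2.2⟩, by exact_mod_cast a2⟩
    · obtain ⟨a1, a2, -⟩ := (hV j v).1 hv
      have a6 := (corn_st e2 m).imp_left And.left
      rw [nrm_le_iff, Prod.fst_sub, Prod.snd_sub] at a a1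
      dsimp only at a1
      omega
    · push_cast
      ring
  obtain ⟨h1, e1⟩ : ∃ h1 : Pt → ℝ, h1 = fun y =>
      (hN (net n ((eS n S).filter fun e => ¬ Col1 e)) y).toReal := ⟨_, rfl⟩
  obtain ⟨h2, e2⟩ : ∃ h2 : Pt → ℝ, h2 = fun y => (hN (net n (eS n S)) y).toReal := ⟨_, rfl⟩
  have p1 : ∀ y, 0 ≤ h1 y := fun y => e1 ▸ ENNReal.toReal_nonneg
  have p2 : ∀ y, 0 ≤ h2 y := fun y => e2 ▸ ENNReal.toReal_nonneg
  have hu : ∀ y, 0 ≤ h1 y / (2 * x) + x * h2 y / 2 := fun y => by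
    have := p1 y
    have := p2 y
    positivity
  have split : ∀ Y : Finset Pt, ∑ y ∈ Y, (h1 y / (2 * x) + x * h2 y / 2) =
      (∑ y ∈ Y, h1 y) / (2 * x) + x * (∑ y ∈ Y, h2 y) / 2 := fun Y => by
    rw [sum_add_distrib, ← sum_div, ← sum_div, ← mul_sum]
  refine (sum_le_sum fun z hz => hCLS n S z l (fun j t => C * C / (2 ^ j) ^ 2 *
    ∑ y ∈ (V j).filter (fun y => nrm (y - t) ≤ (K * 2 ^ j : ℕ)), (h1 y / (2 * x) + x * h2 y / 2))
    hS hl ?_ (fun j t => mul_nonneg (by positivity) (sum_nonneg fun y _ => hu y)) ?_).trans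
    ((cornw_sum Z (ball (1, n) (1100 * s)) V _ l K (C * C) (A * (2 * K) ^ 2 * 2 * x) hu hl hK
      (by positivity) (by positivity) ?_ ?_).trans_eq (by ring))
  · have := g z hz
    have := hw 0 (by omega)
    unfold Away
    omega
  · intro j T v1 v2 hj hT T1 T2 t ht
    have a1 := g z hz
    have a2 := hw j hj
    have a3 := mem_ball.1 (T1 ht)
    rw [nrm_le_iff, Prod.fst_sub, Prod.snd_sub] at a3
    obtain ⟨Y, y1, -, y2, -⟩ := hCB n S T v1 v2 t (2 ^ j) hS hT Nat.one_le_two_pow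
      (sub_ball_of_conn hT.conn ht T2) (by unfold Away; omega)
    have sub : Y ⊆ (V j).filter fun y => nrm (y - t) ≤ (K * 2 ^ j : ℕ) := fun y hy => by
      obtain ⟨b1, b2⟩ := y1 y hy
      refine mem_filter.2 ⟨(hV j y).2 ?_, by exact_mod_cast b1⟩
      rw [nrm_le_iff, Prod.fst_sub, Prod.snd_sub] at b1 ⊢
      dsimp only
      exact ⟨by omega, by omega, b2⟩
    have y3 : PS n S (ArmT T T) ≤ C * (√(C / (2 ^ j) ^ 2 * ∑ y ∈ Y, h1 y) *
        √(C / (2 ^ j) ^ 2 * ∑ y ∈ Y, h2 y)) := by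
      rw [e1, e2]
      exact_mod_cast y2
    refine y3.trans ((mul_le_mul_of_nonneg_left (cornw_am
      (mul_nonneg (by positivity) (sum_nonneg fun y _ => p1 y))
      (mul_nonneg (by positivity) (sum_nonneg fun y _ => p2 y)) hx) hC.le).trans
      (le_of_eq_of_le ?_ (mul_le_mul_of_nonneg_left
        (sum_le_sum_of_subset_of_nonneg sub fun y _ _ => hu y) (by positivity))))
    rw [split]
    ring
  · intro z hz t ht
    have a1 := g z hz
    have a2 := hw 0 (by omega)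
    rw [mem_ball, nrm_le_iff, Prod.fst_sub, Prod.snd_sub] at ht ⊢
    dsimp only
    omega
  · intro j _
    have b1 : ∑ y ∈ V j, h1 y ≤ _ := e1 ▸ c1 _ (filter_subset _ _) (ts0_sc hS) j _
      (by positivity) hb
    have b2 : ∑ y ∈ V j, h2 y ≤ _ := e2 ▸ c1 _ le_rfl hS.sc_eS j 2 zero_le_two fun z _ => two _ z
    rw [split]
    refine (add_le_add (div_le_div_of_nonneg_right b1 (by positivity))
      (div_le_div_of_nonneg_right (mul_le_mul_of_nonneg_left b2 hx.le) zero_le_two)).trans_eq ?_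
    field_simp
    ring

theorem p_CORN (hCB : S_CB) (hCLS : S_CLS) (hGRN : S_GRN) :
    S_CORN := by
  obtain ⟨K, hK, D, hD, hs⟩ := cornw_shell hCB hCLS hGRN
  obtain ⟨c, c0, c1, hB⟩ := f_beur
  obtain ⟨ρ, r0, r1, r2⟩ : ∃ ρ : ℝ, 0 < ρ ∧ ρ < 1 ∧ 1 - c = ρ ^ 2 :=
    ⟨√(1 - c), Real.sqrt_pos.2 (by linarith), by rw [Real.sqrt_lt' one_pos]; linarith,
      (Real.sq_sqrt (by linarith)).symm⟩
  have r3 : 0 < 1 - ρ := by linarith
  refine ⟨K + 100, by omega, fun ε hε => ?_⟩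
  obtain ⟨k, hk⟩ := exists_pow_lt_of_lt_one (x := ε * (1 - ρ) / D) (by positivity) r1
  have q0 : 0 < 10000 * 10 ^ k := by positivity
  refine ⟨10000 * 10 ^ k, 10000 * 10 ^ k, q0, fun n l hl hn S hS => ?_⟩
  have hn' : 10000 * 10 ^ k ≤ n := (Nat.le_mul_of_pos_right _ hl).trans hn
  obtain ⟨I, hI⟩ : ∃ I, I = Nat.log 10 (n / (10000 * 10 ^ k)) := ⟨_, rfl⟩
  have i1 : 10000 * (10 ^ k * 10 ^ I) ≤ n := by
    have := (Nat.le_div_iff_mul_le q0).1
      (hI ▸ Nat.pow_log_le_self 10 (Nat.div_pos hn' q0).ne' : 10 ^ I ≤ _)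
    exact le_of_eq_of_le (by ring) this
  have l1 : (1 : ℤ) ≤ l := by exact_mod_cast hl
  have g : ∀ z ∈ (base n).filter fun z => ((K + 100 : ℕ) : ℤ) * l ≤ z.1 ∧
      ((10000 * 10 ^ k : ℕ) : ℤ) * z.1 < n, z ∈ base n ∧ (K : ℤ) * l ≤ z.1 ∧ 100 ≤ z.1 ∧
        Nat.log 10 (z.1.toNat / 100) ≤ I := by
    intro z hz
    obtain ⟨a1, a2, a3⟩ := mem_filter.1 hz
    have a4 : (0 : ℤ) ≤ K * l := by positivity
    rw [Nat.cast_add, add_mul, Nat.cast_ofNat] at a2
    refine ⟨a1, by omega, by omega, hI ▸ Nat.log_mono_right ((Nat.div_le_self _ _).trans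
      ((Nat.le_div_iff_mul_le q0).2 ?_))⟩
    zify
    rw [Int.toNat_of_nonneg (by omega), mul_comm]
    exact_mod_cast a3.le
  generalize (base n).filter (fun z => ((K + 100 : ℕ) : ℤ) * l ≤ z.1 ∧
    ((10000 * 10 ^ k : ℕ) : ℤ) * z.1 < n) = Z at g ⊢
  have key : ∀ i ∈ range (I + 1), ∑ z ∈ Z.filter (fun z => Nat.log 10 (z.1.toNat / 100) = i),
      PS n S (ArmB S z l) ≤ D * l ^ 2 * ρ ^ k * ρ ^ (I - i) := by
    intro i hi
    obtain ⟨j, rfl⟩ := Nat.exists_eq_add_of_le (Nat.lt_succ_iff.1 (mem_range.1 hi))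
    rw [Nat.add_sub_cancel_left]
    have p : 1 ≤ 10 ^ i := Nat.one_le_pow _ _ (by norm_num)
    have p' : 10 ^ i ≤ 10 ^ k * 10 ^ (i + j) := by
      rw [← pow_add]
      exact Nat.pow_le_pow_right (by norm_num) (by omega)
    have two : ∀ N z, (hN N z).toReal ≤ 2 := fun N z => by
      simpa using ENNReal.toReal_mono (by simp) (hN_le N z)
    have sc := ts0_sc hS
    have s2 := hB (net n _) (fun z => (hN (net n ((eS n S).filter fun e => ¬ Col1 e)) z).toReal)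
      (1, n) (2000 * 10 ^ i) (k + j) 2 (far_net sc) (by omega) zero_le_two
      ⟨(1, n), .N, fun m => by have := (mem_intr.1 m.1).2.2.2; simp at this,
        by rw [sub_self, nrm_zero]; omega⟩
      (fun z hz => by
        rw [hN_toReal_rec, sum_eq_zero fun d _ => if_neg fun m => ?_, zero_add]
        have a1 := (corn_st sc m).resolve_left fun a => (mem_filter.1 m.2.2).2 a.2
        have a2 : (10 : ℤ) ^ (k + j) * ((2000 * 10 ^ i : ℕ) : ℤ) =
            2000 * ((10 ^ k * 10 ^ (i + j) : ℕ) : ℤ) := by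
          push_cast
          ring
        rw [a2, nrm_lt_iff, Prod.fst_sub, Prod.snd_sub] at hz
        dsimp only at hz
        omega) fun z _ => two _ z
    refine (hs n l (10 ^ i) S _ (ρ ^ (k + j)) hl p (by omega) hS (by positivity)
      (fun z hz => ?_) fun z hz => ?_).trans_eq (by ring)
    · obtain ⟨a1, a2⟩ := mem_filter.1 hz
      obtain ⟨a3, a4, a5, -⟩ := g z a1
      have b1 := Nat.pow_log_le_self 10 (x := z.1.toNat / 100) (by omega)
      have b2 := Nat.lt_pow_succ_log_self (b := 10) (by norm_num) (z.1.toNat / 100)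
      rw [Nat.pow_succ] at b2
      rw [a2] at b1 b2
      exact ⟨a3, a4, by omega, by omega⟩
    · refine (s2 z (by exact_mod_cast hz)).trans_eq ?_
      rw [r2]
      ring
  rw [← sum_fiberwise_of_maps_to (g := fun z : Pt => Nat.log 10 (z.1.toNat / 100))
    (t := range (I + 1)) fun z hz => mem_range.2 (Nat.lt_succ_of_le (g z hz).2.2.2)]
  refine (sum_le_sum key).trans ?_
  rw [← mul_sum, sum_flip (ρ ^ ·)]
  have e := (summable_geometric_of_lt_one r0.le r1).sum_le_tsum (range (I + 1))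
    fun _ _ => by positivity
  rw [tsum_geometric_of_lt_one r0.le r1] at e
  rw [lt_div_iff₀ hD] at hk
  refine (mul_le_mul_of_nonneg_left e (by positivity)).trans ?_
  rw [← div_eq_mul_inv, div_le_iff₀ r3]
  nlinarith [mul_le_mul_of_nonneg_right hk.le (sq_nonneg (l : ℝ))]

end Pool.Agent.P.MP_347bd1_pr.M

namespace Pool.Agent.P.MP_347bd1_pr.M

open Classical Finset Filter Topology
open scoped ENNReal NNReal

theorem ts0w_src {n : ℕ} {S T : Finset Pt} {A0 : Set Pt} (h : Src n (cut T ∩ eS n S) A0) :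
    Src n (cut T ∩ (ebox n \ eS n S)) A0 := by
  have : cut T ∩ (ebox n \ eS n S) = symmDiff (cut T ∩ ebox n) (cut T ∩ eS n S) := by
    ext e
    have h1 : e ∈ eS n S → e ∈ ebox n := fun k => (mem_eS.1 k).1
    rw [mem_symmDiff, mem_inter, mem_inter, mem_inter, Finset.mem_sdiff]
    exact ⟨fun k => .inl ⟨⟨k.1, k.2.1⟩, fun m => k.2.2 m.2⟩, fun k => k.elim
      (fun m => ⟨m.1.1, m.1.2, fun q => m.2 ⟨m.1.1, q⟩⟩) fun m => (m.2 ⟨m.1.1, h1 m.1.2⟩).elim⟩
  rw [this]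
  exact ((src_cut n _).symmDiff h).congr fun p _ => by simp [Set.mem_symmDiff]

theorem ts0w_lam {n : ℕ} {S T P : Finset Pt} {Lf Rg : Finset Edge} (hs : Str2 n S T Lf Rg)
    (hL : ∀ e ∈ Lf, ¬ Col1 e) (hP : Valid n S Lf Rg P) (hu : ∀ u ∈ P, u.1 ≠ 1) :
    lam n Lf P ⊆ (eS n S).filter fun e => ¬ Col1 e := by
  intro e he
  rcases mem_symmDiff.1 he with ⟨k, -⟩ | ⟨k, -⟩
  · obtain ⟨k1, k2⟩ := mem_inter.1 k
    have k3 : ea e ∈ P ∨ eb e ∈ P := by
      rw [mem_cut] at k1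
      by_contra m
      exact k1 ⟨fun a => (m (Or.inl a)).elim, fun a => (m (Or.inr a)).elim⟩
    refine mem_filter.2 ⟨mem_eS.2 ⟨k2, k3.imp (fun a => (mem_sdiff.1 (hP.sub a)).2)
      fun a => (mem_sdiff.1 (hP.sub a)).2⟩, fun m => ?_⟩
    rcases k3 with a | a
    · exact hu _ a m.2
    · exact hu _ a (by simp [eb, m.1, m.2])
  · exact mem_filter.2 ⟨(hs.lf e k).1, hL e k⟩

theorem p_TS0 (hKC1 : S_KC1) (hDEC1 : S_DEC1) (hDEC2 : S_DEC2) :
    S_TS0 := by
  intro n S T Lf Rg D A0 va k B hn hs hL hA hC hk hK hV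
  have d1 := hDEC1 n S T Lf Rg D A0 {va} B (fun P => ∀ u ∈ P, u.1 ≠ 1) hs (ts0w_src hA) hL hV
  have d2 := (f_dec2 n S T Lf Rg {va} hn hs hL).1
  have d4 := hDEC2 n S T Lf Rg D {va} hn hs hL _
    ((box n \ S).powerset.filter fun P => Valid n S Lf Rg P ∧ ∀ u ∈ P, u.1 ≠ 1)
    (filter_subset _ _) (ts0_sc hs.good) fun P hP =>
      ⟨(mem_filter.1 hP).2.1, ts0w_lam hs hC (mem_filter.1 hP).2.1 (mem_filter.1 hP).2.2⟩
  have z0 : ∀ E, 0 < Zw n ∅ E D := fun E => (hKC1 n E D).2.1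
  refine (div_le_div_of_nonneg_right d1 (z0 _).le).trans ?_
  refine le_trans ?_ (mul_le_mul_of_nonneg_right d4 hk)
  rw [sum_div, sum_mul]
  refine le_of_eq_of_le (by congr) (sum_le_sum fun P hP => ?_)
  have d6 := hK _ sdiff_subset (d2 P (mem_filter.1 hP).2.1)
  have hq : 0 ≤ qw n S Lf D P :=
    div_nonneg (mul_nonneg (pow_pos xc_pos _).le (z0 _).le) (z0 _).le
  refine le_of_eq_of_le ?_ (mul_le_mul_of_nonneg_left d6 hq)
  have := (z0 (eS n S \ Dl n Lf P)).ne'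
  rw [qw]
  field_simp

end Pool.Agent.P.MP_347bd1_pr.M

namespace Pool.Agent.P.MP_347bd1_pr.M

open Classical Finset Filter Topology
open scoped ENNReal NNReal

theorem slitw_comp {S : Finset Pt} {g x : Pt} (hg : g ∈ S) (h : NPath S g x) :
    x ∈ S.filter (NPath S g) ∧ NPath (S.filter (NPath S g)) g x ∧
      NPath (S.filter (NPath S g)) x g := by
  induction h with
  | refl => exact ⟨mem_filter.2 ⟨hg, .refl⟩, .refl, .refl⟩
  | @tail u v h k ih =>
    have hv : v ∈ S.filter (NPath S g) := mem_filter.2 ⟨k.2, h.tail k⟩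
    exact ⟨hv, ih.2.1.tail ⟨k.1, hv⟩, Relation.ReflTransGen.head ⟨k.1.symm, ih.1⟩ ih.2.2⟩

theorem p_SLIT :
    S_SLIT := by
  intro S o a b w ρ _ hw ha hab h1 h2
  set S' := S.filter fun u => w < nrm (u - o) ∧ nrm (u - o) < ρ with hS'
  have H : ∀ u, NPath S a u →
      (∃ g ∈ S', ∃ g' ∈ S', nrm (g - o) = w + 1 ∧ nrm (g' - o) = ρ - 1 ∧ NPath S' g g') ∨
      nrm (u - o) ≤ w ∨ (u ∈ S' ∧ ∃ g ∈ S', nrm (g - o) = w + 1 ∧ NPath S' g u) := by
    intro u hu
    induction hu with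
    | refl =>
      by_cases m : nrm (a - o) ≤ w
      · exact .inr (.inl m)
      · have : a ∈ S' := mem_filter.2 ⟨ha, by omega, by omega⟩
        exact .inr (.inr ⟨this, a, this, by omega, .refl⟩)
    | @tail u v _ k ih =>
      obtain ⟨⟨d, rfl⟩, k2⟩ := k
      have hs := (nrm_step u o d).1
      by_cases m : nrm (u + d.vec - o) ≤ w
      · exact .inr (.inl m)
      rcases ih with ih | ih | ⟨hu, g, hg, e, hp⟩
      · exact .inl ih
      · have : u + d.vec ∈ S' := mem_filter.2 ⟨k2, by omega, by omega⟩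
        exact .inr (.inr ⟨this, _, this, by omega, .refl⟩)
      · have h3 := (mem_filter.1 hu).2.2
        by_cases m' : nrm (u - o) = ρ - 1
        · exact .inl ⟨g, hg, u, hu, e, m', hp⟩
        · have : u + d.vec ∈ S' := mem_filter.2 ⟨k2, by omega, by omega⟩
          exact .inr (.inr ⟨this, g, hg, e, hp.tail ⟨⟨d, rfl⟩, this⟩⟩)
  have H2 : ∃ g ∈ S', ∃ g' ∈ S', nrm (g - o) = w + 1 ∧ nrm (g' - o) = ρ - 1 ∧ NPath S' g g' := by
    rcases H b hab with h | h | ⟨hb, g, hg, e, hp⟩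
    · exact h
    · omega
    · have h3 := (mem_filter.1 hb).2.2
      exact ⟨g, hg, b, hb, e, by omega, hp⟩
  obtain ⟨g, hg, g', -, e, e', hp⟩ := H2
  refine ⟨S'.filter (NPath S' g), (filter_subset _ _).trans (filter_subset _ _),
    fun x hx => (mem_filter.1 (mem_filter.1 hx).1).2, fun x hx y hy => ?_,
    ⟨g, mem_filter.2 ⟨hg, .refl⟩, e⟩, g', (slitw_comp hg hp).1, e'⟩
  exact (slitw_comp hg (mem_filter.1 hx).2).2.2.trans (slitw_comp hg (mem_filter.1 hy).2).2.1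

end Pool.Agent.P.MP_347bd1_pr.M

namespace Pool.Agent.P.MP_347bd1_pr.M

open Classical Finset Filter Topology
open scoped ENNReal NNReal

lemma gksw_prod (A M : Finset Pt) : chi A M = ∏ v ∈ M, if v ∈ A then (-1 : ℝ) else 1 := by
  rw [prod_ite, prod_const, prod_const, one_pow, mul_one, chi, filter_mem_eq_inter, inter_comm]

lemma gksw_comm (A M : Finset Pt) : chi A M = chi M A := by rw [chi, chi, inter_comm]

lemma gksw_mul (A B M : Finset Pt) : chi A M * chi B M = chi (symmDiff A B) M := by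
  rw [gksw_prod, gksw_prod, gksw_prod, ← prod_mul_distrib]
  refine prod_congr rfl fun v _ => ?_
  by_cases h : v ∈ A <;> by_cases h' : v ∈ B <;> simp [h, h', mem_symmDiff]

lemma gksw_mul' (A M N : Finset Pt) : chi A (symmDiff M N) = chi A M * chi A N := by
  rw [gksw_comm, ← gksw_mul, gksw_comm M, gksw_comm N]

lemma gksw_cases (A M : Finset Pt) : chi A M = 1 ∨ chi A M = -1 := neg_one_pow_eq_or ℝ _

lemma gksw_one {ι : Type} (V : Finset Pt) (K : Finset ι) (A : ι → Finset Pt) (α β : ι → ℝ)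
    (h : ∀ k ∈ K, 0 ≤ α k ∧ 0 ≤ β k) (B : Finset Pt) :
    0 ≤ ∑ M ∈ V.powerset, chi B M * ∏ k ∈ K, (α k + β k * chi (A k) M) := by
  induction K using Finset.induction_on generalizing B with
  | empty =>
    simp only [prod_empty, mul_one, gksw_prod]
    rw [← prod_one_add]
    exact prod_nonneg fun v _ => by split_ifs <;> norm_num
  | @insert k K hk ih =>
    have h1 := ih (fun j hj => h j (mem_insert_of_mem hj))
    have h2 := h k (mem_insert_self _ _)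
    refine le_of_le_of_eq (add_nonneg (mul_nonneg h2.1 (h1 B))
      (mul_nonneg h2.2 (h1 (symmDiff (A k) B)))) ?_
    rw [mul_sum, mul_sum, ← sum_add_distrib]
    refine sum_congr rfl fun M _ => ?_
    rw [prod_insert hk, ← gksw_mul]
    ring

theorem p_GKS :
    S_GKS := by
  intro ι V B K K' A t hK ht
  let s : ι → ℝ := fun k => if k ∈ K then t k else 0
  have hs : ∀ M, ∏ k ∈ K, (1 + t k * chi (A k) M) = ∏ k ∈ K', (1 + s k * chi (A k) M) := fun M => by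
    rw [← prod_subset hK fun k _ hk => by simp [s, hk]]
    exact prod_congr rfl fun k hk => by simp [s, hk]
  have hs' : ∀ k ∈ K', 0 ≤ s k ∧ s k ≤ t k := fun k hk => by
    have := ht k hk
    simp only [s]
    split_ifs <;> constructor <;> linarith [this.1]
  simp only [hs]
  rw [mul_comm, ← sub_nonneg, sum_mul_sum, sum_mul_sum, ← sum_sub_distrib]
  have key : ∀ M ∈ V.powerset,
      ∑ M' ∈ V.powerset, (chi B M * ∏ k ∈ K', (1 + t k * chi (A k) M)) *
          ∏ k ∈ K', (1 + s k * chi (A k) M') -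
        ∑ M' ∈ V.powerset, (∏ k ∈ K', (1 + t k * chi (A k) M)) *
          (chi B M' * ∏ k ∈ K', (1 + s k * chi (A k) M')) =
      ∑ N ∈ V.powerset, (1 - chi B N) * (chi B M * ∏ k ∈ K',
        ((1 + t k * s k * chi (A k) N) + (t k + s k * chi (A k) N) * chi (A k) M)) := by
    intro M hM
    have hm : ∀ N ∈ V.powerset, symmDiff M N ∈ V.powerset := fun N hN =>
      mem_powerset.2 (symmDiff_le_sup.trans (sup_le (mem_powerset.1 hM) (mem_powerset.1 hN)))
    rw [← sum_sub_distrib]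
    symm
    refine sum_nbij' (symmDiff M) (symmDiff M) hm hm (fun N _ => symmDiff_symmDiff_cancel_left M N)
      (fun N _ => symmDiff_symmDiff_cancel_left M N) fun N _ => ?_
    have e : ∏ k ∈ K', ((1 + t k * s k * chi (A k) N) + (t k + s k * chi (A k) N) * chi (A k) M) =
        (∏ k ∈ K', (1 + t k * chi (A k) M)) * ∏ k ∈ K', (1 + s k * chi (A k) (symmDiff M N)) := by
      rw [← prod_mul_distrib]
      refine prod_congr rfl fun k _ => ?_
      rw [gksw_mul']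
      rcases gksw_cases (A k) M with h | h <;> rw [h] <;> ring
    rw [e, gksw_mul' B]
    ring
  rw [sum_congr rfl key, sum_comm]
  refine sum_nonneg fun N _ => ?_
  rw [← mul_sum]
  refine mul_nonneg (by rcases gksw_cases B N with h | h <;> rw [h] <;> norm_num)
    (gksw_one V K' A _ _ (fun k hk => ?_) B)
  obtain ⟨h1, h2⟩ := ht k hk
  obtain ⟨h3, h4⟩ := hs' k hk
  rcases gksw_cases (A k) N with h | h <;> rw [h] <;> constructor <;> nlinarith

end Pool.Agent.P.MP_347bd1_pr.M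

namespace Pool.Agent.P.MP_347bd1_pr.M

open Classical Finset Filter Topology
open scoped ENNReal NNReal

noncomputable def dpoinw_c (C : Finset Edge) (x y : ℤ) : ℕ :=
  (C.filter fun e => e.2 = true ∧ e.1.1 = x ∧ e.1.2 ≤ y).card

noncomputable def dpoinw_i (C : Finset Edge) (e : Edge) : ℕ := if e ∈ C then 1 else 0

theorem dpoinw_up (C : Finset Edge) (x y : ℤ) :
    dpoinw_c C x (y + 1) = dpoinw_c C x y + dpoinw_i C ((x, y + 1), true) := by
  unfold dpoinw_c dpoinw_i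
  split_ifs with h
  · rw [← card_insert_of_notMem (a := ((x, y + 1), true)) (by simp)]
    congr 1
    ext ⟨⟨a, b⟩, c⟩
    simp only [mem_filter, mem_insert, Prod.mk.injEq]
    constructor
    · rintro ⟨h1, rfl, rfl, h4⟩
      rcases h4.eq_or_lt with rfl | h5
      · exact Or.inl ⟨⟨rfl, rfl⟩, rfl⟩
      · exact Or.inr ⟨h1, rfl, rfl, by omega⟩
    · rintro (⟨⟨rfl, rfl⟩, rfl⟩ | ⟨h1, h2, h3, h4⟩)
      · exact ⟨h, rfl, rfl, le_rfl⟩
      · exact ⟨h1, h2, h3, by omega⟩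
  · rw [add_zero]
    congr 1
    ext ⟨⟨a, b⟩, c⟩
    simp only [mem_filter]
    constructor
    · rintro ⟨h1, rfl, rfl, h4⟩
      rcases h4.eq_or_lt with rfl | h5
      · exact absurd h1 h
      · exact ⟨h1, rfl, rfl, by omega⟩
    · rintro ⟨h1, h2, h3, h4⟩
      exact ⟨h1, h2, h3, by omega⟩

theorem dpoinw_zero {n : ℕ} {C : Finset Edge} (hC : C ⊆ ebox n) {x y : ℤ}
    (h : x ≤ 0 ∨ (n : ℤ) ≤ x ∨ y ≤ 0) : dpoinw_c C x y = 0 := by
  unfold dpoinw_c
  rw [card_eq_zero, filter_eq_empty_iff]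
  rintro ⟨⟨a, b⟩, c⟩ he ⟨h1, h2, h3⟩
  have h4 := mem_ebox.1 (hC he)
  simp only at h1 h2 h3
  subst h1
  simp only [ea, eb, mem_box, if_true, Prod.fst_add, Prod.snd_add] at h4
  omega

theorem dpoinw_v {n : ℕ} {C : Finset Edge} (hC : C ⊆ ebox n) {x y : ℤ}
    (h : y ≤ 0 ∨ (n : ℤ) ≤ y) : dpoinw_i C ((x, y), false) = 0 := by
  refine if_neg fun he => ?_
  have h4 := mem_ebox.1 (hC he)
  simp only [ea, eb, mem_box, Bool.false_eq_true, if_false, Prod.fst_add, Prod.snd_add] at h4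
  omega

theorem dpoinw_h {n : ℕ} {C : Finset Edge} (hC : C ⊆ ebox n)
    (hev : ∀ w, Even (univ.filter fun d => inc w d ∈ C).card) (x y : ℤ) :
    (dpoinw_c C x y + dpoinw_c C (x + 1) y + dpoinw_i C ((x + 1, y), false)) % 2 = 0 := by
  rcases le_total y 0 with h | h
  · rw [dpoinw_zero hC (Or.inr (Or.inr h)), dpoinw_zero hC (Or.inr (Or.inr h)),
      dpoinw_v hC (Or.inl h)]
  · induction y, h using Int.leInduction with
    | base => rw [dpoinw_zero hC (Or.inr (Or.inr le_rfl)), dpoinw_zero hC (Or.inr (Or.inr le_rfl)),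
        dpoinw_v hC (Or.inl le_rfl)]
    | succ y _ ih =>
      have h1 := hev (x + 1, y + 1)
      have h2 : (univ.filter fun d => inc (x + 1, y + 1) d ∈ C).card =
          ∑ d, dpoinw_i C (inc (x + 1, y + 1) d) := by
        rw [card_filter]
        exact sum_congr rfl fun d _ => by unfold dpoinw_i; congr
      rw [h2, sum_dir, Nat.even_iff] at h1
      simp only [inc, add_sub_cancel_right] at h1
      rw [dpoinw_up, dpoinw_up]
      omega

theorem p_DPOIN :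
    S_DPOIN := by
  intro n C hC hev
  have key : ∀ (a b : ℕ) (e : Edge), (a + b + dpoinw_i C e) % 2 = 0 →
      (¬ (Odd a ↔ Odd b) ↔ e ∈ C) := by
    intro a b e h
    unfold dpoinw_i at h
    rw [Nat.odd_iff, Nat.odd_iff]
    split_ifs at h with h1
    · simp only [h1, iff_true]
      omega
    · simp only [h1, iff_false]
      omega
  refine ⟨fun p => Odd (dpoinw_c C p.1 p.2), ?_, ?_, fun _ => Iff.rfl⟩
  · rintro ⟨x, y⟩ d
    cases d
    · refine key _ _ _ ?_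
      simp only [Dir.vec, cr, Prod.mk_add_mk, add_zero]
      rw [dpoinw_up]
      omega
    · refine key _ _ _ ?_
      simp only [Dir.vec, cr, Prod.mk_add_mk, add_zero]
      exact dpoinw_h hC hev x y
    · refine key _ _ _ ?_
      simp only [Dir.vec, cr, Prod.mk_add_mk, add_zero]
      have h1 := dpoinw_up C x (y + -1)
      rw [neg_add_cancel_right] at h1
      omega
    · refine key _ _ _ ?_
      simp only [Dir.vec, cr, Prod.mk_add_mk, add_zero]
      have h1 := dpoinw_h hC hev (x + -1) y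
      rw [neg_add_cancel_right] at h1
      omega
  · rintro ⟨x, y⟩ hp
    rw [mem_intr] at hp
    simp only [Nat.not_odd_iff_even, Nat.even_iff]
    by_cases h : x ≤ 0 ∨ (n : ℤ) ≤ x ∨ y ≤ 0
    · rw [dpoinw_zero hC h]
    · have hy : (n : ℤ) ≤ y := by
        simp only at hp
        omega
      have hx : 0 ≤ x := by omega
      clear h hp
      induction x, hx using Int.leInduction with
      | base => rw [dpoinw_zero hC (Or.inl le_rfl)]
      | succ x _ ih =>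
        have h1 := dpoinw_h hC hev x y
        rw [dpoinw_v hC (Or.inr hy)] at h1
        omega

end Pool.Agent.P.MP_347bd1_pr.M
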