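import Pool.Agent.P.MP_347bd1_pr.M.Iface

/-! Steps THF, EXIT, STEP, PA, ARC. -/

set_option autoImplicit false

namespace Pool.Agent.P.MP_347bd1_pr.M

open Classical Finset Filter Topology
open scoped ENNReal NNReal

lemma thfw_face {a b : Pt} (h : nrm (a - b) ≤ 1) : ∃ v, Corner v a ∧ Corner v b := by
  rw [nrm_le_iff] at h
  simp only [Prod.fst_sub, Prod.snd_sub] at h
  refine ⟨(min a.1 b.1, min a.2 b.2), ?_, ?_⟩ <;> simp only [Corner] <;> omega

lemma thfw_out (g o : Pt) : ∃ y, nrm (g - y) ≤ 1 ∧ nrm (y - o) = nrm (g - o) + 1 := by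
  refine ⟨(if o.1 < g.1 then g.1 + 1 else g.1 - 1, if o.2 < g.2 then g.2 + 1 else g.2 - 1), ?_, ?_⟩
  · rw [nrm_le_iff]
    simp only [Prod.fst_sub, Prod.snd_sub]
    split_ifs <;> omega
  · simp only [nrm, Prod.fst_sub, Prod.snd_sub, abs_eq_max_neg]
    split_ifs <;> omega

lemma thfw_in {g o : Pt} {w : ℤ} (hw : 1 ≤ w) (h : nrm (g - o) ≤ w + 1) :
    ∃ t, nrm (g - t) ≤ 1 ∧ nrm (t - o) ≤ w := by
  refine ⟨(if o.1 < g.1 then g.1 - 1 else g.1 + 1, if o.2 < g.2 then g.2 - 1 else g.2 + 1), ?_, ?_⟩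
  all_goals
    rw [nrm_le_iff] at h ⊢
    simp only [Prod.fst_sub, Prod.snd_sub] at h ⊢
    split_ifs <;> omega

lemma thfw_cut {M : Finset Pt} {v a b : Pt} (ha : Corner v a) (hb : Corner v b) (h1 : a ∈ M)
    (h2 : b ∉ M) : ∃ d, cr v d ∈ cut M := by
  by_contra h
  simp only [not_exists, mem_cut, not_not] at h
  obtain ⟨x, y⟩ := v
  have k1 : (x, y + 1) ∈ M ↔ (x + 1, y + 1) ∈ M := by simpa [cr, ea, eb] using h .N
  have k2 : (x, y) ∈ M ↔ (x + 1, y) ∈ M := by simpa [cr, ea, eb] using h .S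
  have k3 : (x, y) ∈ M ↔ (x, y + 1) ∈ M := by simpa [cr, ea, eb] using h .W
  obtain ⟨a1, a2⟩ := a
  obtain ⟨b1, b2⟩ := b
  obtain ⟨rfl | rfl, rfl | rfl⟩ : (a1 = x ∨ a1 = x + 1) ∧ (a2 = y ∨ a2 = y + 1) := ha <;>
    obtain ⟨e | e, e' | e'⟩ : (b1 = _ ∨ b1 = _) ∧ (b2 = _ ∨ b2 = _) := hb <;>
    simp only at e e' <;> rw [e, e'] at h2 <;> grind

lemma thfw_ball (c : Pt) (r : ℤ) : ∀ a ∈ ball c r, ∀ b ∈ ball c r, NPath (ball c r) a b := by
  intro a ha b hb
  generalize hk : (a.1 - b.1).natAbs + (a.2 - b.2).natAbs = k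
  induction k generalizing a with
  | zero =>
    obtain rfl : a = b := Prod.ext (by omega) (by omega)
    exact Relation.ReflTransGen.refl
  | succ k ih =>
    have : ∃ d : Dir, a + d.vec ∈ ball c r ∧
        ((a + d.vec).1 - b.1).natAbs + ((a + d.vec).2 - b.2).natAbs = k := by
      simp only [mem_ball, nrm_le_iff, Prod.fst_sub, Prod.snd_sub, Prod.fst_add, Prod.snd_add]
        at ha hb ⊢
      rcases lt_trichotomy a.1 b.1 with h | h | h
      · exact ⟨.E, by simp only [Dir.vec]; omega⟩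
      · rcases lt_or_ge a.2 b.2 with h' | h'
        · exact ⟨.N, by simp only [Dir.vec]; omega⟩
        · exact ⟨.S, by simp only [Dir.vec]; omega⟩
      · exact ⟨.W, by simp only [Dir.vec]; omega⟩
    obtain ⟨d, h1, h2⟩ := this
    exact Relation.ReflTransGen.head ⟨⟨d, rfl⟩, h1⟩ (ih _ h1 h2)

/-- A property of plaquettes that passes through the edges at `G` holds all around `G`. -/
lemma thfw_round {G : Finset Pt} {P : Pt → Prop}
    (h : ∀ v d, cr v d ∈ einc G → P v → P (v + d.vec)) (hG : ∀ a ∈ G, ∀ b ∈ G, NPath G a b)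
    {g v : Pt} (hg : g ∈ G) (hv : Corner v g) (hP : P v) : ∀ a ∈ G, ∀ u, Corner u a → P u := by
  have h' : ∀ v d, cr v d ∈ einc G → (P v ↔ P (v + d.vec)) := fun v d k =>
    ⟨h v d k, fun m => by simpa using h _ d.opp (by rwa [cr_opp]) m⟩
  have one : ∀ a ∈ G, ∀ u u', Corner u a → Corner u' a → P u → P u' := by
    rintro ⟨x, y⟩ ha u u' hu hu' hp
    have k1 : P (x - 1, y) ↔ P (x, y) := by
      simpa [Dir.vec] using h' (x - 1, y) .E (mem_einc.2 (Or.inl (by simpa [cr, ea] using ha)))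
    have k2 : P (x - 1, y - 1) ↔ P (x - 1, y) := by
      simpa [Dir.vec] using h' (x - 1, y - 1) .N
        (mem_einc.2 (Or.inr (by simpa [cr, eb] using ha)))
    have k3 : P (x, y - 1) ↔ P (x, y) := by
      simpa [Dir.vec] using h' (x, y - 1) .N (mem_einc.2 (Or.inl (by simpa [cr, ea] using ha)))
    have k4 : ∀ u, Corner u (x, y) → (P u ↔ P (x, y)) := by
      rintro ⟨u1, u2⟩ hu
      simp only [Corner] at hu
      obtain ⟨rfl | rfl, rfl | rfl⟩ : (u1 = x ∨ u1 = x - 1) ∧ (u2 = y ∨ u2 = y - 1) := by omega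
      exacts [Iff.rfl, k3, k1, k2.trans k1]
    exact (k4 u' hu').2 ((k4 u hu).1 hp)
  intro a ha
  have : a ∈ G ∧ ∀ u, Corner u a → P u := by
    have := hG g hg a ha
    clear ha
    induction this with
    | refl => exact ⟨hg, fun u hu => one g hg v u hv hu hP⟩
    | @tail b c _ k ih =>
      obtain ⟨u', h1, h2⟩ := thfw_face (a := b) (b := c) k.1.star.le
      exact ⟨k.2, fun u hu => one c k.2 u' u h2 hu (ih.2 u' h1)⟩
  exact this.2

/-- The maximum principle on a ball. -/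
lemma thfw_max (N : Net) (u : Pt → ℝ) (o : Pt) (R : ℤ) (B : ℝ) (hB : 0 ≤ B)
    (h1 : ∀ z, nrm (z - o) < R → 0 < u z →
      u z ≤ N.Pr u z ∨ ∃ y, nrm (y - o) ≤ R ∧ u z < u y)
    (h2 : ∀ z, nrm (z - o) = R → u z ≤ B) : ∀ z, nrm (z - o) ≤ R → u z ≤ B := by
  intro z0 hz0
  obtain ⟨z, hz, hm⟩ := exists_max_image (ball o R) (fun z => toLex (u z, z.1))
    ⟨z0, mem_ball.2 hz0⟩
  have h3 : ∀ y, nrm (y - o) ≤ R → u y ≤ u z := fun y hy => by
    rcases Prod.Lex.toLex_le_toLex.1 (hm y (mem_ball.2 hy)) with k | k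
    exacts [k.le, k.1.le]
  refine (h3 z0 hz0).trans (not_lt.1 fun k => ?_)
  have h4 : nrm (z - o) < R := (mem_ball.1 hz).lt_of_ne fun e => k.not_ge (h2 z e)
  have h5 : ∀ d : Dir, nrm (z + d.vec - o) ≤ R := fun d => by
    have := (nrm_step z o d).1
    omega
  rcases h1 z h4 (hB.trans_lt k) with m | ⟨y, hy, m⟩
  · have h6 : N.Pr u z < ∑ _d : Dir, u z / 4 := by
      refine sum_lt_sum (fun d _ => ?_) ⟨.E, mem_univ _, ?_⟩
      · split_ifs
        · linarith [h3 _ (h5 d)]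
        · linarith
      · split_ifs
        · rcases Prod.Lex.toLex_le_toLex.1 (hm _ (mem_ball.2 (h5 .E))) with k | k
          · linarith [show u (z + Dir.E.vec) < u z from k]
          · have := k.2
            simp [Dir.vec] at this
        · linarith
    rw [sum_dir] at h6
    linarith
  · exact m.not_ge (h3 y hy)

/-- The network of sites with the active edges `F`. -/
def thfw_net (F : Finset Edge) : Net where
  mv y d := inc y d ∈ F
  st _ _ := False
  symm p d h := by rwa [inc_opp]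
  disj _ _ _ := id

theorem p_THF (hKC1 : S_KC1) (hSTEP : S_STEP) (hKC : S_KC) (hSIGNS : S_SIGNS) (hABEUR : S_ABEUR) (hFIL : S_FIL) :
    S_THF := by
  obtain ⟨c0, c1, c2, K0, hK0, hA⟩ := hABEUR
  refine ⟨10 * K0 + 2, by omega, c0 / 4, by positivity, fun w ρ G o hw hρ ho hG => ?_⟩
  have k1 : (2 : ℤ) * w ≤ K0 * w := by exact_mod_cast Nat.mul_le_mul_right w hK0
  have k2 : 10 * ((K0 : ℤ) * w) + 2 * w ≤ ρ := by
    have : ((10 * K0 + 2 : ℕ) : ℤ) * w ≤ ρ := by exact_mod_cast hρ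
    push_cast at this
    linarith
  have k3 : (1 : ℤ) ≤ w := by exact_mod_cast hw
  set n := 2 * ρ + 1 with hn
  set U := Uf o w ρ G with hU
  have mU : ∀ {z}, z ∈ U ↔ w < nrm (z - o) ∧ nrm (z - o) < ρ ∧ z ∉ G := fun {z} => by
    simp only [hU, Uf, Finset.mem_sdiff, mem_union, mem_ball]
    constructor
    · exact fun h => ⟨by by_contra k; exact h.2 (Or.inl (by omega)), by omega,
        fun k => h.2 (Or.inr k)⟩
    · exact fun h => ⟨by omega, fun k => k.elim (by omega) h.2.2⟩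
  have mB : ∀ {z}, z ∈ box n ↔ nrm (z - o) ≤ ρ := fun {z} => by
    simp only [mem_box, nrm_le_iff, ho, hn, Prod.fst_sub, Prod.snd_sub]
    omega
  have mR : ∀ {z}, z ∈ ring n ↔ nrm (z - o) = ρ := fun {z} => by
    simp only [mem_ring, mem_box, OnRing, nrm, abs_eq_max_neg, ho, hn, Prod.fst_sub, Prod.snd_sub]
    omega
  have mUG : ∀ {z}, z ∈ U ∪ G ↔ w < nrm (z - o) ∧ nrm (z - o) < ρ := fun {z} => by
    rw [mem_union, mU]
    have := hG.sub z
    grind
  have hE : einc (U ∪ G) ⊆ eS n (ring n) := fun e he => by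
    rw [eS_ring, mem_einc, Finset.mem_sdiff, Finset.mem_sdiff, mB, mB, mR, mR]
    rw [mem_einc, mUG, mUG] at he
    omega
  have hD : einc G ⊆ einc (U ∪ G) := fun e he =>
    mem_einc.2 ((mem_einc.1 he).imp (mem_union_right U) (mem_union_right U))
  have hT : NoTop n (einc (U ∪ G)) := fun e he => by
    simp only [mem_einc, mUG, nrm_lt_iff, ho, Prod.fst_sub, Prod.snd_sub] at he
    omega
  have hR : ∀ y, nrm (y - o) = ρ → TopConn n (einc (U ∪ G)) y := fun y hy =>
    ((good_ring (n := n) (p := (1, 1)) (by rw [mem_intr]; simp only; omega) rfl).conn y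
      (mR.2 hy)).mono (hE.trans subset_union_left)
  obtain ⟨g1, hg1, e1⟩ := hG.out
  obtain ⟨y1, a1, a2⟩ := thfw_out g1 o
  obtain ⟨v1, a3, a4⟩ := thfw_face a1
  obtain ⟨g0, hg0, e0⟩ := hG.inn
  obtain ⟨t0, b1, b2⟩ := thfw_in k3 e0.le
  obtain ⟨v0, b3, b4⟩ := thfw_face b1
  obtain ⟨f1, -, -, -, f2, -⟩ := hKC1 n (einc (U ∪ G)) (einc G)
  have hF := f1 {v1}
  have hm : ∀ t ∈ ball o w, _ := fun t ht => hFIL n U G (ball o w) t v1 (by omega)
    (disjoint_left.2 fun z h => (mU.1 h).2.2)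
    (disjoint_left.2 fun z h k => (mU.1 h).1.not_ge (mem_ball.1 k))
    (disjoint_left.2 fun z h k => (hG.sub z h).1.not_ge (mem_ball.1 k))
    (by
      ext z
      rw [mem_union, mUG, mem_ball, Finset.mem_sdiff, mB, mR]
      omega) ht (thfw_ball o w) fun a ha d => by
      have := (nrm_step a o d).1
      rw [mem_ball] at ha
      rw [mR]
      omega
  replace f2 := f2 v1
  generalize Xw n {v1} (einc (U ∪ G)) (einc G) = X at hF hm f2
  obtain ⟨Hp, Hs, q1, -, q2, q3, q4, -, q5⟩ := hKC n _ _ _ X hF (hE.trans (eS_subset _ _)) hT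
  have hP : ∀ a ∈ G, ∀ v, Corner v a → Hp v = 1 ∧ ∀ Γ, X v Γ ^ 2 = X v1 Γ ^ 2 := by
    refine thfw_round (fun v d h k => ⟨(q4 v d (hD h) h).trans k.1, fun Γ => ?_⟩) hG.conn hg1 a3
      ⟨?_, fun _ => rfl⟩
    · rw [hF.del v Γ d (hD h) h, ← k.2 Γ]
      split_ifs <;> ring
    · have := hR y1 (by omega)
      rw [q1 y1 this.mem_box v1 a4, (q3 y1 this).1, (q3 y1 this).2, f2]
      ring
  have ho' : o ∈ ball o w := mem_ball.2 (by simp)
  have hc : ∀ t ∈ ball o w, Hs t = Hs o := fun t ht => by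
    have : t ∈ ball o w ∧ Hs t = Hs o := by
      have := thfw_ball o w o ho' t ht
      clear ht
      induction this with
      | refl => exact ⟨ho', rfl⟩
      | @tail b c _ k ih =>
        obtain ⟨⟨d, rfl⟩, k⟩ := k
        refine ⟨k, (q2 b d ?_ ?_).trans ih.2⟩
        · have := mem_ball.1 ih.1
          have := mem_ball.1 k
          rw [inc_mem_ebox, mB, mB]
          omega
        · have := mem_ball.1 ih.1
          have := mem_ball.1 k
          rw [inc_mem_einc, mUG, mUG]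
          omega
    exact this.2
  set Zp := Zf (einc U \ einc G) U ∅ fun _ => True
  set Zm := Zf (einc U \ einc G) U (ball o w) fun _ => True
  have z1 : 0 < Zp := Zf_pos
  have z2 : 0 < Zm := Zf_pos
  have hm0 : 1 - Hs o = X v1 (ray n o) ^ 2 := by
    have := q1 t0 (mB.2 (by omega)) v0 b4
    rw [(hP g0 hg0 v0 b3).1, (hP g0 hg0 v0 b3).2, hc t0 (mem_ball.2 b2), mul_right_cancel₀
      (add_pos z1 z2).ne' ((hm t0 (mem_ball.2 b2)).trans (hm o ho').symm)] at this
    linarith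
  let u : Pt → ℝ := fun y => if y ∈ G then 0 else max (1 - Hs y) 0
  have u0 : ∀ y, 0 ≤ u y := fun y => by
    simp only [u]
    split_ifs
    exacts [le_rfl, le_max_right _ _]
  have u1 : ∀ y, y ∉ G → 1 - Hs y ≤ u y := fun y h => by
    simp only [u, if_neg h]
    exact le_max_left _ _
  have u2 : ∀ y, 0 < u y → y ∉ G ∧ u y = 1 - Hs y := fun y h => by
    simp only [u] at h ⊢
    split_ifs at h ⊢ with k
    · exact absurd h (lt_irrefl _)
    · exact ⟨k, max_eq_left ((lt_max_iff.1 h).resolve_right (lt_irrefl _)).le⟩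
  have sub : ∀ z, (w : ℤ) < nrm (z - o) → nrm (z - o) < ρ →
      u z ≤ (thfw_net (einc U \ einc G)).Pr u z := fun z h1 h2 => by
    rcases (u0 z).eq_or_lt with h | h
    · rw [← h]
      exact Net.Pr_nonneg u0 z
    obtain ⟨h3, h4⟩ := u2 z h
    have h5 : z ∈ U := mU.2 ⟨h1, h2, h3⟩
    have h6 := q5 z 1 (fun d => inc_mem_einc.2 (Or.inl (mem_union_left G h5)))
      fun v d d' e k => by
        rw [← e] at k
        exact (mem_einc.1 k).elim (fun m => (hP _ m v (corner_cr v d).1).1)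
          fun m => (hP _ m v (corner_cr v d).2).1
    rw [← h4] at h6
    have h7 : (∑ d, if inc z d ∈ einc G then xc ^ 2 * u z else 1 - Hs (z + d.vec)) ≤
        4 * (thfw_net (einc U \ einc G)).Pr u z := by
      rw [Net.Pr, mul_sum]
      refine sum_le_sum fun d _ => ?_
      by_cases m : inc z d ∈ einc G
      · rw [if_pos m, if_neg (c := (thfw_net (einc U \ einc G)).mv z d)
          fun k => (Finset.mem_sdiff.1 k).2 m]
        have : xc ^ 2 ≤ 1 / 4 := by nlinarith [xc_pos, xc_lt_half]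
        nlinarith
      · rw [if_neg m, if_pos (c := (thfw_net (einc U \ einc G)).mv z d)
          (Finset.mem_sdiff.2 ⟨inc_mem_einc.2 (Or.inl h5), m⟩)]
        linarith [u1 (z + d.vec) fun k => m (inc_mem_einc.2 (Or.inr k))]
    linarith
  have mx : ∀ (R : ℤ) (B : ℝ), w < R → R ≤ ρ → 0 ≤ B → (∀ z, nrm (z - o) = R → u z ≤ B) →
      ∀ z, nrm (z - o) ≤ R → u z ≤ B := fun R B r1 r2 hB =>
    thfw_max (thfw_net (einc U \ einc G)) u o R B hB fun z h1 h2 => by
      by_cases h3 : (w : ℤ) < nrm (z - o)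
      · exact Or.inl (sub z h3 (by omega))
      have h4 := (u2 z h2).2
      rw [hc z (mem_ball.2 (not_lt.1 h3))] at h4
      obtain ⟨d0, hd⟩ := thfw_cut b4 b3 (mem_ball.2 b2) (by rw [mem_ball]; omega)
      obtain ⟨t, t1, d, -, t2, t3⟩ := hSIGNS n _ _ _ X Hp Hs o w hF hT q1
        (fun y hy => mB.2 (by have := mem_ball.1 hy; omega))
        (fun e m1 m2 => by
          rw [mem_ball] at m1 m2
          rw [mem_einc, mUG, mUG]
          omega)
        (fun e he => by
          obtain ⟨d, -, m⟩ := exists_inc e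
          have := nrm_step (ea e) o d
          rw [← m] at this
          rw [mem_cut, mem_ball, mem_ball] at he
          rw [mem_einc, mUG, mUG]
          omega)
        ⟨v0, d0, hd, fun m => by
          have := (hP g0 hg0 v0 b3).2 (ray n o)
          rw [m, ← hm0] at this
          linarith⟩
      have := (nrm_step t o d).1
      have := mem_ball.1 t1
      refine Or.inr ⟨t + d.vec, by omega, ?_⟩
      linarith [u1 (t + d.vec) fun k => t2 (inc_mem_einc.2 (Or.inr k)), hc t t1]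
  have b5 : ∀ z, nrm (z - o) ≤ ρ → u z ≤ 1 := mx ρ 1 (by omega) le_rfl zero_le_one fun z h => by
    rcases (u0 z).eq_or_lt with k | k
    · linarith
    · rw [(u2 z k).2, (q3 z (hR z h)).1, sub_zero]
  have b6 := hA (thfw_net (einc U \ einc G)) u o w 1 hw zero_le_one
    (fun l l1 l2 => by
      obtain ⟨g, m1, m2⟩ := (hG.conn g0 hg0 g1 hg1).ivt hg0 o (l := l) (by omega) (by omega)
      exact ⟨g, .N, m2, fun k => (Finset.mem_sdiff.1 k).2 (inc_mem_einc.2 (Or.inl m1))⟩)
    (fun z h1 h2 => sub z h1 (by omega)) fun z h => b5 z (by omega)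
  have b7 := mx (K0 * w) _ (by omega) (by omega) (by linarith) b6 o (by simp; omega)
  have b8 := u1 o fun k => by
    have := (hG.sub o k).1
    simp at this
    omega
  have b9 := hm o ho'
  have : X v1 (ray n o) ≤ 1 - c0 / 2 := by
    by_contra k
    nlinarith
  nlinarith [mul_le_mul_of_nonneg_right this (add_pos z1 z2).le, mul_pos c1 z2]

end Pool.Agent.P.MP_347bd1_pr.M

namespace Pool.Agent.P.MP_347bd1_pr.M

open Classical Finset Filter Topology
open scoped ENNReal NNReal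

theorem exitw_h {n : ℕ} {x y : ℤ} :
    Inner n ((x, y), true) ↔ 1 ≤ x ∧ x + 1 ≤ n ∧ 2 ≤ y ∧ y + 1 ≤ n := by
  constructor
  · rintro ⟨⟨a, b⟩, d, h, h1, h2⟩
    rw [mem_intr] at h1 h2
    cases d <;> simp [cr, Dir.vec, Prod.ext_iff] at h h1 h2 <;> omega
  · intro h
    exact ⟨(x, y), .S, rfl, by rw [mem_intr]; simp only; omega, by
      rw [mem_intr]; simp [Dir.vec]; omega⟩

theorem exitw_v {n : ℕ} {x y : ℤ} :
    Inner n ((x, y), false) ↔ 2 ≤ x ∧ x + 1 ≤ n ∧ 1 ≤ y ∧ y + 1 ≤ n := by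
  constructor
  · rintro ⟨⟨a, b⟩, d, h, h1, h2⟩
    rw [mem_intr] at h1 h2
    cases d <;> simp [cr, Dir.vec, Prod.ext_iff] at h h1 h2 <;> omega
  · intro h
    exact ⟨(x, y), .W, rfl, by rw [mem_intr]; simp only; omega, by
      rw [mem_intr]; simp [Dir.vec]; omega⟩

/-- The boundary edges other than `e0`. -/
noncomputable def exitw_F (n : ℕ) (e0 : Edge) : Finset Edge :=
  (ebox n).filter fun e => ¬ Inner n e ∧ e ≠ e0

theorem exitw_col {n : ℕ} {e0 : Edge} {x y : ℤ} (hx : x = 1 ∨ x = n) (hy : 1 ≤ y) (k : ℕ)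
    (hk : y + k ≤ n) (h : ∀ j, y ≤ j → j < y + k → ((x, j), false) ≠ e0) :
    Conn (exitw_F n e0) (x, y) (x, y + k) := by
  induction k with
  | zero => rw [Nat.cast_zero, add_zero]; exact Relation.ReflTransGen.refl
  | succ k ih =>
    push_cast at hk h ⊢
    refine Relation.ReflTransGen.tail (ih (by omega) fun j a b => h j a (by omega))
      ⟨.N, mem_filter.2 ⟨?_, ?_, h _ (by omega) (by omega)⟩, by simp [Dir.vec, add_assoc]⟩
    · rw [inc_mem_ebox, mem_box, mem_box]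
      simp [Dir.vec]
      omega
    · change ¬ Inner n ((x, y + k), false)
      rw [exitw_v]
      omega

theorem exitw_row {n : ℕ} {e0 : Edge} {x : ℤ} (hx : 1 ≤ x) (k : ℕ)
    (hk : x + k ≤ n) (h : ∀ j, x ≤ j → j < x + k → ((j, 1), true) ≠ e0) :
    Conn (exitw_F n e0) (x, 1) (x + k, 1) := by
  induction k with
  | zero => rw [Nat.cast_zero, add_zero]; exact Relation.ReflTransGen.refl
  | succ k ih =>
    push_cast at hk h ⊢
    refine Relation.ReflTransGen.tail (ih (by omega) fun j a b => h j a (by omega))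
      ⟨.E, mem_filter.2 ⟨?_, ?_, h _ (by omega) (by omega)⟩, by simp [Dir.vec, add_assoc]⟩
    · rw [inc_mem_ebox, mem_box, mem_box]
      simp [Dir.vec]
      omega
    · change ¬ Inner n ((x + k, 1), true)
      rw [exitw_h]
      omega

theorem exitw_col' {n : ℕ} {e0 : Edge} {x y y' : ℤ} (hx : x = 1 ∨ x = n) (hy : 1 ≤ y)
    (h1 : y ≤ y') (h2 : y' ≤ n) (h : ∀ j, y ≤ j → j < y' → ((x, j), false) ≠ e0) :
    Conn (exitw_F n e0) (x, y) (x, y') := by
  obtain ⟨k, rfl⟩ : ∃ k : ℕ, y' = y + k := ⟨(y' - y).toNat, by omega⟩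
  exact exitw_col hx hy k h2 h

theorem exitw_row' {n : ℕ} {e0 : Edge} {x x' : ℤ} (hx : 1 ≤ x)
    (h1 : x ≤ x') (h2 : x' ≤ n) (h : ∀ j, x ≤ j → j < x' → ((j, 1), true) ≠ e0) :
    Conn (exitw_F n e0) (x, 1) (x', 1) := by
  obtain ⟨k, rfl⟩ : ∃ k : ℕ, x' = x + k := ⟨(x' - x).toNat, by omega⟩
  exact exitw_row hx k h2 h

/-- Both ends of a boundary edge are joined to the top row by other boundary edges. -/
theorem exitw_ring {n : ℕ} {e0 : Edge} (h0 : e0 ∈ ebox n) (h1 : ¬ Inner n e0)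
    (h2 : (ea e0).2 ≠ n) (c : Pt) (hc : c = ea e0 ∨ c = eb e0) :
    ∃ t ∈ box n, t.2 = n ∧ Conn (exitw_F n e0) c t := by
  obtain ⟨⟨x, y⟩, _ | _⟩ := e0
  · rw [exitw_v] at h1
    rw [mem_ebox, mem_box, mem_box] at h0
    simp [ea, eb] at h0 h2 hc
    have hx : x = 1 ∨ x = n := by omega
    rcases hc with rfl | rfl
    · have a1 : Conn (exitw_F n ((x, y), false)) (x, 1) (x, y) :=
        exitw_col' hx le_rfl (by omega) (by omega) fun j _ _ => by simp; omega
      have a2 : Conn (exitw_F n ((x, y), false)) (1, 1) (n, 1) :=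
        exitw_row' le_rfl (by omega) le_rfl fun j _ _ => by simp
      rcases hx with rfl | rfl
      · exact ⟨(n, n), by rw [mem_box]; simp only; omega, rfl, (a1.symm.trans a2).trans
          (exitw_col' (.inr rfl) le_rfl (by omega) le_rfl fun j _ _ => by simp; omega)⟩
      · exact ⟨(1, n), by rw [mem_box]; simp only; omega, rfl, (a1.symm.trans a2.symm).trans
          (exitw_col' (.inl rfl) le_rfl (by omega) le_rfl fun j _ _ => by simp; omega)⟩
    · exact ⟨(x, n), by rw [mem_box]; simp only; omega, rfl,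
        exitw_col' hx (by omega) (by omega) le_rfl fun j _ _ => by simp; omega⟩
  · rw [exitw_h] at h1
    rw [mem_ebox, mem_box, mem_box] at h0
    simp [ea, eb] at h0 h2 hc
    obtain rfl : y = 1 := by omega
    rcases hc with rfl | rfl
    · exact ⟨(1, n), by rw [mem_box]; simp only; omega, rfl,
        (exitw_row' le_rfl (by omega) (by omega) fun j _ _ => by simp; omega).symm.trans
          (exitw_col' (.inl rfl) le_rfl (by omega) le_rfl fun j _ _ => by simp)⟩
    · exact ⟨(n, n), by rw [mem_box]; simp only; omega, rfl,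
        (exitw_row' (by omega) (by omega) le_rfl fun j _ _ => by simp; omega).trans
          (exitw_col' (.inr rfl) le_rfl (by omega) le_rfl fun j _ _ => by simp)⟩

/-- A step along `F` that starts outside `S`. -/
def exitw_R (F : Finset Edge) (S : Finset Pt) (u w : Pt) : Prop :=
  u ∉ S ∧ ∃ d, inc u d ∈ F ∧ w = u + d.vec

/-- The edges explored from `c`. -/
noncomputable def exitw_Z (F : Finset Edge) (S : Finset Pt) (c : Pt) : Finset Edge :=
  F.filter fun e => ∃ u d, Relation.ReflTransGen (exitw_R F S) c u ∧ u ∉ S ∧ inc u d = e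

theorem exitw_hit {F : Finset Edge} {S : Finset Pt} {c t : Pt} (h : Conn F c t) (ht : t ∈ S) :
    ∃ s ∈ S, Conn (exitw_Z F S c) c s := by
  have h1 : ∃ s ∈ S, Relation.ReflTransGen (exitw_R F S) c s := by
    induction h using Relation.ReflTransGen.head_induction_on with
    | refl => exact ⟨t, ht, .refl⟩
    | @head a b k _ ih =>
      by_cases ha : a ∈ S
      · exact ⟨a, ha, .refl⟩
      · obtain ⟨s, hs, k'⟩ := ih
        exact ⟨s, hs, .head ⟨ha, k⟩ k'⟩
  obtain ⟨s, hs, k⟩ := h1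
  refine ⟨s, hs, ?_⟩
  clear hs
  induction k with
  | refl => exact .refl
  | @tail u w k1 k2 ih =>
    obtain ⟨k3, d, k4, k5⟩ := k2
    exact ih.tail ⟨d, mem_filter.2 ⟨k4, u, d, k1, k3, rfl⟩, k5⟩

theorem exitw_end {e : Edge} {u : Pt} {d : Dir} (h : inc u d = e) (A : Pt → Prop) :
    A (ea e) ∨ A (eb e) ↔ A u ∨ A (u + d.vec) := by
  subst h
  rcases ends_inc u d with k | k <;> rw [k.1, k.2]
  exact or_comm

theorem p_EXIT :
    S_EXIT := by
  intro n S T Lf Rg va vb e0 hs hLf hT hTi h0 h0i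
  by_cases hS : ea e0 ∈ S ∨ eb e0 ∈ S
  · rcases hS with hS | hS
    · exact ⟨∅, empty_subset _, _, .inl rfl, ⟨_, hS, .refl⟩,
        fun _ _ _ _ _ _ _ => disjoint_empty_left _⟩
    · exact ⟨∅, empty_subset _, _, .inr rfl, ⟨_, hS, .refl⟩,
        fun _ _ _ _ _ _ _ => disjoint_empty_left _⟩
  have h0b := eS_subset n S h0
  have ha := (mem_ebox.1 h0b).1
  set F := exitw_F n e0 with hF
  have hit : ∀ c, c = ea e0 ∨ c = eb e0 → ∃ s ∈ S, Conn (exitw_Z F S c) c s := fun c hc => by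
    obtain ⟨t, t1, t2, t3⟩ := exitw_ring h0b h0i (fun k => hS (.inl (hs.good.top _ ha k))) c hc
    exact exitw_hit t3 (hs.good.top t t1 t2)
  have sub : ∀ c, exitw_Z F S c ⊆ ebox n := fun c =>
    (filter_subset _ _).trans (filter_subset _ _)
  have noS : ∀ u d, u ∉ S → u + Dir.vec d ∉ S → inc u d ∉ Lf := fun u d k1 k2 k =>
    ((exitw_end rfl (· ∈ S \ T)).1 (hs.lf _ k).2).elim (fun m => k1 (mem_sdiff.1 m).1)
      fun m => k2 (mem_sdiff.1 m).1
  have key : ∀ P O, Valid n S Lf Rg P → O ⊆ eS n S \ Dl n Lf P → Src n O {vb} → e0 ∈ O →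
      (∀ e ∈ O, e ≠ e0 → Inner n e) → ∃ D0 : Finset Pt, ¬ (ea e0 ∈ D0 ↔ eb e0 ∈ D0) ∧
        ∀ c, c = ea e0 ∨ c = eb e0 → (c ∈ D0 → ¬ Disjoint (exitw_Z F S c) Lf) ∧
          (c ∉ D0 → Disjoint (exitw_Z F S c) (Dl n Lf P)) := by
    intro P O hP hO hOs hO0 hOi
    set η := symmDiff (symmDiff O (cut T ∩ eS n S)) Lf with hη
    have η1 : η ⊆ eS n S := symmDiff_subset_union.trans (union_subset
      (symmDiff_subset_union.trans (union_subset (hO.trans sdiff_subset) inter_subset_right))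
      fun e he => (hs.lf e he).1)
    have η2 : Src n η ∅ := ((hOs.symmDiff hT).symmDiff hLf).congr fun p _ => by
      simp only [Set.mem_symmDiff, Set.mem_singleton_iff, Set.mem_empty_iff_false]
      grind
    obtain ⟨D0, -, hD, hD1⟩ := t_poin n η (η1.trans (eS_subset n S)) η2
    have hc : ∀ e ∈ ebox n, (e ∈ cut D0 ↔ e ∈ η) := fun e he => by
      rw [← hD, mem_inter]
      exact ⟨fun k => ⟨k, he⟩, fun k => k.1⟩
    have η3 : ∀ e, e ∉ O → e ∉ cut T ∩ eS n S → (e ∈ η ↔ e ∈ Lf) := fun e k1 k2 => by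
      have k3 : e ∉ symmDiff O (cut T ∩ eS n S) := fun m =>
        (mem_symmDiff.1 m).elim (fun z => k1 z.1) fun z => k2 z.1
      exact ⟨fun m => (mem_symmDiff.1 m).elim (fun z => absurd z.1 k3) fun z => z.1,
        fun m => mem_symmDiff.2 (.inr ⟨m, k3⟩)⟩
    have hFη : ∀ e ∈ F, (e ∈ cut D0 ↔ e ∈ Lf) := fun e he => by
      obtain ⟨k1, k2, k3⟩ := mem_filter.1 he
      rw [hc e k1, η3 e (fun m => k2 (hOi e m k3)) fun m => k2 (hTi e m)]
    have h1n : ((1 : ℤ), (n : ℤ)) ∈ box n := by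
      rw [mem_box] at ha ⊢
      simp only
      omega
    have hSD : ∀ w ∈ S, w ∉ D0 := fun w hw k => hD1 ((nig_conn (fun e he m => by
      obtain ⟨k1, k2⟩ := mem_sdiff.1 he
      exact k2 (mem_union_left _ (η1 ((hc e k1).1 m))))
      (conn_of_topConn hs.good.eS_top (topConn_top _ h1n rfl) (hs.good.conn w hw))).2 k)
    have hPS : ∀ u ∈ P, u ∉ S := fun u hu => (mem_sdiff.1 (hP.sub hu)).2
    have hPD : ∀ u ∈ P, u ∈ D0 := by
      intro u hu
      obtain ⟨u0, k0, ⟨d, k1⟩, k2⟩ := hP.conn u hu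
      have k3 : u0 + d.vec ∈ S \ T := ((exitw_end rfl (· ∈ S \ T)).1 (hs.lf _ k1).2).resolve_left
        fun m => hPS u0 k0 (mem_sdiff.1 m).1
      have k4 : inc u0 d ∈ cut D0 := by
        rw [hc _ (eS_subset n S (hs.lf _ k1).1), η3 _
          (fun m => (mem_sdiff.1 (hO m)).2 (mem_union_left _ k1)) fun m =>
            inc_mem_cut.1 (mem_inter.1 m).1
              (iff_of_false (fun z => hPS u0 k0 (hs.hT z)) (mem_sdiff.1 k3).2)]
        exact k1
      have k5 : u0 ∈ D0 := by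
        by_contra m
        exact inc_mem_cut.1 k4 (iff_of_false m (hSD _ (mem_sdiff.1 k3).1))
      suffices u ∈ P ∧ u ∈ D0 from this.2
      clear hu
      induction k2 with
      | refl => exact ⟨k0, k5⟩
      | @tail a b _ k ih =>
        obtain ⟨⟨d', rfl⟩, k6⟩ := k
        have k7 : inc a d' ∈ ebox n :=
          inc_mem_ebox.2 ⟨(mem_sdiff.1 (hP.sub ih.1)).1, (mem_sdiff.1 (hP.sub k6)).1⟩
        have k8 : inc a d' ∉ cut D0 := by
          rw [hc _ k7, η3 _ (fun m => (mem_sdiff.1 (hO m)).2 (mem_union_right _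
            (mem_inter.2 ⟨inc_mem_einc.2 (.inl ih.1), k7⟩))) fun m =>
              inc_mem_cut.1 (mem_inter.1 m).1
                (iff_of_false (fun z => hPS _ ih.1 (hs.hT z)) fun z => hPS _ k6 (hs.hT z))]
          exact noS _ _ (hPS _ ih.1) (hPS _ k6)
        rw [inc_mem_cut, not_not] at k8
        exact ⟨k6, k8.1 ih.2⟩
    refine ⟨D0, ?_, fun c hc0 => ⟨fun k m => ?_, fun k => ?_⟩⟩
    · rw [← mem_cut, hc e0 h0b]
      have k1 : e0 ∉ cut T ∩ eS n S := fun m => h0i (hTi _ m)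
      have k2 : e0 ∉ Lf := fun m => hS ((hs.lf _ m).2.imp (fun z => sdiff_subset z)
        fun z => sdiff_subset z)
      exact mem_symmDiff.2 (.inl ⟨mem_symmDiff.2 (.inl ⟨hO0, k1⟩), k2⟩)
    · obtain ⟨s, s1, s2⟩ := hit c hc0
      exact hSD s s1 ((nig_conn (fun e he z => disjoint_left.1 m he
        ((hFη e (mem_filter.1 he).1).1 z)) s2).1 k)
    · have out : ∀ u, Relation.ReflTransGen (exitw_R F S) c u → u ∉ D0 := by
        intro u hu
        induction hu with
        | refl => exact k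
        | @tail a b _ m ih =>
          obtain ⟨m1, d, m2, rfl⟩ := m
          by_cases m3 : a + d.vec ∈ S
          · exact hSD _ m3
          · have m4 : inc a d ∉ cut D0 := fun z => noS _ _ m1 m3 ((hFη _ m2).1 z)
            rw [inc_mem_cut, not_not] at m4
            exact fun z => ih (m4.2 z)
      refine disjoint_left.2 fun e he m => ?_
      obtain ⟨m1, u, d, m2, m3, rfl⟩ := mem_filter.1 he
      have o1 := out u m2
      have o2 := out _ (m2.tail ⟨m3, d, m1, rfl⟩)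
      rcases mem_union.1 m with m | m
      · exact inc_mem_cut.1 ((hFη _ m1).2 m) (iff_of_false o1 o2)
      · exact (inc_mem_einc.1 (mem_inter.1 m).1).elim (fun z => o1 (hPD _ z))
          fun z => o2 (hPD _ z)
  by_cases hZ : Disjoint (exitw_Z F S (ea e0)) Lf
  · refine ⟨_, sub _, _, .inl rfl, hit _ (.inl rfl), fun P O k1 k2 k3 k4 k5 => ?_⟩
    obtain ⟨D0, -, k⟩ := key P O k1 k2 k3 k4 k5
    exact (k _ (.inl rfl)).2 fun m => (k _ (.inl rfl)).1 m hZ
  · refine ⟨_, sub _, _, .inr rfl, hit _ (.inr rfl), fun P O k1 k2 k3 k4 k5 => ?_⟩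
    obtain ⟨D0, k0, k⟩ := key P O k1 k2 k3 k4 k5
    refine (k _ (.inr rfl)).2 fun m => k0 (iff_of_true ?_ m)
    by_contra z
    exact hZ (((k _ (.inl rfl)).2 z).mono_right subset_union_left)

end Pool.Agent.P.MP_347bd1_pr.M

namespace Pool.Agent.P.MP_347bd1_pr.M

open Classical Finset Filter Topology
open scoped ENNReal NNReal

theorem stepw_E {n : ℕ} {E D : Finset Edge} {A : Set Pt} {X : Pt → Finset Edge → ℝ}
    (hX : Ferm n E D A X) (hE : NoTop n E) (v : Pt) (a : ℤ) (h1 : 1 ≤ a) (h2 : a + 1 ≤ n) (k : ℕ)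
    (hk : k + 1 ≤ n) : ∃ ε : ℝ, (ε = 1 ∨ ε = -1) ∧
      (∀ Γ, X v (symmDiff Γ (symmDiff (symmDiff (ray n (a, n - k)) {((a, (n : ℤ) - k), true)})
        (ray n (a + 1, n - k)))) = ε * X v Γ) ∧
      (A = ∅ → v ∈ intr n → (ε = -1 ↔ a = v.1 ∧ (n : ℤ) - k ≤ v.2)) := by
  induction k with
  | zero =>
    have e : symmDiff (symmDiff (ray n (a, n - (0 : ℕ))) {((a, (n : ℤ) - (0 : ℕ)), true)})
        (ray n (a + 1, n - (0 : ℕ))) = {((a, (n : ℤ)), true)} := by
      ext ⟨⟨x, y⟩, _ | _⟩ <;> simp [mem_symmDiff, kc1_mem_ray]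
    rw [e]
    refine ⟨1, .inl rfl, fun Γ => ?_, fun _ hv => iff_of_false (by norm_num) ?_⟩
    · rw [one_mul]
      exact hX.blk v Γ _ fun m => hE _ m (by simp [ea, eb])
    · rw [mem_intr] at hv
      omega
  | succ k ih =>
    have e : symmDiff (symmDiff (ray n (a, n - (k + 1 : ℕ))) {((a, (n : ℤ) - (k + 1 : ℕ)), true)})
        (ray n (a + 1, n - (k + 1 : ℕ))) =
        symmDiff (symmDiff (symmDiff (ray n (a, n - k)) {((a, (n : ℤ) - k), true)})
          (ray n (a + 1, n - k))) (univ.image (cr (a, n - (k + 1 : ℕ)))) := by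
      ext ⟨⟨x, y⟩, _ | _⟩ <;> simp [mem_symmDiff, kc1_mem_ray, Dir.exists_iff, cr] <;> omega
    rw [e]
    obtain ⟨ε, e1, e2, e3⟩ := ih (by omega)
    have hq : ((a, (n : ℤ) - (k + 1 : ℕ)) : Pt) ∈ intr n := by rw [mem_intr]; simp only; omega
    refine ⟨(if ((a, (n : ℤ) - (k + 1 : ℕ)) : Pt) ∈ symmDiff ({v} : Set Pt) A then -1 else 1) * ε,
      ?_, fun Γ => ?_, fun hA hv => ?_⟩
    · split_ifs <;> rcases e1 with rfl | rfl <;> simp
    · rw [← symmDiff_assoc Γ, hX.face v _ _ hq, e2, mul_assoc]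
    · replace e3 := e3 hA hv
      obtain ⟨v1, v2⟩ := v
      subst hA
      simp only [← Set.bot_eq_empty, symmDiff_bot, Set.mem_singleton_iff, Prod.mk.injEq] at e3 ⊢
      split_ifs with m
      · have : ε ≠ -1 := fun q => by have := e3.1 q; omega
        rw [e1.resolve_right this]
        exact iff_of_true (by norm_num) (by omega)
      · rw [one_mul, e3]
        omega

theorem p_STEP :
    S_STEP := by
  intro n E D A X hX hE w d v h
  obtain ⟨a, b⟩ := w
  rw [inc_mem_ebox, mem_box, mem_box] at h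
  cases d with
  | N =>
    have e : symmDiff (symmDiff (ray n (a, b)) {inc (a, b) .N}) (ray n ((a, b) + Dir.N.vec)) =
        ∅ := by
      simp only [Dir.vec, Prod.mk_add_mk] at h
      ext ⟨⟨x, y⟩, _ | _⟩ <;> simp [mem_symmDiff, kc1_mem_ray, inc, Dir.vec] <;> omega
    rw [e]
    exact ⟨1, .inl rfl, fun Γ => by rw [← bot_eq_empty, symmDiff_bot, one_mul],
      fun _ _ => iff_of_false (by norm_num) (by simp [inc])⟩
  | S =>
    have e : symmDiff (symmDiff (ray n (a, b)) {inc (a, b) .S}) (ray n ((a, b) + Dir.S.vec)) =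
        ∅ := by
      simp only [Dir.vec, Prod.mk_add_mk] at h
      ext ⟨⟨x, y⟩, _ | _⟩ <;> simp [mem_symmDiff, kc1_mem_ray, inc, Dir.vec] <;> omega
    rw [e]
    exact ⟨1, .inl rfl, fun Γ => by rw [← bot_eq_empty, symmDiff_bot, one_mul],
      fun _ _ => iff_of_false (by norm_num) (by simp [inc])⟩
  | E =>
    simp only [Dir.vec, Prod.mk_add_mk] at h
    obtain ⟨k, rfl⟩ : ∃ k : ℕ, b = n - k := ⟨(n - b).toNat, by omega⟩
    simpa [inc, Dir.vec] using stepw_E hX hE v a (by omega) (by omega) k (by omega)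
  | W =>
    simp only [Dir.vec, Prod.mk_add_mk] at h
    obtain ⟨k, rfl⟩ : ∃ k : ℕ, b = n - k := ⟨(n - b).toNat, by omega⟩
    have := stepw_E hX hE v (a - 1) (by omega) (by omega) k (by omega)
    rw [symmDiff_comm (symmDiff (ray n (a - 1, n - k)) _), symmDiff_comm (ray n (a - 1, n - k)),
      ← symmDiff_assoc (ray n (a - 1 + 1, n - k)), sub_add_cancel] at this
    simpa [inc, Dir.vec, sub_eq_add_neg] using this

end Pool.Agent.P.MP_347bd1_pr.M

namespace Pool.Agent.P.MP_347bd1_pr.M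

open Classical Finset Filter Topology
open scoped ENNReal NNReal

section abstr
variable {E X Z : Type} [AddCommGroup E] [Module ℝ E] [Fintype X] (B : E →ₗ[ℝ] E →ₗ[ℝ] ℝ)

theorem paw_split (hs : ∀ u v, B u v = B v u) (hp : ∀ u, 0 ≤ B u u) (A : X → X → Prop)
    (hA : ∀ x y, A x y → A y x) (hd : ∀ x, (univ.filter (A x)).card ≤ 4) (u : X → E)
    (hu : ∀ x y, ¬ A x y → 0 ≤ B (u x) (u y)) (S : Finset Z) (b : Z → X → ℝ) (κ δ : ℝ)
    (hδ0 : 0 ≤ δ) (hκ : ∀ x, ∑ z ∈ S, b z x ^ 2 = κ)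
    (hδ : ∀ x y, A x y → ∑ z ∈ S, (b z x - b z y) ^ 2 ≤ 2 * δ) :
    ∑ z ∈ S, B (∑ x, b z x • u x) (∑ x, b z x • u x) ≤
      κ * B (∑ x, u x) (∑ x, u x) + 4 * δ * ∑ x, B (u x) (u x) := by
  have e1 : ∑ z ∈ S, B (∑ x, b z x • u x) (∑ x, b z x • u x) =
      ∑ x, ∑ y, (∑ z ∈ S, b z x * b z y) * B (u x) (u y) := by
    simp only [map_sum, LinearMap.sum_apply, map_smul, LinearMap.smul_apply, smul_eq_mul, sum_mul,
      mul_sum]
    rw [sum_comm]
    refine sum_congr rfl fun x _ => ?_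
    rw [sum_comm]
    exact sum_congr rfl fun y _ => sum_congr rfl fun z _ => by rw [hs (u y) (u x)]; ring
  have e2 : B (∑ x, u x) (∑ x, u x) = ∑ x, ∑ y, B (u x) (u y) := by
    simp only [map_sum, LinearMap.sum_apply]
    exact sum_comm
  have k : ∀ x y, (∑ z ∈ S, b z x * b z y) * B (u x) (u y) ≤ κ * B (u x) (u y) +
      δ / 2 * ((if A x y then B (u x) (u x) else 0) + if A y x then B (u y) (u y) else 0) := by
    intro x y
    have h1 : ∑ z ∈ S, (b z x - b z y) ^ 2 = 2 * (κ - ∑ z ∈ S, b z x * b z y) := by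
      simp only [sub_sq, sum_add_distrib, sum_sub_distrib, hκ, mul_assoc, ← mul_sum]
      ring
    have h2 : 0 ≤ ∑ z ∈ S, (b z x - b z y) ^ 2 := sum_nonneg fun _ _ => sq_nonneg _
    rw [h1] at h2
    by_cases h : A x y
    · have h3 := hδ x y h
      rw [h1] at h3
      have h4 := hp (u x + u y)
      simp only [map_add, LinearMap.add_apply, hs (u y) (u x)] at h4
      rw [if_pos h, if_pos (hA x y h)]
      nlinarith [mul_nonneg h2 h4, mul_nonneg (sub_nonneg.2 h3) (add_nonneg (hp (u x)) (hp (u y)))]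
    · rw [if_neg h, if_neg fun h' => h (hA y x h')]
      nlinarith [mul_nonneg h2 (hu x y h)]
  have e3 : (∑ x, ∑ y, if A x y then B (u x) (u x) else 0) ≤ 4 * ∑ x, B (u x) (u x) := by
    rw [mul_sum]
    refine sum_le_sum fun x _ => ?_
    rw [← sum_filter, sum_const, nsmul_eq_mul]
    exact mul_le_mul_of_nonneg_right (by exact_mod_cast hd x) (hp _)
  rw [e1, e2]
  refine (sum_le_sum fun x _ => sum_le_sum fun y _ => k x y).trans ?_
  simp only [sum_add_distrib, ← mul_sum]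
  rw [sum_comm (f := fun x y => if A y x then B (u y) (u y) else 0)]
  nlinarith [mul_le_mul_of_nonneg_left e3 hδ0]

theorem paw_phi (hs : ∀ u v, B u v = B v u) (hp : ∀ u, 0 ≤ B u u) (S : Finset Z) (f : E)
    (F w : Z → E) (m : ℝ) (hm : 0 < m) (hF : ∀ z ∈ S, B (F z) (w z) = 0)
    (hw : ∑ z ∈ S, B (w z) (w z) ≤ m * B f (∑ z ∈ S, w z)) :
    B f (∑ z ∈ S, w z) ≤ m * ∑ z ∈ S, B (f - F z) (f - F z) := by
  have k : ∀ z ∈ S, 2 * m * B f (w z) ≤ m ^ 2 * B (f - F z) (f - F z) + B (w z) (w z) := by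
    intro z hz
    have h := hp (m • (f - F z) - w z)
    have e : B (f - F z) (w z) = B f (w z) := by rw [map_sub, LinearMap.sub_apply, hF z hz, sub_zero]
    generalize f - F z = a at h e ⊢
    simp only [map_sub, map_smul, LinearMap.sub_apply, LinearMap.smul_apply, smul_eq_mul,
      hs (w z) a, e] at h
    linarith
  have h := sum_le_sum k
  rw [sum_add_distrib, ← mul_sum, ← mul_sum, ← map_sum] at h
  refine le_of_mul_le_mul_left ?_ hm
  linarith

end abstr

/-- The scalar product as a bilinear map. -/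
noncomputable def paw_B {ι : Type} [Fintype ι] (π : ι → ℝ) : (ι → ℝ) →ₗ[ℝ] (ι → ℝ) →ₗ[ℝ] ℝ :=
  LinearMap.mk₂ ℝ (ip π)
    (fun _ _ _ => by simp only [ip, Pi.add_apply, add_mul, mul_add, sum_add_distrib])
    (fun _ _ _ => by
      simp only [ip, Pi.smul_apply, smul_eq_mul, mul_sum]; exact sum_congr rfl fun _ _ => by ring)
    (fun _ _ _ => by simp only [ip, Pi.add_apply, mul_add, sum_add_distrib])
    fun _ _ _ => by
      simp only [ip, Pi.smul_apply, smul_eq_mul, mul_sum]; exact sum_congr rfl fun _ _ => by ring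

theorem p_PA :
    S_PA := by
  intro ι X _ _ π d A S β κ δ t f F hπ ds di hA hd dc h1 hκ hδ h0 hδ0 ht hF
  change ∀ x g h, paw_B π (d x g) h = paw_B π g (d x h) at ds
  change ∃ g, paw_B π (f - g) (f - g) + t * ∑ x, paw_B π (d x g) (d x g) ≤
    _ * ∑ z ∈ S, paw_B π (f - F z) (f - F z)
  have hs : ∀ u v, paw_B π u v = paw_B π v u := fun _ _ => sum_congr rfl fun _ _ => by ring
  have hp : ∀ u, 0 ≤ paw_B π u u := fun _ =>
    sum_nonneg fun i _ => mul_nonneg (hπ i).le (mul_self_nonneg _)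
  have hz : ∀ u, paw_B π u u ≤ 0 → u = 0 := fun u h => funext fun i =>
    mul_self_eq_zero.1 ((mul_eq_zero.1 ((sum_eq_zero_iff_of_nonneg fun i _ =>
      mul_nonneg (hπ i).le (mul_self_nonneg (u i))).1 (h.antisymm (hp u)) i
        (mem_univ i))).resolve_left (hπ i).ne')
  have hE : ∀ g, paw_B π g (∑ x, t • d x g) = t * ∑ x, paw_B π (d x g) (d x g) := fun g => by
    simp only [map_sum, map_smul, smul_eq_mul, mul_sum, ds, di]
  have hE0 : ∀ g, 0 ≤ ∑ x, paw_B π (d x g) (d x g) := fun g => sum_nonneg fun _ _ => hp _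
  obtain ⟨g, e⟩ := LinearMap.injective_iff_surjective.1
    ((injective_iff_map_eq_zero (LinearMap.id + ∑ x, t • d x : (ι → ℝ) →ₗ[ℝ] ι → ℝ)).2
      fun g h => hz g (by
        have := congrArg (paw_B π g) h
        simp only [LinearMap.add_apply, LinearMap.id_apply, LinearMap.sum_apply,
          LinearMap.smul_apply, map_add, hE, map_zero] at this
        linarith [mul_nonneg ht (hE0 g)])) f
  replace e : f - g = ∑ x, t • d x g := by
    rw [← e, sub_eq_iff_eq_add']
    simp only [LinearMap.add_apply, LinearMap.id_apply, LinearMap.sum_apply, LinearMap.smul_apply]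
  have hw : ∑ z ∈ S, ∑ x, β z x • t • d x g = f - g := by
    rw [sum_comm, e]
    exact sum_congr rfl fun x _ => by rw [← sum_smul, h1, one_smul]
  have h2 := paw_split (paw_B π) hs hp A hA hd (fun x => t • d x g) (fun x y a => by
      simp only [map_smul, LinearMap.smul_apply, smul_eq_mul]
      refine mul_nonneg ht (mul_nonneg ht ?_)
      rcases eq_or_ne x y with rfl | hxy
      · exact hp _
      · rw [← di x, ds, dc x y hxy a, ← di y, ← ds]
        exact hp _) S β κ δ hδ0 hκ hδ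
  simp only [map_smul, LinearMap.smul_apply, smul_eq_mul, ← mul_sum, ← e] at h2
  have h4 : paw_B π f (f - g) =
      paw_B π (f - g) (f - g) + t * ∑ x, paw_B π (d x g) (d x g) := by
    rw [← hE, ← e, ← LinearMap.add_apply, ← map_add, sub_add_cancel]
  have h5 := mul_nonneg ht (hE0 g)
  have h6 := hp (f - g)
  have h7 : ∑ z ∈ S, paw_B π (∑ x, β z x • t • d x g) (∑ x, β z x • t • d x g) ≤
      (κ + 4 * δ * t) * paw_B π f (∑ z ∈ S, ∑ x, β z x • t • d x g) := by
    rw [hw, h4]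
    nlinarith [mul_nonneg h0 h5, mul_nonneg (mul_nonneg hδ0 ht) h6]
  refine ⟨g, h4 ▸ hw ▸ ?_⟩
  rcases (by positivity : 0 ≤ κ + 4 * δ * t).eq_or_lt with m | m
  · rw [← m, zero_mul] at h7 ⊢
    rw [sum_eq_zero fun z hz' => hz _ ((single_le_sum (fun z _ => hp _) hz').trans h7), map_zero]
  · refine paw_phi (paw_B π) hs hp S f F _ _ m (fun z hz => ?_) h7
    rw [map_sum]
    refine sum_eq_zero fun x _ => ?_
    by_cases a : β z x = 0
    · rw [a, zero_smul, map_zero]
    · rw [map_smul, map_smul, ← ds, hF z hz x a, map_zero, LinearMap.zero_apply, smul_zero,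
        smul_zero]

end Pool.Agent.P.MP_347bd1_pr.M

namespace Pool.Agent.P.MP_347bd1_pr.M

open Classical Finset Filter Topology
open scoped ENNReal NNReal

theorem p_ARC :
    S_ARC := by
  intro τ η1 η2 v q0 R h0 hq h2
  have h1 := fun e a b c d => (h0 e a b c d).2
  rw [nrm_le_iff] at hq
  simp only [Prod.fst_sub, Prod.snd_sub] at hq
  obtain ⟨i0, hi0⟩ : ∃ i0 : ℕ, q0.1 = v.1 - R + i0 := ⟨(q0.1 - v.1 + R).toNat, by omega⟩
  obtain ⟨j0, hj0⟩ : ∃ j0 : ℕ, q0.2 = v.2 - R + j0 := ⟨(q0.2 - v.2 + R).toNat, by omega⟩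
  have ha : 0 < 2 * R + 1 := by omega
  set c : ℕ → Pt := fun i => arcC (v.1 - R, v.2 - R) (2 * R + 1) (i % (4 * (2 * R + 1))) with hc
  set d : ℕ → Dir := fun i => arcD (2 * R + 1) (i % (4 * (2 * R + 1))) with hd'
  have st : ∀ i, c (i + 1) = c i + (d i).vec := arc_step _ ha
  have nr : ∀ i, (R : ℤ) ≤ nrm (c i - v) ∧ nrm (c i - v) ≤ R + 1 := fun i =>
    arc_nrm v R (Nat.mod_lt _ (by omega))
  obtain ⟨j, l, hl, k1, k2⟩ := arc_cyc (m := 4 * (2 * R + 1)) (t := fun i => τ (c i))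
    (A := fun i => inc (c i) (d i) ∈ η1) (B := fun i => inc (c i) (d i) ∈ η2)
    (fun i => by simp only [hc, Nat.add_mod_right]) (fun i => by simp only [hc, hd', Nat.add_mod_right])
    (fun i z z' => by
      have a := nr i
      have b := nr (i + 1)
      rw [st] at b
      rcases ends_inc (c i) (d i) with ⟨x, y⟩ | ⟨x, y⟩
      · exact (h0 _ (x.symm ▸ a.1) (x.symm ▸ a.2) (y.symm ▸ b.1) (y.symm ▸ b.2)).1 ⟨z, z'⟩
      · exact (h0 _ (x.symm ▸ b.1) (x.symm ▸ b.2) (y.symm ▸ a.1) (y.symm ▸ a.2)).1 ⟨z, z'⟩)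
    (fun i => by
      have a := nr i
      have b := nr (i + 1)
      rw [st] at b ⊢
      rcases ends_inc (c i) (d i) with ⟨x, y⟩ | ⟨x, y⟩
      · rw [← h1 _ (x.symm ▸ a.1) (x.symm ▸ a.2) (y.symm ▸ b.1) (y.symm ▸ b.2), x, y]
      · rw [← h1 _ (x.symm ▸ b.1) (x.symm ▸ b.2) (y.symm ▸ a.1) (y.symm ▸ a.2), x, y,
          iff_comm (a := τ (c i))]) (by
      rw [sum_congr rfl fun i hi => by simp only [hc, hd', Nat.mod_eq_of_lt (mem_range.1 hi)]; rfl,
        arc_sum fun e => if e ∈ η1 then 1 else 0]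
      have e : ∀ i ∈ range (2 * R + 1), ∀ j ∈ range (2 * R + 1),
          ∑ d, (if cr (v.1 - R + i, v.2 - R + j) d ∈ η1 then 1 else 0 : ZMod 2) =
            if j = j0 then if i = i0 then 1 else 0 else 0 := by
        intro i hi j hj
        have := mem_range.1 hi
        have := mem_range.1 hj
        have a := h2 (v.1 - R + i, v.2 - R + j) (by rw [nrm_le_iff]; simp; omega)
        have b : ∑ d, (if cr (v.1 - R + i, v.2 - R + j) d ∈ η1 then 1 else 0 : ZMod 2) =
          (deg η1 (v.1 - R + i, v.2 - R + j) : ZMod 2) := by simp [deg_eq]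
        rw [b, ← ite_and]
        split_ifs with k
        · exact ZMod.natCast_eq_one_iff_odd.2 (a.2 (Prod.ext (by rw [hi0, k.2]) (by rw [hj0, k.1])))
        · refine ZMod.natCast_eq_zero_iff_even.2 (Nat.not_odd_iff_even.1 fun z => k ?_)
          have := a.1 z
          simp only [Prod.ext_iff] at this
          omega
      rw [sum_congr rfl fun i hi => sum_congr rfl (e i hi)]
      simp [show i0 < 2 * R + 1 by omega, show j0 < 2 * R + 1 by omega])
  have nn : ∀ i, NN (c i) (c (i + 1)) := fun i => ⟨d i, st i⟩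
  have op : inc (c (j + 1)) (d j).opp = inc (c j) (d j) := by rw [st, inc_opp]
  rcases k2 with ⟨x, y⟩ | ⟨x, y⟩
  · exact ⟨l, fun s => c (j + 1 + s), by omega, fun s _ => nn _, fun s hs => ⟨k1 s hs, nr _⟩,
      ⟨_, op ▸ x⟩, _, y⟩
  · refine ⟨l, fun s => c (j + 1 + (l - s)), by omega, fun s hs => ?_,
      fun s _ => ⟨k1 _ (by omega), nr _⟩, ⟨_, y⟩, (d j).opp, ?_⟩
    · dsimp only
      rw [show j + 1 + (l - s) = j + 1 + (l - (s + 1)) + 1 by omega]
      exact (nn _).symm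
    · dsimp only
      rw [Nat.sub_self, add_zero, op]
      exact x

end Pool.Agent.P.MP_347bd1_pr.M
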