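import Pool.Agent.P.MP_347bd1_pr.M.Iface

/-! Steps RUN1, LFT, LDHN, NI, ZEQ, BLK. -/

set_option autoImplicit false

namespace Pool.Agent.P.MP_347bd1_pr.M

open Classical Finset Filter Topology
open scoped ENNReal NNReal

/-- The number of edges of `C` at the site `w`. -/
noncomputable def run1w_vd (C : Finset Edge) (w : Pt) : ℕ :=
  (univ.filter fun d => inc w d ∈ C).card

theorem run1w_eq4 (C : Finset Edge) (w : Pt) : run1w_vd C w =
    (if inc w .N ∈ C then 1 else 0) + (if inc w .E ∈ C then 1 else 0) +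
      (if inc w .S ∈ C then 1 else 0) + if inc w .W ∈ C then 1 else 0 := by
  rw [run1w_vd, card_filter, sum_dir]

theorem run1w_sd (η η' : Finset Edge) (p : Pt) :
    Odd (run1w_vd (symmDiff η η') p) ↔ ¬ (Odd (run1w_vd η p) ↔ Odd (run1w_vd η' p)) := by
  simp only [run1w_eq4, mem_symmDiff]
  by_cases h1 : inc p .N ∈ η <;> by_cases h2 : inc p .E ∈ η <;> by_cases h3 : inc p .S ∈ η <;>
    by_cases h4 : inc p .W ∈ η <;> by_cases k1 : inc p .N ∈ η' <;> by_cases k2 : inc p .E ∈ η' <;>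
    by_cases k3 : inc p .S ∈ η' <;> by_cases k4 : inc p .W ∈ η' <;>
    simp only [h1, h2, h3, h4, k1, k2, k3, k4] <;> decide

theorem run1w_one (p q : Pt) (d : Dir) :
    Odd (run1w_vd {inc p d} q) ↔ ¬ (q = p ↔ q = p + d.vec) := by
  obtain ⟨a, b⟩ := p; obtain ⟨a', b'⟩ := q
  cases d <;> simp [run1w_eq4, inc, Dir.vec, Prod.ext_iff] <;> split_ifs <;> simp <;> omega

theorem run1w_path {G : Finset Pt} {a b : Pt} (ha : a ∈ G) (h : NPath G a b) : b ∈ G ∧
    ∃ C : Finset Edge, (∀ e ∈ C, ea e ∈ G ∧ eb e ∈ G) ∧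
      ∀ w, Odd (run1w_vd C w) ↔ ¬ (w = a ↔ w = b) := by
  induction h with
  | refl => exact ⟨ha, ∅, by simp, fun w => by simp [run1w_vd]⟩
  | @tail u v _ k ih =>
    obtain ⟨⟨d, rfl⟩, k2⟩ := k
    obtain ⟨hu, C, h1, h2⟩ := ih
    refine ⟨k2, symmDiff C {inc u d}, fun e he => ?_, fun w => ?_⟩
    · rcases mem_symmDiff.1 he with m | m
      · exact h1 e m.1
      · rcases ends_inc u d with k | k <;> rw [mem_singleton.1 m.1, k.1, k.2]
        exacts [⟨hu, k2⟩, ⟨k2, hu⟩]
    · rw [run1w_sd, h2, run1w_one]; clear * -; grind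

/-- The next direction, clockwise. -/
def run1w_nx : Dir → Dir
  | .N => .E | .E => .S | .S => .W | .W => .N

/-- The plaquette between the edges from `s` in the directions `d` and the next one. -/
def run1w_fc (s : Pt) : Dir → Pt
  | .N => s | .E => (s.1, s.2 - 1) | .S => (s.1 - 1, s.2 - 1) | .W => (s.1 - 1, s.2)

theorem run1w_comb (a w F : Dir → Prop) (R : Dir → Dir → Prop) (rf : ∀ k, R k k)
    (st : ∀ i k, w (run1w_nx k) → R i k → R i (run1w_nx k)) (h1 : ∀ k, a k → ¬ w k)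
    (h2 : ∀ k, F k → (a k ∨ w k) ∧ (a (run1w_nx k) ∨ w (run1w_nx k)))
    (h3 : ∀ k, w (run1w_nx k) → F k ∧ F (run1w_nx k))
    (h4 : ∀ i j, i ≠ j → a i → a j → ∃ φ : Dir → Prop, (∀ k, F k → ¬ φ k) ∧
      ∀ k, ¬ (φ k ↔ φ (run1w_nx k)) ↔ run1w_nx k = i ∨ run1w_nx k = j)
    (h5 : ∃ k, a k) (h6 : ∃ k, F k) : ∃ i j, a i ∧ a (run1w_nx j) ∧ R i j ∧ (∀ k, F k → R i k) ∧
      ∀ k, ¬ (w k ↔ w (run1w_nx k)) ↔ ¬ (k = i ↔ k = j) := by
  have key : ∃ i, a i ∧ F i := by
    by_contra h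
    simp only [Dir.forall_iff, Dir.exists_iff, run1w_nx] at h h1 h2 h3 h5 h6
    grind
  obtain ⟨i, hi, hF⟩ := key
  have r0 := rf i
  have r1 := fun h => st i i h r0
  have r2 := st i (run1w_nx i)
  have r3 := st i (run1w_nx (run1w_nx i))
  refine ⟨i, ?_⟩
  by_cases c1 : a (run1w_nx i)
  · obtain ⟨φ, p1, p2⟩ := h4 i _ (by cases i <;> decide) hi c1
    refine ⟨i, hi, c1, r0, ?_⟩
    clear h4 st rf h5 h6
    cases i <;> simp only [Dir.forall_iff, run1w_nx, reduceCtorEq] at * <;> grind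
  by_cases c2 : a (run1w_nx (run1w_nx i))
  · obtain ⟨φ, p1, p2⟩ := h4 i _ (by cases i <;> decide) hi c2
    refine ⟨run1w_nx i, hi, c2, ?_⟩
    clear h4 st rf h5 h6
    cases i <;> simp only [Dir.forall_iff, run1w_nx, reduceCtorEq] at * <;> grind
  by_cases c3 : a (run1w_nx (run1w_nx (run1w_nx i)))
  · obtain ⟨φ, p1, p2⟩ := h4 i _ (by cases i <;> decide) hi c3
    refine ⟨run1w_nx (run1w_nx i), hi, c3, ?_⟩
    clear h4 st rf h5 h6
    cases i <;> simp only [Dir.forall_iff, run1w_nx, reduceCtorEq] at * <;> grind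
  · refine ⟨run1w_nx (run1w_nx (run1w_nx i)), hi, ?_⟩
    clear h4 st rf h5 h6
    cases i <;> simp only [Dir.forall_iff, run1w_nx, reduceCtorEq] at * <;> grind

theorem run1w_step (s : Pt) (k : Dir) : run1w_fc s (run1w_nx k) = run1w_fc s k + k.opp.vec := by
  cases k <;> simp [run1w_fc, run1w_nx, Dir.opp, Dir.vec, Prod.ext_iff] <;> omega

theorem run1w_cr (s : Pt) (k d d' : Dir) : cr (run1w_fc s k) d = inc s d' ↔
    (d = k.opp ∧ d' = run1w_nx k) ∨ (d = (run1w_nx k).opp ∧ d' = k) := by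
  obtain ⟨x, y⟩ := s
  cases k <;> cases d <;> cases d' <;>
    simp [run1w_fc, run1w_nx, Dir.opp, cr, inc, Prod.ext_iff] <;> omega

theorem run1w_cor {p s : Pt} : Corner p s ↔ ∃ k, p = run1w_fc s k := by
  simp only [Corner, Dir.exists_iff, run1w_fc, Prod.ext_iff]; omega

theorem run1w_cor2 (s : Pt) (k : Dir) : Corner (run1w_fc s k) (s + k.vec) ∧
    Corner (run1w_fc s k) (s + (run1w_nx k).vec) := by
  cases k <;> simp [Corner, run1w_fc, run1w_nx, Dir.vec] <;> omega

theorem run1w_inj {s : Pt} {k i : Dir} : run1w_fc s k = run1w_fc s i ↔ k = i := by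
  cases k <;> cases i <;> simp [run1w_fc, Prod.ext_iff] <;> omega

theorem run1w_star {p u v : Pt} (h : Corner p u) (h' : Corner p v) : u = v ∨ Star u v := by
  simp only [Corner, Star, nrm_eq_iff, Prod.ext_iff, Prod.fst_sub, Prod.snd_sub] at *; omega

theorem run1w_min {u v : Pt} (h : Star u v) : ∃ p, Corner p u ∧ Corner p v :=
  ⟨(min u.1 v.1, min u.2 v.2), by
    simp only [Corner, Star, nrm_eq_iff, Prod.fst_sub, Prod.snd_sub] at *; omega⟩

theorem run1w_col {n : ℕ} {M : Finset Pt} {C : Finset Edge} {φ : Pt → Prop}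
    (h1 : ∀ p d, ¬ (φ p ↔ φ (p + Dir.vec d)) ↔ cr p d ∈ C) (h2 : ∀ p, p ∉ intr n → ¬ φ p)
    (h3 : ∀ u ∈ M, ∀ d, inc u d ∉ C) {u b : Pt} (hb : b.2 = 1) (h : SPath M u b) :
    ∀ p, Corner p u → ¬ φ p := by
  have a : ∀ u ∈ M, ∀ p q, Corner p u → Corner q u → φ p → φ q := fun u hu p q hp hq => by
    have c : ∀ k, φ (run1w_fc u k) ↔ φ (run1w_fc u (run1w_nx k)) := fun k => by
      rw [run1w_step, ← not_not (a := _ ↔ _), h1, (run1w_cr u k _ _).2 (.inl ⟨rfl, rfl⟩)]
      exact h3 u hu _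
    obtain ⟨k, rfl⟩ := run1w_cor.1 hp
    obtain ⟨l, rfl⟩ := run1w_cor.1 hq
    simp only [Dir.forall_iff, run1w_nx] at c
    clear * - c
    cases k <;> cases l <;> grind
  obtain ⟨hu, h⟩ := h
  induction h using Relation.ReflTransGen.head_induction_on with
  | refl =>
    exact fun p hp k => h2 (b.1, 0) (by simp [mem_intr]) (a b hu p _ hp (by simp [Corner, hb]) k)
  | head k _ ih =>
    obtain ⟨q, q1, q2⟩ := run1w_min k.1
    exact fun p hp m => ih k.2 q q2 (a _ hu p q hp q1 m)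

theorem p_RUN1 (hDPOIN : S_DPOIN) :
    S_RUN1 := by
  intro n S s hS hs hI ha ⟨u₀, hu₀, st₀⟩
  have sb : s ∈ box n := by unfold Ins at hI; rw [mem_box]; omega
  have nb : ∀ d : Dir, s + d.vec ∈ box n := fun d => by
    unfold Ins at hI
    cases d <;> simp [mem_box, Dir.vec] <;> omega
  have ne : ∀ d : Dir, s + d.vec ≠ s := fun d k => d.vec_ne_zero (by simpa using k)
  have w1 : ∀ u ∈ Wf n S {s}, u ∉ S ∧ u ≠ s := fun u hu => by
    simpa [and_comm] using (Finset.mem_sdiff.1 (mem_filter.1 hu).1).2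
  have w2 : ∀ p, ∀ u ∈ Wf n S {s}, Corner p u → ∀ d : Dir, Corner p (s + d.vec) →
      s + d.vec ∈ S ∨ s + d.vec ∈ Wf n S {s} := fun p u hu h1 d h2 => by
    refine or_iff_not_imp_left.2 fun m => ?_
    rcases run1w_star h2 h1 with e | e
    · rwa [e]
    · obtain ⟨m1, b, hb, -, m2⟩ := mem_filter.1 hu
      have m3 : s + d.vec ∈ box n \ (S ∪ {s}) := by simp [nb d, m, ne d]
      exact mem_filter.2 ⟨m3, b, hb, m3, .head ⟨e, m1⟩ m2⟩
  have et : ∀ e, e ∈ ETf n S {s} ↔ ∃ d, e = inc s d ∧ s + d.vec ∈ Wf n S {s} := fun e => by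
    rw [ETf, mem_filter, mem_cut, mem_singleton, mem_singleton]
    constructor
    · rintro ⟨h1, h2 | h2⟩
      · obtain ⟨d, e1, e2⟩ := exists_inc_b e
        have : eb e = s := by have := (w1 _ h2).2; clear * - this h1; grind
        rw [this] at e1 e2
        exact ⟨d, e1.symm, e2 ▸ h2⟩
      · obtain ⟨d, e1, e2⟩ := exists_inc e
        have : ea e = s := by have := (w1 _ h2).2; clear * - this h1; grind
        rw [this] at e1 e2
        exact ⟨d, e1.symm, e2 ▸ h2⟩
    · rintro ⟨d, rfl, h⟩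
      rcases ends_inc s d with k | k <;> rw [k.1, k.2] <;> simp [ne d, h]
  have et2 : ∀ k d, cr (run1w_fc s k) d ∈ ETf n S {s} ↔
      (d = k.opp ∧ s + (run1w_nx k).vec ∈ Wf n S {s}) ∨
        (d = (run1w_nx k).opp ∧ s + k.vec ∈ Wf n S {s}) := fun k d => by
    simp only [et, run1w_cr, or_and_right, exists_or, and_assoc, exists_and_left, exists_eq_left]
  obtain ⟨i, j, c1, c2, c3, c4, c5⟩ := run1w_comb (fun d => s + d.vec ∈ S)
    (fun d => s + d.vec ∈ Wf n S {s}) (fun k => ∃ u ∈ Wf n S {s}, Corner (run1w_fc s k) u)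
    (fun i k => FConn (ETf n S {s}) (run1w_fc s i) (run1w_fc s k)) (fun _ => .refl)
    (fun i k h r => r.tail ⟨k.opp, (et2 _ _).2 (.inl ⟨rfl, h⟩), run1w_step s k⟩)
    (fun k h h' => (w1 _ h').1 h)
    (fun k ⟨u, hu, h⟩ => ⟨w2 _ u hu h _ (run1w_cor2 s k).1, w2 _ u hu h _ (run1w_cor2 s k).2⟩)
    (fun k h => ⟨⟨_, h, (run1w_cor2 s k).2⟩, _, h, (run1w_cor2 s _).1⟩)
    (fun i j ij hi hj => by
      obtain ⟨-, C, m1, m2⟩ := run1w_path hi (hS.nn_conn hi hj)
      have m3 : ∀ e ∈ symmDiff (symmDiff C {inc s i}) {inc s j},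
          (ea e ∈ S ∨ ea e = s) ∧ (eb e ∈ S ∨ eb e = s) := fun e he => by
        have c := m1 e
        have : ∀ d : Dir, s + d.vec ∈ S → e = inc s d →
            (ea e ∈ S ∨ ea e = s) ∧ (eb e ∈ S ∨ eb e = s) := fun d hd k => by
          rcases ends_inc s d with l | l <;> rw [k, l.1, l.2] <;> simp [hd]
        have a := this i hi
        have b := this j hj
        simp only [mem_symmDiff, mem_singleton] at he
        clear * - a b c he
        grind
      obtain ⟨φ, p1, p2, -⟩ := hDPOIN n (symmDiff (symmDiff C {inc s i}) {inc s j})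
        (fun e he => mem_ebox.2 ⟨(m3 e he).1.elim (hS.sub ·) (· ▸ sb),
          (m3 e he).2.elim (hS.sub ·) (· ▸ sb)⟩) fun w => by
          rw [← Nat.not_odd_iff_even]
          change ¬ Odd (run1w_vd _ w)
          rw [run1w_sd, run1w_sd, m2, run1w_one, run1w_one]
          clear * -
          grind
      refine ⟨fun k => φ (run1w_fc s k), fun k ⟨u, hu, h⟩ => ?_, fun k => ?_⟩
      · obtain ⟨-, b, hb, m4⟩ := mem_filter.1 hu
        refine run1w_col p1 p2 (fun v hv d k => ?_) hb m4 _ h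
        have := m3 _ k
        simp only [Finset.mem_sdiff, mem_union, mem_singleton] at hv
        rcases ends_inc v d with l | l <;> rw [l.1, l.2] at this
        exacts [hv.2 this.1, hv.2 this.2]
      · have a : inc s (run1w_nx k) ∉ C := fun h => by
          have := m1 _ h
          rcases ends_inc s (run1w_nx k) with l | l <;> rw [l.1, l.2] at this
          exacts [hs this.1, hs this.2]
        have b : ∀ d, inc s (run1w_nx k) = inc s d ↔ run1w_nx k = d := fun d => by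
          simp [inc_eq_iff, (ne d).symm]
        have c : ¬ (run1w_nx k = i ∧ run1w_nx k = j) := fun h => ij (h.1.symm.trans h.2)
        beta_reduce
        rw [run1w_step, p1, (run1w_cr s k _ _).2 (.inl ⟨rfl, rfl⟩)]
        simp only [mem_symmDiff, mem_singleton, b]
        clear * - a c
        grind) ha (by
      obtain ⟨p, p1, p2⟩ := run1w_min st₀
      obtain ⟨k, rfl⟩ := run1w_cor.1 p1
      exact ⟨k, u₀, hu₀, p2⟩)
  refine ⟨run1w_fc s i, run1w_fc s j, by simp [hs, hI], by simpa using .refl, by simpa using ha,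
    ⟨⟨_, c1, (run1w_cor2 s i).1⟩, s, by simp, run1w_cor.2 ⟨i, rfl⟩⟩,
    ⟨⟨_, c2, (run1w_cor2 s j).2⟩, s, by simp, run1w_cor.2 ⟨j, rfl⟩⟩, fun p _ => ?_, c3, ?_⟩
  · simp only [Set.mem_symmDiff, Set.mem_singleton_iff]
    by_cases h : Corner p s
    · obtain ⟨k, rfl⟩ := run1w_cor.1 h
      have := c5 k
      rw [run1w_inj, run1w_inj, show (k = i ∧ ¬ k = j ∨ k = j ∧ ¬ k = i) ↔ ¬ (k = i ↔ k = j) by
        clear * -; grind, ← this, deg_eq4]
      simp only [et2]
      by_cases a : s + k.vec ∈ Wf n S {s} <;> by_cases b : s + (run1w_nx k).vec ∈ Wf n S {s} <;>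
        simp only [a, b] <;> cases k <;> decide
    · have : deg (ETf n S {s}) p = deg ∅ p := deg_congr fun d => by
        simp only [et, notMem_empty, iff_false]
        rintro ⟨d', e, -⟩
        have := corner_cr p d
        rcases ends_inc s d' with l | l <;> rw [e, l.1, l.2] at this
        exacts [h this.1, h this.2]
      have a : ∀ k, p ≠ run1w_fc s k := fun k e => h (run1w_cor.2 ⟨k, e⟩)
      simp [this, a]
  · rintro p ⟨t, ht, h⟩ h'
    obtain ⟨k, rfl⟩ := run1w_cor.1 (mem_singleton.1 ht ▸ h)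
    exact c4 k h'

end Pool.Agent.P.MP_347bd1_pr.M

namespace Pool.Agent.P.MP_347bd1_pr.M

open Classical Finset Filter Topology
open scoped ENNReal NNReal

theorem lftw_prop {aW bW aS bS aT bT aD bD h z x c f : Prop}
    (c1 : (¬ (aD ↔ bD) ∧ x) ↔ (h ∧ ¬ z ∨ z ∧ ¬ h)) (c2 : h → aW ∨ bW) (c3 : z → aS ∨ bS)
    (c4 : h → x) (c5 : x → aW → bW ∨ bS ∨ bT) (c6 : x → bW → aW ∨ aS ∨ aT)
    (c7 : aT → (aD ↔ c)) (c8 : bT → (bD ↔ c)) (d1 : aW → ¬ aS ∧ ¬ aT) (d2 : bW → ¬ bS ∧ ¬ bT)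
    (c9 : f ↔ (¬ (aT ↔ bT) ∧ (aW ∨ bW)) ∧ c) (c0 : f → x)
    (k : ¬ ((¬ (aD ∧ aW ↔ bD ∧ bW) ∧ x) ↔ ¬ (h ↔ f))) : (x ∧ (aW ∨ bW)) ∧ (aS ∨ bS) := by
  grind

theorem lftw_mem {α : Type*} [DecidableEq α] {A B : Finset α} {e : α} :
    e ∈ symmDiff A B ↔ ¬ (e ∈ A ↔ e ∈ B) := by
  rw [mem_symmDiff]; grind

theorem lftw_W {n : ℕ} {S T : Finset Pt} {u : Pt} (h : u ∈ Wf n S T) :
    u ∈ box n ∧ u ∉ S ∧ u ∉ T := by
  have := mem_sdiff.1 (mem_filter.1 h).1
  exact ⟨this.1, fun m => this.2 (mem_union_left _ m), fun m => this.2 (mem_union_right _ m)⟩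

theorem lftw_ET {n : ℕ} {S T : Finset Pt} {e : Edge} : e ∈ ETf n S T ↔
    ¬ (ea e ∈ T ↔ eb e ∈ T) ∧ (ea e ∈ Wf n S T ∨ eb e ∈ Wf n S T) := by
  rw [ETf, mem_filter, mem_cut]

theorem lftw_intr {n : ℕ} {t p : Pt} (h : Ins n t) (c : Corner p t) : p ∈ intr n := by
  unfold Ins at h; unfold Corner at c; rw [mem_intr]; omega

theorem lftw_col {n : ℕ} {S T : Finset Pt} (h : ∀ t ∈ T, t ∉ S ∧ Ins n t) {e : Edge}
    (he : e ∈ ETf n S T) : ¬ Col1 e := fun c => by
  have k := (lftw_ET.1 he).1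
  have c1 : ea e ∉ T := fun m => by
    have := (h _ m).2.1
    have := c.2
    unfold ea at *; omega
  have c2 : eb e ∉ T := fun m => by
    have := (h _ m).2.1
    have e1 : (eb e).1 = 1 := by simp [eb, c.1, c.2]
    omega
  exact k (iff_of_false c1 c2)

/-- The dual path along an arm, continued to `v1`. -/
theorem lftw_arm {n : ℕ} {S T M : Finset Pt} {v1 v2 : Pt} (hC : Cls n S T v1 v2)
    (hE : ETf n S T ⊆ ebox n) (hM : M ⊆ Wf n S T) (ha : ArmT T T M) :
    ∃ η ⊆ ebox n, (∀ e ∈ η, (ea e ∈ M ∨ eb e ∈ M) ∨ e ∈ ETf n S T) ∧ (∀ e ∈ η, ¬ Col1 e) ∧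
      Src n η {v1} := by
  obtain ⟨s, hs, s', b, st, hb, hs', hp⟩ := ha
  have hi := (hC.ins s hs).2
  have st' := nrm_le_iff.1 (le_of_eq st)
  simp only [Prod.fst_sub, Prod.snd_sub] at st'
  have c1 : Corner (min s.1 s'.1, min s.2 s'.2) s := by unfold Corner; dsimp only; omega
  have c2 : Corner (min s.1 s'.1, min s.2 s'.2) s' := by unfold Corner; dsimp only; omega
  generalize (min s.1 s'.1, min s.2 s'.2) = p at c1 c2
  have hp' := lftw_intr hi c1
  have sub : M \ T ⊆ box n := fun u k => (lftw_W (hM (mem_sdiff.1 k).1)).1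
  have bM : b ∈ M \ T := by
    rcases hp.cases_tail with rfl | ⟨c, -, k⟩
    exacts [hs', k.2]
  have bb := mem_box.1 (sub bM)
  unfold Ins at hi
  obtain ⟨η, a1, a2, a3, a4⟩ := sep_dual t_dual (q := (min b.1 (n - 1), 0)) sub hp' hs' hp c2
    (by unfold Corner; dsimp only; omega) (by dsimp only; omega) (by dsimp only; omega)
    (by rw [mem_intr]; dsimp only; omega)
  obtain ⟨π, b1, b2⟩ := (hC.path p ⟨s, hs, c1⟩ ⟨s', hM (mem_sdiff.1 hs').1, c2⟩).path n
  refine ⟨symmDiff η π, fun e k => ?_, fun e k => ?_, fun e k => ?_,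
    (a4.symmDiff b2).congr fun q _ => ?_⟩
  · rcases mem_symmDiff.1 k with k | k
    exacts [a1 k.1, hE (b1 k.1)]
  · rcases mem_symmDiff.1 k with k | k
    exacts [.inl ((a2 e k.1).imp (fun m => sdiff_subset m) fun m => sdiff_subset m),
      .inr (b1 k.1)]
  · rcases mem_symmDiff.1 k with k | k
    exacts [a3 e k.1, lftw_col hC.ins (b1 k.1)]
  · simp only [Set.mem_symmDiff, Set.mem_singleton_iff]; grind

theorem p_LFT (hWF : S_WF) :
    S_LFT := by
  rintro n S T v1 v2 hS hC ⟨M, hM, ha⟩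
  obtain ⟨w1, w2, w3, w4, -, -⟩ := hWF n S T v1 v2 hS hC
  have hE : ETf n S T ⊆ ebox n := w4 ▸ inter_subset_right.trans (eS_subset _ _)
  obtain ⟨⟨z, hz, cz⟩, t0, ht0, ct0⟩ := hC.c1
  have hv := lftw_intr (hC.ins t0 ht0).2 ct0
  have hv' := mem_intr.1 hv
  have top : ((1 : ℤ), (n : ℤ)) ∈ S := hS.top _ (by rw [mem_box]; dsimp only; omega) rfl
  obtain ⟨η, a1, a2, a3, a4⟩ := lftw_arm hC hE hM ha
  have a5 : ∀ e ∈ η, ea e ∈ Wf n S T ∨ eb e ∈ Wf n S T := fun e k =>
    (a2 e k).elim (fun m => m.imp (fun m => hM m) fun m => hM m) fun m => (lftw_ET.1 m).2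
  obtain ⟨ζ, b1, b2, b3, b4⟩ := sep_dual t_dual (q := ((1 : ℤ), (n : ℤ))) hS.sub hv hz
    (rtg_mono (fun u w k => ⟨k.1.star, k.2⟩) (hS.nn_conn hz top)) cz
    ⟨Or.inl rfl, Or.inl rfl⟩ le_rfl (by dsimp only; omega) (by rw [mem_intr]; dsimp only; omega)
  obtain ⟨D, -, d1, d2⟩ := t_poin n (symmDiff η ζ)
    (fun e k => by
      rcases mem_symmDiff.1 k with k | k
      exacts [a1 k.1, b1 k.1])
    ((a4.symmDiff b4).congr fun p _ => by simp)
  have col : ∀ u ∈ box n, u.1 = 1 → u ∉ D := fun u k1 k2 =>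
    sep_col (τ := fun w => w ∈ D) d2 (fun w w1 w2 w3 => by
      have c : Col1 (inc w .N) := ⟨rfl, w1⟩
      have := Finset.ext_iff.1 d1 (inc w .N)
      rw [mem_inter, inc_mem_cut, inc_mem_ebox, mem_symmDiff] at this
      have := fun m => a3 _ m c
      have := fun m => b3 _ m c
      grind) k1 k2
  have Tb : ∀ t ∈ T, t ∈ box n := fun t k => (mem_sdiff.1 (w2 (mem_union_right _ k))).1
  have cst : ∀ t, NPath T t0 t → t ∈ T ∧ (t ∈ D ↔ t0 ∈ D) := by
    intro t k
    induction k with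
    | refl => exact ⟨ht0, Iff.rfl⟩
    | @tail u w _ k ih =>
      obtain ⟨⟨d, rfl⟩, k2⟩ := k
      refine ⟨k2, Iff.trans ?_ ih.2⟩
      have e1 := Finset.ext_iff.1 d1 (inc u d)
      rw [mem_inter, inc_mem_cut, inc_mem_ebox, mem_symmDiff] at e1
      have e2 : inc u d ∉ η := fun m =>
        ((sep_ends (P := fun x => x ∈ Wf n S T)).1 (a5 _ m)).elim
          (fun m => (lftw_W m).2.2 ih.1) fun m => (lftw_W m).2.2 k2
      have e3 : inc u d ∉ ζ := fun m =>
        ((sep_ends (P := fun x => x ∈ S)).1 (b2 _ m)).elim (hC.ins _ ih.1).1 (hC.ins _ k2).1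
      have := Tb _ ih.1
      have := Tb _ k2
      grind
  have cD : ∀ t ∈ T, (t ∈ D ↔ t0 ∈ D) := fun t k => (cst t (hC.conn t0 ht0 t k)).2
  obtain ⟨F, va, vb, hab, f1, f2⟩ : ∃ (F : Finset Edge) (va vb : Pt),
      ((va = v1 ∧ vb = v2) ∨ (va = v2 ∧ vb = v1)) ∧ (∀ e, e ∈ F ↔ e ∈ ETf n S T ∧ t0 ∈ D) ∧
        Src n F (symmDiff {v1} {va}) := by
    by_cases c : t0 ∈ D
    · exact ⟨ETf n S T, v2, v1, .inr ⟨rfl, rfl⟩, fun e => by simp [c], hC.src⟩
    · exact ⟨∅, v1, v2, .inl ⟨rfl, rfl⟩, fun e => by simp [c],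
        (src_empty n).congr fun _ _ => by simp⟩
  have sS : (box n \ Wf n S T) \ ((box n \ Wf n S T) \ S) = S :=
    Finset.sdiff_sdiff_eq_self (subset_union_left.trans w2)
  have add : ∀ θ, Src n θ {v1} → Src n (symmDiff θ F) {va} := fun θ k =>
    (k.symmDiff f2).congr fun q _ => by
      simp only [Set.mem_symmDiff, Set.mem_singleton_iff]; grind
  obtain ⟨Lf, hL⟩ : ∃ Lf, Lf = symmDiff (cut (D ∩ Wf n S T) ∩ ebox n) (symmDiff η F) := ⟨_, rfl⟩
  have lf : ∀ e ∈ Lf, e ∈ eS n (box n \ Wf n S T) ∧ (ea e ∈ S ∨ eb e ∈ S) := by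
    intro e k
    have c1 := Finset.ext_iff.1 d1 e
    rw [mem_inter, mem_cut, mem_symmDiff] at c1
    rw [hL, lftw_mem, lftw_mem, mem_inter, mem_cut, mem_inter, mem_inter] at k
    obtain ⟨d, -, e1⟩ := exists_inc e
    have st : Star (ea e) (eb e) := NN.star ⟨d, e1⟩
    have := lftw_prop c1 (a5 e) (b2 e) (@a1 e)
      (fun x m => w3 _ m _ (mem_ebox.1 x).2 st) (fun x m => w3 _ m _ (mem_ebox.1 x).1 st.symm)
      (cD _) (cD _) (fun m => (lftw_W m).2) (fun m => (lftw_W m).2)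
      ((f1 e).trans (and_congr_left' lftw_ET)) (fun m => hE ((f1 e).1 m).1) k
    exact ⟨mem_eS.2 ⟨this.1.1, this.1.2.imp (fun m k => (mem_sdiff.1 k).2 m)
      fun m k => (mem_sdiff.1 k).2 m⟩, this.2⟩
  have sr : Src n Lf {va} := hL ▸ ((src_cut n _).symmDiff (add η a4)).congr fun p _ => by
    simp [Set.mem_symmDiff]
  have nF : ∀ e ∈ F, ¬ Col1 e := fun e m => lftw_col hC.ins ((f1 e).1 m).1
  have nc : ∀ e ∈ Lf, ¬ Col1 e := by
    intro e k c
    have k0 := mem_ebox.1 (eS_subset n _ (lf e k).1)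
    have c1 : ea e ∉ D := col _ k0.1 c.2
    have c2 : eb e ∉ D := col _ k0.2 (by simp [eb, c.1, c.2])
    have c3 : e ∉ η := fun m => a3 e m c
    have c4 : e ∉ F := fun m => nF e m c
    rw [hL] at k
    simp [mem_symmDiff, mem_cut, c1, c2, c3, c4] at k
  have s2 : Str2 n (box n \ Wf n S T) ((box n \ Wf n S T) \ S) Lf
      (((eS n (box n \ Wf n S T)).filter fun e => ea e ∈ S ∨ eb e ∈ S) \ Lf) :=
    ⟨w1, sdiff_subset, by rw [sS]; exact lf,
      by rw [sS]; exact fun e k => mem_filter.1 (mem_sdiff.1 k).1, disjoint_sdiff, by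
        rw [sS]
        intro e k1 k2
        by_cases k : e ∈ Lf
        exacts [Or.inl k, Or.inr (mem_sdiff.2 ⟨mem_filter.2 ⟨k1, k2⟩, k⟩)]⟩
  refine ⟨Lf, _, va, vb, hab, s2, sr, nc, fun M' hM' ha' => ?_⟩
  obtain ⟨η', e1, e2, e3, e4⟩ := lftw_arm hC hE hM' ha'
  have TT : ∀ t ∈ T, t ∈ M' ∪ ((box n \ Wf n S T) \ S) := fun t k =>
    mem_union_right _ (mem_sdiff.2 ⟨w2 (mem_union_right _ k), (hC.ins t k).1⟩)
  have ET : ∀ e ∈ ETf n S T, ea e ∈ M' ∪ ((box n \ Wf n S T) \ S) ∨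
      eb e ∈ M' ∪ ((box n \ Wf n S T) \ S) := fun e k => by
    have := (lftw_ET.1 k).1
    by_cases m : ea e ∈ T
    exacts [.inl (TT _ m), .inr (TT _ (by grind))]
  have := f_sep n _ _ M' Lf _ (symmDiff η' F) s2
    (by rw [sS]; exact fun a ha b hb => hS.nn_conn ha hb)
    (fun u k => mem_sdiff.2 ⟨(lftw_W (hM' k)).1, fun m => (mem_sdiff.1 m).2 (hM' k)⟩)
    (fun e k => by
      rcases mem_symmDiff.1 k with k | k
      exacts [e1 k.1, hE ((f1 e).1 k.1).1])
    (fun e k => by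
      rcases mem_symmDiff.1 k with k | k
      exacts [(e2 e k.1).elim (fun m => m.imp (mem_union_left _) (mem_union_left _)) (ET e),
        ET e ((f1 e).1 k.1).1])
    fun p k => (add η' e4 p k).trans (sr p k).symm
  refine ⟨this.1, this.2 (by rw [sS]; exact top) (fun e k => ?_) nc⟩
  rcases mem_symmDiff.1 k with k | k
  exacts [e3 e k.1, nF e k.1]

end Pool.Agent.P.MP_347bd1_pr.M

namespace Pool.Agent.P.MP_347bd1_pr.M

open Classical Finset Filter Topology
open scoped ENNReal NNReal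

theorem ldhnw_mono (N : Net) {g u : Pt → ℝ} {z : Pt} (h0 : g z ≤ u z)
    (h1 : ∀ d, N.mv z d → g (z + d.vec) ≤ u (z + d.vec)) : N.Pr g z ≤ N.Pr u z :=
  sum_le_sum fun d _ => by
    split_ifs with m
    · linarith [h1 d m]
    · linarith

theorem ldhnw_const (N : Net) {k : ℝ} (hk : 0 ≤ k) (z : Pt) : N.Pr (fun _ => k) z ≤ k := by
  have : N.Pr (fun _ => k) z ≤ ∑ _d : Dir, k / 4 := sum_le_sum fun d _ => by
    split_ifs <;> linarith
  rw [sum_dir] at this
  linarith

theorem ldhnw_sub {n : ℕ} {E : Finset Edge} {Hp : Pt → ℝ} {z : Pt} (hz : z ∈ intr n)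
    (a2 : ∀ v, v ∉ intr n → Hp v = 1)
    (a4 : 4 * Hp z ≤ ∑ d, if cr z d ∈ E then Hp (z + d.vec) else xc ^ 2 * Hp z) :
    max (Hp z) 0 ≤ (∑ d, if (net n E).st z d then 1 / 4 else 0) +
      (net n E).Pr (fun z => max (Hp z) 0) z := by
  rcases le_total (Hp z) 0 with k | k
  · rw [max_eq_right k]
    exact add_nonneg (sum_nonneg fun d _ => by split_ifs <;> norm_num)
      (Net.Pr_nonneg (fun _ => le_max_right _ _) z)
  rw [Net.Pr, ← sum_add_distrib, max_eq_left k]
  refine le_of_mul_le_mul_left (a4.trans ?_) (by norm_num : (0 : ℝ) < 4)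
  rw [mul_sum]
  refine sum_le_sum fun d _ => ?_
  by_cases c1 : cr z d ∈ E
  · by_cases c2 : z + d.vec ∈ intr n
    · rw [if_pos c1, if_neg fun m => m.2.1 c2, if_pos ⟨hz, c2, c1⟩]
      linarith [le_max_left (Hp (z + d.vec)) 0]
    · rw [if_pos c1, if_pos ⟨hz, c2, c1⟩, if_neg fun m => c2 m.2.1, a2 _ c2]
      linarith
  · rw [if_neg c1, if_neg fun m => c1 m.2.2, if_neg fun m => c1 m.2.2]
    have : xc ^ 2 ≤ 1 / 4 := by nlinarith [xc_pos, xc_lt_half]
    nlinarith

/-- The maximum principle on the faces that are locally reachable. -/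
theorem ldhnw_max {n : ℕ} {E : Finset Edge} {f : Pt → ℝ} {c p0 : Pt} {R : ℤ} (h0 : p0 ∈ intr n)
    (hR : nrm (p0 - c) < R)
    (h : ∀ z ∈ intr n, nrm (z - c) < R → 0 < f z →
      f z ≤ (net n E).Pr f z ∨ ∃ y, LRe n E c R z y ∧ f z < f y) :
    f p0 ≤ 0 ∨ ∃ y, LRe n E c R p0 y ∧ nrm (y - c) = R ∧ f p0 ≤ f y := by
  have hi : ∀ y, LRe n E c R p0 y → y ∈ intr n ∧ nrm (y - c) ≤ R := by
    intro y hy
    induction hy with
    | refl => exact ⟨h0, hR.le⟩
    | @tail a b _ k _ =>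
      obtain ⟨d, k1, k2, rfl⟩ := k
      have := (nrm_step a c d).1
      exact ⟨k1.2.1, by omega⟩
  have hm0 : ∀ y, LRe n E c R p0 y → y ∈ (intr n).filter (LRe n E c R p0) := fun y hy =>
    mem_filter.2 ⟨(hi y hy).1, hy⟩
  obtain ⟨z, hz, hm⟩ := exists_max_image ((intr n).filter (LRe n E c R p0))
    (fun z => toLex (f z, z.1)) ⟨p0, hm0 p0 .refl⟩
  obtain ⟨z1, z2⟩ := mem_filter.1 hz
  have h1 : ∀ y, LRe n E c R p0 y → f y ≤ f z := fun y hy => by
    rcases Prod.Lex.toLex_le_toLex.1 (hm y (hm0 y hy)) with k | k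
    exacts [k.le, k.1.le]
  by_cases e : nrm (z - c) = R
  · exact Or.inr ⟨z, z2, e, h1 p0 .refl⟩
  have e' : nrm (z - c) < R := lt_of_le_of_ne (hi z z2).2 e
  left
  by_contra k
  have h2 : 0 < f z := by linarith [h1 p0 .refl]
  rcases h z z1 e' h2 with m | ⟨y, m1, m2⟩
  · have st : ∀ d, (net n E).mv z d → LRe n E c R p0 (z + d.vec) := fun d m =>
      z2.tail ⟨d, m, e', rfl⟩
    have h3 : (net n E).Pr f z < ∑ _d : Dir, f z / 4 := by
      refine sum_lt_sum (fun d _ => ?_) ⟨.E, mem_univ _, ?_⟩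
      · split_ifs with m
        · linarith [h1 _ (st d m)]
        · linarith
      · split_ifs with m
        · rcases Prod.Lex.toLex_le_toLex.1 (hm _ (hm0 _ (st _ m))) with k | k
          · linarith [show f (z + Dir.E.vec) < f z from k]
          · have := k.2; simp [Dir.vec] at this
        · linarith
    rw [sum_dir] at h3
    linarith
  · linarith [h1 y (z2.trans m1)]

theorem p_LDHN (hKC1 : S_KC1) (hKC : S_KC) (hSIGN : S_SIGN) (hABEUR : S_ABEUR) (hMV : S_MV) :
    S_LDHN := by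
  obtain ⟨c0, c1, c2, K0, hK0, hAB⟩ := hABEUR
  obtain ⟨C0, hC0, hM⟩ := hMV
  refine ⟨4 * K0, by omega, C0 / c0, by positivity, ?_⟩
  intro n E D Y c v r hE hr hD hst hDY hNK hv hvr hvc hvY hY
  obtain ⟨k1, -, -, k4, -, k6⟩ := hKC1 n E D
  obtain ⟨Hp, Hs, a1, a2, -, a4, a5, a6, -⟩ := hKC n E D ∅ _ (k1 ∅) hE.sub hE.top
  set X := Xw n ∅ E D with hX
  set N := net n E with hN'
  have hr' : (1 : ℤ) ≤ r := by exact_mod_cast hr
  have hK' : (2 : ℤ) ≤ K0 := by exact_mod_cast hK0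
  have hKr : 2 * (r : ℤ) ≤ K0 * r := by nlinarith
  have hKr2 : (K0 : ℤ) ≤ K0 * r := by nlinarith
  set r3 : ℤ := K0 * ((r + 1 : ℕ) : ℤ) with hr3
  have e3 : r3 = K0 * r + K0 := by rw [hr3]; push_cast; ring
  have eK : ((4 * K0 : ℕ) : ℤ) * r = 4 * (K0 * r) := by push_cast; ring
  rw [eK] at hst hY
  have a2' : ∀ z, z ∉ intr n → Hp z = 1 := fun z hz => by rw [a2 z hz, k6 z hz, one_pow]
  have sq : ∀ p, (∃ w, Corner p w ∧ TopConn n E w) → Hp p = X p ∅ ^ 2 := by
    rintro p ⟨w, w1, w2⟩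
    rw [a1 w w2.mem_box p w1, (a4 w w2).1, (a4 w w2).2, zero_add]
  let DF : Pt → Prop := fun p => ∃ d, cr p d ∈ D ∧ cr p d ∈ E
  have dn : ∀ p, DF p → nrm (p - c) ≤ r + 1 := by
    rintro p ⟨d, d1, d2⟩
    have h1 := (hD _ d1 d2).1
    have h2 := (corner_cr p d).1.nrm_le
    have h3 := nrm_tri p (ea (cr p d)) c
    rw [nrm_sub_comm] at h2
    omega
  have dc : ∀ p, DF p → ∃ w, Corner p w ∧ TopConn n E w := by
    rintro p ⟨d, d1, d2⟩
    rcases (hD _ d1 d2).2.2 with h | h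
    exacts [⟨_, (corner_cr p d).1, h⟩, ⟨_, (corner_cr p d).2, h⟩]
  have di : ∀ p, DF p → p ∈ intr n ∧ p ∈ Y := fun p ⟨d, d1, d2⟩ => hDY p d d1 d2
  set f : Pt → ℝ := fun z => max (Hp z) 0 with hf
  set h : Pt → ℝ := fun z => (hN N z).toReal with hh
  have h0 : ∀ z, 0 ≤ h z := fun z => ENNReal.toReal_nonneg
  have hrec : ∀ z, h z = (∑ d, if N.st z d then 1 / 4 else 0) + N.Pr h z := hN_toReal_rec N
  have s0 : ∀ z, nrm (z - c) ≤ 4 * (K0 * r) → (∑ d, if N.st z d then (1 / 4 : ℝ) else 0) = 0 :=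
    fun z hz => sum_eq_zero fun d _ => if_neg (hst z d hz)
  have sub : ∀ z ∈ intr n, ¬ DF z → f z ≤ (∑ d, if N.st z d then 1 / 4 else 0) + N.Pr f z :=
    fun z hz m => ldhnw_sub hz a2' (a6 z hz (Set.notMem_empty z) (fun d d1 d2 => m ⟨d, d2, d1⟩)
      fun d d1 => hE.conn _ (cr_mem_ebox hz d) d1)
  have ri : ∀ z, Reach n E v z → z ∈ intr n := by
    intro z hz
    induction hz with
    | refl => exact hv
    | tail _ k _ =>
      obtain ⟨d, k1, rfl⟩ := k
      exact k1.2.1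
  obtain ⟨κ, κ0, κ1, κ2⟩ : ∃ κ : ℝ, 0 ≤ κ ∧ (∀ p, DF p → Reach n E v p → f p ≤ κ) ∧
      (κ = 0 ∨ ∃ p, DF p ∧ Reach n E v p ∧ f p = κ) := by
    by_cases m : ((intr n).filter fun p => DF p ∧ Reach n E v p).Nonempty
    · obtain ⟨p, p1, p2⟩ := exists_max_image _ f m
      exact ⟨f p, le_max_right _ _, fun q q1 q2 => p2 q (mem_filter.2 ⟨ri q q2, q1, q2⟩),
        Or.inr ⟨p, (mem_filter.1 p1).2.1, (mem_filter.1 p1).2.2, rfl⟩⟩
    · exact ⟨0, le_rfl, fun q q1 q2 => absurd ⟨q, mem_filter.2 ⟨ri q q2, q1, q2⟩⟩ m, Or.inl rfl⟩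
  set u : Pt → ℝ := fun z => if Reach n E v z then max (f z - h z) 0 else 0 with hu
  have u0 : ∀ z, 0 ≤ u z := fun z => by
    simp only [hu]
    split_ifs
    exacts [le_max_right _ _, le_rfl]
  have u1 : ∀ z, Reach n E v z → f z - h z ≤ u z := fun z hz => by
    simp only [hu, if_pos hz]
    exact le_max_left _ _
  have u2 : ∀ z, ¬ DF z → u z ≤ N.Pr u z := by
    intro z m
    have p0 := Net.Pr_nonneg (N := N) u0 z
    by_cases hz : Reach n E v z
    · have e : u z = max (f z - h z) 0 := if_pos hz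
      rw [e]
      refine max_le ?_ p0
      have b1 := sub z (ri z hz) m
      have b2 := hrec z
      have b3 := ldhnw_mono N (g := fun z => f z - h z) (u := u) (u1 z hz)
        fun d md => u1 _ (hz.tail ⟨d, md, rfl⟩)
      rw [Net.Pr_sub] at b3
      linarith
    · have e : u z = 0 := if_neg hz
      rw [e]
      exact p0
  have u3 : ∀ z, DF z → u z ≤ κ := fun z m => by
    simp only [hu]
    split_ifs with hz
    · exact max_le (by linarith [κ1 z m hz, h0 z]) κ0
    · exact κ0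
  have u4 : ∀ z, u z ≤ κ := by
    intro z
    by_cases m : DF z
    · exact u3 z m
    by_cases hz : Reach n E v z
    · refine N.compare (u := u) (w := fun _ => κ) ((intr n).filter fun p => ¬ DF p)
        (fun y hy => ?_) (fun y _ d md m' => u3 _ ?_) z (mem_filter.2 ⟨ri z hz, m⟩)
      · linarith [u2 y (mem_filter.1 hy).2, ldhnw_const N κ0 y]
      · by_contra m2
        exact m' (mem_filter.2 ⟨md.2.1, m2⟩)
    · have e : u z = 0 := if_neg hz
      rw [e]
      exact κ0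
  have u5 : ∀ z, nrm (z - c) = r3 → u z ≤ (1 - c0) * κ := by
    refine hAB N u c (r + 1) κ (by omega) κ0 (fun l l1 _ => ?_) (fun z z1 _ => u2 z fun m => ?_)
      fun z _ => u4 z
    · obtain ⟨q, d, q1, q2⟩ := hNK
      exact far_net hE q d c l q1 (by rw [← hr3] at l1; omega)
    · have := dn z m
      push_cast at z1
      omega
  set B : ℝ := C0 / r ^ 2 * ∑ y ∈ Y.filter (Reach n E v), h y with hB
  have B0 : 0 ≤ B := mul_nonneg (by positivity) (sum_nonneg fun y _ => h0 y)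
  have mv : ∀ y ∈ Y.filter (Reach n E v), nrm (y - c) = r3 → h y ≤ B := by
    intro y hy e
    set g : Pt → ℝ := fun z => if z ∈ Y.filter (Reach n E v) then h z else 0 with hg
    have g0 : ∀ z, 0 ≤ g z := fun z => by
      simp only [hg]
      split_ifs
      exacts [h0 z, le_rfl]
    have b := hM N g y r hr g0 (fun z hz => by
      by_cases m : z ∈ Y.filter (Reach n E v)
      · have e1 : g z = h z := if_pos m
        have t := nrm_tri z y c
        have b1 := hrec z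
        rw [s0 z (by omega), zero_add] at b1
        refine e1.le.trans (b1.le.trans (ldhnw_mono N e1.ge fun d md => ge_of_eq (if_pos ?_)))
        exact mem_filter.2 ⟨hY z (mem_filter.1 m).1 d md (by omega),
          (mem_filter.1 m).2.tail ⟨d, md, rfl⟩⟩
      · have e1 : g z = 0 := if_neg m
        rw [e1]
        exact Net.Pr_nonneg g0 z)
    have e1 : g y = h y := if_pos hy
    rw [e1] at b
    refine b.trans (mul_le_mul_of_nonneg_left ?_ (by positivity))
    simp only [hg]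
    rw [← sum_filter]
    exact sum_le_sum_of_subset_of_nonneg (fun z hz => (mem_filter.1 hz).2) fun z _ _ => h0 z
  have c3 : 0 ≤ (1 - c0) * κ := mul_nonneg (by linarith) κ0
  have key : ∀ z ∈ intr n, nrm (z - c) < r3 → 0 < f z →
      f z ≤ (net n E).Pr f z ∨ ∃ y, LRe n E c r3 z y ∧ f z < f y := by
    intro z hz e pos
    by_cases m : DF z
    · right
      have hp : 0 < Hp z := by
        by_contra k
        rw [show f z = 0 from max_eq_right (not_lt.1 k)] at pos
        exact lt_irrefl _ pos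
      have fc : ∀ p, FConn (E ∩ D) z p → DF p ∧ Hp p = Hp z ∧ LRe n E c r3 z p := by
        intro p hp
        induction hp with
        | refl => exact ⟨m, rfl, .refl⟩
        | @tail a b _ k ih =>
          obtain ⟨d, k1, rfl⟩ := k
          obtain ⟨k2, k3⟩ := mem_inter.1 k1
          have m2 : DF (a + d.vec) := ⟨d.opp, by rwa [cr_opp], by rwa [cr_opp]⟩
          have := dn a ih.1
          exact ⟨m2, (a5 a d k2 k3).trans ih.2.1,
            ih.2.2.tail ⟨d, ⟨(di a ih.1).1, (di _ m2).1, k2⟩, by omega, rfl⟩⟩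
      obtain ⟨p, d, p1, p2, -, p4⟩ := hSIGN n E D X Hp Hs z hE (k1 ∅) a1
        (fun p hp => (di p (fc p hp).1).1) (dc z m) (fun k => by
          rw [sq z (dc z m), k] at hp
          norm_num at hp)
      obtain ⟨q1, q2, q3⟩ := fc p p1
      have := dn p q1
      have q4 : p + d.vec ∈ intr n := by
        by_contra k
        exact hst p d (by omega) ⟨(di p q1).1, k, p2⟩
      refine ⟨p + d.vec, q3.tail ⟨d, ⟨(di p q1).1, q4, p2⟩, by omega, rfl⟩, ?_⟩
      rw [show f z = Hp z from max_eq_left hp.le]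
      exact lt_of_lt_of_le (q2 ▸ p4) (le_max_left _ _)
    · left
      have := sub z hz m
      rwa [s0 z (by omega), zero_add] at this
  have main : ∀ p0 ∈ Y, Reach n E v p0 → nrm (p0 - c) ≤ r + 1 → f p0 ≤ B + (1 - c0) * κ := by
    intro p0 y0 r0 n0
    rcases ldhnw_max (n := n) (E := E) (f := f) (c := c) (R := r3) (ri p0 r0) (by omega)
      key with m | ⟨y, y1, y2, y3⟩
    · linarith
    · have yY : ∀ y, LRe n E c r3 p0 y → y ∈ Y := by
        intro y hy
        induction hy with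
        | refl => exact y0
        | @tail a b _ k ih =>
          obtain ⟨d, k1, k2, rfl⟩ := k
          exact hY a ih d k1 (by omega)
      have ry : Reach n E v y := r0.trans y1.reach
      linarith [mv y (mem_filter.2 ⟨yY y y1, ry⟩) y2, u5 y y2, u1 y ry]
  have κ3 : c0 * κ ≤ B := by
    rcases κ2 with m | ⟨p, p1, p2, p3⟩
    · rw [m, mul_zero]
      exact B0
    · have := main p (di p p1).2 p2 (dn p p1)
      linarith
  have fin := main v hvY .refl (by omega)
  have e1 : Gw n v E D ^ 2 ≤ f v := by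
    rw [← k4 v, ← sq v hvc]
    exact le_max_left _ _
  have e2 : C0 / c0 / r ^ 2 * ∑ y ∈ Y.filter (Reach n E v), h y = B / c0 := by
    rw [hB]
    ring
  rw [e2, le_div_iff₀ c1]
  nlinarith [mul_le_mul_of_nonneg_left κ3 (by linarith : 0 ≤ 1 - c0),
    mul_le_mul_of_nonneg_right (e1.trans fin) c1.le]

end Pool.Agent.P.MP_347bd1_pr.M

namespace Pool.Agent.P.MP_347bd1_pr.M

open Classical Finset Filter Topology
open scoped ENNReal NNReal

theorem niw_patch {n : ℕ} {E : Finset Edge} {c y y' : Pt} {u u' : ℤ} (h : Patch n E c u y y')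
    (hu : u ≤ u') : Patch n E c u' y y' := by
  obtain ⟨π, h1, h2, h3⟩ := h
  exact ⟨π, h1, h2, fun e he => ⟨(h3 e he).1.trans hu, (h3 e he).2.trans hu⟩⟩

theorem niw_sum (P : List Dir → Prop) [DecidablePred P] (c : ℝ≥0∞) :
    (∑' W, if P W then wt W * c else 0) = ms P * c := by
  rw [ms, ← ENNReal.tsum_mul_right]
  exact tsum_congr fun W => by split_ifs <;> simp

theorem p_NI (hNIG : S_NIG) :
    S_NI := by
  obtain ⟨M, -, hch⟩ := t_chain f_beur (t_harn f_hit)
  refine ⟨2 * M + 8, by omega, fun L hL => ?_⟩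
  obtain ⟨θ, hθ, hch⟩ := hch (16 * (L * (2 * M + 8)) + 9)
  refine ⟨θ, hθ, ?_⟩
  intro n S Y c u l R E2 K Gd g1 hu hR hloc hY hP hbar
  set N := net n (eS n S) with hN0
  have key : ∀ y ∈ Y, ∀ y' ∈ Y, ∀ W, Gd y W → hN (net n (E2 y W)) y' ≤ hN N y' ∧
      (¬ Many2 N ((2 * M + 8) * u) L l c y W → hN (net n (E2 y W)) y' ≤
        θ ^ (2 * l) * hN N y' + hm N y' (Many2 N ((2 * M + 8) * u) L l c y')) := by
    intro y hy y' hy' W hG
    have hb := hbar y W hG
    have hle : (net n (E2 y W)).Le N := net_le hb.sub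
    refine ⟨hN_mono hle y', fun hW2 => ?_⟩
    set N' := net n (E2 y W) with hN'
    let s : ℕ → ℕ := fun j => u * 5 ^ j
    let r : ℕ → ℕ := fun j => L * ((2 * M + 8) * s j)
    let A : ℕ → Set Pt := fun j => {z | (r j : ℤ) ≤ nrm (z - c) ∧ nrm (z - c) ≤ 4 * r j}
    let T : ℕ → Set Pt := fun j => {y | y ∈ A j ∧
      Kn N' (A j) (fun z => @ite _ (z ∈ A j) (propDecidable _) 0 (hN N z)) y ≤ θ * hN N y}
    have hs : ∀ j, 1 ≤ s j := fun j => Nat.mul_pos hu (by positivity)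
    have hr : ∀ j, 1 ≤ r j := fun j =>
      Nat.mul_pos (by omega) (Nat.mul_pos (by omega) (hs j))
    have hur : ∀ j, (u : ℤ) ≤ r j := by
      intro j
      have a1 : u ≤ s j := Nat.le_mul_of_pos_right _ (by positivity)
      have a2 : s j ≤ (2 * M + 8) * s j := Nat.le_mul_of_pos_left _ (by omega)
      have a3 : (2 * M + 8) * s j ≤ r j := Nat.le_mul_of_pos_left _ (by omega)
      exact_mod_cast a1.trans (a2.trans a3)
    have hrR : ∀ j < 4 * l, 8 * (r j : ℤ) ≤ R := by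
      intro j hj
      have : r j ≤ L * ((2 * M + 8) * u * 5 ^ (4 * l)) := by
        rw [mul_assoc]
        exact Nat.mul_le_mul_left _ (Nat.mul_le_mul_left _ (Nat.mul_le_mul_left _
          (Nat.pow_le_pow_right (by norm_num) hj.le)))
      have : (r j : ℤ) ≤ (L * ((2 * M + 8) * u * 5 ^ (4 * l)) : ℕ) := by exact_mod_cast this
      linarith
    have hr5 : ∀ i j, i < j → 5 * r i ≤ r j := by
      intro i j hij
      have e : 5 * r i = L * ((2 * M + 8) * (u * 5 ^ (i + 1))) := by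
        simp only [r, s]
        ring
      rw [e]
      exact Nat.mul_le_mul_left _ (Nat.mul_le_mul_left _ (Nat.mul_le_mul_left _
        (Nat.pow_le_pow_right (by norm_num) hij)))
    have hdis : ∀ i j, i < j → Disjoint (A i) (A j) := by
      intro i j hij
      rw [Set.disjoint_left]
      rintro z ⟨-, a2⟩ ⟨a3, -⟩
      have := hr5 i j hij
      have := hr i
      omega
    have hk := t_kill N N' (4 * l) A T θ hle
      (fun i _ j _ hij => (lt_or_gt_of_ne hij).elim (hdis i j) fun k => (hdis j i k).symm)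
      (fun j _ y hy => hy.1)
      (fun j hj z hz d => ni_noexit (X1 := ∅) (X2 := ∅) (v := c) (R := R)
        (by rw [union_empty]; exact hloc) (by rw [union_empty]; exact hb.sub) (by
        have := hrR j hj
        have := hr j
        have := hz.2
        omega) d)
      (fun j _ y hy => hy.2) (2 * l) y'
    rw [hN, ms_add_not _ (Many2 N ((2 * M + 8) * u) L l c y'), add_comm]
    refine add_le_add (le_trans (ms_mono fun W' k => ⟨k.1, ?_⟩) hk)
      (ms_mono fun W' k => ⟨k.1.le hle, k.2⟩)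
    refine ni_count rfl (fun j hj t2 t1 => ?_) hW2 k.2
    have e1 : (((2 * M + 8) * u : ℕ) : ℤ) * 5 ^ j = ((2 * M + 8) * s j : ℕ) := by
      simp only [s]
      push_cast
      ring
    have e2 : (L : ℤ) * ((2 * M + 8) * s j : ℕ) = r j := by
      simp only [r]
      push_cast
      ring
    rw [e1, e2] at t1 t2
    obtain ⟨l', x, y1, y2, y3, y4, y5⟩ := hNIG n S (E2 y W) (K y W) c y y' R M (s j) (r j) W W'
      g1 hloc (hs j) (Nat.mul_le_mul_right _ hL) (hrR j hj) hb k.1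
      (niw_patch (hP y hy y' hy') (hur j)) ((hY y hy).trans (hur j)) t2 t1
    refine ⟨x l', ⟨(y3 l' le_rfl (x l') ?_).1, ?_⟩, y5⟩
    · rw [sub_self, nrm_zero]
      positivity
    · refine hch N N' (A j) (s j) l' x hle (far_net hb.sc) (hs j) (y1.trans ?_) y2 y3 y4
      have := hs j
      simp only [r]
      nlinarith
  have one : ∀ y ∈ Y, ∀ y' ∈ Y,
      (∑' W, if Gd y W then wt W * hN (net n (E2 y W)) y' else 0) ≤
        hN N y * (θ ^ (2 * l) * hN N y') +
          hm N y (Many2 N ((2 * M + 8) * u) L l c y) * hN N y' +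
          hN N y * hm N y' (Many2 N ((2 * M + 8) * u) L l c y') := by
    intro y hy y' hy'
    calc (∑' W, if Gd y W then wt W * hN (net n (E2 y W)) y' else 0)
        ≤ ∑' W, ((if Run N y W then wt W * (θ ^ (2 * l) * hN N y') else 0) +
          (if Run N y W ∧ Many2 N ((2 * M + 8) * u) L l c y W then wt W * hN N y' else 0) +
          if Run N y W then wt W * hm N y' (Many2 N ((2 * M + 8) * u) L l c y') else 0) := by
          refine ENNReal.tsum_le_tsum fun W => ?_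
          by_cases k : Gd y W
          · have k1 : Run N y W := (hbar y W k).run
            rw [if_pos k, if_pos k1, if_pos k1]
            by_cases m : Many2 N ((2 * M + 8) * u) L l c y W
            · rw [if_pos ⟨k1, m⟩]
              exact le_add_right (le_add_left (mul_le_mul_right (key y hy y' hy' W k).1 _))
            · rw [if_neg fun a => m a.2, add_zero, ← mul_add]
              exact mul_le_mul_right ((key y hy y' hy' W k).2 m) _
          · rw [if_neg k]
            exact zero_le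
      _ = _ := by
          rw [ENNReal.tsum_add, ENNReal.tsum_add, niw_sum, niw_sum, niw_sum]
          rfl
  refine (sum_le_sum fun y hy => sum_le_sum fun y' hy' => one y hy y' hy').trans (le_of_eq ?_)
  simp only [sum_add_distrib, ← mul_sum, ← sum_mul]
  ring

end Pool.Agent.P.MP_347bd1_pr.M

namespace Pool.Agent.P.MP_347bd1_pr.M

open Classical Finset Filter Topology
open scoped ENNReal NNReal

theorem p_ZEQ :
    S_ZEQ := by
  intro n S T D0 A0 hn hS hT hA
  have hw : Zw n A0 (eS n S) D0 =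
      ∑ η ∈ (eS n S).powerset.filter (fun η => Src n η A0), xc ^ (η \ D0).card := by
    rw [Zw, sum_filter]
  rw [Zf_eq_filter, hw]
  refine sum_bij (fun M _ => cut (M ∪ T) ∩ eS n S) ?_ ?_ ?_ fun M _ => by
    rw [Finset.inter_sdiff_assoc]
  · intro M k
    exact mem_filter.2 ⟨mem_powerset.2 inter_subset_right,
      src_cut_eS (mem_powerset.1 (mem_filter.1 k).1) hA⟩
  · intro M k M' k' e
    exact cut_eS_inj hS hT (mem_powerset.1 (mem_filter.1 k).1)
      (mem_powerset.1 (mem_filter.1 k').1) e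
  · intro η k
    obtain ⟨k1, k2⟩ := mem_filter.1 k
    have k3 := mem_powerset.1 k1
    have k4 : symmDiff η (cut T ∩ (ebox n \ eS n S)) ⊆ ebox n := by
      intro e he
      rcases mem_symmDiff.1 he with m | m
      · exact eS_subset n S (k3 m.1)
      · exact (Finset.mem_sdiff.1 (mem_inter.1 m.1).2).1
    obtain ⟨D, d1, d2, d3⟩ := poin_ex t_poin hn k4
      ((k2.symmDiff hA).congr fun p _ => by simp) T
    have ht : ((1 : ℤ), (n : ℤ)) ∈ S := hS.top _ (by rw [mem_box]; simp only; omega) rfl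
    have key : ∀ w, Conn (ebox n \ (eS n S ∪ ∅)) ((1 : ℤ), (n : ℤ)) w → (w ∈ D ↔ w ∈ T) := by
      intro w hw
      induction hw with
      | refl => exact d3
      | @tail u _ _ m ih =>
        obtain ⟨d, m1, rfl⟩ := m
        rw [union_empty, Finset.mem_sdiff] at m1
        have m2 := Finset.ext_iff.1 d2 (inc u d)
        have m3 : inc u d ∉ η := fun a => m1.2 (k3 a)
        simp only [mem_inter, mem_symmDiff, Finset.mem_sdiff, inc_mem_cut, m1.1, m1.2, m3, and_true,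
          false_and, false_or, not_false_eq_true] at m2
        revert ih m2
        generalize (u ∈ D) = a1, (u ∈ T) = a2, (u + d.vec ∈ D) = a3, (u + d.vec ∈ T) = a4
        clear * -
        grind
    have key2 : ∀ w ∈ S, (w ∈ D ↔ w ∈ T) := fun w hw =>
      key w (conn_of_topConn hS.eS_top (hS.conn _ ht) (hS.conn w hw))
    have e : D \ S ∪ T = D := by
      ext w
      rw [mem_union, Finset.mem_sdiff]
      by_cases a : w ∈ S
      · simp [a, key2 w a]
      · simp [a, show w ∉ T from fun b => a (hT b)]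
    refine ⟨D \ S, mem_filter.2 ⟨mem_powerset.2 (sdiff_subset_sdiff d1 le_rfl), trivial⟩, ?_⟩
    rw [e]
    ext x
    have m1 := Finset.ext_iff.1 d2 x
    by_cases a : x ∈ eS n S
    · simpa [mem_symmDiff, a, eS_subset n S a] using m1
    · simp [a, show x ∉ η from fun b => a (k3 b)]

end Pool.Agent.P.MP_347bd1_pr.M

namespace Pool.Agent.P.MP_347bd1_pr.M

open Classical Finset Filter Topology
open scoped ENNReal NNReal

theorem p_BLK (hBULK : S_BULK) (hCORN : S_CORN) (hCNR : S_CNR) (hEXPL : S_EXPL) (hSYM : S_SYM) :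
    S_BLK := by
  intro ε hε
  obtain ⟨K, hK, hC⟩ := hCORN
  have hK0 : (0 : ℝ) < K := by exact_mod_cast hK
  obtain ⟨q, m1, hq, h1⟩ := hC (ε / 24) (by positivity)
  obtain ⟨m2, h2⟩ := hBULK (ε / 24) q (by positivity) hq
  obtain ⟨K3, h3⟩ := hCNR (ε / 24 / K ^ 2) (by positivity)
  refine ⟨m1 + m2 + K3 * (K + 2) + 6, fun n l hl hn ξ => ?_⟩
  have n1 : m1 * l ≤ n := (Nat.mul_le_mul_right l (by omega)).trans hn
  have n2 : m2 * l ≤ n := (Nat.mul_le_mul_right l (by omega)).trans hn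
  have n3 : K3 * ((K + 2) * l) ≤ n := by
    rw [← mul_assoc]
    exact (Nat.mul_le_mul_right l (by omega)).trans hn
  have n4 : 6 * l ≤ n := (Nat.mul_le_mul_right l (by omega)).trans hn
  have key : ∀ S, Good n S ∅ → ∑ z ∈ base n, PS n S (ArmB S z l) ≤ ε / 8 * l ^ 2 := fun S hS => by
    have a1 := h1 n l hl n1 S hS
    have a2 := h2 n l hl n2 S hS
    have a3 := h3 n ((K + 2) * l) S hS (Nat.mul_pos (by omega) hl) n3
    have a4 : ∑ z ∈ (base n).filter (fun z => z.1 < (K : ℤ) * l), PS n S (ArmB S z l) ≤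
        ε / 24 * l ^ 2 := by
      refine (sum_le_card_nsmul _ _ (ε / 24 / K ^ 2) fun z hz => le_trans ?_ a3).trans ?_
      · obtain ⟨z1, z2⟩ := mem_filter.1 hz
        obtain ⟨-, z3, -⟩ := mem_filter.1 z1
        refine Pr_mono fun M _ ⟨_, s, b, s1, s2, s3⟩ => ⟨s, b, ?_, ?_, s2, s3⟩
        all_goals
          rw [nrm_le_iff, Prod.fst_sub, Prod.snd_sub] at s1
          push_cast
          rw [add_mul]
          omega
      · have c1 : ((base n).filter fun z => z.1 < (K : ℤ) * l).card ≤ (K * l) ^ 2 := by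
          refine (card_le_card (t := Icc (1 : ℤ) (K * l : ℕ) ×ˢ
            Icc ((n : ℤ) - (K * l : ℕ) + 1) n) fun z hz => ?_).trans ?_
          · obtain ⟨z1, z2⟩ := mem_filter.1 hz
            obtain ⟨z0, z3, -⟩ := mem_filter.1 z1
            rw [mem_box] at z0
            simp only [mem_product, mem_Icc]
            push_cast
            omega
          · rw [card_product, Int.card_Icc, Int.card_Icc, add_sub_cancel_right,
              show (n : ℤ) + 1 - ((n : ℤ) - (K * l : ℕ) + 1) = (K * l : ℕ) by ring,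
              Int.toNat_natCast, sq]
        have c2 : (((base n).filter fun z => z.1 < (K : ℤ) * l).card : ℝ) ≤ (K * l) ^ 2 := by
          exact_mod_cast c1
        rw [nsmul_eq_mul]
        refine (mul_le_mul_of_nonneg_right c2 (by positivity)).trans_eq ?_
        field_simp
    rw [sum_filter] at a1 a2 a4
    refine le_trans (sum_le_sum fun z _ => ?_) ((add_le_add (add_le_add a1 a2) a4).trans_eq'
      (by rw [← sum_add_distrib, ← sum_add_distrib]) |>.trans_eq (by ring))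
    have p0 : 0 ≤ PS n S (ArmB S z l) := Pr_nonneg
    by_cases b1 : (n : ℤ) ≤ q * z.1 <;> by_cases b2 : z.1 < (K : ℤ) * l
    · simp [b1, b2, b2.not_ge, p0]
    · simp [b1, b2, b1.not_gt]
    · simp [b1, b2, b2.not_ge]
    · simp [b1, b2, not_le.1 b1, not_lt.1 b2]
  refine (hSYM n l (ε / 8 * l ^ 2) (by omega) (fun ξ => ?_) ξ).trans_eq (by ring)
  exact (sum_le_sum fun z _ => min_le_left _ _).trans (hEXPL n l ξ _ (by omega) key)

end Pool.Agent.P.MP_347bd1_pr.M
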