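import Pool.Agent.P.MP_347bd1_pr.M.Iface

/-! Steps PD, ABEUR, TH1, THN, P1, PC. -/

set_option autoImplicit false

namespace Pool.Agent.P.MP_347bd1_pr.M

open Classical Finset Filter Topology
open scoped ENNReal NNReal

/-- The tent function. -/
noncomputable def pdw_a (l : ℕ) (i : ℤ) : ℝ := ((max ((l : ℤ) - |i|) 0 : ℤ) : ℝ)

theorem pdw_zero {l : ℕ} {i : ℤ} (h : (l : ℤ) ≤ |i|) : pdw_a l i = 0 := by
  rw [pdw_a, max_eq_right (by omega), Int.cast_zero]

theorem pdw_bd (l : ℕ) (i : ℤ) : 0 ≤ pdw_a l i ∧ pdw_a l i ≤ l := by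
  have := abs_nonneg i
  unfold pdw_a
  constructor
  · exact_mod_cast le_max_right _ _
  · exact_mod_cast (max_le (by omega) (by omega) : max ((l : ℤ) - |i|) 0 ≤ (l : ℤ))

theorem pdw_lip (l : ℕ) (i e : ℤ) (he : |e| ≤ 1) : (pdw_a l i - pdw_a l (i + e)) ^ 2 ≤ 1 := by
  rw [sq_le_one_iff_abs_le_one, abs_le]
  have h1 := abs_add_le i e
  have h2 := abs_add_le (i + e) (-e)
  rw [add_neg_cancel_right, abs_neg] at h2
  unfold pdw_a
  constructor
  · exact_mod_cast (by omega : -1 ≤ max ((l : ℤ) - |i|) 0 - max ((l : ℤ) - |i + e|) 0)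
  · exact_mod_cast (by omega : max ((l : ℤ) - |i|) 0 - max ((l : ℤ) - |i + e|) 0 ≤ 1)

theorem pdw_shift (l : ℕ) (x : ℤ) (f : ℤ → ℝ) :
    ∑ z ∈ Icc (x - l) (x + l), f (x - z) = ∑ i ∈ Icc (-(l : ℤ)) l, f i := by
  refine sum_bij (fun z _ => x - z) (fun z h => ?_) (fun a _ b _ h => by omega)
    (fun i h => ⟨x - i, ?_, by ring⟩) fun _ _ => rfl
  · rw [mem_Icc] at h ⊢
    omega
  · rw [mem_Icc] at h ⊢
    omega

theorem pdw_sum0 (m l : ℕ) (h : m ≤ l) :
    ∑ i ∈ Icc (-(m : ℤ)) m, pdw_a l i = (2 * m + 1) * l - m * (m + 1) := by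
  induction m with
  | zero => simp [pdw_a]
  | succ m ih =>
    have e : Icc (-((m + 1 : ℕ) : ℤ)) ((m + 1 : ℕ) : ℤ) =
        insert (-((m : ℤ) + 1)) (insert ((m : ℤ) + 1) (Icc (-(m : ℤ)) m)) := by
      ext i
      simp only [mem_insert, mem_Icc]
      omega
    have v : ∀ i : ℤ, |i| = m + 1 → pdw_a l i = l - (m + 1) := fun i hi => by
      rw [pdw_a, hi, max_eq_left (by omega)]
      push_cast
      ring
    rw [e, sum_insert (by simp only [mem_insert, mem_Icc]; omega),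
      sum_insert (by simp only [mem_Icc]; omega), ih (by omega),
      v _ (by rw [abs_neg, abs_of_nonneg (by omega)]), v _ (abs_of_nonneg (by omega))]
    push_cast
    ring

theorem p_PD :
    S_PD := by
  refine ⟨50, by norm_num, fun l hl => ?_⟩
  have l1 : (1 : ℝ) ≤ l := by exact_mod_cast hl
  have l0 : (0 : ℝ) < l := by linarith
  let β : Pt → ℝ := fun z => pdw_a l z.1 * pdw_a l z.2 / l ^ 4
  have hβ : ∀ z, β z ≠ 0 → nrm z < l := fun z h => by
    by_contra k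
    rcases le_max_iff.1 (not_lt.1 k) with k | k
    · exact h (by simp only [β, pdw_zero k, zero_mul, zero_div])
    · exact h (by simp only [β, pdw_zero k, mul_zero, zero_div])
  have s1 : ∑ i ∈ Icc (-(l : ℤ)) l, pdw_a l i = l ^ 2 := by
    rw [pdw_sum0 l l le_rfl]
    ring
  have cb : ∀ (x : Pt) (r : ℕ), ((ball x r).card : ℝ) = (2 * r + 1) ^ 2 := fun x r => by
    rw [ball, card_product, Int.card_Icc, Int.card_Icc,
      show x.1 + r + 1 - (x.1 - r) = ((2 * r + 1 : ℕ) : ℤ) by push_cast; ring,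
      show x.2 + r + 1 - (x.2 - r) = ((2 * r + 1 : ℕ) : ℤ) by push_cast; ring, Int.toNat_natCast]
    push_cast
    ring
  have red : ∀ (Z : Finset Pt) (x : Pt) (g : Pt → ℝ), ball x l ⊆ Z →
      (∀ z, (l : ℤ) < nrm (z - x) → g z = 0) → ∑ z ∈ Z, g z = ∑ z ∈ ball x l, g z :=
    fun Z x g h hg => (sum_subset h fun z _ k => hg z (not_le.1 fun m => k (mem_ball.2 m))).symm
  have far : ∀ x z : Pt, (l : ℤ) < nrm (z - x) → β (x - z) = 0 ∧
      ∀ d : Dir, β (x + d.vec - z) = 0 := fun x z h => by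
    refine ⟨by_contra fun k => ?_, fun d => by_contra fun k => ?_⟩
    · have := hβ _ k
      rw [nrm_sub_comm] at this
      omega
    · have := hβ _ k
      have := (nrm_step x z d).2
      rw [nrm_sub_comm] at h
      omega
  have prod : ∀ (x : Pt) (f : ℤ → ℝ), ∑ z ∈ ball x l, f (x - z).1 * f (x - z).2 =
      (∑ i ∈ Icc (-(l : ℤ)) l, f i) ^ 2 := fun x f => by
    rw [sq]
    nth_rewrite 1 [← pdw_shift l x.1 f]
    rw [← pdw_shift l x.2 f, sum_mul_sum, ball, sum_product]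
    rfl
  refine ⟨β, (∑ i ∈ Icc (-(l : ℤ)) l, pdw_a l i ^ 2) ^ 2 / l ^ 8, hβ, ?_, fun Z x hZ =>
    ⟨?_, ?_, fun d => ?_⟩⟩
  · have h1 : ∑ i ∈ Icc (-(l : ℤ)) l, pdw_a l i ^ 2 ≤ l * l ^ 2 := by
      rw [← s1, mul_sum]
      exact sum_le_sum fun i _ => by nlinarith [pdw_bd l i]
    have h2 : (∑ i ∈ Icc (-(l : ℤ)) l, pdw_a l i ^ 2) ^ 2 ≤ (l * l ^ 2) ^ 2 := by
      gcongr
    refine (div_le_div_of_nonneg_right h2 (by positivity)).trans ?_
    rw [show ((l : ℝ) * l ^ 2) ^ 2 / l ^ 8 = 1 / l ^ 2 by field_simp]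
    gcongr
    norm_num
  · rw [red Z x _ hZ fun z h => (far x z h).1]
    simp only [β]
    rw [← sum_div, prod, s1]
    field_simp
  · rw [red Z x _ hZ fun z h => by rw [(far x z h).1]; ring]
    simp only [β, div_pow, mul_pow]
    rw [← sum_div, prod x fun i => pdw_a l i ^ 2]
    ring
  · rw [red Z x _ hZ fun z h => by rw [(far x z h).1, (far x z h).2]; ring]
    have key : ∀ z, (β (x - z) - β (x + d.vec - z)) ^ 2 ≤ 1 / l ^ 6 := fun z => by
      have e : x + d.vec - z = ((x - z).1 + d.vec.1, (x - z).2 + d.vec.2) := by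
        ext <;> simp <;> ring
      rw [e]
      generalize (x - z) = y
      have b1 := pdw_bd l y.1
      have b2 := pdw_bd l y.2
      have k : (pdw_a l y.1 * pdw_a l y.2 -
          pdw_a l (y.1 + d.vec.1) * pdw_a l (y.2 + d.vec.2)) ^ 2 ≤ l ^ 2 := by
        have q1 : pdw_a l y.1 ^ 2 ≤ l ^ 2 := by nlinarith
        have q2 : pdw_a l y.2 ^ 2 ≤ l ^ 2 := by nlinarith
        cases d <;> simp only [Dir.vec, add_zero]
        · rw [← mul_sub, mul_pow]
          nlinarith [pdw_lip l y.2 1 (by simp), sq_nonneg (pdw_a l y.1)]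
        · rw [← sub_mul, mul_pow]
          nlinarith [pdw_lip l y.1 1 (by simp), sq_nonneg (pdw_a l y.2)]
        · rw [← mul_sub, mul_pow]
          nlinarith [pdw_lip l y.2 (-1) (by simp), sq_nonneg (pdw_a l y.1)]
        · rw [← sub_mul, mul_pow]
          nlinarith [pdw_lip l y.1 (-1) (by simp), sq_nonneg (pdw_a l y.2)]
      simp only [β]
      rw [← sub_div, div_pow]
      refine (div_le_div_of_nonneg_right k (by positivity)).trans (le_of_eq ?_)
      field_simp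
    refine (sum_le_card_nsmul _ _ _ fun z _ => key z).trans ?_
    rw [nsmul_eq_mul, cb, mul_one_div, div_le_div_iff₀ (by positivity) (by positivity)]
    have : (2 * (l : ℝ) + 1) ^ 2 ≤ 50 * l ^ 2 := by nlinarith
    calc _ ≤ 50 * l ^ 2 * (l : ℝ) ^ 4 := by gcongr
      _ = _ := by ring

end Pool.Agent.P.MP_347bd1_pr.M

namespace Pool.Agent.P.MP_347bd1_pr.M

open Classical Finset Filter Topology
open scoped ENNReal NNReal

/-- The logarithmic potential. -/
noncomputable def abeurw_l (y : Pt) : ℝ := Real.log (y.1 ^ 2 + y.2 ^ 2 + 1)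

theorem abeurw_sub (p z : Pt) : abeurw_l (z - p) ≤ avg (fun y => abeurw_l (y - p)) z := by
  have h := t_log.1 (z - p)
  have e : avg (fun y => abeurw_l (y - p)) z =
      avg (fun y : Pt => Real.log (y.1 ^ 2 + y.2 ^ 2 + 1)) (z - p) := by
    unfold avg
    congr 1
    refine sum_congr rfl fun d _ => ?_
    beta_reduce
    rw [show z + d.vec - p = z - p + d.vec by abel]
    rfl
  rw [e]
  exact h

theorem abeurw_le {y : Pt} {r : ℕ} (h : nrm y ≤ r) : abeurw_l y ≤ Real.log (2 * (r : ℝ) ^ 2 + 1) := by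
  refine Real.log_le_log (by positivity) ?_
  have h1 := (hit_sq_le y).2
  have h2 := nrm_nonneg y
  have h3 : y.1 ^ 2 + y.2 ^ 2 + 1 ≤ 2 * (r : ℤ) ^ 2 + 1 := by nlinarith
  exact_mod_cast h3

theorem abeurw_ge {y : Pt} {r : ℕ} (h : (r : ℤ) ≤ nrm y) :
    Real.log ((r : ℝ) ^ 2 + 1) ≤ abeurw_l y := by
  refine Real.log_le_log (by positivity) ?_
  have h1 := (hit_sq_le y).1
  have h2 : (0 : ℤ) ≤ r := Int.natCast_nonneg r
  have h3 : (r : ℤ) ^ 2 + 1 ≤ y.1 ^ 2 + y.2 ^ 2 + 1 := by nlinarith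
  exact_mod_cast h3

/-- The barrier of the annulus. -/
theorem abeurw_bar {c : ℝ} (hc : 0 < c) : ∃ K : ℕ, 2 ≤ K ∧ ∀ (p : Pt) (w : ℕ), 1 ≤ w →
    ∃ g : Pt → ℝ, (∀ z, avg g z ≤ g z) ∧ (∀ z, nrm (z - p) ≤ w → 1 ≤ g z) ∧
      (∀ z, nrm (z - p) ≤ 10 * ((K * w : ℕ) : ℤ) → 0 ≤ g z) ∧
      ∀ z, ((K * w : ℕ) : ℤ) ≤ nrm (z - p) → g z ≤ c := by
  obtain ⟨K0, hK0⟩ := exists_nat_ge (Real.exp (Real.log 200 / c))
  refine ⟨K0 + 2, by omega, fun p w hw => ?_⟩
  set K := K0 + 2 with hK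
  have hK2 : (2 : ℝ) ≤ K := by rw [hK]; push_cast; linarith [(Nat.cast_nonneg K0 : (0 : ℝ) ≤ K0)]
  have hK1 : Real.log 200 / c ≤ Real.log K := by
    rw [Real.le_log_iff_exp_le (by linarith)]
    rw [hK]; push_cast; linarith
  have hw' : (1 : ℝ) ≤ w := by exact_mod_cast hw
  set A := Real.log (2 * ((10 * (K * w) : ℕ) : ℝ) ^ 2 + 1) with hA
  set a := Real.log (2 * (w : ℝ) ^ 2 + 1) with ha
  have h1 : Real.log K ≤ A - a := by
    rw [le_sub_iff_add_le, ha, hA, ← Real.log_mul (by linarith) (by positivity)]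
    refine Real.log_le_log (by positivity) ?_
    push_cast
    have h2 : (1 : ℝ) ≤ (w : ℝ) ^ 2 := by nlinarith
    have h3 : (K : ℝ) * (2 * w ^ 2 + 1) ≤ K * (3 * w ^ 2) :=
      mul_le_mul_of_nonneg_left (by linarith) (by linarith)
    have h4 : (K : ℝ) * (3 * w ^ 2) ≤ K * (200 * K * w ^ 2) :=
      mul_le_mul_of_nonneg_left (by nlinarith) (by linarith)
    nlinarith
  have h0 : 0 < A - a := lt_of_lt_of_le (Real.log_pos (by linarith)) h1
  refine ⟨fun z => (A - abeurw_l (z - p)) / (A - a), fun z => ?_, fun z hz => ?_, fun z hz => ?_,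
    fun z hz => ?_⟩
  · have h2 := abeurw_sub p z
    rw [le_div_iff₀ h0]
    unfold avg at h2 ⊢
    rw [sum_dir] at h2 ⊢
    beta_reduce at h2 ⊢
    field_simp
    linarith
  · rw [le_div_iff₀ h0]
    linarith [abeurw_le hz]
  · refine div_nonneg (sub_nonneg.2 (abeurw_le ?_)) h0.le
    exact_mod_cast hz
  · rw [div_le_iff₀ h0]
    have h2 := abeurw_ge hz
    have h3 : A ≤ Real.log 200 + Real.log (((K * w : ℕ) : ℝ) ^ 2 + 1) := by
      rw [hA, ← Real.log_mul (by norm_num) (by positivity)]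
      refine Real.log_le_log (by positivity) ?_
      push_cast
      nlinarith [sq_nonneg ((K : ℝ) * w)]
    have h4 : Real.log 200 ≤ c * (A - a) := by
      rw [div_le_iff₀ hc] at hK1
      nlinarith
    linarith

theorem p_ABEUR :
    S_ABEUR := by
  obtain ⟨c, hc0, hc1, H⟩ := f_hit
  obtain ⟨K, hK, hg⟩ := abeurw_bar (half_pos hc0)
  refine ⟨c / 10, by linarith, by linarith, K, hK, fun N u p w B hw hB hk h1 h2 => ?_⟩
  obtain ⟨g, g0, g1, g2, g3⟩ := hg p w hw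
  have es : ((K * w : ℕ) : ℤ) = K * w := by push_cast; rfl
  have hs : w < K * w := by nlinarith
  rw [← es] at hk h1 h2 ⊢
  generalize K * w = s at *
  have hk' : ∀ l : ℤ, ∃ q', (s : ℤ) ≤ l → l ≤ 2 * s → nrm (q' - p) = l ∧ ∃ d', ¬ N.mv q' d' :=
    fun l => by
      by_cases hl : (s : ℤ) ≤ l ∧ l ≤ 2 * s
      · obtain ⟨q', d', k1, k2⟩ := hk l hl.1 hl.2
        exact ⟨q', fun _ _ => ⟨k1, d', k2⟩⟩
      · exact ⟨p, fun a b => absurd ⟨a, b⟩ hl⟩
  choose k hk' using hk'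
  obtain ⟨f, f0, f1, f2, f3⟩ := H p s k (by omega) fun l a b => (hk' l a b).1
  let F : Pt → ℝ := fun z => max (f z - max (g z) 0) 0
  have F0 : ∀ z, 0 ≤ F z ∧ F z ≤ 1 := fun z => ⟨le_max_right _ _, max_le (by
    linarith [(f0 z).2, le_max_right (g z) 0]) zero_le_one⟩
  have F1 : ∀ z, nrm (z - p) ≤ 10 * s → f z - g z ≤ F z := fun z hz => by
    have h : F z = max (f z - max (g z) 0) 0 := rfl
    rw [h, max_eq_left (g2 z hz)]
    exact le_max_left _ _
  have F2 : ∀ z, f z ≤ g z → F z = 0 := fun z hz =>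
    max_eq_right (by linarith [le_max_left (g z) 0])
  have F3 : ∀ z, nrm (z - p) < 10 * s → f z ≤ avg f z → F z ≤ avg F z := fun z hz h => by
    have a0 := g0 z
    have a1 : ∀ d : Dir, f (z + d.vec) - g (z + d.vec) ≤ F (z + d.vec) := fun d =>
      F1 _ (by have := (nrm_step z p d).1; omega)
    have a2 : ∀ d : Dir, 0 ≤ F (z + d.vec) := fun d => (F0 _).1
    unfold avg at a0 h ⊢
    rw [sum_dir] at a0 h ⊢
    refine max_le ?_ ?_
    · linarith [le_max_left (g z) 0, a1 .N, a1 .E, a1 .S, a1 .W]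
    · linarith [a2 .N, a2 .E, a2 .S, a2 .W]
  have hc := N.compare (u := u) (w := fun y => B * (1 - F y / 5))
    ((ball p (10 * s - 1)).filter fun z => (w : ℤ) < nrm (z - p))
    (fun z hz => by
      obtain ⟨z1, z2⟩ := mem_filter.1 hz
      have z3 : nrm (z - p) < 10 * s := by have := mem_ball.1 z1; omega
      have a1 := h1 z z2 z3
      have a2 := beur_super N F0 (z := z) fun hm => F3 z z3 (f2 z fun l a b e => by
        obtain ⟨d', hd'⟩ := (hk' l a b).2
        exact hd' (e ▸ hm d'))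
      have a3 := mul_le_mul_of_nonneg_left a2 hB
      rw [Net.Pr_mul]
      linarith)
    (fun z hz d _ hd => by
      obtain ⟨z1, z2⟩ := mem_filter.1 hz
      have z3 : nrm (z + d.vec - p) ≤ 10 * s := by
        have := mem_ball.1 z1
        have := (nrm_step z p d).1
        omega
      have a1 : F (z + d.vec) = 0 := by
        refine F2 _ ?_
        by_cases hb : z + d.vec ∈ ball p (10 * s - 1)
        · have : ¬ (w : ℤ) < nrm (z + d.vec - p) := fun a => hd (mem_filter.2 ⟨hb, a⟩)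
          exact (f0 _).2.trans (g1 _ (not_lt.1 this))
        · rw [f1 _ (beur_bdry z1 hb).ge]
          exact g2 _ z3
      rw [a1]
      simpa using h2 _ z3)
  intro z hz
  have a1 := hc z (mem_filter.2 ⟨mem_ball.2 (by omega), by omega⟩)
  have a2 : c / 2 ≤ F z := by linarith [F1 z (by omega), f3 z hz.le, g3 z hz.ge]
  have a3 := mul_le_mul_of_nonneg_left a2 hB
  linarith

end Pool.Agent.P.MP_347bd1_pr.M

namespace Pool.Agent.P.MP_347bd1_pr.M

open Classical Finset Filter Topology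
open scoped ENNReal NNReal

theorem th1w_congr {F F' : Finset Edge} {U T T' : Finset Pt}
    (h : ∀ M ⊆ U, cut (M ∪ T) ∩ F = cut (M ∪ T') ∩ F') :
    Zf F U T (fun _ => True) = Zf F' U T' fun _ => True :=
  sum_congr rfl fun M hM => by rw [h M (mem_powerset.1 hM)]

theorem th1w_cr {a u : Pt} {d : Dir} (h : Corner a u) (h' : Corner (a + d.vec) u) :
    ea (cr a d) = u ∨ eb (cr a d) = u := by
  obtain ⟨a1, a2⟩ := a; obtain ⟨u1, u2⟩ := u
  cases d <;> simp [Corner, cr, ea, eb, Dir.vec] at h h' ⊢ <;> omega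

theorem th1w_near {p u o : Pt} {l : ℤ} (h : Corner p u) (hu : nrm (u - o) ≤ l) :
    nrm (p - o) ≤ l + 1 := by
  rw [nrm_le_iff] at hu ⊢
  simp only [Corner, Prod.fst_sub, Prod.snd_sub] at h hu ⊢
  omega

theorem th1w_near2 {p u v o : Pt} {l : ℤ} (h : Corner p u) (h' : Corner p v)
    (hu : nrm (u - o) ≤ l) : nrm (v - o) ≤ l + 1 := by
  rw [nrm_le_iff] at hu ⊢
  simp only [Corner, Prod.fst_sub, Prod.snd_sub] at h h' hu ⊢
  omega

theorem th1w_four {Y : Finset Pt} {u : Pt}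
    (st : ∀ (a : Pt) (d : Dir), Corner a u → Corner (a + d.vec) u → a ∈ Y → a + d.vec ∈ Y)
    {p q : Pt} (hp : Corner p u) (hq : Corner q u) (h : p ∈ Y) : q ∈ Y := by
  obtain ⟨p1, p2⟩ := p
  obtain ⟨q1, q2⟩ := q
  have hm : Corner (q1, p2) u := ⟨hq.1, hp.2⟩
  have hp' := hp
  have hq' := hq
  simp only [Corner] at hp' hq'
  have h1 : (q1, p2) ∈ Y := by
    have : (q1, p2) = (p1, p2) ∨ (q1, p2) = (p1, p2) + Dir.E.vec ∨
        (q1, p2) = (p1, p2) + Dir.W.vec := by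
      simp only [Dir.vec, Prod.ext_iff, Prod.fst_add, Prod.snd_add, and_true]
      omega
    rcases this with e | e | e
    · rwa [e]
    · rw [e] at hm ⊢; exact st _ _ hp hm h
    · rw [e] at hm ⊢; exact st _ _ hp hm h
  have : (q1, q2) = (q1, p2) ∨ (q1, q2) = (q1, p2) + Dir.N.vec ∨
      (q1, q2) = (q1, p2) + Dir.S.vec := by
    simp only [Dir.vec, Prod.ext_iff, Prod.fst_add, Prod.snd_add, true_and]
    omega
  rcases this with e | e | e
  · rwa [e]
  · rw [e] at hq ⊢; exact st _ _ hm hq h1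
  · rw [e] at hq ⊢; exact st _ _ hm hq h1

theorem th1w_face (e : Edge) : ∃ p d, cr p d = e ∧ Corner p (ea e) ∧ Corner p (eb e) := by
  obtain ⟨d, hd⟩ := exists_cr e
  have := corner_cr (ea e) d
  rw [hd] at this
  exact ⟨_, d, hd, this⟩

theorem th1w_star (e : Edge) : Star (ea e) (eb e) ∧ Star (eb e) (ea e) := by
  obtain ⟨d, -, h⟩ := exists_inc e
  have : nrm (eb e - ea e) = 1 := by rw [h, add_sub_cancel_left, nrm_vec]
  exact ⟨(nrm_sub_comm _ _).trans this, this⟩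

theorem p_TH1 (hGKSZ : S_GKSZ) (hTH0 : S_TH0) (hSLIT : S_SLIT) (hWF : S_WF) :
    S_TH1 := by
  obtain ⟨K0, hK0, c, hc, hT0⟩ := hTH0
  refine ⟨max K0 3, le_max_of_le_right (by norm_num), c, hc, ?_⟩
  intro n S T v1 v2 o w r R hS hC hw hT hK hR hA
  obtain ⟨-, w2, w3, w4, w5, -⟩ := hWF n S T v1 v2 hS hC
  have hK1 : K0 * w ≤ r := (Nat.mul_le_mul_right w (le_max_left _ _)).trans hK
  have hK2 : 3 * w ≤ r := (Nat.mul_le_mul_right w (le_max_right _ _)).trans hK
  have hW : ∀ u ∈ Wf n S T, u ∈ box n ∧ u ∉ S ∧ u ∉ T := fun u hu => by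
    have := (mem_filter.1 hu).1
    simpa only [Finset.mem_sdiff, mem_union, not_or] using this
  set W := Wf n S T with hWdef
  set E := eS n (box n \ W) with hE
  set Y := Yf n E o R v1 with hY
  set F := E \ Df S E o r Y with hF
  have hTw : ∀ t ∈ T, nrm (t - o) ≤ w := fun t ht => mem_ball.1 (hT ht)
  have hEm : ∀ e, e ∈ E ↔ (ea e ∈ box n ∧ eb e ∈ box n) ∧ (ea e ∈ W ∨ eb e ∈ W) := fun e => by
    rw [hE, mem_eS, mem_ebox]
    simp only [Finset.mem_sdiff]
    grind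
  have hends : ∀ e ∈ E, (ea e ∈ W ∨ ea e ∈ S ∨ ea e ∈ T) ∧ (eb e ∈ W ∨ eb e ∈ S ∨ eb e ∈ T) := by
    intro e he
    obtain ⟨⟨h1, h2⟩, h3 | h3⟩ := (hEm e).1 he
    · exact ⟨.inl h3, w3 _ h3 _ h2 (th1w_star e).1⟩
    · exact ⟨w3 _ h3 _ h1 (th1w_star e).2, .inl h3⟩
  have hTT : ∀ x, (x ∈ W ∨ x ∈ S ∨ x ∈ T) → (x ∈ (box n \ W) \ S ↔ x ∈ T) := by
    intro x hx
    refine ⟨fun h => ?_, fun h => Finset.mem_sdiff.2 ⟨w2 (mem_union_right _ h), (hC.ins x h).1⟩⟩
    simp only [Finset.mem_sdiff] at h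
    grind
  have ha : Zf F W ((box n \ W) \ S) (fun _ => True) = Zf F W T fun _ => True :=
    th1w_congr fun M _ => by
      ext e
      simp only [mem_inter, mem_cut, mem_union]
      refine and_congr_left fun he => ?_
      have := hends e (Finset.mem_sdiff.1 he).1
      rw [hTT _ this.1, hTT _ this.2]
  have hLR : ∀ p, FConn (ETf n S T) v1 p → LRe n E o R v1 p := by
    intro p hp
    refine rtg_mono (fun a b hab => ?_) hp
    obtain ⟨d, k, e⟩ := hab
    refine ⟨d, ?_, ?_, e⟩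
    · obtain ⟨p', d', h1, h2, h3⟩ := w5 _ k
      have h4 : cr a d ∈ E := by
        have k' := k
        rw [← w4] at k'
        exact (mem_inter.1 k').2
      rcases cr_eq_iff.1 h1 with ⟨rfl, rfl⟩ | ⟨rfl, rfl⟩
      · exact ⟨h2, h3, h4⟩
      · exact ⟨by simpa using h3, h2, h4⟩
    · have h1 := mem_cut.1 (mem_filter.1 k).1
      have h2 : ea (cr a d) ∈ T ∨ eb (cr a d) ∈ T := by clear * - h1; grind
      rcases h2 with h2 | h2
      · have := th1w_near (corner_cr a d).1 (hTw _ h2)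
        omega
      · have := th1w_near (corner_cr a d).2 (hTw _ h2)
        omega
  let W1 : Finset Pt := W.filter fun u => nrm (u - o) ≤ (r : ℤ) - 1 ∧ ∃ p ∈ Y, Corner p u
  have hW1 : ∀ u, u ∈ W1 ↔ u ∈ W ∧ nrm (u - o) ≤ (r : ℤ) - 1 ∧ ∃ p ∈ Y, Corner p u :=
    fun u => mem_filter
  have hTW : ∀ p t u, t ∈ T → u ∈ W → Corner p t → Corner p u → u ∈ W1 := by
    intro p t u ht hu h1 h2
    have h3 := th1w_near2 h1 h2 (hTw t ht)
    have h4 := th1w_near h1 (hTw t ht)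
    exact (hW1 u).2 ⟨hu, by omega, p, mem_filter.2 ⟨mem_ball.2 (by omega),
      hLR p (hC.path p ⟨t, ht, h1⟩ ⟨u, hu, h2⟩)⟩, h2⟩
  have hall : ∀ u ∈ W1, ∀ q, Corner q u → q ∈ Y := by
    intro u hu q hq
    obtain ⟨h1, h2, p, hp, hpu⟩ := (hW1 u).1 hu
    have h3 : u.2 ≠ n := fun k => (hW u h1).2.1 (hS.top u (hW u h1).1 k)
    have h4 := mem_box.1 (hW u h1).1
    have h5 : ∀ a, Corner a u → a ∈ intr n := fun a k => by
      have h6 := nrm_le_iff.1 h2
      obtain ⟨a1, a2, a3⟩ := hA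
      simp only [Corner, Prod.fst_sub, Prod.snd_sub] at k h6
      rw [mem_intr]
      omega
    refine th1w_four (fun a d k k' m => ?_) hpu hq hp
    have h6 := th1w_near k h2
    have h7 := th1w_near k' h2
    refine mem_filter.2 ⟨mem_ball.2 (by omega), (mem_filter.1 m).2.tail
      ⟨d, ⟨h5 _ k, h5 _ k', (hEm _).2 ⟨mem_ebox.1 (cr_mem_ebox (h5 _ k) d), ?_⟩⟩, by omega, rfl⟩⟩
    rcases th1w_cr k k' with e | e
    · exact .inl (e ▸ h1)
    · exact .inr (e ▸ h1)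
  have hsub : W1 ⊆ W := filter_subset _ _
  have hdis : Disjoint W T := disjoint_left.2 fun u hu => (hW u hu).2.2
  obtain ⟨t0, ht0, -⟩ := hC.touch
  have hb := hGKSZ F F W W W1 T T ⟨t0, ht0⟩ le_rfl le_rfl le_rfl
    (union_subset_union hsub le_rfl) hdis (hdis.mono_left hsub) (by simp)
  have hc1 : Zf F W1 T (fun _ => True) = Zf (F ∩ einc W1) W1 T fun _ => True :=
    th1w_congr fun M hM => by
      ext e
      simp only [mem_inter, mem_cut, mem_union, mem_einc]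
      refine and_congr_right fun h1 => ⟨fun h2 => ⟨h2, ?_⟩, fun h2 => h2.1⟩
      obtain ⟨p, d, -, k1, k2⟩ := th1w_face e
      have h3 := ((hEm e).1 (Finset.mem_sdiff.1 h2).1).2
      by_cases m1 : ea e ∈ M
      · exact .inl (hM m1)
      by_cases m2 : eb e ∈ M
      · exact .inr (hM m2)
      have h4 : ea e ∈ T ∨ eb e ∈ T := by clear * - h1 m1 m2; grind
      rcases h4 with h4 | h4
      · exact .inr (hTW p _ _ h4 (h3.resolve_left fun k => (hW _ k).2.2 h4) k1 k2)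
      · exact .inl (hTW p _ _ h4 (h3.resolve_right fun k => (hW _ k).2.2 h4) k2 k1)
  have hc2 : Zf F W1 ∅ (fun _ => True) = Zf (F ∩ einc W1) W1 ∅ fun _ => True :=
    th1w_congr fun M hM => by
      ext e
      simp only [mem_inter, mem_cut, union_empty, mem_einc]
      refine and_congr_right fun h1 => ⟨fun h2 => ⟨h2, ?_⟩, fun h2 => h2.1⟩
      have h4 : ea e ∈ M ∨ eb e ∈ M := by clear * - h1; grind
      exact h4.imp (@hM _) (@hM _)
  obtain ⟨⟨y, hy, hy1⟩, t1, ht1, ht2⟩ := hC.c1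
  have hb1 : ((1 : ℤ), (n : ℤ)) ∈ box n := by
    obtain ⟨a1, a2, a3⟩ := hA
    rw [mem_box]
    simp only
    omega
  obtain ⟨G, hG, hG1⟩ := hSLIT S o y (1, n) w r (by omega) (by omega) hy
    (hS.nn_conn hy (hS.top _ hb1 rfl)) (th1w_near2 ht2 hy1 (hTw _ ht1)) (by
      by_contra k
      have h6 := nrm_lt_iff.1 (not_le.1 k)
      obtain ⟨a1, a2, a3⟩ := hA
      simp only [Prod.fst_sub, Prod.snd_sub] at h6
      omega)
  have key : ∀ (e : Edge) (p : Pt) (d : Dir) (u x : Pt), e ∈ F → cr p d = e → Corner p u →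
      Corner p x → u ∈ W1 → (x ∈ W ∨ x ∈ S ∨ x ∈ T) → (x = ea e ∨ x = eb e) →
      Corner p (ea e) → Corner p (eb e) → x ∈ W1 ∪ T ∨ nrm (x - o) = r := by
    intro e p d u x he hp k1 k2 hu hx hx' k3 k4
    have h1 := ((hW1 u).1 hu).2.1
    have h2 := th1w_near2 k1 k2 h1
    have h3 := th1w_near2 k1 k3 h1
    have h4 := th1w_near2 k1 k4 h1
    have h5 := hall u hu p k1
    by_cases m : nrm (x - o) = r
    · exact .inr m
    refine .inl (mem_union.2 ?_)
    rcases hx with hx | hx | hx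
    · exact .inl ((hW1 x).2 ⟨hx, by omega, p, h5, k2⟩)
    · refine absurd (mem_filter.2 ⟨(Finset.mem_sdiff.1 he).1, ?_, by omega, by omega, p, h5, d, hp⟩)
        (Finset.mem_sdiff.1 he).2
      rcases hx' with rfl | rfl
      · exact .inl hx
      · exact .inr hx
    · exact .inr hx
  have hd := hT0 w r o (F ∩ einc W1) W1 T G hw hK1 ⟨t0, ht0⟩ hT
    (fun u hu => mem_ball.2 ((hW1 u).1 hu).2.1) (hdis.mono_left hsub) hG1
    (disjoint_left.2 fun g hg k => (hW g (hsub k)).2.1 (hG hg)) (fun e he => by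
      obtain ⟨h1, h2⟩ := mem_inter.1 he
      obtain ⟨p, d, k0, k1, k2⟩ := th1w_face e
      have h3 := hends e (Finset.mem_sdiff.1 h1).1
      refine ⟨mem_einc.1 h2, ?_⟩
      rcases mem_einc.1 h2 with h4 | h4
      · exact ⟨.inl (mem_union_left _ h4), key e p d _ _ h1 k0 k1 k2 h4 h3.2 (.inr rfl) k1 k2⟩
      · exact ⟨key e p d _ _ h1 k0 k2 k1 h4 h3.1 (.inl rfl) k1 k2, .inl (mem_union_left _ h4)⟩)
  rw [← hc1, ← hc2] at hd
  rw [ha]
  refine le_of_mul_le_mul_right (le_trans ?_ hb) (Zf_pos (F := F) (U := W1) (T := ∅))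
  rw [mul_right_comm]
  exact mul_le_mul_of_nonneg_right hd Zf_nonneg

end Pool.Agent.P.MP_347bd1_pr.M

namespace Pool.Agent.P.MP_347bd1_pr.M

open Classical Finset Filter Topology
open scoped ENNReal NNReal

theorem p_THN (hGRN : S_GRN) :
    S_THN := by
  intro η hη
  obtain ⟨C, hC⟩ := hGRN
  obtain ⟨c, c0, c1, hc⟩ := f_beur
  obtain ⟨k, hk⟩ := exists_pow_lt_of_lt_one (x := (η : ℝ) / (C + 1)) (y := 1 - c) (by positivity)
    (by linarith)
  refine ⟨6 * 10 ^ k, fun N V y t0 t r hF h0 hV ht hr => ?_⟩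
  obtain ⟨s, rfl⟩ := Int.eq_ofNat_of_zero_le (zero_le_one.trans ht)
  let Bl : Pt → Set Pt := fun p => {z | nrm (z - p) < 10 ^ k * ((s + 2 : ℕ) : ℤ)}
  have key : ∀ p, NearK N s p → ms (fun W => ∃ W1 W2 x, W = W1 ++ W2 ∧ Al N (Bl p) p W1 x ∧
      x ∉ Bl p ∧ ∃ v ∈ V, Al N Set.univ x W2 v) ≤ η * (t0 : ℝ≥0∞) ^ 2 := by
    intro p hp
    refine (ms_exit_le fun _ h => h).trans ((thin_mul (fun z _ => (hC N V z t0 hF h0 hV).1) p).trans ?_)
    obtain ⟨u, u1, u2, u3⟩ := thin_harm N (Bl p)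
    have := hc N u p (s + 2) k 1 hF (by omega) zero_le_one (by simpa using hp) u2
      (fun z _ => u1 z) p (by rw [sub_self, nrm_zero]; positivity)
    rw [u3, mul_right_comm]
    refine mul_le_mul_left ?_ _
    rw [← ENNReal.ofReal_coe_nnreal, ← ENNReal.ofReal_mul C.coe_nonneg, ← ENNReal.ofReal_coe_nnreal]
    refine ENNReal.ofReal_le_ofReal ?_
    have c2 : (0 : ℝ) ≤ C := C.2
    have c3 : 0 ≤ (1 - c) ^ k := pow_nonneg (by linarith) k
    rw [lt_div_iff₀ (by positivity)] at hk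
    nlinarith
  let T : Set Pt := {z | NearK N s z}
  refine (thin_rev (C := fun W => ∃ v ∈ V, Al N Set.univ y W v ∧
    ∃ z, Vis N y W z ∧ r ≤ nrm (z - v) ∧ z ∈ T) (fun _ _ h => h.1)
    fun v hv W ⟨h, z, k1, k2, k3⟩ => ⟨v, hv, h.rev, z, k1.rev h, k2, k3⟩).trans ?_
  refine (ms_exit_le (N := N) (R := Tᶜ) (p := y) (B := fun p W => ∃ W1 W2 x, W = W1 ++ W2 ∧
    Al N (Bl p) p W1 x ∧ x ∉ Bl p ∧ ∃ v ∈ V, Al N Set.univ x W2 v) ?_).trans
    ((thin_mul (fun z hz => key z (not_not.1 hz)) y).trans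
      (mul_le_of_le_one_right' (thin_exit _ _ _)))
  rintro W ⟨v, hv, h, z, k1, k2, k3⟩
  obtain ⟨W1, W2, p, rfl, m1, m2⟩ := k1.first k3
  have m3 := (m1.det h).2
  have m4 : Vis N p W2 z := by
    rcases (vis_append m1).1 k1 with m | m
    · rcases m1.vis_mem m with m | rfl
      · exact absurd k3 m
      · exact vis_start _ _ _
    · exact m
  obtain ⟨x, x1, x2⟩ : ∃ x, Vis N p W2 x ∧ x ∈ (Bl p)ᶜ := by
    by_contra m
    have a1 : z ∈ Bl p := by_contra fun a => m ⟨z, m4, a⟩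
    have a2 : v ∈ Bl p := by_contra fun a => m ⟨v, m3.vis_end, a⟩
    have a3 := nrm_tri z p v
    rw [nrm_sub_comm p v] at a3
    simp only [Bl, Set.mem_ofPred_eq] at a1 a2
    push_cast at a1 a2 hr
    have a4 : (0 : ℤ) < 10 ^ k := by positivity
    nlinarith
  obtain ⟨W3, W4, q, rfl, n1, n2⟩ := x1.first x2
  rw [compl_compl] at n1
  exact ⟨W1, _, p, rfl, m1, not_not.2 m2, W3, W4, q, rfl, n1, n2, v, hv, (n1.det m3).2⟩


end Pool.Agent.P.MP_347bd1_pr.M

namespace Pool.Agent.P.MP_347bd1_pr.M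

open Classical Finset Filter Topology
open scoped ENNReal NNReal

noncomputable def p1w_d (b : BC) {n : ℕ} (x : Site n) : (Conf n → ℝ) →ₗ[ℝ] (Conf n → ℝ) where
  toFun := dx b x
  map_add' g h := by
    funext σ
    simp only [dx, Pi.add_apply]
    ring
  map_smul' c g := by
    funext σ
    simp only [dx, Pi.smul_apply, smul_eq_mul, RingHom.id_apply]
    ring

theorem p_P1 (hPA : S_PA) (hPB : S_PB) (hPC : S_PC) (hPD : S_PD) :
    S_P1 := by
  obtain ⟨C, hC, hD⟩ := hPD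
  refine ⟨4 * C, by positivity, fun b n l t f F Z hl ht hZ hF => ?_⟩
  obtain ⟨β, κ, hβ, hκ, h⟩ := hD l hl
  obtain ⟨b1, b2, b3, b4⟩ := hPB b n
  have hl' : (0 : ℝ) < l := by exact_mod_cast hl
  have h' := fun x : Site n => h Z (toP x) (hZ _ (toP_mem x))
  obtain ⟨g, hg⟩ := hPA (Conf n) (Site n) (ising b) (p1w_d b) (grid n).Adj Z
    (fun z x => β (toP x - z)) κ (C / l ^ 4 / 2) t f F (dyna_pos b) b1 b2 (fun _ _ h => h.symm)
    dynlo_deg b3 (fun x => (h' x).1) (fun x => (h' x).2.1) (fun x y hxy => by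
      obtain ⟨d, hd⟩ := (trans_adj x y).1 hxy
      rw [hd]
      exact ((h' x).2.2 d).trans_eq (by ring))
    ((h _ 0 subset_rfl).2.1 ▸ sum_nonneg fun _ _ => sq_nonneg _) (by positivity) ht
    (fun z hz x hx => by
      funext σ
      change dx b x (F z) σ = 0
      rw [dx, hF z hz σ x _ (hβ _ hx), hF z hz σ x _ (hβ _ hx), ← add_mul, dyna_cond_add, one_mul,
        sub_self])
  have hS : 0 ≤ ∑ z ∈ Z, ip (ising b) (f - F z) (f - F z) := sum_nonneg fun z _ =>
    sum_nonneg fun σ _ => mul_nonneg (dyna_pos b σ).le (mul_self_nonneg _)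
  refine (hPC b n f g t ht).2.trans ?_
  rw [← b4 g]
  refine (mul_le_mul_of_nonneg_left hg zero_le_two).trans ?_
  rw [← mul_assoc]
  refine mul_le_mul_of_nonneg_right ?_ hS
  have e : 4 * C / l ^ 2 * (1 + t / l ^ 2) = 4 * (C / l ^ 2) + 4 * (C / l ^ 4) * t := by
    field_simp
  have : 0 ≤ C / (l : ℝ) ^ 2 := by positivity
  rw [e]
  linarith

end Pool.Agent.P.MP_347bd1_pr.M

namespace Pool.Agent.P.MP_347bd1_pr.M

open Classical Finset Filter Topology
open scoped ENNReal NNReal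
open Matrix

theorem pcw_abs {ι : Type} [Fintype ι] [DecidableEq ι] (π : ι → ℝ) (hπ : ∀ i, 0 < π i)
    (L : Matrix ι ι ℝ) (hL : ∀ i j, π i * L i j = π j * L j i)
    (hE0 : ∀ g : ι → ℝ, ∑ i, ∑ j, π i * L i j * (g i * g j) ≤ 0) (f g : ι → ℝ) (t : ℝ)
    (ht : 0 ≤ t) :
    ∑ i, π i * f i ^ 2 - ∑ i, ∑ j, π i * NormedSpace.exp (t • L) i j * (f i * f j) ≤
      2 * (ip π (f - g) (f - g) + t * -∑ i, ∑ j, π i * L i j * (g i * g j)) := by
  obtain ⟨V, W, μ, h1, h2, h3, h4⟩ := dyna_diag π hπ L hL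
  have hx : NormedSpace.exp (t • L) = W * diagonal (fun i => Real.exp (t * μ i)) * V := by
    rw [h4]; exact dyna_exp μ h1 h2 t
  have hone : ∀ f g : ι → ℝ, ∑ i, π i * (f i * g i) = ∑ k, (V *ᵥ f) k * (V *ᵥ g) k := by
    intro f g
    have := dyna_bil h3 (fun _ => 1) f g
    rw [diagonal_one, Matrix.mul_one, h1] at this
    simp only [one_mul] at this
    rw [← this]
    refine sum_congr rfl fun i _ => ?_
    simp [Matrix.one_apply]
  have hμ : ∀ k, t * μ k ≤ 0 := by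
    intro k
    have := hE0 (W *ᵥ Pi.single k 1)
    rw [h4, dyna_bil h3, mulVec_mulVec, h2, one_mulVec, sum_eq_single k] at this
    · exact mul_nonpos_of_nonneg_of_nonpos ht (by simpa using this)
    · intro j _ hj; simp [hj]
    · simp
  rw [hx, dyna_bil h3, h4, dyna_bil h3]
  simp only [sq]
  rw [ip, hone, hone, mulVec_sub, ← sum_sub_distrib, ← sum_neg_distrib, mul_sum, ← sum_add_distrib,
    mul_sum]
  refine sum_le_sum fun k _ => ?_
  have a := Real.exp_le_one_iff.2 (hμ k)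
  have b := Real.add_one_le_exp (t * μ k)
  have c := Real.exp_pos (t * μ k)
  simp only [Pi.sub_apply]
  generalize (V *ᵥ f) k = x
  generalize (V *ᵥ g) k = y
  nlinarith [mul_nonneg (sub_nonneg.2 a) (sq_nonneg (x - 2 * y)),
    mul_nonneg c.le (sq_nonneg (x - y)), mul_nonneg (sub_nonneg.2 b) (sq_nonneg y)]

theorem p_PC :
    S_PC := by
  intro b n f g t ht
  have hrev : ∀ σ τ : Conf n, ising b σ * gen b n σ τ = ising b τ * gen b n τ σ := by
    intro σ τ
    rw [dyna_gen, dyna_gen, mul_sum, mul_sum]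
    refine sum_congr rfl fun x _ => ?_
    rw [mul_sub, mul_sub, dyna_K_rev]
    by_cases h : τ = σ
    · subst h; rfl
    · rw [if_neg h, if_neg fun h' => h h'.symm]; simp
  have h0 : ∀ σ : Conf n, ∑ τ, gen b n σ τ = 0 := by
    intro σ
    simp_rw [dyna_gen]
    rw [sum_comm]
    refine sum_eq_zero fun x _ => ?_
    have := dyna_K_sum b x σ fun _ => 1
    simp only [mul_one, dyna_cond_add] at this
    rw [sum_sub_distrib, this]
    simp
  have hE0 : ∀ g : Conf n → ℝ, 0 ≤ dirF b g := fun g =>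
    sum_nonneg fun x _ => sum_nonneg fun σ _ => mul_nonneg (dyna_pos b σ).le
      (mul_nonneg (mul_pos (dyna_cond_pos b σ x _) (dyna_cond_pos b σ x _)).le (sq_nonneg _))
  obtain ⟨-, g', h2, -⟩ := t_dyna b n f t ht
  refine ⟨le_trans (sum_nonneg fun σ _ => mul_nonneg (dyna_pos b σ).le (sq_nonneg _)) h2, ?_⟩
  rw [dyna_dir]
  refine le_trans (le_of_eq ?_) (pcw_abs (ising b) (dyna_pos b) (gen b n) hrev
    (fun g => by linarith [hE0 g, dyna_dir b g]) f g t ht)
  unfold var cov trans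
  rw [(dyna_abs (ising b) (dyna_pos b) (gen b n) hrev h0 (dirF b) (dyna_dir b) hE0 f t ht).1]
  ring

end Pool.Agent.P.MP_347bd1_pr.M
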