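import Pool.Agent.P.MP_347bd1_pr.M.Iface

/-! Steps CB, FIL, NIG, KC1, TH0, LSM. -/

set_option autoImplicit false

namespace Pool.Agent.P.MP_347bd1_pr.M

open Classical Finset Filter Topology
open scoped ENNReal NNReal

theorem cb_intr {n : ℕ} {E : Finset Edge} (hE : SC n E) {o p : Pt} {d : Dir} {r R : ℤ}
    (hA : Away n o R) (hr : r ≤ R) (h : cr p d ∈ E) (h1 : nrm (ea (cr p d) - o) ≤ r)
    (h2 : nrm (eb (cr p d) - o) ≤ r) : p ∈ intr n := by
  have h3 := hE.top _ h
  have h4 := mem_ebox.1 (hE.sub h)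
  obtain ⟨a, b⟩ := p
  obtain ⟨x, y⟩ := o
  unfold Away at hA
  rw [nrm_le_iff] at h1 h2
  rw [mem_box, mem_box] at h4
  rw [mem_intr]
  cases d <;> simp [cr, ea, eb] at h1 h2 h3 h4 hA ⊢ <;> omega

theorem cb_inner {n : ℕ} {a : Pt} {d : Dir} (h : Inner n (cr a d)) :
    a ∈ intr n ∧ a + d.vec ∈ intr n := by
  obtain ⟨p, d', e, h1, h2⟩ := h
  rcases cr_eq_iff.1 e with ⟨rfl, rfl⟩ | ⟨rfl, rfl⟩
  · exact ⟨h1, h2⟩
  · exact ⟨by simpa using h2, h1⟩

theorem cb_face {p w o : Pt} (h : Corner p w) : nrm (p - o) ≤ nrm (w - o) + 1 := by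
  have := nrm_tri p w o
  have := h.nrm_le
  rw [nrm_sub_comm] at this
  omega

theorem cb_near {n : ℕ} {E : Finset Edge} {v y o : Pt} (h : Corner v y) (hy : TopConn n E y) :
    ∃ q d, ¬ (net n E).mv q d ∧ nrm (q - o) ≤ nrm (v - o) + 1 := by
  obtain ⟨q, d, k, rfl | ⟨d', rfl⟩⟩ := near1_net h hy
  · exact ⟨q, d, k, by omega⟩
  · exact ⟨_, d, k, (nrm_step v o d').1⟩

theorem cb_arm {T M M' : Finset Pt} (h : M ⊆ M') (k : ArmT T T M) : ArmT T T M' := by
  obtain ⟨s, hs, s', b, k1, k2, k3, k4⟩ := k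
  have := sdiff_subset_sdiff h (le_refl T)
  exact ⟨s, hs, s', b, k1, k2, this k3, rtg_mono (fun _ _ m => ⟨m.1, this m.2⟩) k4⟩

theorem cb_sum {n : ℕ} {E E' : Finset Edge} (h : E' ⊆ E) {Y Y' : Finset Pt} (hY : Y' ⊆ Y) :
    ∑ y ∈ Y', (hN (net n E') y).toReal ≤ ∑ y ∈ Y, (hN (net n E) y).toReal :=
  (sum_le_sum fun y _ => ENNReal.toReal_mono (hN_ne_top _ _) (hN_mono (net_le h) y)).trans
    (sum_le_sum_of_subset_of_nonneg hY fun _ _ _ => ENNReal.toReal_nonneg)

theorem p_CB (hKC1 : S_KC1) (hLDHN : S_LDHN) (hMONO : S_MONO) (hZEQ : S_ZEQ) (hTS : S_TS) (hTS0 : S_TS0) (hWF : S_WF) (hLFT : S_LFT) (hTH1 : S_TH1) :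
    S_CB := by
  obtain ⟨K1, hK1, c, hc, hTH⟩ := hTH1
  obtain ⟨K2, hK2, CL, hCL, hL⟩ := hLDHN
  refine ⟨K2 * (K1 + 4), Nat.succ_le_of_lt (by positivity), CL + 1 / c, by positivity, ?_⟩
  intro n S T v1 v2 o w hS hC hw hT hA
  obtain ⟨r, hr⟩ : ∃ r : ℕ, r = (K1 + 4) * w := ⟨_, rfl⟩
  obtain ⟨R, hR⟩ : ∃ R : ℕ, R = K2 * r := ⟨_, rfl⟩
  have eR : ((K2 * (K1 + 4) : ℕ) : ℤ) * w = R := by rw [hR, hr]; push_cast; ring
  have eR2 : (K2 : ℤ) * r = R := by rw [hR]; push_cast; ring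
  have r1 : w + 5 ≤ r := by rw [hr]; nlinarith
  have r2 : 2 * r ≤ R := by rw [hR]; nlinarith
  have r3 : K1 * w ≤ r := by rw [hr]; nlinarith
  rw [eR] at hA ⊢
  obtain ⟨g1, g2, -, g4, g5, g6⟩ := hWF n S T v1 v2 hS hC
  have th := hTH n S T v1 v2 o w r R hS hC hw hT r3 (by omega) hA
  have lft := hLFT n S T v1 v2 hS hC
  have hWb : Wf n S T ⊆ box n := (filter_subset _ _).trans sdiff_subset
  have eW : box n \ (box n \ Wf n S T) = Wf n S T := Finset.sdiff_sdiff_eq_self hWb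
  have hET : ∀ e ∈ ETf n S T, e ∈ cut T := fun e he => (mem_filter.1 he).1
  have c1 := hC.c1
  have c2 := hC.c2
  have csrc := hC.src
  have cp2 := hC.p2
  have cins := hC.ins
  generalize ETf n S T = ET at *
  generalize Wf n S T = W at *
  obtain ⟨S', hS'⟩ : ∃ S', S' = box n \ W := ⟨_, rfl⟩
  rw [← hS'] at g1 g2 g4 th lft eW
  have hSS : S ⊆ S' := subset_union_left.trans g2
  obtain ⟨E, hE⟩ : ∃ E, E = eS n S' := ⟨_, rfl⟩
  have hES : E ⊆ eS n S := fun e he => by
    rw [hE] at he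
    exact mem_eS.2 ⟨(mem_eS.1 he).1, (mem_eS.1 he).2.imp (fun a b => a (hSS b)) fun a b => a (hSS b)⟩
  have scE : SC n E := hE ▸ g1.sc_eS
  have tc : ∀ E' ⊆ E, ∀ y ∈ S, TopConn n E' y := fun E' h y hy =>
    (hS.conn y hy).mono ((h.trans hES).trans subset_union_left)
  have geo : ∀ v, (∃ t ∈ T, Corner v t) → v ∈ intr n ∧ nrm (v - o) ≤ w + 1 := by
    rintro v ⟨t, ht, k⟩
    have a1 := (cins t ht).2
    have a2 := mem_ball.1 (hT ht)
    have a3 := cb_face (o := o) k
    refine ⟨?_, by omega⟩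
    unfold Ins at a1
    unfold Corner at k
    rw [mem_intr]
    omega
  have hn := ts0_one (geo v1 c1.2).1
  obtain ⟨Y, hY⟩ : ∃ Y, Y = Yf n E o R v1 := ⟨_, rfl⟩
  have mY : ∀ y, y ∈ Y ↔ nrm (y - o) ≤ R ∧ LRe n E o R v1 y := fun y => by
    rw [hY, Yf, mem_filter, mem_ball]
  have cl : ∀ p ∈ Y, ∀ d, (net n E).mv p d → nrm (p - o) < R → p + d.vec ∈ Y := fun p hp d k m =>
    (mY _).2 ⟨by have := (nrm_step p o d).1; omega, ((mY p).1 hp).2.tail ⟨d, k, m, rfl⟩⟩
  have y1 : v1 ∈ Y := (mY _).2 ⟨by have := (geo v1 c1.2).2; omega, Relation.ReflTransGen.refl⟩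
  have y2 : v2 ∈ Y := (mY _).2 ⟨by have := (geo v2 c2.2).2; omega, rtg_mono (fun a b k => by
    obtain ⟨d, k, rfl⟩ := k
    have a1 := cb_inner (g5 _ k)
    have a2 : cr a d ∈ E := by rw [← g4] at k; exact hE ▸ (mem_inter.1 k).2
    refine ⟨d, ⟨a1.1, a1.2, a2⟩, ?_, rfl⟩
    have a3 := mem_cut.1 (hET _ k)
    have a4 : ∃ t ∈ T, Corner a t := by
      by_cases m : ea (cr a d) ∈ T
      · exact ⟨_, m, (corner_cr a d).1⟩
      · exact ⟨_, by_contra fun m' => a3 (iff_of_false m m'), (corner_cr a d).2⟩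
    have := (geo a a4).2
    omega) cp2⟩
  obtain ⟨D, hD⟩ : ∃ D, D = Df S E o r Y := ⟨_, rfl⟩
  rw [← hE, ← hY, ← hD] at th
  have mD : ∀ e ∈ D, e ∈ E ∧ (ea e ∈ S ∨ eb e ∈ S) ∧ nrm (ea e - o) ≤ r ∧ nrm (eb e - o) ≤ r ∧
      ∃ p ∈ Y, ∃ d, cr p d = e := fun e he => by rw [hD, Df] at he; exact mem_filter.1 he
  obtain ⟨a, ha⟩ : ∃ a : ℝ, a = (CL + 1 / c) / w ^ 2 := ⟨_, rfl⟩
  rw [← ha]
  have a0 : 0 ≤ a := by rw [ha]; positivity
  have key : ∀ E' ⊆ E, SC n E' → ∀ v, v = v1 ∨ v = v2 →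
      Gw n v E' D ^ 2 ≤ a * ∑ y ∈ Y.filter (Reach n E' v), (hN (net n E') y).toReal := by
    intro E' e1 e2 v hv
    have cv : (∃ y ∈ S, Corner v y) ∧ ∃ t ∈ T, Corner v t := by rcases hv with rfl | rfl <;> assumption
    obtain ⟨y0, b1, b2⟩ := cv.1
    have b3 := geo v cv.2
    refine (hL n E' D Y o v r e2 (by omega) (fun e he _ => ?_) (fun z d hz m => ?_)
      (fun p d k _ => ?_) ?_ b3.1 (by omega) ⟨y0, b2, tc E' e1 y0 b1⟩
      (by rcases hv with rfl | rfl <;> assumption)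
      fun p hp d k m => cl p hp d ((net_le e1).1 _ _ k) (eR2 ▸ m)).trans ?_
    · obtain ⟨-, k1, k2, k3, -⟩ := mD e he
      exact ⟨k2, k3, k1.imp (tc E' e1 _) (tc E' e1 _)⟩
    · have a1 := (corn_st e2 m).imp_left And.left
      rw [eR2, nrm_le_iff, Prod.fst_sub, Prod.snd_sub] at hz
      unfold Away at hA
      omega
    · obtain ⟨k0, -, k2, k3, p0, k4, d0, k5⟩ := mD _ k
      have i1 := cb_intr scE hA (by omega) k0 k2 k3
      refine ⟨i1, ?_⟩
      rw [← k5] at k0 k2 k3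
      have i2 := cb_intr scE hA (by omega) k0 k2 k3
      rcases cr_eq_iff.1 k5.symm with ⟨rfl, -⟩ | ⟨rfl, -⟩
      · exact k4
      · refine cl p0 k4 d0 ⟨i2, i1, k0⟩ ?_
        have := cb_face (o := o) (corner_cr p0 d0).1
        omega
    · obtain ⟨q, d, k1, k2⟩ := cb_near (o := o) b2 (tc E' e1 y0 b1)
      exact ⟨q, d, k1, by omega⟩
    · refine mul_le_mul_of_nonneg_right ?_ (sum_nonneg fun _ _ => ENNReal.toReal_nonneg)
      rw [ha]
      have w0 : (0 : ℝ) < w := by exact_mod_cast hw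
      have w1 : (w : ℝ) ≤ r := by exact_mod_cast (by omega)
      exact div_le_div₀ (by positivity) (le_add_of_nonneg_right (by positivity)) (by positivity)
        (by gcongr)
  have main : PS n S (ArmT T T) ≤
      (CL + 1 / c) * (Zf (E \ D) (box n \ S') (S' \ S) (ArmT T T) / Zw n ∅ E D) := by
    have m1 := hMONO (eS n S) (E \ D) (box n \ S) W (S' \ S) (ArmT T T) (ArmT T T)
      (fun x hx => mem_union.2 ((Classical.em (x ∈ W)).imp_right fun m => Finset.mem_sdiff.2
        ⟨hS' ▸ Finset.mem_sdiff.2 ⟨(Finset.mem_sdiff.1 hx).1, m⟩, (Finset.mem_sdiff.1 hx).2⟩))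
      (disjoint_left.2 fun x k1 k2 => by
        rw [hS'] at k2
        exact (Finset.mem_sdiff.1 (Finset.mem_sdiff.1 k2).1).2 k1)
      (fun e he k => by
        by_cases k1 : e ∈ D
        · exact (mD e k1).2.1.elim (fun m => .inl fun m' => (Finset.mem_sdiff.1 m').2 m)
            fun m => .inr (.inl fun m' => (Finset.mem_sdiff.1 m').2 m)
        · have k2 : e ∉ eS n S' := fun m => k (Finset.mem_sdiff.2 ⟨hE ▸ m, k1⟩)
          have k3 := not_or.1 fun m => k2 (mem_eS.2 ⟨(mem_eS.1 he).1, m⟩)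
          by_cases k4 : ea e ∈ S
          · exact .inl fun m' => (Finset.mem_sdiff.1 m').2 k4
          by_cases k5 : eb e ∈ S
          · exact .inr (.inl fun m' => (Finset.mem_sdiff.1 m').2 k5)
          exact .inr (.inr ⟨Finset.mem_sdiff.2 ⟨not_not.1 k3.1, k4⟩,
            Finset.mem_sdiff.2 ⟨not_not.1 k3.2, k5⟩⟩))
      (fun e he k => absurd (hES (Finset.mem_sdiff.1 he).1) k)
      fun M hM k M' _ k' => cb_arm k' (g6 M hM k)
    have m2 := hZEQ n S' ∅ D ∅ hn g1 (empty_subset _) (ts0_src n S')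
    rw [← hE, eW] at m2
    rw [m2] at th
    have z0 := (hKC1 n E D).2.1
    refine m1.trans ?_
    rw [eW, Pr]
    refine (div_le_div_of_nonneg_left Zf_nonneg (by positivity) th).trans ?_
    rw [mul_comm c, ← div_div, div_eq_mul_one_div, mul_comm]
    exact mul_le_mul_of_nonneg_right (le_add_of_nonneg_left hCL.le) (div_nonneg Zf_nonneg z0.le)
  refine ⟨Y, fun y hy => ⟨((mY y).1 hy).1, ?_⟩, fun y hy y' hy' => ?_, ?_⟩
  · obtain ⟨y0, b1, b2⟩ := c1.1
    obtain ⟨q, d, k1, k2⟩ := cb_near (o := o) b2 ((hS.conn y0 b1).mono subset_union_left)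
    refine ⟨q, d, k1, ?_⟩
    have := nrm_tri q o y
    have := nrm_sub_comm o y
    have := ((mY y).1 hy).1
    have := (geo v1 c1.2).2
    omega
  · obtain ⟨π, p1, p2⟩ := ((mY y).1 hy).2.fconn.path n
    obtain ⟨π', p3, p4⟩ := ((mY y').1 hy').2.fconn.path n
    have p5 := (symmDiff_subset_union (s := π) (t := π')).trans (union_subset p1 p3)
    refine ⟨symmDiff π π', (p5.trans (filter_subset _ _)).trans hES,
      ?_, fun e he => ?_⟩
    · have := p2.symmDiff p4
      rwa [symmDiff_comm ({v1} : Set Pt) {y}, symmDiff_assoc, symmDiff_symmDiff_cancel_left] at this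
    · have := (mem_filter.1 (p5 he)).2
      omega
  by_cases harm : ∃ M ⊆ W, ArmT T T M
  swap
  · have z : PS n S (ArmT T T) = 0 := Pr_eq_zero fun M hM k =>
      harm ⟨M ∩ W, inter_subset_right, g6 M hM k⟩
    rw [z]
    exact ⟨by positivity, fun _ _ => ∅, fun _ _ => ∅, fun _ _ => False, fun _ _ k => k.elim,
      fun ε H Ω h1 h2 h3 _ => by
        have : 0 ≤ H := le_trans (mul_nonneg a0 (sum_nonneg fun _ _ => ENNReal.toReal_nonneg)) h3
        positivity⟩
  obtain ⟨Lf, Rg, va, vb, hv, hs, hLf, hCol, hV⟩ := lft harm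
  have src : Src n (cut (S' \ S) ∩ eS n S') (symmDiff {va} {vb}) := by
    rw [g4]
    rcases hv with ⟨rfl, rfl⟩ | ⟨rfl, rfl⟩
    · exact csrc
    · rwa [symmDiff_comm]
  have key' : ∀ E' ⊆ eS n S', SC n E' → ∀ v, v = va ∨ v = vb →
      Gw n v E' D ^ 2 ≤ a * ∑ y ∈ Y.filter (Reach n E' v), (hN (net n E') y).toReal :=
    fun E' e1 e2 v k => key E' (hE ▸ e1) e2 v (by
      rcases hv with ⟨rfl, rfl⟩ | ⟨rfl, rfl⟩
      exacts [k, k.symm])
  have hV' : ∀ M ⊆ box n \ S', ArmT T T M → Valid n S' Lf Rg (Pcl n S' Lf M) ∧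
      ∀ u ∈ Pcl n S' Lf M, u.1 ≠ 1 := fun M hM => hV M (eW ▸ hM)
  have C0 : 0 ≤ CL + 1 / c := by positivity
  constructor
  · refine main.trans (mul_le_mul_of_nonneg_left ?_ C0)
    have t0 := hTS0 n S' (S' \ S) Lf Rg D (symmDiff {va} {vb}) va
      (Real.sqrt (a * ∑ y ∈ Y, (hN (net n (eS n S)) y).toReal)) (ArmT T T) hn hs hLf src hCol
      (Real.sqrt_nonneg _) (fun E' e1 e2 => by
        rw [symmDiff_comm, symmDiff_symmDiff_cancel_left]
        exact Real.le_sqrt_of_sq_le ((key' E' e1 e2 vb (.inr rfl)).trans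
          (mul_le_mul_of_nonneg_left (cb_sum ((hE ▸ e1 : E' ⊆ E).trans hES)
            (filter_subset _ _)) a0))) hV'
    rw [← hE] at t0
    refine t0.trans (mul_le_mul_of_nonneg_right ?_ (Real.sqrt_nonneg _))
    exact Real.le_sqrt_of_sq_le ((key' _ (hE ▸ filter_subset _ _) (hE ▸ ts0_sc g1) va
      (.inl rfl)).trans (mul_le_mul_of_nonneg_left (cb_sum (filter_subset_filter _ hES)
        (filter_subset _ _)) a0))
  · obtain ⟨E2, Kb, Gd, b1, b2⟩ := hTS n S' (S' \ S) Y Lf Rg D va vb a (ArmT T T) hn hs hLf src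
      (g4 ▸ g5) a0 key' fun M hM k => (hV' M hM k).1
    rw [← hE] at b1 b2
    refine ⟨E2, Kb, Gd, fun y W' k => ?_, fun ε H Ω h1 h2 h3 h4 => main.trans
      (mul_le_mul_of_nonneg_left (b2 ε H Ω h1 h2 (le_trans ?_ h3) h4) C0)⟩
    · have := b1 y W' k
      exact ⟨this.run.le (net_le hES), this.sub.trans hES, this.sc, this.od, this.src, this.disj⟩
    · exact mul_le_mul_of_nonneg_left (cb_sum hES le_rfl) a0

end Pool.Agent.P.MP_347bd1_pr.M

namespace Pool.Agent.P.MP_347bd1_pr.M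

open Classical Finset

theorem filw_pow (U G : Finset Pt) (h : Disjoint U G) (f : Finset Pt → ℝ) :
    ∑ M ∈ (U ∪ G).powerset, f (M ∩ U) = 2 ^ G.card * ∑ M ∈ U.powerset, f M := by
  induction G using Finset.induction_on with
  | empty =>
    simp only [union_empty, card_empty, pow_zero, one_mul]
    exact sum_congr rfl fun M k => by rw [inter_eq_left.2 (mem_powerset.1 k)]
  | insert a G ha ih =>
    obtain ⟨h1, h2⟩ := disjoint_insert_right.1 h
    rw [union_insert, sum_powerset_insert (by simp [h1, ha]), card_insert_of_notMem ha]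
    simp only [insert_inter_of_notMem h1, ih h2]
    ring

theorem filw_sign (n : ℕ) (D : Finset Pt) (x : ℤ) (h : (x, (n : ℤ)) ∉ D) (k : ℕ) :
    (-1 : ℝ) ^ (cut D ∩ ray n (x, n - k)).card = if (x, (n : ℤ) - k) ∈ D then -1 else 1 := by
  induction k with
  | zero => simp [ray, h]
  | succ k ih =>
    have e : ray n (x, n - (k + 1 : ℕ)) =
        insert ((x, (n : ℤ) - (k + 1 : ℕ)), false) (ray n (x, n - k)) := by
      ext ⟨⟨a, b⟩, c⟩
      simp only [ray, mem_image, mem_Ico, mem_insert, Prod.mk.injEq]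
      constructor
      · rintro ⟨j, h1, ⟨rfl, rfl⟩, rfl⟩
        by_cases m : j = n - (k + 1 : ℕ)
        · simp [m]
        · exact .inr ⟨j, by omega, by simp⟩
      · rintro (⟨⟨rfl, rfl⟩, rfl⟩ | ⟨j, h1, ⟨rfl, rfl⟩, rfl⟩)
        · exact ⟨n - (k + 1 : ℕ), by omega, by simp⟩
        · exact ⟨j, by omega, by simp⟩
    have h1 : ((x, (n : ℤ) - (k + 1 : ℕ)), false) ∉ ray n (x, n - k) := by
      simp only [ray, mem_image, mem_Ico, Prod.mk.injEq]
      rintro ⟨j, h1, ⟨-, h2⟩, -⟩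
      omega
    have h2 : ((x, (n : ℤ) - (k + 1 : ℕ)), false) ∈ cut D ↔
        ¬ ((x, (n : ℤ) - (k + 1 : ℕ)) ∈ D ↔ (x, (n : ℤ) - k) ∈ D) := by
      rw [mem_cut]
      simp [ea, eb, sub_add]
    rw [e]
    by_cases m : ((x, (n : ℤ) - (k + 1 : ℕ)), false) ∈ cut D
    · rw [inter_insert_of_mem m, card_insert_of_notMem fun a => h1 (mem_inter.1 a).2, pow_succ, ih]
      rw [h2] at m
      split_ifs <;> simp_all
    · rw [inter_insert_of_notMem m, ih]
      rw [h2] at m
      split_ifs <;> simp_all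

section

variable {n : ℕ} {W T : Finset Pt} {t : Pt}

theorem filw_nb {a : Pt} (h : a ∈ box n \ ring n) (d : Dir) : a + d.vec ∈ box n := by
  simp only [Finset.mem_sdiff, mem_ring, mem_box, OnRing] at h ⊢
  cases d <;> simp [Dir.vec] <;> omega

theorem filw_ebox {D : Finset Pt} (h : D ⊆ box n \ ring n) : einc D ⊆ ebox n := by
  intro e he
  have h1 : e ∈ einc (box n \ ring n) := by
    rw [mem_einc] at he ⊢
    exact he.imp (@h _) (@h _)
  exact eS_subset n _ (eS_ring n ▸ h1)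

theorem filw_cut (h : W ∪ T = box n \ ring n) (hr : ∀ a ∈ T, ∀ d : Dir, a + d.vec ∉ ring n)
    {M : Finset Pt} (hM : M ⊆ W) (b : Bool) : cut (M ∪ if b then T else ∅) ⊆ einc W := by
  have key : ∀ a d, a ∈ (M ∪ if b then T else ∅) → a + Dir.vec d ∉ (M ∪ if b then T else ∅) →
      a ∈ W ∨ a + d.vec ∈ W := fun a d h1 h2 => by
    rcases mem_union.1 h1 with k | k
    · exact .inl (hM k)
    · cases b
      · simp at k
      · have h3 : a + d.vec ∈ W ∪ T :=
          h ▸ mem_sdiff.2 ⟨filw_nb (h ▸ mem_union_right _ k) d, hr a k d⟩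
        exact .inr ((mem_union.1 h3).resolve_right fun m => h2 (mem_union_right _ m))
  intro e he
  rw [mem_cut] at he
  rw [mem_einc]
  by_cases k : ea e ∈ (M ∪ if b then T else ∅)
  · obtain ⟨d, -, h1⟩ := exists_inc e
    rw [h1] at he ⊢
    exact key _ d k (by grind)
  · obtain ⟨d, -, h1⟩ := exists_inc_b e
    rw [h1] at he k ⊢
    exact (key _ d (by grind) k).symm

theorem filw_sum (hd : Disjoint W T) (h : W ∪ T = box n \ ring n) (ht : t ∈ T)
    (hc : ∀ a ∈ T, ∀ b ∈ T, NPath T a b) (hr : ∀ a ∈ T, ∀ d : Dir, a + d.vec ∉ ring n)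
    (φ : Finset Edge → ℝ) : (∑ η ∈ (einc W).powerset, if Src n η ∅ then φ η else 0) =
      ∑ b : Bool, ∑ M ∈ W.powerset, φ (cut (M ∪ if b then T else ∅)) := by
  have t1 : t ∈ box n \ ring n := h ▸ mem_union_right _ ht
  have t2 := t1
  simp only [Finset.mem_sdiff, mem_ring, mem_box, OnRing] at t2
  have o1 : ((1 : ℤ), (n : ℤ)) ∈ ring n := by simp [mem_ring, mem_box, OnRing]; omega
  have hS := (good_ring (n := n) (p := (1, 1)) (by rw [mem_intr]; simp only; omega) rfl).empty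
  have hW : W ⊆ box n \ ring n := h ▸ subset_union_left
  have hsub : ∀ M ⊆ W, ∀ b : Bool, (M ∪ if b then T else ∅) ⊆ box n \ ring n := fun M hM b =>
    h ▸ union_subset_union hM (by cases b <;> simp)
  rw [← sum_filter, ← sum_product', eq_comm]
  refine sum_bij (fun x _ => cut (x.2 ∪ if x.1 then T else ∅)) ?_ ?_ ?_ fun _ _ => rfl
  · rintro ⟨b, M⟩ k
    have k1 := filw_cut h hr (mem_powerset.1 (mem_product.1 k).2) b
    refine mem_filter.2 ⟨mem_powerset.2 k1, ?_⟩
    have := src_cut n (M ∪ if b then T else ∅)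
    rwa [inter_eq_left.2 (k1.trans (filw_ebox hW))] at this
  · rintro ⟨b, M⟩ k ⟨b', M'⟩ k' e
    have k1 := mem_powerset.1 (mem_product.1 k).2
    have k2 := mem_powerset.1 (mem_product.1 k').2
    have e1 : ∀ w, w ∈ (M ∪ if b then T else ∅) ↔ w ∈ (M' ∪ if b' then T else ∅) := fun w => by
      by_contra m
      have m1 : ∀ u ∈ symmDiff (M ∪ if b then T else ∅) (M' ∪ if b' then T else ∅),
          u ∈ box n \ ring n := fun u hu =>
        (mem_symmDiff.1 hu).elim (fun a => hsub M k1 b a.1) fun a => hsub M' k2 b' a.1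
      have m2 : w ∈ symmDiff (M ∪ if b then T else ∅) (M' ∪ if b' then T else ∅) := by
        rw [mem_symmDiff]; grind
      have m3 := (mem_iff_of_cut (n := n) (fun x _ => by
        simp only at e
        rw [cut_symmDiff, e]; simp) (mem_sdiff.1 (m1 w m2)).1 (mem_ring.1 o1).1).1 m2
      exact (mem_sdiff.1 (m1 _ m3)).2 o1
    have t3 : t ∉ W := disjoint_right.1 hd ht
    obtain rfl : b = b' := by
      have := e1 t
      have := mt (@k1 t) t3
      have := mt (@k2 t) t3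
      cases b <;> cases b' <;> simp_all
    refine Prod.ext rfl (Finset.ext fun w => ?_)
    have := e1 w
    have a1 : w ∈ M → w ∉ T := fun a => disjoint_left.1 hd (k1 a)
    have a2 : w ∈ M' → w ∉ T := fun a => disjoint_left.1 hd (k2 a)
    simp only [mem_union] at this ⊢
    cases b
    · simpa using this
    · exact ⟨fun a => (this.1 (.inl a)).resolve_right (a1 a),
        fun a => (this.2 (.inl a)).resolve_right (a2 a)⟩
  · intro η k
    obtain ⟨k1, k2⟩ := mem_filter.1 k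
    have k3 := mem_powerset.1 k1
    obtain ⟨D, d1, d2, d3⟩ := t_poin n η (k3.trans (filw_ebox hW)) k2
    have st : ∀ u d, inc u d ∈ ebox n → inc u d ∉ einc W → (u ∈ D ↔ u + d.vec ∈ D) :=
      fun u d m1 m2 => by
        by_contra m
        exact m2 (k3 (d2 ▸ mem_inter.2 ⟨inc_mem_cut.2 m, m1⟩))
    have d4 : D ⊆ W ∪ T := fun w hw => h ▸ mem_sdiff.2 ⟨d1 hw, fun m => by
      have key : ∀ w, Conn (ebox n \ (eS n (ring n) ∪ ∅)) ((1 : ℤ), (n : ℤ)) w → w ∉ D := by
        intro w hw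
        induction hw with
        | refl => exact d3
        | @tail u _ _ m ih =>
          obtain ⟨d, m1, rfl⟩ := m
          rw [union_empty, Finset.mem_sdiff, eS_ring] at m1
          refine mt (st u d m1.1 fun a => m1.2 ?_).2 ih
          rw [mem_einc] at a ⊢
          exact a.imp (@hW _) (@hW _)
      exact key w (conn_of_topConn hS.eS_top (hS.conn _ o1) (hS.conn w m)) hw⟩
    have d5 : ∀ w, NPath T t w → w ∈ T ∧ (w ∈ D ↔ t ∈ D) := fun w hw => by
      induction hw with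
      | refl => exact ⟨ht, Iff.rfl⟩
      | @tail u _ _ m ih =>
        obtain ⟨⟨d, rfl⟩, m1⟩ := m
        have b1 : ∀ a ∈ T, a ∈ box n := fun a ha =>
          (mem_sdiff.1 (h ▸ mem_union_right W ha : a ∈ box n \ ring n)).1
        refine ⟨m1, (st u d (inc_mem_ebox.2 ⟨b1 _ ih.1, b1 _ m1⟩) fun a => ?_).symm.trans ih.2⟩
        exact (inc_mem_einc.1 a).elim (disjoint_right.1 hd ih.1) (disjoint_right.1 hd m1)
    have e : (D ∩ W ∪ if decide (t ∈ D) then T else ∅) = D := by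
      ext w
      have a1 := fun a => (d5 w (hc t ht w a)).2
      have a2 := fun a => mem_union.1 (@d4 w a)
      rw [mem_union, mem_inter]
      by_cases m : t ∈ D
      · rw [if_pos (decide_eq_true m)]
        exact ⟨fun a => a.elim And.left fun a => (a1 a).2 m, fun a => (a2 a).imp_left fun c => ⟨a, c⟩⟩
      · rw [if_neg (mt of_decide_eq_true m)]
        exact ⟨fun a => a.elim And.left fun a => absurd a (notMem_empty _),
          fun a => .inl ⟨a, (a2 a).resolve_right fun c => m ((a1 c).1 a)⟩⟩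
    refine ⟨(decide (t ∈ D), D ∩ W),
      mem_product.2 ⟨mem_univ _, mem_powerset.2 inter_subset_right⟩, ?_⟩
    simp only [e]
    rw [← d2, eq_comm, inter_eq_left]
    exact (filter_subset _ _).trans (filw_ebox (h ▸ d4))

end

theorem p_FIL :
    S_FIL := by
  intro n U G T t v _ h1 h2 h3 h ht hc hr
  have hd : Disjoint (U ∪ G) T := disjoint_union_left.2 ⟨h2, h3⟩
  have t1 : t ∈ box n \ ring n := h ▸ mem_union_right _ ht
  have t2 := mem_box.1 (mem_sdiff.1 t1).1
  have w1 : ∀ M ∈ (U ∪ G).powerset, ∀ b : Bool, cut (M ∪ if b then T else ∅) \ einc G =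
      cut (M ∩ U ∪ if b then T else ∅) ∩ (einc U \ einc G) := fun M k b => by
    have k1 := mem_powerset.1 k
    ext e
    have a1 := @filw_cut n _ T h hr M k1 b e
    have a2 := fun a => mem_union.1 (@k1 (ea e) a)
    have a3 := fun a => mem_union.1 (@k1 (eb e) a)
    simp only [Finset.mem_sdiff, mem_inter, mem_cut, mem_einc, mem_union] at a1 ⊢
    by_cases c1 : ea e ∈ G
    · simp [c1]
    by_cases c2 : eb e ∈ G
    · simp [c2]
    have b2 : ea e ∈ M → ea e ∈ U := fun a => (a2 a).resolve_right c1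
    have b3 : eb e ∈ M → eb e ∈ U := fun a => (a3 a).resolve_right c2
    rw [and_iff_left_of_imp b2, and_iff_left_of_imp b3]
    simp only [c1, c2, or_false, not_false_iff, and_true] at a1 ⊢
    exact (and_iff_left_of_imp a1).symm
  have w2 : ∀ M ∈ (U ∪ G).powerset, ∀ b : Bool,
      (-1 : ℝ) ^ (cut (M ∪ if b then T else ∅) ∩ ray n t).card = if b then -1 else 1 :=
    fun M k b => by
      have k1 := mem_powerset.1 k
      obtain ⟨x, y⟩ := t
      obtain ⟨j, rfl⟩ : ∃ j : ℕ, y = n - j := ⟨(n - y).toNat, by simp only at t2; omega⟩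
      have a1 : (x, (n : ℤ) - j) ∉ M := fun a => disjoint_left.1 hd (k1 a) ht
      rw [filw_sign n _ x fun a => ?_]
      · cases b <;> simp [a1, ht]
      · have a2 : (x, (n : ℤ)) ∈ box n \ ring n :=
          h ▸ union_subset_union k1 (by cases b <;> simp) a
        exact (mem_sdiff.1 a2).2 (mem_ring.2 ⟨(mem_sdiff.1 a2).1, by simp [OnRing]⟩)
  have w3 := fun b : Bool => filw_pow U G h1 fun M =>
    xc ^ (cut (M ∪ if b then T else ∅) ∩ (einc U \ einc G)).card
  have z0 := Zf_pos (F := einc U \ einc G) (U := U) (T := ∅)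
  have z1 := Zf_pos (F := einc U \ einc G) (U := U) (T := T)
  have e1 : Zw n ∅ (einc (U ∪ G)) (einc G) = 2 ^ G.card *
      (Zf (einc U \ einc G) U ∅ (fun _ => True) + Zf (einc U \ einc G) U T fun _ => True) := by
    rw [Zw, filw_sum hd h ht hc hr,
      sum_congr rfl fun b _ => (sum_congr rfl fun M k => by rw [w1 M k b]).trans (w3 b)]
    simp only [Zf, if_true, Fintype.sum_bool, Bool.false_eq_true, if_false]
    ring
  have e2 : ∀ b : Bool, ∑ M ∈ (U ∪ G).powerset,
      (-1 : ℝ) ^ (cut (M ∪ if b then T else ∅) ∩ ray n t).card *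
        xc ^ (cut (M ∪ if b then T else ∅) \ einc G).card = (if b then -1 else 1) * (2 ^ G.card *
        ∑ M ∈ U.powerset, xc ^ (cut (M ∪ if b then T else ∅) ∩ (einc U \ einc G)).card) := by
    intro b
    rw [← w3 b, mul_sum]
    exact sum_congr rfl fun M k => by rw [w1 M k b, w2 M k b]
  rw [Xw, symmDiff_self, Set.bot_eq_empty, filw_sum hd h ht hc hr, e1, sum_congr rfl fun b _ => e2 b]
  simp only [Zf, if_true, Fintype.sum_bool, Bool.false_eq_true, if_false] at z0 z1 ⊢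
  field_simp
  ring

end Pool.Agent.P.MP_347bd1_pr.M

namespace Pool.Agent.P.MP_347bd1_pr.M

open Classical Finset Filter Topology
open scoped ENNReal NNReal

theorem nigw_intr {n : ℕ} {E : Finset Edge} {p : Pt} {W : List Dir} (h : Run (net n E) p W) :
    p ∈ intr n := by
  obtain ⟨W0, q, d, -, h1, h2⟩ := h
  have h3 := h2.1
  clear h2
  induction h1 with
  | nil => exact h3
  | move _ k _ _ => exact k.1
  | bounce _ _ _ ih => exact ih h3

theorem p_NIG (hARC : S_ARC) :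
    S_NIG := by
  intro n S E' K v y y' R M s r W W' _ hL hs hr hR hB hW' hP hy t2 t1
  obtain ⟨hW, hE, -, hK, hsrc, hdis⟩ := hB
  obtain ⟨π, hπ, hπs, hπn⟩ := hP
  have hv := nigw_intr hW
  obtain ⟨u, hu⟩ : ∃ u : ℤ, u = (M : ℤ) * s := ⟨_, rfl⟩
  have hu0 : 0 ≤ u := by rw [hu]; positivity
  have ht : (((2 * M + 8) * s : ℕ) : ℤ) = 2 * u + 8 * s := by rw [hu]; push_cast; ring
  have hr' : 4 * (2 * u + 8 * s) ≤ (r : ℤ) := by rw [← ht]; exact_mod_cast hr
  have hs' : (1 : ℤ) ≤ s := by exact_mod_cast hs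
  rw [ht] at t1 t2
  rw [← hu]
  have b1 : eS n S ⊆ ebox n := eS_subset n S
  have hK2 : K ⊆ eS n S := hK.trans hW.Od_subset
  have hO : Od y' W' ⊆ E' := hW'.Od_subset
  have hd : Disjoint K (Od y' W') := hdis.mono_right hO
  have hsd : ∀ e, (r : ℤ) < nrm (ea e - v) →
      (e ∈ symmDiff (symmDiff K (Od y' W')) π ↔ e ∈ K ∨ e ∈ Od y' W') := fun e he => by
    have a1 : e ∈ K → e ∉ Od y' W' := fun k => disjoint_left.1 hd k
    have a2 : e ∉ π := fun k => by
      have := (hπn e k).1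
      omega
    rw [mem_symmDiff, mem_symmDiff]; grind
  have hsub : symmDiff (symmDiff K (Od y' W')) π ⊆ eS n S :=
    symmDiff_subset_union.trans (union_subset
      (symmDiff_subset_union.trans (union_subset hK2 (hO.trans hE))) hπ)
  obtain ⟨D, hD, ha, hb⟩ := nig_side t_poin (η := symmDiff (symmDiff K (Od y' W')) π) hL
    (hsub.trans b1) (hsub.trans subset_union_left)
    (((hsrc.symmDiff hW'.src_Od).symmDiff hπs).congr fun p _ => by simp)
  have hc : ∀ q, nrm (q - v) ≤ ((2 * r : ℕ) : ℤ) → (Odd (deg K q) ↔ q = y) := by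
    intro q hq
    by_cases hi : q ∈ intr n
    · exact hsrc q hi
    · have h0 : deg K q = deg ∅ q := by
        refine deg_congr fun d => ⟨fun k => ?_, fun k => absurd k (notMem_empty _)⟩
        exfalso
        have k1 := hK2 k
        have k2 := mem_ebox.1 (b1 k1)
        have k3 := corner_cr q d
        have k4 := nrm_tri (ea (cr q d)) q v
        have k5 := nrm_tri (eb (cr q d)) q v
        have k6 := k3.1.nrm_le
        have k7 := k3.2.nrm_le
        push_cast at hq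
        rcases (mem_eS.1 k1).2 with k9 | k9
        · exact k9 (hL.ring _ k2.1 (by omega) (nig_corner_ring hi k3.1 k2.1))
        · exact k9 (hL.ring _ k2.2 (by omega) (nig_corner_ring hi k3.2 k2.2))
      rw [h0, deg_empty]
      exact ⟨fun k => absurd k (by decide), fun k => absurd (k ▸ hv) hi⟩
  obtain ⟨m, w, hm, hnn, hw, ⟨d0, hd0⟩, d1, hd1⟩ := hARC (· ∈ D) K (Od y' W') v y (2 * r)
    (fun e k1 k2 k3 k4 => by
      push_cast at k1 k2 k3 k4
      refine ⟨fun k => disjoint_left.1 hd k.1 k.2, ?_⟩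
      rw [← hsd e (by omega)]; exact hb e (by omega) (by omega)) (by push_cast; omega) hc
  push_cast at hw
  obtain ⟨z0, d2, hz0, hvis, -⟩ := hW'.mem_Od hd1
  have hz1 := nig_corner_inc hz0
  have key : ∀ i ≤ m, ∀ z d, nrm (z - w i) ≤ u + 1 → (net n (eS n S)).mv z d := by
    intro i hi z d hz
    obtain ⟨w1, w2, w3⟩ := hw i hi
    by_contra hmv
    have c1 : ∃ a, a ∉ D ∧ nrm (a - w i) ≤ u + 3 := by
      by_cases k1 : z ∈ intr n
      · by_cases k2 : z + d.vec ∈ intr n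
        · have k4 : cr z d ∉ eS n S := fun k => hmv ⟨k1, k2, k⟩
          have k5 : ea (cr z d) ∈ S := by
            by_contra k
            exact k4 (mem_eS.2 ⟨cr_mem_ebox k1 d, .inl k⟩)
          have k6 := (corner_cr z d).1.nrm_le
          have k7 := nrm_tri (ea (cr z d)) z (w i)
          have k8 := nrm_tri (ea (cr z d)) (w i) v
          exact ⟨_, ha _ k5 (by omega), by omega⟩
        · obtain ⟨a, k3, k4⟩ := nig_out k2
          have k5 := nrm_tri a (z + d.vec) (w i)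
          have k6 := (nrm_step z (w i) d).1
          exact ⟨a, fun k => k3 (hD k), by omega⟩
      · obtain ⟨a, k3, k4⟩ := nig_out k1
        have k5 := nrm_tri a z (w i)
        exact ⟨a, fun k => k3 (hD k), by omega⟩
    obtain ⟨a, a1, a2⟩ := c1
    obtain ⟨b, d', b3, b4, b5⟩ := nig_path w1 _ a a1 a2 le_rfl
    have b6 := nrm_tri b (w i) v
    have b7 := nrm_step b v d'
    have b9 := nrm_tri (w i) b v
    have b10 := nrm_sub_comm b (w i)
    have b8 : inc b d' ∈ K ∨ inc b d' ∈ Od y' W' := by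
      rcases ends_inc b d' with k | k
      · refine (hsd _ (by rw [k.1]; omega)).1
          ((hb _ (by rw [k.1]; omega) (by rw [k.2]; omega)).1 ?_)
        rw [k.1, k.2]; grind
      · refine (hsd _ (by rw [k.1]; omega)).1
          ((hb _ (by rw [k.1]; omega) (by rw [k.2]; omega)).1 ?_)
        rw [k.1, k.2]; grind
    have fin : ∀ z' d'', cr z' d'' = inc b d' → ((r : ℤ) ≤ nrm (z' - v) ∧ nrm (z' - v) ≤ 4 * r) ∧
        nrm (z - z') ≤ 2 * u + 8 * s := by
      intro z' d'' k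
      have k1 := nig_corner_inc k
      have k2 := nrm_tri z' b (w i)
      have k3 := nrm_sub_comm z' b
      have k4 := nrm_tri z' (w i) v
      have k5 := nrm_tri (w i) z' v
      have k6 := nrm_sub_comm z' (w i)
      have k7 := nrm_tri z (w i) z'
      omega
    rcases b8 with k | k
    · obtain ⟨z', d'', k1, k2, -⟩ := hW.mem_Od (hK k)
      obtain ⟨k3, k4⟩ := fin z' d'' k1
      exact t2 ⟨z', k2, k3.1, k3.2, z, d, hmv, k4⟩
    · obtain ⟨z', d'', k1, k2, -⟩ := hW'.mem_Od k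
      obtain ⟨k3, k4⟩ := fin z' d'' k1
      exact t1 ⟨z', k2.le (net_le hE), k3.1, k3.2, z, d, hmv, k4⟩
  refine ⟨m + 1, fun i => if i ≤ m then w i else z0, by omega, fun i hi => ?_, fun i hi z hz => ?_,
    ?_, ?_⟩
  · by_cases k : i + 1 ≤ m
    · simp only [k, if_true, show i ≤ m by omega]
      obtain ⟨d, hd⟩ := hnn i (by omega)
      rw [hd]; simp
    · have e : i = m := by omega
      subst e
      simp only [k, if_false, le_refl, if_true]
      rwa [nrm_sub_comm]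
  · have : ∃ j ≤ m, nrm (z - w j) ≤ u + 1 := by
      by_cases k : i ≤ m
      · simp only [k, if_true] at hz
        exact ⟨i, k, by omega⟩
      · simp only [k, if_false] at hz
        have k1 := nrm_tri z z0 (w m)
        have k2 := nrm_sub_comm z0 (w m)
        exact ⟨m, le_rfl, by omega⟩
    obtain ⟨j, j1, j2⟩ := this
    obtain ⟨-, w2, w3⟩ := hw j j1
    have k4 := nrm_tri z (w j) v
    have k5 := nrm_tri (w j) z v
    have k6 := nrm_sub_comm z (w j)
    exact ⟨by omega, fun d => key j j1 z d j2⟩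
  · obtain ⟨d, hd⟩ := exists_cr (inc (w 0) d0)
    have k1 := nig_corner_inc hd
    have k2 := nrm_sub_comm (w 0) (ea (inc (w 0) d0))
    refine ⟨ea (inc (w 0) d0), d, fun k => disjoint_left.1 hdis hd0 (hd ▸ k.2.2), ?_⟩
    simp only [Nat.zero_le, if_true]
    omega
  · simpa using hvis

end Pool.Agent.P.MP_347bd1_pr.M

namespace Pool.Agent.P.MP_347bd1_pr.M

open Classical Finset Filter Topology
open scoped ENNReal NNReal

theorem kc1w_a {a b o m : Prop} (h : ¬ (a ∧ b)) :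
    (¬ (a ∨ b ↔ o) ↔ a ∧ ¬ m ∨ m ∧ ¬ a) ↔ (o ↔ b ∧ ¬ m ∨ m ∧ ¬ b) := by
  by_cases a <;> by_cases b <;> by_cases o <;> by_cases m <;> simp_all

theorem kc1w_b {a b o m : Prop} (h : ¬ (a ∧ b)) :
    (¬ (a ∨ b ↔ o) ↔ b ∧ ¬ m ∨ m ∧ ¬ b) ↔ (o ↔ a ∧ ¬ m ∨ m ∧ ¬ a) := by
  by_cases a <;> by_cases b <;> by_cases o <;> by_cases m <;> simp_all

theorem kc1w_src {n : ℕ} {η : Finset Edge} {v : Pt} {d : Dir} (A : Set Pt) (he : cr v d ∉ η) :
    (Src n (insert (cr v d) η) (symmDiff {v} A) ↔ Src n η (symmDiff {v + d.vec} A)) ∧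
      (Src n (insert (cr v d) η) (symmDiff {v + d.vec} A) ↔ Src n η (symmDiff {v} A)) := by
  have e1 : insert (cr v d) η = symmDiff {cr v d} η := by
    ext x; by_cases k : x = cr v d <;> simp [mem_symmDiff, k, he]
  have hne : v + d.vec ≠ v := fun k => d.vec_ne_zero (by simpa using k)
  constructor
  · refine forall₂_congr fun p _ => ?_
    rw [e1, odd_deg_symmDiff, odd_deg_singleton, Set.mem_symmDiff, Set.mem_symmDiff,
      Set.mem_singleton_iff, Set.mem_singleton_iff]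
    exact kc1w_a (fun k => hne (k.2.symm.trans k.1))
  · refine forall₂_congr fun p _ => ?_
    rw [e1, odd_deg_symmDiff, odd_deg_singleton, Set.mem_symmDiff, Set.mem_symmDiff,
      Set.mem_singleton_iff, Set.mem_singleton_iff]
    exact kc1w_b (fun k => hne (k.2.symm.trans k.1))

theorem kc1w_act (n : ℕ) (A : Set Pt) (E D : Finset Edge) (v : Pt) (Γ : Finset Edge) (d : Dir)
    (h : cr v d ∈ E) (hD : cr v d ∉ D) :
    Xw n A E D v (symmDiff Γ {cr v d}) = Real.sqrt 2 * Xw n A E D v Γ -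
      (if cr v d ∈ Γ then -1 else 1) * Xw n A E D (v + d.vec) Γ := by
  obtain ⟨E0, h0, rfl⟩ : ∃ E0, cr v d ∉ E0 ∧ E = insert (cr v d) E0 :=
    ⟨E.erase _, notMem_erase _ _, (insert_erase h).symm⟩
  simp only [Xw]
  rw [← mul_div_assoc, ← mul_div_assoc, ← sub_div]
  congr 1
  simp only [sum_powerset_insert h0, ← sum_add_distrib, mul_sum, ← sum_sub_distrib]
  refine sum_congr rfl fun η hη => ?_
  have he : cr v d ∉ η := fun k => h0 (mem_powerset.1 hη k)
  have h2 : Real.sqrt 2 = xc + 1 := by simp [xc]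
  have h3 := xc_sq
  have h4 : (insert (cr v d) η \ D).card = (η \ D).card + 1 := by
    rw [insert_sdiff_of_notMem _ hD, card_insert_of_notMem fun k => he (mem_sdiff.1 k).1]
  rw [(kc1w_src A he).1, (kc1w_src A he).2, kc1_ins he, kc1_ins he, kc1_off he, h4, h2, pow_succ]
  generalize (-1 : ℝ) ^ (η ∩ Γ).card = s
  generalize xc ^ (η \ D).card = y
  by_cases a1 : Src n η (symmDiff {v} A) <;> by_cases a2 : Src n η (symmDiff {v + d.vec} A) <;>
    by_cases a3 : cr v d ∈ Γ <;>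
    simp only [a1, a2, a3, mem_symmDiff, mem_singleton, if_true, if_false, not_true, not_false_iff,
      and_false, and_true, or_self, false_or] <;>
    first | ring1 | linear_combination (s * y) * h3 | linear_combination (-(s * y)) * h3

theorem kc1w_del (n : ℕ) (A : Set Pt) (E D : Finset Edge) (v : Pt) (Γ : Finset Edge) (d : Dir)
    (h : cr v d ∈ E) (hD : cr v d ∈ D) :
    Xw n A E D (v + d.vec) Γ = (if cr v d ∈ Γ then -1 else 1) * Xw n A E D v Γ := by
  obtain ⟨E0, h0, rfl⟩ : ∃ E0, cr v d ∉ E0 ∧ E = insert (cr v d) E0 :=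
    ⟨E.erase _, notMem_erase _ _, (insert_erase h).symm⟩
  simp only [Xw]
  rw [← mul_div_assoc]
  congr 1
  simp only [sum_powerset_insert h0, ← sum_add_distrib, mul_sum]
  refine sum_congr rfl fun η hη => ?_
  have he : cr v d ∉ η := fun k => h0 (mem_powerset.1 hη k)
  rw [(kc1w_src A he).1, (kc1w_src A he).2, kc1_ins he, insert_sdiff_of_mem _ hD]
  generalize (-1 : ℝ) ^ (η ∩ Γ).card = s
  generalize xc ^ (η \ D).card = y
  by_cases a1 : Src n η (symmDiff {v} A) <;> by_cases a2 : Src n η (symmDiff {v + d.vec} A) <;>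
    by_cases a3 : cr v d ∈ Γ <;> simp only [a1, a2, a3, if_true, if_false] <;> ring1

theorem kc1w_blk (n : ℕ) (A : Set Pt) (E D : Finset Edge) (v : Pt) (Γ : Finset Edge) (e : Edge)
    (h : e ∉ E) : Xw n A E D v (symmDiff Γ {e}) = Xw n A E D v Γ := by
  simp only [Xw]
  congr 1
  refine sum_congr rfl fun η hη => ?_
  rw [kc1_off fun k => h (mem_powerset.1 hη k)]

theorem kc1w_face (n : ℕ) (A : Set Pt) (E D : Finset Edge) (v : Pt) (Γ : Finset Edge) (q : Pt)
    (hq : q ∈ intr n) : Xw n A E D v (symmDiff Γ (univ.image (cr q))) =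
      (if q ∈ symmDiff ({v} : Set Pt) A then -1 else 1) * Xw n A E D v Γ := by
  simp only [Xw]
  rw [← mul_div_assoc, mul_sum]
  congr 1
  refine sum_congr rfl fun η _ => ?_
  by_cases a : Src n η (symmDiff {v} A)
  · rw [if_pos a, if_pos a, kc1_symm, kc1_deg]
    have k := a q hq
    by_cases b : q ∈ symmDiff ({v} : Set Pt) A
    · rw [if_pos b, (k.2 b).neg_one_pow]
      ring
    · rw [if_neg b, (Nat.not_odd_iff_even.1 (mt k.1 b)).neg_one_pow]
      ring
  · rw [if_neg a, if_neg a, mul_zero]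

theorem kc1w_out (n : ℕ) (A : Set Pt) (E D : Finset Edge) (v u : Pt) (Γ : Finset Edge)
    (hv : v ∉ intr n) (hu : u ∉ intr n) : Xw n A E D v Γ = Xw n A E D u Γ := by
  have k : ∀ {v u : Pt}, v ∉ intr n → u ∉ intr n → ∀ η, Src n η (symmDiff {v} A) →
      Src n η (symmDiff {u} A) := fun {v u} hv hu η s => s.congr fun p hp => by
    have h1 : p ≠ v := fun e => hv (e ▸ hp)
    have h2 : p ≠ u := fun e => hu (e ▸ hp)
    simp [Set.mem_symmDiff, h1, h2]
  simp only [Xw]
  congr 1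
  exact sum_congr rfl fun η _ => if_congr ⟨k hv hu η, k hu hv η⟩ rfl rfl

theorem kc1w_nonneg (n : ℕ) (A : Set Pt) (E D : Finset Edge) : 0 ≤ Zw n A E D :=
  sum_nonneg fun _ _ => by split_ifs; exacts [(pow_pos xc_pos _).le, le_rfl]

theorem kc1w_pos (n : ℕ) (E D : Finset Edge) : 0 < Zw n ∅ E D :=
  sum_pos' (fun _ _ => by split_ifs; exacts [(pow_pos xc_pos _).le, le_rfl])
    ⟨∅, empty_mem_powerset E, by rw [if_pos (src_empty n)]; exact pow_pos xc_pos _⟩

theorem kc1w_congr {n : ℕ} {A A' : Set Pt} (h : ∀ p ∈ intr n, (p ∈ A ↔ p ∈ A'))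
    (E D : Finset Edge) : Zw n A E D = Zw n A' E D :=
  sum_congr rfl fun _ _ =>
    if_congr ⟨fun k => k.congr h, fun k => k.congr fun p hp => (h p hp).symm⟩ rfl rfl

theorem kc1w_empty (n : ℕ) (A : Set Pt) (E D : Finset Edge) (v : Pt) :
    Xw n A E D v ∅ = Zw n (symmDiff {v} A) E D / Zw n ∅ E D := by
  simp only [Xw, Zw, inter_empty, card_empty, pow_zero, one_mul]

theorem p_KC1 :
    S_KC1 := by
  intro n E D
  refine ⟨fun A => ⟨kc1w_act n A E D, kc1w_blk n A E D, kc1w_del n A E D, kc1w_face n A E D,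
    kc1w_out n A E D⟩, kc1w_pos n E D, fun A => kc1w_nonneg n A E D, fun v => ?_, fun v => ?_,
    fun v hv => ?_⟩
  · rw [kc1w_empty, Gw, kc1w_congr (A' := {v}) fun p _ => by simp [Set.mem_symmDiff]]
  · rw [kc1w_empty, kc1w_congr (A' := ∅) fun p _ => by simp, div_self (kc1w_pos n E D).ne']
  · rw [kc1w_empty, kc1w_congr (A' := ∅) fun p hp => by
      have h1 : p ≠ v := fun e => hv (e ▸ hp)
      simp [Set.mem_symmDiff, h1], div_self (kc1w_pos n E D).ne']

end Pool.Agent.P.MP_347bd1_pr.M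

namespace Pool.Agent.P.MP_347bd1_pr.M

open Classical Finset Filter Topology
open scoped ENNReal NNReal

theorem th0w_Zf (τ : Pt) (U G T : Finset Pt) :
    Zf (einc (pairSh τ U) \ einc (pairSh τ G)) (pairSh τ U) (pairSh τ T) (fun _ => True) =
      Zf (einc U \ einc G) U T fun _ => True := by
  have ha : ∀ (σ : Pt) (e : Edge), ea (e.1 + σ, e.2) = ea e + σ := fun _ _ => rfl
  have hb : ∀ (σ : Pt) (e : Edge), eb (e.1 + σ, e.2) = eb e + σ := by
    rintro σ ⟨w, _ | _⟩ <;> simp [eb, add_right_comm]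
  refine (sum_nbij' (pairSh τ) (pairSh (-τ)) (fun M k => ?_) (fun M k => ?_)
    (fun M _ => pair_sh_sh τ M) (fun M _ => pair_sh_sh' τ M) fun M _ => ?_).symm
  · exact mem_powerset.2 (pair_sh_mono (mem_powerset.1 k))
  · exact mem_powerset.2 (pair_sh_sh τ U ▸ pair_sh_mono (mem_powerset.1 k))
  · rw [if_pos trivial, if_pos trivial]
    refine congrArg _ ?_
    refine card_nbij' (fun e => (e.1 + τ, e.2)) (fun e => (e.1 + -τ, e.2)) (fun e k => ?_)
      (fun e k => ?_) (fun e _ => by simp) fun e _ => by simp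
    · simpa only [mem_coe, mem_inter, Finset.mem_sdiff, mem_cut, mem_einc, ha, hb, pair_mem_sh,
        mem_union, add_sub_cancel_right] using k
    · simpa only [mem_coe, mem_inter, Finset.mem_sdiff, mem_cut, mem_einc, ha, hb, pair_mem_sh,
        mem_union, sub_eq_add_neg] using k

theorem th0w_ball (τ o : Pt) (r : ℤ) : ball (o + τ) r = pairSh τ (ball o r) := by
  ext z
  rw [pair_mem_sh, mem_ball, mem_ball, show z - (o + τ) = z - τ - o by abel]

theorem th0w_Uf (τ o : Pt) (w ρ : ℤ) (G : Finset Pt) :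
    Uf (o + τ) w ρ (pairSh τ G) = pairSh τ (Uf o w ρ G) := by
  ext z
  simp only [Uf, th0w_ball, pair_mem_sh, Finset.mem_sdiff, mem_union]

theorem th0w_path (τ : Pt) {G : Finset Pt} {a b : Pt} (h : NPath G a b) :
    NPath (pairSh τ G) (a + τ) (b + τ) := by
  induction h with
  | refl => exact .refl
  | tail _ k ih =>
    obtain ⟨⟨d, rfl⟩, k2⟩ := k
    exact ih.tail ⟨⟨d, add_right_comm _ _ _⟩, by simpa [pair_mem_sh] using k2⟩

theorem th0w_slit (τ : Pt) {o : Pt} {w ρ : ℤ} {G : Finset Pt} (h : Slit o w ρ G) :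
    Slit (o + τ) w ρ (pairSh τ G) := by
  have e : ∀ g : Pt, g - (o + τ) = g - τ - o := fun g => by abel
  refine ⟨fun g k => ?_, fun a ka b kb => ?_, ?_, ?_⟩
  · rw [e]
    exact h.sub _ (pair_mem_sh.1 k)
  · simpa using th0w_path τ (h.conn _ (pair_mem_sh.1 ka) _ (pair_mem_sh.1 kb))
  · obtain ⟨g, k1, k2⟩ := h.inn
    exact ⟨g + τ, by simpa [pair_mem_sh] using k1, by simpa using k2⟩
  · obtain ⟨g, k1, k2⟩ := h.out
    exact ⟨g + τ, by simpa [pair_mem_sh] using k1, by simpa using k2⟩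

theorem th0w_drop {F F' : Finset Edge} {U T B : Finset Pt} (hU : Disjoint U B)
    (hT : T = B ∨ T = ∅) (h : ∀ e ∈ F, e ∉ F' → ea e ∈ B ∧ eb e ∈ B) :
    Zf (F ∪ F') U T (fun _ => True) = Zf F' U T fun _ => True := by
  refine sum_congr rfl fun M k => ?_
  rw [if_pos trivial, if_pos trivial]
  refine congrArg _ (congrArg _ ?_)
  ext e
  simp only [mem_inter, mem_union]
  refine and_congr_right fun m => ⟨fun q => ?_, .inr⟩
  by_contra n
  obtain ⟨a, b⟩ := h e (q.resolve_right n) n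
  have a' : ea e ∉ M := fun j => disjoint_left.1 hU (mem_powerset.1 k j) a
  have b' : eb e ∉ M := fun j => disjoint_left.1 hU (mem_powerset.1 k j) b
  rcases hT with rfl | rfl <;> simp [mem_cut, a, b, a', b'] at m

theorem p_TH0 (hGKSZ : S_GKSZ) (hTHF : S_THF) :
    S_TH0 := by
  obtain ⟨K, hK, c, hc, h⟩ := hTHF
  refine ⟨K, hK, c, hc, fun w ρ o F U T G hw hρ hT hTb hU hUT hG hGU hF => ?_⟩
  have h1 := h w ρ (pairSh (((ρ : ℤ) + 1, (ρ : ℤ) + 1) - o) G)
    (o + (((ρ : ℤ) + 1, (ρ : ℤ) + 1) - o)) hw hρ (by abel) (th0w_slit _ hG)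
  have e0 : (∅ : Finset Pt) = pairSh (((ρ : ℤ) + 1, (ρ : ℤ) + 1) - o) ∅ := by simp [pairSh]
  rw [th0w_Uf, th0w_ball, e0, th0w_Zf, th0w_Zf] at h1
  have hwρ : (w : ℤ) + 1 < ρ := by
    obtain ⟨g, k1, k2⟩ := hG.inn
    exact k2 ▸ (hG.sub g k1).2
  have hd : Disjoint (Uf o w ρ G) (ball o w) :=
    disjoint_left.2 fun z k m => (Finset.mem_sdiff.1 k).2 (mem_union_left _ m)
  have hb : ∀ z, z ∈ U ∪ T → z ∉ G ∧ (z ∉ Uf o w ρ G → z ∈ ball o w) := fun z k => by
    rcases mem_union.1 k with k | k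
    · have n : z ∉ G := disjoint_right.1 hGU k
      refine ⟨n, fun m => by_contra fun j => m (Finset.mem_sdiff.2 ⟨hU k, by simp [j, n]⟩)⟩
    · refine ⟨fun m => ?_, fun _ => hTb k⟩
      have := (hG.sub z m).1
      have := mem_ball.1 (hTb k)
      omega
  have hr : ∀ z, nrm (z - o) = ρ → z ∉ G := fun z k m => by
    have := (hG.sub z m).2
    omega
  have key : ∀ e ∈ F, e ∉ einc (Uf o w ρ G) \ einc G → ea e ∈ ball o w ∧ eb e ∈ ball o w := by
    intro e k n
    obtain ⟨k1, k2, k3⟩ := hF e k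
    have ga : ea e ∉ G := k2.elim (fun j => (hb _ j).1) (hr _)
    have gb : eb e ∉ G := k3.elim (fun j => (hb _ j).1) (hr _)
    have n2 : ea e ∉ Uf o w ρ G ∧ eb e ∉ Uf o w ρ G := by
      simpa [mem_einc, ga, gb, not_or] using n
    have s : nrm (ea e - eb e) = 1 := pair_star_ends e
    have t1 := nrm_tri (ea e) (eb e) o
    have t2 := nrm_tri (eb e) (ea e) o
    rw [nrm_sub_comm (eb e) (ea e)] at t2
    rcases k1 with k1 | k1
    · have a := (hb _ (mem_union_left _ k1)).2 n2.1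
      refine ⟨a, k3.elim (fun j => (hb _ j).2 n2.2) fun j => ?_⟩
      have := mem_ball.1 a
      omega
    · have a := (hb _ (mem_union_left _ k1)).2 n2.2
      refine ⟨k2.elim (fun j => (hb _ j).2 n2.1) fun j => ?_, a⟩
      have := mem_ball.1 a
      omega
  have hn : ∀ z, (z ∈ U ∪ T ∨ nrm (z - o) = ρ) → z ∉ (ball o (ρ - 1) \ T) \ U := fun z k m => by
    simp only [Finset.mem_sdiff, mem_ball, mem_union] at k m
    rcases k with (k | k) | k
    exacts [m.2 k, m.1.2 k, by omega]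
  have h2 := hGKSZ F (F ∪ (einc (Uf o w ρ G) \ einc G)) U (ball o (ρ - 1) \ T) (Uf o w ρ G) T
    (ball o w) hT subset_union_left hTb (subset_sdiff.2 ⟨hU, hUT⟩) (fun z k => ?_)
    sdiff_disjoint hd fun e k => ⟨hn _ (hF e k).2.1, hn _ (hF e k).2.2⟩
  · rw [th0w_drop hd (.inl rfl) key, th0w_drop hd (.inr rfl) key] at h2
    refine le_of_mul_le_mul_right ?_
      (Zf_pos (F := einc (Uf o w ρ G) \ einc G) (U := Uf o w ρ G) (T := ∅))
    refine le_trans ?_ h2
    rw [mul_right_comm]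
    exact mul_le_mul_of_nonneg_right h1 Zf_nonneg
  · rw [sdiff_union_self_eq_union]
    refine mem_union_left _ ?_
    rcases mem_union.1 k with k | k
    · exact (Finset.mem_sdiff.1 k).1
    · have := mem_ball.1 k
      exact mem_ball.2 (by omega)

end Pool.Agent.P.MP_347bd1_pr.M

namespace Pool.Agent.P.MP_347bd1_pr.M

open Classical Finset Filter Topology
open scoped ENNReal NNReal

noncomputable def lsmw_f (n : ℕ) (F G : Finset Edge) (D : Finset Pt) : ℝ :=
  if lsm_ok n F D then xc ^ (cut D ∩ (ebox n \ G)).card else 0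

theorem lsmw_nonneg (n : ℕ) (F G : Finset Edge) : 0 ≤ lsmw_f n F G := fun D => by
  unfold lsmw_f
  split_ifs
  exacts [(pow_pos xc_pos _).le, le_rfl]

theorem lsmw_sum {n : ℕ} (hn : 1 ≤ n) {F : Finset Edge} (hF : SC n F) (G : Finset Edge) :
    ∑ D ∈ (box n).powerset, lsmw_f n F G D = Zw n ∅ F G := by
  have h0 : ((1 : ℤ), (n : ℤ)) ∈ box n := by
    rw [mem_box]
    simp only
    omega
  unfold lsmw_f Zw
  rw [← sum_filter, ← sum_filter]
  refine sum_bij (fun D _ => cut D ∩ ebox n) (fun D hD => ?_) (fun D hD D' hD' k => ?_)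
    (fun η hη => ?_) fun _ _ => by rw [inter_sdiff_assoc]
  · rw [mem_filter] at hD ⊢
    refine ⟨mem_powerset.2 fun e he => ?_, src_cut n D⟩
    by_contra k
    have h1 := hD.2.2 e (mem_inter.1 he).2 k
    exact mem_cut.1 (mem_inter.1 he).1 (iff_of_false h1.1 h1.2)
  · rw [mem_filter, mem_powerset] at hD hD'
    have h1 : ∀ e ∈ ebox n, e ∉ cut (symmDiff D D') := fun e he => by
      have h2 := Finset.ext_iff.1 k e
      simp only [mem_inter, he, and_true] at h2
      rw [cut_symmDiff, mem_symmDiff]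
      grind
    ext w
    by_cases hw : w ∈ box n
    · have h2 := mem_iff_of_cut h1 hw h0
      have h3 := hD.2.1
      have h4 := hD'.2.1
      simp only [mem_symmDiff] at h2
      grind
    · exact iff_of_false (fun k => hw (hD.1 k)) fun k => hw (hD'.1 k)
  · rw [mem_filter, mem_powerset] at hη
    obtain ⟨D, h1, h2, h3⟩ := t_poin n η (hη.1.trans hF.sub) hη.2
    have key : ∀ w, TopConn n F w → w ∉ D := fun w hw => by
      have h4 := conn_of_topConn hF.top (topConn_top F h0 rfl) hw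
      clear hw
      induction h4 with
      | refl => exact h3
      | tail _ k ih =>
        obtain ⟨d, k1, rfl⟩ := k
        rw [Finset.mem_sdiff] at k1
        intro k2
        exact k1.2 (hη.1 (h2 ▸ mem_inter.2 ⟨inc_mem_cut.2 fun k3 => ih (k3.2 k2), k1.1⟩))
    exact ⟨D, mem_filter.2 ⟨mem_powerset.2 h1, h3, fun e he he' =>
      ⟨key _ (hF.conn e he he'), key _ (hF.conn_b he he')⟩⟩, h2⟩

theorem p_LSM :
    S_LSM := by
  intro n E A B G hn hE hA hB hAE hBE
  have hAB : SC n (A ∩ B) := ⟨inter_subset_left.trans hA.sub,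
    fun e he => hA.top e (mem_inter.1 he).1, fun e he he' => by
      by_cases k : e ∈ A
      · exact (hB.conn e he fun k' => he' (mem_inter.2 ⟨k, k'⟩)).mono inter_subset_right
      · exact (hA.conn e he k).mono inter_subset_left⟩
  have key := Finset.four_functions_theorem (box n) (lsmw_nonneg n A G) (lsmw_nonneg n B G)
    (lsmw_nonneg n (A ∩ B) G) (lsmw_nonneg n E G) (fun D _ D' _ => ?_) (subset_refl _)
    (subset_refl _)
  · rw [powerset_infs_powerset_self, powerset_sups_powerset_self, lsmw_sum hn hA,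
      lsmw_sum hn hB, lsmw_sum hn hAB, lsmw_sum hn hE] at key
    rwa [mul_comm (Zw n ∅ E G)]
  by_cases h1 : lsm_ok n A D
  · by_cases h2 : lsm_ok n B D'
    · have h3 : lsm_ok n (A ∩ B) (D ∩ D') := ⟨fun k => h1.1 (mem_inter.1 k).1, fun e he he' => by
        simp only [mem_inter, not_and_or] at he' ⊢
        rcases he' with k | k
        · exact ⟨Or.inl (h1.2 e he k).1, Or.inl (h1.2 e he k).2⟩
        · exact ⟨Or.inr (h2.2 e he k).1, Or.inr (h2.2 e he k).2⟩⟩
      have h4 : lsm_ok n E (D ∪ D') := ⟨fun k => (mem_union.1 k).elim h1.1 h2.1, fun e he he' => by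
        have k1 := h1.2 e he fun k => he' (hAE k)
        have k2 := h2.2 e he fun k => he' (hBE k)
        simp only [mem_union, not_or]
        exact ⟨⟨k1.1, k2.1⟩, k1.2, k2.2⟩⟩
      simp only [lsmw_f, if_pos h1, if_pos h2, if_pos h3, if_pos h4, ← pow_add]
      exact pow_le_pow_of_le_one xc_pos.le xc_lt_one.le (lsm_submod _ D D')
    · rw [lsmw_f, lsmw_f, if_neg h2, mul_zero]
      exact mul_nonneg (lsmw_nonneg _ _ _ _) (lsmw_nonneg _ _ _ _)
  · rw [lsmw_f, if_neg h1, zero_mul]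
    exact mul_nonneg (lsmw_nonneg _ _ _ _) (lsmw_nonneg _ _ _ _)

end Pool.Agent.P.MP_347bd1_pr.M
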