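import Pool.Agent.P.MP_347bd1_pr.M.Iface

/-! Steps SIGNS, MV, KC, GRN, MONO, BAR. -/

set_option autoImplicit false

namespace Pool.Agent.P.MP_347bd1_pr.M

open Classical Finset Filter Topology
open scoped ENNReal NNReal

theorem signsw_ball {c : Pt} {r : ℤ} {x y : ℤ} : (x, y) ∈ ball c r ↔
    c.1 - r ≤ x ∧ x ≤ c.1 + r ∧ c.2 - r ≤ y ∧ y ≤ c.2 + r := by
  simp only [ball, mem_product, mem_Icc, and_assoc]

theorem signsw_ind (c : Pt) (w : ℤ) (P : Pt → Prop) (h0 : P c)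
    (hs : ∀ t (d : Dir), t ∈ ball c w → t + d.vec ∈ ball c w → P t → P (t + d.vec)) :
    ∀ t ∈ ball c w, P t := by
  have key : ∀ (m : ℕ) (x y : ℤ), (x - c.1).natAbs + (y - c.2).natAbs = m → (x, y) ∈ ball c w →
      P (x, y) := by
    intro m
    induction m with
    | zero =>
      intro x y h _
      obtain rfl : x = c.1 := by omega
      obtain rfl : y = c.2 := by omega
      exact h0
    | succ m ih =>
      intro x y h hb
      have hb' := signsw_ball.1 hb
      have st : ∀ (x' y' : ℤ) (d : Dir), (x', y') + d.vec = (x, y) → (x', y') ∈ ball c w →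
          (x' - c.1).natAbs + (y' - c.2).natAbs = m → P (x, y) := fun x' y' d e k1 k2 =>
        e ▸ hs _ d k1 (e ▸ hb) (ih _ _ k2 k1)
      rcases lt_trichotomy x c.1 with k | k | k
      · exact st (x + 1) y .W (by simp [Dir.vec]) (signsw_ball.2 (by omega)) (by omega)
      · rcases lt_or_ge y c.2 with k' | k'
        · exact st x (y + 1) .S (by simp [Dir.vec]) (signsw_ball.2 (by omega)) (by omega)
        · exact st x (y - 1) .N (by simp [Dir.vec]) (signsw_ball.2 (by omega)) (by omega)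
      · exact st (x - 1) y .E (by simp [Dir.vec]) (signsw_ball.2 (by omega)) (by omega)
  exact fun t ht => key _ t.1 t.2 rfl ht

theorem signsw_chain {α : Type} (g : ℤ → α) (lo hi : ℤ)
    (h : ∀ i, lo ≤ i → i < hi → g (i + 1) = g i) : ∀ i, lo ≤ i → i ≤ hi → g i = g lo := by
  intro i h1
  induction i, h1 using Int.leInduction with
  | base => exact fun _ => rfl
  | succ i k ih => exact fun k' => (h i k (by omega)).trans (ih (by omega))

theorem signsw_pos {a b : ℝ} (ha : a ≠ 0) (h : (Real.sqrt 2 * a - b) ^ 2 ≤ a ^ 2) : 0 < a * b := by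
  have h1 : Real.sqrt 2 ^ 2 = 2 := Real.sq_sqrt (by norm_num)
  have h2 : 0 < Real.sqrt 2 := Real.sqrt_pos.2 (by norm_num)
  have h3 : 0 < a ^ 2 := by positivity
  by_contra k
  have h4 : Real.sqrt 2 * (a * b) ≤ 0 := mul_nonpos_of_nonneg_of_nonpos h2.le (not_lt.1 k)
  have h5 : (Real.sqrt 2 * a - b) ^ 2 = 2 * a ^ 2 - 2 * (Real.sqrt 2 * (a * b)) + b ^ 2 := by
    linear_combination a ^ 2 * h1
  nlinarith [sq_nonneg b]

theorem signsw_sign {a b : ℝ} (h1 : a ≠ 0 → 0 < a * b) (h2 : b ≠ 0 → a ≠ 0) :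
    SignType.sign b = SignType.sign a := by
  rcases lt_trichotomy a 0 with k | k | k
  · rw [sign_neg k, sign_neg (by nlinarith [h1 k.ne])]
  · have : b = 0 := by_contra fun m => h2 m k
    rw [k, this]
  · rw [sign_pos k, sign_pos (pos_of_mul_pos_left' (h1 k.ne') k)]
where
  pos_of_mul_pos_left' {a b : ℝ} (h : 0 < a * b) (k : 0 < a) : 0 < b := by nlinarith

theorem signsw_s1 (g a b c e : Finset Edge) : symmDiff g (symmDiff b c) =
    symmDiff (symmDiff (symmDiff g (symmDiff a c)) e) (symmDiff (symmDiff a e) b) := by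
  ext x
  simp only [mem_symmDiff]
  by_cases h1 : x ∈ g <;> by_cases h2 : x ∈ a <;> by_cases h3 : x ∈ b <;> by_cases h4 : x ∈ c <;>
    by_cases h5 : x ∈ e <;> simp [h1, h2, h3, h4, h5]

theorem signsw_s2 (a c : Finset Edge) : symmDiff c (symmDiff a c) = a := by
  rw [symmDiff_comm a c, symmDiff_symmDiff_cancel_left]

theorem signsw_s3 (a b c e : Finset Edge) :
    symmDiff (symmDiff (symmDiff c e) (symmDiff a c)) (symmDiff (symmDiff a e) b) = b := by
  ext x
  simp only [mem_symmDiff]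
  by_cases h2 : x ∈ a <;> by_cases h3 : x ∈ b <;> by_cases h4 : x ∈ c <;>
    by_cases h5 : x ∈ e <;> simp [h2, h3, h4, h5]

theorem p_SIGNS (hSTEP : S_STEP) :
    S_SIGNS := by
  intro n E D A X Hp Hs c w hF hN hH hb hin hcut ⟨v, dv, hv1, hv2⟩
  by_contra hcon
  push Not at hcon
  have hsub : ∀ t ∈ ball c w, t ∈ box n ∧ ∀ d : Dir, t + d.vec ∈ box n := fun t ht => by
    have h1 := mem_ball.1 ht
    refine ⟨hb (mem_ball.2 (by omega)), fun d => hb (mem_ball.2 ?_)⟩
    have := (nrm_step t c d).1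
    omega
  have hst : ∀ t ∈ ball c w, ∀ (d : Dir) p Γ, X p (symmDiff Γ (symmDiff (symmDiff (ray n t)
      {inc t d}) (ray n (t + d.vec)))) ^ 2 = X p Γ ^ 2 := fun t ht d p Γ => by
    obtain ⟨ε, h1, h2, -⟩ := hSTEP n E D A X hF hN t d p
      (inc_mem_ebox.2 ⟨(hsub t ht).1, (hsub t ht).2 d⟩)
    rw [h2]
    rcases h1 with rfl | rfl <;> ring
  have hR : ∀ t ∈ ball c w, ∀ p Γ,
      X p (symmDiff Γ (symmDiff (ray n t) (ray n c))) ^ 2 = X p Γ ^ 2 := by
    refine signsw_ind c w _ (fun p Γ => by rw [symmDiff_self, symmDiff_bot]) fun t d h1 h2 ih p Γ => ?_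
    have he : inc t d ∉ E := by
      rcases ends_inc t d with k | k <;> exact hin _ (k.1.symm ▸ ‹_›) (k.2.symm ▸ ‹_›)
    rw [← ih p Γ, ← hF.blk p (symmDiff Γ (symmDiff (ray n t) (ray n c))) _ he, ← hst t h1 d p
      (symmDiff (symmDiff Γ (symmDiff (ray n t) (ray n c))) {inc t d}), ← signsw_s1]
  have hpos : ∀ p d, cr p d ∈ cut (ball c w) → X p (ray n c) ≠ 0 →
      0 < X p (ray n c) * ((if cr p d ∈ ray n c then -1 else 1) * X (p + d.vec) (ray n c)) := by
    intro p d he ha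
    have hE := hcut he
    by_cases hD : cr p d ∈ D
    · rw [hF.del p _ d hE hD]
      have : 0 < X p (ray n c) ^ 2 := by positivity
      split_ifs <;> nlinarith
    obtain ⟨t, d', ht, ht', e, c1, c2⟩ : ∃ t d', t ∈ ball c w ∧ t + Dir.vec d' ∉ ball c w ∧
        inc t d' = cr p d ∧ Corner p t ∧ Corner p (t + d'.vec) := by
      have h1 := mem_cut.1 he
      by_cases k : ea (cr p d) ∈ ball c w
      · obtain ⟨d', k1, k2⟩ := exists_inc (cr p d)
        exact ⟨_, d', k, k2 ▸ by grind, k1, (corner_cr p d).1, k2 ▸ (corner_cr p d).2⟩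
      · obtain ⟨d', k1, k2⟩ := exists_inc_b (cr p d)
        exact ⟨_, d', by grind, k2 ▸ k, k1, (corner_cr p d).2, k2 ▸ (corner_cr p d).1⟩
    have h1 := hcon t ht d' ht' (e ▸ hD)
    have h2 := hH t (hsub t ht).1 p c1
    have h3 := hH _ ((hsub t ht).2 d') p c2
    have h4 : X p (ray n t) ^ 2 = X p (ray n c) ^ 2 := by
      rw [← hR t ht p (ray n c), signsw_s2]
    have h5 : X p (ray n (t + d'.vec)) ^ 2 = X p (symmDiff (ray n c) {cr p d}) ^ 2 := by
      rw [← hR t ht p (symmDiff (ray n c) {cr p d}), ← hst t ht d' p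
        (symmDiff (symmDiff (ray n c) {cr p d}) (symmDiff (ray n t) (ray n c))), e, signsw_s3]
    rw [hF.act p _ d hE hD] at h5
    exact signsw_pos ha (by linarith)
  have hsg : ∀ p d, cr p d ∈ cut (ball c w) →
      SignType.sign ((if cr p d ∈ ray n c then -1 else 1) * X (p + d.vec) (ray n c)) =
        SignType.sign (X p (ray n c)) := fun p d he => by
    refine signsw_sign (hpos p d he) fun k m => ?_
    have := hpos (p + d.vec) d.opp (by rwa [cr_opp]) (right_ne_zero_of_mul k)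
    rw [Dir.vec_opp, add_neg_cancel_right, m] at this
    simp at this
  have hU : c.2 + w < n := by
    have := mem_box.1 (hb (x := (c.1, c.2 + w + 1)) (signsw_ball.2 (by omega)))
    simp only at this
    omega
  set σ : ℤ → ℤ → SignType := fun x y => SignType.sign (X (x, y) (ray n c)) with hσ
  have hE : ∀ x y : ℤ, c.1 - w ≤ x + 1 → x + 1 ≤ c.1 + w → (y = c.2 + w ∨ y = c.2 - w - 1) →
      SignType.sign ((if x + 1 = c.1 ∧ y = c.2 + w then -1 else 1) * X (x + 1, y) (ray n c)) =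
        σ x y := fun x y h1 h2 h3 => by
    have := hsg (x, y) .E (by
      simp only [mem_cut, cr, ea, eb, Bool.false_eq_true, if_false, Prod.mk_add_mk, signsw_ball]
      omega)
    have e : cr (x, y) .E ∈ ray n c ↔ x + 1 = c.1 ∧ y = c.2 + w := by
      simp only [kc_mem_ray, cr, true_and]
      omega
    simpa only [e, Dir.vec, Prod.mk_add_mk, add_zero] using this
  have hE' : ∀ x y : ℤ, c.1 - w ≤ x + 1 → x + 1 ≤ c.1 + w → (y = c.2 + w ∨ y = c.2 - w - 1) →
      ¬ (x + 1 = c.1 ∧ y = c.2 + w) → σ (x + 1) y = σ x y := fun x y h1 h2 h3 h4 => by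
    have := hE x y h1 h2 h3
    rwa [if_neg h4, one_mul] at this
  have hV : ∀ x y : ℤ, c.2 - w ≤ y + 1 → y + 1 ≤ c.2 + w → (x = c.1 + w ∨ x = c.1 - w - 1) →
      σ x (y + 1) = σ x y := fun x y h1 h2 h3 => by
    have := hsg (x, y) .N (by
      simp only [mem_cut, cr, ea, eb, if_true, Prod.mk_add_mk, signsw_ball]
      omega)
    have e : cr (x, y) .N ∉ ray n c := by simp [kc_mem_ray, cr]
    simpa only [e, Dir.vec, Prod.mk_add_mk, add_zero, if_false, one_mul] using this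
  have a1 := signsw_chain (fun x => σ x (c.2 - w - 1)) (c.1 - w - 1) (c.1 + w) fun i k1 k2 =>
    hE' i _ (by omega) (by omega) (.inr rfl) (by omega)
  have a2 := signsw_chain (fun y => σ (c.1 - w - 1) y) (c.2 - w - 1) (c.2 + w) fun i k1 k2 =>
    hV _ i (by omega) (by omega) (.inr rfl)
  have a3 := signsw_chain (fun y => σ (c.1 + w) y) (c.2 - w - 1) (c.2 + w) fun i k1 k2 =>
    hV _ i (by omega) (by omega) (.inl rfl)
  have a4 := signsw_chain (fun x => σ x (c.2 + w)) (c.1 - w - 1) (c.1 - 1) fun i k1 k2 =>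
    hE' i _ (by omega) (by omega) (.inl rfl) (by omega)
  have a5 := signsw_chain (fun x => σ x (c.2 + w)) c.1 (c.1 + w) fun i k1 k2 =>
    hE' i _ (by omega) (by omega) (.inl rfl) (by omega)
  have b1 := a1 _ (by omega) le_rfl
  have b2 := a2 _ (by omega) le_rfl
  have b3 := a3 _ (by omega) le_rfl
  have b4 := a4 _ (by omega) le_rfl
  have b5 := a5 _ (by omega) le_rfl
  have b6 : -σ c.1 (c.2 + w) = σ (c.1 - 1) (c.2 + w) := by
    have := hE (c.1 - 1) (c.2 + w) (by omega) (by omega) (.inl rfl)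
    rwa [if_pos ⟨by omega, rfl⟩, sub_add_cancel, neg_one_mul, Left.sign_neg] at this
  have b7 : σ (c.1 - w - 1) (c.2 - w - 1) = 0 := by
    rw [← b5, b3, b1, b4, b2] at b6
    exact SignType.neg_eq_self_iff.1 b6
  obtain ⟨x, y⟩ := v
  have hz : σ x y = 0 := by
    have h1 : (c.1 - w - 1 ≤ x ∧ x ≤ c.1 + w ∧ c.2 - w - 1 ≤ y ∧ y ≤ c.2 + w) ∧
        (x = c.1 - w - 1 ∨ x = c.1 + w ∨ y = c.2 - w - 1 ∨ y = c.2 + w) := by
      cases dv <;> simp only [mem_cut, cr, ea, eb, if_true, Bool.false_eq_true, if_false,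
        Prod.mk_add_mk, signsw_ball] at hv1 <;> omega
    obtain ⟨⟨k1, k2, k3, k4⟩, rfl | rfl | rfl | rfl⟩ := h1
    · rw [a2 y k3 k4, b7]
    · rw [a3 y k3 k4, b1, b7]
    · rw [a1 x k1 k2, b7]
    · by_cases k : x ≤ c.1 - 1
      · rw [a4 x k1 k, b2, b7]
      · rw [a5 x (by omega) k2, ← b5, b3, b1, b7]
  exact hv2 (sign_eq_zero_iff.1 hz)

end Pool.Agent.P.MP_347bd1_pr.M

namespace Pool.Agent.P.MP_347bd1_pr.M

open Classical Finset Filter Topology
open scoped ENNReal NNReal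

noncomputable def mvw_g (x : ℝ) : ℝ := -Real.log x - 1 + x

theorem mvw_g_nonneg {x : ℝ} (h : 0 < x) : 0 ≤ mvw_g x := by
  have := Real.log_le_sub_one_of_pos h
  unfold mvw_g; linarith

theorem mvw_g_low {x : ℝ} (h : 0 < x) (h1 : x ≤ 1) : (1 - x) ^ 2 / 4 ≤ mvw_g x := by
  obtain ⟨t, ht, rfl⟩ : ∃ t : ℝ, 0 < t ∧ x = t ^ 2 :=
    ⟨√x, Real.sqrt_pos.2 h, (Real.sq_sqrt h.le).symm⟩
  have h2 := Real.log_le_sub_one_of_pos ht
  have h3 : t ≤ 1 := by nlinarith
  unfold mvw_g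
  rw [Real.log_pow]
  push_cast
  have h4 : (1 - t ^ 2) ^ 2 = (1 - t) ^ 2 * (1 + t) ^ 2 := by ring
  have h5 : (1 - t) ^ 2 * (1 + t) ^ 2 ≤ (1 - t) ^ 2 * 4 :=
    mul_le_mul_of_nonneg_left (by nlinarith) (sq_nonneg _)
  nlinarith

theorem mvw_g_sub {x y : ℝ} (h : 0 < x) (h' : 0 < y) :
    x * (mvw_g x - mvw_g y) ≤ (y - x) * (1 - x) := by
  have h1 := Real.log_le_sub_one_of_pos (div_pos h' h)
  rw [Real.log_div h'.ne' h.ne'] at h1
  have h2 := mul_le_mul_of_nonneg_left h1 h.le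
  have h3 : x * (y / x - 1) = y - x := by field_simp
  unfold mvw_g
  nlinarith

theorem mvw_edge {x y e : ℝ} (h : 0 < x) (h1 : x ≤ 1) (h2 : 1 ≤ y) (hd : (y - x) ^ 2 ≤ 5 * x * e) :
    mvw_g x ≤ 5 * e := by
  have h3 := mvw_g_sub h one_pos
  have h4 : mvw_g 1 = 0 := by simp [mvw_g]
  rw [h4] at h3
  refine le_of_mul_le_mul_left ?_ h
  nlinarith

theorem mvw_step {x y e : ℝ} (h : 0 < x) (h1 : x ≤ 1) (h' : 0 < y) (h2 : y ≤ 1) (he : 0 < e)
    (hx : e ≤ x) (hd : (y - x) ^ 2 ≤ 5 * x * e) : mvw_g x ≤ 4 * mvw_g y + 1200 * e := by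
  have h3 := mvw_g_sub h h'
  have h4 := mvw_g_nonneg h'
  rcases le_total y x with k | k
  · have : x * (mvw_g x - mvw_g y) ≤ x * 0 := by nlinarith
    have := le_of_mul_le_mul_left this h
    linarith
  have h5 : y - x ≤ 9 / 4 * x := by
    refine (abs_le_of_sq_le_sq' ?_ (by positivity)).2
    nlinarith
  rcases le_total y (1 / 8) with m | m
  · have h6 : Real.log y ≤ Real.log (1 / 8) := Real.log_le_log h' m
    have h7 : Real.log (1 / 8) = -3 * Real.log 2 := by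
      rw [show (1 / 8 : ℝ) = 2 ^ (-3 : ℤ) by norm_num, Real.log_zpow]
      norm_num
    have h8 := Real.log_two_gt_d9
    have h9 : 1 ≤ mvw_g y := by unfold mvw_g; linarith
    have : x * (mvw_g x - mvw_g y) ≤ x * (9 / 4) := by nlinarith
    have := le_of_mul_le_mul_left this h
    linarith
  · have h6 := mvw_g_low h' h2
    have h7 : 1 ≤ 26 * x := by linarith
    have h8 : 0 ≤ (y - x) * (1 - y) := mul_nonneg (by linarith) (by linarith)
    have h9 : (y - x) * (1 - y) ≤ x * (26 * ((y - x) * (1 - y))) := by nlinarith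
    have h10 : x * (mvw_g x - mvw_g y) ≤ x * (26 * ((y - x) * (1 - y)) + 5 * e) := by nlinarith
    have h11 := le_of_mul_le_mul_left h10 h
    have h12 : (y - x) ^ 2 ≤ 5 * e := by nlinarith
    nlinarith [sq_nonneg ((1 - y) - 52 / 3 * (y - x))]

noncomputable def mvw_s (z : Pt) : ℝ := (z.1 : ℝ) ^ 2 + (z.2 : ℝ) ^ 2 + 1

theorem mvw_s_one (z : Pt) : 1 ≤ mvw_s z := by
  unfold mvw_s; nlinarith [sq_nonneg (z.1 : ℝ), sq_nonneg (z.2 : ℝ)]

theorem mvw_s_step (z : Pt) (d : Dir) : (mvw_s (z + d.vec) - mvw_s z) ^ 2 ≤ 5 * mvw_s z := by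
  cases d <;> simp only [mvw_s, Dir.vec, Prod.fst_add, Prod.snd_add] <;> push_cast <;>
    nlinarith [sq_nonneg ((z.1 : ℝ) - 2), sq_nonneg ((z.2 : ℝ) - 2), sq_nonneg ((z.1 : ℝ) + 2),
      sq_nonneg ((z.2 : ℝ) + 2), sq_nonneg (z.1 : ℝ), sq_nonneg (z.2 : ℝ)]

noncomputable def mvw_f (R : ℝ) (z : Pt) : ℝ := if mvw_s z ≤ R then mvw_g (mvw_s z / R) else 0

section
variable {R : ℝ} (hR : 0 < R)
include hR

theorem mvw_pos (z : Pt) : 0 < mvw_s z / R := div_pos (one_pos.trans_le (mvw_s_one z)) hR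

theorem mvw_f_nonneg (z : Pt) : 0 ≤ mvw_f R z := by
  unfold mvw_f; split_ifs
  exacts [mvw_g_nonneg (mvw_pos hR z), le_rfl]

theorem mvw_d (z : Pt) (d : Dir) :
    (mvw_s (z + d.vec) / R - mvw_s z / R) ^ 2 ≤ 5 * (mvw_s z / R) * (1 / R) := by
  rw [← sub_div, div_pow, show 5 * (mvw_s z / R) * (1 / R) = 5 * mvw_s z / R ^ 2 by field_simp]
  exact div_le_div_of_nonneg_right (mvw_s_step z d) (by positivity)

theorem mvw_f_edge (z : Pt) (d : Dir) (h : ¬ mvw_s (z + d.vec) ≤ R) : mvw_f R z ≤ 5 * (1 / R) := by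
  unfold mvw_f; split_ifs with k
  · exact mvw_edge (mvw_pos hR z) ((div_le_one hR).2 k) ((one_le_div hR).2 (not_le.1 h).le)
      (mvw_d hR z d)
  · positivity

theorem mvw_f_step (z : Pt) (d : Dir) : mvw_f R z ≤ 4 * mvw_f R (z + d.vec) + 1200 * (1 / R) := by
  have h0 := mvw_f_nonneg hR (z + d.vec)
  have h1 : 0 < 1 / R := by positivity
  by_cases h : mvw_s (z + d.vec) ≤ R
  · by_cases k : mvw_s z ≤ R
    · rw [mvw_f, mvw_f, if_pos h, if_pos k]
      exact mvw_step (mvw_pos hR z) ((div_le_one hR).2 k) (mvw_pos hR _) ((div_le_one hR).2 h) h1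
        (div_le_div_of_nonneg_right (mvw_s_one z) hR.le) (mvw_d hR z d)
    · rw [mvw_f, if_neg k]; linarith
  · linarith [mvw_f_edge hR z d h]

theorem mvw_g_eq (z : Pt) :
    mvw_g (mvw_s z / R) = Real.log R - Real.log (mvw_s z) - 1 + mvw_s z * (1 / R) := by
  rw [mvw_g, Real.log_div (one_pos.trans_le (mvw_s_one z)).ne' hR.ne']; ring

theorem mvw_f_avg (z : Pt) : ∑ d : Dir, mvw_f R (z + d.vec) / 4 ≤ mvw_f R z + 5 * (1 / R) := by
  have h1 : 0 < 1 / R := by positivity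
  by_cases k : mvw_s z ≤ R
  · have h2 : ∀ y, mvw_f R y ≤ Real.log R - Real.log (mvw_s y) - 1 + mvw_s y * (1 / R) := by
      intro y
      rw [← mvw_g_eq hR, mvw_f]; split_ifs
      exacts [le_rfl, mvw_g_nonneg (mvw_pos hR y)]
    have h3 : Real.log (mvw_s z) ≤ (∑ d : Dir, Real.log (mvw_s (z + d.vec))) / 4 := t_log.1 z
    have h4 : ∑ d : Dir, mvw_s (z + d.vec) = 4 * mvw_s z + 4 := by
      simp only [sum_dir, mvw_s, Dir.vec, Prod.fst_add, Prod.snd_add]; push_cast; ring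
    have h5 : (∑ d : Dir, mvw_s (z + d.vec)) * (1 / R) = 4 * (mvw_s z * (1 / R)) + 4 * (1 / R) := by
      rw [h4]; ring
    rw [mvw_f.eq_1 R z, if_pos k, mvw_g_eq hR]
    simp only [sum_dir, add_mul] at h3 h5 ⊢
    linarith [h2 (z + Dir.N.vec), h2 (z + Dir.E.vec), h2 (z + Dir.S.vec), h2 (z + Dir.W.vec)]
  · have h2 : ∀ d : Dir, mvw_f R (z + d.vec) ≤ 5 * (1 / R) := fun d =>
      mvw_f_edge hR _ d.opp (by simpa using k)
    rw [mvw_f.eq_1 R z, if_neg k, sum_dir]
    linarith [h2 .N, h2 .E, h2 .S, h2 .W]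

end

theorem mvw_swap (N : Net) (u φ : Pt → ℝ) (p : Pt) (r : ℤ) (hu : ∀ z, 0 ≤ u z) (hφ : ∀ z, 0 ≤ φ z)
    (hs : ∀ z, ¬ nrm (z - p) < r → φ z = 0) :
    ∑ z ∈ ball p r, φ z * N.Pr u z ≤ ∑ z ∈ ball p r, u z * N.Pr φ z := by
  have e : ∀ (a b : Pt → ℝ), ∑ z ∈ ball p r, a z * N.Pr b z =
      ∑ d : Dir, (∑ z ∈ ball p r, if N.mv z d then a z * b (z + d.vec) else 0) / 4 +
        ∑ z ∈ ball p r, ∑ d : Dir, if N.mv z d then 0 else a z * b z / 16 := by
    intro a b
    simp only [sum_div]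
    rw [sum_comm, ← sum_add_distrib]
    refine sum_congr rfl fun z _ => ?_
    rw [Net.Pr, mul_sum, ← sum_add_distrib]
    exact sum_congr rfl fun d _ => by split_ifs <;> ring
  have h : ∀ d : Dir, (∑ z ∈ ball p r, if N.mv z d then φ z * u (z + d.vec) else 0) ≤
      ∑ z ∈ ball p r, if N.mv z d.opp then u z * φ (z + d.opp.vec) else 0 := by
    intro d
    calc _ = ∑ z ∈ (ball p r).filter (fun z => nrm (z - p) < r),
          if N.mv z d then φ z * u (z + d.vec) else 0 :=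
          (sum_filter_of_ne fun z _ k => by
            by_contra m
            exact k (by simp [hs z m])).symm
      _ ≤ ∑ z ∈ (ball p r).filter (fun z => nrm (z - p) < r),
          (fun y => if N.mv y d.opp then u y * φ (y + d.opp.vec) else 0) (z + d.vec) :=
          sum_le_sum fun z _ => by
            by_cases k : N.mv z d
            · simp [k, N.symm _ _ k, mul_comm]
            · rw [if_neg k]
              dsimp only
              split_ifs
              exacts [mul_nonneg (hu _) (hφ _), le_rfl]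
      _ = ∑ y ∈ ((ball p r).filter (fun z => nrm (z - p) < r)).image (· + d.vec),
          if N.mv y d.opp then u y * φ (y + d.opp.vec) else 0 :=
          (sum_image (f := fun y => if N.mv y d.opp then u y * φ (y + d.opp.vec) else 0)
            (g := (· + d.vec)) fun a _ b _ k => add_right_cancel k).symm
      _ ≤ _ := sum_le_sum_of_subset_of_nonneg (fun y hy => by
            obtain ⟨z, hz, rfl⟩ := mem_image.1 hy
            have := (nrm_step z p d).1
            have := (mem_filter.1 hz).2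
            rw [mem_ball]; omega) fun y _ _ => by
          split_ifs
          exacts [mul_nonneg (hu _) (hφ _), le_rfl]
  rw [e, e]
  refine add_le_add ?_ (le_of_eq (sum_congr rfl fun z _ => sum_congr rfl fun d _ => by
    rw [mul_comm]))
  have h1 := h .N
  have h2 := h .E
  have h3 := h .S
  have h4 := h .W
  simp only [Dir.opp] at h1 h2 h3 h4
  simp only [sum_dir]
  linarith

theorem p_MV :
    S_MV := by
  refine ⟨1000, by norm_num, fun N u p r hr hu hsub => ?_⟩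
  have hp : p ∈ ball p r := by rw [mem_ball]; simp [nrm]
  have hS : 0 ≤ ∑ y ∈ ball p r, u y := sum_nonneg fun y _ => hu y
  have hr' : (1 : ℝ) ≤ r := by exact_mod_cast hr
  have hR : (0 : ℝ) < (r : ℝ) ^ 2 := by positivity
  by_cases h4 : r < 4
  · have h1 : u p ≤ ∑ y ∈ ball p r, u y := single_le_sum (fun y _ => hu y) hp
    have h2 : (r : ℝ) ≤ 4 := by exact_mod_cast h4.le
    have h3 : 1 ≤ 1000 / (r : ℝ) ^ 2 := by rw [one_le_div hR]; nlinarith
    nlinarith
  have h16 : (16 : ℝ) ≤ (r : ℝ) ^ 2 := by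
    have : (4 : ℝ) ≤ r := by exact_mod_cast not_lt.1 h4
    nlinarith
  set R : ℝ := (r : ℝ) ^ 2 with hRe
  have e : ∀ (z : Pt) (d : Dir), z + d.vec - p = z - p + d.vec := fun z d => by abel
  have hs : ∀ z, ¬ nrm (z - p) < r → mvw_f R (z - p) = 0 := fun z k => by
    refine if_neg fun m => ?_
    have h1 := (hit_sq_le (z - p)).1
    have h2 : (r : ℤ) ^ 2 ≤ nrm (z - p) ^ 2 := pow_le_pow_left₀ (by positivity) (not_lt.1 k) 2
    have h3 : (((r : ℤ) ^ 2 : ℤ) : ℝ) ≤ (((z - p).1 ^ 2 + (z - p).2 ^ 2 : ℤ) : ℝ) :=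
      Int.cast_le.2 (h2.trans h1)
    rw [Int.cast_add, Int.cast_pow, Int.cast_pow, Int.cast_pow, Int.cast_natCast] at h3
    unfold mvw_s at m
    linarith
  have h1 := mvw_swap N u (fun z => mvw_f R (z - p)) p r hu (fun z => mvw_f_nonneg hR _) hs
  have h2 : ∑ z ∈ ball p r, mvw_f R (z - p) * u z ≤
      ∑ z ∈ ball p r, mvw_f R (z - p) * N.Pr u z := sum_le_sum fun z _ => by
    by_cases k : nrm (z - p) < r
    · exact mul_le_mul_of_nonneg_left (hsub z k) (mvw_f_nonneg hR _)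
    · rw [hs z k, zero_mul, zero_mul]
  have hi : 0 < 1 / R := by positivity
  have h3 : ∀ z, N.Pr (fun z => mvw_f R (z - p)) z ≤ mvw_f R (z - p) + 305 * (1 / R) := by
    intro z
    have k1 : N.Pr (fun z => mvw_f R (z - p)) z ≤
        ∑ d : Dir, (mvw_f R (z - p + d.vec) / 4 + 75 * (1 / R)) := sum_le_sum fun d _ => by
      dsimp only
      split_ifs
      · rw [e]; linarith
      · linarith [mvw_f_step hR (z - p) d]
    have k2 := mvw_f_avg hR (z - p)
    simp only [sum_dir] at k1 k2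
    linarith
  have h5 : N.Pr (fun z => mvw_f R (z - p)) p ≤ mvw_f R (p - p) - 1 / 2 := by
    have s0 : mvw_s 0 = 1 := by simp [mvw_s]
    have s1 : ∀ d : Dir, mvw_s d.vec = 2 := fun d => by
      cases d <;> simp [mvw_s, Dir.vec] <;> norm_num
    have l2 := Real.log_two_gt_d9
    have l16 : 4 * Real.log 2 ≤ Real.log R := by
      have := Real.log_le_log (by norm_num) h16
      rwa [show (16 : ℝ) = 2 ^ 4 by norm_num, Real.log_pow] at this
    have i16 : 1 / R ≤ 1 / 16 := one_div_le_one_div_of_le (by norm_num) h16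
    have f0 : mvw_f R 0 = Real.log R - 1 + 1 / R := by
      rw [mvw_f, if_pos (by rw [s0]; linarith), mvw_g_eq hR, s0]; simp
    have f1 : ∀ d : Dir, mvw_f R d.vec = Real.log R - Real.log 2 - 1 + 2 * (1 / R) := fun d => by
      rw [mvw_f, if_pos (by rw [s1]; linarith), mvw_g_eq hR, s1]
    have k1 : N.Pr (fun z => mvw_f R (z - p)) p ≤
        ∑ _d : Dir, (mvw_f R 0 - 1 / 2) / 4 := sum_le_sum fun d _ => by
      dsimp only
      split_ifs
      · rw [add_sub_cancel_left, f1, f0]; linarith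
      · rw [sub_self, f0]; linarith
    rw [sum_dir] at k1
    rw [sub_self]
    linarith
  have h6 : ∑ z ∈ ball p r, u z * N.Pr (fun z => mvw_f R (z - p)) z ≤
      ∑ z ∈ ball p r, (mvw_f R (z - p) * u z + 305 * (1 / R) * u z -
        if z = p then u p / 2 else 0) := sum_le_sum fun z _ => by
    split_ifs with k
    · subst k
      nlinarith [mul_le_mul_of_nonneg_left h5 (hu z), mul_nonneg hi.le (hu z)]
    · nlinarith [mul_le_mul_of_nonneg_left (h3 z) (hu z)]
  rw [sum_sub_distrib, sum_add_distrib, ← mul_sum, sum_ite_eq', if_pos hp] at h6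
  have h7 : 1000 / R * ∑ y ∈ ball p r, u y = 1000 * (1 / R * ∑ y ∈ ball p r, u y) := by ring
  have h8 := mul_nonneg hi.le hS
  rw [h7]
  linarith

end Pool.Agent.P.MP_347bd1_pr.M

namespace Pool.Agent.P.MP_347bd1_pr.M

open Classical Finset Filter Topology
open scoped ENNReal NNReal

variable {n : ℕ} {E D : Finset Edge} {A : Set Pt} {X : Pt → Finset Edge → ℝ}

noncomputable def kcw_Q (n : ℕ) (X : Pt → Finset Edge → ℝ) (v w : Pt) : ℝ := X v (ray n w) ^ 2

noncomputable def kcw_H (n : ℕ) (X : Pt → Finset Edge → ℝ) (w : Pt) : ℝ :=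
  ∑ j ∈ Ico w.2 (n : ℤ), (kcw_Q n X (w.1, j) (w.1, j + 1) - kcw_Q n X (w.1, j) (w.1, j))

noncomputable def kcw_P (n : ℕ) (X : Pt → Finset Edge → ℝ) (v : Pt) : ℝ :=
  if v ∈ intr n then kcw_H n X v + kcw_Q n X v v else X v ∅ ^ 2

structure kcw_Hyp (n : ℕ) (E D : Finset Edge) (A : Set Pt) (X : Pt → Finset Edge → ℝ) : Prop where
  f : Ferm n E D A X
  sub : E ⊆ ebox n
  top : NoTop n E
  iv : ∀ v w d, inc w d ∈ ebox n →
    X v (ray n (w + d.vec)) ^ 2 = X v (symmDiff (ray n w) {inc w d}) ^ 2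

theorem kcw_top (i : ℤ) : kcw_H n X (i, n) = 0 := by simp [kcw_H]

theorem kcw_rec (i : ℤ) {j : ℤ} (hj : j < n) :
    kcw_H n X (i, j) + kcw_Q n X (i, j) (i, j) = kcw_H n X (i, j + 1) + kcw_Q n X (i, j) (i, j + 1) := by
  simp only [kcw_H]
  rw [← Finset.insert_Ico_add_one_left_eq_Ico hj, sum_insert (by simp)]
  ring

section
variable (h : kcw_Hyp n E D A X)
include h

theorem kcw_off {w : Pt} {d : Dir} (h1 : inc w d ∈ ebox n) (h2 : inc w d ∉ E) (v : Pt) :
    kcw_Q n X v (w + d.vec) = kcw_Q n X v w := by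
  rw [kcw_Q, h.iv v w d h1, h.f.blk _ _ _ h2, kcw_Q]

theorem kcw_on {v w : Pt} {d d' : Dir} (e : cr v d = inc w d') (h2 : inc w d' ∈ E)
    (h3 : inc w d' ∉ D) :
    kcw_Q n X v w - kcw_Q n X v (w + d'.vec) =
      -(X v (ray n w) ^ 2 + X (v + d.vec) (ray n w) ^ 2 - 2 * Real.sqrt 2 *
        ((if inc w d' ∈ ray n w then -1 else 1) *
          (X v (ray n w) * X (v + d.vec) (ray n w)))) := by
  rw [kcw_Q, kcw_Q, h.iv v w d' (h.sub h2), ← e, h.f.act v _ d (e ▸ h2) (e ▸ h3)]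
  split_ifs <;> linear_combination (-X v (ray n w) ^ 2) * kc_sq2

theorem kcw_del {v : Pt} {d : Dir} (h2 : cr v d ∈ E) (h3 : cr v d ∈ D) (w : Pt) :
    kcw_Q n X (v + d.vec) w = kcw_Q n X v w := by
  rw [kcw_Q, kcw_Q, h.f.del v _ d h2 h3]
  split_ifs <;> ring

theorem kcw_edge {v w : Pt} {d d' : Dir} (e : cr v d = inc w d') (h1 : inc w d' ∈ ebox n) :
    kcw_Q n X v w - kcw_Q n X v (w + d'.vec) =
      kcw_Q n X (v + d.vec) w - kcw_Q n X (v + d.vec) (w + d'.vec) := by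
  by_cases h2 : inc w d' ∈ E
  · by_cases h3 : inc w d' ∈ D
    · rw [kcw_del h (e ▸ h2) (e ▸ h3), kcw_del h (e ▸ h2) (e ▸ h3)]
    · have k : v + d.vec + d.opp.vec = v := by cases d <;> simp [Dir.vec, Dir.opp, Prod.ext_iff]
      rw [kcw_on h e h2 h3, kcw_on h ((cr_opp v d).trans e) h2 h3, k]
      ring
  · rw [kcw_off h h1 h2, kcw_off h h1 h2]; ring

theorem kcw_left {i j : ℤ} (h1 : 0 ≤ i) (h2 : i + 1 ≤ n) (h3 : 1 ≤ j) (h4 : j + 1 ≤ n) :
    kcw_H n X (i + 1, j) + kcw_Q n X (i, j) (i + 1, j) =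
      kcw_H n X (i + 1, j + 1) + kcw_Q n X (i, j) (i + 1, j + 1) := by
  have a := kcw_edge h (v := (i, j)) (w := (i + 1, j)) (d := .E) (d' := .N) rfl
    (by simp [inc_mem_ebox, mem_box, Dir.vec]; omega)
  have b := kcw_rec (n := n) (X := X) (i + 1) (j := j) (by omega)
  simp only [Dir.vec, Prod.mk_add_mk, add_zero] at a
  linarith

theorem kcw_below {i j : ℤ} (h1 : 1 ≤ i) (h2 : i + 1 ≤ n) (h3 : 0 ≤ j) (h4 : j + 1 ≤ n)
    (k : kcw_H n X (i, j + 1) + kcw_Q n X (i, j + 1) (i, j + 1) =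
      kcw_H n X (i + 1, j + 1) + kcw_Q n X (i, j + 1) (i + 1, j + 1)) :
    kcw_H n X (i, j + 1) + kcw_Q n X (i, j) (i, j + 1) =
      kcw_H n X (i + 1, j + 1) + kcw_Q n X (i, j) (i + 1, j + 1) := by
  have a := kcw_edge h (v := (i, j)) (w := (i, j + 1)) (d := .N) (d' := .E) rfl
    (by simp [inc_mem_ebox, mem_box, Dir.vec]; omega)
  simp only [Dir.vec, Prod.mk_add_mk, add_zero] at a
  linarith

theorem kcw_above {i j : ℤ} (h1 : 1 ≤ i) (h2 : i + 1 ≤ n) (h3 : 1 ≤ j) (h4 : j ≤ n) :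
    kcw_H n X (i, j) + kcw_Q n X (i, j) (i, j) = kcw_H n X (i + 1, j) + kcw_Q n X (i, j) (i + 1, j) := by
  induction j, h4 using Int.leInductionDown with
  | base =>
    have a := kcw_off h (w := (i, n)) (d := .E) (by simp [inc_mem_ebox, mem_box, Dir.vec]; omega)
      (fun k => h.top _ k (by simp [inc, ea, eb])) (i, n)
    simp only [Dir.vec, Prod.mk_add_mk, add_zero] at a
    rw [kcw_top, kcw_top, a]
  | pred j hj ih =>
    obtain ⟨j, rfl⟩ : ∃ k, j = k + 1 := ⟨j - 1, by ring⟩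
    simp only [add_sub_cancel_right] at h3 ⊢
    have a := kcw_below h h1 h2 (by omega) hj (ih (by omega))
    have b := kcw_rec (n := n) (X := X) i (j := j) (by omega)
    have c := kcw_left h (by omega) h2 h3 hj
    linarith

theorem kcw_side {v : Pt} {d : Dir} (k : cr v d ∈ ebox n) :
    kcw_H n X (ea (cr v d)) + kcw_Q n X v (ea (cr v d)) =
      kcw_H n X (eb (cr v d)) + kcw_Q n X v (eb (cr v d)) := by
  obtain ⟨i, j⟩ := v
  rw [mem_ebox, mem_box, mem_box] at k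
  cases d <;> simp only [cr, ea, eb, Prod.mk_add_mk, add_zero, if_true, Bool.false_eq_true,
    if_false] at k ⊢
  · exact kcw_below h (by omega) (by omega) (by omega) (by omega)
      (kcw_above h (by omega) (by omega) (by omega) (by omega))
  · exact kcw_left h (by omega) (by omega) (by omega) (by omega)
  · exact kcw_above h (by omega) (by omega) (by omega) (by omega)
  · exact kcw_rec i (by omega)

theorem kcw_claim {v w : Pt} {d d' : Dir} (e : cr v d = inc w d') (h1 : inc w d' ∈ ebox n) :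
    kcw_H n X w + kcw_Q n X v w = kcw_H n X (w + d'.vec) + kcw_Q n X v (w + d'.vec) := by
  have a := kcw_side h (e ▸ h1)
  rw [e] at a
  rcases ends_inc w d' with ⟨b, c⟩ | ⟨b, c⟩ <;> rw [b, c] at a
  · exact a
  · exact a.symm

theorem kcw_ring {w : Pt} (hw : w ∈ box n) (hr : OnRing n w) :
    kcw_H n X w + kcw_Q n X (0, 0) w = X (0, 0) ∅ ^ 2 := by
  have o : ((0, 0) : Pt) ∉ intr n := by simp [mem_intr]
  have q : ∀ {v : Pt}, v ∉ intr n → ∀ w, kcw_Q n X v w = kcw_Q n X (0, 0) w := fun hv w => by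
    rw [kcw_Q, kcw_Q, h.f.out _ _ _ hv o]
  have top : ∀ i : ℤ, kcw_H n X (i, n) + kcw_Q n X (0, 0) (i, n) = X (0, 0) ∅ ^ 2 := fun i => by
    rw [kcw_top, kcw_Q, show ray n (i, n) = ∅ by simp [ray], zero_add]
  have col : ∀ i : ℤ, 1 ≤ i → i ≤ n → i = 1 ∨ i = n → ∀ j : ℤ, j ≤ n → 1 ≤ j →
      kcw_H n X (i, j) + kcw_Q n X (0, 0) (i, j) = X (0, 0) ∅ ^ 2 := by
    intro i a1 a2 a3 j hj
    induction j, hj using Int.leInductionDown with
    | base => exact fun _ => top i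
    | pred j hj ih =>
      obtain ⟨j, rfl⟩ : ∃ k, j = k + 1 := ⟨j - 1, by ring⟩
      simp only [add_sub_cancel_right]
      intro h3
      rw [← ih (by omega)]
      rcases a3 with rfl | rfl
      · have := kcw_left h (i := 0) le_rfl (by omega) h3 hj
        simpa only [q (v := (0, j)) (by simp [mem_intr]), zero_add] using this
      · have := kcw_rec (n := n) (X := X) n (j := j) (by omega)
        simpa only [q (v := (n, j)) (by simp [mem_intr])] using this
  have row : ∀ i : ℤ, 1 ≤ i → i ≤ n → kcw_H n X (i, 1) + kcw_Q n X (0, 0) (i, 1) = X (0, 0) ∅ ^ 2 := by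
    intro i hi
    induction i, hi using Int.leInduction with
    | base => exact fun k => col 1 le_rfl k (.inl rfl) 1 k le_rfl
    | succ i hi ih =>
      intro k
      have := kcw_below h (j := 0) hi k le_rfl (by omega)
        (kcw_above h hi k (by omega) (by omega))
      simp only [q (v := (i, 0)) (by simp [mem_intr]), zero_add] at this
      rw [← this, ih (by omega)]
  obtain ⟨i, j⟩ := w
  obtain ⟨a1, a2, a3, a4⟩ := mem_box.1 hw
  rcases hr with r | r | r | r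
  · exact col i a1 a2 (.inl r) j a4 a3
  · exact col i a1 a2 (.inr r) j a4 a3
  · obtain rfl : j = 1 := r
    exact row i a1 a2
  · obtain rfl : j = n := r
    exact top i

theorem kcw_corner {w v : Pt} (hw : w ∈ box n) (hc : Corner v w) :
    kcw_P n X v = kcw_H n X w + kcw_Q n X v w := by
  unfold kcw_P
  split_ifs with hv
  · have a := kcw_side h (cr_mem_ebox hv .S)
    have b := kcw_side h (cr_mem_ebox hv .W)
    have c := kcw_side h (cr_mem_ebox hv .E)
    obtain ⟨i, j⟩ := v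
    obtain ⟨x, y⟩ := w
    simp only [cr, ea, eb, Prod.mk_add_mk, add_zero, if_true, Bool.false_eq_true,
      if_false] at a b c
    simp only [Corner] at hc
    obtain ⟨rfl | rfl, rfl | rfl⟩ := hc <;> linarith
  · have o : ((0, 0) : Pt) ∉ intr n := by simp [mem_intr]
    rw [kcw_Q, h.f.out v (0, 0) _ hv o, h.f.out v (0, 0) _ hv o, ← kcw_Q, kcw_ring h hw]
    rw [mem_intr] at hv
    rw [mem_box] at hw
    unfold Corner at hc
    unfold OnRing
    omega

theorem kcw_zero {w : Pt} (hw : TopConn n E w) : kcw_H n X w = 0 := by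
  obtain ⟨u, -, h2, h3⟩ := hw
  induction h3 with
  | refl => rw [show u = (u.1, (n : ℤ)) from Prod.ext rfl h2, kcw_top]
  | tail _ k ih =>
    obtain ⟨d, k, rfl⟩ := k
    obtain ⟨k1, k2⟩ := mem_sdiff.1 k
    obtain ⟨d0, e⟩ := exists_cr (inc _ d)
    have := kcw_claim h e k1
    rw [kcw_off h k1 k2, ih] at this
    linarith

theorem kcw_same {w : Pt} {d : Dir} (h1 : inc w d ∈ ebox n) (h2 : inc w d ∉ E) :
    kcw_H n X (w + d.vec) = kcw_H n X w := by
  obtain ⟨d0, e⟩ := exists_cr (inc w d)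
  have := kcw_claim h e h1
  rw [kcw_off h h1 h2] at this
  linarith

theorem kcw_v {w : Pt} (hw : TopConn n E w) (v : Pt) : X v (ray n w) ^ 2 = X v ∅ ^ 2 := by
  obtain ⟨u, -, hu, hp⟩ := hw
  induction hp with
  | refl => rw [show ray n u = ∅ by simp [ray, hu]]
  | tail _ k ih =>
    obtain ⟨d, k1, rfl⟩ := k
    rw [h.iv v _ d (mem_sdiff.1 k1).1, h.f.blk v _ _ (mem_sdiff.1 k1).2, ih]

omit h in
theorem kcw_c2 (v : Pt) (d : Dir) : Corner (v + d.vec) (ea (cr v d)) := by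
  have := (corner_cr (v + d.vec) d.opp).1
  rwa [cr_opp] at this

theorem kcw_dp {v : Pt} {d : Dir} (h2 : cr v d ∈ E) (h3 : cr v d ∈ D) :
    kcw_P n X (v + d.vec) = kcw_P n X v := by
  have b := (mem_ebox.1 (h.sub h2)).1
  rw [kcw_corner h b (corner_cr v d).1, kcw_corner h b (kcw_c2 v d), kcw_del h h2 h3]

theorem kcw_sub1 {v w : Pt} (hv : v ∈ intr n) {d : Dir} (hw : w = ea (cr v d))
    (hd : cr v d ∈ E → cr v d ∉ D) (ht : cr v d ∉ E → TopConn n E (ea (cr v d)))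
    {Γ : Finset Edge} (hΓ : ∀ u, X u Γ ^ 2 = kcw_Q n X u w) :
    (if cr v d ∈ E then kcw_P n X (v + d.vec) else xc ^ 2 * kcw_P n X v) = kcw_P n X v +
      (X v Γ ^ 2 + X v (symmDiff Γ {cr v d}) ^ 2 -
        2 * Real.sqrt 2 * (X v Γ * X v (symmDiff Γ {cr v d}))) := by
  subst hw
  have c1 := (corner_cr v d).1
  have b := c1.mem_box hv
  rw [kcw_corner h b c1, kcw_corner h b (kcw_c2 v d), ← hΓ, ← hΓ]
  split_ifs with k
  · rw [h.f.act v Γ d k (hd k)]
    split_ifs <;> linear_combination (X v Γ ^ 2) * kc_sq2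
  · rw [h.f.blk v Γ _ k, kcw_zero h (ht k), xc_sq, xc]
    ring

theorem kcw_sub {v : Pt} (hv : v ∈ intr n) (hA : v ∉ A) (hd : ∀ d, cr v d ∈ E → cr v d ∉ D)
    (ht : ∀ d, cr v d ∉ E → TopConn n E (ea (cr v d))) :
    4 * kcw_P n X v ≤ ∑ d, if cr v d ∈ E then kcw_P n X (v + d.vec) else xc ^ 2 * kcw_P n X v := by
  have a1 := kcw_sub1 h hv (d := .S) (w := v) rfl (hd _) (ht _) (Γ := ray n v) fun _ => rfl
  have a2 := kcw_sub1 h hv (d := .W) (w := v) rfl (hd _) (ht _) (Γ := ray n v) fun _ => rfl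
  have a3 := kcw_sub1 h hv (d := .N) (w := (v.1, v.2 + 1)) rfl (hd _) (ht _)
    (Γ := ray n (v.1, v.2 + 1)) fun _ => rfl
  have a4 := kcw_sub1 h hv (d := .E) (w := v + Dir.E.vec)
    (by simp [ea, cr, Dir.vec, Prod.ext_iff]) (hd _) (ht _) (Γ := symmDiff (ray n v) {cr v .S})
    fun u => (h.iv u v .E (cr_mem_ebox hv .S)).symm
  have m := mem_intr.1 hv
  have e1 : ray n (v.1, v.2 + 1) = symmDiff (ray n v) {cr v .W} := by
    ext ⟨⟨a, b⟩, c⟩
    cases c <;> simp [mem_symmDiff, kc_mem_ray, cr, Prod.ext_iff]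
    omega
  have e2 : symmDiff (symmDiff (ray n v) {cr v .W}) {cr v .N} =
      symmDiff (symmDiff (symmDiff (ray n v) {cr v .S}) {cr v .E}) (univ.image (cr v)) := by
    ext ⟨⟨a, b⟩, c⟩
    cases c <;> simp [mem_symmDiff, kc_mem_ray, cr, Prod.ext_iff, Dir.exists_iff] <;> omega
  have e3 : v ∈ symmDiff ({v} : Set Pt) A := Set.mem_symmDiff.2 (.inl ⟨rfl, hA⟩)
  rw [e1, e2, h.f.face v _ v hv, if_pos e3] at a3
  rw [sum_dir, a1, a2, a3, a4]
  have := kc_form (X v (ray n v)) (X v (symmDiff (ray n v) {cr v .S}))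
    (X v (symmDiff (symmDiff (ray n v) {cr v .S}) {cr v .E}))
    (-X v (symmDiff (ray n v) {cr v .W}))
  linarith

theorem kcw_site {v w : Pt} {d d' : Dir} {κ : ℝ} (e : cr v d = inc w d') (h2 : inc w d' ∈ E)
    (hκ : inc w d' ∈ D → kcw_P n X v = κ) :
    (if inc w d' ∈ D then xc ^ 2 * (κ - kcw_H n X w) else κ - kcw_H n X (w + d'.vec)) =
      κ - kcw_H n X w + (X v (ray n w) ^ 2 + X (v + d.vec) (ray n w) ^ 2 - 2 * Real.sqrt 2 *
        ((if inc w d' ∈ ray n w then -1 else 1) *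
          (X v (ray n w) * X (v + d.vec) (ray n w)))) := by
  by_cases h3 : inc w d' ∈ D
  · have c : Corner v w := by
      have := corner_cr v d
      rw [e] at this
      rcases ends_inc w d' with ⟨b, -⟩ | ⟨-, b⟩
      exacts [b ▸ this.1, b ▸ this.2]
    have a := kcw_corner h (inc_mem_ebox.1 (h.sub h2)).1 c
    rw [hκ h3, kcw_Q] at a
    rw [if_pos h3, h.f.del v _ d (e ▸ h2) (e ▸ h3), e, a, xc_sq, xc]
    split_ifs <;> ring
  · rw [if_neg h3]
    linarith [kcw_claim h e (h.sub h2), kcw_on h e h2 h3]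

theorem kcw_super {w : Pt} {κ : ℝ} (hw : ∀ d, inc w d ∈ E)
    (hκ : ∀ v d d', cr v d = inc w d' → inc w d' ∈ D → kcw_P n X v = κ) :
    4 * (κ - kcw_H n X w) ≤ ∑ d, if inc w d ∈ D then xc ^ 2 * (κ - kcw_H n X w)
      else κ - kcw_H n X (w + d.vec) := by
  obtain ⟨i, j⟩ := w
  have m := mem_box.1 (inc_mem_ebox.1 (h.sub (hw .N))).2
  have e1 : cr (i, j) .W = inc (i, j) .N := rfl
  have e2 : cr (i, j) .S = inc (i, j) .E := rfl
  have e3 : cr (i, j - 1) .W = inc (i, j) .S := rfl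
  have e4 : cr (i - 1, j) .S = inc (i, j) .W := rfl
  rw [sum_dir, kcw_site h e1 (hw _) (hκ _ _ _ e1), kcw_site h e2 (hw _) (hκ _ _ _ e2),
    kcw_site h e3 (hw _) (hκ _ _ _ e3), kcw_site h e4 (hw _) (hκ _ _ _ e4),
    if_pos, if_neg, if_neg, if_neg]
  · simp only [Dir.vec, Prod.mk_add_mk, add_zero, ← sub_eq_add_neg]
    have := kc_form (X (i, j) (ray n (i, j))) (X (i, j - 1) (ray n (i, j)))
      (X (i - 1, j - 1) (ray n (i, j))) (X (i - 1, j) (ray n (i, j)))
    linarith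
  all_goals simp [kc_mem_ray, inc, Dir.vec] at m ⊢
  omega

end

theorem p_KC (hSTEP : S_STEP) :
    S_KC := by
  intro n E D A X f sub top
  have h : kcw_Hyp n E D A X := ⟨f, sub, top, fun v w d k => by
    obtain ⟨ε, h1, h2, -⟩ := hSTEP n E D A X f top w d v k
    have := h2 (symmDiff (ray n w) {inc w d})
    rw [symmDiff_symmDiff_cancel_left] at this
    rw [this]
    rcases h1 with rfl | rfl <;> ring⟩
  exact ⟨kcw_P n X, kcw_H n X, fun _ hw _ hc => kcw_corner h hw hc, fun _ hv => if_neg hv,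
    fun _ _ => kcw_same h, fun _ hw => ⟨kcw_zero h hw, kcw_v h hw⟩, fun _ _ => kcw_dp h,
    fun _ hv => kcw_sub h hv, fun _ _ => kcw_super h⟩

end Pool.Agent.P.MP_347bd1_pr.M

namespace Pool.Agent.P.MP_347bd1_pr.M

open Classical Finset Filter Topology
open scoped ENNReal NNReal

theorem grnw_mono (N : Net) {u w : Pt → ℝ} (h : ∀ z, u z ≤ w z) (p : Pt) : N.Pr u p ≤ N.Pr w p :=
  sum_le_sum fun d _ => by
    split_ifs
    · linarith [h (p + d.vec)]
    · linarith [h p]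

theorem grnw_const (N : Net) {u : Pt → ℝ} {K : ℝ} (hK : 0 ≤ K) (h : ∀ z, u z ≤ K) (p : Pt) :
    N.Pr u p ≤ K := by
  have k : ∀ d : Dir, (if N.mv p d then u (p + d.vec) / 4 else u p / 16) ≤ K / 4 := fun d => by
    split_ifs
    · linarith [h (p + d.vec)]
    · linarith [h p]
  have := thin_sum_le k (k .N)
  rw [Net.Pr]
  linarith

/-- The quadratic barrier. -/
theorem grnw_bar (N : Net) (v z : Pt) (s : ℕ) (hz : nrm (z - v) < 10 * (s : ℤ)) :
    1 + N.Pr (fun y => 300 * (s : ℝ) ^ 2 - 2 * ((y.1 - v.1 : ℤ) : ℝ) ^ 2) z ≤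
      300 * (s : ℝ) ^ 2 - 2 * ((z.1 - v.1 : ℤ) : ℝ) ^ 2 := by
  have k : ∀ d : Dir, (if N.mv z d then
      (300 * (s : ℝ) ^ 2 - 2 * (((z + d.vec).1 - v.1 : ℤ) : ℝ) ^ 2) / 4
      else (300 * (s : ℝ) ^ 2 - 2 * ((z.1 - v.1 : ℤ) : ℝ) ^ 2) / 16) ≤
      (300 * (s : ℝ) ^ 2 - 2 * (((z + d.vec).1 - v.1 : ℤ) : ℝ) ^ 2) / 4 := fun d => by
    split_ifs
    · exact le_rfl
    · have h1 := nrm_le_iff.1 (show nrm (z + d.vec - v) ≤ 10 * (s : ℤ) by
        have := (nrm_step z v d).1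
        omega)
      have h2 : ((z + d.vec).1 - v.1) ^ 2 ≤ (10 * (s : ℤ)) ^ 2 := sq_le_sq' h1.1 h1.2.1
      have h3 : ((((z + d.vec).1 - v.1 : ℤ) : ℝ)) ^ 2 ≤ (10 * (s : ℝ)) ^ 2 := by exact_mod_cast h2
      nlinarith [sq_nonneg ((z.1 - v.1 : ℤ) : ℝ), sq_nonneg (s : ℝ)]
  have h := sum_le_sum fun d (_ : d ∈ (univ : Finset Dir)) => k d
  rw [Net.Pr]
  refine (add_le_add le_rfl h).trans (le_of_eq ?_)
  rw [sum_dir]
  simp only [Dir.vec, Prod.fst_add]
  push_cast
  ring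

/-- The truncated potentials. -/
noncomputable def grnw_u (N : Net) (V : Finset Pt) : ℕ → Pt → ℝ
  | 0 => fun _ => 0
  | m + 1 => fun z => (if z ∈ V then 1 else 0) + N.Pr (grnw_u N V m) z

theorem grnw_step (N : Net) (V : Finset Pt) (m : ℕ) :
    ∀ z, grnw_u N V m z ≤ grnw_u N V (m + 1) z := by
  induction m with
  | zero =>
    intro z
    have := Net.Pr_nonneg (N := N) (u := grnw_u N V 0) (fun _ => le_rfl) z
    simp only [grnw_u] at this ⊢
    split_ifs <;> linarith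
  | succ m ih => exact fun z => add_le_add le_rfl (grnw_mono N ih z)

theorem grnw_bd : ∃ C : ℝ, 0 < C ∧ ∀ (N : Net) (V : Finset Pt) (t : ℕ), Far N → 1 ≤ t →
    (∀ v ∈ V, NearK N t v) → ∀ m z, grnw_u N V m z ≤ C * (t : ℝ) ^ 2 := by
  obtain ⟨c, c0, c1, hc⟩ := f_beur
  refine ⟨2701 / c, by positivity, fun N V t hF ht hV m => ?_⟩
  have t1 : (1 : ℝ) ≤ t := by exact_mod_cast ht
  have hK : 0 ≤ 2701 / c * (t : ℝ) ^ 2 := by positivity
  have hcK : c * (2701 / c * (t : ℝ) ^ 2) = 2701 * (t : ℝ) ^ 2 := by field_simp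
  generalize 2701 / c * (t : ℝ) ^ 2 = K at hK hcK
  induction m with
  | zero => exact fun _ => hK
  | succ m ih =>
    have a1 : ∀ z, grnw_u N V (m + 1) z ≤ 1 + N.Pr (grnw_u N V m) z := fun z => by
      simp only [grnw_u]
      split_ifs <;> linarith
    intro v
    by_cases hv : v ∈ V
    · have := hc N (fun y => grnw_u N V (m + 1) y -
        (300 * ((t + 2 : ℕ) : ℝ) ^ 2 - 2 * ((y.1 - v.1 : ℤ) : ℝ) ^ 2)) v (t + 2) 1 (K + 1) hF
        (by omega) (by linarith) (by simpa using hV v hv) (fun z hz => by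
          rw [Net.Pr_sub]
          have b1 := grnw_bar N v z (t + 2) (by simpa using hz)
          have b2 := grnw_mono N (grnw_step N V m) z
          linarith [a1 z]) (fun z hz => by
          have h1 := nrm_le_iff.1 (show nrm (z - v) ≤ 10 * ((t + 2 : ℕ) : ℤ) by simpa using hz)
          have h2 : (z.1 - v.1) ^ 2 ≤ (10 * ((t + 2 : ℕ) : ℤ)) ^ 2 := sq_le_sq' h1.1 h1.2.1
          have h3 : (((z.1 - v.1 : ℤ) : ℝ)) ^ 2 ≤ (10 * ((t + 2 : ℕ) : ℝ)) ^ 2 := by
            exact_mod_cast h2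
          have h4 := grnw_const N hK ih z
          nlinarith [a1 z, sq_nonneg ((t + 2 : ℕ) : ℝ)]) v
        (by rw [sub_self, nrm_zero]; positivity)
      simp only [sub_self, pow_one] at this
      push_cast at this
      nlinarith
    · simp only [grnw_u, if_neg hv, zero_add]
      exact grnw_const N hK ih v

theorem grnw_end {N : Net} {V : Finset Pt} {K : ℝ} (h : ∀ m z, grnw_u N V m z ≤ K) (x : Pt) :
    ms (fun W => ∃ v ∈ V, Al N Set.univ x W v) ≤ ENNReal.ofReal K := by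
  have h1 : ms (fun W => ∃ v ∈ V, Al N Set.univ x W v) ≤
      Kn N Set.univ (fun z => if z ∈ V then 1 else 0) x := by
    refine ENNReal.tsum_le_tsum fun W => ?_
    by_cases k : ∃ v ∈ V, Al N Set.univ x W v
    · rw [if_pos k]
      obtain ⟨v, k1, k2⟩ := k
      simp [k2.endp_eq, k1, k2]
    · rw [if_neg k]; exact zero_le
  have bd : ∀ z, BddAbove (Set.range fun m => grnw_u N V m z) := fun z =>
    ⟨K, by rintro _ ⟨m, rfl⟩; exact h m z⟩
  have lim : ∀ z, Tendsto (fun m => grnw_u N V m z) atTop (𝓝 (⨆ m, grnw_u N V m z)) := fun z =>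
    tendsto_atTop_ciSup (monotone_nat_of_le_succ fun m => grnw_step N V m z) (bd z)
  refine h1.trans ((Kn_le_ofReal (u := fun z => ⨆ m, grnw_u N V m z)
    (w := fun z => if z ∈ V then 1 else 0) (fun z => le_ciSup (bd z) 0)
    (fun z => by split_ifs <;> norm_num) (fun z => by split_ifs <;> simp) (fun z => ?_) x).trans
    (ENNReal.ofReal_le_ofReal (ciSup_le fun m => h m x)))
  rw [if_pos (Set.mem_univ z)]
  have l2 : Tendsto (fun m => N.Pr (grnw_u N V m) z) atTop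
      (𝓝 (N.Pr (fun z => ⨆ m, grnw_u N V m z) z)) :=
    tendsto_finsetSum _ fun d _ => by
      split_ifs
      · exact (lim _).div_const _
      · exact (lim _).div_const _
  exact le_of_tendsto' (l2.const_add _) fun m => le_ciSup (bd z) (m + 1)

theorem p_GRN :
    S_GRN := by
  obtain ⟨C, C0, hC⟩ := grnw_bd
  refine ⟨C.toNNReal, fun N V y t hF ht hV => ?_⟩
  have h : ms (fun W => ∃ v ∈ V, Al N Set.univ y W v) ≤
      (C.toNNReal : ℝ≥0∞) * (t : ℝ≥0∞) ^ 2 := by
    refine (grnw_end (hC N V t hF ht hV) y).trans (le_of_eq ?_)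
    rw [ENNReal.ofReal_mul C0.le, ENNReal.ofReal_pow (Nat.cast_nonneg t), ENNReal.ofReal_natCast]
    rfl
  exact ⟨h, (thin_rev (fun _ _ h => h) fun v hv _ h => ⟨v, hv, h.rev⟩).trans h⟩

end Pool.Agent.P.MP_347bd1_pr.M

namespace Pool.Agent.P.MP_347bd1_pr.M

open Classical Finset Filter Topology
open scoped ENNReal NNReal

theorem monow_top (G : Finset Edge) {U T : Finset Pt} (h : Disjoint U T) (B : Finset Pt → Prop) :
    ∑ M ∈ (U ∪ T).powerset, (if T ⊆ M ∧ B (M \ T) then xc ^ (cut M ∩ G).card else 0) =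
      Zf G U T B := by
  simp only [ite_and]
  rw [← sum_filter, Zf]
  refine sum_nbij' (fun M => M \ T) (fun N => N ∪ T) (fun M hM => ?_) (fun N hN => ?_)
    (fun M hM => ?_) (fun N hN => ?_) fun M hM => ?_
  · exact mem_powerset.2 (sdiff_le_iff'.2 (mem_powerset.1 (mem_filter.1 hM).1))
  · exact mem_filter.2 ⟨mem_powerset.2 (union_subset_union (mem_powerset.1 hN) subset_rfl),
      subset_union_right⟩
  · exact sdiff_union_of_subset (mem_filter.1 hM).2
  · exact union_sdiff_cancel_right (h.mono_left (mem_powerset.1 hN))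
  · simp only [sdiff_union_of_subset (mem_filter.1 hM).2]

theorem monow_bot (G : Finset Edge) {U W : Finset Pt} (h : U ⊆ W) (B : Finset Pt → Prop) :
    ∑ M ∈ W.powerset, (if M ⊆ U ∧ B M then xc ^ (cut M ∩ G).card else 0) = Zf G U ∅ B := by
  simp only [ite_and]
  rw [← sum_filter, Zf]
  refine sum_congr ?_ fun M _ => by rw [union_empty]
  ext M
  rw [mem_filter, mem_powerset, mem_powerset]
  exact and_iff_right_of_imp fun k => k.trans h

theorem monow_exp {G1 G2 : Finset Edge} {U1 T2 M M' : Finset Pt}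
    (h1 : ∀ e ∈ G1, e ∉ G2 → ea e ∉ U1 ∨ eb e ∉ U1 ∨ (ea e ∈ T2 ∧ eb e ∈ T2))
    (h2 : ∀ e ∈ G2, e ∉ G1 → (ea e ∉ U1 ∧ eb e ∉ U1) ∨ ea e ∈ T2 ∨ eb e ∈ T2)
    (hM : M ⊆ U1) (hT : T2 ⊆ M') :
    (cut (M ∩ M') ∩ G1).card + (cut (M ∪ M') ∩ G2).card ≤
      (cut M ∩ G1).card + (cut M' ∩ G2).card := by
  rw [mono_card (subset_union_left (s₁ := G1) (s₂ := G2)),
    mono_card (subset_union_left (s₁ := G1) (s₂ := G2)),
    mono_card (subset_union_right (s₁ := G1) (s₂ := G2)),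
    mono_card (subset_union_right (s₁ := G1) (s₂ := G2)), ← sum_add_distrib, ← sum_add_distrib]
  refine sum_le_sum fun e _ => ?_
  have a1 := @hM (ea e)
  have a2 := @hM (eb e)
  have a3 := @hT (ea e)
  have a4 := @hT (eb e)
  have b1 := h1 e
  have b2 := h2 e
  simp only [mem_cut, mem_inter, mem_union]
  by_cases c1 : ea e ∈ M <;> by_cases c2 : eb e ∈ M <;> by_cases c3 : ea e ∈ M' <;>
    by_cases c4 : eb e ∈ M' <;> by_cases c5 : e ∈ G1 <;> by_cases c6 : e ∈ G2 <;>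
      simp [c1, c2, c3, c4, c5, c6] <;> grind

theorem p_MONO :
    S_MONO := by
  intro G1 G2 U1 U2 T2 A A' hU hT h1 h2 hA
  have p0 : ∀ (a : Prop) [Decidable a] (k : ℕ), 0 ≤ if a then xc ^ k else 0 := fun a _ k => by
    split_ifs; exacts [(pow_pos xc_pos _).le, le_rfl]
  have := Finset.four_functions_theorem
    (f₁ := fun M => if M ⊆ U1 ∧ A M then xc ^ (cut M ∩ G1).card else 0)
    (f₂ := fun M => if T2 ⊆ M ∧ (fun _ => True) (M \ T2) then xc ^ (cut M ∩ G2).card else 0)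
    (f₃ := fun M => if M ⊆ U1 ∧ (fun _ => True) M then xc ^ (cut M ∩ G1).card else 0)
    (f₄ := fun M => if T2 ⊆ M ∧ A' (M \ T2) then xc ^ (cut M ∩ G2).card else 0) (U2 ∪ T2)
    (fun _ => p0 _ _) (fun _ => p0 _ _) (fun _ => p0 _ _)
    (fun _ => p0 _ _) (fun M hM M' hM' => ?_) subset_rfl subset_rfl
  · rw [← powerset_inter, ← powerset_union, inter_self, union_self] at this
    rw [Pr, Pr, div_le_div_iff₀ Zf_pos Zf_pos, mul_comm (Zf _ U2 _ A'), ← monow_bot G1 hU,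
      ← monow_bot G1 hU, ← monow_top G2 hT, ← monow_top G2 hT]
    convert this
  · by_cases k : M ⊆ U1 ∧ A M
    · by_cases k' : T2 ⊆ M'
      · have a1 : M ∩ M' ⊆ U1 := inter_subset_left.trans k.1
        have a2 : T2 ⊆ M ∪ M' := k'.trans subset_union_right
        have a3 : A' ((M ∪ M') \ T2) := hA M k.1 k.2 _ (sdiff_le_iff'.2 (union_subset hM hM'))
          fun w hw => mem_sdiff.2 ⟨mem_union_left _ (mem_inter.1 hw).1,
            disjoint_left.1 hT (mem_inter.1 hw).2⟩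
        simp only [if_pos k, k', a1, a2, a3, and_self, if_true, ← pow_add]
        exact pow_le_pow_of_le_one xc_pos.le xc_lt_one.le (monow_exp h1 h2 k.1 k')
      · simp only [k', false_and, if_false, mul_zero]
        exact mul_nonneg (p0 _ _) (p0 _ _)
    · simp only [if_neg k, zero_mul]
      exact mul_nonneg (p0 _ _) (p0 _ _)

end Pool.Agent.P.MP_347bd1_pr.M

namespace Pool.Agent.P.MP_347bd1_pr.M

open Classical Finset Filter Topology
open scoped ENNReal NNReal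

theorem barw_src {n : ℕ} {S T P : Finset Pt} {Lf Rg O : Finset Edge} {y : Pt}
    (hs : Str2 n S T Lf Rg) (hP : P ⊆ box n \ S) (hsub : O ⊆ eS n S) (hsrc : Src n O {y})
    (hD : Disjoint O (Dl n Lf P))
    (hin : ∀ e ∈ O, e ∈ bar_E n S ∅ (Dl n Lf P) → Inner n e) :
    Src n (O \ bar_E n S ∅ (Dl n Lf P)) {y} := by
  have hDs := bar_Dl hs hP
  have h1 := hs.good
  set D := Dl n Lf P with hDd
  set E := bar_E n S ∅ D with hE
  have tS : ∀ w ∈ S, TopConn n (D ∪ ∅) w := fun w hw =>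
    (h1.conn w hw).mono (union_subset_union hDs le_rfl)
  have inD : ∀ e ∈ ebox n, ea e ∈ P ∨ eb e ∈ P → e ∈ D := fun e k k' =>
    mem_union_right _ (mem_inter.2 ⟨mem_einc.2 k', k⟩)
  have tP : ∀ w ∈ P, ¬ TopConn n (D ∪ ∅) w := by
    rintro w hw ⟨u, k1, k2, k3⟩
    rcases k3.cases_tail with rfl | ⟨a, -, d, k, rfl⟩
    · exact (mem_sdiff.1 (hP hw)).2 (h1.top _ k1 k2)
    · obtain ⟨k4, k5⟩ := mem_sdiff.1 k
      exact k5 (mem_union_left _ (inD _ k4 (mem_einc.1 (inc_mem_einc.2 (.inr hw)))))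
  have tE : ∀ e ∈ O, (TopConn n (D ∪ ∅) (ea e) ↔ TopConn n (D ∪ ∅) (eb e)) :=
    fun e k => TopConn.edge (eS_subset n S (hsub k)) fun m =>
      (mem_union.1 m).elim (disjoint_left.1 hD k) (notMem_empty _)
  have hJ : ∀ e ∈ O ∩ E, (¬ TopConn n (D ∪ ∅) (ea e) ∧ ea e ∉ P) ∧
      ¬ TopConn n (D ∪ ∅) (eb e) ∧ eb e ∉ P := by
    intro e he
    obtain ⟨k1, k2⟩ := mem_inter.1 he
    have k3 := disjoint_left.1 hD k1
    obtain ⟨k4, k5⟩ := mem_filter.1 ((mem_union.1 k2).resolve_left k3)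
    exact ⟨⟨k5, fun m => k3 (inD e (eS_subset n S k4) (.inl m))⟩,
      fun m => k5 ((tE e k1).2 m), fun m => k3 (inD e (eS_subset n S k4) (.inr m))⟩
  have hK : ∀ e ∈ O \ E, TopConn n (D ∪ ∅) (ea e) ∧ TopConn n (D ∪ ∅) (eb e) := by
    intro e he
    obtain ⟨k1, k2⟩ := mem_sdiff.1 he
    have k3 : TopConn n (D ∪ ∅) (ea e) :=
      by_contra fun m => k2 (mem_union_right _ (mem_filter.2 ⟨hsub k1, m⟩))
    exact ⟨k3, (tE e k1).1 k3⟩
  have cross : ∀ e a c, bar_En e a c → e ∈ ebox n → ¬ TopConn n (D ∪ ∅) a ∧ a ∉ P →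
      TopConn n (D ∪ ∅) c → c ∈ S := by
    intro e a c he k ha hc
    have aS : a ∉ S := fun m => ha.1 (tS a m)
    have k1 : e ∈ D ∪ ∅ := by
      by_contra m
      have := TopConn.edge k m
      rcases he with ⟨rfl, rfl⟩ | ⟨rfl, rfl⟩
      exacts [ha.1 (this.2 hc), ha.1 (this.1 hc)]
    have k2 : e ∈ Lf := by
      rcases mem_union.1 k1 with m | m
      · refine (mem_union.1 m).resolve_right fun m' => ?_
        exact ((bar_or he (· ∈ P)).1 (mem_einc.1 (mem_inter.1 m').1)).elim ha.2 fun m => tP c m hc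
      · exact absurd m (notMem_empty _)
    exact ((bar_or he (· ∈ S \ T)).1 (hs.lf e k2).2).elim
      (fun m => absurd (mem_sdiff.1 m).1 aS) fun m => (mem_sdiff.1 m).1
  have eK : O \ E = symmDiff O (O ∩ E) := by
    ext e
    simp only [Finset.mem_sdiff, Finset.mem_symmDiff, Finset.mem_inter]
    grind
  have hβ : ∀ q ∈ intr n, Odd (deg (O ∩ E) q) → q = y := by
    intro q hq k
    by_contra hne
    obtain ⟨d, hd⟩ := bar_side k
    have k1 : Odd (deg (O \ E) q) := by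
      rw [eK, odd_deg_symmDiff, hsrc q hq]
      exact fun m => hne (m.2 k)
    obtain ⟨d', hd'⟩ := bar_side k1
    obtain ⟨a, b, c, f, d1, d2, g0, g1, g2, g3, -, g5, -⟩ := bar_sq q d
    obtain ⟨ha, hb⟩ := bar_and g0 (P := fun w => ¬ TopConn n (D ∪ ∅) w ∧ w ∉ P) (hJ _ hd)
    have k2 := hK _ hd'
    rcases g5 d' with rfl | rfl | rfl | rfl
    · exact absurd (bar_and g0 k2).1 ha.1
    · exact absurd (bar_and g1 k2).1 ha.1
    · exact absurd (bar_and g2 k2).1 hb.1
    obtain ⟨hc, hf⟩ := bar_and g3 k2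
    have cS := cross _ a c g1 (cr_mem_ebox hq _) ha hc
    have fS := cross _ b f g2 (cr_mem_ebox hq _) hb hf
    exact ((bar_or g3 (· ∉ S)).1 (mem_eS.1 (hsub (mem_sdiff.1 hd').1)).2).elim (· cS) (· fS)
  have hJ0 : Src n (O ∩ E) ∅ := by
    intro q hq
    refine ⟨fun k => ?_, False.elim⟩
    obtain rfl := hβ q hq k
    exact not_src_single hq (fun e he => hin e (mem_inter.1 he).1 (mem_inter.1 he).2)
      fun p hp => ⟨fun m => hβ p hp m, fun m => (Set.mem_singleton_iff.1 m).symm ▸ k⟩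
  rw [eK]
  exact (hsrc.symmDiff hJ0).congr fun p _ => by simp [Set.mem_symmDiff]

theorem barw_exit {n : ℕ} {E : Finset Edge} {y : Pt} {W : List Dir} (hW : Run (net n E) y W) :
    ∃ e0 ∈ Od y W, ¬ Inner n e0 ∧ ∀ e ∈ Od y W, e ≠ e0 → Inner n e := by
  obtain ⟨W0, q0, d0, rfl, w1, w2⟩ := hW
  have h0 : ¬ Inner n (cr q0 d0) := by
    rintro ⟨p, d, k1, k2, k3⟩
    rcases cr_eq_iff.1 k1 with m | m
    · exact w2.2.1 (m.1 ▸ m.2 ▸ k3)
    · exact w2.2.1 (m.1 ▸ k2)
  have h1 : ∀ e ∈ Od y W0, Inner n e := fun e he => by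
    obtain ⟨z, d, k1, k2, -⟩ := w1.mem_Od he
    exact ⟨z, d, k1, k2.1, k2.2.1⟩
  rw [Od_append, w1.endp_eq]
  refine ⟨cr q0 d0, mem_symmDiff.2 (.inr ⟨by simp [Od, mem_symmDiff], fun m => h0 (h1 _ m)⟩), h0,
    fun e he hne => ?_⟩
  rcases mem_symmDiff.1 he with m | m
  · exact h1 e m.1
  · exact absurd (by simpa [Od, mem_symmDiff] using m.1) hne

/-- The union of the sets of a family. -/
noncomputable def barw_P (n : ℕ) (S : Finset Pt) (Φ : Finset Pt → Prop) : Finset Pt :=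
  (box n \ S).filter fun u => ∃ P, Φ P ∧ u ∈ P

theorem barw_disj {n : ℕ} {S : Finset Pt} {Lf A : Finset Edge} {Φ : Finset Pt → Prop}
    (h0 : ∃ P, Φ P) (h : ∀ P, Φ P → Disjoint A (Dl n Lf P)) :
    Disjoint A (Dl n Lf (barw_P n S Φ)) := by
  refine disjoint_left.2 fun e he m => ?_
  rcases mem_union.1 m with m | m
  · obtain ⟨P, hP⟩ := h0
    exact disjoint_left.1 (h P hP) he (mem_union_left _ m)
  · obtain ⟨m1, m2⟩ := mem_inter.1 m
    rcases mem_einc.1 m1 with m3 | m3 <;> obtain ⟨-, P, m4, m5⟩ := mem_filter.1 m3 <;>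
      refine disjoint_left.1 (h P m4) he (mem_union_right _ (mem_inter.2 ⟨mem_einc.2 ?_, m2⟩))
    exacts [.inl m5, .inr m5]

theorem p_BAR (hEXIT : S_EXIT) :
    S_BAR := by
  intro n S T Lf Rg va vb hs ha hb hi
  let Φ : Pt → List Dir → Finset Pt → Prop := fun y W P => Valid n S Lf Rg P ∧
    Run (net n (eS n S \ Dl n Lf P)) y W ∧ Reach n (eS n S \ Dl n Lf P) vb y
  have hP : ∀ y W, barw_P n S (Φ y W) ⊆ box n \ S := fun y W => filter_subset _ _
  refine ⟨fun y W => bar_E n S ∅ (Dl n Lf (barw_P n S (Φ y W))),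
    fun y W => Od y W \ bar_E n S ∅ (Dl n Lf (barw_P n S (Φ y W))), fun y W => ∃ P, Φ y W P,
    fun y W hG => ?_, fun y W P hV hR hC => ⟨⟨P, hV, hR, hC⟩, fun e he => mem_union_left _ ?_⟩⟩
  · have k := bar_Dl hs (hP y W)
    obtain ⟨P0, h0⟩ := hG
    have hW : Run (net n (eS n S)) y W := h0.2.1.le (net_le sdiff_subset)
    have hD : Disjoint (Od y W) (Dl n Lf (barw_P n S (Φ y W))) :=
      barw_disj ⟨P0, h0⟩ fun P h =>
        disjoint_left.2 fun e he => (mem_sdiff.1 (h.2.1.Od_subset he)).2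
    obtain ⟨e0, g1, g2, g3⟩ := barw_exit hW
    obtain ⟨Z, z1, a, z2, ⟨s, z3, z4⟩, z5⟩ :=
      hEXIT n S T Lf Rg va vb e0 hs ha hb hi (hW.Od_subset g1) g2
    have hZ : Disjoint Z (Dl n Lf (barw_P n S (Φ y W))) := by
      refine barw_disj ⟨P0, h0⟩ fun P h => ?_
      obtain ⟨π, p1, p2⟩ := h.2.2.fconn.path n
      refine z5 P (symmDiff (Od y W) π) h.1
        (symmDiff_subset_union.trans (union_subset h.2.1.Od_subset (p1.trans (filter_subset _ _))))
        ((hW.src_Od.symmDiff p2).congr fun r _ => ?_)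
        (mem_symmDiff.2 (.inl ⟨g1, fun m => g2 (mem_filter.1 (p1 m)).2⟩)) fun e he hne => ?_
      · simp only [Set.mem_symmDiff, Set.mem_singleton_iff]
        grind
      · rcases mem_symmDiff.1 he with m | m
        exacts [g3 e m.1 hne, (mem_filter.1 (p1 m.1)).2]
    have ta : TopConn n (Dl n Lf (barw_P n S (Φ y W)) ∪ ∅) a :=
      ((hs.good.conn s z3).mono (union_subset_union k le_rfl)).conn
        (z4.symm.mono fun e he => mem_sdiff.2 ⟨z1 he, fun m =>
          (mem_union.1 m).elim (disjoint_left.1 hZ he) (notMem_empty _)⟩)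
    have he0 : e0 ∉ bar_E n S ∅ (Dl n Lf (barw_P n S (Φ y W))) := by
      intro m
      rcases mem_union.1 m with m | m
      · exact disjoint_left.1 hD g1 m
      · refine (mem_filter.1 m).2 ?_
        rcases z2 with rfl | rfl
        · exact ta
        · exact (TopConn.edge (eS_subset n S (hW.Od_subset g1)) fun m =>
            (mem_union.1 m).elim (disjoint_left.1 hD g1) (notMem_empty _)).2 ta
    exact ⟨hW, bar_sub k, bar_sc hs.good k, sdiff_subset,
      barw_src hs (hP y W) hW.Od_subset hW.src_Od hD fun e he m => g3 e he fun h => he0 (h ▸ m),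
      sdiff_disjoint⟩
  · rcases mem_symmDiff.1 he with m | m
    · obtain ⟨m1, m2⟩ := mem_inter.1 m.1
      have a : ∀ u ∈ P, u ∈ barw_P n S (Φ y W) := fun u hu =>
        mem_filter.2 ⟨hV.sub hu, P, ⟨hV, hR, hC⟩, hu⟩
      exact mem_union_right _ (mem_inter.2
        ⟨mem_einc.2 ((mem_einc.1 (mem_filter.1 m1).1).imp (a _) (a _)), m2⟩)
    · exact mem_union_left _ m.1

end Pool.Agent.P.MP_347bd1_pr.M
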