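import Pool.Agent.P.MP_347bd1_pr.M.B1
import Pool.Agent.P.MP_347bd1_pr.M.B2
import Pool.Agent.P.MP_347bd1_pr.M.B3
import Pool.Agent.P.MP_347bd1_pr.M.B4
import Pool.Agent.P.MP_347bd1_pr.M.B5
import Pool.Agent.P.MP_347bd1_pr.M.B6
import Pool.Agent.P.MP_347bd1_pr.M.B7
import Pool.Agent.P.MP_347bd1_pr.M.B8
import Pool.Agent.P.MP_347bd1_pr.M.B9
import Pool.Agent.P.MP_347bd1_pr.M.B10

/-!
All intermediate statements hold.
-/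

set_option autoImplicit false

namespace Pool.Agent.P.MP_347bd1_pr.M

theorem g_KC1 : S_KC1 := p_KC1
theorem g_STEP : S_STEP := p_STEP
theorem g_KC : S_KC := p_KC g_STEP
theorem g_DPOIN : S_DPOIN := p_DPOIN
theorem g_SIGN : S_SIGN := p_SIGN g_STEP g_DPOIN
theorem g_SIGNS : S_SIGNS := p_SIGNS g_STEP
theorem g_ABEUR : S_ABEUR := p_ABEUR
theorem g_MV : S_MV := p_MV
theorem g_LDHN : S_LDHN := p_LDHN g_KC1 g_KC g_SIGN g_ABEUR g_MV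
theorem g_GRN : S_GRN := p_GRN
theorem g_THN : S_THN := p_THN g_GRN
theorem g_GKS : S_GKS := p_GKS
theorem g_GKSZ : S_GKSZ := p_GKSZ g_GKS
theorem g_FIL : S_FIL := p_FIL
theorem g_THF : S_THF := p_THF g_KC1 g_STEP g_KC g_SIGNS g_ABEUR g_FIL
theorem g_TH0 : S_TH0 := p_TH0 g_GKSZ g_THF
theorem g_SLIT : S_SLIT := p_SLIT
theorem g_MONO : S_MONO := p_MONO
theorem g_ZEQ : S_ZEQ := p_ZEQ
theorem g_LSM : S_LSM := p_LSM
theorem g_DEC1 : S_DEC1 := p_DEC1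
theorem g_DEC2 : S_DEC2 := p_DEC2 g_KC1 g_LSM
theorem g_EXIT : S_EXIT := p_EXIT
theorem g_BAR : S_BAR := p_BAR g_EXIT
theorem g_TS : S_TS := p_TS g_KC1 g_DEC1 g_DEC2 g_BAR
theorem g_TS0 : S_TS0 := p_TS0 g_KC1 g_DEC1 g_DEC2
theorem g_ARC : S_ARC := p_ARC
theorem g_NIG : S_NIG := p_NIG g_ARC
theorem g_NI : S_NI := p_NI g_NIG
theorem g_RUN : S_RUN := p_RUN g_DPOIN
theorem g_RUN1 : S_RUN1 := p_RUN1 g_DPOIN
theorem g_WF : S_WF := p_WF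
theorem g_LFT : S_LFT := p_LFT g_WF
theorem g_TH1 : S_TH1 := p_TH1 g_GKSZ g_TH0 g_SLIT g_WF
theorem g_CB : S_CB := p_CB g_KC1 g_LDHN g_MONO g_ZEQ g_TS g_TS0 g_WF g_LFT g_TH1
theorem g_RING : S_RING := p_RING
theorem g_CLS : S_CLS := p_CLS g_RUN g_RUN1 g_RING
theorem g_BULK : S_BULK := p_BULK g_CB g_CLS g_NI g_GRN g_THN
theorem g_CORN : S_CORN := p_CORN g_CB g_CLS g_GRN
theorem g_CNR : S_CNR := p_CNR g_KC1 g_LDHN g_MONO g_ZEQ g_TS0 g_GKSZ g_TH0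
theorem g_EXPL : S_EXPL := p_EXPL
theorem g_SYM : S_SYM := p_SYM
theorem g_BLK : S_BLK := p_BLK g_BULK g_CORN g_CNR g_EXPL g_SYM
theorem g_PA : S_PA := p_PA
theorem g_PB : S_PB := p_PB
theorem g_PC : S_PC := p_PC
theorem g_PD : S_PD := p_PD
theorem g_P1 : S_P1 := p_P1 g_PA g_PB g_PC g_PD
theorem g_VAR : S_VAR := p_VAR g_BLK
theorem g_DYN : S_DYN := p_DYN g_P1
theorem g_MAIN : S_MAIN := p_MAIN g_PC g_BLK g_VAR g_DYN

end Pool.Agent.P.MP_347bd1_pr.M
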