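import Pool.Agent.P.MP_347bd1_pr.Stmts2

/-! Tools from the fixed time result that are used again (part 2). -/

namespace Pool.Agent.P.MP_347bd1_pr.M

open Classical Finset

open scoped ENNReal NNReal

/-- The step from `u` to `u'` crosses the horizontal ray that starts just above `w`. -/
def hex1_c (u u' w : Pt) : Prop :=
  (u.2 = w.2 ∧ u'.2 = w.2 + 1 ∧ u.1 < w.1) ∨ (u'.2 = w.2 ∧ u.2 = w.2 + 1 ∧ u'.1 < w.1)

/-- The site `u` lies between the rays of `w` and `w'`. -/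
def hex1_d (u w w' : Pt) : Prop :=
  (w'.2 = w.2 + 1 ∧ u.2 = w'.2 ∧ u.1 < w'.1) ∨ (w.2 = w'.2 + 1 ∧ u.2 = w.2 ∧ u.1 < w.1)

theorem hex1_le {ξ : Pt → Bool} {c : Bool} {a b : Pt} (h : Lk ξ c a b) :
    a.1 ≤ b.1 + 1 ∧ b.1 ≤ a.1 + 1 ∧ a.2 ≤ b.2 + 1 ∧ b.2 ≤ a.2 + 1 := by
  have h1 := nrm_le_iff.1 (show nrm (a - b) = 1 from h.star).le
  simp only [Prod.fst_sub, Prod.snd_sub] at h1
  omega

theorem hex1_diag {ξ : Pt → Bool} {c : Bool} {a b : Pt} (h : Lk ξ c a b) (h1 : a.1 ≠ b.1)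
    (h2 : a.2 ≠ b.2) : ξ (min a.1 b.1, min a.2 b.2) = c := by
  rcases h with ⟨d, rfl⟩ | h
  · cases d <;> simp [Dir.vec] at h1 h2
  · exact h.2.2

theorem hex1_ne {M : Finset Pt} {u w : Pt} (hu : u ∈ M) (hw : w ∉ M) : u.1 ≠ w.1 ∨ u.2 ≠ w.2 := by
  by_contra h
  push Not at h
  exact hw (Prod.ext h.1 h.2 ▸ hu)

theorem hex1_aux (x y x' y' p q p' q' : ℤ)
    (a1 : x ≤ x' + 1 ∧ x' ≤ x + 1 ∧ y ≤ y' + 1 ∧ y' ≤ y + 1)
    (a2 : p ≤ p' + 1 ∧ p' ≤ p + 1 ∧ q ≤ q' + 1 ∧ q' ≤ q + 1)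
    (a3 : x ≠ p ∨ y ≠ q) (a4 : x ≠ p' ∨ y ≠ q') (a5 : x' ≠ p ∨ y' ≠ q) (a6 : x' ≠ p' ∨ y' ≠ q')
    (a7 : x = x' ∨ y = y' ∨ p = p' ∨ q = q' ∨ min x x' ≠ min p p' ∨ min y y' ≠ min q q') :
    (((y = q ∧ y' = q + 1 ∧ x < p) ∨ (y' = q ∧ y = q + 1 ∧ x' < p)) ↔
      ((y = q' ∧ y' = q' + 1 ∧ x < p') ∨ (y' = q' ∧ y = q' + 1 ∧ x' < p'))) ↔
    (((q' = q + 1 ∧ y = q' ∧ x < p') ∨ (q = q' + 1 ∧ y = q ∧ x < p)) ↔
      ((q' = q + 1 ∧ y' = q' ∧ x' < p') ∨ (q = q' + 1 ∧ y' = q ∧ x' < p))) := by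
  obtain ⟨s, rfl⟩ : ∃ s, y' = y + s := ⟨y' - y, by ring⟩
  obtain ⟨t, rfl⟩ : ∃ t, q' = q + t := ⟨q' - q, by ring⟩
  obtain ⟨r, rfl⟩ : ∃ r, y = q + r := ⟨y - q, by ring⟩
  simp only [add_assoc, add_right_inj, left_eq_add, add_eq_left, ne_eq, min_add_add_left] at *
  obtain rfl | rfl | rfl : s = 0 ∨ s = 1 ∨ s = -1 := by omega
  all_goals
    obtain rfl | rfl | rfl : t = 0 ∨ t = 1 ∨ t = -1 := by omega
  all_goals
    by_cases hr : r < -2 ∨ 2 < r
    · clear a1 a2 a3 a4 a5 a6 a7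
      refine iff_of_true (iff_of_false ?_ ?_) (iff_of_false ?_ ?_) <;> omega
    obtain rfl | rfl | rfl | rfl | rfl : r = -2 ∨ r = -1 ∨ r = 0 ∨ r = 1 ∨ r = 2 := by omega
    all_goals
      simp at * <;> omega

theorem hex1_local {ξ : Pt → Bool} {M : Finset Pt} {u u' w w' : Pt} (h : Lk ξ false u u')
    (h' : Lk ξ true w w') (hu : u ∈ M) (hu' : u' ∈ M) (hw : w ∉ M) (hw' : w' ∉ M) :
    (hex1_c u u' w ↔ hex1_c u u' w') ↔ (hex1_d u w w' ↔ hex1_d u' w w') := by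
  have a1 := hex1_le h
  have a2 := hex1_le h'
  have a3 := hex1_ne hu hw
  have a4 := hex1_ne hu hw'
  have a5 := hex1_ne hu' hw
  have a6 := hex1_ne hu' hw'
  have a7 : u.1 = u'.1 ∨ u.2 = u'.2 ∨ w.1 = w'.1 ∨ w.2 = w'.2 ∨
      min u.1 u'.1 ≠ min w.1 w'.1 ∨ min u.2 u'.2 ≠ min w.2 w'.2 := by
    by_contra k
    push Not at k
    obtain ⟨k1, k2, k3, k4, k5, k6⟩ := k
    have b1 := hex1_diag h k1 k2
    have b2 := hex1_diag h' k3 k4
    rw [k5, k6, b2] at b1
    exact Bool.noConfusion b1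
  exact hex1_aux _ _ _ _ _ _ _ _ a1 a2 a3 a4 a5 a6 a7

theorem hex1_inv {n : ℕ} {ξ : Pt → Bool} {M : Finset Pt} (hM : M ⊆ box n) {a b : Pt} (ha : a ∈ M)
    (ha' : a.2 = n) (h : Relation.ReflTransGen (fun u w => Lk ξ false u w ∧ w ∈ M) a b) :
    b ∈ M ∧ ∃ φ : Pt → Prop,
      (∀ w w', Lk ξ true w w' → w ∈ box n → w ∉ M → w' ∈ box n → w' ∉ M →
        ((φ w ↔ φ w') ↔ ¬ hex1_d b w w')) ∧
      (∀ w : Pt, w.1 = 1 → ¬ φ w) ∧
      ∀ w : Pt, w ∈ box n → w ∉ M → w.1 = n → (φ w ↔ b.2 ≤ w.2) := by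
  induction h with
  | refl =>
    have a0 := mem_box.1 (hM ha)
    refine ⟨ha, fun w => w.2 = n ∧ a.1 < w.1, fun w w' k k1 k2 k3 k4 => ?_, fun w k => ?_,
      fun w k1 k2 k3 => ?_⟩
    · have a1 := hex1_le k
      have a2 := hex1_ne ha k2
      have a3 := hex1_ne ha k4
      rw [mem_box] at k1 k3
      unfold hex1_d
      omega
    · omega
    · have a2 := hex1_ne ha k2
      rw [mem_box] at k1
      omega
  | @tail u u' _ hs ih =>
    obtain ⟨hu, φ, i1, i2, i3⟩ := ih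
    obtain ⟨hl, hu'⟩ := hs
    have a0 := mem_box.1 (hM hu)
    have a1 := mem_box.1 (hM hu')
    refine ⟨hu', fun w => ¬ (φ w ↔ hex1_c u u' w), fun w w' k k1 k2 k3 k4 => ?_, fun w k => ?_,
      fun w k1 k2 k3 => ?_⟩
    · have b1 := i1 w w' k k1 k2 k3 k4
      have b2 := hex1_local hl k hu hu' k2 k4
      grind
    · have b1 := i2 w k
      have b2 : ¬ hex1_c u u' w := by
        unfold hex1_c
        omega
      grind
    · have b1 := hex1_le hl
      have b2 := hex1_ne hu k2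
      have b3 := hex1_ne hu' k2
      simp only
      rw [i3 w k1 k2 k3]
      unfold hex1_c
      omega

theorem t_hex1 : T_HEX1 := by
  rintro n ξ M hM ⟨a, b, a1, a2, a3, a4, h⟩ ⟨a', b', b1, b2, b3, h'⟩
  obtain ⟨-, φ, i1, i2, i3⟩ := hex1_inv hM b1 b2 h'
  have key : b ∈ box n ∧ b ∉ M ∧ ¬ φ b := by
    clear a4
    induction h with
    | refl => exact ⟨a1, a2, i2 a a3⟩
    | @tail w w' _ hs ih =>
      obtain ⟨k1, k2, k3⟩ := ih
      obtain ⟨k4, k5, k6⟩ := hs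
      have c1 := i1 w w' k4 k1 k2 k5 k6
      have c2 : ¬ hex1_d b' w w' := by
        rw [mem_box] at k1 k5
        unfold hex1_d
        omega
      exact ⟨k5, k6, fun k => k3 ((c1.2 c2).2 k)⟩
  refine key.2.2 ((i3 b key.1 key.2.1 a4).2 ?_)
  have := mem_box.1 key.1
  omega

end Pool.Agent.P.MP_347bd1_pr.M

namespace Pool.Agent.P.MP_347bd1_pr.M

open Classical Finset

open scoped ENNReal NNReal

/-- A symmetry `g` of the box with the induced map `p` of plaquettes. -/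
structure SymG (n : ℕ) (g p : Pt → Pt) : Prop where
  inv : ∀ w, g (g w) = w
  pinv : ∀ w, p (p w) = w
  bx : ∀ w ∈ box n, g w ∈ box n
  nn : ∀ u w, NN u w → NN (g u) (g w)
  dg : ∀ u w : Pt, |u.1 - w.1| = 1 → |u.2 - w.2| = 1 →
    |(g u).1 - (g w).1| = 1 ∧ |(g u).2 - (g w).2| = 1 ∧
      p (min (g u).1 (g w).1, min (g u).2 (g w).2) = (min u.1 w.1, min u.2 w.2)

theorem sym_edge_ext {e e' : Edge}
    (h : (ea e = ea e' ∧ eb e = eb e') ∨ (ea e = eb e' ∧ eb e = ea e')) : e = e' := by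
  obtain ⟨⟨a, b⟩, _ | _⟩ := e <;> obtain ⟨⟨a', b'⟩, _ | _⟩ := e' <;>
    simp [ea, eb, Prod.ext_iff] at h ⊢ <;> omega

section G

variable {n : ℕ} {g p : Pt → Pt}

theorem SymG.inj (h : SymG n g p) : Function.Injective g :=
  Function.LeftInverse.injective h.inv

theorem SymG.mem_image (h : SymG n g p) {M : Finset Pt} {w : Pt} : w ∈ M.image g ↔ g w ∈ M := by
  rw [Finset.mem_image]
  constructor
  · rintro ⟨u, hu, rfl⟩; rwa [h.inv]
  · exact fun k => ⟨_, k, h.inv w⟩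

theorem SymG.image_image (h : SymG n g p) (M : Finset Pt) : (M.image g).image g = M := by
  ext w; rw [h.mem_image, h.mem_image, h.inv]

theorem SymG.image_sub (h : SymG n g p) {M : Finset Pt} (hM : M ⊆ box n) : M.image g ⊆ box n :=
  fun w k => by
    have := h.bx _ (hM (h.mem_image.1 k))
    rwa [h.inv] at this

theorem SymG.exists_edge (h : SymG n g p) (e : Edge) : ∃ e' : Edge,
    (ea e' = g (ea e) ∧ eb e' = g (eb e)) ∨ (ea e' = g (eb e) ∧ eb e' = g (ea e)) := by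
  obtain ⟨d, -, h2⟩ := exists_inc e
  obtain ⟨d', h3⟩ := h.nn _ _ ⟨d, h2⟩
  refine ⟨inc (g (ea e)) d', ?_⟩
  rw [h3]
  exact ends_inc _ _

theorem SymG.card_le (h : SymG n g p) (M : Finset Pt) :
    (cut M ∩ ebox n).card ≤ (cut (M.image g) ∩ ebox n).card := by
  choose φ hφ using h.exists_edge
  refine card_le_card_of_injOn φ (fun e he => ?_) (fun e _ e' _ k => ?_)
  · obtain ⟨h1, h2⟩ := mem_inter.1 (mem_coe.1 he)
    rw [mem_cut] at h1
    rw [mem_ebox] at h2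
    have b1 := h.bx _ h2.1
    have b2 := h.bx _ h2.2
    rw [mem_coe, mem_inter, mem_cut, mem_ebox, h.mem_image, h.mem_image]
    rcases hφ e with ⟨k1, k2⟩ | ⟨k1, k2⟩ <;> rw [k1, k2, h.inv, h.inv]
    · exact ⟨h1, b1, b2⟩
    · exact ⟨fun m => h1 m.symm, b2, b1⟩
  · have a1 := hφ e
    have a2 := hφ e'
    rw [← k] at a2
    apply sym_edge_ext
    rcases a1 with ⟨k1, k2⟩ | ⟨k1, k2⟩ <;> rcases a2 with ⟨k3, k4⟩ | ⟨k3, k4⟩
    · exact Or.inl ⟨h.inj (k1.symm.trans k3), h.inj (k2.symm.trans k4)⟩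
    · exact Or.inr ⟨h.inj (k1.symm.trans k3), h.inj (k2.symm.trans k4)⟩
    · exact Or.inr ⟨h.inj (k2.symm.trans k4), h.inj (k1.symm.trans k3)⟩
    · exact Or.inl ⟨h.inj (k2.symm.trans k4), h.inj (k1.symm.trans k3)⟩

theorem SymG.card_eq (h : SymG n g p) (M : Finset Pt) :
    (cut (M.image g) ∩ ebox n).card = (cut M ∩ ebox n).card := by
  refine le_antisymm ?_ (h.card_le M)
  have := h.card_le (M.image g)
  rwa [h.image_image] at this

theorem sym_Pf (φ : Finset Pt → Finset Pt) (h1 : ∀ M ⊆ box n, φ M ⊆ box n)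
    (h2 : ∀ M ⊆ box n, φ (φ M) = M)
    (h3 : ∀ M ⊆ box n, (cut (φ M) ∩ ebox n).card = (cut M ∩ ebox n).card)
    (A : Finset Pt → Prop) : Pf n (fun M => A (φ M)) = Pf n A := by
  unfold Pf Pr
  congr 1
  unfold Zf
  refine sum_nbij' φ φ (fun M k => ?_) (fun M k => ?_) (fun M k => ?_) (fun M k => ?_)
    (fun M k => ?_)
  · exact mem_powerset.2 (h1 M (mem_powerset.1 k))
  · exact mem_powerset.2 (h1 M (mem_powerset.1 k))
  · exact h2 M (mem_powerset.1 k)
  · exact h2 M (mem_powerset.1 k)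
  · simp only [union_empty, h3 M (mem_powerset.1 k)]

theorem SymG.Pf_image (h : SymG n g p) (A : Finset Pt → Prop) :
    Pf n (fun M => A (M.image g)) = Pf n A :=
  sym_Pf _ (fun _ k => h.image_sub k) (fun M _ => h.image_image M) (fun M _ => h.card_eq M) A

theorem sym_Pf_compl (A : Finset Pt → Prop) : Pf n (fun M => A (box n \ M)) = Pf n A := by
  refine sym_Pf _ (fun _ _ => sdiff_subset) (fun M k => Finset.sdiff_sdiff_eq_self k)
    (fun M _ => ?_) A
  congr 1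
  ext e
  simp only [mem_inter, mem_cut, mem_ebox, mem_sdiff]
  grind

theorem SymG.Pf_flip (h : SymG n g p) (A : Finset Pt → Prop) :
    Pf n (fun M => A (box n \ M.image g)) = Pf n A :=
  (h.Pf_image fun M => A (box n \ M)).trans (sym_Pf_compl A)

/-- A path inside `M`. -/
def SymC (ξ : Pt → Bool) (c : Bool) (M : Finset Pt) (a b : Pt) : Prop :=
  a ∈ M ∧ Relation.ReflTransGen (fun u w => Lk ξ c u w ∧ w ∈ M) a b

theorem SymC.symm {ξ : Pt → Bool} {c : Bool} {M : Finset Pt} {a b : Pt} (h : SymC ξ c M a b) :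
    SymC ξ c M b a := by
  obtain ⟨h1, h2⟩ := h
  induction h2 with
  | refl => exact ⟨h1, .refl⟩
  | tail _ k ih => exact ⟨k.2, Relation.ReflTransGen.head ⟨k.1.symm, ih.1⟩ ih.2⟩

theorem SymG.lk (h : SymG n g p) {ξ : Pt → Bool} {c : Bool} {u w : Pt} (k : Lk ξ c u w) :
    Lk (fun q => ξ (p q)) c (g u) (g w) := by
  rcases k with k | ⟨k1, k2, k3⟩
  · exact Or.inl (h.nn _ _ k)
  · obtain ⟨a1, a2, a3⟩ := h.dg u w k1 k2
    exact Or.inr ⟨a1, a2, by simp only [a3, k3]⟩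

theorem SymG.path (h : SymG n g p) {ξ : Pt → Bool} {c : Bool} {M : Finset Pt} {a b : Pt}
    (k : SymC ξ c M a b) : SymC (fun q => ξ (p q)) c (M.image g) (g a) (g b) := by
  obtain ⟨k1, k2⟩ := k
  refine ⟨mem_image_of_mem g k1, ?_⟩
  induction k2 with
  | refl => exact .refl
  | tail _ m ih => exact ih.tail ⟨h.lk m.1, mem_image_of_mem g m.2⟩

theorem SymG.path' (h : SymG n g p) {ξ : Pt → Bool} {c : Bool} {M : Finset Pt} {a b : Pt}
    (k : SymC (fun q => ξ (p q)) c (M.image g) a b) : SymC ξ c M (g a) (g b) := by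
  have := h.path k
  simpa only [h.pinv, h.image_image] using this

theorem sym_neg {ξ : Pt → Bool} {M : Finset Pt} {a b : Pt} :
    SymC (fun q => !ξ q) true M a b ↔ SymC ξ false M a b := by
  simp [SymC, Lk]

theorem sym_TB {ξ : Pt → Bool} {M : Finset Pt} :
    TB n ξ M ↔ ∃ a b : Pt, a.2 = n ∧ b.2 = 1 ∧ SymC ξ false M a b :=
  ⟨fun ⟨a, b, h1, h2, h3, h4⟩ => ⟨a, b, h2, h3, h1, h4⟩,
    fun ⟨a, b, h2, h3, h1, h4⟩ => ⟨a, b, h1, h2, h3, h4⟩⟩

theorem sym_LR {ξ : Pt → Bool} {M : Finset Pt} (hM : M ⊆ box n) :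
    LR n ξ (box n \ M) ↔ ∃ a b : Pt, a.1 = 1 ∧ b.1 = n ∧ SymC ξ true M a b := by
  have e : ∀ w, (w ∈ box n ∧ w ∉ box n \ M) ↔ w ∈ M := fun w => by
    have := @hM w
    rw [mem_sdiff]; grind
  constructor
  · rintro ⟨a, b, h1, h2, h3, h4, h5⟩
    exact ⟨a, b, h3, h4, (e a).1 ⟨h1, h2⟩, rtg_mono (fun u w k => ⟨k.1, (e w).1 k.2⟩) h5⟩
  · rintro ⟨a, b, h3, h4, h1, h5⟩
    exact ⟨a, b, ((e a).2 h1).1, ((e a).2 h1).2, h3, h4,
      rtg_mono (fun u w k => ⟨k.1, (e w).2 k.2⟩) h5⟩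

/-- The pivotal probabilities are transported by `g`. -/
def SymI (n : ℕ) (g : Pt → Pt) : Prop := ∀ ξ : Pt → Bool, ∃ ξ' : Pt → Bool, ∀ z ∈ box n,
  Pf n (fun M => Piv n ξ M z) = Pf n fun M => Piv n ξ' M (g z)

theorem SymG.symI (h : SymG n g p)
    (k : ∀ ξ M, TB n ξ M ↔ TB n (fun q => ξ (p q)) (M.image g)) : SymI n g := by
  intro ξ
  refine ⟨fun q => ξ (p q), fun z _ => ?_⟩
  rw [← h.Pf_image fun M => Piv n (fun q => ξ (p q)) M (g z)]
  congr 1
  funext M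
  rw [Piv, Piv, k, k ξ (M.erase z), image_insert, image_erase h.inj]

theorem sym_npiv_mono {ξ : Pt → Bool} {R R' : Finset Pt} (h : R ⊆ R') :
    npiv n ξ R ≤ npiv n ξ R' :=
  sum_le_sum_of_subset_of_nonneg h fun _ _ _ => Pr_nonneg

theorem SymG.double (h : SymG n g p) (k : SymI n g) {R : Finset Pt} (hR : R ⊆ box n) {ε : ℝ}
    (hε : ∀ ξ, npiv n ξ R ≤ ε) (ξ : Pt → Bool) : npiv n ξ (R ∪ R.image g) ≤ 2 * ε := by
  obtain ⟨ξ', k'⟩ := k ξ
  have e1 : npiv n ξ (R.image g) = npiv n ξ' R := by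
    rw [npiv, sum_image fun _ _ _ _ m => h.inj m, npiv]
    exact sum_congr rfl fun z hz => by rw [k' _ (h.bx z (hR hz)), h.inv]
  have e2 : npiv n ξ (R ∪ R.image g) + npiv n ξ (R ∩ R.image g) =
      npiv n ξ R + npiv n ξ (R.image g) := sum_union_inter
  have e3 : 0 ≤ npiv n ξ (R ∩ R.image g) := sum_nonneg fun _ _ => Pr_nonneg
  linarith [hε ξ, hε ξ']

end G

/-- Reflection of the columns. -/
theorem sym_r1 (n : ℕ) : SymG n (fun w => (n + 1 - w.1, w.2)) fun q => (n - q.1, q.2) where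
  inv w := by simp
  pinv w := by simp
  bx w k := by rw [mem_box] at k ⊢; dsimp only; omega
  nn u w k := by
    obtain ⟨d, rfl⟩ := k
    cases d
    · exact ⟨.N, by simp [Dir.vec]⟩
    · exact ⟨.W, by simp [Dir.vec, Prod.ext_iff]; ring⟩
    · exact ⟨.S, by simp [Dir.vec]⟩
    · exact ⟨.E, by simp [Dir.vec, Prod.ext_iff]; ring⟩
  dg u w h1 h2 := by
    simp only [abs_eq (zero_le_one' ℤ), Prod.ext_iff, and_true, true_and] at h1 h2 ⊢
    omega

/-- Reflection of the rows. -/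
theorem sym_r2 (n : ℕ) : SymG n (fun w => (w.1, n + 1 - w.2)) fun q => (q.1, n - q.2) where
  inv w := by simp
  pinv w := by simp
  bx w k := by rw [mem_box] at k ⊢; dsimp only; omega
  nn u w k := by
    obtain ⟨d, rfl⟩ := k
    cases d
    · exact ⟨.S, by simp [Dir.vec, Prod.ext_iff]; ring⟩
    · exact ⟨.E, by simp [Dir.vec]⟩
    · exact ⟨.N, by simp [Dir.vec, Prod.ext_iff]; ring⟩
    · exact ⟨.W, by simp [Dir.vec]⟩
  dg u w h1 h2 := by
    simp only [abs_eq (zero_le_one' ℤ), Prod.ext_iff, and_true, true_and] at h1 h2 ⊢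
    omega

/-- Reflection in the antidiagonal. -/
theorem sym_a (n : ℕ) :
    SymG n (fun w => (n + 1 - w.2, n + 1 - w.1)) fun q => (n - q.2, n - q.1) where
  inv w := by simp
  pinv w := by simp
  bx w k := by rw [mem_box] at k ⊢; dsimp only; omega
  nn u w k := by
    obtain ⟨d, rfl⟩ := k
    cases d
    · exact ⟨.W, by simp [Dir.vec, Prod.ext_iff]; ring⟩
    · exact ⟨.S, by simp [Dir.vec, Prod.ext_iff]; ring⟩
    · exact ⟨.E, by simp [Dir.vec, Prod.ext_iff]; ring⟩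
    · exact ⟨.N, by simp [Dir.vec, Prod.ext_iff]; ring⟩
  dg u w h1 h2 := by
    simp only [abs_eq (zero_le_one' ℤ), Prod.ext_iff, and_true, true_and] at h1 h2 ⊢
    omega

theorem sym_I1 (n : ℕ) : SymI n fun w => (n + 1 - w.1, w.2) := by
  refine (sym_r1 n).symI fun ξ M => ?_
  rw [sym_TB, sym_TB]
  exact ⟨fun ⟨a, b, h1, h2, h3⟩ => ⟨_, _, by exact h1, by exact h2, (sym_r1 n).path h3⟩,
    fun ⟨a, b, h1, h2, h3⟩ => ⟨_, _, by exact h1, by exact h2, (sym_r1 n).path' h3⟩⟩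

theorem sym_I2 (n : ℕ) : SymI n fun w => (w.1, n + 1 - w.2) := by
  refine (sym_r2 n).symI fun ξ M => ?_
  rw [sym_TB, sym_TB]
  exact ⟨fun ⟨a, b, h1, h2, h3⟩ => ⟨_, _, by simp [h2], by simp [h1], ((sym_r2 n).path h3).symm⟩,
    fun ⟨a, b, h1, h2, h3⟩ => ⟨_, _, by simp [h2], by simp [h1], ((sym_r2 n).path' h3).symm⟩⟩

theorem sym_TB_LR (n : ℕ) (ξ : Pt → Bool) {M : Finset Pt} (hM : M ⊆ box n) :
    TB n ξ M ↔ LR n (fun q => !ξ (n - q.2, n - q.1))
      (box n \ M.image fun w => (n + 1 - w.2, n + 1 - w.1)) := by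
  rw [sym_TB, sym_LR ((sym_a n).image_sub hM)]
  exact ⟨fun ⟨a, b, h1, h2, h3⟩ =>
      ⟨_, _, by simp [h1], by simp [h2], sym_neg.2 ((sym_a n).path h3)⟩,
    fun ⟨a, b, h1, h2, h3⟩ =>
      ⟨_, _, by simp [h1], by simp [h2], (sym_a n).path' (sym_neg.1 h3)⟩⟩

theorem sym_Ia (h : T_HEX) {n : ℕ} (hn : 1 ≤ n) :
    SymI n fun w => (n + 1 - w.2, n + 1 - w.1) := by
  intro ξ
  refine ⟨fun q => !ξ (n - q.2, n - q.1), fun z hz => ?_⟩
  rw [← (sym_a n).Pf_flip fun M => Piv n (fun q => !ξ (n - q.2, n - q.1)) M _]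
  refine Pr_congr fun M hM => ?_
  have hz' := (sym_a n).bx z hz
  rw [Piv, Piv, sym_TB_LR n ξ (insert_subset hz hM), sym_TB_LR n ξ ((erase_subset z M).trans hM),
    h n _ _ hn sdiff_subset, h n _ _ hn sdiff_subset, image_insert, image_erase (sym_a n).inj,
    sdiff_insert, sdiff_erase hz']
  grind

theorem t_sym (h : T_HEX) : T_SYM := by
  intro n hn
  refine ⟨fun ε hε ξ => ?_, fun c => ?_⟩
  · have b0 : base n ⊆ box n := filter_subset _ _
    have b1 := union_subset b0 ((sym_a n).image_sub b0)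
    have b2 := union_subset b1 ((sym_r1 n).image_sub b1)
    have q1 := (sym_a n).double (sym_Ia h hn) b0 hε
    have q2 := (sym_r1 n).double (sym_I1 n) b1 q1
    have q3 := (sym_r2 n).double (sym_I2 n) b2 q2 ξ
    refine le_trans (sym_npiv_mono fun w hw => ?_) (q3.trans_eq (by ring))
    rw [mem_box] at hw
    simp only [mem_union, (sym_a n).mem_image, (sym_r1 n).mem_image, (sym_r2 n).mem_image, base,
      mem_filter, mem_box]
    omega
  · rw [← (sym_a n).Pf_flip (LR n fun _ => c)]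
    refine Pr_congr fun M hM => ?_
    rw [sym_TB_LR n _ hM]
    simp only [Bool.not_not]

end Pool.Agent.P.MP_347bd1_pr.M

namespace Pool.Agent.P.MP_347bd1_pr.M

open Classical Finset

open scoped ENNReal NNReal

theorem sep_ends {P : Pt → Prop} {w : Pt} {d : Dir} :
    (P (ea (inc w d)) ∨ P (eb (inc w d))) ↔ (P w ∨ P (w + d.vec)) := by
  rcases ends_inc w d with h | h <;> rw [h.1, h.2]; exact or_comm

/-- A property that does not change along the first column. -/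
theorem sep_col {n : ℕ} {τ : Pt → Prop} (h0 : ¬ τ ((1 : ℤ), (n : ℤ)))
    (h : ∀ w : Pt, w.1 = 1 → w ∈ box n → w + Dir.N.vec ∈ box n → (τ w ↔ τ (w + Dir.N.vec)))
    {u : Pt} (hu : u ∈ box n) (h1 : u.1 = 1) : ¬ τ u := by
  have k : ∀ j : ℕ, ((1 : ℤ), (n : ℤ) - j) ∈ box n → ¬ τ ((1 : ℤ), (n : ℤ) - j) := by
    intro j
    induction j with
    | zero => simpa using fun _ => h0
    | succ j ih =>
      intro hj
      have e : ((1 : ℤ), (n : ℤ) - (j + 1 : ℕ)) + Dir.N.vec = ((1 : ℤ), (n : ℤ) - j) := by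
        simp [Dir.vec]; ring
      have h2 : ((1 : ℤ), (n : ℤ) - j) ∈ box n := by
        rw [mem_box] at hj ⊢; push_cast at hj; simp at *; omega
      rw [h _ rfl hj (e ▸ h2), e]
      exact ih h2
  obtain ⟨x, y⟩ := u
  have hb := mem_box.1 hu
  obtain ⟨j, rfl⟩ : ∃ j : ℕ, y = n - j := ⟨(n - y).toNat, by simp at hb; omega⟩
  obtain rfl : x = 1 := h1
  exact k j hu

theorem sep_side (h : T_POIN) {n : ℕ} {S T M : Finset Pt} {Lf Rg η : Finset Edge}
    (hs : Str2 n S T Lf Rg)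
    (hc : ∀ a ∈ S \ T, ∀ b ∈ S \ T, Relation.ReflTransGen (fun u w => NN u w ∧ w ∈ S \ T) a b)
    (hM : M ⊆ box n \ S) (hη : η ⊆ ebox n) (he : ∀ e ∈ η, ea e ∈ M ∪ T ∨ eb e ∈ M ∪ T)
    (hp : ∀ p ∈ intr n, (Odd (deg η p) ↔ Odd (deg Lf p))) :
    ∃ τ : Pt → Prop, (∀ w d, w ∈ box n → w + Dir.vec d ∈ box n →
      ((τ w ↔ τ (w + d.vec)) ↔ (inc w d ∈ η ↔ inc w d ∈ Lf))) ∧ ∀ a ∈ S \ T, ¬ τ a := by
  obtain ⟨D, -, h1, -⟩ := h n (symmDiff η Lf)
    (fun e k => by
      rcases mem_symmDiff.1 k with k | k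
      exacts [hη k.1, eS_subset n S (hs.lf e k.1).1])
    (fun p k => by rw [odd_deg_symmDiff, hp p k]; simp)
  have h2 : ∀ w d, w ∈ box n → w + Dir.vec d ∈ box n →
      ((w ∈ D ↔ w + d.vec ∈ D) ↔ (inc w d ∈ η ↔ inc w d ∈ Lf)) := fun w d k1 k2 => by
    have := Finset.ext_iff.1 h1 (inc w d)
    rw [mem_inter, inc_mem_cut, inc_mem_ebox, mem_symmDiff] at this
    grind
  have h3 : ∀ a ∈ S \ T, ∀ b, Relation.ReflTransGen (fun u w => NN u w ∧ w ∈ S \ T) a b →
      b ∈ S \ T ∧ (a ∈ D ↔ b ∈ D) := by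
    intro a ha b k
    induction k with
    | refl => exact ⟨ha, Iff.rfl⟩
    | @tail u w _ k ih =>
      obtain ⟨⟨d, rfl⟩, k2⟩ := k
      refine ⟨k2, ih.2.trans ?_⟩
      obtain ⟨a1, a2⟩ := mem_sdiff.1 ih.1
      obtain ⟨b1, b2⟩ := mem_sdiff.1 k2
      rw [h2 u d (hs.good.sub a1) (hs.good.sub b1)]
      refine iff_of_false (fun m => ?_) fun m => ?_
      · rcases (sep_ends (P := fun x => x ∈ M ∪ T)).1 (he _ m) with m | m <;>
          rcases mem_union.1 m with m | m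
        exacts [(mem_sdiff.1 (hM m)).2 a1, a2 m, (mem_sdiff.1 (hM m)).2 b1, b2 m]
      · rcases (inc_mem_eS.1 (hs.lf _ m).1).2 with m | m
        exacts [m a1, m b1]
  by_cases k : ∃ a ∈ S \ T, a ∈ D
  · obtain ⟨a, ha, k⟩ := k
    refine ⟨fun w => w ∉ D, fun w d k1 k2 => ?_, fun b hb m => m ((h3 a ha b (hc a ha b hb)).2.1 k)⟩
    rw [← h2 w d k1 k2]
    exact not_iff_not
  · exact ⟨fun w => w ∈ D, h2, fun a ha m => k ⟨a, ha, m⟩⟩

theorem t_sep (h : T_POIN) : T_SEP := by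
  intro n S T M Lf Rg η hs hc hM hη he hp
  obtain ⟨τ, h1, h2⟩ := sep_side h hs hc hM hη he hp
  have fr : ∀ u ∈ (box n \ S) \ M, u ∈ box n ∧ u ∉ M ∪ T ∧ u ∉ S \ T := fun u k => by
    obtain ⟨k1, k2⟩ := mem_sdiff.1 k
    obtain ⟨k3, k4⟩ := mem_sdiff.1 k1
    exact ⟨k3, fun m => (mem_union.1 m).elim k2 fun m => k4 (hs.hT m),
      fun m => k4 (mem_sdiff.1 m).1⟩
  have st : ∀ u ∈ S \ T, u ∈ box n ∧ u ∉ M ∪ T := fun u k => by
    obtain ⟨k1, k2⟩ := mem_sdiff.1 k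
    exact ⟨hs.good.sub k1, fun m => (mem_union.1 m).elim (fun m => (mem_sdiff.1 (hM m)).2 k1) k2⟩
  have ne : ∀ u d, u ∉ M ∪ T → u + Dir.vec d ∉ M ∪ T → inc u d ∉ η := fun u d k1 k2 m =>
    ((sep_ends (P := fun x => x ∈ M ∪ T)).1 (he _ m)).elim k1 k2
  have key : ∀ u ∈ Pcl n S Lf M, τ u := by
    intro u hu
    obtain ⟨-, u0, k0, ⟨d, kd⟩, k⟩ := mem_filter.1 hu
    have : u ∈ (box n \ S) \ M ∧ τ u := by
      clear hu
      induction k with
      | refl =>
        refine ⟨k0, ?_⟩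
        obtain ⟨a1, a2, a3⟩ := fr _ k0
        have b := ((sep_ends (P := fun x => x ∈ S \ T)).1 (hs.lf _ kd).2).resolve_left a3
        have c := h1 u0 d a1 (st _ b).1
        have := ne u0 d a2 (st _ b).2
        have := h2 _ b
        grind
      | @tail a b _ k ih =>
        obtain ⟨⟨d', rfl⟩, k2⟩ := k
        refine ⟨k2, ?_⟩
        obtain ⟨a1, a2, a3⟩ := fr _ ih.1
        obtain ⟨b1, b2, b3⟩ := fr _ k2
        have c := h1 a d' a1 b1
        have := ne a d' a2 b2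
        have : inc a d' ∉ Lf := fun m =>
          ((sep_ends (P := fun x => x ∈ S \ T)).1 (hs.lf _ m).2).elim a3 b3
        have := ih.2
        grind
    exact this.2
  refine ⟨⟨(filter_subset _ _).trans sdiff_subset, fun u hu => ?_, fun u hu d m => ?_⟩,
    fun k c1 c2 u hu m => ?_⟩
  · obtain ⟨-, u0, k0, kd, k⟩ := mem_filter.1 hu
    refine ⟨u0, mem_filter.2 ⟨k0, u0, k0, kd, .refl⟩, kd, ?_⟩
    clear hu
    induction k with
    | refl => exact .refl
    | @tail a b k1 k ih => exact ih.tail ⟨k.1, mem_filter.2 ⟨k.2, u0, k0, kd, k1.tail k⟩⟩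
  · obtain ⟨a1, a2, a3⟩ := fr _ (mem_filter.1 hu).1
    have b := ((sep_ends (P := fun x => x ∈ S \ T)).1 (hs.rg _ m).2).resolve_left a3
    have c := h1 u d a1 (st _ b).1
    have := ne u d a2 (st _ b).2
    have := h2 _ b
    have := key u hu
    have : inc u d ∉ Lf := fun m' => disjoint_left.1 hs.disj m' m
    grind
  · refine sep_col (h2 _ k) (fun w w1 w2 w3 => ?_) (fr _ (mem_filter.1 hu).1).1 m (key u hu)
    have : Col1 (inc w .N) := ⟨rfl, w1⟩
    exact (h1 w .N w2 w3).2 (iff_of_false (fun m => c1 _ m this) fun m => c2 _ m this)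

theorem sep_dual (h2 : T_DUAL) {n : ℕ} {M : Finset Pt} {v a b q : Pt} (hM : M ⊆ box n)
    (hv : v ∈ intr n) (ha : a ∈ M) (hp : Relation.ReflTransGen (fun u w => Star u w ∧ w ∈ M) a b)
    (c1 : Corner v a) (c2 : Corner q b) (q1 : 1 ≤ q.1) (q2 : q.1 + 1 ≤ n) (hq : q ∉ intr n) :
    ∃ η ⊆ ebox n, (∀ e ∈ η, ea e ∈ M ∨ eb e ∈ M) ∧ (∀ e ∈ η, ¬ Col1 e) ∧ Src n η {v} := by
  have hv' := mem_intr.1 hv
  obtain ⟨η, k1, k2, k3, k4⟩ := h2 n M a b v q hM ha hp c1 c2 hv'.1 hv'.2.1 q1 q2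
  refine ⟨η, k1, k2, k3, k4.congr fun p k => ?_⟩
  have : p ≠ q := fun m => hq (m ▸ k)
  simp [Set.mem_symmDiff, this]

theorem mono_card {X F F' : Finset Edge} (h : F ⊆ F') :
    (X ∩ F).card = ∑ e ∈ F', if e ∈ X ∧ e ∈ F then 1 else 0 := by
  rw [← card_filter]
  congr 1
  ext e
  have := @h e
  simp only [mem_inter, mem_filter]
  grind

theorem pair_star_ends (e : Edge) : Star (ea e) (eb e) := by
  obtain ⟨d, -, h⟩ := exists_inc e
  exact NN.star ⟨d, h⟩

/-- Translation of a set of sites. -/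
noncomputable def pairSh (τ : Pt) (M : Finset Pt) : Finset Pt := M.image (· + τ)

theorem pair_mem_sh {τ w : Pt} {M : Finset Pt} : w ∈ pairSh τ M ↔ w - τ ∈ M := by
  rw [pairSh, mem_image]
  exact ⟨by rintro ⟨a, h, rfl⟩; simpa using h, fun h => ⟨_, h, by simp⟩⟩

theorem pair_sh_mono {τ : Pt} {M M' : Finset Pt} (h : M ⊆ M') : pairSh τ M ⊆ pairSh τ M' :=
  image_subset_image h

theorem pair_sh_sh (τ : Pt) (M : Finset Pt) : pairSh (-τ) (pairSh τ M) = M := by
  ext w; simp [pair_mem_sh]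

theorem pair_sh_sh' (τ : Pt) (M : Finset Pt) : pairSh τ (pairSh (-τ) M) = M := by
  ext w; simp [pair_mem_sh]

theorem dynlo_deg {n : ℕ} (x : Site n) : (univ.filter fun y => (grid n).Adj x y).card ≤ 4 := by
  refine le_trans (card_le_card_of_injOn (t := {(x.1.val + 1, x.2.val), (x.1.val - 1, x.2.val),
    (x.1.val, x.2.val + 1), (x.1.val, x.2.val - 1)}) (fun y : Site n => (y.1.val, y.2.val))
    (fun y hy => ?_) fun y _ z _ h => ?_) card_le_four
  · have h := (mem_filter.1 (mem_coe.1 hy)).2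
    simp only [grid, SimpleGraph.boxProd_adj, SimpleGraph.pathGraph_adj, Fin.ext_iff] at h
    simp only [coe_insert, coe_singleton, Set.mem_insert_iff, Set.mem_singleton_iff, Prod.mk.injEq]
    omega
  · simp only [Prod.mk.injEq] at h
    exact Prod.ext (Fin.ext h.1) (Fin.ext h.2)

theorem dob_up {r : Pt → Pt → Prop} (f : ℤ → Pt) {a b : ℤ} (h : a ≤ b)
    (hr : ∀ x, a ≤ x → x < b → r (f x) (f (x + 1))) : Relation.ReflTransGen r (f a) (f b) := by
  induction b, h using Int.leInduction with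
  | base => exact .refl
  | succ b hb ih => exact (ih fun x h1 h2 => hr x h1 (by omega)).tail (hr b hb (by omega))

theorem dob_dn {r : Pt → Pt → Prop} (f : ℤ → Pt) {a b : ℤ} (h : a ≤ b)
    (hr : ∀ x, a ≤ x → x < b → r (f (x + 1)) (f x)) : Relation.ReflTransGen r (f b) (f a) := by
  induction b, h using Int.leInduction with
  | base => exact .refl
  | succ b hb ih => exact (ih fun x h1 h2 => hr x h1 (by omega)).head (hr b hb (by omega))

theorem dob_line {T : Finset Pt} (f : ℤ → Pt) (hN : ∀ x, NN (f x) (f (x + 1))) (a b : ℤ)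
    (h : ∀ x, (a ≤ x ∧ x ≤ b) ∨ (b ≤ x ∧ x ≤ a) → f x ∈ T) :
    Relation.ReflTransGen (fun u w => NN u w ∧ w ∈ T) (f a) (f b) := by
  rcases le_total a b with k | k
  · exact dob_up f k fun x h1 h2 => ⟨hN x, h _ (by omega)⟩
  · exact dob_dn f k fun x h1 h2 => ⟨(hN x).symm, h _ (by omega)⟩

theorem dob_hor {T : Finset Pt} (y a b : ℤ)
    (h : ∀ x, (a ≤ x ∧ x ≤ b) ∨ (b ≤ x ∧ x ≤ a) → (x, y) ∈ T) :
    Relation.ReflTransGen (fun u w => NN u w ∧ w ∈ T) (a, y) (b, y) :=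
  dob_line (fun x => (x, y)) (fun _ => ⟨.E, by simp [Dir.vec]⟩) a b h

theorem dob_ver {T : Finset Pt} (y a b : ℤ)
    (h : ∀ x, (a ≤ x ∧ x ≤ b) ∨ (b ≤ x ∧ x ≤ a) → (y, x) ∈ T) :
    Relation.ReflTransGen (fun u w => NN u w ∧ w ∈ T) (y, a) (y, b) :=
  dob_line (fun x => (y, x)) (fun _ => ⟨.N, by simp [Dir.vec]⟩) a b h

end Pool.Agent.P.MP_347bd1_pr.M

namespace Pool.Agent.P.MP_347bd1_pr.M

open Classical Finset

open scoped ENNReal NNReal

variable {n : ℕ} {S T P P' : Finset Pt} {Lf Rg : Finset Edge}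

theorem dec2_other (hS : Str2 n S T Lf Rg) {u : Pt} {d : Dir} (hu : u ∉ S) (h : inc u d ∈ Lf) :
    u + d.vec ∈ S := by
  have h1 := (hS.lf _ h).2
  simp only [mem_sdiff] at h1
  rcases ends_inc u d with k | k <;> rw [k.1, k.2] at h1 <;> grind

theorem dec2_lf_ebox (hS : Str2 n S T Lf Rg) : Lf ⊆ ebox n :=
  fun e h => eS_subset n S (hS.lf e h).1

theorem dec2_lam_sub : lam n Lf P ⊆ Dl n Lf P := by
  intro e he
  simp only [lam, Dl, mem_symmDiff, mem_union, mem_inter, mem_cut, mem_einc] at he ⊢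
  grind

theorem dec2_sc (hS : Str2 n S T Lf Rg) (hP : Valid n S Lf Rg P) :
    SC n (eS n S \ Dl n Lf P) := by
  have h0 : ∀ w ∈ S, TopConn n (eS n S \ Dl n Lf P) w := fun w hw =>
    (hS.good.conn w hw).mono (sdiff_subset.trans subset_union_left)
  have h1 : ∀ u ∈ P, TopConn n (eS n S \ Dl n Lf P) u := by
    intro u hu
    obtain ⟨u0, k0, ⟨d, k1⟩, k2⟩ := hP.conn u hu
    induction k2 with
    | refl =>
      have a := (h0 _ (dec2_other hS (mem_sdiff.1 (hP.sub k0)).2 k1)).step (d := d.opp)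
        (by rw [inc_opp]; exact dec2_lf_ebox hS k1)
        (by rw [inc_opp]; exact fun m => (mem_sdiff.1 m).2 (mem_union_left _ k1))
      simpa using a
    | @tail a b k3 k4 ih =>
      have ha : a ∈ P := by
        rcases k3.cases_tail with rfl | ⟨c, -, m⟩
        exacts [k0, m.2]
      obtain ⟨⟨d', rfl⟩, -⟩ := k4
      have he : inc a d' ∈ ebox n :=
        inc_mem_ebox.2 ⟨(mem_sdiff.1 (hP.sub ha)).1, (mem_sdiff.1 (hP.sub hu)).1⟩
      exact (ih ha).step he fun m => (mem_sdiff.1 m).2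
        (mem_union_right _ (mem_inter.2 ⟨inc_mem_einc.2 (Or.inl ha), he⟩))
  refine ⟨sdiff_subset.trans (eS_subset n S),
    fun e he => hS.good.sc_eS.top e (mem_sdiff.1 he).1, fun e he he' => ?_⟩
  have key : TopConn n (eS n S \ Dl n Lf P) (ea e) ∨ TopConn n (eS n S \ Dl n Lf P) (eb e) := by
    by_cases k : e ∈ eS n S
    · have k1 : e ∈ Dl n Lf P := by
        by_contra m
        exact he' (mem_sdiff.2 ⟨k, m⟩)
      rcases mem_union.1 k1 with m | m
      · exact (hS.lf e m).2.imp (fun a => h0 _ (mem_sdiff.1 a).1) fun a => h0 _ (mem_sdiff.1 a).1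
      · exact (mem_einc.1 (mem_inter.1 m).1).imp (h1 _) (h1 _)
    · exact Or.inl ((hS.good.sc_eS.conn e he k).mono sdiff_subset)
  exact key.elim id (TopConn.edge he he').2

theorem dec2_sub (hS : Str2 n S T Lf Rg) (hP : Valid n S Lf Rg P) (hP' : Valid n S Lf Rg P')
    {η : Finset Edge} (h : ∀ e ∈ Dl n Lf P, e ∈ η → e ∈ lam n Lf P) (h' : lam n Lf P' ⊆ η) :
    P ⊆ P' := by
  intro u hu
  obtain ⟨u0, k0, ⟨d, k1⟩, k2⟩ := hP.conn u hu
  induction k2 with
  | refl =>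
    have a1 := dec2_other hS (mem_sdiff.1 (hP.sub k0)).2 k1
    have a2 : u0 + d.vec ∉ P := fun m => (mem_sdiff.1 (hP.sub m)).2 a1
    have a3 : u0 + d.vec ∉ P' := fun m => (mem_sdiff.1 (hP'.sub m)).2 a1
    have a4 := dec2_lf_ebox hS k1
    have a5 : inc u0 d ∉ lam n Lf P' := fun m => by
      have := h _ (mem_union_left _ k1) (h' m)
      simp only [lam, mem_symmDiff, mem_inter, inc_mem_cut] at this
      grind
    simp only [lam, mem_symmDiff, mem_inter, inc_mem_cut] at a5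
    grind
  | @tail a b k3 k4 ih =>
    have ha : a ∈ P := by
      rcases k3.cases_tail with rfl | ⟨c, -, m⟩
      exacts [k0, m.2]
    obtain ⟨⟨d', rfl⟩, -⟩ := k4
    have ha' := ih ha
    have he : inc a d' ∈ ebox n :=
      inc_mem_ebox.2 ⟨(mem_sdiff.1 (hP.sub ha)).1, (mem_sdiff.1 (hP.sub hu)).1⟩
    have a1 : inc a d' ∉ Lf := fun m =>
      (mem_sdiff.1 (hP.sub hu)).2 (dec2_other hS (mem_sdiff.1 (hP.sub ha)).2 m)
    have a5 : inc a d' ∉ lam n Lf P' := fun m => by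
      have := h _ (mem_union_right _ (mem_inter.2 ⟨inc_mem_einc.2 (Or.inl ha), he⟩)) (h' m)
      simp only [lam, mem_symmDiff, mem_inter, inc_mem_cut] at this
      grind
    simp only [lam, mem_symmDiff, mem_inter, inc_mem_cut] at a5
    grind

theorem dec2_sum (hS : Str2 n S T Lf Rg) {A1 : Set Pt} (hA : Src n Lf A1) {E : Finset Edge}
    {F : Finset (Finset Pt)} (hF : ∀ P ∈ F, Valid n S Lf Rg P ∧ lam n Lf P ⊆ E) :
    ∑ P ∈ F, xc ^ (lam n Lf P).card * Zs n ∅ (E \ Dl n Lf P) ≤ Zs n A1 E := by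
  have hd : ∀ (P : Finset Pt) (η : Finset Edge), η ⊆ E \ Dl n Lf P → Disjoint (lam n Lf P) η :=
    fun P η h => disjoint_left.2 fun e a b => (mem_sdiff.1 (h b)).2 (dec2_lam_sub a)
  simp only [Zs_eq_filter, mul_sum]
  rw [sum_sigma']
  have e1 : ∀ x ∈ F.sigma fun P => (E \ Dl n Lf P).powerset.filter fun η => Src n η ∅,
      xc ^ (lam n Lf x.1).card * xc ^ x.2.card = xc ^ (lam n Lf x.1 ∪ x.2).card := by
    intro x hx
    rw [← pow_add, card_union_of_disjoint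
      (hd _ _ (mem_powerset.1 (mem_filter.1 (mem_sigma.1 hx).2).1))]
  rw [sum_congr rfl e1, ← sum_image (g := fun x : Σ _ : Finset Pt, Finset Edge =>
    lam n Lf x.1 ∪ x.2) (f := fun η => xc ^ η.card)]
  · refine sum_le_sum_of_subset_of_nonneg ?_ fun _ _ _ => (pow_pos xc_pos _).le
    intro η hη
    obtain ⟨⟨P, η'⟩, hx, rfl⟩ := mem_image.1 hη
    obtain ⟨h1, h2⟩ := mem_sigma.1 hx
    obtain ⟨h3, h4⟩ := mem_filter.1 h2
    have h5 := mem_powerset.1 h3
    refine mem_filter.2 ⟨mem_powerset.2 (union_subset (hF P h1).2 (h5.trans sdiff_subset)), ?_⟩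
    have h6 : lam n Lf P ∪ η' = symmDiff (lam n Lf P) η' := (hd P η' h5).symmDiff_eq_sup.symm
    simp only
    rw [h6]
    exact (((src_cut n P).symmDiff hA).symmDiff h4).congr fun p _ => by
      simp
  · rintro ⟨P, η⟩ hx ⟨P', η'⟩ hx' e
    obtain ⟨h1, h2⟩ := mem_sigma.1 (mem_coe.1 hx)
    obtain ⟨h1', h2'⟩ := mem_sigma.1 (mem_coe.1 hx')
    have h3 := mem_powerset.1 (mem_filter.1 h2).1
    have h3' := mem_powerset.1 (mem_filter.1 h2').1
    simp only at e h1 h1' h3 h3'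
    have a1 : P ⊆ P' := dec2_sub hS (hF P h1).1 (hF P' h1').1 (η := lam n Lf P ∪ η)
      (fun f k m => (mem_union.1 m).resolve_right fun a => (mem_sdiff.1 (h3 a)).2 k)
      (e ▸ subset_union_left)
    have a2 : P' ⊆ P := dec2_sub hS (hF P' h1').1 (hF P h1).1 (η := lam n Lf P' ∪ η')
      (fun f k m => (mem_union.1 m).resolve_right fun a => (mem_sdiff.1 (h3' a)).2 k)
      (e ▸ subset_union_left)
    obtain rfl := Subset.antisymm a1 a2
    have a3 : η = η' := by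
      rw [← union_sdiff_cancel_left (hd P η h3), e, union_sdiff_cancel_left (hd P η' h3')]
    rw [a3]

theorem t_dec2 (h : T_LSM) : T_DEC2 := by
  intro n S T Lf Rg A1 hn hS hA
  refine ⟨fun P hP => dec2_sc hS hP, fun E F hE hsc hF => ?_⟩
  rw [le_div_iff₀ (Zs_pos n E), sum_mul]
  refine le_trans (sum_le_sum fun P hP => ?_) (dec2_sum hS hA hF)
  have h1 := h n (eS n S) (eS n S \ Dl n Lf P) E hn hS.good.sc_eS (dec2_sc hS (hF P hP).1) hsc
    sdiff_subset hE
  have h2 : eS n S \ Dl n Lf P ∩ E = E \ Dl n Lf P := by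
    ext e
    have := @hE e
    simp only [mem_inter, mem_sdiff]
    grind
  rw [h2] at h1
  rw [qP, div_mul_eq_mul_div, div_le_iff₀ (Zs_pos n _), mul_assoc, mul_assoc]
  exact mul_le_mul_of_nonneg_left (by linarith) (pow_pos xc_pos _).le

end Pool.Agent.P.MP_347bd1_pr.M

namespace Pool.Agent.P.MP_347bd1_pr.M

open Classical Finset

open scoped ENNReal NNReal

/-- Expectation with respect to a random subset of `u`. -/
noncomputable def russo_ex (u : Finset Pt) (F : Finset Pt → ℝ) (s : ℝ) : ℝ :=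
  ∑ A ∈ u.powerset, s ^ A.card * (1 - s) ^ (u \ A).card * F A

/-- The total influence. -/
noncomputable def russo_D (u : Finset Pt) (F : Finset Pt → ℝ) (A : Finset Pt) : ℝ :=
  ∑ p ∈ u, (F (insert p A) - F (A.erase p))

theorem russo_congr {u : Finset Pt} {F G : Finset Pt → ℝ} (h : ∀ A ⊆ u, F A = G A) (s : ℝ) :
    russo_ex u F s = russo_ex u G s :=
  sum_congr rfl fun A hA => by rw [h A (mem_powerset.1 hA)]

theorem russo_lin (u : Finset Pt) (F G H : Finset Pt → ℝ) (s : ℝ) :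
    russo_ex u (fun A => F A - G A + H A) s = russo_ex u F s - russo_ex u G s + russo_ex u H s := by
  simp only [russo_ex, ← sum_sub_distrib, ← sum_add_distrib]
  exact sum_congr rfl fun A _ => by ring

theorem russo_insert {u : Finset Pt} {p : Pt} (hp : p ∉ u) (F : Finset Pt → ℝ) (s : ℝ) :
    russo_ex (insert p u) F s =
      (1 - s) * russo_ex u F s + s * russo_ex u (fun A => F (insert p A)) s := by
  simp only [russo_ex]
  rw [sum_powerset_insert hp, mul_sum, mul_sum]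
  congr 1
  · refine sum_congr rfl fun A hA => ?_
    have h1 : p ∉ A := fun k => hp (mem_powerset.1 hA k)
    rw [insert_sdiff_of_notMem _ h1, card_insert_of_notMem fun k => hp (mem_sdiff.1 k).1]
    ring
  · refine sum_congr rfl fun A hA => ?_
    have h1 : p ∉ A := fun k => hp (mem_powerset.1 hA k)
    rw [insert_sdiff_insert, sdiff_insert_of_notMem hp, card_insert_of_notMem h1]
    ring

theorem russo_ends (u : Finset Pt) : ∀ F, russo_ex u F 0 = F ∅ ∧ russo_ex u F 1 = F u := by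
  induction u using Finset.induction_on with
  | empty => intro F; simp [russo_ex]
  | insert p u hp ih =>
    intro F
    rw [russo_insert hp, russo_insert hp, (ih _).1, (ih _).1, (ih _).2, (ih _).2]
    simp

theorem russo_le (u : Finset Pt) {s δ : ℝ} (h0 : 0 ≤ s) (h1 : s ≤ 1) :
    ∀ F, (∀ A ⊆ u, F A ≤ δ) → russo_ex u F s ≤ δ := by
  induction u using Finset.induction_on with
  | empty => intro F h; simpa [russo_ex] using h ∅ Subset.rfl
  | insert p u hp ih =>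
    intro F h
    rw [russo_insert hp]
    have a := ih F fun A hA => h A (hA.trans (subset_insert _ _))
    have b := ih (fun A => F (insert p A)) fun A hA => h _ (insert_subset_insert _ hA)
    nlinarith

theorem russo_deriv (u : Finset Pt) (s : ℝ) :
    ∀ F, HasDerivAt (russo_ex u F) (russo_ex u (russo_D u F) s) s := by
  induction u using Finset.induction_on with
  | empty =>
    intro F
    have e : russo_ex ∅ F = fun _ => F ∅ := by ext s; simp [russo_ex]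
    have e' : russo_ex ∅ (russo_D ∅ F) s = 0 := by simp [russo_ex, russo_D]
    rw [e, e']
    exact hasDerivAt_const _ _
  | insert p u hp ih =>
    intro F
    have e : russo_ex (insert p u) F = fun s =>
        (1 - s) * russo_ex u F s + s * russo_ex u (fun A => F (insert p A)) s :=
      funext fun s => russo_insert hp F s
    have e1 : russo_ex u (russo_D (insert p u) F) s =
        russo_ex u (fun A => F (insert p A) - F A + russo_D u F A) s := by
      refine russo_congr (fun A hA => ?_) s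
      rw [russo_D, sum_insert hp, erase_eq_of_notMem fun k => hp (hA k)]
      rfl
    have e2 : russo_ex u (fun A => russo_D (insert p u) F (insert p A)) s =
        russo_ex u (fun A => F (insert p A) - F A + russo_D u (fun A => F (insert p A)) A) s := by
      refine russo_congr (fun A hA => ?_) s
      rw [russo_D, sum_insert hp, erase_insert fun k => hp (hA k), insert_eq_of_mem
        (mem_insert_self p A)]
      congr 1
      refine sum_congr rfl fun q hq => ?_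
      have : p ≠ q := fun k => hp (k ▸ hq)
      rw [Finset.insert_comm, erase_insert_of_ne this]
    rw [e, russo_insert hp, e1, e2, russo_lin, russo_lin]
    refine ((((hasDerivAt_id' s).const_sub 1).fun_mul (ih F)).fun_add
      ((hasDerivAt_id' s).fun_mul (ih fun A => F (insert p A)))).congr_deriv ?_
    ring

theorem russo_abs (u : Finset Pt) (F : Finset Pt → ℝ) {δ : ℝ} (h : ∀ A ⊆ u, russo_D u F A ≤ δ) :
    F u - F ∅ ≤ δ := by
  obtain ⟨c, hc, e⟩ := exists_hasDerivAt_eq_slope (russo_ex u F) (russo_ex u (russo_D u F))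
    zero_lt_one (fun s _ => (russo_deriv u s F).continuousAt.continuousWithinAt)
    fun s _ => russo_deriv u s F
  rw [(russo_ends u F).1, (russo_ends u F).2, sub_zero, div_one] at e
  rw [← e]
  exact russo_le u hc.1.le hc.2.le _ h

/-- `a` and `b` are opposite corners of `p`. -/
def russo_Dg (p a b : Pt) : Prop :=
  |a.1 - b.1| = 1 ∧ |a.2 - b.2| = 1 ∧ (min a.1 b.1, min a.2 b.2) = p

theorem russo_tb {n : ℕ} {ξ ξ' : Pt → Bool} {M M' : Finset Pt} (hM : M ⊆ M')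
    (h : ∀ a ∈ M, ∀ b ∈ M, ∀ p, russo_Dg p a b → ξ p = false →
      ξ' p = false ∨ ∃ c ∈ M', NN a c ∧ NN c b) (k : TB n ξ M) : TB n ξ' M' := by
  obtain ⟨a, b, h1, h2, h3, h4⟩ := k
  refine ⟨a, b, hM h1, h2, h3, ?_⟩
  clear h3
  have : b ∈ M ∧ Relation.ReflTransGen (fun u w => Lk ξ' false u w ∧ w ∈ M') a b := by
    induction h4 with
    | refl => exact ⟨h1, .refl⟩
    | tail _ k ih =>
      refine ⟨k.2, ?_⟩
      rcases k.1 with k1 | ⟨k1, k2, k3⟩
      · exact ih.2.tail ⟨.inl k1, hM k.2⟩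
      · rcases h _ ih.1 _ k.2 _ ⟨k1, k2, rfl⟩ k3 with k4 | ⟨c, k4, k5, k6⟩
        · exact ih.2.tail ⟨.inr ⟨k1, k2, k4⟩, hM k.2⟩
        · exact (ih.2.tail ⟨.inl k5, k4⟩).tail ⟨.inl k6, hM k.2⟩
  exact this.2

theorem russo_dg_iff {p a b : Pt} : russo_Dg p a b ↔ (a.1 - b.1 = 1 ∨ a.1 - b.1 = -1) ∧
    (a.2 - b.2 = 1 ∨ a.2 - b.2 = -1) ∧ min a.1 b.1 = p.1 ∧ min a.2 b.2 = p.2 := by
  rw [russo_Dg, abs_eq zero_le_one, abs_eq zero_le_one, Prod.ext_iff]

theorem russo_dg_intr {n : ℕ} {p a b : Pt} (h : russo_Dg p a b) (ha : a ∈ box n) (hb : b ∈ box n) :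
    p ∈ intr n := by
  rw [russo_dg_iff] at h
  rw [mem_box] at ha hb
  rw [mem_intr]
  omega

theorem russo_dg_nn {p a b : Pt} (h : russo_Dg p a b) :
    NN a (a.1, b.2) ∧ NN (a.1, b.2) b ∧ Corner p a ∧ Corner p (a.1, b.2) := by
  rw [russo_dg_iff] at h
  simp only [NN, Dir.exists_iff, Dir.vec, Corner, Prod.ext_iff, Prod.fst_add, Prod.snd_add]
  omega

theorem russo_one {x y x' y' m : ℤ} (h1 : x - y = 1 ∨ x - y = -1) (h2 : min x y = m)
    (h3 : x' - y' = 1 ∨ x' - y' = -1) (h4 : min x' y' = m) :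
    (x' = x ∧ y' = y) ∨ (x' = y ∧ y' = x) := by
  omega

theorem russo_dg_two {p a b a' b' : Pt} (h : russo_Dg p a b) (h' : russo_Dg p a' b') :
    (a' = a ∧ b' = b) ∨ (a' = b ∧ b' = a) ∨ a' = (a.1, b.2) ∨ b' = (a.1, b.2) := by
  rw [russo_dg_iff] at h h'
  rcases russo_one h.1 h.2.2.1 h'.1 h'.2.2.1 with e1 | e1 <;>
    rcases russo_one h.2.1 h.2.2.2 h'.2.1 h'.2.2.2 with e2 | e2
  · exact .inl ⟨Prod.ext e1.1 e2.1, Prod.ext e1.2 e2.2⟩
  · exact .inr (.inr (.inl (Prod.ext e1.1 e2.1)))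
  · exact .inr (.inr (.inr (Prod.ext e1.2 e2.2)))
  · exact .inr (.inl ⟨Prod.ext e1.1 e2.1, Prod.ext e1.2 e2.2⟩)

theorem russo_piv {n : ℕ} {A M : Finset Pt} {p : Pt}
    (h1 : ¬ TB n (fun q => decide (q ∈ insert p A)) M)
    (h0 : TB n (fun q => decide (q ∈ A.erase p)) M) :
    ∃ z, Corner p z ∧ Piv n (fun q => decide (q ∈ A)) M z := by
  have tr : ∀ M1 M2 : Finset Pt, M1 ⊆ M2 →
      (∀ a ∈ M1, ∀ b ∈ M1, russo_Dg p a b → ∃ c ∈ M2, NN a c ∧ NN c b) →
      TB n (fun q => decide (q ∈ A.erase p)) M1 → TB n (fun q => decide (q ∈ insert p A)) M2 := by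
    intro M1 M2 hM h
    refine russo_tb hM fun a ha b hb q hq k => ?_
    by_cases e : q = p
    · exact .inr (h a ha b hb (e ▸ hq))
    · left
      simpa [e] using k
  obtain ⟨a, ha, b, hb, hd, hc⟩ : ∃ a ∈ M, ∃ b ∈ M, russo_Dg p a b ∧
      ¬ ∃ c ∈ M, NN a c ∧ NN c b := by
    by_contra k
    refine h1 (tr M M Subset.rfl (fun a ha b hb hd => ?_) h0)
    by_contra k'
    exact k ⟨a, ha, b, hb, hd, k'⟩
  obtain ⟨n1, n2, c1, c2⟩ := russo_dg_nn hd
  have hc' : (a.1, b.2) ∉ M := fun k => hc ⟨_, k, n1, n2⟩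
  by_cases hp : p ∈ A
  · rw [insert_eq_of_mem hp] at h1 tr
    refine ⟨_, c2, fun k => h1 ?_⟩
    rw [erase_eq_of_notMem hc'] at k
    refine k.1 (tr M _ (subset_insert _ _) (fun a' ha' b' hb' hd' => ?_) h0)
    rcases russo_dg_two hd hd' with ⟨rfl, rfl⟩ | ⟨rfl, rfl⟩ | e | e
    · exact ⟨_, mem_insert_self _ _, n1, n2⟩
    · exact ⟨_, mem_insert_self _ _, n2.symm, n1.symm⟩
    · exact absurd (e ▸ ha') hc'
    · exact absurd (e ▸ hb') hc'
  · rw [erase_eq_of_notMem hp] at h0 tr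
    refine ⟨a, c1, fun k => h1 ?_⟩
    rw [insert_eq_of_mem ha] at k
    refine tr _ M (erase_subset a M) (fun a' ha' b' hb' hd' => ?_) (k.1 h0)
    rcases russo_dg_two hd hd' with ⟨e, -⟩ | ⟨-, e⟩ | e | e
    · exact absurd e (ne_of_mem_erase ha')
    · exact absurd e (ne_of_mem_erase hb')
    · exact absurd (e ▸ mem_of_mem_erase ha') hc'
    · exact absurd (e ▸ mem_of_mem_erase hb') hc'

theorem russo_shift {n : ℕ} (f : Pt → ℝ) (hf : ∀ z, 0 ≤ f z) (d : Pt)
    (hd : ∀ p, Corner p (p + d)) : ∑ p ∈ intr n, f (p + d) ≤ ∑ z ∈ box n, f z := by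
  rw [← sum_image (s := intr n) (g := fun p => p + d) (f := f)
    fun _ _ _ _ k => add_right_cancel k]
  refine sum_le_sum_of_subset_of_nonneg (fun z hz => ?_) fun z _ _ => hf z
  obtain ⟨p, hp, rfl⟩ := mem_image.1 hz
  exact (hd p).mem_box hp

theorem t_russo (h : T_HEX) : T_RUSSO := by
  intro n ε hn hε
  have key := russo_abs (intr n) (fun A => Pf n fun M => ¬ TB n (fun q => decide (q ∈ A)) M)
    (δ := 4 * ε) fun A _ => by
      set f : Pt → ℝ := fun z => Pf n fun M => Piv n (fun q => decide (q ∈ A)) M z with hf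
      have hf0 : ∀ z, 0 ≤ f z := fun z => Pr_nonneg
      have hs : ∑ z ∈ box n, f z ≤ ε := hε _
      have a1 := russo_shift (n := n) f hf0 (0, 0) fun p => by simp [Corner]
      have a2 := russo_shift (n := n) f hf0 (1, 0) fun p => by simp [Corner]
      have a3 := russo_shift (n := n) f hf0 (0, 1) fun p => by simp [Corner]
      have a4 := russo_shift (n := n) f hf0 (1, 1) fun p => by simp [Corner]
      refine le_trans (sum_le_sum (g := fun p =>
        f (p + (0, 0)) + (f (p + (1, 0)) + (f (p + (0, 1)) + f (p + (1, 1))))) fun p _ => ?_) ?_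
      · have b1 := Pr_add_not (F := ebox n) (U := box n) (T := ∅)
          (fun M => ¬ TB n (fun q => decide (q ∈ insert p A)) M)
          fun M => TB n (fun q => decide (q ∈ A.erase p)) M
        have b2 : Pf n (fun M => ¬ TB n (fun q => decide (q ∈ insert p A)) M ∧
            ¬ TB n (fun q => decide (q ∈ A.erase p)) M) ≤
            Pf n fun M => ¬ TB n (fun q => decide (q ∈ A.erase p)) M := Pr_mono fun M _ k => k.2
        have b3 : Pf n (fun M => ¬ TB n (fun q => decide (q ∈ insert p A)) M ∧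
            TB n (fun q => decide (q ∈ A.erase p)) M) ≤
            f (p + (0, 0)) + (f (p + (1, 0)) + (f (p + (0, 1)) + f (p + (1, 1)))) := by
          refine le_trans (Pr_mono fun M _ k => ?_) (Pr_or_le.trans (add_le_add le_rfl
            (Pr_or_le.trans (add_le_add le_rfl Pr_or_le))))
          obtain ⟨z, ⟨c1, c2⟩, hz⟩ := russo_piv k.1 k.2
          rcases c1 with c1 | c1 <;> rcases c2 with c2 | c2
          · exact .inl ((show z = p + (0, 0) from Prod.ext (by simpa) (by simpa)) ▸ hz)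
          · exact .inr (.inr (.inl
              ((show z = p + (0, 1) from Prod.ext (by simpa) (by simpa)) ▸ hz)))
          · exact .inr (.inl ((show z = p + (1, 0) from Prod.ext (by simpa) (by simpa)) ▸ hz))
          · exact .inr (.inr (.inr
              ((show z = p + (1, 1) from Prod.ext (by simpa) (by simpa)) ▸ hz)))
        simp only [Pf] at b1 b2 b3 ⊢
        linarith
      · simp only [sum_add_distrib]
        linarith
  have e1 : Pf n (LR n fun _ => true) =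
      Pf n fun M => ¬ TB n (fun q => decide (q ∈ intr n)) M := by
    refine Pr_congr fun M hM => (h n _ M hn hM).trans (not_congr ⟨?_, ?_⟩)
    · exact russo_tb Subset.rfl fun a _ b _ p _ k => by simp at k
    · refine russo_tb Subset.rfl fun a ha b hb p hp k => ?_
      simp [russo_dg_intr hp (hM ha) (hM hb)] at k
  have e2 : Pf n (LR n fun _ => false) =
      Pf n fun M => ¬ TB n (fun q => decide (q ∈ (∅ : Finset Pt))) M := by
    refine Pr_congr fun M hM => (h n _ M hn hM).trans ?_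
    simp
  have e3 : 0 ≤ ε := le_trans (sum_nonneg fun z _ => Pr_nonneg) (hε fun _ => true)
  rw [e1, e2]
  linarith

end Pool.Agent.P.MP_347bd1_pr.M

namespace Pool.Agent.P.MP_347bd1_pr.M

open Classical Finset

open scoped ENNReal NNReal

theorem ts_amgm {G h t : ℝ} (ht : 0 < t) (hG : G ^ 2 ≤ h) : G ≤ t / 2 + 1 / (2 * t) * h := by
  have e : t / 2 + 1 / (2 * t) * h = (t ^ 2 + h) / (2 * t) := by field_simp
  rw [e, le_div_iff₀ (by positivity)]
  nlinarith [sq_nonneg (G - t)]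

theorem ts_Dl {n : ℕ} {S T P : Finset Pt} {Lf Rg : Finset Edge} (h : Str2 n S T Lf Rg)
    (hP : Valid n S Lf Rg P) : Dl n Lf P ⊆ eS n S := by
  intro e he
  rcases mem_union.1 he with k | k
  · exact (h.lf e k).1
  · obtain ⟨k1, k2⟩ := mem_inter.1 k
    exact mem_eS.2 ⟨k2, (mem_einc.1 k1).imp (fun a => (mem_sdiff.1 (hP.sub a)).2)
      fun a => (mem_sdiff.1 (hP.sub a)).2⟩

theorem ts_lam {n : ℕ} {S T P : Finset Pt} {Lf Rg : Finset Edge} (h : Str2 n S T Lf Rg)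
    (hP : Valid n S Lf Rg P) : lam n Lf P ⊆ eS n S := by
  intro e he
  refine ts_Dl h hP ?_
  rcases mem_symmDiff.1 he with k | k
  · obtain ⟨k1, k2⟩ := mem_inter.1 k.1
    exact mem_union_right _ (mem_inter.2 ⟨filter_subset _ _ k1, k2⟩)
  · exact mem_union_left _ k.1

theorem ts_swap {ι : Type} (F : Finset ι) {q : ι → ℝ} (hq : ∀ P, 0 ≤ q P) (A : ι → List Dir → Prop)
    (R G : List Dir → Prop) (a b : ℝ≥0∞) (g : List Dir → ℝ≥0∞)
    (h1 : ∀ P ∈ F, ∀ W, A P W → R W ∧ G W)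
    (h2 : ∀ W, R W → G W → ENNReal.ofReal (∑ P ∈ F.filter fun P => A P W, q P) ≤ a + b * g W) :
    ∑ P ∈ F, ENNReal.ofReal (q P) * ms (A P) ≤
      a * ms R + b * ∑' W, if R W ∧ G W then wt W * g W else 0 := by
  simp only [ms, ← ENNReal.tsum_mul_left]
  rw [← ENNReal.tsum_add, ← Summable.tsum_finsetSum fun _ _ => ENNReal.summable]
  refine ENNReal.tsum_le_tsum fun W => ?_
  by_cases k : R W ∧ G W
  · have e : ∑ P ∈ F, (ENNReal.ofReal (q P) * if A P W then wt W else 0) =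
        ENNReal.ofReal (∑ P ∈ F.filter fun P => A P W, q P) * wt W := by
      rw [ENNReal.ofReal_sum_of_nonneg fun P _ => hq P, sum_mul, sum_filter]
      exact sum_congr rfl fun P _ => by split_ifs <;> simp
    rw [e, if_pos k, if_pos k.1]
    refine (mul_le_mul_left (h2 W k.1 k.2) _).trans (le_of_eq ?_)
    ring
  · rw [sum_eq_zero fun P hP => by rw [if_neg fun m => k (h1 P hP W m), mul_zero]]
    exact zero_le

end Pool.Agent.P.MP_347bd1_pr.M

namespace Pool.Agent.P.MP_347bd1_pr.M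

open Classical Finset

open scoped ENNReal NNReal

theorem kc1_prod (η Γ : Finset Edge) :
    (-1 : ℝ) ^ (η ∩ Γ).card = ∏ e ∈ η, if e ∈ Γ then -1 else 1 := by
  rw [prod_ite_mem, prod_const]

theorem kc1_symm (η Γ Γ' : Finset Edge) :
    (-1 : ℝ) ^ (η ∩ symmDiff Γ Γ').card = (-1) ^ (η ∩ Γ).card * (-1) ^ (η ∩ Γ').card := by
  simp only [kc1_prod, ← prod_mul_distrib]
  refine prod_congr rfl fun e _ => ?_
  by_cases h : e ∈ Γ <;> by_cases h' : e ∈ Γ' <;> simp [mem_symmDiff, h, h']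

theorem kc1_ins {η : Finset Edge} {e : Edge} (he : e ∉ η) (Γ : Finset Edge) :
    (-1 : ℝ) ^ (insert e η ∩ Γ).card = (if e ∈ Γ then -1 else 1) * (-1) ^ (η ∩ Γ).card := by
  rw [kc1_prod, kc1_prod, prod_insert he]

theorem kc1_off {η : Finset Edge} {e : Edge} (he : e ∉ η) (Γ : Finset Edge) :
    η ∩ symmDiff Γ {e} = η ∩ Γ := by
  ext x
  by_cases k : x = e
  · simp [k, he]
  · simp [mem_symmDiff, k]

theorem kc1_deg (η : Finset Edge) (q : Pt) : (η ∩ univ.image (cr q)).card = deg η q := by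
  have hi : Function.Injective (cr q) := fun d d' k => by
    rcases cr_eq_iff.1 k with k | k
    · exact k.2
    · exact absurd (by simpa using k.1) d'.vec_ne_zero
  rw [deg, ← card_image_of_injective _ hi]
  congr 1
  ext e
  simp only [mem_inter, mem_image, mem_univ, true_and, mem_filter]
  constructor
  · rintro ⟨k, d, rfl⟩
    exact ⟨d, k, rfl⟩
  · rintro ⟨d, k, rfl⟩
    exact ⟨k, d, rfl⟩

theorem kc1_mem_ray {n : ℕ} {w : Pt} {e : Edge} :
    e ∈ ray n w ↔ e.2 = false ∧ e.1.1 = w.1 ∧ w.2 ≤ e.1.2 ∧ e.1.2 < n := by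
  obtain ⟨⟨a, b⟩, c⟩ := e
  simp only [ray, mem_image, mem_Ico, Prod.mk.injEq]
  constructor
  · rintro ⟨j, h, ⟨rfl, rfl⟩, rfl⟩
    exact ⟨rfl, rfl, h⟩
  · rintro ⟨rfl, rfl, h⟩
    exact ⟨b, h, ⟨rfl, rfl⟩, rfl⟩

end Pool.Agent.P.MP_347bd1_pr.M
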