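import Pool.Agent.P.MP_347bd1_pr.Stmts2

/-! Tools from the fixed time result that are used again (part 3). -/

namespace Pool.Agent.P.MP_347bd1_pr.M

open Classical Finset

open scoped ENNReal NNReal

theorem nig_ring {n : ℕ} {w : Pt} {d : Dir} (h : w ∈ box n) (h' : w + d.vec ∉ box n) :
    OnRing n w := by
  rw [mem_box] at h h'
  unfold OnRing
  cases d <;> simp [Dir.vec] at h' <;> omega

theorem nig_corner_ring {n : ℕ} {p w : Pt} (hp : p ∉ intr n) (h : Corner p w) (hw : w ∈ box n) :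
    OnRing n w := by
  rw [mem_box] at hw
  rw [mem_intr] at hp
  unfold OnRing
  obtain ⟨h1, h2⟩ := h
  omega

theorem nig_out {n : ℕ} {p : Pt} (hp : p ∉ intr n) : ∃ a, a ∉ box n ∧ nrm (a - p) ≤ 1 := by
  by_cases h : p ∈ box n
  · refine ⟨p + (1, 1), ?_, ?_⟩
    · rw [mem_box] at h ⊢
      rw [mem_intr] at hp
      simp only [Prod.fst_add, Prod.snd_add]
      omega
    · simp [nrm]
  · exact ⟨p, h, by simp⟩

theorem nig_corner_inc {z w : Pt} {d d' : Dir} (h : cr z d' = inc w d) : nrm (w - z) ≤ 1 := by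
  have h1 := corner_cr z d'
  rw [h] at h1
  rcases ends_inc w d with k | k
  · exact (k.1 ▸ h1.1 : Corner z w).nrm_le
  · exact (k.2 ▸ h1.2 : Corner z w).nrm_le

theorem nig_conn {F : Finset Edge} {D : Finset Pt} (h : ∀ e ∈ F, e ∉ cut D) {a b : Pt}
    (k : Conn F a b) : a ∈ D ↔ b ∈ D := by
  induction k with
  | refl => rfl
  | tail _ k ih =>
    obtain ⟨d, k1, rfl⟩ := k
    have := h _ k1
    rw [inc_mem_cut, not_not] at this
    exact ih.trans this

theorem nig_path {D : Finset Pt} {c : Pt} {ρ : ℤ} (hc : c ∈ D) (k : ℕ) :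
    ∀ a, a ∉ D → nrm (a - c) ≤ ρ → (a.1 - c.1).natAbs + (a.2 - c.2).natAbs ≤ k →
      ∃ (b : Pt) (d : Dir), b ∈ D ∧ b + d.vec ∉ D ∧ nrm (b - c) ≤ ρ := by
  induction k with
  | zero =>
    intro a ha _ hk
    have : a = c := Prod.ext (by omega) (by omega)
    exact absurd (this ▸ hc) ha
  | succ k ih =>
    intro a ha hρ hk
    have hne : a ≠ c := fun e => ha (e ▸ hc)
    have key : ∃ d : Dir, nrm (a + d.vec - c) ≤ ρ ∧
        ((a + d.vec).1 - c.1).natAbs + ((a + d.vec).2 - c.2).natAbs ≤ k := by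
      rw [Dir.exists_iff]
      have hne' : a.1 ≠ c.1 ∨ a.2 ≠ c.2 := by
        by_contra hh
        exact hne (Prod.ext (by omega) (by omega))
      simp only [nrm_le_iff, Dir.vec, Prod.fst_add, Prod.snd_add, Prod.fst_sub, Prod.snd_sub] at hρ ⊢
      omega
    obtain ⟨d, h1, h2⟩ := key
    by_cases hd : a + d.vec ∈ D
    · exact ⟨a + d.vec, d.opp, hd, by simpa using ha, h1⟩
    · exact ih _ hd h1 h2

theorem nig_side (h1 : T_POIN) {n : ℕ} {S : Finset Pt} {X η : Finset Edge} {v : Pt} {R : ℤ}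
    (hL : Loc n S X v R) (hη : η ⊆ ebox n) (hη' : η ⊆ eS n S ∪ X) (hs : Src n η ∅) :
    ∃ D ⊆ box n, (∀ w ∈ S, nrm (w - v) ≤ R → w ∉ D) ∧
      ∀ e, nrm (ea e - v) ≤ R → nrm (eb e - v) ≤ R → (¬ (ea e ∈ D ↔ eb e ∈ D) ↔ e ∈ η) := by
  have main : ∃ D ⊆ box n, (∀ w ∈ S, nrm (w - v) ≤ R → w ∉ D) ∧
      ∀ e ∈ ebox n, (e ∈ cut D ↔ e ∈ η) := by
    obtain ⟨D, hD, hc, -⟩ := h1 n η hη hs
    have hc' : ∀ e ∈ ebox n, (e ∈ cut D ↔ e ∈ η) := fun e he => by
      rw [← hc, mem_inter]; exact ⟨fun k => ⟨k, he⟩, fun k => k.1⟩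
    by_cases hw : ∃ w ∈ S, nrm (w - v) ≤ R ∧ w ∈ D
    · obtain ⟨w0, k1, k2, k3⟩ := hw
      refine ⟨box n \ D, sdiff_subset, fun w k4 k5 k6 => (mem_sdiff.1 k6).2 ?_, fun e he => ?_⟩
      · refine (nig_conn (fun e he k => ?_) (hL.conn w0 k1 w k4 k2 k5)).1 k3
        rw [mem_sdiff] at he
        exact he.2 (hη' ((hc' e he.1).1 k))
      · rw [← hc' e he, mem_cut, mem_cut, mem_sdiff, mem_sdiff]
        have := mem_ebox.1 he
        grind
    · exact ⟨D, hD, fun w k1 k2 k3 => hw ⟨w, k1, k2, k3⟩, hc'⟩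
  obtain ⟨D, hD, ha, hc⟩ := main
  refine ⟨D, hD, ha, fun e k1 k2 => ?_⟩
  by_cases he : e ∈ ebox n
  · rw [← mem_cut]; exact hc e he
  · have a1 : ea e ∉ D := fun k => by
      obtain ⟨d, -, hd⟩ := exists_inc e
      refine ha _ (hL.ring _ (hD k) k1 (nig_ring (d := d) (hD k) fun k' => he ?_)) k1 k
      exact mem_ebox.2 ⟨hD k, hd ▸ k'⟩
    have a2 : eb e ∉ D := fun k => by
      obtain ⟨d, -, hd⟩ := exists_inc_b e
      refine ha _ (hL.ring _ (hD k) k2 (nig_ring (d := d) (hD k) fun k' => he ?_)) k2 k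
      exact mem_ebox.2 ⟨hd ▸ k', hD k⟩
    have a3 : e ∉ η := fun k => he (hη k)
    grind

end Pool.Agent.P.MP_347bd1_pr.M

namespace Pool.Agent.P.MP_347bd1_pr.M

open Classical Finset

open scoped ENNReal NNReal

theorem kill_gen (N N' : Net) (m : ℕ) (A T : ℕ → Set Pt) (θ : ℝ≥0∞) (hle : N'.Le N)
    (hd : ∀ i < m, ∀ j < m, i ≠ j → Disjoint (A i) (A j)) (hT : ∀ j < m, T j ⊆ A j)
    (hst : ∀ j < m, ∀ z ∈ A j, ∀ d, ¬ N'.st z d)
    (hK : ∀ j < m, ∀ y ∈ T j,
      Kn N' (A j) (fun z => if z ∈ A j then 0 else hN N z) y ≤ θ * hN N y) (k : ℕ) :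
    ∀ (J : Finset ℕ) (v : Pt), (∀ j ∈ J, j < m) →
      hm N' v (fun W => k ≤ (J.filter fun j => ∃ z ∈ T j, Vis N' v W z).card) ≤
        θ ^ k * hN N v := by
  induction k with
  | zero =>
    intro J v _
    rw [pow_zero, one_mul]
    exact (hm_le_hN _ _ _).trans (hN_mono hle v)
  | succ k ih =>
    intro J v hJ
    obtain ⟨R, hR⟩ : ∃ R : Set Pt, R = {y | ∃ j ∈ J, y ∈ T j}ᶜ := ⟨_, rfl⟩
    have h1 := ms_exit_le (N := N') (R := R) (p := v)
      (C := fun W => Run N' v W ∧ k + 1 ≤ (J.filter fun j => ∃ z ∈ T j, Vis N' v W z).card)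
      (B := fun y W2 => ∃ j ∈ J, y ∈ T j ∧ ∃ W1 W3 z, W2 = W1 ++ W3 ∧ Al N' (A j) y W1 z ∧
        z ∉ A j ∧ Run N' z W3 ∧
          k ≤ ((J.erase j).filter fun i => ∃ x ∈ T i, Vis N' z W3 x).card) (by
      rintro W ⟨r1, r2⟩
      subst hR
      obtain ⟨j0, hj0⟩ := card_pos.1 (lt_of_lt_of_le (Nat.succ_pos k) r2)
      obtain ⟨j1, z0, j2, j3⟩ := mem_filter.1 hj0
      obtain ⟨W1, W2, y, rfl, a1, j, hj, hy⟩ :=
        j3.first (T := {y | ∃ j ∈ J, y ∈ T j}) ⟨j0, j1, j2⟩
      have r3 := r1.split a1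
      obtain ⟨W0, q, d, e, b1, b2⟩ := id r3
      have b3 : Vis N' y W2 q := e ▸ b1.vis_end.append_left _
      obtain ⟨W4, W3, z, rfl, c1, c2⟩ :=
        b3.first (T := (A j)ᶜ) fun hq => hst j (hJ j hj) q hq d b2
      rw [compl_compl] at c1
      refine ⟨W1, W4 ++ W3, y, rfl, a1, fun h => h ⟨j, hj, hy⟩, j, hj, hy, W4, W3, z, rfl, c1, c2,
        r3.split c1, ?_⟩
      refine le_trans (Nat.le_sub_one_of_lt r2) ((pred_card_le_card_erase (a := j)).trans
        (card_le_card fun i hi => ?_))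
      obtain ⟨i1, i2⟩ := mem_erase.1 hi
      obtain ⟨i3, x, i4, i5⟩ := mem_filter.1 i2
      have i6 : x ∉ A j := Set.disjoint_left.1 (hd i (hJ i i3) j (hJ j hj) i1) (hT i (hJ i i3) i4)
      refine mem_filter.2 ⟨mem_erase.2 ⟨i1, i3⟩, x, i4, ?_⟩
      rcases (vis_append a1).1 i5 with h | h
      · rcases a1.vis_mem h with h | rfl
        · exact absurd ⟨i, i3, i4⟩ h
        · exact absurd (hT j (hJ j hj) hy) i6
      · rcases (vis_append c1).1 h with h | h
        · rcases c1.vis_mem h with h | rfl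
          · exact absurd h i6
          · exact vis_start _ _ _
        · exact h)
    refine h1.trans ((Kn_mono (a' := fun y => θ ^ (k + 1) *
      if y ∈ R then 0 else hN N y) le_rfl (fun y => ?_) v).trans ?_)
    · split_ifs with hy
      · exact zero_le
      · rw [hR] at hy
        obtain ⟨j, hj, hy⟩ := not_not.1 hy
        have h2 := ms_exit_le (N := N') (R := A j) (p := y)
          (C := fun W2 => ∃ j ∈ J, y ∈ T j ∧ ∃ W1 W3 z, W2 = W1 ++ W3 ∧ Al N' (A j) y W1 z ∧
            z ∉ A j ∧ Run N' z W3 ∧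
              k ≤ ((J.erase j).filter fun i => ∃ x ∈ T i, Vis N' z W3 x).card)
          (B := fun z W3 => Run N' z W3 ∧
              k ≤ ((J.erase j).filter fun i => ∃ x ∈ T i, Vis N' z W3 x).card) (by
          rintro W ⟨j', hj', hy', h⟩
          obtain rfl : j' = j := by
            by_contra hne
            exact Set.disjoint_left.1 (hd j' (hJ j' hj') j (hJ j hj) hne) (hT j' (hJ j' hj') hy')
              (hT j (hJ j hj) hy)
          exact h)
        refine h2.trans ((Kn_mono (a' := fun z => θ ^ k * if z ∈ A j then 0 else hN N z) le_rfl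
          (fun z => ?_) y).trans ?_)
        · split_ifs
          · exact zero_le
          · exact ih (J.erase j) z fun i hi => hJ i (mem_of_mem_erase hi)
        · rw [Kn_mul, pow_succ, mul_assoc]
          exact mul_le_mul_right (hK j (hJ j hj) y hy) _
    · rw [Kn_mul]
      exact mul_le_mul_right (Kn_exit_le hle _ v) _

theorem t_kill : T_KILL := fun N N' m A T θ hle hd hT hst hK k v =>
  kill_gen N N' m A T θ hle hd hT hst hK k (range m) v fun _ hj => mem_range.1 hj

theorem kill_path {y : ℕ → Pt} {l : ℕ} (hy : ∀ i < l, nrm (y (i + 1) - y i) ≤ 1) (i t : ℕ)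
    (h : i + t ≤ l) : nrm (y (i + t) - y i) ≤ t := by
  induction t with
  | zero => simp
  | succ t ih =>
    have h1 := nrm_tri (y (i + t + 1)) (y (i + t)) (y i)
    have h2 := hy (i + t) (by omega)
    have h3 := ih (by omega)
    rw [← add_assoc]
    push_cast
    omega

theorem kill_path' {y : ℕ → Pt} {l : ℕ} (hy : ∀ i < l, nrm (y (i + 1) - y i) ≤ 1) {i j s : ℕ}
    (h1 : i ≤ j) (h2 : j ≤ l) (h3 : j ≤ i + s) : nrm (y j - y i) ≤ s := by
  obtain ⟨t, rfl⟩ := Nat.exists_eq_add_of_le h1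
  have := kill_path hy i t h2
  omega

theorem t_chain (h1 : T_BEUR) (h2 : T_HARN) : T_CHAIN := by
  obtain ⟨cB, b0, b1, hB⟩ := h1
  obtain ⟨cH, c0, c1, hH⟩ := h2
  obtain ⟨k, hk⟩ := exists_pow_lt_of_lt_one (half_pos c0) (show 1 - cB < 1 by linarith)
  have k1 : 1 ≤ 10 ^ k := Nat.one_le_pow _ _ (by norm_num)
  refine ⟨120 * 10 ^ k, by omega, fun l0 => ?_⟩
  have p0 : ∀ a : ℕ, 0 < cH ^ a := fun a => pow_pos c0 a
  have p1 : ∀ a : ℕ, cH ^ a ≤ 1 := fun a => pow_le_one₀ c0.le c1
  obtain ⟨θ, hθ⟩ : ∃ θ : ℝ≥0, (θ : ℝ) = 1 - cH ^ (2 * l0) / 2 :=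
    ⟨Real.toNNReal _, Real.coe_toNNReal _ (by linarith [p1 (2 * l0)])⟩
  refine ⟨θ, ?_, ?_⟩
  · rw [← NNReal.coe_lt_coe, hθ, NNReal.coe_one]
    linarith [p0 (2 * l0)]
  intro N N' A s l y hle hfar hs hl hy hA hnear
  obtain ⟨G, hG⟩ : ∃ G, G = Kn N' A (fun z => if z ∈ A then 0 else hN N z) := ⟨_, rfl⟩
  have G1 : ∀ z, G z ≤ hN N z := fun z => hG ▸ Kn_exit_le hle A z
  have G2 : ∀ z, G z ≠ ∞ := fun z => ne_top_of_le_ne_top (hN_ne_top N z) (G1 z)
  obtain ⟨h, hh⟩ : ∃ h : Pt → ℝ, h = fun z => (hN N z).toReal := ⟨_, rfl⟩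
  obtain ⟨g, hg⟩ : ∃ g : Pt → ℝ, g = fun z => (G z).toReal := ⟨_, rfl⟩
  have h0 : ∀ z, 0 ≤ h z := fun z => hh ▸ ENNReal.toReal_nonneg
  have gh : ∀ z, g z ≤ h z := fun z => by
    rw [hh, hg]
    exact ENNReal.toReal_mono (hN_ne_top N z) (G1 z)
  obtain ⟨K, hK⟩ : ∃ K : ℤ, K = 10 ^ k := ⟨_, rfl⟩
  have K1 : 1 ≤ K := by rw [hK]; exact_mod_cast k1
  have s1 : (1 : ℤ) ≤ s := by exact_mod_cast hs
  have Ks : (s : ℤ) ≤ K * s := le_mul_of_one_le_left (by omega) K1
  have KK : K ≤ K * s := le_mul_of_one_le_right (by omega) s1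
  have hA' : ∀ i ≤ l, ∀ z, nrm (z - y i) ≤ 120 * (K * s) →
      h z = avg h z ∧ g z = N'.Pr g z := fun i hi z hz => by
    obtain ⟨a1, a2⟩ := hA i hi z (by rw [hK] at hz; push_cast; linarith)
    constructor
    · have e := hN_toReal_rec N z
      rw [← hh, Net.Pr_eq_avg a2, sum_eq_zero fun d _ => if_neg (N.disj _ _ (a2 d)),
        zero_add] at e
      rw [← e, hh]
    · have e := Kn_rec N' A (fun z => if z ∈ A then 0 else hN N z) z
      rw [← hG, if_pos a1, if_pos a1, zero_add] at e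
      rw [hg, ← Net.toReal_Pe G2, ← e]
  obtain ⟨i0, hi0⟩ : ∃ i0, i0 = Nat.findGreatest (fun i => NearK N' (10 * s) (y i)) l := ⟨_, rfl⟩
  have i1 : i0 ≤ l := hi0 ▸ Nat.findGreatest_le l
  have i2 : NearK N' (10 * s) (y i0) := by
    rw [hi0]
    refine Nat.findGreatest_spec (P := fun i => NearK N' (10 * s) (y i)) (Nat.zero_le l) ?_
    obtain ⟨q, d, q1, q2⟩ := hnear
    exact ⟨q, d, q1, by omega⟩
  have i3 : ∀ i, i0 < i → i ≤ l → ∀ z, nrm (z - y i) ≤ 10 * s → ∀ d, N'.mv z d :=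
    fun i a1 a2 z a3 d => by
      by_contra a4
      exact Nat.findGreatest_is_greatest (hi0 ▸ a1) a2 ⟨z, d, a4, a3⟩
  have base : ∀ x, nrm (x - y i0) ≤ 1 → g x ≤ h x / 2 := fun x hx => by
    have e1 : ((10 ^ k * (10 * s + 2) : ℕ) : ℤ) = 10 * (K * s) + 2 * K := by
      rw [hK]; push_cast; ring
    have e2 : (10 : ℤ) ^ k * ((10 * s + 2 : ℕ) : ℤ) = 10 * (K * s) + 2 * K := by
      rw [hK]; push_cast; ring
    have a1 := hH h (y i0) (10 ^ k * (10 * s + 2)) (Nat.mul_pos k1 (by omega)) (fun z _ => h0 z)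
      (fun z hz => (hA' i0 i1 z (by rw [e1] at hz; omega)).1) x
    have a2 := hB N' g (y i0) (10 * s + 2) k (h x / cH) hfar (by omega) (div_nonneg (h0 x) c0.le)
      (by simpa using i2)
      (fun z hz => (hA' i0 i1 z (by rw [e2] at hz; omega)).2.le)
      (fun z hz => (gh z).trans (by
        rw [le_div_iff₀ c0, mul_comm]
        exact a1 z (by rw [e1]; omega) (by rw [e1, ← e2]; exact hz))) x (by push_cast; omega)
    calc g x ≤ (1 - cB) ^ k * (h x / cH) := a2
      _ ≤ cH / 2 * (h x / cH) := mul_le_mul_of_nonneg_right hk.le (div_nonneg (h0 x) c0.le)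
      _ = h x / 2 := by field_simp
  have main : ∀ a j : ℕ, i0 ≤ j → j ≤ l → j ≤ i0 + 1 + a * s →
      cH ^ (2 * a) / 2 * h (y j) ≤ h (y j) - g (y j) := by
    intro a
    induction a with
    | zero =>
      intro j a1 a2 a3
      have := base (y j) (by simpa using kill_path' (s := 1) hy a1 a2 (by omega))
      rw [mul_zero, pow_zero]
      linarith
    | succ a ih =>
      intro j a1 a2 a3
      have e : cH ^ (2 * (a + 1)) = cH ^ (2 * a) * (cH * cH) := by ring
      have q0 := p0 (2 * a)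
      rcases le_or_gt j (i0 + 1 + a * s) with a4 | a4
      · refine le_trans (mul_le_mul_of_nonneg_right ?_ (h0 _)) (ih j a1 a2 a4)
        have : cH * cH ≤ 1 := mul_le_one₀ c1 c0.le c1
        rw [e]
        nlinarith
      · obtain ⟨i, hi⟩ : ∃ i, i = i0 + 1 + a * s := ⟨_, rfl⟩
        rw [← hi] at a4 ih
        have a5 := ih i (by omega) (by omega) le_rfl
        have a6 : nrm (y j - y i) ≤ s :=
          kill_path' hy a4.le a2 (by rw [hi, add_assoc _ (a * s), ← Nat.succ_mul]; exact a3)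
        have a7 : nrm (y i - y i) ≤ s := by simp
        have a8 := hH h (y i) s hs (fun z _ => h0 z)
          (fun z hz => (hA' i (by omega) z (by omega)).1) _ _ a7 a6
        have a9 := hH (fun z => h z - g z) (y i) s hs (fun z _ => sub_nonneg.2 (gh z))
          (fun z hz => by
            obtain ⟨f1, f2⟩ := hA' i (by omega) z (by omega)
            rw [Net.Pr_eq_avg (i3 i (by omega) (by omega) z hz.le)] at f2
            rw [avg_eq] at f1 f2 ⊢
            linarith) _ _ a6 a7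
        calc cH ^ (2 * (a + 1)) / 2 * h (y j) = cH * (cH ^ (2 * a) / 2 * (cH * h (y j))) := by
              rw [e]; ring
          _ ≤ cH * (cH ^ (2 * a) / 2 * h (y i)) := by gcongr
          _ ≤ cH * (h (y i) - g (y i)) := by gcongr
          _ ≤ h (y j) - g (y j) := a9
  have fin := main l0 l i1 le_rfl (by omega)
  rw [← hG, ← ENNReal.toReal_le_toReal (G2 _) (ENNReal.mul_ne_top ENNReal.coe_ne_top
    (hN_ne_top N _)), ENNReal.toReal_mul, ENNReal.coe_toReal, hθ]
  rw [hh, hg] at fin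
  linarith

end Pool.Agent.P.MP_347bd1_pr.M

namespace Pool.Agent.P.MP_347bd1_pr.M

open Classical Finset Filter Topology

theorem toP_inj {n : ℕ} {x y : Site n} (h : toP x = toP y) : x = y := by
  simp only [toP, Prod.ext_iff, add_left_inj, Nat.cast_inj] at h
  exact Prod.ext (Fin.ext h.1) (Fin.ext h.2)

theorem toP_mem {n : ℕ} (x : Site n) : toP x ∈ box n := by
  have := x.1.2; have := x.2.2
  simp only [mem_box, toP]; omega

theorem exists_toP {n : ℕ} {w : Pt} (h : w ∈ box n) : ∃ x : Site n, toP x = w := by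
  rw [mem_box] at h
  refine ⟨(⟨(w.1 - 1).toNat, by omega⟩, ⟨(w.2 - 1).toNat, by omega⟩), ?_⟩
  simp only [toP, Prod.ext_iff]; omega

theorem mem_toM {n : ℕ} {σ : Conf n} {w : Pt} : w ∈ toM σ ↔ ∃ x, σ x = false ∧ toP x = w := by
  simp [toM]

theorem toP_mem_toM {n : ℕ} {σ : Conf n} {x : Site n} : toP x ∈ toM σ ↔ σ x = false :=
  mem_toM.trans ⟨fun ⟨_, h, k⟩ => toP_inj k ▸ h, fun h => ⟨x, h, rfl⟩⟩

theorem toM_subset {n : ℕ} (σ : Conf n) : toM σ ⊆ box n := fun _ h => by
  obtain ⟨x, -, rfl⟩ := mem_toM.1 h; exact toP_mem x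

theorem toM_ext {n : ℕ} {σ : Conf n} {M : Finset Pt} (hM : M ⊆ box n)
    (h : ∀ x, σ x = false ↔ toP x ∈ M) : toM σ = M := by
  ext w
  refine ⟨fun k => ?_, fun k => ?_⟩
  · obtain ⟨x, k', rfl⟩ := mem_toM.1 k; exact (h x).1 k'
  · obtain ⟨x, rfl⟩ := exists_toP (hM k); exact toP_mem_toM.2 ((h x).2 k)

theorem fcr_eq (hT : T_TRANS) (hH : T_HEX) {n : ℕ} (hn : 1 ≤ n) (σ : Conf n) :
    fcr σ = if TB n (fun _ => false) (toM σ) then -1 else 1 := by
  rw [fcr, (hT n).2.1, hH n _ _ hn (toM_subset σ)]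
  split_ifs <;> simp_all

theorem var_eq (hT : T_TRANS) (hH : T_HEX) {n : ℕ} (hn : 1 ≤ n) (b : BC) {P : ℝ}
    (hP : P = ∑ σ : Conf n, ising b σ * if TB n (fun _ => false) (toM σ) then 1 else 0) :
    var b (fcr (n := n)) = 4 * P * (1 - P) := by
  have h1 := (hT n).2.2.2 b
  have h2 : ∑ σ : Conf n, ising b σ * fcr σ ^ 2 = 1 :=
    (sum_congr rfl fun σ _ => by unfold fcr; split_ifs <;> simp).trans h1
  have h3 : ∑ σ : Conf n, ising b σ * fcr σ = 1 - 2 * P := by
    rw [hP, mul_sum, eq_sub_iff_add_eq, ← sum_add_distrib]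
    refine Eq.trans ?_ h1
    exact sum_congr rfl fun σ _ => by rw [fcr_eq hT hH hn]; split_ifs <;> ring
  rw [var, h2, h3]; ring

end Pool.Agent.P.MP_347bd1_pr.M

namespace Pool.Agent.P.MP_347bd1_pr.M

open Classical Finset Matrix

open scoped ENNReal NNReal

/-- Diagonalisation of a reversible matrix. -/
theorem dyna_diag {ι : Type*} [Fintype ι] [DecidableEq ι] (π : ι → ℝ) (hπ : ∀ i, 0 < π i)
    (L : Matrix ι ι ℝ) (hL : ∀ i j, π i * L i j = π j * L j i) :
    ∃ (V W : Matrix ι ι ℝ) (μ : ι → ℝ), W * V = 1 ∧ V * W = 1 ∧ diagonal π * W = Vᵀ ∧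
      L = W * diagonal μ * V := by
  have hs : ∀ i, 0 < Real.sqrt (π i) := fun i => Real.sqrt_pos.2 (hπ i)
  have hq : ∀ i, Real.sqrt (π i) * Real.sqrt (π i) = π i := fun i => Real.mul_self_sqrt (hπ i).le
  set D : Matrix ι ι ℝ := diagonal fun i => Real.sqrt (π i) with hD
  set D' : Matrix ι ι ℝ := diagonal fun i => (Real.sqrt (π i))⁻¹ with hD'
  have h1 : D * D' = 1 := by
    rw [hD, hD', diagonal_mul_diagonal, ← diagonal_one]
    congr 1; funext i; exact mul_inv_cancel₀ (hs i).ne'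
  have h2 : D' * D = 1 := by
    rw [hD, hD', diagonal_mul_diagonal, ← diagonal_one]
    congr 1; funext i; exact inv_mul_cancel₀ (hs i).ne'
  have h3 : diagonal π * D' = D := by
    rw [hD, hD', diagonal_mul_diagonal]
    congr 1; funext i
    have := hs i
    rw [mul_inv_eq_iff_eq_mul₀ this.ne', hq]
  have hH : (D * L * D').IsHermitian := by
    ext i j
    simp only [hD, hD', conjTranspose_apply, mul_diagonal, diagonal_mul, star_trivial]
    have a := hs i
    have b := hs j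
    field_simp
    have := hL i j
    rw [Real.sq_sqrt (hπ i).le, Real.sq_sqrt (hπ j).le]
    linarith
  have hsp := hH.spectral_theorem
  set U : Matrix ι ι ℝ := (hH.eigenvectorUnitary : Matrix ι ι ℝ) with hU
  have u1 : U * Uᵀ = 1 := by
    have := (Matrix.mem_unitaryGroup_iff).1 hH.eigenvectorUnitary.2
    simpa [star_eq_conjTranspose] using this
  have u2 : Uᵀ * U = 1 := by
    have := (Matrix.mem_unitaryGroup_iff').1 hH.eigenvectorUnitary.2
    simpa [star_eq_conjTranspose] using this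
  have hsp' : D * L * D' = U * diagonal hH.eigenvalues * Uᵀ := by
    rw [Unitary.conjStarAlgAut_apply] at hsp
    simpa [star_eq_conjTranspose] using hsp
  refine ⟨Uᵀ * D, D' * U, hH.eigenvalues, ?_, ?_, ?_, ?_⟩
  · calc D' * U * (Uᵀ * D) = D' * (U * Uᵀ) * D := by simp only [Matrix.mul_assoc]
      _ = 1 := by rw [u1, Matrix.mul_one, h2]
  · calc Uᵀ * D * (D' * U) = Uᵀ * (D * D') * U := by simp only [Matrix.mul_assoc]
      _ = 1 := by rw [h1, Matrix.mul_one, u2]
  · rw [← Matrix.mul_assoc, h3, transpose_mul, transpose_transpose, hD, diagonal_transpose]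
  · calc L = (D' * D) * L * (D' * D) := by rw [h2]; simp
      _ = D' * (D * L * D') * D := by simp only [Matrix.mul_assoc]
      _ = D' * (U * diagonal hH.eigenvalues * Uᵀ) * D := congrArg (fun X => D' * X * D) hsp'
      _ = _ := by simp only [Matrix.mul_assoc]

theorem dyna_exp {ι : Type*} [Fintype ι] [DecidableEq ι] {V W : Matrix ι ι ℝ} (μ : ι → ℝ)
    (h1 : W * V = 1) (h2 : V * W = 1) (t : ℝ) :
    NormedSpace.exp (t • (W * diagonal μ * V)) = W * diagonal (fun i => Real.exp (t * μ i)) * V := by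
  let u : (Matrix ι ι ℝ)ˣ := ⟨W, V, h1, h2⟩
  have e : t • (W * diagonal μ * V) = (u : Matrix ι ι ℝ) * diagonal (t • μ) * (u⁻¹ : (Matrix ι ι ℝ)ˣ) := by
    change _ = W * diagonal (t • μ) * V
    rw [diagonal_smul]; simp
  rw [e, Matrix.exp_units_conj, Matrix.exp_diagonal]
  change W * _ * V = _
  congr 3
  funext i
  rw [Pi.coe_exp]
  simp [Real.exp_eq_exp_ℝ]

theorem dyna_bil {ι : Type*} [Fintype ι] [DecidableEq ι] {π : ι → ℝ} {V W : Matrix ι ι ℝ}
    (h : diagonal π * W = Vᵀ) (c f g : ι → ℝ) :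
    ∑ i, ∑ j, π i * (W * diagonal c * V) i j * (f i * g j) =
      ∑ k, c k * ((V *ᵥ f) k * (V *ᵥ g) k) := by
  have e : ∀ i k, π i * W i k = V k i := fun i k => by
    have := congrFun (congrFun h i) k
    simpa [diagonal_mul] using this
  have e2 : ∀ i j, π i * (W * diagonal c * V) i j * (f i * g j) =
      ∑ k, c k * ((V k i * f i) * (V k j * g j)) := fun i j => by
    rw [Matrix.mul_apply, Finset.mul_sum, Finset.sum_mul]
    refine Finset.sum_congr rfl fun k _ => ?_
    rw [mul_diagonal, ← e i]; ring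
  simp_rw [e2]
  rw [Finset.sum_congr rfl fun i _ => Finset.sum_comm, Finset.sum_comm]
  refine Finset.sum_congr rfl fun k _ => ?_
  simp only [mulVec, dotProduct]
  rw [Finset.sum_mul_sum, Finset.mul_sum]
  simp only [Finset.mul_sum]

/-- The abstract spectral statement. -/
theorem dyna_abs {ι : Type*} [Fintype ι] [DecidableEq ι] (π : ι → ℝ) (hπ : ∀ i, 0 < π i)
    (L : Matrix ι ι ℝ) (hL : ∀ i j, π i * L i j = π j * L j i) (h0 : ∀ i, ∑ j, L i j = 0)
    (E : (ι → ℝ) → ℝ) (hE : ∀ g, E g = - ∑ i, ∑ j, π i * L i j * (g i * g j))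
    (hE0 : ∀ g, 0 ≤ E g) (f : ι → ℝ) (t : ℝ) (ht : 0 ≤ t) :
    (∑ i, ∑ j, π i * NormedSpace.exp (t • L) i j * f j = ∑ i, π i * f i) ∧
    (∑ i, π i * f i ^ 2 - ∑ i, ∑ j, π i * NormedSpace.exp (t • L) i j * (f i * f j) ≤ t * E f) ∧
    ∃ g : ι → ℝ, (∑ i, π i * (f i - g i) ^ 2 ≤
      ∑ i, π i * f i ^ 2 - ∑ i, ∑ j, π i * NormedSpace.exp (t • L) i j * (f i * f j)) ∧
      t * E g ≤ ∑ i, π i * f i ^ 2 - ∑ i, ∑ j, π i * NormedSpace.exp (t • L) i j * (f i * f j) := by
  obtain ⟨V, W, μ, h1, h2, h3, h4⟩ := dyna_diag π hπ L hL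
  have hx : NormedSpace.exp (t • L) = W * diagonal (fun i => Real.exp (t * μ i)) * V := by
    rw [h4]; exact dyna_exp μ h1 h2 t
  have hone : ∀ f g : ι → ℝ, ∑ i, π i * (f i * g i) = ∑ k, (V *ᵥ f) k * (V *ᵥ g) k := by
    intro f g
    have := dyna_bil h3 (fun _ => 1) f g
    rw [diagonal_one, Matrix.mul_one, h1] at this
    simp only [one_mul] at this
    rw [← this]
    refine Finset.sum_congr rfl fun i _ => ?_
    simp [Matrix.one_apply]
  have hEk : ∀ g, E g = ∑ k, - μ k * (V *ᵥ g) k ^ 2 := by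
    intro g
    rw [hE, h4, dyna_bil h3, ← Finset.sum_neg_distrib]
    exact Finset.sum_congr rfl fun k _ => by ring
  have hVW : ∀ a : ι → ℝ, V *ᵥ (W *ᵥ a) = a := fun a => by
    rw [mulVec_mulVec, h2, one_mulVec]
  have hμ : ∀ k, μ k ≤ 0 := by
    intro k
    have := hE0 (W *ᵥ Pi.single k 1)
    rw [hEk, hVW, Finset.sum_eq_single k] at this
    · simpa using this
    · intro j _ hj; simp [hj]
    · simp
  have hker : ∀ k, μ k * (V *ᵥ fun _ => (1 : ℝ)) k = 0 := by
    intro k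
    have a : L *ᵥ (fun _ => (1 : ℝ)) = 0 := by
      funext i; simp [mulVec, dotProduct, h0]
    have b : V *ᵥ (L *ᵥ fun _ => (1 : ℝ)) = diagonal μ *ᵥ (V *ᵥ fun _ => (1 : ℝ)) := by
      rw [h4, ← mulVec_mulVec, ← mulVec_mulVec, hVW]
    rw [a, mulVec_zero] at b
    have := congrFun b k
    rw [mulVec_diagonal] at this
    exact this.symm
  have hV : ∑ i, π i * f i ^ 2 - ∑ i, ∑ j, π i * NormedSpace.exp (t • L) i j * (f i * f j) =
      ∑ k, (1 - Real.exp (t * μ k)) * (V *ᵥ f) k ^ 2 := by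
    rw [hx, dyna_bil h3]
    simp only [sq]
    rw [hone, ← Finset.sum_sub_distrib]
    exact Finset.sum_congr rfl fun k _ => by ring
  refine ⟨?_, ?_, W *ᵥ fun k => Real.exp (t * μ k / 2) * (V *ᵥ f) k, ?_, ?_⟩
  · have a := dyna_bil h3 (fun i => Real.exp (t * μ i)) (fun _ => 1) f
    have b := hone (fun _ => 1) f
    simp only [one_mul] at a b
    rw [hx, a, b]
    refine Finset.sum_congr rfl fun k _ => ?_
    rcases mul_eq_zero.1 (hker k) with h | h
    · simp [h]
    · simp [h]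
  · rw [hV, hEk, Finset.mul_sum]
    refine Finset.sum_le_sum fun k _ => ?_
    have := Real.add_one_le_exp (t * μ k)
    have h := sq_nonneg ((V *ᵥ f) k)
    nlinarith
  · rw [hV]
    simp only [sq]
    have := hone (f - W *ᵥ fun k => Real.exp (t * μ k / 2) * (V *ᵥ f) k)
      (f - W *ᵥ fun k => Real.exp (t * μ k / 2) * (V *ᵥ f) k)
    simp only [Pi.sub_apply] at this
    rw [this, mulVec_sub, hVW]
    refine Finset.sum_le_sum fun k _ => ?_
    simp only [Pi.sub_apply]
    have e : Real.exp (t * μ k) = Real.exp (t * μ k / 2) * Real.exp (t * μ k / 2) := by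
      rw [← Real.exp_add]; ring_nf
    have y0 := Real.exp_pos (t * μ k / 2)
    have y1 : Real.exp (t * μ k / 2) ≤ 1 :=
      Real.exp_le_one_iff.2 (by nlinarith [hμ k])
    rw [e]
    have h := mul_self_nonneg ((V *ᵥ f) k)
    nlinarith [mul_nonneg (mul_nonneg y0.le (sub_nonneg.2 y1)) h]
  · rw [hV, hEk, hVW, Finset.mul_sum]
    refine Finset.sum_le_sum fun k _ => ?_
    have e : Real.exp (t * μ k) = Real.exp (t * μ k / 2) ^ 2 := by
      rw [sq, ← Real.exp_add]; ring_nf
    have e2 : Real.exp (-(t * μ k)) * Real.exp (t * μ k) = 1 := by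
      rw [← Real.exp_add]; simp
    have a := Real.add_one_le_exp (-(t * μ k))
    have y0 := Real.exp_pos (t * μ k)
    have h := sq_nonneg ((V *ᵥ f) k)
    have b : -(t * μ k) * Real.exp (t * μ k) ≤ 1 - Real.exp (t * μ k) := by nlinarith
    rw [mul_pow, ← e]
    nlinarith [mul_le_mul_of_nonneg_right b h]

theorem dyna_pos (b : BC) {n : ℕ} (σ : Conf n) : 0 < ising b σ :=
  div_pos (Real.exp_pos _) (Finset.sum_pos (fun _ _ => Real.exp_pos _) Finset.univ_nonempty)

theorem dyna_cond_add (b : BC) {n : ℕ} (σ : Conf n) (x : Site n) :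
    cond b σ x true + cond b σ x false = 1 := by
  unfold cond
  rw [← add_div]
  exact div_self (add_pos (dyna_pos b _) (dyna_pos b _)).ne'

theorem dyna_cond_pos (b : BC) {n : ℕ} (σ : Conf n) (x : Site n) (s : Bool) :
    0 < cond b σ x s :=
  div_pos (dyna_pos b _) (add_pos (dyna_pos b _) (dyna_pos b _))

theorem dyna_cond_upd (b : BC) {n : ℕ} (σ : Conf n) (x : Site n) (s s' : Bool) :
    cond b (Function.update σ x s') x s = cond b σ x s := by
  unfold cond
  simp only [Function.update_idem]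

/-- The kernel resampling the site `x`. -/
noncomputable def dyna_K (b : BC) {n : ℕ} (x : Site n) (σ τ : Conf n) : ℝ :=
  ∑ s, if τ = Function.update σ x s then cond b σ x s else 0

theorem dyna_K_eq (b : BC) {n : ℕ} (x : Site n) (σ τ : Conf n) :
    dyna_K b x σ τ = if τ = Function.update σ x (τ x) then cond b σ x (τ x) else 0 := by
  unfold dyna_K
  rw [Finset.sum_eq_single (τ x)]
  · intro s _ hs
    rw [if_neg]
    intro h
    exact hs (by rw [h]; simp)
  · simp

theorem dyna_K_rev (b : BC) {n : ℕ} (x : Site n) (σ τ : Conf n) :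
    ising b σ * dyna_K b x σ τ = ising b τ * dyna_K b x τ σ := by
  rw [dyna_K_eq, dyna_K_eq]
  have key : ∀ σ τ : Conf n, τ = Function.update σ x (τ x) → σ = Function.update τ x (σ x) := by
    intro σ τ h
    rw [h]; simp
  by_cases h : τ = Function.update σ x (τ x)
  · rw [if_pos h, if_pos (key _ _ h)]
    have e : cond b τ x (σ x) = cond b σ x (σ x) := by
      conv_lhs => rw [h]
      exact dyna_cond_upd b σ x _ _
    rw [e]
    unfold cond
    rw [← h, Function.update_eq_self]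
    ring
  · rw [if_neg h, if_neg fun h' => h (key _ _ h')]
    simp

theorem dyna_K_sum (b : BC) {n : ℕ} (x : Site n) (σ : Conf n) (g : Conf n → ℝ) :
    ∑ τ, dyna_K b x σ τ * g τ = cond b σ x true * g (Function.update σ x true) +
      cond b σ x false * g (Function.update σ x false) := by
  unfold dyna_K
  simp_rw [Finset.sum_mul]
  rw [Finset.sum_comm]
  simp

/-- The measure is invariant for the resampling of one site. -/
theorem dyna_inv (b : BC) {n : ℕ} (x : Site n) (g : Conf n → ℝ) :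
    ∑ σ, ising b σ * g σ = ∑ σ, ising b σ * (cond b σ x true * g (Function.update σ x true) +
      cond b σ x false * g (Function.update σ x false)) := by
  simp_rw [← dyna_K_sum, Finset.mul_sum, ← mul_assoc]
  rw [Finset.sum_congr rfl fun σ _ => Finset.sum_congr rfl fun τ _ =>
    congrArg (· * g τ) (dyna_K_rev b x σ τ), Finset.sum_comm]
  refine Finset.sum_congr rfl fun τ _ => ?_
  rw [← Finset.sum_mul, ← Finset.mul_sum]
  have := dyna_K_sum b x τ fun _ => 1
  simp only [mul_one, dyna_cond_add] at this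
  rw [this, mul_one]

theorem dyna_gen (b : BC) {n : ℕ} (σ τ : Conf n) :
    gen b n σ τ = ∑ x, (dyna_K b x σ τ - if τ = σ then 1 else 0) := rfl

theorem dyna_dir (b : BC) {n : ℕ} (g : Conf n → ℝ) :
    dirF b g = - ∑ σ, ∑ τ, ising b σ * gen b n σ τ * (g σ * g τ) := by
  have e : ∀ σ : Conf n, ∑ τ, ising b σ * gen b n σ τ * (g σ * g τ) =
      ∑ x, ising b σ * (g σ * (cond b σ x true * g (Function.update σ x true) +
        cond b σ x false * g (Function.update σ x false) - g σ)) := by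
    intro σ
    simp_rw [dyna_gen, Finset.mul_sum, Finset.sum_mul]
    rw [Finset.sum_comm]
    refine Finset.sum_congr rfl fun x _ => ?_
    rw [← dyna_K_sum]
    have : g σ = ∑ τ, (if τ = σ then 1 else 0) * g τ := by simp
    conv_rhs => rw [this]
    rw [← Finset.sum_sub_distrib, ← this, Finset.mul_sum, Finset.mul_sum]
    exact Finset.sum_congr rfl fun τ _ => by ring
  simp_rw [e]
  rw [Finset.sum_comm, ← Finset.sum_neg_distrib]
  refine Finset.sum_congr rfl fun x _ => ?_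
  rw [dyna_inv b x fun σ => g σ * (cond b σ x true * g (Function.update σ x true) +
        cond b σ x false * g (Function.update σ x false) - g σ), ← Finset.sum_neg_distrib]
  refine Finset.sum_congr rfl fun σ _ => ?_
  simp only [dyna_cond_upd, Function.update_idem]
  have h : cond b σ x false = 1 - cond b σ x true := by linarith [dyna_cond_add b σ x]
  rw [h]; ring

theorem t_dyna : T_DYNA := by
  intro b n f t ht
  have hrev : ∀ σ τ : Conf n, ising b σ * gen b n σ τ = ising b τ * gen b n τ σ := by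
    intro σ τ
    rw [dyna_gen, dyna_gen, Finset.mul_sum, Finset.mul_sum]
    refine Finset.sum_congr rfl fun x _ => ?_
    rw [mul_sub, mul_sub, dyna_K_rev]
    by_cases h : τ = σ
    · subst h; rfl
    · rw [if_neg h, if_neg fun h' => h h'.symm]; simp
  have h0 : ∀ σ : Conf n, ∑ τ, gen b n σ τ = 0 := by
    intro σ
    simp_rw [dyna_gen]
    rw [Finset.sum_comm]
    refine Finset.sum_eq_zero fun x _ => ?_
    have := dyna_K_sum b x σ fun _ => 1
    simp only [mul_one, dyna_cond_add] at this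
    rw [Finset.sum_sub_distrib, this]
    simp
  have hE0 : ∀ g : Conf n → ℝ, 0 ≤ dirF b g := fun g =>
    Finset.sum_nonneg fun x _ => Finset.sum_nonneg fun σ _ => mul_nonneg (dyna_pos b σ).le
      (mul_nonneg (mul_pos (dyna_cond_pos b σ x _) (dyna_cond_pos b σ x _)).le (sq_nonneg _))
  obtain ⟨h1, h2⟩ := dyna_abs (ising b) (dyna_pos b) (gen b n) hrev h0 (dirF b) (dyna_dir b) hE0
    f t ht
  have e : var b f - cov b f t = ∑ σ, ising b σ * f σ ^ 2 -
      ∑ σ, ∑ τ, ising b σ * NormedSpace.exp (t • gen b n) σ τ * (f σ * f τ) := by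
    unfold var cov trans
    rw [h1]; ring
  rw [e]
  exact h2

end Pool.Agent.P.MP_347bd1_pr.M

namespace Pool.Agent.P.MP_347bd1_pr.M

open Classical Finset

open scoped ENNReal NNReal

/-- The position of the exits. -/
theorem corn_st {n : ℕ} {E : Finset Edge} (hE : SC n E) {z : Pt} {d : Dir}
    (h : (net n E).st z d) : (z.1 = 1 ∧ Col1 (cr z d)) ∨ z.1 + 1 = n ∨ z.2 = 1 := by
  obtain ⟨h1, h2, h3⟩ := h
  have h4 := hE.top _ h3
  obtain ⟨a, b⟩ := z
  rw [mem_intr] at h1 h2
  cases d <;> simp [Dir.vec, cr, ea, eb, Col1] at h1 h2 h4 ⊢ <;> omega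

end Pool.Agent.P.MP_347bd1_pr.M

namespace Pool.Agent.P.MP_347bd1_pr.M

open Classical Finset

open scoped ENNReal NNReal

theorem lsm_submod (G : Finset Edge) (D D' : Finset Pt) :
    (cut (D ∩ D') ∩ G).card + (cut (D ∪ D') ∩ G).card ≤ (cut D ∩ G).card + (cut D' ∩ G).card := by
  have h : ∀ M : Finset Pt, (cut M ∩ G).card = ∑ e ∈ G, if e ∈ cut M then 1 else 0 := fun M => by
    rw [← card_filter, filter_mem_eq_inter, inter_comm]
  simp only [h, ← sum_add_distrib]
  refine sum_le_sum fun e _ => ?_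
  simp only [mem_cut, mem_inter, mem_union]
  by_cases h1 : ea e ∈ D <;> by_cases h2 : eb e ∈ D <;> by_cases h3 : ea e ∈ D' <;>
    by_cases h4 : eb e ∈ D' <;> simp [h1, h2, h3, h4]

/-- The configurations whose contours are active. -/
def lsm_ok (n : ℕ) (F : Finset Edge) (D : Finset Pt) : Prop :=
  ((1 : ℤ), (n : ℤ)) ∉ D ∧ ∀ e ∈ ebox n, e ∉ F → ea e ∉ D ∧ eb e ∉ D

noncomputable def lsm_f (n : ℕ) (F : Finset Edge) (D : Finset Pt) : ℝ :=
  if lsm_ok n F D then xc ^ (cut D ∩ ebox n).card else 0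

theorem lsm_nonneg (n : ℕ) (F : Finset Edge) : 0 ≤ lsm_f n F := fun D => by
  unfold lsm_f
  split_ifs
  exacts [(pow_pos xc_pos _).le, le_rfl]

theorem lsm_sum (h : T_POIN) {n : ℕ} (hn : 1 ≤ n) {F : Finset Edge} (hF : SC n F) :
    ∑ D ∈ (box n).powerset, lsm_f n F D = Zs n ∅ F := by
  have h0 : ((1 : ℤ), (n : ℤ)) ∈ box n := by
    rw [mem_box]
    simp only
    omega
  rw [Zs_eq_filter]
  unfold lsm_f
  rw [← sum_filter]
  refine sum_bij (fun D _ => cut D ∩ ebox n) (fun D hD => ?_) (fun D hD D' hD' k => ?_)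
    (fun η hη => ?_) fun _ _ => rfl
  · rw [mem_filter] at hD ⊢
    refine ⟨mem_powerset.2 fun e he => ?_, src_cut n D⟩
    by_contra k
    have h1 := hD.2.2 e (mem_inter.1 he).2 k
    exact mem_cut.1 (mem_inter.1 he).1 (iff_of_false h1.1 h1.2)
  · rw [mem_filter, mem_powerset] at hD hD'
    have h1 : ∀ e ∈ ebox n, e ∉ cut (symmDiff D D') := fun e he => by
      have h2 := Finset.ext_iff.1 k e
      simp only [mem_inter, he, and_true] at h2
      rw [cut_symmDiff, mem_symmDiff]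
      grind
    ext w
    by_cases hw : w ∈ box n
    · have h2 := mem_iff_of_cut h1 hw h0
      have h3 := hD.2.1
      have h4 := hD'.2.1
      simp only [mem_symmDiff] at h2
      grind
    · exact iff_of_false (fun k => hw (hD.1 k)) fun k => hw (hD'.1 k)
  · rw [mem_filter, mem_powerset] at hη
    obtain ⟨D, h1, h2, h3⟩ := h n η (hη.1.trans hF.sub) hη.2
    have key : ∀ w, TopConn n F w → w ∉ D := fun w hw => by
      have h4 := conn_of_topConn hF.top (topConn_top F h0 rfl) hw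
      clear hw
      induction h4 with
      | refl => exact h3
      | tail _ k ih =>
        obtain ⟨d, k1, rfl⟩ := k
        rw [mem_sdiff] at k1
        intro k2
        exact k1.2 (hη.1 (h2 ▸ mem_inter.2 ⟨inc_mem_cut.2 fun k3 => ih (k3.2 k2), k1.1⟩))
    exact ⟨D, mem_filter.2 ⟨mem_powerset.2 h1, h3, fun e he he' =>
      ⟨key _ (hF.conn e he he'), key _ (hF.conn_b he he')⟩⟩, h2⟩

theorem t_lsm (h : T_POIN) : T_LSM := by
  intro n E A B hn hE hA hB hAE hBE
  have hAB : SC n (A ∩ B) := ⟨inter_subset_left.trans hA.sub,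
    fun e he => hA.top e (mem_inter.1 he).1, fun e he he' => by
      by_cases k : e ∈ A
      · exact (hB.conn e he fun k' => he' (mem_inter.2 ⟨k, k'⟩)).mono inter_subset_right
      · exact (hA.conn e he k).mono inter_subset_left⟩
  have key := Finset.four_functions_theorem (box n) (lsm_nonneg n A) (lsm_nonneg n B)
    (lsm_nonneg n (A ∩ B)) (lsm_nonneg n E) (fun D _ D' _ => ?_) (subset_refl _) (subset_refl _)
  · rw [powerset_infs_powerset_self, powerset_sups_powerset_self, lsm_sum h hn hA,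
      lsm_sum h hn hB, lsm_sum h hn hAB, lsm_sum h hn hE] at key
    rwa [mul_comm (Zs n ∅ E)]
  by_cases h1 : lsm_ok n A D
  · by_cases h2 : lsm_ok n B D'
    · have h3 : lsm_ok n (A ∩ B) (D ∩ D') := ⟨fun k => h1.1 (mem_inter.1 k).1, fun e he he' => by
        simp only [mem_inter, not_and_or] at he' ⊢
        rcases he' with k | k
        · exact ⟨Or.inl (h1.2 e he k).1, Or.inl (h1.2 e he k).2⟩
        · exact ⟨Or.inr (h2.2 e he k).1, Or.inr (h2.2 e he k).2⟩⟩
      have h4 : lsm_ok n E (D ∪ D') := ⟨fun k => (mem_union.1 k).elim h1.1 h2.1, fun e he he' => by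
        have k1 := h1.2 e he fun k => he' (hAE k)
        have k2 := h2.2 e he fun k => he' (hBE k)
        simp only [mem_union, not_or]
        exact ⟨⟨k1.1, k2.1⟩, k1.2, k2.2⟩⟩
      simp only [lsm_f, if_pos h1, if_pos h2, if_pos h3, if_pos h4, ← pow_add]
      exact pow_le_pow_of_le_one xc_pos.le xc_lt_one.le (lsm_submod _ D D')
    · rw [lsm_f, lsm_f, if_neg h2, mul_zero]
      exact mul_nonneg (lsm_nonneg _ _ _) (lsm_nonneg _ _ _)
  · rw [lsm_f, if_neg h1, zero_mul]
    exact mul_nonneg (lsm_nonneg _ _ _) (lsm_nonneg _ _ _)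

end Pool.Agent.P.MP_347bd1_pr.M

namespace Pool.Agent.P.MP_347bd1_pr.M

open Classical Finset

open scoped ENNReal NNReal

theorem trans_inj {n : ℕ} : Function.Injective (toP (n := n)) := by
  rintro ⟨a, b⟩ ⟨c, d⟩ h
  simp only [toP, Prod.mk.injEq] at h
  ext <;> simp only <;> omega

theorem trans_mem {n : ℕ} (x : Site n) : toP x ∈ box n := by
  have h1 := x.1.2
  have h2 := x.2.2
  rw [mem_box]; simp only [toP]; omega

theorem trans_surj {n : ℕ} {w : Pt} (h : w ∈ box n) : ∃ x : Site n, toP x = w := by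
  rw [mem_box] at h
  refine ⟨(⟨(w.1 - 1).toNat, by omega⟩, ⟨(w.2 - 1).toNat, by omega⟩), ?_⟩
  ext <;> simp only [toP] <;> omega

theorem trans_mem_toM {n : ℕ} (σ : Conf n) (x : Site n) : toP x ∈ toM σ ↔ σ x = false := by
  simp only [toM, mem_image, mem_filter, mem_univ, true_and]
  constructor
  · rintro ⟨y, h, k⟩
    rwa [← trans_inj k]
  · exact fun h => ⟨x, h, rfl⟩

theorem trans_toM_sub {n : ℕ} (σ : Conf n) : toM σ ⊆ box n := by
  intro w h
  obtain ⟨x, -, rfl⟩ := mem_image.1 h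
  exact trans_mem x

theorem trans_adj {n : ℕ} (x y : Site n) : (grid n).Adj x y ↔ NN (toP x) (toP y) := by
  obtain ⟨a, b⟩ := x
  obtain ⟨c, d⟩ := y
  simp only [grid, SimpleGraph.boxProd_adj, SimpleGraph.pathGraph_adj, NN, toP, Fin.ext_iff]
  constructor
  · rintro (⟨h | h, k⟩ | ⟨h | h, k⟩)
    · exact ⟨.E, by simp only [Dir.vec, Prod.mk_add_mk, Prod.mk.injEq]; omega⟩
    · exact ⟨.W, by simp only [Dir.vec, Prod.mk_add_mk, Prod.mk.injEq]; omega⟩
    · exact ⟨.N, by simp only [Dir.vec, Prod.mk_add_mk, Prod.mk.injEq]; omega⟩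
    · exact ⟨.S, by simp only [Dir.vec, Prod.mk_add_mk, Prod.mk.injEq]; omega⟩
  · rintro ⟨e, h⟩
    cases e <;> simp only [Dir.vec, Prod.mk_add_mk, Prod.mk.injEq] at h <;> omega

theorem trans_sum_site {n : ℕ} (F : Pt → ℝ) : ∑ x : Site n, F (toP x) = ∑ w ∈ box n, F w :=
  sum_bij (fun x _ => toP x) (fun x _ => trans_mem x) (fun _ _ _ _ h => trans_inj h)
    (fun _ h => (trans_surj h).imp fun x k => ⟨mem_univ x, k⟩) (fun _ _ => rfl)

theorem trans_sum_nn (U : Finset Pt) (w : Pt) (F : Pt → ℝ) :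
    (∑ u ∈ U, if NN w u then F u else 0) =
      ∑ d : Dir, if w + d.vec ∈ U then F (w + d.vec) else 0 := by
  have : ∀ u, (if NN w u then F u else 0) = ∑ d : Dir, if w + d.vec = u then F u else 0 := by
    intro u
    by_cases h : NN w u
    · obtain ⟨d, rfl⟩ := h
      rw [if_pos ⟨d, rfl⟩, sum_eq_single d, if_pos rfl]
      · intro d' _ k
        rw [if_neg fun e => k (Dir.vec_inj (add_left_cancel e))]
      · simp
    · rw [if_neg h, sum_eq_zero]
      intro d _
      rw [if_neg fun e => h ⟨d, e.symm⟩]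
  simp only [this]
  rw [sum_comm]
  exact sum_congr rfl fun d _ => by rw [sum_ite_eq]

theorem trans_sum_inc (U : Finset Pt) (G : Edge → ℝ) : ∑ w ∈ U, ∑ d, G (inc w d) =
    ∑ e ∈ einc U, ((if ea e ∈ U then 1 else 0) + if eb e ∈ U then 1 else 0) * G e := by
  have h1 : ∀ w ∈ U, ∑ d, G (inc w d) =
      ∑ e ∈ einc U, ∑ d, if inc w d = e then G e else 0 := by
    intro w hw
    rw [sum_comm]
    exact sum_congr rfl fun d _ => by rw [sum_ite_eq, if_pos (inc_mem_einc.2 (Or.inl hw))]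
  rw [sum_congr rfl h1, sum_comm]
  refine sum_congr rfl fun e _ => ?_
  obtain ⟨d0, k1, k2⟩ := exists_inc e
  have h2 : ∀ w, (∑ d, if inc w d = e then G e else 0) =
      (if ea e = w then G e else 0) + if eb e = w then G e else 0 := by
    intro w
    have h3 : ∀ d, inc w d = e ↔ (w = ea e ∧ d = d0) ∨ (w = eb e ∧ d = d0.opp) := by
      intro d
      rw [k2, ← inc_eq_iff, k1]
    have h4 := ea_ne_eb e
    simp only [h3]
    by_cases a : w = ea e
    · subst a
      simp [h4, h4.symm]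
    · by_cases b : w = eb e
      · subst b
        simp [h4, h4.symm]
      · simp [a, b, Ne.symm a, Ne.symm b]
  simp only [h2, sum_add_distrib, sum_ite_eq]
  split_ifs <;> ring

/-- The spin at a point. -/
noncomputable def trans_s (M : Finset Pt) (w : Pt) : ℝ := if w ∈ M then -1 else 1

theorem trans_sp {n : ℕ} (σ : Conf n) (x : Site n) : sp (σ x) = trans_s (toM σ) (toP x) := by
  simp only [trans_s, trans_mem_toM, sp]
  cases σ x <;> simp

theorem trans_ss (M : Finset Pt) (e : Edge) :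
    trans_s M (ea e) * trans_s M (eb e) = 1 - 2 * if e ∈ cut M then 1 else 0 := by
  simp only [trans_s, mem_cut]
  by_cases a : ea e ∈ M <;> by_cases b : eb e ∈ M <;> simp [a, b] <;> norm_num

/-- The interacting edges. -/
noncomputable def trans_F (b : BC) (n : ℕ) : Finset Edge :=
  match b with
  | .free => ebox n
  | .plus => einc (box n)

theorem trans_degree {n : ℕ} (x : Site n) : ((grid n).degree x : ℝ) =
    ∑ d : Dir, if toP x + d.vec ∈ box n then 1 else 0 := by
  rw [← trans_sum_nn (box n) (toP x) fun _ => 1,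
    ← trans_sum_site fun u => if NN (toP x) u then 1 else 0]
  simp only [← trans_adj]
  rw [← SimpleGraph.card_neighborFinset_eq_degree, SimpleGraph.neighborFinset_eq_filter,
    card_filter]
  push_cast
  rfl

theorem trans_energy1 (b : BC) {n : ℕ} (σ : Conf n) : energy b σ =
    ∑ w ∈ box n, ∑ d, trans_s (toM σ) (ea (inc w d)) * trans_s (toM σ) (eb (inc w d)) *
      if inc w d ∈ ebox n then 1 / 2 else outSp b := by
  rw [← trans_sum_site fun w => ∑ d, trans_s (toM σ) (ea (inc w d)) *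
    trans_s (toM σ) (eb (inc w d)) * if inc w d ∈ ebox n then 1 / 2 else outSp b]
  rw [energy, sum_div, ← sum_add_distrib]
  refine sum_congr rfl fun x _ => ?_
  simp only [trans_adj, trans_sp, trans_degree]
  rw [trans_sum_site fun u => if NN (toP x) u then
    trans_s (toM σ) (toP x) * trans_s (toM σ) u else 0, trans_sum_nn]
  have h4 : (4 : ℝ) = ∑ _d : Dir, 1 := by rw [sum_dir]; norm_num
  rw [h4, ← sum_sub_distrib, sum_div, sum_mul, ← sum_add_distrib]
  refine sum_congr rfl fun d _ => ?_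
  have h5 : trans_s (toM σ) (ea (inc (toP x) d)) * trans_s (toM σ) (eb (inc (toP x) d)) =
      trans_s (toM σ) (toP x) * trans_s (toM σ) (toP x + d.vec) := by
    rcases ends_inc (toP x) d with h | h <;> rw [h.1, h.2]
    exact mul_comm _ _
  rw [h5]
  simp only [inc_mem_ebox, trans_mem, true_and]
  split_ifs with h
  · ring
  · have : trans_s (toM σ) (toP x + d.vec) = 1 := if_neg fun k => h (trans_toM_sub σ k)
    rw [this]; ring

theorem trans_energy (b : BC) {n : ℕ} (σ : Conf n) : energy b σ =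
    (trans_F b n).card - 2 * ((cut (toM σ) ∩ trans_F b n).card : ℝ) := by
  have h1 : ∀ F : Finset Edge, (F.card : ℝ) - 2 * ((cut (toM σ) ∩ F).card : ℝ) =
      ∑ e ∈ F, (1 - 2 * if e ∈ cut (toM σ) then 1 else 0 : ℝ) := by
    intro F
    rw [sum_sub_distrib, ← mul_sum, inter_comm, ← filter_mem_eq_inter, card_filter]
    simp
  rw [trans_energy1, trans_sum_inc (box n) fun e => trans_s (toM σ) (ea e) *
    trans_s (toM σ) (eb e) * if e ∈ ebox n then 1 / 2 else outSp b, h1]
  simp only [trans_ss]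
  cases b
  · rw [trans_F, ebox, sum_filter]
    refine sum_congr rfl fun e _ => ?_
    rw [← ebox]
    by_cases a : ea e ∈ box n <;> by_cases b : eb e ∈ box n <;> simp [a, b, mem_ebox, outSp]
    ring
  · rw [trans_F]
    refine sum_congr rfl fun e he => ?_
    have := mem_einc.1 he
    by_cases a : ea e ∈ box n <;> by_cases b : eb e ∈ box n <;> simp [a, b, mem_ebox, outSp]
    · ring
    · grind

theorem trans_exp (b : BC) {n : ℕ} (σ : Conf n) : Real.exp (betaC * energy b σ) =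
    Real.exp (betaC * (trans_F b n).card) * xc ^ (cut (toM σ) ∩ trans_F b n).card := by
  have h0 : 0 < 1 + Real.sqrt 2 := by positivity
  have h1 : xc = Real.exp (-(2 * betaC)) := by
    rw [betaC, Real.exp_neg, mul_div_cancel₀ _ two_ne_zero, Real.exp_log h0]
    have := Real.sq_sqrt (show (0 : ℝ) ≤ 2 by norm_num)
    refine eq_inv_of_mul_eq_one_left ?_
    unfold xc; nlinarith
  rw [trans_energy, h1, ← Real.exp_nat_mul, ← Real.exp_add]
  congr 1; ring

theorem trans_sum_conf {n : ℕ} (g : Finset Pt → ℝ) :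
    ∑ σ : Conf n, g (toM σ) = ∑ M ∈ (box n).powerset, g M := by
  refine sum_bij (fun σ _ => toM σ) (fun σ _ => mem_powerset.2 (trans_toM_sub σ)) ?_ ?_
    fun _ _ => rfl
  · intro σ _ τ _ h
    funext x
    have h1 := trans_mem_toM σ x
    rw [h, trans_mem_toM] at h1
    cases k : σ x <;> cases k' : τ x <;> simp_all
  · intro M hM
    refine ⟨fun x => decide (toP x ∉ M), mem_univ _, ?_⟩
    ext w
    constructor
    · intro h
      obtain ⟨x, rfl⟩ := trans_surj (trans_toM_sub _ h)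
      simpa using (trans_mem_toM _ x).1 h
    · intro h
      obtain ⟨x, rfl⟩ := trans_surj (mem_powerset.1 hM h)
      exact (trans_mem_toM _ x).2 (by simpa using h)

theorem trans_prob (b : BC) (n : ℕ) (A : Finset Pt → Prop) :
    (∑ σ : Conf n, ising b σ * if A (toM σ) then 1 else 0) = Pr (trans_F b n) (box n) ∅ A := by
  simp only [ising, trans_exp, ← mul_sum, mul_div_mul_left _ _ (Real.exp_pos _).ne']
  rw [trans_sum_conf fun M => xc ^ (cut M ∩ trans_F b n).card, Pr, Zf, Zf, sum_div,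
    trans_sum_conf fun M => xc ^ (cut M ∩ trans_F b n).card /
      (∑ M ∈ (box n).powerset, xc ^ (cut M ∩ trans_F b n).card) * if A M then 1 else 0]
  simp only [union_empty, if_true]
  refine sum_congr rfl fun M _ => ?_
  split_ifs <;> simp

theorem trans_cross {n : ℕ} (σ : Conf n) : Crossing σ ↔ LR n (fun _ => false) (toM σ) := by
  have hl : ∀ a b : Pt, Lk (fun _ => false) true a b ↔ NN a b := fun a b =>
    lk_const_not_iff (c := true)
  simp only [Crossing, LR, hl]
  constructor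
  · rintro ⟨x, y, h1, h2, h3, h4⟩
    refine ⟨toP x, toP y, trans_mem x, by simp [trans_mem_toM, h3], by simp [toP, h1],
      by simp only [toP]; omega, ?_⟩
    clear h2
    induction h4 with
    | refl => exact .refl
    | tail _ k ih =>
      exact ih.tail ⟨(trans_adj _ _).1 k.1, trans_mem _, by simp [trans_mem_toM, k.2]⟩
  · rintro ⟨a, b, h1, h2, h3, h4, h5⟩
    obtain ⟨x, rfl⟩ := trans_surj h1
    have key : ∃ y : Site n, toP y = b ∧
        Relation.ReflTransGen (fun u w => (grid n).Adj u w ∧ σ w = true) x y := by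
      clear h4
      induction h5 with
      | refl => exact ⟨x, rfl, .refl⟩
      | tail _ k ih =>
        obtain ⟨y, rfl, r⟩ := ih
        obtain ⟨z, rfl⟩ := trans_surj k.2.1
        exact ⟨z, rfl, r.tail ⟨(trans_adj _ _).2 k.1, by simpa [trans_mem_toM] using k.2.2⟩⟩
    obtain ⟨y, rfl, r⟩ := key
    simp only [toP] at h3 h4
    exact ⟨x, y, by omega, by omega, by simpa [trans_mem_toM] using h2, r⟩

theorem t_trans : T_TRANS := by
  intro n
  refine ⟨fun A => ⟨trans_prob .free n A, trans_prob .plus n A⟩, trans_cross, fun b σ => ?_,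
    fun b => ?_⟩
  · exact div_pos (Real.exp_pos _) (sum_pos (fun _ _ => Real.exp_pos _) ⟨σ, mem_univ σ⟩)
  · simpa [Pr_true] using trans_prob b n fun _ => True

end Pool.Agent.P.MP_347bd1_pr.M
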