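import Pool.Agent.P.MP_347bd1_pr.Stmts2

/-! Tools from the fixed time result that are used again (part 4). -/

namespace Pool.Agent.P.MP_347bd1_pr.M

open Classical Finset

theorem hit_log4 {a b c d e : ℝ} (ha : 0 < a) (hb : 0 < b) (hc : 0 < c) (hd : 0 < d) :
    (Real.log a + Real.log b + Real.log c + Real.log d) / 4 - Real.log e =
      (Real.log (a * b * c * d) - Real.log (e ^ 4)) / 4 := by
  rw [Real.log_mul (by positivity) hd.ne', Real.log_mul (by positivity) hc.ne',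
    Real.log_mul ha.ne' hb.ne', Real.log_pow]
  push_cast
  ring

/-- The exponential of the superharmonic function. -/
noncomputable def hit_g (z : Pt) : ℝ :=
  if z.1 ^ 2 + z.2 ^ 2 = 0 then 1 / 768 else if z.1 ^ 2 + z.2 ^ 2 = 1 then 1 / 4
  else (z.1 : ℝ) ^ 2 + (z.2 : ℝ) ^ 2 - 1

theorem hit_g_eq {z : Pt} (h : 2 ≤ z.1 ^ 2 + z.2 ^ 2) :
    hit_g z = (z.1 : ℝ) ^ 2 + (z.2 : ℝ) ^ 2 - 1 := by
  rw [hit_g, if_neg (by omega), if_neg (by omega)]

theorem hit_g_pos (z : Pt) : 0 < hit_g z := by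
  unfold hit_g
  split_ifs with h1 h2
  · norm_num
  · norm_num
  · have : 2 ≤ z.1 ^ 2 + z.2 ^ 2 := by
      have := sq_nonneg z.1
      have := sq_nonneg z.2
      omega
    have h : ((2 : ℤ) : ℝ) ≤ ((z.1 ^ 2 + z.2 ^ 2 : ℤ) : ℝ) := Int.cast_le.mpr this
    push_cast at h
    linarith

theorem hit_g_super (x y : ℤ) (h : (x, y) ≠ (0 : Pt)) :
    hit_g (x, y + 1) * hit_g (x + 1, y) * hit_g (x, y - 1) * hit_g (x - 1, y) ≤
      hit_g (x, y) ^ 4 := by
  by_cases hs : (-2 ≤ x ∧ x ≤ 2) ∧ (-2 ≤ y ∧ y ≤ 2)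
  · obtain ⟨⟨h1, h2⟩, h3, h4⟩ := hs
    interval_cases x <;> interval_cases y <;> first | exact absurd rfl h | norm_num [hit_g]
  · have hx := sq_nonneg x
    have hy := sq_nonneg y
    have hb : 3 ≤ x ∨ x ≤ -3 ∨ 3 ≤ y ∨ y ≤ -3 := by omega
    have k0 : 2 ≤ x ^ 2 + y ^ 2 := by rcases hb with k | k | k | k <;> nlinarith
    rw [hit_g_eq (z := (x, y + 1)), hit_g_eq (z := (x + 1, y)), hit_g_eq (z := (x, y - 1)),
      hit_g_eq (z := (x - 1, y)), hit_g_eq (z := (x, y)) k0]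
    · have k1 : ((2 : ℤ) : ℝ) ≤ ((x ^ 2 + y ^ 2 : ℤ) : ℝ) := Int.cast_le.mpr k0
      push_cast at k1 ⊢
      generalize (x : ℝ) = a at *
      generalize (y : ℝ) = b at *
      have e : (a ^ 2 + b ^ 2 - 1) ^ 4 - (a ^ 2 + (b + 1) ^ 2 - 1) * ((a + 1) ^ 2 + b ^ 2 - 1) *
          (a ^ 2 + (b - 1) ^ 2 - 1) * ((a - 1) ^ 2 + b ^ 2 - 1) =
          4 * (a ^ 2 - b ^ 2) ^ 2 + 2 * (a ^ 2 + b ^ 2) * (a ^ 2 + b ^ 2 - 2) + 1 := by ring
      have : 0 ≤ 2 * (a ^ 2 + b ^ 2) * (a ^ 2 + b ^ 2 - 2) :=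
        mul_nonneg (by positivity) (by linarith)
      nlinarith [sq_nonneg (a ^ 2 - b ^ 2)]
    all_goals
      dsimp only
      rcases hb with k | k | k | k <;>
        nlinarith [sq_nonneg (x + 1), sq_nonneg (x - 1), sq_nonneg (y + 1), sq_nonneg (y - 1)]

theorem t_log : T_LOG := by
  refine ⟨fun z => ?_, fun z => Real.log (hit_g z),
    fun z hz => congrArg Real.log (hit_g_eq hz), ?_, ?_⟩
  · rw [avg_eq]
    push_cast
    generalize (z.1 : ℝ) = a
    generalize (z.2 : ℝ) = b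
    rw [← sub_nonneg, hit_log4 (by positivity) (by positivity) (by positivity) (by positivity)]
    refine div_nonneg (sub_nonneg.mpr (Real.log_le_log (by positivity) ?_)) (by norm_num)
    have e : (a ^ 2 + (b + 1) ^ 2 + 1) * ((a + 1) ^ 2 + b ^ 2 + 1) * (a ^ 2 + (b - 1) ^ 2 + 1) *
        ((a - 1) ^ 2 + b ^ 2 + 1) - (a ^ 2 + b ^ 2 + 1) ^ 4 =
        2 * (a ^ 2 + b ^ 2) ^ 2 + 12 * (a ^ 2 + b ^ 2) + 15 + 16 * (a * b) ^ 2 := by ring
    have : 0 ≤ 2 * (a ^ 2 + b ^ 2) ^ 2 + 12 * (a ^ 2 + b ^ 2) + 15 + 16 * (a * b) ^ 2 := by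
      positivity
    linarith
  · intro z hz
    have hg : 1 / 1024 ≤ hit_g z ∧ hit_g z ≤ 1 := by
      unfold hit_g
      split_ifs with h1 h2
      · norm_num
      · norm_num
      · have := sq_nonneg z.1
        have := sq_nonneg z.2
        omega
    refine ⟨?_, Real.log_nonpos (hit_g_pos z).le hg.2⟩
    have h1 := Real.log_le_log (by norm_num) hg.1
    have h2 : Real.log (1 / 1024) = -10 * Real.log 2 := by
      rw [show (1 / 1024 : ℝ) = 2 ^ (-10 : ℤ) by norm_num, Real.log_zpow]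
      norm_num
    have h3 := Real.log_two_lt_d9
    change -10 ≤ Real.log (hit_g z)
    linarith
  · rintro ⟨x, y⟩ hz
    rw [avg_eq, ← sub_nonpos, hit_log4 (hit_g_pos _) (hit_g_pos _) (hit_g_pos _) (hit_g_pos _)]
    refine div_nonpos_of_nonpos_of_nonneg (sub_nonpos.mpr (Real.log_le_log ?_
      (hit_g_super x y hz))) (by norm_num)
    exact mul_pos (mul_pos (mul_pos (hit_g_pos _) (hit_g_pos _)) (hit_g_pos _)) (hit_g_pos _)

theorem hit_sq_le (y : Pt) : nrm y ^ 2 ≤ y.1 ^ 2 + y.2 ^ 2 ∧ y.1 ^ 2 + y.2 ^ 2 ≤ 2 * nrm y ^ 2 := by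
  rw [← sq_abs y.1, ← sq_abs y.2]
  have h1 := abs_nonneg y.1
  have h2 := abs_nonneg y.2
  unfold nrm
  rcases le_total |y.1| |y.2| with h | h
  · rw [max_eq_right h]
    constructor <;> nlinarith
  · rw [max_eq_left h]
    constructor <;> nlinarith

theorem hit_sum_log (m : ℕ) : ∑ j ∈ range m, (Real.log m - Real.log ((j : ℝ) + 1)) ≤ m := by
  have key : ∀ n : ℕ, n * Real.log n - n ≤ ∑ j ∈ range n, Real.log ((j : ℝ) + 1) := by
    intro n
    induction n with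
    | zero => simp
    | succ n ih =>
      rw [sum_range_succ]
      push_cast
      rcases Nat.eq_zero_or_pos n with rfl | hn
      · simp
      · have hn' : (0 : ℝ) < n := Nat.cast_pos.mpr hn
        have h1 := Real.log_le_sub_one_of_pos (show 0 < ((n : ℝ) + 1) / n by positivity)
        rw [Real.log_div (by positivity) hn'.ne'] at h1
        have h2 := mul_le_mul_of_nonneg_left h1 hn'.le
        have h3 : (n : ℝ) * (((n : ℝ) + 1) / n - 1) = 1 := by
          field_simp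
          ring
        rw [h3] at h2
        linarith
  have := key m
  rw [sum_sub_distrib, sum_const, card_range, nsmul_eq_mul]
  linarith

theorem hit_sum_abs (s : ℕ) (l1 : ℤ) (h1 : (s : ℤ) ≤ l1) (h2 : l1 ≤ 2 * s) :
    ∑ l ∈ Icc (s : ℤ) (2 * s), (Real.log ((s : ℝ) + 1) - Real.log (((l - l1).natAbs : ℝ) + 1)) ≤
      2 * ((s : ℝ) + 1) := by
  have hm : ∀ l ∈ Icc (s : ℤ) (2 * s), (l - l1).natAbs ∈ range (s + 1) := by
    intro l hl
    rw [mem_Icc] at hl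
    rw [mem_range]
    omega
  rw [← sum_fiberwise_of_maps_to hm]
  have h3 := hit_sum_log (s + 1)
  push_cast at h3
  refine le_trans (sum_le_sum (g := fun j : ℕ =>
    2 * (Real.log ((s : ℝ) + 1) - Real.log ((j : ℝ) + 1))) fun j hj => ?_) ?_
  · have hj' : (j : ℝ) ≤ s := Nat.cast_le.mpr (Nat.lt_succ_iff.mp (mem_range.mp hj))
    have h0 : 0 ≤ Real.log ((s : ℝ) + 1) - Real.log ((j : ℝ) + 1) :=
      sub_nonneg.mpr (Real.log_le_log (by positivity) (by linarith))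
    rw [sum_congr rfl (g := fun _ => Real.log ((s : ℝ) + 1) - Real.log ((j : ℝ) + 1))
      (fun l hl => by rw [(mem_filter.mp hl).2]), sum_const, nsmul_eq_mul]
    refine mul_le_mul_of_nonneg_right ?_ h0
    have : #{l ∈ Icc (s : ℤ) (2 * s) | (l - l1).natAbs = j} ≤ 2 := by
      refine le_trans (card_le_card (t := {l1 + j, l1 - j}) fun l hl => ?_) card_le_two
      have := (mem_filter.mp hl).2
      simp only [mem_insert, mem_singleton]
      omega
    exact_mod_cast this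
  · rw [← mul_sum]
    linarith

theorem t_hit (h : T_LOG) : T_HIT := by
  obtain ⟨-, ψ, ψ1, ψ2, ψ3⟩ := h
  refine ⟨1 / 160, by norm_num, by norm_num, fun p s k hs hk => ?_⟩
  have hs' : (1 : ℝ) ≤ s := by exact_mod_cast hs
  have hcard : (#(Icc (s : ℤ) (2 * s)) : ℝ) = s + 1 := by
    rw [Int.card_Icc, show 2 * (s : ℤ) + 1 - s = ((s + 1 : ℕ) : ℤ) by push_cast; ring,
      Int.toNat_natCast]
    push_cast
    rfl
  set L := Real.log (63 * (s : ℝ) ^ 2) with hL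
  set f0 : Pt → ℝ := fun z => (∑ l ∈ Icc (s : ℤ) (2 * s), (L - ψ (z - k l))) / (s + 1) with hf0
  have low : ∀ (y : Pt) (j : ℕ), (j : ℤ) ≤ nrm y → 2 * Real.log ((j : ℝ) + 1) - 12 ≤ ψ y := by
    intro y j hj
    have hq := (hit_sq_le y).1
    have hj2 : (j : ℤ) ^ 2 ≤ nrm y ^ 2 := pow_le_pow_left₀ (by positivity) hj 2
    by_cases h2 : 2 ≤ y.1 ^ 2 + y.2 ^ 2
    · rw [ψ1 y h2]
      have a1 : ((j : ℤ) + 1) ^ 2 ≤ 6 * (y.1 ^ 2 + y.2 ^ 2 - 1) := by
        nlinarith [sq_nonneg ((j : ℤ) - 1)]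
      have a2 : ((j : ℝ) + 1) ^ 2 ≤ 6 * ((y.1 : ℝ) ^ 2 + (y.2 : ℝ) ^ 2 - 1) := by
        exact_mod_cast a1
      have a0 : (0 : ℝ) < ((j : ℝ) + 1) ^ 2 := by positivity
      have a3 := Real.log_le_log a0 a2
      rw [Real.log_pow, Real.log_mul (by norm_num) (by linarith)] at a3
      have a4 := Real.log_le_sub_one_of_pos (show (0 : ℝ) < 6 by norm_num)
      push_cast at a3
      linarith
    · have a1 := (ψ2 y (by omega)).1
      have a2 : j ≤ 1 := by
        by_contra a2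
        have : (2 : ℤ) ≤ j := by omega
        nlinarith
      have a3 : (j : ℝ) ≤ 1 := by exact_mod_cast a2
      have a4 := Real.log_le_sub_one_of_pos (show (0 : ℝ) < (j : ℝ) + 1 by positivity)
      linarith
  have up : ∀ z, f0 z ≤ 80 := by
    intro z
    obtain ⟨l1, a1, a2, a3⟩ : ∃ l1 : ℤ, (s : ℤ) ≤ l1 ∧ l1 ≤ 2 * s ∧
        ∀ l : ℤ, s ≤ l → l ≤ 2 * s → ((l - l1).natAbs : ℤ) ≤ (l - nrm (z - p)).natAbs := by
      refine ⟨max (s : ℤ) (min (nrm (z - p)) (2 * s)), le_max_left _ _, by omega, ?_⟩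
      intro l _ _
      omega
    have b1 := hit_sum_abs s l1 a1 a2
    have hL' : L ≤ 62 + 2 * Real.log ((s : ℝ) + 1) := by
      rw [hL, Real.log_mul (by norm_num) (by positivity), Real.log_pow]
      have c1 := Real.log_le_sub_one_of_pos (show (0 : ℝ) < 63 by norm_num)
      have c2 := Real.log_le_log (show (0 : ℝ) < s by linarith) (show (s : ℝ) ≤ s + 1 by linarith)
      push_cast
      linarith
    have b2 : ∑ l ∈ Icc (s : ℤ) (2 * s), (L - ψ (z - k l)) ≤ ∑ l ∈ Icc (s : ℤ) (2 * s),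
        (74 + 2 * (Real.log ((s : ℝ) + 1) - Real.log (((l - l1).natAbs : ℝ) + 1))) := by
      refine sum_le_sum fun l hl => ?_
      rw [mem_Icc] at hl
      have c1 := hk l hl.1 hl.2
      have c2 := nrm_tri z (k l) p
      have c3 := nrm_tri (k l) z p
      rw [nrm_sub_comm (k l) z] at c3
      have c4 := a3 l hl.1 hl.2
      have := low (z - k l) (l - l1).natAbs (by omega)
      linarith
    rw [sum_add_distrib, sum_const, nsmul_eq_mul, hcard, ← mul_sum] at b2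
    rw [hf0]
    dsimp only
    rw [div_le_iff₀ (by positivity)]
    linarith
  refine ⟨fun z => max 0 (f0 z) / 80, fun z => ⟨by positivity, ?_⟩, fun z hz => ?_,
    fun z hz => ?_, fun z hz => ?_⟩
  · rw [div_le_one (by norm_num)]
    exact max_le (by norm_num) (up z)
  · have : f0 z ≤ 0 := by
      refine div_nonpos_of_nonpos_of_nonneg (sum_nonpos fun l hl => ?_) (by positivity)
      rw [mem_Icc] at hl
      have c1 := hk l hl.1 hl.2
      have c2 := nrm_tri z (k l) p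
      have c3 : 8 * (s : ℤ) ≤ nrm (z - k l) := by omega
      have c4 := (hit_sq_le (z - k l)).1
      have c5 : (8 * (s : ℤ)) ^ 2 ≤ nrm (z - k l) ^ 2 := pow_le_pow_left₀ (by positivity) c3 2
      have c0 : (1 : ℤ) ≤ s := by omega
      have c6 : 63 * (s : ℤ) ^ 2 ≤ (z - k l).1 ^ 2 + (z - k l).2 ^ 2 - 1 := by nlinarith
      rw [ψ1 _ (by nlinarith), sub_nonpos]
      refine Real.log_le_log (by positivity) ?_
      exact_mod_cast c6
    simp only [max_eq_left this, zero_div]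
  · have b1 : f0 z ≤ avg f0 z := by
      have : avg f0 z = (∑ l ∈ Icc (s : ℤ) (2 * s), (L - avg ψ (z - k l))) / (s + 1) := by
        simp only [hf0, avg, sum_dir, ← add_div, ← sum_add_distrib]
        rw [div_right_comm, sum_div]
        congr 1
        refine sum_congr rfl fun l _ => ?_
        simp only [add_sub_right_comm z _ (k l)]
        ring
      rw [this, hf0]
      refine div_le_div_of_nonneg_right (sum_le_sum fun l hl => ?_) (by positivity)
      rw [mem_Icc] at hl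
      have := ψ3 (z - k l) (sub_ne_zero.mpr (hz l hl.1 hl.2))
      linarith
    simp only [avg, sum_dir] at b1 ⊢
    have d1 := le_max_left 0 (f0 (z + Dir.N.vec))
    have d2 := le_max_left 0 (f0 (z + Dir.E.vec))
    have d3 := le_max_left 0 (f0 (z + Dir.S.vec))
    have d4 := le_max_left 0 (f0 (z + Dir.W.vec))
    have e1 := le_max_right 0 (f0 (z + Dir.N.vec))
    have e2 := le_max_right 0 (f0 (z + Dir.E.vec))
    have e3 := le_max_right 0 (f0 (z + Dir.S.vec))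
    have e4 := le_max_right 0 (f0 (z + Dir.W.vec))
    rcases le_total 0 (f0 z) with h0 | h0
    · rw [max_eq_right h0]
      linarith
    · rw [max_eq_left h0]
      linarith
  · have b1 : 1 / 2 ≤ f0 z := by
      rw [hf0]
      dsimp only
      rw [le_div_iff₀ (by positivity), ← hcard, mul_comm, ← nsmul_eq_mul]
      refine card_nsmul_le_sum _ _ _ fun l hl => ?_
      rw [mem_Icc] at hl
      have c1 := hk l hl.1 hl.2
      have c2 := nrm_tri z p (k l)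
      rw [nrm_sub_comm p (k l)] at c2
      have c3 : nrm (z - k l) ≤ 3 * s := by omega
      have c4 := (hit_sq_le (z - k l)).2
      have c5 : nrm (z - k l) ^ 2 ≤ (3 * (s : ℤ)) ^ 2 := pow_le_pow_left₀ (nrm_nonneg _) c3 2
      have c6 : ψ (z - k l) ≤ Real.log (18 * (s : ℝ) ^ 2) := by
        by_cases h2 : 2 ≤ (z - k l).1 ^ 2 + (z - k l).2 ^ 2
        · rw [ψ1 _ h2]
          have g1 : (0 : ℤ) < (z - k l).1 ^ 2 + (z - k l).2 ^ 2 - 1 := by omega
          have g2 : (z - k l).1 ^ 2 + (z - k l).2 ^ 2 - 1 ≤ 18 * (s : ℤ) ^ 2 := by nlinarith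
          exact Real.log_le_log (by exact_mod_cast g1) (by exact_mod_cast g2)
        · exact (ψ2 _ (by omega)).2.trans (Real.log_nonneg (by nlinarith))
      have c7 : L = Real.log (7 / 2) + Real.log (18 * (s : ℝ) ^ 2) := by
        rw [hL, ← Real.log_mul (by norm_num) (by positivity)]
        congr 1
        ring
      have c8 := Real.one_sub_inv_le_log_of_pos (show (0 : ℝ) < 7 / 2 by norm_num)
      linarith
    have := le_max_right 0 (f0 z)
    linarith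

end Pool.Agent.P.MP_347bd1_pr.M

namespace Pool.Agent.P.MP_347bd1_pr.M

open Classical Finset

theorem hex2_bool : ∀ m0 m1 m2 m3 r0 r1 r2 r3 x : Bool, (m0 = m1 → r0 = r1) → (m1 = m2 → r1 = r2) →
    (m3 = m2 → r3 = r2) → (m0 = m3 → r0 = r3) → (m0 = x → m2 = x → r0 = r2) →
    (m1 = x → m3 = x → r1 = r3) →
    ¬ Odd ((if r3 ∧ r2 ∧ m3 ≠ m2 then 1 else 0) + (if r1 ∧ r2 ∧ m1 ≠ m2 then 1 else 0) +
      (if r0 ∧ r1 ∧ m0 ≠ m1 then 1 else 0) + if r0 ∧ r3 ∧ m0 ≠ m3 then 1 else 0 : ℕ) := by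
  decide

theorem hex2_loc {m0 m1 m2 m3 r0 r1 r2 r3 x : Prop} (h1 : (m0 ↔ m1) → (r0 ↔ r1))
    (h2 : (m1 ↔ m2) → (r1 ↔ r2)) (h3 : (m3 ↔ m2) → (r3 ↔ r2)) (h4 : (m0 ↔ m3) → (r0 ↔ r3))
    (h5 : (m0 ↔ x) → (m2 ↔ x) → (r0 ↔ r2)) (h6 : (m1 ↔ x) → (m3 ↔ x) → (r1 ↔ r3)) :
    ¬ Odd ((if r3 ∧ r2 ∧ ¬ (m3 ↔ m2) then 1 else 0) + (if r1 ∧ r2 ∧ ¬ (m1 ↔ m2) then 1 else 0) +
      (if r0 ∧ r1 ∧ ¬ (m0 ↔ m1) then 1 else 0) +
      if r0 ∧ r3 ∧ ¬ (m0 ↔ m3) then 1 else 0 : ℕ) := by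
  have := hex2_bool (decide m0) (decide m1) (decide m2) (decide m3) (decide r0) (decide r1)
    (decide r2) (decide r3) (decide x)
  simp only [decide_eq_decide, decide_eq_true_eq, ne_eq] at this
  exact this h1 h2 h3 h4 h5 h6

theorem hex2_a {d d' r r' m m' : Prop} (h : ¬ (d ↔ d') ↔ r ∧ r' ∧ ¬ (m ↔ m'))
    (k : r → r' → (m ↔ m')) : d ↔ d' := by
  by_contra h0
  exact (h.1 h0).2.2 (k (h.1 h0).1 (h.1 h0).2.1)

theorem hex2_b {d d' r r' m m' : Prop} (h : ¬ (d ↔ d') ↔ r ∧ r' ∧ ¬ (m ↔ m'))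
    (k : ¬ m → r) (k' : ¬ m' → r') (e : (m ↔ m') → (r ↔ r')) :
    (d ↔ m ∧ r) ↔ (d' ↔ m' ∧ r') := by
  by_cases a : m <;> by_cases a' : m' <;> by_cases b : r <;> by_cases b' : r' <;>
    by_cases c : d <;> simp_all

theorem hex2_c {a b c d m r m' r' m0 r0 : Prop} (e1 : a ↔ b) (e2 : b ↔ c)
    (e3 : (a ↔ m ∧ r) ↔ (d ↔ m0 ∧ r0)) (e4 : (d ↔ ¬ m0 ∧ r0) ↔ (c ↔ ¬ m' ∧ r'))
    (e5 : r → ¬ m) (e6 : r' → m') (e7 : m0 → r0) (e8 : ¬ m0 → r0) : False := by
  have h1 : ¬ (m ∧ r) := fun k => e5 k.2 k.1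
  have h2 : ¬ (¬ m' ∧ r') := fun k => k.1 (e6 k.2)
  rw [iff_false_intro h1, e1, e2] at e3
  rw [iff_false_intro h2] at e4
  have := e3.symm.trans e4.symm
  by_cases k : m0 <;> simp_all

theorem hex2_line {n : ℤ} (hn : 1 ≤ n) (f : ℤ → Prop)
    (h : ∀ i, 1 ≤ i → i + 1 ≤ n → (f i ↔ f (i + 1))) : f 1 ↔ f n := by
  induction n, hn using Int.leInduction with
  | base => rfl
  | succ k hk ih => exact (ih fun i h1 h2 => h i h1 (by omega)).trans (h k hk le_rfl)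

theorem hex2_symm {ξ : Pt → Bool} {c : Bool} {u w : Pt} (h : Lk ξ c u w) : Lk ξ c w u := by
  rcases h with ⟨d, h⟩ | ⟨h1, h2, h3⟩
  · exact Or.inl ⟨d.opp, by simp [h]⟩
  · exact Or.inr ⟨by rwa [abs_sub_comm], by rwa [abs_sub_comm], by
      rwa [min_comm w.1, min_comm w.2]⟩

theorem t_hex2 (h : T_POIN) : T_HEX2 := by
  intro n ξ M hn hM hTB
  by_contra hLR
  obtain ⟨R, cl, cT, pL, c1, pn⟩ : ∃ R : Pt → Prop,
      (∀ c u w, Lk ξ c u w → w ∈ box n → (u ∈ M ↔ c = false) → (w ∈ M ↔ c = false) → R u → R w) ∧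
      (∀ w ∈ M, w.2 = n → R w) ∧ (∀ w ∈ box n, w ∉ M → w.1 = 1 → R w) ∧
      (∀ w, R w → w.2 = 1 → w ∉ M) ∧ ∀ w, R w → w.1 = n → w ∈ M := by
    refine ⟨fun w => (w ∈ M ∧ ∃ a ∈ M, a.2 = n ∧
        Relation.ReflTransGen (fun u w => Lk ξ false u w ∧ w ∈ M) a w) ∨
      (w ∉ M ∧ ∃ a ∈ box n, a ∉ M ∧ a.1 = 1 ∧
        Relation.ReflTransGen (fun u w => Lk ξ true u w ∧ w ∈ box n ∧ w ∉ M) a w),
      ?_, fun w h1 h2 => Or.inl ⟨h1, w, h1, h2, .refl⟩,
      fun w h1 h2 h3 => Or.inr ⟨h2, w, h1, h2, h3, .refl⟩, ?_, ?_⟩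
    · rintro c u w h1 h2 h3 h4 (⟨k, a, k1, k2, k3⟩ | ⟨k, a, k1, k2, k3, k4⟩)
      · obtain rfl := h3.1 k
        exact Or.inl ⟨h4.2 rfl, a, k1, k2, k3.tail ⟨h1, h4.2 rfl⟩⟩
      · obtain rfl : c = true := by simpa using mt h3.2 k
        have k5 : w ∉ M := by simpa using h4
        exact Or.inr ⟨k5, a, k1, k2, k3, k4.tail ⟨h1, h2, k5⟩⟩
    · rintro w (⟨-, a, k1, k2, k3⟩ | ⟨k, -⟩) h1
      exacts [absurd ⟨a, w, k1, k2, h1, k3⟩ hTB, k]
    · rintro w (⟨k, -⟩ | ⟨-, a, k1, k2, k3, k4⟩) h1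
      exacts [k, absurd ⟨a, w, k1, k2, k3, h1, k4⟩ hLR]
  have cl2 : ∀ c u w, Lk ξ c u w → u ∈ box n → w ∈ box n → (u ∈ M ↔ c = false) →
      (w ∈ M ↔ c = false) → (R u ↔ R w) := fun c u w h1 h2 h3 h4 h5 =>
    ⟨cl c u w h1 h3 h4 h5, cl c w u (hex2_symm h1) h2 h5 h4⟩
  have nn : ∀ u w, NN u w → u ∈ box n → w ∈ box n → (u ∈ M ↔ w ∈ M) → (R u ↔ R w) :=
    fun u w h1 h2 h3 h4 =>
      cl2 (decide (u ∉ M)) u w (Or.inl h1) h2 h3 (by simp) (by simp [h4])
  obtain ⟨D, -, hD, -⟩ := h n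
    ((ebox n).filter fun e => R (ea e) ∧ R (eb e) ∧ ¬ (ea e ∈ M ↔ eb e ∈ M)) (filter_subset _ _)
    (by
      rintro ⟨a, b⟩ hp
      have hc := cr_mem_ebox hp
      have h0 : (a, b) ∈ box n := Corner.mem_box (by simp [Corner]) hp
      have h1 : (a + 1, b) ∈ box n := Corner.mem_box (by simp [Corner]) hp
      have h2 : (a + 1, b + 1) ∈ box n := Corner.mem_box (by simp [Corner]) hp
      have h3 : (a, b + 1) ∈ box n := Corner.mem_box (by simp [Corner]) hp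
      simp only [deg_eq4, mem_filter, hc, true_and, Set.mem_empty_iff_false, iff_false]
      simp only [cr, ea, eb, if_true, Prod.mk_add_mk, add_zero, Bool.false_eq_true, if_false]
      convert hex2_loc (x := ξ (a, b) = false) (nn _ _ ⟨.E, by simp [Dir.vec]⟩ h0 h1)
        (nn _ _ ⟨.N, by simp [Dir.vec]⟩ h1 h2) (nn _ _ ⟨.E, by simp [Dir.vec]⟩ h3 h2)
        (nn _ _ ⟨.N, by simp [Dir.vec]⟩ h0 h3)
        (cl2 _ _ _ (Or.inr ⟨by simp, by simp, by simp⟩) h0 h2)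
        (cl2 _ _ _ (Or.inr ⟨by simp, by simp, by simp⟩) h1 h3))
  have key : ∀ e : Edge, ea e ∈ box n → eb e ∈ box n → (¬ (ea e ∈ D ↔ eb e ∈ D) ↔
      R (ea e) ∧ R (eb e) ∧ ¬ (ea e ∈ M ↔ eb e ∈ M)) := fun e h1 h2 => by
    have := Finset.ext_iff.1 hD e
    simpa only [mem_inter, mem_filter, mem_cut, mem_ebox, h1, h2, and_true, true_and] using this
  have hn' : (1 : ℤ) ≤ n := by exact_mod_cast hn
  have bx : ∀ x y : ℤ, 1 ≤ x → x ≤ n → 1 ≤ y → y ≤ n → (x, y) ∈ box n := fun x y h1 h2 h3 h4 =>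
    mem_box.2 ⟨h1, h2, h3, h4⟩
  have kE : ∀ x y : ℤ, (x, y) ∈ box n → (x + 1, y) ∈ box n →
      (¬ ((x, y) ∈ D ↔ (x + 1, y) ∈ D) ↔
        R (x, y) ∧ R (x + 1, y) ∧ ¬ ((x, y) ∈ M ↔ (x + 1, y) ∈ M)) := fun x y h1 h2 => by
    simpa [ea, eb] using key ((x, y), true) h1 (by simpa [eb] using h2)
  have kN : ∀ x y : ℤ, (x, y) ∈ box n → (x, y + 1) ∈ box n →
      (¬ ((x, y) ∈ D ↔ (x, y + 1) ∈ D) ↔
        R (x, y) ∧ R (x, y + 1) ∧ ¬ ((x, y) ∈ M ↔ (x, y + 1) ∈ M)) := fun x y h1 h2 => by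
    simpa [ea, eb] using key ((x, y), false) h1 (by simpa [eb] using h2)
  have e1 := hex2_line hn' (fun i => (i, 1) ∈ D) fun i h1 h2 =>
    hex2_a (kE i 1 (bx _ _ h1 (by omega) le_rfl hn') (bx _ _ (by omega) h2 le_rfl hn'))
      fun k k' => iff_of_false (c1 _ k rfl) (c1 _ k' rfl)
  have e2 := hex2_line hn' (fun i => ((n : ℤ), i) ∈ D) fun i h1 h2 =>
    hex2_a (kN n i (bx _ _ hn' le_rfl h1 (by omega)) (bx _ _ hn' le_rfl (by omega) h2))
      fun k k' => iff_of_true (pn _ k rfl) (pn _ k' rfl)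
  have e3 := hex2_line hn' (fun i => ((1, i) ∈ D ↔ (1, i) ∈ M ∧ R (1, i))) fun i h1 h2 => by
    have k1 := bx 1 i le_rfl hn' h1 (by omega)
    have k2 := bx 1 (i + 1) le_rfl hn' (by omega) h2
    exact hex2_b (kN 1 i k1 k2) (fun k => pL _ k1 k rfl) (fun k => pL _ k2 k rfl)
      (nn _ _ ⟨.N, by simp [Dir.vec]⟩ k1 k2)
  have e4 := hex2_line hn' (fun i => ((i, (n : ℤ)) ∈ D ↔ (i, (n : ℤ)) ∉ M ∧ R (i, n)))
    fun i h1 h2 => by
    have k1 := bx i n h1 (by omega) hn' le_rfl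
    have k2 := bx (i + 1) n (by omega) h2 hn' le_rfl
    refine hex2_b ?_ (fun k => cT _ (not_not.1 k) rfl) (fun k => cT _ (not_not.1 k) rfl)
      fun k => nn _ _ ⟨.E, by simp [Dir.vec]⟩ k1 k2 (not_iff_not.1 k)
    rw [not_iff_not (a := (i, (n : ℤ)) ∈ M)]
    exact kE i n k1 k2
  exact hex2_c e1 e2 e3 e4 (fun k => c1 (1, 1) k rfl) (fun k => pn (n, n) k rfl)
    (fun k => cT (1, n) k rfl) fun k => pL _ (bx 1 n le_rfl hn' hn' le_rfl) k rfl

theorem t_hex (h1 : T_HEX1) (h2 : T_HEX2) : T_HEX := fun n ξ M hn hM =>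
  ⟨h1 n ξ M hM, h2 n ξ M hn hM⟩

end Pool.Agent.P.MP_347bd1_pr.M

namespace Pool.Agent.P.MP_347bd1_pr.M

open Classical Finset

open scoped ENNReal NNReal

theorem arc_shift {m : ℕ} {f : ℕ → ZMod 2} (h : ∀ i, f (i + m) = f i) (k : ℕ) :
    ∑ i ∈ range m, f (k + i) = ∑ i ∈ range m, f i := by
  induction k with
  | zero => simp
  | succ k ih =>
    have a := sum_range_succ (fun i => f (k + i)) m
    have b := sum_range_succ' (fun i => f (k + i)) m
    simp only [h, add_zero] at a b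
    rw [← ih, add_right_cancel (a.symm.trans b)]
    exact sum_congr rfl fun i _ => by congr 1; omega

theorem arc_cyc {m : ℕ} {t A B : ℕ → Prop} (ht : ∀ i, t (i + m) ↔ t i) (hA : ∀ i, A (i + m) ↔ A i)
    (hd : ∀ i, A i → ¬ B i) (hc : ∀ i, ¬ (t i ↔ t (i + 1)) ↔ A i ∨ B i)
    (hs : ∑ i ∈ range m, (if A i then 1 else 0 : ZMod 2) = 1) :
    ∃ j l, l ≤ m ∧ (∀ s ≤ l, t (j + 1 + s)) ∧
      (A j ∧ B (j + 1 + l) ∨ B j ∧ A (j + 1 + l)) := by
  by_contra hn
  obtain ⟨i0, h0⟩ : ∃ i, ¬ t i := by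
    by_contra k
    push Not at k
    rw [sum_eq_zero fun i _ => if_neg fun a => (hc i).2 (.inl a) (iff_of_true (k _) (k _))] at hs
    exact zero_ne_one hs
  have inv : ∀ k ≤ m, (¬ t (i0 + k) →
      ∑ i ∈ range k, (if A (i0 + i) then 1 else 0 : ZMod 2) = 0) ∧ (t (i0 + k) →
      ∃ j l, j + 1 + l = i0 + k ∧ l ≤ k ∧ (∀ s ≤ l, t (j + 1 + s)) ∧
        (A j ∧ ∑ i ∈ range k, (if A (i0 + i) then 1 else 0 : ZMod 2) = 1 ∨
          B j ∧ ∑ i ∈ range k, (if A (i0 + i) then 1 else 0 : ZMod 2) = 0)) := by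
    intro k
    induction k with
    | zero => exact fun _ => ⟨fun _ => rfl, fun a => absurd a h0⟩
    | succ k ih =>
      intro hk
      obtain ⟨i1, i2⟩ := ih (by omega)
      have c := hc (i0 + k)
      rw [sum_range_succ, ← add_assoc]
      by_cases a : t (i0 + k)
      · obtain ⟨j, l, e, hl, h1, h2⟩ := i2 a
        refine ⟨fun b => ?_, fun b => ?_⟩
        · have no : ¬ (A j ∧ B (i0 + k) ∨ B j ∧ A (i0 + k)) := fun z =>
            hn ⟨j, l, by omega, h1, e ▸ z⟩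
          rcases c.1 fun z => b (z.1 a) with z | z <;> rcases h2 with ⟨y, h2⟩ | ⟨y, h2⟩
          · rw [h2, if_pos z]; rfl
          · exact absurd (.inr ⟨y, z⟩) no
          · exact absurd (.inl ⟨y, z⟩) no
          · rw [h2, if_neg fun x => hd _ x z, add_zero]
        · rw [if_neg fun z => c.2 (.inl z) (iff_of_true a b), add_zero]
          refine ⟨j, l + 1, by omega, by omega, fun s hs => ?_, h2⟩
          rcases hs.eq_or_lt with rfl | hs
          · rwa [← add_assoc, e]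
          · exact h1 s (by omega)
      · rw [i1 a, zero_add]
        refine ⟨fun b => if_neg fun z => c.2 (.inl z) (iff_of_false a b), fun b =>
          ⟨i0 + k, 0, rfl, by omega, fun s hs => by rwa [Nat.le_zero.1 hs], ?_⟩⟩
        rcases c.1 fun z => a (z.2 b) with z | z
        · exact .inl ⟨z, if_pos z⟩
        · exact .inr ⟨z, if_neg fun x => hd _ x z⟩
  have := (inv m le_rfl).1 (mt (ht i0).1 h0)
  rw [arc_shift (f := fun i => if A i then 1 else 0) (fun i => if_congr (hA i) rfl rfl), hs] at this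
  exact one_ne_zero this

/-- The points of the circuit. -/
def arcC (o : Pt) (a r : ℕ) : Pt :=
  if r < a then (o.1 + r, o.2) else if r < 2 * a then (o.1 + a, o.2 + r - a)
  else if r < 3 * a then (o.1 + 3 * a - r, o.2 + a) else (o.1, o.2 + 4 * a - r)

/-- The directions of the circuit. -/
def arcD (a r : ℕ) : Dir :=
  if r < a then .E else if r < 2 * a then .N else if r < 3 * a then .W else .S

theorem arc_step (o : Pt) {a : ℕ} (ha : 0 < a) (i : ℕ) :
    arcC o a ((i + 1) % (4 * a)) = arcC o a (i % (4 * a)) + (arcD a (i % (4 * a))).vec := by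
  have h := Nat.mod_lt i (by omega : 0 < 4 * a)
  rw [← Nat.mod_add_mod]
  generalize i % (4 * a) = r at h
  rcases (Nat.succ_le_of_lt h).eq_or_lt with k | k
  · rw [show r + 1 = 4 * a from k, Nat.mod_self]
    unfold arcC arcD
    split_ifs <;> simp [Dir.vec, Prod.ext_iff] <;> omega
  · rw [Nat.mod_eq_of_lt k]
    unfold arcC arcD
    split_ifs <;> simp [Dir.vec, Prod.ext_iff] <;> omega

theorem arc_nrm (v : Pt) (R : ℕ) {r : ℕ} (h : r < 4 * (2 * R + 1)) :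
    (R : ℤ) ≤ nrm (arcC (v.1 - R, v.2 - R) (2 * R + 1) r - v) ∧
      nrm (arcC (v.1 - R, v.2 - R) (2 * R + 1) r - v) ≤ R + 1 := by
  rw [← not_lt, nrm_lt_iff, nrm_le_iff]
  unfold arcC
  split_ifs <;> simp only [Prod.fst_sub, Prod.snd_sub] <;> omega

theorem arc_tel (f : ℕ → ZMod 2) (a : ℕ) : ∑ j ∈ range a, (f (j + 1) + f j) = f a + f 0 := by
  simp only [← CharTwo.sub_eq_add]
  exact sum_range_sub f a

theorem arc_sum (χ : Edge → ZMod 2) (o : Pt) (a : ℕ) :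
    ∑ r ∈ range (4 * a), χ (inc (arcC o a r) (arcD a r)) =
      ∑ i ∈ range a, ∑ j ∈ range a, ∑ d, χ (cr (o.1 + i, o.2 + j) d) := by
  have e1 : ∑ i ∈ range a, ∑ j ∈ range a, ∑ d, χ (cr (o.1 + i, o.2 + j) d) =
      ∑ i ∈ range a, (χ ((o.1 + i, o.2 + a), true) + χ ((o.1 + i, o.2), true)) +
        ∑ j ∈ range a, (χ ((o.1 + a, o.2 + j), false) + χ ((o.1, o.2 + j), false)) := by
    have a1 := fun i : ℕ => arc_tel (fun j => χ ((o.1 + i, o.2 + j), true)) a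
    have a2 := fun j : ℕ => arc_tel (fun i => χ ((o.1 + i, o.2 + j), false)) a
    simp only [Nat.cast_zero, add_zero] at a1 a2
    simp only [← a1, ← a2]
    rw [sum_comm (s := range a) (t := range a) (f := fun j i : ℕ =>
      χ ((o.1 + (i + 1 : ℕ), o.2 + j), false) + χ ((o.1 + i, o.2 + j), false)), ← sum_add_distrib]
    refine sum_congr rfl fun i _ => ?_
    rw [← sum_add_distrib]
    refine sum_congr rfl fun j _ => ?_
    simp only [sum_dir, cr, Nat.cast_add, Nat.cast_one, add_assoc]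
    ring
  rw [e1, show 4 * a = a + a + a + a by ring, sum_range_add, sum_range_add, sum_range_add,
    sum_add_distrib, sum_add_distrib, ← sum_range_reflect fun i => χ ((o.1 + i, o.2 + a), true),
    ← sum_range_reflect fun j => χ ((o.1, o.2 + j), false)]
  have k : ∀ p q r s p' q' r' s' : ZMod 2, p = p' → q = q' → r = r' → s = s' →
      p + q + r + s = r' + p' + (q' + s') := by
    rintro p q r s _ _ _ _ rfl rfl rfl rfl; ring
  refine k _ _ _ _ _ _ _ _ ?_ ?_ ?_ ?_ <;> refine sum_congr rfl fun i hi => congrArg χ ?_ <;>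
    have := mem_range.1 hi <;> unfold arcC arcD <;> split_ifs <;>
    simp [inc, Prod.ext_iff] <;> omega

end Pool.Agent.P.MP_347bd1_pr.M

namespace Pool.Agent.P.MP_347bd1_pr.M

open Classical Finset

open scoped ENNReal NNReal

/-- The ends of `e` are `a` and `b`. -/
def bar_En (e : Edge) (a b : Pt) : Prop := (ea e = a ∧ eb e = b) ∨ (ea e = b ∧ eb e = a)

theorem bar_or {e : Edge} {a b : Pt} (h : bar_En e a b) (P : Pt → Prop) :
    P (ea e) ∨ P (eb e) ↔ P a ∨ P b := by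
  rcases h with ⟨rfl, rfl⟩ | ⟨rfl, rfl⟩
  exacts [Iff.rfl, or_comm]

theorem bar_and {e : Edge} {a b : Pt} (h : bar_En e a b) {P : Pt → Prop}
    (k : P (ea e) ∧ P (eb e)) : P a ∧ P b := by
  rcases h with ⟨rfl, rfl⟩ | ⟨rfl, rfl⟩
  exacts [k, k.symm]

/-- The corners and the sides of a plaquette, seen from one side. -/
theorem bar_sq (q : Pt) (d : Dir) : ∃ (a b c f : Pt) (d1 d2 : Dir), bar_En (cr q d) a b ∧
    bar_En (cr q d1) a c ∧ bar_En (cr q d2) b f ∧ bar_En (cr q d.opp) c f ∧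
    (∀ z, Corner q z → z = a ∨ z = b ∨ z = c ∨ z = f) ∧
    (∀ d', d' = d ∨ d' = d1 ∨ d' = d2 ∨ d' = d.opp) ∧ ∀ η, Odd (deg η q) → cr q d ∉ η →
      (cr q d1 ∈ η → (cr q d2 ∈ η ↔ cr q d.opp ∈ η)) ∧
        (cr q d2 ∈ η → (cr q d1 ∈ η ↔ cr q d.opp ∈ η)) := by
  obtain ⟨x, y⟩ := q
  cases d
  on_goal 1 => refine ⟨(x, y + 1), (x + 1, y + 1), (x, y), (x + 1, y), .W, .E, ?_⟩
  on_goal 2 => refine ⟨(x + 1, y), (x + 1, y + 1), (x, y), (x, y + 1), .S, .N, ?_⟩
  on_goal 3 => refine ⟨(x, y), (x + 1, y), (x, y + 1), (x + 1, y + 1), .W, .E, ?_⟩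
  on_goal 4 => refine ⟨(x, y), (x, y + 1), (x + 1, y), (x + 1, y + 1), .S, .N, ?_⟩
  all_goals
    refine ⟨by simp [bar_En, cr, ea, eb], by simp [bar_En, cr, ea, eb],
      by simp [bar_En, cr, ea, eb], by simp [bar_En, cr, ea, eb, Dir.opp], ?_, ?_, ?_⟩
    · rintro ⟨u, w⟩ h
      simp only [Corner, Prod.mk.injEq] at h ⊢
      grind
    · intro d'
      cases d' <;> simp [Dir.opp]
    · intro η
      rw [deg_eq4]
      simp only [Dir.opp]
      by_cases h1 : cr (x, y) .N ∈ η <;> by_cases h2 : cr (x, y) .E ∈ η <;>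
        by_cases h3 : cr (x, y) .S ∈ η <;> by_cases h4 : cr (x, y) .W ∈ η <;>
        simp only [h1, h2, h3, h4] <;> decide

theorem bar_side {η : Finset Edge} {q : Pt} (h : Odd (deg η q)) : ∃ d, cr q d ∈ η := by
  obtain ⟨d, hd⟩ := card_pos.1 h.pos
  exact ⟨d, (mem_filter.1 hd).2⟩

/-- The edges of `D` together with the edges that are cut off from the top by `D`. -/
noncomputable def bar_E (n : ℕ) (S : Finset Pt) (X D : Finset Edge) : Finset Edge :=
  D ∪ (eS n S).filter fun e => ¬ TopConn n (D ∪ X) (ea e)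

variable {n : ℕ} {S T P : Finset Pt} {Lf Rg X X1 X2 D : Finset Edge} {v : Pt} {W : List Dir}

theorem bar_key {w : Pt} (h : TopConn n (D ∪ X) w) : TopConn n (bar_E n S X D) w := by
  obtain ⟨u, h1, h2, h3⟩ := h
  induction h3 with
  | refl => exact topConn_top _ h1 h2
  | @tail a b k1 k2 ih =>
    obtain ⟨d, k, rfl⟩ := k2
    obtain ⟨k3, k4⟩ := mem_sdiff.1 k
    have ta : TopConn n (D ∪ X) a := ⟨u, h1, h2, k1⟩
    refine ih.step k3 fun m => ?_
    rcases mem_union.1 m with m | m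
    · exact k4 (mem_union_left _ m)
    · refine (mem_filter.1 m).2 ?_
      rcases ends_inc a d with e | e <;> rw [e.1]
      exacts [ta, ta.step k3 k4]

theorem bar_sub (hD : D ⊆ eS n S) : bar_E n S X D ⊆ eS n S :=
  union_subset hD (filter_subset _ _)

theorem bar_sc (h : Good n S X) (hD : D ⊆ eS n S) : SC n (bar_E n S X D) := by
  refine ⟨(bar_sub hD).trans (eS_subset n S),
    fun e he => h.eS_top e (mem_union_left _ (bar_sub hD he)), fun e he he' => ?_⟩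
  by_cases k : e ∈ eS n S
  · exact bar_key (by_contra fun m => he' (mem_union_right _ (mem_filter.2 ⟨k, m⟩)))
  · refine (h.conn _ (by_contra fun m => k (mem_eS.2 ⟨he, .inl m⟩))).mono ?_
    exact (bar_sub hD).trans subset_union_left

theorem bar_Dl (hs : Str2 n S T Lf Rg) (hP : P ⊆ box n \ S) : Dl n Lf P ⊆ eS n S := by
  intro e he
  rcases mem_union.1 he with k | k
  · exact (hs.lf e k).1
  · exact mem_eS.2 ⟨(mem_inter.1 k).2, (mem_einc.1 (mem_inter.1 k).1).imp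
      (fun m => (mem_sdiff.1 (hP m)).2) fun m => (mem_sdiff.1 (hP m)).2⟩

end Pool.Agent.P.MP_347bd1_pr.M

namespace Pool.Agent.P.MP_347bd1_pr.M

open Classical Finset

open scoped ENNReal NNReal

theorem beur_bdry {p z : Pt} {r : ℤ} {d : Dir} (hz : z ∈ ball p (r - 1))
    (hd : z + d.vec ∉ ball p (r - 1)) : nrm (z + d.vec - p) = r := by
  rw [mem_ball] at hz hd
  have := (nrm_step z p d).1
  omega

theorem beur_super (N : Net) {f : Pt → ℝ} (h0 : ∀ z, 0 ≤ f z ∧ f z ≤ 1) {z : Pt}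
    (h : (∀ d, N.mv z d) → f z ≤ avg f z) :
    N.Pr (fun y => 1 - f y / 5) z ≤ 1 - f z / 5 := by
  by_cases hm : ∀ d, N.mv z d
  · have := h hm
    rw [Net.Pr_eq_avg hm, avg_eq]
    rw [avg_eq] at this
    linarith
  · obtain ⟨d, hd⟩ := not_forall.1 hm
    have h1 : ∀ e : Dir, (if N.mv z e then (1 - f (z + e.vec) / 5) / 4 else (1 - f z / 5) / 16) ≤
        1 / 4 := fun e => by
      split_ifs
      · linarith [(h0 (z + e.vec)).1]
      · linarith [(h0 z).1]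
    have h2 : (if N.mv z d then (1 - f (z + d.vec) / 5) / 4 else (1 - f z / 5) / 16) =
        (1 - f z / 5) / 16 := if_neg hd
    rw [Net.Pr, sum_dir]
    cases d <;> linarith [h1 .N, h1 .E, h1 .S, h1 .W, (h0 z).2]

theorem beur_step {c : ℝ} (H : ∀ (p : Pt) (s : ℕ) (k : ℤ → Pt), 1 ≤ s →
      (∀ l : ℤ, s ≤ l → l ≤ 2 * s → nrm (k l - p) = l) →
      ∃ f : Pt → ℝ, (∀ z, 0 ≤ f z ∧ f z ≤ 1) ∧ (∀ z, 10 * (s : ℤ) ≤ nrm (z - p) → f z = 0) ∧
        (∀ z, (∀ l : ℤ, s ≤ l → l ≤ 2 * s → z ≠ k l) → f z ≤ avg f z) ∧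
        ∀ z, nrm (z - p) ≤ s → c ≤ f z)
    {N : Net} {u : Pt → ℝ} {p : Pt} {s : ℕ} {B : ℝ} (hF : Far N) (hs : 2 ≤ s) (hB : 0 ≤ B)
    (hK : NearK N (s - 2) p) (h1 : ∀ z, nrm (z - p) < 10 * s → u z ≤ N.Pr u z)
    (h2 : ∀ z, nrm (z - p) ≤ 10 * s → u z ≤ B) :
    ∀ z, nrm (z - p) ≤ s → u z ≤ (1 - c / 5) * B := by
  obtain ⟨q, d, hq, hqp⟩ := hK
  have hk : ∀ l : ℤ, ∃ q', (s : ℤ) ≤ l → nrm (q' - p) = l ∧ ∃ d', ¬ N.mv q' d' := fun l => by
    by_cases hl : (s : ℤ) ≤ l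
    · obtain ⟨q', d', k1, k2⟩ := hF q d p l hq (by omega)
      exact ⟨q', fun _ => ⟨k1, d', k2⟩⟩
    · exact ⟨p, fun h => absurd h hl⟩
  choose k hk using hk
  obtain ⟨f, f0, f1, f2, f3⟩ := H p s k (by omega) fun l hl _ => (hk l hl).1
  have hc := N.compare (u := u) (w := fun y => B * (1 - f y / 5)) (ball p (10 * s - 1))
    (fun z hz => by
      have a1 := h1 z (by have := mem_ball.1 hz; omega)
      have a2 := beur_super N f0 (z := z) fun hm => f2 z fun l hl _ e => by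
        obtain ⟨d', hd'⟩ := (hk l hl).2
        exact hd' (e ▸ hm d')
      have a3 := mul_le_mul_of_nonneg_left a2 hB
      rw [Net.Pr_mul]
      linarith)
    (fun z hz d _ hd => by
      have a1 := beur_bdry hz hd
      rw [f1 _ a1.ge]
      simpa using h2 _ a1.le)
  intro z hz
  have a1 := hc z (mem_ball.2 (by omega))
  have a2 := mul_le_mul_of_nonneg_left (f3 z hz) hB
  linarith

theorem t_beur (h : T_HIT) : T_BEUR := by
  obtain ⟨c, hc0, hc1, H⟩ := h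
  refine ⟨c / 5, by linarith, by linarith, fun N u p s k B hF hs hB hK h1 h2 => ?_⟩
  induction k generalizing s with
  | zero => simpa using h2
  | succ k ih =>
    have e : (10 : ℤ) ^ k * ((10 * s : ℕ) : ℤ) = 10 ^ (k + 1) * s := by push_cast; ring
    have h3 : (10 : ℤ) * s ≤ 10 ^ (k + 1) * s :=
      mul_le_mul_of_nonneg_right (le_self_pow₀ (by norm_num) k.succ_ne_zero) (by positivity)
    have h4 := ih (10 * s) (by omega) (by
      obtain ⟨q, d, hq, hqp⟩ := hK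
      exact ⟨q, d, hq, by push_cast; omega⟩) (e ▸ h1) (e ▸ h2)
    intro z hz
    rw [pow_succ', mul_assoc]
    exact beur_step H hF hs (mul_nonneg (pow_nonneg (by linarith) k) hB) hK
      (fun y hy => h1 y (hy.trans_le h3)) (fun y hy => h4 y (by exact_mod_cast hy)) z hz

theorem beur_avg_mul (a : ℝ) (f : Pt → ℝ) (z : Pt) : avg (fun y => a * f y) z = a * avg f z := by
  rw [avg_eq, avg_eq]; ring

theorem t_harn (h : T_HIT) : T_HARN := by
  obtain ⟨c, hc0, hc1, H⟩ := h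
  refine ⟨c, hc0, hc1, fun u p s hs h0 h1 x y hx hy => ?_⟩
  have hk : ∀ l : ℤ, ∃ q, (s : ℤ) ≤ l → l ≤ 2 * s → nrm (q - p) = l ∧ u y ≤ u q := fun l => by
    by_cases hl : (s : ℤ) ≤ l ∧ l ≤ 2 * s
    · obtain ⟨q, hq, hm⟩ := exists_max_image ((ball p l).filter fun z => nrm (z - p) = l) u
        ⟨p + (l, 0), by
          have : nrm (p + (l, 0) - p) = l := by
            rw [add_sub_cancel_left, nrm_eq_iff]; simp; omega
          exact mem_filter.2 ⟨mem_ball.2 this.le, this⟩⟩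
      have hm' : ∀ z, nrm (z - p) = l → u z ≤ u q := fun z hz =>
        hm z (mem_filter.2 ⟨mem_ball.2 hz.le, hz⟩)
      refine ⟨q, fun _ _ => ⟨(mem_filter.1 hq).2, ?_⟩⟩
      by_cases hyl : nrm (y - p) = l
      · exact hm' y hyl
      · refine avg_compare (u := u) (w := fun _ => u q) (ball p (l - 1)) (fun z hz => ?_)
          (fun z hz d hd => hm' _ (beur_bdry hz hd)) y (mem_ball.2 (by omega))
        have a1 := h1 z (by have := mem_ball.1 hz; omega)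
        rw [← a1, avg_eq]
        linarith
    · exact ⟨p, fun a b => absurd ⟨a, b⟩ hl⟩
  choose k hk using hk
  obtain ⟨f, f0, f1, f2, f3⟩ := H p s k hs fun l a b => (hk l a b).1
  have hy0 : 0 ≤ u y := h0 y (by omega)
  have hc := avg_compare (u := fun z => u y * f z) (w := u)
    ((ball p (10 * s - 1)).filter fun z => ∀ l : ℤ, s ≤ l → l ≤ 2 * s → z ≠ k l)
    (fun z hz => by
      obtain ⟨z1, z2⟩ := mem_filter.1 hz
      have a1 := h1 z (by have := mem_ball.1 z1; omega)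
      have a2 := mul_le_mul_of_nonneg_left (f2 z z2) hy0
      rw [beur_avg_mul]
      linarith)
    (fun z hz d hd => by
      by_cases hb : z + d.vec ∈ ball p (10 * s - 1)
      · have : ¬ ∀ l : ℤ, s ≤ l → l ≤ 2 * s → z + d.vec ≠ k l := fun a => hd (mem_filter.2 ⟨hb, a⟩)
        push Not at this
        obtain ⟨l, a, b, e⟩ := this
        rw [e]
        exact (mul_le_of_le_one_right hy0 (f0 _).2).trans (hk l a b).2
      · have a1 := beur_bdry (mem_filter.1 hz).1 hb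
        rw [f1 _ a1.ge, mul_zero]
        exact h0 _ a1.le)
  by_cases hxk : ∀ l : ℤ, s ≤ l → l ≤ 2 * s → x ≠ k l
  · have a1 := hc x (mem_filter.2 ⟨mem_ball.2 (by omega), hxk⟩)
    have a2 := mul_le_mul_of_nonneg_left (f3 x hx) hy0
    linarith
  · push Not at hxk
    obtain ⟨l, a, b, e⟩ := hxk
    rw [e]
    exact (mul_le_of_le_one_left hy0 hc1).trans (hk l a b).2

end Pool.Agent.P.MP_347bd1_pr.M

namespace Pool.Agent.P.MP_347bd1_pr.M

open Classical Finset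

open scoped ENNReal NNReal

variable {n : ℕ} {E : Finset Edge}

theorem kc_sq2 : Real.sqrt 2 ^ 2 = 2 := Real.sq_sqrt (by norm_num)

theorem kc_form (a b c d : ℝ) : 0 ≤ 2 * (a ^ 2 + b ^ 2 + c ^ 2 + d ^ 2) -
    2 * Real.sqrt 2 * (a * b + b * c + c * d - d * a) := by
  have := kc_sq2
  nlinarith [sq_nonneg (a - Real.sqrt 2 * b + c), sq_nonneg (b - Real.sqrt 2 * c + d),
    sq_nonneg (c - Real.sqrt 2 * d - a), sq_nonneg (d + Real.sqrt 2 * a - b)]

theorem kc_mem_ray {w : Pt} {e : Edge} :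
    e ∈ ray n w ↔ e.2 = false ∧ e.1.1 = w.1 ∧ w.2 ≤ e.1.2 ∧ e.1.2 < n := by
  obtain ⟨⟨a, b⟩, c⟩ := e
  simp only [ray, mem_image, mem_Ico, Prod.mk.injEq]
  constructor
  · rintro ⟨j, h, ⟨rfl, rfl⟩, rfl⟩; exact ⟨rfl, rfl, h⟩
  · rintro ⟨rfl, rfl, h⟩; exact ⟨b, h, ⟨rfl, rfl⟩, rfl⟩

section

variable (h : T_KC1) (sc : SC n E)

include h sc

end

end Pool.Agent.P.MP_347bd1_pr.M

namespace Pool.Agent.P.MP_347bd1_pr.M

open Classical Finset

open scoped ENNReal NNReal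

theorem ni_corner {p w v : Pt} (h : Corner p w) : nrm (w - v) ≤ nrm (p - v) + 1 := by
  have h1 := nrm_le_iff.1 (le_refl (nrm (p - v)))
  rw [nrm_le_iff]
  unfold Corner at h
  simp only [Prod.fst_sub, Prod.snd_sub] at h1 ⊢
  omega

theorem ni_ring {n : ℕ} {z : Pt} {d : Dir} (h1 : z ∈ intr n) (h2 : z + d.vec ∉ intr n) :
    OnRing n (ea (cr z d)) ∧ OnRing n (eb (cr z d)) := by
  rw [mem_intr] at h1 h2
  cases d <;> simp [OnRing, cr, ea, eb, Dir.vec] at h2 ⊢ <;> omega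

theorem ni_noexit {n : ℕ} {S : Finset Pt} {X1 X2 E : Finset Edge} {v z : Pt} {R : ℤ}
    (hL : Loc n S (X1 ∪ X2) v R) (hE : E ⊆ eS n S ∪ X1) (hz : nrm (z - v) + 1 ≤ R) (d : Dir) :
    ¬ (net n E).st z d := by
  rintro ⟨h1, h2, h3⟩
  have c := corner_cr z d
  have r := ni_ring h1 h2
  have a1 := (ni_corner (v := v) c.1).trans hz
  have a2 := (ni_corner (v := v) c.2).trans hz
  rcases mem_union.1 (hE h3) with k | k
  · rcases (mem_eS.1 k).2 with m | m
    · exact m (hL.ring _ (c.1.mem_box h1) a1 r.1)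
    · exact m (hL.ring _ (c.2.mem_box h1) a2 r.2)
  · exact absurd (hL.far _ (mem_union_left _ k)).1 (not_lt.2 a1)

theorem ni_count {m l : ℕ} {P Q T : ℕ → Prop} (hm : m = 4 * l)
    (h : ∀ j < m, ¬ P j → ¬ Q j → T j) (hP : ¬ l ≤ ((range m).filter P).card)
    (hQ : ¬ l ≤ ((range m).filter Q).card) : 2 * l ≤ ((range m).filter T).card := by
  have h1 : range m ⊆ (range m).filter P ∪ (range m).filter Q ∪ (range m).filter T := by
    intro j hj
    simp only [mem_union, mem_filter]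
    have := h j (mem_range.1 hj)
    grind
  have h2 := (card_le_card h1).trans ((card_union_le _ _).trans
    (add_le_add_left (card_union_le _ _) _))
  rw [card_range] at h2
  omega

end Pool.Agent.P.MP_347bd1_pr.M
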