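import Pool.Agent.P.MP_347bd1_pr.M.L1
import Pool.Agent.P.MP_347bd1_pr.M.L2
import Pool.Agent.P.MP_347bd1_pr.M.L3
import Pool.Agent.P.MP_347bd1_pr.M.L4

/-!
Definitions and intermediate statements for the stability of crossings up to diffusive times.
-/

set_option autoImplicit false

namespace Pool.Agent.P.MP_347bd1_pr.M

open Classical Finset Filter Topology
open scoped ENNReal NNReal

/-! ### Steps of the fixed time result that are used again -/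

theorem f_hex : T_HEX := t_hex t_hex1 (t_hex2 t_poin)
theorem f_dec2 : T_DEC2 := t_dec2 (t_lsm t_poin)
theorem f_sep : T_SEP := t_sep t_poin
theorem f_hit : T_HIT := t_hit t_log
theorem f_beur : T_BEUR := t_beur f_hit
theorem f_cell : T_CELL := t_cell (t_flux t_log)

/-! ### Contours with deleted edges -/

/-- Contours in `E` with the sources `A`; the edges of `D` have weight one. -/
noncomputable def Zw (n : ℕ) (A : Set Pt) (E D : Finset Edge) : ℝ :=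
  ∑ η ∈ E.powerset, if Src n η A then xc ^ (η \ D).card else 0

noncomputable def Gw (n : ℕ) (v : Pt) (E D : Finset Edge) : ℝ := Zw n {v} E D / Zw n ∅ E D

/-- The signed function with the extra sources `A`. -/
noncomputable def Xw (n : ℕ) (A : Set Pt) (E D : Finset Edge) (v : Pt) (Γ : Finset Edge) : ℝ :=
  (∑ η ∈ E.powerset, if Src n η (symmDiff {v} A) then
    (-1) ^ (η ∩ Γ).card * xc ^ (η \ D).card else 0) / Zw n ∅ E D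

noncomputable def qw (n : ℕ) (S : Finset Pt) (Lf D : Finset Edge) (P : Finset Pt) : ℝ :=
  xc ^ (lam n Lf P \ D).card * Zw n ∅ (eS n S \ Dl n Lf P) D / Zw n ∅ (eS n S) D

/-- The local relations of the signed function. -/
structure Ferm (n : ℕ) (E D : Finset Edge) (A : Set Pt) (X : Pt → Finset Edge → ℝ) : Prop where
  act : ∀ v Γ d, cr v d ∈ E → cr v d ∉ D → X v (symmDiff Γ {cr v d}) =
    Real.sqrt 2 * X v Γ - (if cr v d ∈ Γ then -1 else 1) * X (v + d.vec) Γ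
  blk : ∀ v Γ e, e ∉ E → X v (symmDiff Γ {e}) = X v Γ
  del : ∀ v Γ d, cr v d ∈ E → cr v d ∈ D →
    X (v + d.vec) Γ = (if cr v d ∈ Γ then -1 else 1) * X v Γ
  face : ∀ v Γ q, q ∈ intr n → X v (symmDiff Γ (univ.image (cr q))) =
    (if q ∈ symmDiff ({v} : Set Pt) A then -1 else 1) * X v Γ
  out : ∀ v u Γ, v ∉ intr n → u ∉ intr n → X v Γ = X u Γ

/-- No edge of the top row is in `E`. -/
def NoTop (n : ℕ) (E : Finset Edge) : Prop := ∀ e ∈ E, ¬ ((ea e).2 = n ∧ (eb e).2 = n)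

/-- The primitive of the square of `X`. -/
def HF (n : ℕ) (X : Pt → Finset Edge → ℝ) (Hp Hs : Pt → ℝ) : Prop :=
  ∀ w ∈ box n, ∀ v, Corner v w → Hp v = Hs w + X v (ray n w) ^ 2

/-- Plaquettes joined through edges of `F`. -/
def FConn (F : Finset Edge) (p q : Pt) : Prop :=
  Relation.ReflTransGen (fun a b => ∃ d, cr a d ∈ F ∧ b = a + d.vec) p q

/-- Joined by moves of the network of `E`. -/
def Reach (n : ℕ) (E : Finset Edge) (v y : Pt) : Prop :=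
  Relation.ReflTransGen (fun a b => ∃ d, (net n E).mv a d ∧ b = a + d.vec) v y

/-- Joined by moves that start at distance less than `R` from `c`. -/
def LRe (n : ℕ) (E : Finset Edge) (c : Pt) (R : ℤ) (v y : Pt) : Prop :=
  Relation.ReflTransGen (fun a b => ∃ d, (net n E).mv a d ∧ nrm (a - c) < R ∧ b = a + d.vec) v y

/-- Both sides of the edge are inner plaquettes. -/
def Inner (n : ℕ) (e : Edge) : Prop := ∃ p d, cr p d = e ∧ p ∈ intr n ∧ p + d.vec ∈ intr n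

/-- A nearest neighbour path inside `G`. -/
def NPath (G : Finset Pt) (a b : Pt) : Prop :=
  Relation.ReflTransGen (fun u w => NN u w ∧ w ∈ G) a b

-- deps:
def S_KC1 : Prop := ∀ (n : ℕ) (E D : Finset Edge),
  (∀ A, Ferm n E D A (Xw n A E D)) ∧ 0 < Zw n ∅ E D ∧ (∀ A, 0 ≤ Zw n A E D) ∧
  (∀ v, Xw n ∅ E D v ∅ = Gw n v E D) ∧ (∀ v, Xw n {v} E D v ∅ = 1) ∧
  ∀ v, v ∉ intr n → Xw n ∅ E D v ∅ = 1

-- deps:
def S_STEP : Prop := ∀ (n : ℕ) (E D : Finset Edge) (A : Set Pt) (X : Pt → Finset Edge → ℝ),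
  Ferm n E D A X → NoTop n E → ∀ (w : Pt) (d : Dir) (v : Pt), inc w d ∈ ebox n → ∃ ε : ℝ,
    (ε = 1 ∨ ε = -1) ∧
    (∀ Γ, X v (symmDiff Γ (symmDiff (symmDiff (ray n w) {inc w d}) (ray n (w + d.vec)))) =
      ε * X v Γ) ∧
    (A = ∅ → v ∈ intr n →
      (ε = -1 ↔ (inc w d).2 = true ∧ (inc w d).1.1 = v.1 ∧ (inc w d).1.2 ≤ v.2))

-- deps: STEP
def S_KC : Prop := ∀ (n : ℕ) (E D : Finset Edge) (A : Set Pt) (X : Pt → Finset Edge → ℝ),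
  Ferm n E D A X → E ⊆ ebox n → NoTop n E → ∃ Hp Hs : Pt → ℝ, HF n X Hp Hs ∧
    (∀ v, v ∉ intr n → Hp v = X v ∅ ^ 2) ∧
    (∀ w d, inc w d ∈ ebox n → inc w d ∉ E → Hs (w + d.vec) = Hs w) ∧
    (∀ w, TopConn n E w → Hs w = 0 ∧ ∀ v, X v (ray n w) ^ 2 = X v ∅ ^ 2) ∧
    (∀ v d, cr v d ∈ E → cr v d ∈ D → Hp (v + d.vec) = Hp v) ∧
    (∀ v ∈ intr n, v ∉ A → (∀ d, cr v d ∈ E → cr v d ∉ D) →
      (∀ d, cr v d ∉ E → TopConn n E (ea (cr v d))) →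
      4 * Hp v ≤ ∑ d, if cr v d ∈ E then Hp (v + d.vec) else xc ^ 2 * Hp v) ∧
    ∀ (w : Pt) (κ : ℝ), (∀ d, inc w d ∈ E) →
      (∀ v d d', cr v d = inc w d' → inc w d' ∈ D → Hp v = κ) →
      4 * (κ - Hs w) ≤ ∑ d, if inc w d ∈ D then xc ^ 2 * (κ - Hs w) else κ - Hs (w + d.vec)

-- deps:
def S_DPOIN : Prop := ∀ (n : ℕ) (C : Finset Edge), C ⊆ ebox n →
  (∀ w, Even (univ.filter fun d => inc w d ∈ C).card) → ∃ φ : Pt → Prop,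
    (∀ p d, ¬ (φ p ↔ φ (p + Dir.vec d)) ↔ cr p d ∈ C) ∧ (∀ p, p ∉ intr n → ¬ φ p) ∧
    ∀ p, φ p ↔ Odd (C.filter fun e => e.2 = true ∧ e.1.1 = p.1 ∧ e.1.2 ≤ p.2).card

-- deps: STEP DPOIN
def S_SIGN : Prop := ∀ (n : ℕ) (E D : Finset Edge) (X : Pt → Finset Edge → ℝ) (Hp Hs : Pt → ℝ)
  (v : Pt), SC n E → Ferm n E D ∅ X → HF n X Hp Hs → (∀ p, FConn (E ∩ D) v p → p ∈ intr n) →
  (∃ w, Corner v w ∧ TopConn n E w) → X v ∅ ≠ 0 →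
  ∃ p d, FConn (E ∩ D) v p ∧ cr p d ∈ E ∧ cr p d ∉ D ∧ Hp p < Hp (p + d.vec)

-- deps: STEP
def S_SIGNS : Prop := ∀ (n : ℕ) (E D : Finset Edge) (A : Set Pt) (X : Pt → Finset Edge → ℝ)
  (Hp Hs : Pt → ℝ) (c : Pt) (w : ℕ), Ferm n E D A X → NoTop n E → HF n X Hp Hs →
  ball c (w + 1) ⊆ box n → (∀ e, ea e ∈ ball c w → eb e ∈ ball c w → e ∉ E) →
  cut (ball c w) ⊆ E →
  (∃ v d, cr v d ∈ cut (ball c w) ∧ X v (ray n c) ≠ 0) →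
  ∃ t ∈ ball c w, ∃ d : Dir, t + d.vec ∉ ball c w ∧ inc t d ∉ D ∧ Hs (t + d.vec) < Hs t

/-! ### Potential theory -/

-- deps:
def S_ABEUR : Prop := ∃ c : ℝ, 0 < c ∧ c < 1 ∧ ∃ K : ℕ, 2 ≤ K ∧
  ∀ (N : Net) (u : Pt → ℝ) (p : Pt) (w : ℕ) (B : ℝ), 1 ≤ w → 0 ≤ B →
    (∀ l : ℤ, K * w ≤ l → l ≤ 2 * (K * w) → ∃ q d, nrm (q - p) = l ∧ ¬ N.mv q d) →
    (∀ z, (w : ℤ) < nrm (z - p) → nrm (z - p) < 10 * (K * w) → u z ≤ N.Pr u z) →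
    (∀ z, nrm (z - p) ≤ 10 * (K * w) → u z ≤ B) →
    ∀ z, nrm (z - p) = K * w → u z ≤ (1 - c) * B

-- deps:
def S_MV : Prop := ∃ C : ℝ, 0 < C ∧ ∀ (N : Net) (u : Pt → ℝ) (p : Pt) (r : ℕ), 1 ≤ r →
  (∀ z, 0 ≤ u z) → (∀ z, nrm (z - p) < r → u z ≤ N.Pr u z) →
  u p ≤ C / r ^ 2 * ∑ y ∈ ball p r, u y

-- deps: KC1 KC SIGN ABEUR MV
def S_LDHN : Prop := ∃ K : ℕ, 2 ≤ K ∧ ∃ C : ℝ, 0 < C ∧
  ∀ (n : ℕ) (E D : Finset Edge) (Y : Finset Pt) (c v : Pt) (r : ℕ), SC n E → 1 ≤ r →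
    (∀ e ∈ D, e ∈ E → nrm (ea e - c) ≤ r ∧ nrm (eb e - c) ≤ r ∧
      (TopConn n E (ea e) ∨ TopConn n E (eb e))) →
    (∀ z d, nrm (z - c) ≤ K * r → ¬ (net n E).st z d) →
    (∀ p d, cr p d ∈ D → cr p d ∈ E → p ∈ intr n ∧ p ∈ Y) → NearK (net n E) r c →
    v ∈ intr n → nrm (v - c) ≤ r → (∃ w, Corner v w ∧ TopConn n E w) → v ∈ Y →
    (∀ p ∈ Y, ∀ d, (net n E).mv p d → nrm (p - c) < K * r → p + d.vec ∈ Y) →
    Gw n v E D ^ 2 ≤ C / r ^ 2 * ∑ y ∈ Y.filter (Reach n E v), (hN (net n E) y).toReal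

-- deps:
def S_GRN : Prop := ∃ C : ℝ≥0, ∀ (N : Net) (V : Finset Pt) (y : Pt) (t : ℕ), Far N → 1 ≤ t →
  (∀ v ∈ V, NearK N t v) →
  ms (fun W => ∃ v ∈ V, Al N Set.univ y W v) ≤ C * (t : ℝ≥0∞) ^ 2 ∧
  ∑ v ∈ V, ms (fun W => Al N Set.univ v W y) ≤ C * (t : ℝ≥0∞) ^ 2

-- deps: GRN
def S_THN : Prop := ∀ η : ℝ≥0, 0 < η → ∃ L0 : ℕ, ∀ (N : Net) (V : Finset Pt) (y : Pt) (t0 : ℕ)
  (t r : ℤ), Far N → 1 ≤ t0 → (∀ v ∈ V, NearK N t0 v) → 1 ≤ t → L0 * t ≤ r →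
  ∑ v ∈ V, ms (fun W => Al N Set.univ v W y ∧
    ∃ z, Vis N v W z ∧ r ≤ nrm (z - v) ∧ NearK N t z) ≤ η * (t0 : ℝ≥0∞) ^ 2

/-! ### The denominator -/

noncomputable def chi (A M : Finset Pt) : ℝ := (-1) ^ (A ∩ M).card

-- deps:
def S_GKS : Prop := ∀ (ι : Type) (V B : Finset Pt) (K K' : Finset ι) (A : ι → Finset Pt)
  (t : ι → ℝ), K ⊆ K' → (∀ k ∈ K', 0 ≤ t k ∧ t k ≤ 1) →
  (∑ M ∈ V.powerset, chi B M * ∏ k ∈ K, (1 + t k * chi (A k) M)) *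
      (∑ M ∈ V.powerset, ∏ k ∈ K', (1 + t k * chi (A k) M)) ≤
    (∑ M ∈ V.powerset, chi B M * ∏ k ∈ K', (1 + t k * chi (A k) M)) *
      ∑ M ∈ V.powerset, ∏ k ∈ K, (1 + t k * chi (A k) M)

-- deps: GKS
def S_GKSZ : Prop := ∀ (F F' : Finset Edge) (U U0 U' T T' : Finset Pt), T.Nonempty → F ⊆ F' →
  T ⊆ T' → U ⊆ U0 → U' ∪ T' ⊆ U0 ∪ T → Disjoint U0 T → Disjoint U' T' →
  (∀ e ∈ F, ea e ∉ U0 \ U ∧ eb e ∉ U0 \ U) →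
  Zf F' U' T' (fun _ => True) * Zf F U ∅ (fun _ => True) ≤
    Zf F U T (fun _ => True) * Zf F' U' ∅ fun _ => True

-- deps:
def S_FIL : Prop := ∀ (n : ℕ) (U G T : Finset Pt) (t v : Pt), 1 ≤ n → Disjoint U G →
  Disjoint U T → Disjoint G T → U ∪ G ∪ T = box n \ ring n → t ∈ T →
  (∀ a ∈ T, ∀ b ∈ T, NPath T a b) → (∀ a ∈ T, ∀ d : Dir, a + d.vec ∉ ring n) →
  Xw n {v} (einc (U ∪ G)) (einc G) v (ray n t) *
      (Zf (einc U \ einc G) U ∅ (fun _ => True) + Zf (einc U \ einc G) U T fun _ => True) =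
    Zf (einc U \ einc G) U ∅ (fun _ => True) - Zf (einc U \ einc G) U T fun _ => True

/-- A connected set of sites that crosses the annulus between the distances `w` and `ρ`. -/
structure Slit (c : Pt) (w ρ : ℤ) (G : Finset Pt) : Prop where
  sub : ∀ g ∈ G, w < nrm (g - c) ∧ nrm (g - c) < ρ
  conn : ∀ a ∈ G, ∀ b ∈ G, NPath G a b
  inn : ∃ g ∈ G, nrm (g - c) = w + 1
  out : ∃ g ∈ G, nrm (g - c) = ρ - 1

/-- The free sites of the filled annulus. -/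
noncomputable def Uf (c : Pt) (w ρ : ℤ) (G : Finset Pt) : Finset Pt :=
  ball c (ρ - 1) \ (ball c w ∪ G)

-- deps: KC1 STEP KC SIGNS ABEUR FIL
def S_THF : Prop := ∃ K : ℕ, 2 ≤ K ∧ ∃ c : ℝ, 0 < c ∧ ∀ (w ρ : ℕ) (G : Finset Pt) (o : Pt),
  1 ≤ w → K * w ≤ ρ → o = ((ρ : ℤ) + 1, (ρ : ℤ) + 1) → Slit o w ρ G →
  c * Zf (einc (Uf o w ρ G) \ einc G) (Uf o w ρ G) ∅ (fun _ => True) ≤
    Zf (einc (Uf o w ρ G) \ einc G) (Uf o w ρ G) (ball o w) fun _ => True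

-- deps: GKSZ THF
def S_TH0 : Prop := ∃ K : ℕ, 2 ≤ K ∧ ∃ c : ℝ, 0 < c ∧ ∀ (w ρ : ℕ) (o : Pt) (F : Finset Edge)
  (U T G : Finset Pt), 1 ≤ w → K * w ≤ ρ → T.Nonempty → T ⊆ ball o w → U ⊆ ball o (ρ - 1) →
  Disjoint U T → Slit o w ρ G → Disjoint G U →
  (∀ e ∈ F, (ea e ∈ U ∨ eb e ∈ U) ∧ (ea e ∈ U ∪ T ∨ nrm (ea e - o) = ρ) ∧
    (eb e ∈ U ∪ T ∨ nrm (eb e - o) = ρ)) →
  c * Zf F U ∅ (fun _ => True) ≤ Zf F U T fun _ => True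

-- deps:
def S_SLIT : Prop := ∀ (S : Finset Pt) (o a b : Pt) (w ρ : ℤ), 0 ≤ w → w + 2 ≤ ρ → a ∈ S →
  NPath S a b → nrm (a - o) ≤ w + 1 → ρ - 1 ≤ nrm (b - o) → ∃ G ⊆ S, Slit o w ρ G

/-! ### Weighted versions of the decomposition -/

-- deps:
def S_MONO : Prop := ∀ (G1 G2 : Finset Edge) (U1 U2 T2 : Finset Pt) (A A' : Finset Pt → Prop),
  U1 ⊆ U2 ∪ T2 → Disjoint U2 T2 →
  (∀ e ∈ G1, e ∉ G2 → ea e ∉ U1 ∨ eb e ∉ U1 ∨ (ea e ∈ T2 ∧ eb e ∈ T2)) →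
  (∀ e ∈ G2, e ∉ G1 → (ea e ∉ U1 ∧ eb e ∉ U1) ∨ ea e ∈ T2 ∨ eb e ∈ T2) →
  (∀ M ⊆ U1, A M → ∀ M' ⊆ U2, M ∩ U2 ⊆ M' → A' M') →
  Pr G1 U1 ∅ A ≤ Pr G2 U2 T2 A'

-- deps:
def S_ZEQ : Prop := ∀ (n : ℕ) (S T : Finset Pt) (D : Finset Edge) (A0 : Set Pt), 1 ≤ n →
  Good n S ∅ → T ⊆ S → Src n (cut T ∩ (ebox n \ eS n S)) A0 →
  Zf (eS n S \ D) (box n \ S) T (fun _ => True) = Zw n A0 (eS n S) D

-- deps:
def S_LSM : Prop := ∀ (n : ℕ) (E A B D : Finset Edge), 1 ≤ n → SC n E → SC n A → SC n B → A ⊆ E →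
  B ⊆ E → Zw n ∅ A D * Zw n ∅ B D ≤ Zw n ∅ E D * Zw n ∅ (A ∩ B) D

-- deps:
def S_DEC1 : Prop := ∀ (n : ℕ) (S T : Finset Pt) (Lf Rg D : Finset Edge) (A0 A1 : Set Pt)
  (B Φ : Finset Pt → Prop), Str2 n S T Lf Rg → Src n (cut T ∩ (ebox n \ eS n S)) A0 →
  Src n Lf A1 → (∀ M ⊆ box n \ S, B M → Valid n S Lf Rg (Pcl n S Lf M) ∧ Φ (Pcl n S Lf M)) →
  Zf (eS n S \ D) (box n \ S) T B ≤
    ∑ P ∈ (box n \ S).powerset.filter (fun P => Valid n S Lf Rg P ∧ Φ P),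
      xc ^ (lam n Lf P \ D).card * Zw n (symmDiff A0 A1) (eS n S \ Dl n Lf P) D

-- deps: KC1 LSM
def S_DEC2 : Prop := ∀ (n : ℕ) (S T : Finset Pt) (Lf Rg D : Finset Edge) (A1 : Set Pt), 1 ≤ n →
  Str2 n S T Lf Rg → Src n Lf A1 →
  ∀ (E : Finset Edge) (F : Finset (Finset Pt)), E ⊆ eS n S → SC n E →
    (∀ P ∈ F, Valid n S Lf Rg P ∧ lam n Lf P ⊆ E) →
    ∑ P ∈ F, qw n S Lf D P ≤ Zw n A1 E D / Zw n ∅ E D

/-! ### Two strands -/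

-- deps:
def S_EXIT : Prop := ∀ (n : ℕ) (S T : Finset Pt) (Lf Rg : Finset Edge) (va vb : Pt) (e0 : Edge),
  Str2 n S T Lf Rg → Src n Lf {va} → Src n (cut T ∩ eS n S) (symmDiff {va} {vb}) →
  (∀ e ∈ cut T ∩ eS n S, Inner n e) → e0 ∈ eS n S → ¬ Inner n e0 →
  ∃ Z ⊆ ebox n, ∃ a, (a = ea e0 ∨ a = eb e0) ∧ (∃ s ∈ S, Conn Z a s) ∧
    ∀ P O, Valid n S Lf Rg P → O ⊆ eS n S \ Dl n Lf P → Src n O {vb} → e0 ∈ O →
      (∀ e ∈ O, e ≠ e0 → Inner n e) → Disjoint Z (Dl n Lf P)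

/-- A barrier attached to the run `W` from `y`. -/
structure BarW (n : ℕ) (E : Finset Edge) (y : Pt) (W : List Dir) (E2 K : Finset Edge) : Prop where
  run : Run (net n E) y W
  sub : E2 ⊆ E
  sc : SC n E2
  od : K ⊆ Od y W
  src : Src n K {y}
  disj : Disjoint K E2

-- deps: EXIT
def S_BAR : Prop := ∀ (n : ℕ) (S T : Finset Pt) (Lf Rg : Finset Edge) (va vb : Pt),
  Str2 n S T Lf Rg → Src n Lf {va} → Src n (cut T ∩ eS n S) (symmDiff {va} {vb}) →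
  (∀ e ∈ cut T ∩ eS n S, Inner n e) →
  ∃ (E2 K : Pt → List Dir → Finset Edge) (Gd : Pt → List Dir → Prop),
    (∀ y W, Gd y W → BarW n (eS n S) y W (E2 y W) (K y W)) ∧
    ∀ y W P, Valid n S Lf Rg P → Run (net n (eS n S \ Dl n Lf P)) y W →
      Reach n (eS n S \ Dl n Lf P) vb y → Gd y W ∧ lam n Lf P ⊆ E2 y W

/-- The weight of the pairs of runs that do not cross. -/
noncomputable def omw (n : ℕ) (Y : Finset Pt) (E2 : Pt → List Dir → Finset Edge)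
    (Gd : Pt → List Dir → Prop) : ℝ≥0∞ :=
  ∑ y ∈ Y, ∑ y' ∈ Y, ∑' W, if Gd y W then wt W * hN (net n (E2 y W)) y' else 0

-- deps: KC1 DEC1 DEC2 BAR
def S_TS : Prop := ∀ (n : ℕ) (S T Y : Finset Pt) (Lf Rg D : Finset Edge) (va vb : Pt) (a : ℝ)
  (B : Finset Pt → Prop), 1 ≤ n → Str2 n S T Lf Rg → Src n Lf {va} →
  Src n (cut T ∩ eS n S) (symmDiff {va} {vb}) → (∀ e ∈ cut T ∩ eS n S, Inner n e) → 0 ≤ a →
  (∀ E ⊆ eS n S, SC n E → ∀ v, v = va ∨ v = vb →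
    Gw n v E D ^ 2 ≤ a * ∑ y ∈ Y.filter (Reach n E v), (hN (net n E) y).toReal) →
  (∀ M ⊆ box n \ S, B M → Valid n S Lf Rg (Pcl n S Lf M)) →
  ∃ (E2 K : Pt → List Dir → Finset Edge) (Gd : Pt → List Dir → Prop),
    (∀ y W, Gd y W → BarW n (eS n S) y W (E2 y W) (K y W)) ∧
    ∀ ε H Ω : ℝ, 0 < ε → 0 ≤ Ω → a * ∑ y ∈ Y, (hN (net n (eS n S)) y).toReal ≤ H →
      a ^ 2 * (omw n Y E2 Gd).toReal ≤ H * Ω →
      Zf (eS n S \ D) (box n \ S) T B / Zw n ∅ (eS n S) D ≤ ε * H + Ω / ε ^ 3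

-- deps: KC1 DEC1 DEC2
def S_TS0 : Prop := ∀ (n : ℕ) (S T : Finset Pt) (Lf Rg D : Finset Edge) (A0 : Set Pt) (va : Pt)
  (k : ℝ) (B : Finset Pt → Prop), 1 ≤ n → Str2 n S T Lf Rg → Src n Lf {va} →
  Src n (cut T ∩ eS n S) A0 → (∀ e ∈ Lf, ¬ Col1 e) → 0 ≤ k →
  (∀ E ⊆ eS n S, SC n E → Zw n (symmDiff A0 {va}) E D / Zw n ∅ E D ≤ k) →
  (∀ M ⊆ box n \ S, B M → Valid n S Lf Rg (Pcl n S Lf M) ∧ ∀ u ∈ Pcl n S Lf M, u.1 ≠ 1) →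
  Zf (eS n S \ D) (box n \ S) T B / Zw n ∅ (eS n S) D ≤
    Gw n va ((eS n S).filter fun e => ¬ Col1 e) D * k

-- deps:
def S_ARC : Prop := ∀ (τ : Pt → Prop) (η1 η2 : Finset Edge) (v q0 : Pt) (R : ℕ),
  (∀ e, (R : ℤ) ≤ nrm (ea e - v) → nrm (ea e - v) ≤ R + 1 → (R : ℤ) ≤ nrm (eb e - v) →
    nrm (eb e - v) ≤ R + 1 →
    ¬ (e ∈ η1 ∧ e ∈ η2) ∧ (¬ (τ (ea e) ↔ τ (eb e)) ↔ e ∈ η1 ∨ e ∈ η2)) →
  nrm (q0 - v) ≤ R → (∀ q, nrm (q - v) ≤ R → (Odd (deg η1 q) ↔ q = q0)) →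
  ∃ (l : ℕ) (w : ℕ → Pt), l ≤ 8 * R + 8 ∧ (∀ i < l, NN (w i) (w (i + 1))) ∧
    (∀ i ≤ l, τ (w i) ∧ (R : ℤ) ≤ nrm (w i - v) ∧ nrm (w i - v) ≤ R + 1) ∧
    (∃ d, inc (w 0) d ∈ η1) ∧ ∃ d, inc (w l) d ∈ η2

/-- The run from `y` is thin at the scale `r` around `c`. -/
def Thin2 (N : Net) (t r : ℤ) (c y : Pt) (W : List Dir) : Prop :=
  ∃ z, Vis N y W z ∧ r ≤ nrm (z - c) ∧ nrm (z - c) ≤ 4 * r ∧ NearK N t z

def Many2 (N : Net) (t L l : ℕ) (c y : Pt) (W : List Dir) : Prop :=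
  l ≤ ((range (4 * l)).filter fun j => Thin2 N (t * 5 ^ j) (L * (t * 5 ^ j)) c y W).card

/-- A dual path from `y` to `y'` through edges of `E` near `c`. -/
def Patch (n : ℕ) (E : Finset Edge) (c : Pt) (u : ℤ) (y y' : Pt) : Prop :=
  ∃ π ⊆ E, Src n π (symmDiff {y} {y'}) ∧ ∀ e ∈ π, nrm (ea e - c) ≤ u ∧ nrm (eb e - c) ≤ u

-- deps: ARC
def S_NIG : Prop := ∀ (n : ℕ) (S : Finset Pt) (E' K : Finset Edge) (c y y' : Pt) (R : ℤ)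
  (M s r : ℕ) (W W' : List Dir), Good n S ∅ → Loc n S ∅ c R → 1 ≤ s →
  4 * ((2 * M + 8) * s) ≤ r → 8 * (r : ℤ) ≤ R → BarW n (eS n S) y W E' K →
  Run (net n E') y' W' → Patch n (eS n S) c r y y' → nrm (y - c) ≤ r →
  ¬ Thin2 (net n (eS n S)) ((2 * M + 8) * s : ℕ) r c y W →
  ¬ Thin2 (net n (eS n S)) ((2 * M + 8) * s : ℕ) r c y' W' →
  ∃ (l : ℕ) (x : ℕ → Pt), l ≤ 16 * r + 9 ∧ (∀ i < l, nrm (x (i + 1) - x i) ≤ 1) ∧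
    (∀ i ≤ l, ∀ z, nrm (z - x i) ≤ M * s → ((r : ℤ) ≤ nrm (z - c) ∧ nrm (z - c) ≤ 4 * r) ∧
      ∀ d, (net n (eS n S)).mv z d) ∧
    NearK (net n E') s (x 0) ∧ Vis (net n E') y' W' (x l)

-- deps: NIG
def S_NI : Prop := ∃ c1 : ℕ, 1 ≤ c1 ∧ ∀ L : ℕ, 4 ≤ L → ∃ θ : ℝ≥0, θ < 1 ∧
  ∀ (n : ℕ) (S Y : Finset Pt) (c : Pt) (u l : ℕ) (R : ℤ)
    (E2 K : Pt → List Dir → Finset Edge) (Gd : Pt → List Dir → Prop), Good n S ∅ → 1 ≤ u →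
    8 * (L * (c1 * u * 5 ^ (4 * l)) : ℕ) ≤ R → Loc n S ∅ c R → (∀ y ∈ Y, nrm (y - c) ≤ u) →
    (∀ y ∈ Y, ∀ y' ∈ Y, Patch n (eS n S) c u y y') →
    (∀ y W, Gd y W → BarW n (eS n S) y W (E2 y W) (K y W)) →
    omw n Y E2 Gd ≤ (∑ y ∈ Y, hN (net n (eS n S)) y) *
      (θ ^ (2 * l) * ∑ y ∈ Y, hN (net n (eS n S)) y +
        2 * ∑ y ∈ Y, hm (net n (eS n S)) y (Many2 (net n (eS n S)) (c1 * u) L l c y))

/-! ### Crosscuts -/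

/-- The free sites in front of the crosscut `T`. -/
noncomputable def Wf (n : ℕ) (S T : Finset Pt) : Finset Pt :=
  (box n \ (S ∪ T)).filter fun u => ∃ b : Pt, b.2 = 1 ∧ SPath (box n \ (S ∪ T)) u b

/-- The edges from the crosscut to the sites in front of it. -/
noncomputable def ETf (n : ℕ) (S T : Finset Pt) : Finset Edge :=
  (cut T).filter fun e => ea e ∈ Wf n S T ∨ eb e ∈ Wf n S T

/-- A minus arm from a neighbour of `T0` to the bottom row that avoids `T`. -/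
def ArmT (T0 T M : Finset Pt) : Prop :=
  ∃ s ∈ T0, ∃ s' b : Pt, Star s s' ∧ b.2 = 1 ∧ SPath (M \ T) s' b

/-- A minus arm from the neighbourhood of the block around `z`, which is near `S`. -/
def ArmB (S : Finset Pt) (z : Pt) (l : ℕ) (M : Finset Pt) : Prop :=
  (∃ w ∈ S, nrm (w - z) ≤ l + 1) ∧ ∃ s b : Pt, nrm (s - z) ≤ l + 1 ∧ b.2 = 1 ∧ SPath M s b

/-- The site is away from the four sides. -/
def Ins (n : ℕ) (t : Pt) : Prop := 2 ≤ t.1 ∧ t.1 + 1 ≤ n ∧ 2 ≤ t.2 ∧ t.2 + 1 ≤ n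

/-- A crosscut whose front edges form a dual path from `v1` to `v2`. -/
structure Cls (n : ℕ) (S T : Finset Pt) (v1 v2 : Pt) : Prop where
  ins : ∀ t ∈ T, t ∉ S ∧ Ins n t
  conn : ∀ a ∈ T, ∀ b ∈ T, NPath T a b
  touch : ∃ t ∈ T, ∃ d : Dir, t + d.vec ∈ S
  c1 : (∃ y ∈ S, Corner v1 y) ∧ ∃ t ∈ T, Corner v1 t
  c2 : (∃ y ∈ S, Corner v2 y) ∧ ∃ t ∈ T, Corner v2 t
  src : Src n (ETf n S T) (symmDiff {v1} {v2})
  p2 : FConn (ETf n S T) v1 v2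
  path : ∀ p, (∃ t ∈ T, Corner p t) → (∃ u ∈ Wf n S T, Corner p u) → FConn (ETf n S T) v1 p

/-- An induced path outside `S` that touches `S` exactly at its two ends. -/
structure RunP (n : ℕ) (S : Finset Pt) (m : ℕ) (t : ℕ → Pt) (d : ℕ → Dir) : Prop where
  len : 3 ≤ m
  step : ∀ i, i + 1 < m → t (i + 1) = t i + (d i).vec
  inj : ∀ i < m, ∀ j < m, t i = t j → i = j
  ind : ∀ i < m, ∀ j < m, NN (t i) (t j) → j = i + 1 ∨ i = j + 1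
  ins : ∀ i < m, t i ∉ S ∧ Ins n (t i)
  mid : ∀ i, 0 < i → i + 1 < m → ∀ e : Dir, t i + e.vec ∉ S
  first : ∃ e : Dir, t 0 + e.vec ∈ S
  last : ∃ e : Dir, t (m - 1) + e.vec ∈ S

-- deps: DPOIN
def S_RUN : Prop := ∀ (n : ℕ) (S : Finset Pt) (m : ℕ) (t : ℕ → Pt) (d : ℕ → Dir), Good n S ∅ →
  RunP n S m t d →
  (∃ i, 0 < i ∧ i + 1 < m ∧ ∃ u ∈ Wf n S ((range m).image t), Star (t i) u) →
  ∃ v1 v2, Cls n S ((range m).image t) v1 v2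

-- deps: DPOIN
def S_RUN1 : Prop := ∀ (n : ℕ) (S : Finset Pt) (s : Pt), Good n S ∅ → s ∉ S → Ins n s →
  (∃ d : Dir, s + d.vec ∈ S) → (∃ u ∈ Wf n S {s}, Star s u) → ∃ v1 v2, Cls n S {s} v1 v2

-- deps:
def S_WF : Prop := ∀ (n : ℕ) (S T : Finset Pt) (v1 v2 : Pt), Good n S ∅ → Cls n S T v1 v2 →
  Good n (box n \ Wf n S T) ∅ ∧ S ∪ T ⊆ box n \ Wf n S T ∧
  (∀ u ∈ Wf n S T, ∀ w ∈ box n, Star u w → w ∈ Wf n S T ∨ w ∈ S ∨ w ∈ T) ∧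
  cut ((box n \ Wf n S T) \ S) ∩ eS n (box n \ Wf n S T) = ETf n S T ∧
  (∀ e ∈ ETf n S T, Inner n e) ∧
  ∀ M ⊆ box n \ S, ArmT T T M → ArmT T T (M ∩ Wf n S T)

-- deps: WF
def S_LFT : Prop := ∀ (n : ℕ) (S T : Finset Pt) (v1 v2 : Pt), Good n S ∅ → Cls n S T v1 v2 →
  (∃ M ⊆ Wf n S T, ArmT T T M) →
  ∃ Lf Rg va vb, ((va = v1 ∧ vb = v2) ∨ (va = v2 ∧ vb = v1)) ∧
    Str2 n (box n \ Wf n S T) ((box n \ Wf n S T) \ S) Lf Rg ∧ Src n Lf {va} ∧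
    (∀ e ∈ Lf, ¬ Col1 e) ∧
    ∀ M ⊆ Wf n S T, ArmT T T M → Valid n (box n \ Wf n S T) Lf Rg (Pcl n (box n \ Wf n S T) Lf M) ∧
      ∀ u ∈ Pcl n (box n \ Wf n S T) Lf M, u.1 ≠ 1

/-- The plaquettes that can be reached from `v` near `c`. -/
noncomputable def Yf (n : ℕ) (E : Finset Edge) (c : Pt) (R : ℤ) (v : Pt) : Finset Pt :=
  (ball c R).filter (LRe n E c R v)

/-- The deleted edges. -/
noncomputable def Df (S : Finset Pt) (E : Finset Edge) (c : Pt) (r : ℤ) (Y : Finset Pt) :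
    Finset Edge :=
  E.filter fun e => (ea e ∈ S ∨ eb e ∈ S) ∧ nrm (ea e - c) ≤ r ∧ nrm (eb e - c) ≤ r ∧
    ∃ p ∈ Y, ∃ d, cr p d = e

/-- The ball of radius `R` is away from the left, the right and the bottom side. -/
def Away (n : ℕ) (c : Pt) (R : ℤ) : Prop := R + 2 ≤ c.1 ∧ c.1 + R + 2 ≤ n ∧ R + 2 ≤ c.2

-- deps: GKSZ TH0 SLIT WF
def S_TH1 : Prop := ∃ K : ℕ, 2 ≤ K ∧ ∃ c : ℝ, 0 < c ∧ ∀ (n : ℕ) (S T : Finset Pt) (v1 v2 o : Pt)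
  (w r R : ℕ), Good n S ∅ → Cls n S T v1 v2 → 1 ≤ w → T ⊆ ball o w → K * w ≤ r → r + 2 ≤ R →
  Away n o R →
  c * Zf (eS n (box n \ Wf n S T) \ Df S (eS n (box n \ Wf n S T)) o r
      (Yf n (eS n (box n \ Wf n S T)) o R v1)) (Wf n S T) ∅ (fun _ => True) ≤
    Zf (eS n (box n \ Wf n S T) \ Df S (eS n (box n \ Wf n S T)) o r
      (Yf n (eS n (box n \ Wf n S T)) o R v1)) (Wf n S T) ((box n \ Wf n S T) \ S) fun _ => True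

-- deps: KC1 LDHN MONO ZEQ TS TS0 WF LFT TH1
def S_CB : Prop := ∃ K : ℕ, 1 ≤ K ∧ ∃ C : ℝ, 0 < C ∧ ∀ (n : ℕ) (S T : Finset Pt) (v1 v2 o : Pt)
  (w : ℕ), Good n S ∅ → Cls n S T v1 v2 → 1 ≤ w → T ⊆ ball o w → Away n o (K * w) →
  ∃ Y : Finset Pt, (∀ y ∈ Y, nrm (y - o) ≤ K * w ∧ NearK (net n (eS n S)) (2 * (K * w)) y) ∧
    (∀ y ∈ Y, ∀ y' ∈ Y, Patch n (eS n S) o (2 * (K * w)) y y') ∧
    PS n S (ArmT T T) ≤ C * (Real.sqrt (C / w ^ 2 *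
        ∑ y ∈ Y, (hN (net n ((eS n S).filter fun e => ¬ Col1 e)) y).toReal) *
      Real.sqrt (C / w ^ 2 * ∑ y ∈ Y, (hN (net n (eS n S)) y).toReal)) ∧
    ∃ (E2 Kb : Pt → List Dir → Finset Edge) (Gd : Pt → List Dir → Prop),
      (∀ y W, Gd y W → BarW n (eS n S) y W (E2 y W) (Kb y W)) ∧
      ∀ ε H Ω : ℝ, 0 < ε → 0 ≤ Ω → C / w ^ 2 * ∑ y ∈ Y, (hN (net n (eS n S)) y).toReal ≤ H →
        (C / w ^ 2) ^ 2 * (omw n Y E2 Gd).toReal ≤ H * Ω →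
        PS n S (ArmT T T) ≤ C * (ε * H + Ω / ε ^ 3)

/-- The sites at distance `ρ` from `z` that are outside `S` together with their neighbours. -/
noncomputable def Mid (n : ℕ) (S : Finset Pt) (z : Pt) (ρ : ℤ) : Finset Pt :=
  (box n).filter fun t => nrm (t - z) = ρ ∧ t ∉ S ∧ ∀ d : Dir, t + d.vec ∉ S

/-- The component of `s`. -/
noncomputable def Cmp (n : ℕ) (S : Finset Pt) (z : Pt) (ρ : ℤ) (s : Pt) : Finset Pt :=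
  (Mid n S z ρ).filter (NPath (Mid n S z ρ) s)

-- deps:
def S_RING : Prop := ∀ (n : ℕ) (S : Finset Pt) (z s : Pt) (ρ : ℕ), Good n S ∅ → 2 ≤ ρ →
  Away n z ρ → (∃ w ∈ S, nrm (w - z) = ρ) → s ∈ Mid n S z ρ →
  ∃ (m : ℕ) (t : ℕ → Pt) (d : ℕ → Dir), RunP n S m t d ∧ m ≤ 8 * ρ ∧
    (∀ i < m, nrm (t i - z) = ρ) ∧ (Ioo 0 (m - 1)).image t = Cmp n S z ρ s

-- deps: RUN RUN1 RING
def S_CLS : Prop := ∀ (n : ℕ) (S : Finset Pt) (z : Pt) (l : ℕ) (g : ℕ → Pt → ℝ), Good n S ∅ →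
  1 ≤ l → Away n z (2 * l + 1) → (∀ j t, 0 ≤ g j t) →
  (∀ j T v1 v2, 2 ^ j ≤ 48 * l → Cls n S T v1 v2 → T ⊆ ball z (2 * l + 1) → T.card ≤ 2 ^ j →
    ∀ t ∈ T, PS n S (ArmT T T) ≤ g j t) →
  PS n S (ArmB S z l) ≤ 6 / l * ∑ j ∈ (range (48 * l)).filter (fun j => 2 ^ j ≤ 48 * l),
    (∑ t ∈ ball z (2 * l + 1), g j t) / 2 ^ j

/-! ### The sums over the blocks -/

-- deps: CB CLS NI GRN THN
def S_BULK : Prop := ∀ (ε : ℝ) (q : ℕ), 0 < ε → 1 ≤ q → ∃ m0 : ℕ, ∀ n l : ℕ, 1 ≤ l → m0 * l ≤ n →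
  ∀ S, Good n S ∅ →
    ∑ z ∈ (base n).filter (fun z => (n : ℤ) ≤ q * z.1), PS n S (ArmB S z l) ≤ ε * l ^ 2

-- deps: CB CLS GRN
def S_CORN : Prop := ∃ K : ℕ, 1 ≤ K ∧ ∀ ε : ℝ, 0 < ε → ∃ q m0 : ℕ, 1 ≤ q ∧ ∀ n l : ℕ, 1 ≤ l →
  m0 * l ≤ n → ∀ S, Good n S ∅ →
    ∑ z ∈ (base n).filter (fun z => (K : ℤ) * l ≤ z.1 ∧ q * z.1 < (n : ℤ)),
      PS n S (ArmB S z l) ≤ ε * l ^ 2

-- deps: KC1 LDHN MONO ZEQ TS0 GKSZ TH0
def S_CNR : Prop := ∀ ε : ℝ, 0 < ε → ∃ K : ℕ, ∀ (n L : ℕ) (S : Finset Pt), Good n S ∅ → 1 ≤ L →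
  K * L ≤ n → PS n S (fun M => ∃ s b : Pt, s.1 ≤ L ∧ (n : ℤ) - L ≤ s.2 ∧ b.2 = 1 ∧ SPath M s b) ≤ ε

/-- Setting the block around `z` to minus (or to plus) changes the crossing event. -/
def Ev (n : ℕ) (ξ : Pt → Bool) (z : Pt) (l : ℕ) (c : Bool) (M : Finset Pt) : Prop :=
  if c then ¬ TB n ξ M ∧ TB n ξ (M ∪ (ball z l ∩ box n)) else TB n ξ M ∧ ¬ TB n ξ (M \ ball z l)

noncomputable def mnv (n : ℕ) (ξ : Pt → Bool) (l : ℕ) (z : Pt) : ℝ :=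
  min (Pf n (Ev n ξ z l true)) (Pf n (Ev n ξ z l false))

-- deps:
def S_EXPL : Prop := ∀ (n l : ℕ) (ξ : Pt → Bool) (ε : ℝ), 2 * l + 4 ≤ n →
  (∀ S, Good n S ∅ → ∑ z ∈ base n, PS n S (ArmB S z l) ≤ ε) →
  ∑ z ∈ base n, Pf n (Ev n ξ z l true) ≤ ε

-- deps:
def S_SYM : Prop := ∀ (n l : ℕ) (ε : ℝ), 1 ≤ n → (∀ ξ, ∑ z ∈ base n, mnv n ξ l z ≤ ε) →
  ∀ ξ, ∑ z ∈ box n, mnv n ξ l z ≤ 8 * ε

-- deps: BULK CORN CNR EXPL SYM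
def S_BLK : Prop := ∀ ε : ℝ, 0 < ε → ∃ m0 : ℕ, ∀ n l : ℕ, 1 ≤ l → m0 * l ≤ n →
  ∀ ξ, ∑ z ∈ box n, mnv n ξ l z ≤ ε * l ^ 2

/-! ### The dynamics -/

/-- The weighted scalar product. -/
noncomputable def ip {ι : Type} [Fintype ι] (π f g : ι → ℝ) : ℝ := ∑ i, π i * (f i * g i)

-- deps:
def S_PA : Prop := ∀ (ι X : Type) [Fintype ι] [Fintype X] (π : ι → ℝ)
  (d : X → (ι → ℝ) →ₗ[ℝ] (ι → ℝ)) (Adj : X → X → Prop) (Z : Finset Pt) (b : Pt → X → ℝ)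
  (κ δ t : ℝ) (f : ι → ℝ) (F : Pt → ι → ℝ), (∀ i, 0 < π i) →
  (∀ x g h, ip π (d x g) h = ip π g (d x h)) → (∀ x g, d x (d x g) = d x g) →
  (∀ x y, Adj x y → Adj y x) → (∀ x, (univ.filter (Adj x)).card ≤ 4) →
  (∀ x y, x ≠ y → ¬ Adj x y → ∀ g, d x (d y g) = d y (d x g)) →
  (∀ x, ∑ z ∈ Z, b z x = 1) → (∀ x, ∑ z ∈ Z, b z x ^ 2 = κ) →
  (∀ x y, Adj x y → ∑ z ∈ Z, (b z x - b z y) ^ 2 ≤ 2 * δ) → 0 ≤ κ → 0 ≤ δ → 0 ≤ t →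
  (∀ z ∈ Z, ∀ x, b z x ≠ 0 → d x (F z) = 0) →
  ∃ g : ι → ℝ, ip π (f - g) (f - g) + t * ∑ x, ip π (d x g) (d x g) ≤
    (κ + 4 * δ * t) * ∑ z ∈ Z, ip π (f - F z) (f - F z)

/-- The function minus its conditional mean at `x`. -/
noncomputable def dx (b : BC) {n : ℕ} (x : Site n) (g : Conf n → ℝ) : Conf n → ℝ := fun σ =>
  g σ - (cond b σ x true * g (Function.update σ x true) +
    cond b σ x false * g (Function.update σ x false))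

-- deps:
def S_PB : Prop := ∀ (b : BC) (n : ℕ),
  (∀ (x : Site n) g h, ip (ising b) (dx b x g) h = ip (ising b) g (dx b x h)) ∧
  (∀ (x : Site n) g, dx b x (dx b x g) = dx b x g) ∧
  (∀ x y : Site n, x ≠ y → ¬ (grid n).Adj x y → ∀ g, dx b x (dx b y g) = dx b y (dx b x g)) ∧
  ∀ g : Conf n → ℝ, ∑ x, ip (ising b) (dx b x g) (dx b x g) = dirF b g

-- deps:
def S_PC : Prop := ∀ (b : BC) (n : ℕ) (f g : Conf n → ℝ) (t : ℝ), 0 ≤ t →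
  0 ≤ var b f - cov b f t ∧
  var b f - cov b f t ≤ 2 * (ip (ising b) (f - g) (f - g) + t * dirF b g)

-- deps:
def S_PD : Prop := ∃ C : ℝ, 0 < C ∧ ∀ l : ℕ, 1 ≤ l → ∃ (β : Pt → ℝ) (κ : ℝ),
  (∀ z, β z ≠ 0 → nrm z < l) ∧ κ ≤ C / l ^ 2 ∧
  ∀ (Z : Finset Pt) (x : Pt), ball x l ⊆ Z → ∑ z ∈ Z, β (x - z) = 1 ∧ ∑ z ∈ Z, β (x - z) ^ 2 = κ ∧
    ∀ d : Dir, ∑ z ∈ Z, (β (x - z) - β (x + d.vec - z)) ^ 2 ≤ C / l ^ 4

-- deps: PA PB PC PD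
def S_P1 : Prop := ∃ C : ℝ, 0 < C ∧ ∀ (b : BC) (n l : ℕ) (t : ℝ) (f : Conf n → ℝ)
  (F : Pt → Conf n → ℝ) (Z : Finset Pt), 1 ≤ l → 0 ≤ t → (∀ x ∈ box n, ball x l ⊆ Z) →
  (∀ z ∈ Z, ∀ σ x s, nrm (toP x - z) < l → F z (Function.update σ x s) = F z σ) →
  var b f - cov b f t ≤ C / l ^ 2 * (1 + t / l ^ 2) * ∑ z ∈ Z, ip (ising b) (f - F z) (f - F z)

-- deps: BLK
def S_VAR : Prop := ∀ᶠ n in atTop, 1 / 2 ≤ var .free (fcr (n := n))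

-- deps: P1
def S_DYN : Prop := ∃ C : ℝ, 0 < C ∧ ∀ (n l : ℕ) (t : ℝ), 1 ≤ l → l ≤ n → 0 ≤ t →
  var .free (fcr (n := n)) - cov .free (fcr (n := n)) t ≤
    C / l ^ 2 * (1 + t / l ^ 2) * ∑ z ∈ box n, mnv n (fun _ => false) (2 * l) z

-- deps: PC BLK VAR DYN
def S_MAIN : Prop := ∀ t : ℕ → ℝ, (∀ n, 0 ≤ t n) →
  Tendsto (fun n : ℕ => t n / (n : ℝ) ^ 2) atTop (𝓝 0) →
  Tendsto (fun n => corr .free n (t n)) atTop (𝓝 1)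

/-! ### Small tools -/

theorem FConn.path (n : ℕ) {F : Finset Edge} {p q : Pt} (h : FConn F p q) :
    ∃ π ⊆ F, Src n π (symmDiff {p} {q}) := by
  induction h with
  | refl => exact ⟨∅, empty_subset _, (src_empty n).congr fun _ _ => by simp⟩
  | @tail a b _ k ih =>
    obtain ⟨d, k1, rfl⟩ := k
    obtain ⟨π, h1, h2⟩ := ih
    have h3 : Src n {cr a d} (symmDiff {a} {a + d.vec}) := fun q _ => by
      have hne : a + d.vec ≠ a := fun k => d.vec_ne_zero (by simpa using k)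
      rw [odd_deg_singleton, Set.mem_symmDiff]
      simp only [Set.mem_singleton_iff]
      constructor
      · rintro (rfl | rfl)
        exacts [.inl ⟨rfl, hne.symm⟩, .inr ⟨rfl, hne⟩]
      · rintro (k | k)
        exacts [.inl k.1, .inr k.1]
    refine ⟨symmDiff π {cr a d}, symmDiff_subset_union.trans
      (union_subset h1 (singleton_subset_iff.2 k1)), (h2.symmDiff h3).congr fun r _ => ?_⟩
    simp only [Set.mem_symmDiff, Set.mem_singleton_iff]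
    grind

theorem Reach.fconn {n : ℕ} {E : Finset Edge} {p q : Pt} (h : Reach n E p q) :
    FConn (E.filter (Inner n)) p q :=
  rtg_mono (fun a _ ⟨d, k, e⟩ => ⟨d, mem_filter.2 ⟨k.2.2, a, d, rfl, k.1, k.2.1⟩, e⟩) h

theorem LRe.reach {n : ℕ} {E : Finset Edge} {c p q : Pt} {R : ℤ} (h : LRe n E c R p q) :
    Reach n E p q := rtg_mono (fun _ _ ⟨d, k, _, e⟩ => ⟨d, k, e⟩) h

theorem LRe.fconn {n : ℕ} {E : Finset Edge} {c p q : Pt} {R : ℤ} (h : LRe n E c R p q) :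
    FConn (E.filter fun e => nrm (ea e - c) ≤ R ∧ nrm (eb e - c) ≤ R) p q :=
  rtg_mono (fun a _ ⟨d, k, m, e⟩ => ⟨d, mem_filter.2 ⟨k.2.2, by
    have := ni_corner (v := c) (corner_cr a d).1
    have := ni_corner (v := c) (corner_cr a d).2
    omega⟩, e⟩) h

theorem NPath.ivt {G : Finset Pt} {a b : Pt} (ha : a ∈ G) (h : NPath G a b) (c : Pt) {l : ℤ}
    (h1 : nrm (a - c) ≤ l) (h2 : l ≤ nrm (b - c)) : ∃ g ∈ G, nrm (g - c) = l := by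
  induction h with
  | refl => exact ⟨a, ha, le_antisymm h1 h2⟩
  | @tail u w _ k ih =>
    obtain ⟨⟨d, rfl⟩, k2⟩ := k
    by_cases m : l ≤ nrm (u - c)
    · exact ih m
    · have := (nrm_step u c d).1
      exact ⟨_, k2, by omega⟩

theorem sub_ball_of_conn {T : Finset Pt} (h : ∀ a ∈ T, ∀ b ∈ T, NPath T a b) {t : Pt} (ht : t ∈ T)
    {w : ℕ} (hw : T.card ≤ w) : T ⊆ ball t w := by
  intro b hb
  rw [mem_ball]
  have h1 : Icc 0 (nrm (b - t)) ⊆ T.image fun g => nrm (g - t) := fun l hl => by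
    obtain ⟨g, k1, k2⟩ := (h t ht b hb).ivt ht t (l := l) (by simpa using (mem_Icc.1 hl).1)
      (mem_Icc.1 hl).2
    exact mem_image.2 ⟨g, k1, k2⟩
  have h2 := (card_le_card h1).trans card_image_le
  rw [Int.card_Icc] at h2
  omega

theorem card_ball (c : Pt) (r : ℕ) : (ball c r).card = (2 * r + 1) ^ 2 := by
  rw [ball, card_product, Int.card_Icc, Int.card_Icc,
    show c.1 + r + 1 - (c.1 - r) = ((2 * r + 1 : ℕ) : ℤ) by push_cast; ring,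
    show c.2 + r + 1 - (c.2 - r) = ((2 * r + 1 : ℕ) : ℤ) by push_cast; ring, Int.toNat_natCast, sq]

/-- Every point lies in at most `(2 r + 1) ^ 2` of the balls. -/
theorem sum_ball_le (A B : Finset Pt) (r : ℕ) (f : Pt → ℝ) (hf : ∀ t, 0 ≤ f t) :
    ∑ z ∈ A, ∑ t ∈ B.filter (fun t => nrm (t - z) ≤ r), f t ≤
      (2 * r + 1) ^ 2 * ∑ t ∈ B, f t := by
  simp only [sum_filter]
  rw [sum_comm, mul_sum]
  refine sum_le_sum fun t _ => ?_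
  rw [← sum_filter, sum_const, nsmul_eq_mul]
  refine mul_le_mul_of_nonneg_right ?_ (hf t)
  have : (A.filter fun z => nrm (t - z) ≤ r).card ≤ (2 * r + 1) ^ 2 := by
    rw [← card_ball t r]
    exact card_le_card fun z hz => mem_ball.2 (nrm_sub_comm t z ▸ (mem_filter.1 hz).2)
  exact_mod_cast this

end Pool.Agent.P.MP_347bd1_pr.M
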