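import Pool.Agent.P.MP_347bd1_pr.Stmts2

/-! Tools from the fixed time result that are used again (part 1). -/

namespace Pool.Agent.P.MP_347bd1_pr.M

open Classical Finset

open scoped ENNReal NNReal

/-- The squared Euclidean distance. -/
def fluxS (c z : Pt) : ℤ := (z.1 - c.1) ^ 2 + (z.2 - c.2) ^ 2

theorem flux_concat {A B C : List Dir → Prop}
    (h : ∀ W, C W → ∃ W1 W2, W = W1 ++ W2 ∧ A W1 ∧ B W2) : ms C ≤ ms A * ms B := by
  refine (ms_concat (A := A) (B := fun _ => B) h).trans (le_of_eq ?_)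
  rw [ms, ms.eq_1 A, ← ENNReal.tsum_mul_right]
  exact tsum_congr fun W => by split_ifs <;> simp

theorem flux_single (d : Dir) : ms (fun W => W = [d]) ≤ 1 := by
  rw [ms, tsum_eq_single [d] fun W k => by simp [k]]
  simp [wt]

/-- Decomposition at the last visit of `T`. -/
theorem flux_last {N : Net} {T : Set Pt} {p : Pt} (n : ℕ) : ∀ (W1 W2 : List Dir) (z : Pt),
    W2.length ≤ n → Al N Set.univ p W1 z → z ∈ T → ∃ W3 W4 y, W1 ++ W2 = W3 ++ W4 ∧
      Al N Set.univ p W3 y ∧ y ∈ T ∧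
      ∀ W5 W6 y', W4 = W5 ++ W6 → W5 ≠ [] → Al N Set.univ y W5 y' → y' ∉ T := by
  induction n with
  | zero =>
    intro W1 W2 z h1 h2 h3
    obtain rfl : W2 = [] := List.length_eq_zero_iff.1 (by omega)
    refine ⟨W1, [], z, rfl, h2, h3, fun W5 W6 y' e k => absurd ?_ k⟩
    exact (List.append_eq_nil_iff.1 e.symm).1
  | succ n ih =>
    intro W1 W2 z h1 h2 h3
    by_cases k : ∃ W5 W6 y', W2 = W5 ++ W6 ∧ W5 ≠ [] ∧ Al N Set.univ z W5 y' ∧ y' ∈ T
    · obtain ⟨W5, W6, y', rfl, k1, k2, k3⟩ := k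
      have : 0 < W5.length := List.length_pos_iff.2 k1
      rw [← List.append_assoc]
      exact ih (W1 ++ W5) W6 y' (by rw [List.length_append] at h1; omega) (h2.append k2) k3
    · exact ⟨W1, W2, z, rfl, h2, h3, fun W5 W6 y' e k1 k2 k3 => k ⟨W5, W6, y', e, k1, k2, k3⟩⟩

theorem flux_near {N : Net} {R : Set Pt} {p q : Pt} {W : List Dir} (h : Al N R p W q) :
    q = p ∨ ∃ r ∈ R, nrm (q - r) ≤ 1 := by
  induction h with
  | nil => exact Or.inl rfl
  | @move p q d W h1 _ _ ih =>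
    rcases ih with rfl | ih
    · exact Or.inr ⟨p, h1, by simp⟩
    · exact Or.inr ih
  | bounce _ _ _ ih => exact ih

theorem flux_nrm_le {c z : Pt} {r : ℤ} (hr : 0 ≤ r) (h : fluxS c z ≤ r ^ 2) : nrm (z - c) ≤ r := by
  unfold fluxS at h
  rw [nrm_le_iff]
  simp only [Prod.fst_sub, Prod.snd_sub]
  have h1 := abs_le_of_sq_le_sq' (a := z.1 - c.1) (b := r) (by nlinarith [sq_nonneg (z.2 - c.2)]) hr
  have h2 := abs_le_of_sq_le_sq' (a := z.2 - c.2) (b := r) (by nlinarith [sq_nonneg (z.1 - c.1)]) hr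
  omega

theorem flux_le_of_nrm {c z : Pt} {r : ℤ} (h : nrm (z - c) ≤ r) : fluxS c z ≤ 2 * r ^ 2 := by
  unfold fluxS
  rw [nrm_le_iff] at h
  simp only [Prod.fst_sub, Prod.snd_sub] at h
  nlinarith [sq_le_sq' h.1 h.2.1, sq_le_sq' h.2.2.1 h.2.2.2]

theorem flux_abs {x t s : ℤ} (hs : 1 ≤ s) (h : 9 * s ^ 2 < x ^ 2 + t ^ 2) :
    3 * s * |x| ≤ x ^ 2 + t ^ 2 := by
  have h1 := abs_nonneg x
  have h2 := sq_abs x
  rcases le_total |x| (3 * s) with k | k
  · nlinarith
  · nlinarith [sq_nonneg t]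

theorem flux_step_down {c z : Pt} {s : ℤ} (hs : 1 ≤ s) (h : 9 * s ^ 2 < fluxS c z) (d : Dir) :
    s * (fluxS c z - fluxS c (z + d.vec)) ≤ 2 * (fluxS c (z + d.vec) - 1) ∧
      2 ≤ fluxS c (z + d.vec) := by
  unfold fluxS at *
  have h1 := flux_abs hs h
  have h2 := flux_abs (x := z.2 - c.2) (t := z.1 - c.1) hs (by linarith)
  have h3 := abs_le.1 (le_refl |z.1 - c.1|)
  have h4 := abs_le.1 (le_refl |z.2 - c.2|)
  have h5 := abs_nonneg (z.1 - c.1)
  have h6 := abs_nonneg (z.2 - c.2)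
  generalize |z.1 - c.1| = a at *
  generalize |z.2 - c.2| = b at *
  have h7 : a ≤ s * a := by nlinarith
  have h8 : b ≤ s * b := by nlinarith
  have h9 : 1 ≤ s ^ 2 := by nlinarith
  have k1 := mul_le_mul_of_nonneg_left h3.1 (by omega : 0 ≤ s)
  have k2 := mul_le_mul_of_nonneg_left h3.2 (by omega : 0 ≤ s)
  have k3 := mul_le_mul_of_nonneg_left h4.1 (by omega : 0 ≤ s)
  have k4 := mul_le_mul_of_nonneg_left h4.2 (by omega : 0 ≤ s)
  cases d <;> simp only [Dir.vec, Prod.fst_add, Prod.snd_add, add_zero] <;> constructor <;>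
    nlinarith

theorem flux_step_up {c z : Pt} {s : ℤ} (hs : 1 ≤ s) (h : fluxS c z ≤ 9 * s ^ 2) (d : Dir) :
    fluxS c (z + d.vec) - 1 ≤ 9 * s ^ 2 + 6 * s := by
  have h1 := nrm_le_iff.1 (flux_nrm_le (c := c) (z := z) (r := 3 * s) (by omega) (by linarith))
  simp only [Prod.fst_sub, Prod.snd_sub] at h1
  unfold fluxS at *
  cases d <;> simp only [Dir.vec, Prod.fst_add, Prod.snd_add, add_zero] <;> nlinarith

/-- The annulus. -/
def fluxA (c : Pt) (s : ℤ) : Set Pt := {z | 9 * s ^ 2 < fluxS c z ∧ fluxS c z ≤ 36 * s ^ 2}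

theorem flux_barrier (h : T_LOG) (N : Net) (c : Pt) (s : ℕ) (hs : 1 ≤ s) (y : Pt) (d : Dir)
    (hy : fluxS c y ≤ 9 * (s : ℤ) ^ 2) (hy' : 9 * (s : ℤ) ^ 2 < fluxS c (y + d.vec)) :
    Kn N (fluxA c s) (fun z => if fluxS c z ≤ 36 * (s : ℤ) ^ 2 then 0 else 1) (y + d.vec) ≤
      ENNReal.ofReal (9 / s) := by
  obtain ⟨ψ, h1, -, h3⟩ := h.2
  have hs' : (1 : ℤ) ≤ s := by exact_mod_cast hs
  have hr : (1 : ℝ) ≤ s := by exact_mod_cast hs
  set L : Pt → ℝ := fun z => Real.log (fluxS c z - 1) - Real.log (9 * s ^ 2) + 8 / s with hL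
  have hψ : ∀ z, 2 ≤ fluxS c z → L z = ψ (z - c) - Real.log (9 * s ^ 2) + 8 / s := fun z k => by
    rw [h1 (z - c) k]; simp [hL, fluxS]
  have low : ∀ z, 9 * (s : ℤ) ^ 2 < fluxS c z → 8 / (s : ℝ) ≤ L z := fun z k => by
    have k1 : (9 * (s : ℝ) ^ 2) ≤ fluxS c z - 1 := by
      have : 9 * (s : ℤ) ^ 2 ≤ fluxS c z - 1 := by omega
      exact_mod_cast this
    have := Real.log_le_log (by positivity) k1
    simp only [hL]; linarith
  have p2 : (0 : ℝ) < 2 / s := by positivity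
  have e8 : (8 : ℝ) / s = 4 * (2 / s) := by ring
  have stp : ∀ z (d : Dir), 9 * (s : ℤ) ^ 2 < fluxS c z → L z - 2 / s ≤ L (z + d.vec) := by
    intro z d k
    obtain ⟨k1, k2⟩ := flux_step_down hs' k d
    have k3 : (s : ℝ) * (fluxS c z - fluxS c (z + d.vec)) ≤ 2 * (fluxS c (z + d.vec) - 1) := by
      exact_mod_cast k1
    have k4 : (2 : ℝ) ≤ fluxS c (z + d.vec) := by exact_mod_cast k2
    have k5 : (2 : ℝ) ≤ fluxS c z := by
      have : 2 ≤ fluxS c z := by nlinarith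
      exact_mod_cast this
    have k6 := Real.log_le_sub_one_of_pos
      (show (0 : ℝ) < (fluxS c z - 1) / (fluxS c (z + d.vec) - 1) from
        div_pos (by linarith) (by linarith))
    rw [Real.log_div (by linarith) (by linarith)] at k6
    have k7 : ((fluxS c z : ℝ) - 1) / (fluxS c (z + d.vec) - 1) - 1 ≤ 2 / s := by
      rw [div_sub_one (by linarith), div_le_div_iff₀ (by linarith) (by linarith)]
      linarith
    simp only [hL]; linarith
  refine (Kn_le_ofReal (u := fun z => max 0 (L z))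
    (w := fun z => if fluxS c z ≤ 36 * (s : ℤ) ^ 2 then 0 else 1) (fun z => le_max_left _ _)
    (fun z => by split_ifs <;> norm_num) (fun z => by split_ifs <;> simp) (fun z => ?_) _).trans
    (ENNReal.ofReal_le_ofReal ?_)
  · by_cases k : z ∈ fluxA c s
    · have k1 := low z k.1
      have k2 : ∀ d : Dir, max 0 (L (z + d.vec)) = L (z + d.vec) := fun d =>
        max_eq_right (by linarith [stp z d k.1])
      have k3 : max 0 (L z) = L z := max_eq_right (by linarith)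
      have k4 : avg ψ (z - c) ≤ ψ (z - c) := h3 _ fun e => by
        have := k.1
        rw [sub_eq_zero.1 e] at this
        simp [fluxS] at this
        nlinarith
      have k5 : ∀ d : Dir, L (z + d.vec) =
          ψ (z - c + d.vec) - Real.log (9 * s ^ 2) + 8 / s := fun d => by
        rw [hψ _ (flux_step_down hs' k.1 d).2, add_sub_right_comm]
      have k6 : N.Pr (fun z => max 0 (L z)) z ≤ ∑ d : Dir, L (z + d.vec) / 4 :=
        sum_le_sum fun d _ => by
          split_ifs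
          · simp only [k2, le_refl]
          · simp only [k3]; linarith [stp z d k.1]
      rw [if_pos k.2, if_pos k, k3, hψ z (by have := k.1; nlinarith)]
      rw [sum_dir, k5, k5, k5, k5] at k6
      rw [avg, sum_dir] at k4
      linarith
    · rw [if_neg k, add_zero]
      split_ifs with m
      · exact le_max_left _ _
      · refine le_max_of_le_right ?_
        have k1 : (4 * (9 * (s : ℝ) ^ 2)) ≤ fluxS c z - 1 := by
          have : 4 * (9 * (s : ℤ) ^ 2) ≤ fluxS c z - 1 := by omega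
          exact_mod_cast this
        have k2 := Real.log_le_log (by positivity) k1
        rw [Real.log_mul (by norm_num) (by positivity)] at k2
        have k3 : Real.log 4 = 2 * Real.log 2 := by
          rw [show (4 : ℝ) = 2 ^ 2 by norm_num, Real.log_pow]; norm_num
        simp only [hL]; linarith [Real.log_two_gt_d9]
  · refine max_le (by positivity) ?_
    have k1 : (fluxS c (y + d.vec) : ℝ) - 1 ≤ 9 * s ^ 2 + 6 * s := by
      exact_mod_cast flux_step_up hs' hy d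
    have k2 : (0 : ℝ) < fluxS c (y + d.vec) - 1 := by
      have : 0 < fluxS c (y + d.vec) - 1 := by nlinarith
      exact_mod_cast this
    have k6 := Real.log_le_sub_one_of_pos
      (show (0 : ℝ) < (fluxS c (y + d.vec) - 1) / (9 * s ^ 2) from div_pos k2 (by positivity))
    rw [Real.log_div k2.ne' (by positivity)] at k6
    have k7 : ((fluxS c (y + d.vec) : ℝ) - 1) / (9 * s ^ 2) - 1 ≤ 1 / s := by
      rw [div_sub_one (by positivity), div_le_div_iff₀ (by positivity) (by positivity)]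
      nlinarith
    have e9 : (9 : ℝ) / s = 8 / s + 1 / s := by ring
    simp only [hL]; linarith

/-- The steps leaving the inner disc. -/
noncomputable def fluxP (c : Pt) (s : ℤ) : Finset (Pt × Dir) :=
  (ball c (3 * s) ×ˢ univ).filter fun x =>
    fluxS c x.1 ≤ 9 * s ^ 2 ∧ 9 * s ^ 2 < fluxS c (x.1 + x.2.vec)

theorem flux_card (c : Pt) (s : ℕ) (hs : 1 ≤ s) : (fluxP c s).card ≤ 28 * s := by
  have : (fluxP c s).card ≤ ((univ : Finset Dir) ×ˢ Icc (-(3 * (s : ℤ))) (3 * s)).card := by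
    refine card_le_card_of_injOn
      (fun x => (x.2, if x.2 = .N ∨ x.2 = .S then x.1.1 - c.1 else x.1.2 - c.2)) ?_ ?_
    · intro x hx
      have := nrm_le_iff.1 (mem_ball.1 (mem_product.1 (mem_filter.1 hx).1).1)
      simp only [Prod.fst_sub, Prod.snd_sub] at this
      simp only [coe_product, coe_univ, coe_Icc, Set.mem_prod, Set.mem_univ, Set.mem_Icc, true_and]
      split_ifs <;> omega
    · rintro ⟨⟨a, b⟩, d⟩ hx ⟨⟨a', b'⟩, d'⟩ hx' e
      obtain ⟨rfl, e⟩ : d = d' ∧ _ := Prod.mk.inj e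
      obtain ⟨h1, h2⟩ := (mem_filter.1 hx).2
      obtain ⟨h3, h4⟩ := (mem_filter.1 hx').2
      unfold fluxS at h1 h2 h3 h4
      cases d <;> simp [Dir.vec] at e h1 h2 h3 h4 ⊢ <;> subst e <;> simp only [true_and, and_true] <;>
        refine le_antisymm (not_lt.1 fun k => ?_) (not_lt.1 fun k => ?_) <;> nlinarith
  refine this.trans ?_
  rw [card_product, Int.card_Icc, show (univ : Finset Dir).card = 4 from rfl]
  omega

theorem flux_dec {N : Net} {c v : Pt} {s : ℕ} {Φ : Pt → Prop} {W : List Dir}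
    (hst : ∀ z d, nrm (z - c) ≤ 6 * s → ¬ N.st z d) (hW : Run N v W)
    (hz : ∃ z, Vis N v W z ∧ nrm (z - c) ≤ 2 * s ∧ Φ z) :
    ∃ x ∈ fluxP c s, ∃ W1 W2, W = W1 ++ W2 ∧ (Al N Set.univ v W1 x.1 ∧ ∃ z, Vis N v W1 z ∧ Φ z) ∧
      ∃ W3 W4, W2 = W3 ++ W4 ∧ W3 = [x.2] ∧ ∃ W5 W6 y, W4 = W5 ++ W6 ∧
        Al N (fluxA c s) (x.1 + x.2.vec) W5 y ∧ y ∉ fluxA c s ∧
        ¬ fluxS c y ≤ 36 * (s : ℤ) ^ 2 ∧ nrm (y - c) ≤ 6 * s + 1 ∧ Run N y W6 := by
  obtain ⟨z, hv, hz, hΦ⟩ := hz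
  have hzB : fluxS c z ≤ 9 * (s : ℤ) ^ 2 := by
    have := flux_le_of_nrm hz
    nlinarith [sq_nonneg (s : ℤ)]
  obtain ⟨U1, U2, rfl, hU⟩ := id hv
  obtain ⟨W1, W2, y, e, h1, h2, h3⟩ :=
    flux_last (T := {z | fluxS c z ≤ 9 * (s : ℤ) ^ 2}) _ U1 U2 z le_rfl hU hzB
  rw [e] at hW hv ⊢
  have hv1 : Vis N v W1 z := by
    rcases (vis_append h1).1 hv with k | ⟨W5, W6, k1, k2⟩
    · exact k
    · by_cases m : W5 = []
      · subst m
        rw [al_nil.1 k2]; exact h1.vis_end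
      · exact absurd hzB (h3 W5 W6 z k1 m k2)
  obtain ⟨W0, q, d', rfl, k1, k2⟩ := hW.split h1
  have hq : ¬ nrm (q - c) ≤ 6 * s := fun m => hst q d' m k2
  have hy : nrm (y - c) ≤ 3 * s := flux_nrm_le (by omega) 
    (by have : fluxS c y ≤ 9 * (s : ℤ) ^ 2 := h2; linarith)
  cases k1 with
  | nil => exact absurd (by omega) hq
  | @bounce _ _ d W0 _ m _ =>
    exact absurd h2 (h3 [d, d.opp] (W0 ++ [d']) y rfl (by simp) (.bounce trivial m (.nil _)))
  | @move _ _ d W0 _ m k3 =>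
    have hq' : q ∈ {z | ¬ fluxS c z ≤ 36 * (s : ℤ) ^ 2} := fun m =>
      hq (flux_nrm_le (by omega) (by linarith))
    obtain ⟨W5, W6, y2, e2, k4, k5⟩ := (k3.vis_end.append_left [d']).first hq'
    have k6 : Al N (fluxA c s) (y + d.vec) W5 y2 := by
      refine al_iff.2 ⟨k4.univ, fun V1 V2 r e3 m1 m2 => ⟨not_le.1 ?_, ?_⟩⟩
      · exact h3 (d :: V1) (V2 ++ W6) r (by simp [e2, e3]) (by simp) (.move trivial m m2)
      · simpa using (al_iff.1 k4).2 V1 V2 r e3 m1 m2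
    refine ⟨(y, d), mem_filter.2 ⟨mem_product.2 ⟨mem_ball.2 hy, mem_univ _⟩, h2, not_le.1 ?_⟩,
      W1, _, rfl, ⟨h1, z, hv1, hΦ⟩, [d], W0 ++ [d'], rfl, rfl, W5, W6, y2, e2, k6,
      fun m => k5 m.2, k5, ?_, ?_⟩
    · exact h3 [d] (W0 ++ [d']) _ rfl (by simp) (.move trivial m (.nil _))
    · rcases flux_near k6 with rfl | ⟨r, m1, m2⟩
      · have := (nrm_step y c d).1; omega
      · have := flux_nrm_le (c := c) (z := r) (r := 6 * s) (by omega) (by linarith [m1.2])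
        have := nrm_tri y2 r c
        omega
    · exact Run.split (e2 ▸ ⟨W0, q, d', rfl, k3, k2⟩) k6

theorem t_flux (h : T_LOG) : T_FLUX := by
  refine ⟨252, fun N c s V β γ Φ hs _ hst hβ hγ => ?_⟩
  have key : ∀ v, hm N v (fun W => ∃ z, Vis N v W z ∧ nrm (z - c) ≤ 2 * s ∧ Φ v z) ≤
      ∑ x ∈ fluxP c s, ms (fun W => Al N Set.univ v W x.1 ∧ ∃ z, Vis N v W z ∧ Φ v z) *
        (β * ENNReal.ofReal (9 / s)) := by
    intro v
    refine (ms_mono fun W k => flux_dec hst k.1 k.2).trans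
      ((ms_exists_le _ _).trans (sum_le_sum fun x hx => ?_))
    refine (flux_concat fun W k => k).trans (mul_le_mul_right ?_ _)
    refine (flux_concat fun W k => k).trans ((mul_le_of_le_one_left' (flux_single _)).trans ?_)
    refine (ms_exit_le (B := fun y W => ¬ fluxS c y ≤ 36 * (s : ℤ) ^ 2 ∧
      nrm (y - c) ≤ 6 * s + 1 ∧ Run N y W) fun W k => k).trans ?_
    refine (Kn_mono (a' := fun z => β * if fluxS c z ≤ 36 * (s : ℤ) ^ 2 then 0 else 1) le_rfl
      (fun z => ?_) _).trans ?_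
    · by_cases k1 : fluxS c z ≤ 36 * (s : ℤ) ^ 2
      · rw [ms_eq_zero fun W m => m.1 k1]; simp
      · rw [if_neg k1, mul_one]
        split_ifs
        · exact zero_le
        · by_cases k2 : nrm (z - c) ≤ 6 * s + 1
          · exact (ms_mono fun W m => m.2.2).trans (hβ z k2)
          · rw [ms_eq_zero fun W m => k2 m.2.1]; exact zero_le
    · rw [Kn_mul]
      exact mul_le_mul_right
        (flux_barrier h N c s hs _ _ (mem_filter.1 hx).2.1 (mem_filter.1 hx).2.2) _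
  refine (sum_le_sum fun v _ => key v).trans ?_
  rw [sum_comm]
  refine (sum_le_card_nsmul _ _ (γ * (β * ENNReal.ofReal (9 / s))) fun x _ => ?_).trans ?_
  · rw [← sum_mul]; exact mul_le_mul_left (hγ _) _
  · have k : ((fluxP c s).card : ℝ≥0∞) * ENNReal.ofReal (9 / s) ≤ (252 : ℝ≥0) := by
      have hr : (1 : ℝ) ≤ s := by exact_mod_cast hs
      have k1 : ((fluxP c s).card : ℝ) ≤ 28 * s := by exact_mod_cast flux_card c s hs
      rw [← ENNReal.ofReal_natCast, ← ENNReal.ofReal_mul (by positivity),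
        ← ENNReal.ofReal_coe_nnreal]
      refine ENNReal.ofReal_le_ofReal ?_
      rw [← mul_div_assoc, div_le_iff₀ (by positivity)]
      push_cast
      linarith
    calc _ = ((fluxP c s).card : ℝ≥0∞) * ENNReal.ofReal (9 / s) * γ * β := by
          rw [nsmul_eq_mul]; ring
      _ ≤ _ := by gcongr

theorem t_cell (h : T_FLUX) : T_CELL := by
  obtain ⟨C, hC⟩ := h
  refine ⟨4 * C, fun N a s m V β γ Φ hs hV hst hβ hγ => ?_⟩
  have hs' : (0 : ℤ) < s := by exact_mod_cast hs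
  let φ : Pt → Pt := fun v => ((v.1 - a.1) / s, (v.2 - a.2) / s)
  have hφ : ∀ v ∈ V, φ v ∈ Icc (-(m : ℤ)) m ×ˢ Icc (-(m : ℤ)) m := fun v hv => by
    have := nrm_le_iff.1 (hV v hv)
    simp only [Prod.fst_sub, Prod.snd_sub] at this
    simp only [φ, mem_product, mem_Icc, Int.le_ediv_iff_mul_le hs', neg_mul]
    exact ⟨⟨this.1, Int.ediv_le_of_le_mul hs' this.2.1⟩, this.2.2.1,
      Int.ediv_le_of_le_mul hs' this.2.2.2⟩
  rw [← sum_fiberwise_of_maps_to hφ]
  refine (sum_le_card_nsmul _ _ (C * γ * β) fun x _ => ?_).trans ?_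
  · rcases (V.filter fun v => φ v = x).eq_empty_or_nonempty with k | ⟨v0, k⟩
    · rw [k, sum_empty]; exact zero_le
    obtain ⟨k1, k2⟩ := mem_filter.1 k
    have near : ∀ v ∈ V.filter fun v => φ v = x, nrm (v - v0) ≤ s := fun v hv => by
      obtain ⟨e1, e2⟩ := Prod.mk.inj ((mem_filter.1 hv).2.trans k2.symm)
      have f := fun t : ℤ => Int.mul_ediv_add_emod t s
      have g := fun t : ℤ => Int.emod_nonneg t hs'.ne'
      have g' := fun t : ℤ => Int.emod_lt_of_pos t hs'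
      have a1 := f (v.1 - a.1); have a2 := f (v0.1 - a.1)
      have a3 := f (v.2 - a.2); have a4 := f (v0.2 - a.2)
      rw [e1] at a1; rw [e2] at a3
      rw [nrm_le_iff]
      simp only [Prod.fst_sub, Prod.snd_sub]
      refine ⟨?_, ?_, ?_, ?_⟩ <;>
        linarith [g (v.1 - a.1), g (v0.1 - a.1), g (v.2 - a.2), g (v0.2 - a.2), g' (v.1 - a.1),
          g' (v0.1 - a.1), g' (v.2 - a.2), g' (v0.2 - a.2)]
    refine le_trans (sum_le_sum fun v hv => ms_mono fun W m => ⟨m.1, ?_⟩)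
      (hC N v0 s _ β γ Φ hs near (fun z d m => hst v0 k1 z d (by omega))
        (fun z m => hβ v0 k1 z (by omega)) fun y =>
          (sum_le_sum_of_subset (filter_subset _ _)).trans (hγ y))
    obtain ⟨z, m1, m2, m3⟩ := m.2
    exact ⟨z, m1, by have := nrm_tri z v v0; have := near v hv; omega, m3⟩
  · have k : (Icc (-(m : ℤ)) m ×ˢ Icc (-(m : ℤ)) m).card ≤ 4 * (m + 1) ^ 2 := by
      rw [card_product, Int.card_Icc, show ((m : ℤ) + 1 - -m).toNat = 2 * m + 1 by omega]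
      nlinarith
    have k' : ((Icc (-(m : ℤ)) m ×ˢ Icc (-(m : ℤ)) m).card : ℝ≥0∞) ≤ 4 * (m + 1) ^ 2 := by
      exact_mod_cast k
    calc _ ≤ 4 * ((m : ℝ≥0∞) + 1) ^ 2 * (C * γ * β) := by rw [nsmul_eq_mul]; gcongr
      _ = _ := by push_cast; ring

end Pool.Agent.P.MP_347bd1_pr.M

namespace Pool.Agent.P.MP_347bd1_pr.M

open Classical Finset

open scoped ENNReal NNReal

/-- The minus cluster of the top row. -/
noncomputable def explCl (n : ℕ) (ξ : Pt → Bool) (M : Finset Pt) : Finset Pt :=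
  M.filter fun w => ∃ a ∈ M, a.2 = (n : ℤ) ∧
    Relation.ReflTransGen (fun u w => Lk ξ false u w ∧ w ∈ M) a w

/-- The explored set. -/
noncomputable def explS (n : ℕ) (ξ : Pt → Bool) (C : Finset Pt) : Finset Pt :=
  (box n).filter fun w => w ∈ C ∨ w.2 = (n : ℤ) ∨ ∃ c ∈ C, Lk ξ false c w

variable {n : ℕ} {ξ : Pt → Bool}

theorem expl_mem_cl {M : Finset Pt} {w : Pt} : w ∈ explCl n ξ M ↔ w ∈ M ∧ ∃ a ∈ M, a.2 = (n : ℤ) ∧
    Relation.ReflTransGen (fun u w => Lk ξ false u w ∧ w ∈ M) a w := mem_filter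

theorem expl_mem_S {C : Finset Pt} {w : Pt} : w ∈ explS n ξ C ↔
    w ∈ box n ∧ (w ∈ C ∨ w.2 = (n : ℤ) ∨ ∃ c ∈ C, Lk ξ false c w) := mem_filter

theorem expl_cl_top {M : Finset Pt} {w : Pt} (h : w ∈ M) (h' : w.2 = (n : ℤ)) :
    w ∈ explCl n ξ M := expl_mem_cl.2 ⟨h, w, h, h', .refl⟩

theorem expl_cl_step {M : Finset Pt} {u w : Pt} (hu : u ∈ explCl n ξ M) (h : Lk ξ false u w)
    (hw : w ∈ M) : w ∈ explCl n ξ M := by
  obtain ⟨-, a, h1, h2, h3⟩ := expl_mem_cl.1 hu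
  exact expl_mem_cl.2 ⟨hw, a, h1, h2, h3.tail ⟨h, hw⟩⟩

theorem expl_cl_ind {M : Finset Pt} {P : Pt → Prop} (h1 : ∀ a ∈ M, a.2 = (n : ℤ) → P a)
    (h2 : ∀ u ∈ explCl n ξ M, ∀ w ∈ M, Lk ξ false u w → P u → P w) :
    ∀ w ∈ explCl n ξ M, P w := by
  intro w hw
  obtain ⟨-, a, k1, k2, k3⟩ := expl_mem_cl.1 hw
  have : w ∈ explCl n ξ M ∧ P w := by
    clear hw
    induction k3 with
    | refl => exact ⟨expl_cl_top k1 k2, h1 a k1 k2⟩
    | tail _ k ih => exact ⟨expl_cl_step ih.1 k.1 k.2, h2 _ ih.1 _ k.2 k.1 ih.2⟩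
  exact this.2

theorem expl_cl_of_S {M : Finset Pt} {w : Pt} (h : w ∈ M) (h' : w ∈ explS n ξ (explCl n ξ M)) :
    w ∈ explCl n ξ M := by
  rcases (expl_mem_S.1 h').2 with k | k | ⟨c, k1, k2⟩
  exacts [k, expl_cl_top h k, expl_cl_step k1 k2 h]

theorem expl_fibre_iff {M M1 : Finset Pt} (hM : M ⊆ box n) :
    explCl n ξ M = explCl n ξ M1 ↔
      M \ (box n \ explS n ξ (explCl n ξ M1)) = explCl n ξ M1 := by
  constructor
  · intro h
    rw [← h]
    ext w
    simp only [mem_sdiff, not_and, not_not]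
    constructor
    · exact fun k => expl_cl_of_S k.1 (k.2 (hM k.1))
    · intro k
      have k1 := (expl_mem_cl.1 k).1
      exact ⟨k1, fun k2 => expl_mem_S.2 ⟨k2, Or.inl k⟩⟩
  · intro h
    have h1 : ∀ w ∈ M, w ∈ explS n ξ (explCl n ξ M1) → w ∈ explCl n ξ M1 := fun w k k' => by
      rw [← h]; simp [k, k']
    have h2 : ∀ w ∈ explCl n ξ M1, w ∈ M := fun w k => by
      rw [← h] at k; exact (mem_sdiff.1 k).1
    apply Subset.antisymm
    · exact expl_cl_ind (fun a k k' => h1 a k (expl_mem_S.2 ⟨hM k, Or.inr (Or.inl k')⟩))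
        fun u _ w k k' ih => h1 w k (expl_mem_S.2 ⟨hM k, Or.inr (Or.inr ⟨u, ih, k'⟩)⟩)
    · exact expl_cl_ind (fun a k k' => expl_cl_top (h2 a (expl_cl_top k k')) k')
        fun u hu w k k' ih => expl_cl_step ih k' (h2 w (expl_cl_step hu k' k))

theorem expl_good {M : Finset Pt} (hM : M ⊆ box n) : Good n (explS n ξ (explCl n ξ M)) ∅ := by
  set C := explCl n ξ M with hC
  have hb : ∀ c ∈ C, c ∈ box n := fun c k => hM (expl_mem_cl.1 k).1
  have st : ∀ u ∈ explS n ξ C, ∀ w ∈ explS n ξ C, NN u w →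
      TopConn n (eS n (explS n ξ C) ∪ ∅) u → TopConn n (eS n (explS n ξ C) ∪ ∅) w := by
    rintro u hu w hw ⟨d, rfl⟩ h
    refine h.step (inc_mem_ebox.2 ⟨(expl_mem_S.1 hu).1, (expl_mem_S.1 hw).1⟩) ?_
    rw [union_empty, inc_mem_eS]
    simp [hu, hw]
  have st2 : ∀ c ∈ C, ∀ w ∈ box n, Lk ξ false c w →
      TopConn n (eS n (explS n ξ C) ∪ ∅) c → TopConn n (eS n (explS n ξ C) ∪ ∅) w := by
    intro c hc w hw h k
    have k1 : c ∈ explS n ξ C := expl_mem_S.2 ⟨hb c hc, Or.inl hc⟩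
    have k2 : w ∈ explS n ξ C := expl_mem_S.2 ⟨hw, Or.inr (Or.inr ⟨c, hc, h⟩)⟩
    rcases h with h | ⟨h1, h2, -⟩
    · exact st c k1 w k2 h k
    · have m1 : NN c (w.1, c.2) := by
        rw [abs_eq zero_le_one] at h1
        rcases h1 with h1 | h1
        · exact ⟨.W, by simp [Dir.vec, Prod.ext_iff]; omega⟩
        · exact ⟨.E, by simp [Dir.vec, Prod.ext_iff]; omega⟩
      have m2 : NN (w.1, c.2) w := by
        rw [abs_eq zero_le_one] at h2
        rcases h2 with h2 | h2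
        · exact ⟨.S, by simp [Dir.vec, Prod.ext_iff]; omega⟩
        · exact ⟨.N, by simp [Dir.vec, Prod.ext_iff]; omega⟩
      have m3 : (w.1, c.2) ∈ box n := by
        have a1 := mem_box.1 hw
        have a2 := mem_box.1 (hb c hc)
        rw [mem_box]; simp only; omega
      have m4 : (w.1, c.2) ∈ explS n ξ C :=
        expl_mem_S.2 ⟨m3, Or.inr (Or.inr ⟨c, hc, Or.inl m1⟩)⟩
      exact st _ m4 w k2 m2 (st c k1 _ m4 m1 k)
  have cc : ∀ c ∈ C, TopConn n (eS n (explS n ξ C) ∪ ∅) c :=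
    expl_cl_ind (fun a k k' => topConn_top _ (hM k) k') fun u hu w k k' ih => st2 u hu w (hM k) k' ih
  refine ⟨filter_subset _ _, fun w k k' => expl_mem_S.2 ⟨k, Or.inr (Or.inl k')⟩, ?_, by simp⟩
  intro w hw
  obtain ⟨k, k' | k' | ⟨c, k1, k2⟩⟩ := expl_mem_S.1 hw
  exacts [cc w k', topConn_top _ k k', st2 c k1 w k k2 (cc c k1)]

/-- The weight of the explored part. -/
noncomputable def explW (n : ℕ) (ξ : Pt → Bool) (C : Finset Pt) : ℝ :=
  xc ^ (cut (C ∪ ∅) ∩ (ebox n \ einc (box n \ explS n ξ C))).card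

theorem expl_fibre {M1 : Finset Pt} (hM : M1 ⊆ box n) (A : Finset Pt → Prop) :
    Zf (ebox n) (box n) ∅ (fun M => explCl n ξ M = explCl n ξ M1 ∧ A M) =
      explW n ξ (explCl n ξ M1) * Zf (eS n (explS n ξ (explCl n ξ M1)))
        (box n \ explS n ξ (explCl n ξ M1)) ∅ fun M => A (M ∪ explCl n ξ M1) := by
  set C := explCl n ξ M1 with hC
  have hb : ∀ c ∈ C, c ∈ box n := fun c k => hM (expl_mem_cl.1 k).1
  have h1 : C ⊆ box n \ (box n \ explS n ξ C) := fun c k => by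
    have : c ∈ explS n ξ C := expl_mem_S.2 ⟨hb c k, Or.inl k⟩
    simp [hb c k, this]
  have h2 : ebox n ∩ einc (box n \ explS n ξ C) = eS n (explS n ξ C) := by
    ext e
    simp only [mem_inter, mem_einc, mem_sdiff, mem_eS, mem_ebox]
    grind
  have h3 : ∀ e ∈ eS n (explS n ξ C), ea e ∉ C ∧ eb e ∉ C := by
    intro e he
    obtain ⟨k1, k2⟩ := mem_eS.1 he
    obtain ⟨k3, k4⟩ := mem_ebox.1 k1
    obtain ⟨d, -, k5⟩ := exists_inc e
    have k6 : NN (ea e) (eb e) := ⟨d, k5⟩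
    constructor
    · intro k
      rcases k2 with k2 | k2
      · exact k2 (expl_mem_S.2 ⟨k3, Or.inl k⟩)
      · exact k2 (expl_mem_S.2 ⟨k4, Or.inr (Or.inr ⟨_, k, Or.inl k6⟩)⟩)
    · intro k
      rcases k2 with k2 | k2
      · exact k2 (expl_mem_S.2 ⟨k3, Or.inr (Or.inr ⟨_, k, Or.inl k6.symm⟩)⟩)
      · exact k2 (expl_mem_S.2 ⟨k4, Or.inl k⟩)
  rw [Zf_congr (B := fun M => M \ (box n \ explS n ξ C) = C ∧ A M) fun M k => by
    rw [hC, expl_fibre_iff k], Zf_fibre sdiff_subset h1, h2, explW]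
  congr 1
  refine sum_congr rfl fun M _ => ?_
  have : cut (M ∪ (C ∪ ∅)) ∩ eS n (explS n ξ C) = cut (M ∪ ∅) ∩ eS n (explS n ξ C) := by
    ext e
    simp only [mem_inter, mem_cut, mem_union, notMem_empty, or_false, and_congr_left_iff]
    intro he
    simp [h3 e he]
  rw [this]

end Pool.Agent.P.MP_347bd1_pr.M

namespace Pool.Agent.P.MP_347bd1_pr.M

open Classical Finset

open scoped ENNReal NNReal

theorem ts0_src (n : ℕ) (S : Finset Pt) : Src n (cut ∅ ∩ (ebox n \ eS n S)) ∅ := by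
  rw [cut_empty, empty_inter]; exact src_empty n

theorem ts0_one {n : ℕ} {v : Pt} (hv : v ∈ intr n) : 1 ≤ n := by
  have := mem_intr.1 hv; omega

theorem ts0_sc {n : ℕ} {S : Finset Pt} (hS : Good n S ∅) :
    SC n ((eS n S).filter fun e => ¬ Col1 e) := by
  have h := hS.sc_eS
  refine ⟨(filter_subset _ _).trans h.sub, fun e he => h.top e (mem_filter.1 he).1,
    fun e he he' => ?_⟩
  by_cases k : e ∈ eS n S
  swap; · exact (h.conn e he k).mono (filter_subset _ _)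
  have hc : Col1 e := by
    by_contra m
    exact he' (mem_filter.2 ⟨k, m⟩)
  obtain ⟨⟨x, y⟩, b⟩ := e
  obtain ⟨-, hx⟩ := hc
  simp only at hx
  subst hx
  have hb := mem_box.1 (mem_ebox.1 he).1
  simp only [ea] at hb ⊢
  obtain ⟨j, rfl⟩ : ∃ j : ℕ, y = n - j := ⟨(n - y).toNat, by omega⟩
  have := (topConn_top ((eS n S).filter fun e => ¬ Col1 e) (w := (1, n))
    (by rw [mem_box]; simp only; omega) rfl).line .S j fun i hi => by
      simp [mem_ebox, mem_box, ea, eb, inc, Dir.vec, Col1]; omega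
  simpa [Dir.vec, sub_eq_add_neg] using this

end Pool.Agent.P.MP_347bd1_pr.M

namespace Pool.Agent.P.MP_347bd1_pr.M

open Classical Finset

open scoped ENNReal NNReal

/-- The indicator of an edge. -/
noncomputable def poin_i (η : Finset Edge) (e : Edge) : ℕ := if e ∈ η then 1 else 0

theorem poin_deg (η : Finset Edge) (p : Pt) : deg η p =
    poin_i η (cr p .N) + poin_i η (cr p .E) + poin_i η (cr p .S) + poin_i η (cr p .W) := by
  rw [deg_eq4]
  simp only [poin_i]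

/-- The number of contour edges on a path from the top left corner. -/
noncomputable def poin_f (n : ℕ) (η : Finset Edge) (x y : ℤ) : ℕ :=
  (∑ i ∈ Ico (1 : ℤ) x, poin_i η ((i, (n : ℤ)), true)) +
    ∑ j ∈ Ico y (n : ℤ), poin_i η ((x, j), false)

theorem poin_vert (n : ℕ) (η : Finset Edge) (x : ℤ) {y : ℤ} (hy : y < n) :
    poin_f n η x y = poin_f n η x (y + 1) + poin_i η ((x, y), false) := by
  have e : Ico y (n : ℤ) = insert y (Ico (y + 1) (n : ℤ)) := by
    ext j; simp only [mem_Ico, mem_insert]; omega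
  rw [poin_f, poin_f, e, sum_insert (by simp)]
  ring

theorem poin_top (n : ℕ) (η : Finset Edge) {x : ℤ} (hx : 1 ≤ x) :
    poin_f n η (x + 1) n = poin_f n η x n + poin_i η ((x, (n : ℤ)), true) := by
  have e : Ico (1 : ℤ) (x + 1) = insert x (Ico (1 : ℤ) x) := by
    ext j; simp only [mem_Ico, mem_insert]; omega
  rw [poin_f, poin_f, e, sum_insert (by simp), Ico_self, sum_empty, sum_empty]
  ring

theorem poin_hor {n : ℕ} {η : Finset Edge} (h : Src n η ∅) {x : ℤ} (h1 : 1 ≤ x) (h2 : x + 1 ≤ n)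
    (k : ℕ) (hk : k + 1 ≤ n) :
    (poin_f n η x (n - k) + poin_f n η (x + 1) (n - k) +
      poin_i η ((x, (n : ℤ) - k), true)) % 2 = 0 := by
  induction k with
  | zero =>
    simp only [Nat.cast_zero, sub_zero]
    rw [poin_top n η h1]
    omega
  | succ k ih =>
    have h3 := ih (by omega)
    have h4 : ¬ Odd (deg η (x, (n : ℤ) - (k + 1 : ℕ))) := fun m =>
      (h _ (by rw [mem_intr]; simp only; omega)).1 m
    have e : (n : ℤ) - (k + 1 : ℕ) + 1 = n - k := by push_cast; ring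
    rw [poin_vert n η x (y := n - (k + 1 : ℕ)) (by omega),
      poin_vert n η (x + 1) (y := n - (k + 1 : ℕ)) (by omega), e]
    rw [Nat.odd_iff, poin_deg] at h4
    simp only [cr, e] at h4
    omega

theorem t_poin : T_POIN := by
  intro n η hη h
  refine ⟨(box n).filter fun w => Odd (poin_f n η w.1 w.2), filter_subset _ _, ?_, ?_⟩
  · ext e
    rw [mem_inter]
    refine Iff.trans ?_ (and_iff_left_of_imp fun k => hη k)
    refine and_congr_left fun he => ?_
    obtain ⟨h1, h2⟩ := mem_ebox.1 he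
    rw [mem_cut, mem_filter, mem_filter, and_iff_right h1, and_iff_right h2, Nat.odd_iff,
      Nat.odd_iff]
    rw [mem_box] at h1 h2
    obtain ⟨⟨x, y⟩, _ | _⟩ := e
    · simp only [ea, eb, Bool.false_eq_true, if_false, Prod.mk_add_mk, add_zero] at h1 h2 ⊢
      rw [poin_vert n η x (y := y) (by omega), poin_i]
      split_ifs with m <;> simp only [m, iff_true, iff_false] <;> omega
    · simp only [ea, eb, if_true, Prod.mk_add_mk, add_zero] at h1 h2 ⊢
      obtain ⟨k, rfl⟩ : ∃ k : ℕ, y = n - k := ⟨(n - y).toNat, by omega⟩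
      have := poin_hor h (x := x) (by omega) (by omega) k (by omega)
      rw [poin_i] at this
      split_ifs at this with m <;> simp only [m, iff_true, iff_false] <;> omega
  · intro m
    have := (mem_filter.1 m).2
    simp [poin_f] at this

theorem poin_ex (h : T_POIN) {n : ℕ} (hn : 1 ≤ n) {η : Finset Edge} (h1 : η ⊆ ebox n)
    (h2 : Src n η ∅) (T : Finset Pt) : ∃ D ⊆ box n, cut D ∩ ebox n = η ∧
      (((1 : ℤ), (n : ℤ)) ∈ D ↔ ((1 : ℤ), (n : ℤ)) ∈ T) := by
  obtain ⟨D, k1, k2, k3⟩ := h n η h1 h2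
  by_cases k : ((1 : ℤ), (n : ℤ)) ∈ T
  · refine ⟨box n \ D, sdiff_subset, ?_, ?_⟩
    · rw [← k2]
      ext e
      rw [mem_inter, mem_inter]
      refine and_congr_left fun he => ?_
      obtain ⟨a1, a2⟩ := mem_ebox.1 he
      simp only [mem_cut, mem_sdiff, a1, a2, true_and]
      grind
    · have : ((1 : ℤ), (n : ℤ)) ∈ box n := by rw [mem_box]; simp only; omega
      simp [k, k3, this]
  · exact ⟨D, k1, k2, by simp [k, k3]⟩

end Pool.Agent.P.MP_347bd1_pr.M

namespace Pool.Agent.P.MP_347bd1_pr.M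

open Classical Finset

open scoped ENNReal NNReal

theorem thin_sum_le {f : Dir → ℝ} {a b : ℝ} (h : ∀ d, f d ≤ a) {e : Dir} (he : f e ≤ b) :
    ∑ d, f d ≤ 3 * a + b := by
  have := h .N; have := h .E; have := h .S; have := h .W
  rw [sum_dir]
  cases e <;> linarith

theorem thin_rev {N : Net} {V : Finset Pt} {y : Pt} {A : Pt → List Dir → Prop}
    {C : List Dir → Prop} (hA : ∀ v W, A v W → Al N Set.univ v W y)
    (hC : ∀ v ∈ V, ∀ W, A v W → C (rev W)) : ∑ v ∈ V, ms (A v) ≤ ms C := by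
  rw [← ms_rev C]
  simp only [ms]
  rw [← Summable.tsum_finsetSum fun _ _ => ENNReal.summable]
  refine ENNReal.tsum_le_tsum fun W => ?_
  by_cases k : ∃ v ∈ V, A v W
  · obtain ⟨v, k1, k2⟩ := k
    rw [sum_eq_single v (fun v' _ m => if_neg fun m' => m
      ((hA _ _ m').rev.endp_eq.symm.trans (hA _ _ k2).rev.endp_eq)) fun m => absurd k1 m,
      if_pos k2, if_pos (hC v k1 W k2)]
  · rw [sum_eq_zero fun v hv => if_neg fun m => k ⟨v, hv, m⟩]
    exact zero_le

theorem thin_exit (N : Net) (R : Set Pt) (p : Pt) :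
    Kn N R (fun z => if z ∈ R then 0 else 1) p ≤ 1 := by
  refine (Kn_le_ofReal (u := fun _ => 1) (w := fun z => if z ∈ R then 0 else 1)
    (fun _ => zero_le_one) (fun z => by split_ifs <;> norm_num)
    (fun z => by split_ifs <;> simp) (fun z => ?_) p).trans (by simp)
  have h : ∀ d : Dir, (if N.mv z d then (1 : ℝ) / 4 else 1 / 16) ≤ 1 / 4 := fun d => by
    split_ifs <;> norm_num
  have := thin_sum_le h (h .N)
  rw [Net.Pr]
  split_ifs <;> linarith

theorem thin_mul {N : Net} {R : Set Pt} {g : Pt → ℝ≥0∞} {a : ℝ≥0∞} (h : ∀ z, z ∉ R → g z ≤ a)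
    (p : Pt) : Kn N R (fun z => if z ∈ R then 0 else g z) p ≤
      a * Kn N R (fun z => if z ∈ R then 0 else 1) p := by
  rw [← Kn_mul]
  refine Kn_mono subset_rfl (fun z => ?_) p
  split_ifs with k
  · simp
  · simpa using h z k

theorem thin_harm (N : Net) (R : Set Pt) : ∃ u : Pt → ℝ, (∀ z, u z ≤ 1) ∧
    (∀ z ∈ R, u z ≤ N.Pr u z) ∧
    ∀ z, Kn N R (fun z => if z ∈ R then 0 else 1) z = ENNReal.ofReal (u z) := by
  have U1 := thin_exit N R
  have U2 := Kn_rec N R fun z => if z ∈ R then 0 else 1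
  generalize Kn N R (fun z => if z ∈ R then 0 else 1) = U at U1 U2
  have U3 : ∀ z, U z ≠ ∞ := fun z => ne_top_of_le_ne_top (by simp) (U1 z)
  refine ⟨fun z => (U z).toReal, fun z => by simpa using ENNReal.toReal_mono (by simp) (U1 z),
    fun z hz => ?_, fun z => (ENNReal.ofReal_toReal (U3 z)).symm⟩
  have := U2 z
  rw [if_pos hz, if_pos hz, zero_add] at this
  rw [← Net.toReal_Pe U3, ← this]

end Pool.Agent.P.MP_347bd1_pr.M

namespace Pool.Agent.P.MP_347bd1_pr.M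

open Classical Finset

open scoped ENNReal NNReal

/-- A contour from `p` to `q` along `M`. -/
def dual_P (n : ℕ) (M : Finset Pt) (p q : Pt) : Prop :=
  ∃ η ⊆ ebox n, (∀ e ∈ η, ea e ∈ M ∨ eb e ∈ M) ∧ (∀ e ∈ η, ¬ Col1 e) ∧
    Src n η (symmDiff {p} {q})

variable {n : ℕ} {M : Finset Pt} {a p q r : Pt}

theorem dual_refl (p : Pt) : dual_P n M p p :=
  ⟨∅, empty_subset _, by simp, by simp, (src_empty n).congr fun _ _ => by simp⟩

theorem dual_symm (h : dual_P n M p q) : dual_P n M q p := by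
  obtain ⟨η, h1, h2, h3, h4⟩ := h
  exact ⟨η, h1, h2, h3, symmDiff_comm ({p} : Set Pt) {q} ▸ h4⟩

theorem dual_trans (h : dual_P n M p q) (h' : dual_P n M q r) : dual_P n M p r := by
  obtain ⟨η, h1, h2, h3, h4⟩ := h
  obtain ⟨η', k1, k2, k3, k4⟩ := h'
  have s : ∀ e ∈ symmDiff η η', e ∈ η ∨ e ∈ η' := fun e he =>
    (mem_symmDiff.1 he).imp And.left And.left
  refine ⟨symmDiff η η', fun e he => (s e he).elim (@h1 e) (@k1 e),
    fun e he => (s e he).elim (h2 e) (k2 e), fun e he => (s e he).elim (h3 e) (k3 e),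
    (h4.symmDiff k4).congr fun z _ => ?_⟩
  simp only [Set.mem_symmDiff, Set.mem_singleton_iff]
  grind

theorem dual_step (d : Dir) (h1 : ea (cr p d) ∈ M ∨ eb (cr p d) ∈ M) (h2 : ¬ Col1 (cr p d)) :
    dual_P n M p (p + d.vec) := by
  have s : ∀ e ∈ {cr p d} ∩ ebox n, e = cr p d := fun e he => mem_singleton.1 (mem_inter.1 he).1
  refine ⟨{cr p d} ∩ ebox n, inter_subset_right, fun e he => s e he ▸ h1, fun e he => s e he ▸ h2,
    fun z hz => ?_⟩
  have : p + d.vec ≠ p := fun h => d.vec_ne_zero (by simpa using h)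
  rw [deg_inter_ebox hz, odd_deg_singleton]
  simp only [Set.mem_symmDiff, Set.mem_singleton_iff]
  refine ⟨fun h => h.imp (fun h => ⟨h, fun k => this (k.symm.trans h)⟩)
    fun h => ⟨h, fun k => this (h.symm.trans k)⟩, fun h => h.imp And.left And.left⟩

theorem dual_up (ha : a ∈ M) {u v : ℤ} (h1 : a.1 = u ∨ a.1 = u + 1) (h2 : a.2 = v + 1) :
    dual_P n M (u, v) (u, v + 1) := by
  have := dual_step (n := n) (M := M) (p := (u, v)) .N (h1.imp (fun h => ?_) fun h => ?_)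
    (by simp [Col1, cr])
  · simpa [Dir.vec] using this
  · exact (Prod.ext h h2 : a = ea (cr (u, v) .N)) ▸ ha
  · have e : a = eb (cr (u, v) .N) := Prod.ext (by simpa [eb, cr] using h) (by simpa [eb, cr] using h2)
    exact e ▸ ha

theorem dual_right (ha : a ∈ M) {u v : ℤ} (h1 : a.2 = v ∨ a.2 = v + 1) (h2 : a.1 = u + 1)
    (hu : 1 ≤ u) : dual_P n M (u, v) (u + 1, v) := by
  have := dual_step (n := n) (M := M) (p := (u, v)) .E (h1.imp (fun h => ?_) fun h => ?_)
    (by simp only [Col1, cr]; omega)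
  · simpa [Dir.vec] using this
  · exact (Prod.ext h2 h : a = ea (cr (u, v) .E)) ▸ ha
  · have e : a = eb (cr (u, v) .E) := Prod.ext (by simpa [eb, cr] using h2) (by simpa [eb, cr] using h)
    exact e ▸ ha

theorem dual_corner (ha : a ∈ M) (hp : Corner p a) (hq : Corner q a) (h1 : 1 ≤ p.1)
    (h2 : 1 ≤ q.1) : dual_P n M p q := by
  obtain ⟨u, v⟩ := p
  obtain ⟨u', v'⟩ := q
  obtain ⟨p1, p2⟩ := hp
  obtain ⟨q1, q2⟩ := hq
  simp only at p1 p2 q1 q2 h1 h2
  refine dual_trans (q := (u, v')) ?_ ?_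
  · rcases (show v' = v ∨ v' = v + 1 ∨ v = v' + 1 by omega) with rfl | rfl | rfl
    · exact dual_refl _
    · exact dual_up ha p1 (by omega)
    · exact dual_symm (dual_up ha p1 (by omega))
  · rcases (show u' = u ∨ u' = u + 1 ∨ u = u' + 1 by omega) with rfl | rfl | rfl
    · exact dual_refl _
    · exact dual_right ha q2 (by omega) h1
    · exact dual_symm (dual_right ha q2 (by omega) h2)

theorem dual_common {u w : Pt} (h : Star u w) (hu : u ∈ box n) (hw : w ∈ box n) :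
    ∃ r, Corner r u ∧ Corner r w ∧ 1 ≤ r.1 := by
  rw [mem_box] at hu hw
  have := nrm_le_iff.1 h.le
  simp only [Prod.fst_sub, Prod.snd_sub] at this
  refine ⟨(min u.1 w.1, min u.2 w.2), ?_, ?_, ?_⟩ <;> simp only [Corner] <;> omega

theorem t_dual : T_DUAL := by
  intro n M a b p q hM ha h hp hq h1 _ h3 h4
  clear h4
  change dual_P n M p q
  have hb : ∀ {c}, Relation.ReflTransGen (fun u w => Star u w ∧ w ∈ M) a c → c ∈ M := fun k => by
    cases k with
    | refl => exact ha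
    | tail _ k => exact k.2
  induction h generalizing q with
  | refl => exact dual_corner ha hp hq h1 h3
  | tail k k' ih =>
    obtain ⟨r, r1, r2, r3⟩ := dual_common k'.1 (hM (hb k)) (hM k'.2)
    exact dual_trans (ih r r1 r3) (dual_corner k'.2 r2 hq r3 h3)

end Pool.Agent.P.MP_347bd1_pr.M

namespace Pool.Agent.P.MP_347bd1_pr.M

open Classical Finset

open scoped ENNReal NNReal

theorem dec1_sub (n : ℕ) (S : Finset Pt) (Lf : Finset Edge) (M : Finset Pt) :
    Pcl n S Lf M ⊆ (box n \ S) \ M := filter_subset _ _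

theorem dec1_start {n : ℕ} {S M : Finset Pt} {Lf : Finset Edge} {u : Pt} {d : Dir}
    (hu : u ∈ (box n \ S) \ M) (h : inc u d ∈ Lf) : u ∈ Pcl n S Lf M :=
  mem_filter.2 ⟨hu, u, hu, ⟨d, h⟩, Relation.ReflTransGen.refl⟩

theorem dec1_step {n : ℕ} {S M : Finset Pt} {Lf : Finset Edge} {u : Pt} {d : Dir}
    (hu : u ∈ Pcl n S Lf M) (h : u + d.vec ∈ (box n \ S) \ M) : u + d.vec ∈ Pcl n S Lf M := by
  obtain ⟨-, u0, h0, h1, h2⟩ := mem_filter.1 hu
  exact mem_filter.2 ⟨h, u0, h0, h1, h2.tail ⟨⟨d, rfl⟩, h⟩⟩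

theorem dec1_key {n : ℕ} {S T M : Finset Pt} {Lf Rg : Finset Edge} (hs : Str2 n S T Lf Rg)
    (hM : M ⊆ box n \ S) (hv : ∀ u ∈ Pcl n S Lf M, ∀ d, inc u d ∉ Rg) :
    cut (M ∪ T) ∩ eS n S ∩ Dl n Lf (Pcl n S Lf M) = lam n Lf (Pcl n S Lf M) := by
  ext e
  obtain ⟨d, h1, h2⟩ := exists_inc e
  obtain ⟨d', k1, k2⟩ := exists_inc_b e
  have a1 : ea e ∈ Pcl n S Lf M → ea e ∈ (box n \ S) \ M := fun h => dec1_sub n S Lf M h
  have b1 : eb e ∈ Pcl n S Lf M → eb e ∈ (box n \ S) \ M := fun h => dec1_sub n S Lf M h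
  have a2 : ea e ∈ (box n \ S) \ M → e ∈ Lf → ea e ∈ Pcl n S Lf M := fun h k =>
    dec1_start h (d := d) (by rwa [h1])
  have b2 : eb e ∈ (box n \ S) \ M → e ∈ Lf → eb e ∈ Pcl n S Lf M := fun h k =>
    dec1_start h (d := d') (by rwa [k1])
  have a3 : ea e ∈ Pcl n S Lf M → eb e ∈ (box n \ S) \ M → eb e ∈ Pcl n S Lf M := fun h k => by
    rw [h2] at k ⊢; exact dec1_step h k
  have b3 : eb e ∈ Pcl n S Lf M → ea e ∈ (box n \ S) \ M → ea e ∈ Pcl n S Lf M := fun h k => by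
    rw [k2] at k ⊢; exact dec1_step h k
  have a4 : ea e ∈ Pcl n S Lf M → e ∉ Rg := fun h => by have := hv _ h d; rwa [h1] at this
  have b4 : eb e ∈ Pcl n S Lf M → e ∉ Rg := fun h => by have := hv _ h d'; rwa [k1] at this
  have a5 : ea e ∈ M → ea e ∈ box n \ S := fun h => hM h
  have b5 : eb e ∈ M → eb e ∈ box n \ S := fun h => hM h
  have a6 : ea e ∈ T → ea e ∈ S := fun h => hs.hT h
  have b6 : eb e ∈ T → eb e ∈ S := fun h => hs.hT h
  have c1 := hs.lf e
  have c2 := hs.cover e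
  simp only [lam, Dl, mem_inter, mem_union, mem_symmDiff, mem_cut, mem_eS, mem_ebox, mem_einc,
    mem_sdiff] at a1 b1 a2 b2 a3 b3 a4 b4 a5 b5 a6 b6 c1 c2 ⊢
  clear h1 h2 k1 k2 hv hM hs
  generalize (ea e ∈ Pcl n S Lf M) = aP at *
  generalize (eb e ∈ Pcl n S Lf M) = bP at *
  generalize (ea e ∈ M) = aM at *
  generalize (eb e ∈ M) = bM at *
  generalize (ea e ∈ S) = aS at *
  generalize (eb e ∈ S) = bS at *
  generalize (ea e ∈ T) = aT at *
  generalize (eb e ∈ T) = bT at *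
  generalize (ea e ∈ box n) = aB at *
  generalize (eb e ∈ box n) = bB at *
  generalize (e ∈ Lf) = eL at *
  generalize (e ∈ Rg) = eR at *
  grind

theorem dec1_split (η D : Finset Edge) : η \ D = symmDiff η (η ∩ D) := by
  ext e; simp only [mem_sdiff, mem_symmDiff, mem_inter]; grind

end Pool.Agent.P.MP_347bd1_pr.M
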